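import Pool.Agent.Lib.MP_dd84fd_nt.BX.ArDefs
import Pool.Agent.Lib.MP_dd84fd_nt.PL.Overlap
import Pool.Agent.Lib.MP_dd84fd_nt.PL.BMass

/-!
# BX-Ar1: the norm `N2d` and the bilinear form `Bd` on the discs

Cauchy-Schwarz, triangle inequality, pointwise bounds, the mean over the reduced fractions with one
denominator is a contraction, large sieve for trigonometric polynomials.
-/

set_option autoImplicit false

namespace Pool.MP_dd84fd_nt.BX

open Finset Pool.MP_67663b_nt.Odd Pool.MP_dd84fd_nt.En Pool.MP_dd84fd_nt.E2 Pool.MP_dd84fd_nt.LS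
open Pool.MP_dd84fd_nt.GX Pool.MP_dd84fd_nt.HX Pool.MP_dd84fd_nt.IX
open Pool.MP_dd84fd_nt.PL (rr Fam tp)
open Pool.MP_dd84fd_nt.JX (wP gP)
open Pool.MP_dd84fd_nt.LXP (tq)

theorem ar_ee_norm (x : ℝ) : ‖ee x‖ = 1 := by
  unfold ee
  rw [Complex.norm_exp]
  simp

theorem ar_ee_add (x y : ℝ) : ee (x + y) = ee x * ee y := by
  unfold ee
  rw [← Complex.exp_add]
  congr 1
  push_cast
  ring

theorem ar_ee_cont : Continuous ee := by
  unfold ee
  fun_prop

theorem ar_ee_int (m : ℤ) : ee (m : ℝ) = 1 := by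
  unfold ee
  rw [show (2 * (Real.pi : ℂ) * ((m : ℝ) : ℂ) * Complex.I) = (m : ℂ) * (2 * Real.pi * Complex.I) by
    push_cast; ring]
  exact Complex.exp_int_mul_two_pi_mul_I m

theorem ar_le (X : ℕ) {r : ℝ} (hr : 0 ≤ r) : -(r / (X : ℝ)) ≤ r / X := by
  have : 0 ≤ r / (X : ℝ) := div_nonneg hr (Nat.cast_nonneg X)
  linarith

theorem ar_tp_cont (K : ℕ) (c : ℕ → ℂ) : Continuous (tp K c) := by
  unfold tp
  have h := ar_ee_cont
  fun_prop

private theorem a1_sqrt {S A B : ℝ} (hA : 0 ≤ A) (hB : 0 ≤ B)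
    (h : ∀ t : ℝ, 0 < t → 2 * S ≤ t * A + B / t) : S ≤ Real.sqrt A * Real.sqrt B := by
  by_contra hcon
  push Not at hcon
  have hS : 0 < S := lt_of_le_of_lt (by positivity) hcon
  rcases hA.eq_or_lt with hA0 | hA0
  · have ht : 0 < (B + 1) / S := by positivity
    have h1 := h _ ht
    rw [← hA0, mul_zero, zero_add, div_div_eq_mul_div] at h1
    have h2 : B * S / (B + 1) ≤ S := by
      rw [div_le_iff₀ (by positivity)]
      nlinarith
    linarith
  · rcases hB.eq_or_lt with hB0 | hB0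
    · have ht : 0 < S / A := by positivity
      have h1 := h _ ht
      rw [← hB0, zero_div, add_zero, div_mul_cancel₀ _ hA0.ne'] at h1
      linarith
    · have ha : 0 < Real.sqrt A := Real.sqrt_pos.2 hA0
      have hb : 0 < Real.sqrt B := Real.sqrt_pos.2 hB0
      have h1 := h (Real.sqrt B / Real.sqrt A) (by positivity)
      have h2 : Real.sqrt B / Real.sqrt A * A = Real.sqrt A * Real.sqrt B := by
        nth_rewrite 2 [← Real.mul_self_sqrt hA]
        field_simp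
      have h3 : B / (Real.sqrt B / Real.sqrt A) = Real.sqrt A * Real.sqrt B := by
        nth_rewrite 1 [← Real.mul_self_sqrt hB]
        field_simp
      rw [h2, h3] at h1
      linarith

theorem N2d_nonneg (X : ℕ) (ρ : ℕ → ℝ) (QQ : Finset ℕ) (hρ : ∀ q ∈ QQ, 0 ≤ ρ q)
    (f : ℕ → ℕ → ℝ → ℂ) : 0 ≤ N2d X ρ QQ f := by
  unfold N2d
  refine Finset.sum_nonneg fun q hq => Finset.sum_nonneg fun a _ => ?_
  refine intervalIntegral.integral_nonneg (ar_le X (hρ q hq)) fun x _ => ?_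
  positivity

/-- the bilinear form by the norms: Cauchy-Schwarz with a parameter -/
private theorem a1_Bd_le (X : ℕ) {r : ℝ} (hr : 0 ≤ r) (n q : ℕ) (f g : ℕ → ℝ → ℂ)
    (hf : ∀ a, Continuous (f a)) (hg : ∀ a, Continuous (g a)) (t : ℝ) (ht : 0 < t) :
    2 * ‖Bd X r n q f g‖ ≤ t * (∑ a ∈ rr q, ∫ x in (-(r / X))..(r / X), ‖f a x‖ ^ 2) +
      (∑ a ∈ rr q, ∫ x in (-(r / X))..(r / X), ‖g a x‖ ^ 2) / t := by
  have hle := ar_le X hr
  unfold Bd
  have h1 : ‖∑ a ∈ rr q, ∫ x in (-(r / X))..(r / X),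
      f a x * g a x * ee (-((n : ℝ) * ((a : ℝ) / q + x)))‖ ≤
      ∑ a ∈ rr q, ∫ x in (-(r / X))..(r / X), ‖f a x‖ * ‖g a x‖ := by
    refine le_trans (norm_sum_le _ _) (Finset.sum_le_sum fun a _ => ?_)
    refine le_trans (intervalIntegral.norm_integral_le_integral_norm hle) ?_
    apply le_of_eq
    apply intervalIntegral.integral_congr
    intro x _
    simp only [norm_mul, ar_ee_norm, mul_one]
  have h2 : ∀ a ∈ rr q, 2 * (∫ x in (-(r / X))..(r / X), ‖f a x‖ * ‖g a x‖) ≤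
      t * (∫ x in (-(r / X))..(r / X), ‖f a x‖ ^ 2) +
        (∫ x in (-(r / X))..(r / X), ‖g a x‖ ^ 2) / t := by
    intro a _
    have hf2 : Continuous fun x => ‖f a x‖ := (hf a).norm
    have hg2 : Continuous fun x => ‖g a x‖ := (hg a).norm
    have h0 : (∫ x in (-(r / X))..(r / X), ‖g a x‖ ^ 2) / t =
        t⁻¹ * ∫ x in (-(r / X))..(r / X), ‖g a x‖ ^ 2 := by
      rw [div_eq_mul_inv, mul_comm]
    rw [h0,
      ← intervalIntegral.integral_const_mul, ← intervalIntegral.integral_const_mul,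
      ← intervalIntegral.integral_const_mul, ← intervalIntegral.integral_add]
    · apply intervalIntegral.integral_mono_on hle
      · apply Continuous.intervalIntegrable
        fun_prop
      · apply Continuous.intervalIntegrable
        fun_prop
      · intro x _
        have h3 : 0 ≤ (t * ‖f a x‖ - ‖g a x‖) ^ 2 / t := by positivity
        have h4 : (t * ‖f a x‖ - ‖g a x‖) ^ 2 / t =
            t * ‖f a x‖ ^ 2 + t⁻¹ * ‖g a x‖ ^ 2 - 2 * (‖f a x‖ * ‖g a x‖) := by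
          field_simp
          ring
        linarith
    · apply Continuous.intervalIntegrable
      fun_prop
    · apply Continuous.intervalIntegrable
      fun_prop
  calc 2 * ‖∑ a ∈ rr q, ∫ x in (-(r / X))..(r / X),
      f a x * g a x * ee (-((n : ℝ) * ((a : ℝ) / q + x)))‖
      ≤ 2 * ∑ a ∈ rr q, ∫ x in (-(r / X))..(r / X), ‖f a x‖ * ‖g a x‖ := by linarith
    _ = ∑ a ∈ rr q, 2 * (∫ x in (-(r / X))..(r / X), ‖f a x‖ * ‖g a x‖) := by
        rw [Finset.mul_sum]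
    _ ≤ ∑ a ∈ rr q, (t * (∫ x in (-(r / X))..(r / X), ‖f a x‖ ^ 2) +
        (∫ x in (-(r / X))..(r / X), ‖g a x‖ ^ 2) / t) := Finset.sum_le_sum h2
    _ = _ := by rw [Finset.sum_add_distrib, Finset.mul_sum, Finset.sum_div]

theorem Bd_cauchy (X : ℕ) (ρ : ℕ → ℝ) (QQ : Finset ℕ) (hρ : ∀ q ∈ QQ, 0 ≤ ρ q) (n : ℕ)
    (f g : ℕ → ℕ → ℝ → ℂ) (hf : ∀ q a, Continuous (f q a)) (hg : ∀ q a, Continuous (g q a)) :
    ∑ q ∈ QQ, ‖Bd X (ρ q) n q (f q) (g q)‖ ≤
      Real.sqrt (N2d X ρ QQ f) * Real.sqrt (N2d X ρ QQ g) := by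
  apply a1_sqrt (N2d_nonneg X ρ QQ hρ f) (N2d_nonneg X ρ QQ hρ g)
  intro t ht
  unfold N2d
  rw [Finset.mul_sum, Finset.mul_sum, Finset.sum_div, ← Finset.sum_add_distrib]
  exact Finset.sum_le_sum fun q hq => a1_Bd_le X (hρ q hq) n q (f q) (g q) (hf q) (hg q) t ht

theorem Bd_add_left (X : ℕ) (r : ℝ) (n q : ℕ) (f f' g : ℕ → ℝ → ℂ)
    (hf : ∀ a, Continuous (f a)) (hf' : ∀ a, Continuous (f' a)) (hg : ∀ a, Continuous (g a)) :
    Bd X r n q (fun a x => f a x + f' a x) g = Bd X r n q f g + Bd X r n q f' g := by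
  have hee := ar_ee_cont
  unfold Bd
  rw [← Finset.sum_add_distrib]
  refine Finset.sum_congr rfl fun a _ => ?_
  have h1 := hf a
  have h2 := hf' a
  have h3 := hg a
  rw [← intervalIntegral.integral_add (by apply Continuous.intervalIntegrable; fun_prop)
    (by apply Continuous.intervalIntegrable; fun_prop)]
  apply intervalIntegral.integral_congr
  intro x _
  show (f a x + f' a x) * g a x * _ = _
  ring

theorem Bd_comm (X : ℕ) (r : ℝ) (n q : ℕ) (f g : ℕ → ℝ → ℂ) : Bd X r n q f g = Bd X r n q g f := by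
  unfold Bd
  refine Finset.sum_congr rfl fun a _ => ?_
  apply intervalIntegral.integral_congr
  intro x _
  show f a x * g a x * _ = g a x * f a x * _
  ring

theorem N2d_add (X : ℕ) (ρ : ℕ → ℝ) (QQ : Finset ℕ) (hρ : ∀ q ∈ QQ, 0 ≤ ρ q)
    (f g : ℕ → ℕ → ℝ → ℂ) (hf : ∀ q a, Continuous (f q a)) (hg : ∀ q a, Continuous (g q a)) :
    N2d X ρ QQ (fun q a x => f q a x + g q a x) ≤ 2 * N2d X ρ QQ f + 2 * N2d X ρ QQ g := by
  unfold N2d
  rw [Finset.mul_sum, Finset.mul_sum, ← Finset.sum_add_distrib]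
  refine Finset.sum_le_sum fun q hq => ?_
  rw [Finset.mul_sum, Finset.mul_sum, ← Finset.sum_add_distrib]
  refine Finset.sum_le_sum fun a _ => ?_
  have h1 := hf q a
  have h2 := hg q a
  rw [← intervalIntegral.integral_const_mul, ← intervalIntegral.integral_const_mul,
    ← intervalIntegral.integral_add (by apply Continuous.intervalIntegrable; fun_prop)
      (by apply Continuous.intervalIntegrable; fun_prop)]
  refine intervalIntegral.integral_mono_on (ar_le X (hρ q hq))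
    (by apply Continuous.intervalIntegrable; fun_prop)
    (by apply Continuous.intervalIntegrable; fun_prop) fun x _ => ?_
  have h3 : ‖f q a x + g q a x‖ ≤ ‖f q a x‖ + ‖g q a x‖ := norm_add_le _ _
  have h4 := pow_le_pow_left₀ (norm_nonneg _) h3 2
  nlinarith [sq_nonneg (‖f q a x‖ - ‖g q a x‖)]

theorem N2d_neg (X : ℕ) (ρ : ℕ → ℝ) (QQ : Finset ℕ) (f : ℕ → ℕ → ℝ → ℂ) :
    N2d X ρ QQ (fun q a x => -f q a x) = N2d X ρ QQ f := by
  unfold N2d
  simp only [norm_neg]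

theorem N2d_sub (X : ℕ) (ρ : ℕ → ℝ) (QQ : Finset ℕ) (hρ : ∀ q ∈ QQ, 0 ≤ ρ q)
    (f g : ℕ → ℕ → ℝ → ℂ) (hf : ∀ q a, Continuous (f q a)) (hg : ∀ q a, Continuous (g q a)) :
    N2d X ρ QQ (fun q a x => f q a x - g q a x) ≤ 2 * N2d X ρ QQ f + 2 * N2d X ρ QQ g := by
  have h := N2d_add X ρ QQ hρ f (fun q a x => -g q a x) hf (fun q a => (hg q a).neg)
  rw [N2d_neg] at h
  exact h

theorem N2d_congr (X : ℕ) (ρ : ℕ → ℝ) (QQ : Finset ℕ) (f g : ℕ → ℕ → ℝ → ℂ)
    (h : ∀ q ∈ QQ, ∀ a ∈ rr q, ∀ x, f q a x = g q a x) : N2d X ρ QQ f = N2d X ρ QQ g := by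
  unfold N2d
  refine Finset.sum_congr rfl fun q hq => Finset.sum_congr rfl fun a ha => ?_
  apply intervalIntegral.integral_congr
  intro x _
  simp only [h q hq a ha x]

theorem rr_card (q : ℕ) : (rr q).card = Nat.totient q := by
  unfold rr
  rw [Nat.totient_eq_card_coprime]
  congr 1
  refine Finset.filter_congr fun a _ => ?_
  exact Nat.coprime_comm

/-- a pointwise bound -/
theorem N2d_sup (X : ℕ) (ρ : ℕ → ℝ) (QQ : Finset ℕ) (hρ : ∀ q ∈ QQ, 0 ≤ ρ q)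
    (f : ℕ → ℕ → ℝ → ℂ) (hf : ∀ q a, Continuous (f q a)) (G : ℕ → ℝ)
    (h : ∀ q ∈ QQ, ∀ a ∈ rr q, ∀ x : ℝ, |x| ≤ ρ q / X → ‖f q a x‖ ≤ G q) :
    N2d X ρ QQ f ≤ ∑ q ∈ QQ, (Nat.totient q : ℝ) * (2 * (ρ q / X) * G q ^ 2) := by
  unfold N2d
  refine Finset.sum_le_sum fun q hq => ?_
  have h1 : ∑ a ∈ rr q, ∫ x in (-(ρ q / X))..(ρ q / X), ‖f q a x‖ ^ 2 ≤
      ∑ _a ∈ rr q, 2 * (ρ q / X) * G q ^ 2 := by
    refine Finset.sum_le_sum fun a ha => ?_
    have hle := ar_le X (hρ q hq)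
    have h2 : ∫ x in (-(ρ q / X))..(ρ q / X), ‖f q a x‖ ^ 2 ≤
        ∫ _x in (-(ρ q / X))..(ρ q / X), G q ^ 2 := by
      have hc := hf q a
      refine intervalIntegral.integral_mono_on hle
        (by apply Continuous.intervalIntegrable; fun_prop)
        (continuous_const.intervalIntegrable _ _) fun x hx => ?_
      exact pow_le_pow_left₀ (norm_nonneg _) (h q hq a ha x (abs_le.2 ⟨hx.1, hx.2⟩)) 2
    rw [intervalIntegral.integral_const, smul_eq_mul] at h2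
    refine h2.trans (le_of_eq ?_)
    ring
  refine h1.trans (le_of_eq ?_)
  rw [Finset.sum_const, nsmul_eq_mul, rr_card]

/-- the norm is monotone in the radii -/
theorem N2d_rad (X : ℕ) (ρ ρ' : ℕ → ℝ) (QQ : Finset ℕ) (hρ : ∀ q ∈ QQ, 0 ≤ ρ q)
    (hρ' : ∀ q ∈ QQ, ρ q ≤ ρ' q) (f : ℕ → ℕ → ℝ → ℂ) (hf : ∀ q a, Continuous (f q a)) :
    N2d X ρ QQ f ≤ N2d X ρ' QQ f := by
  unfold N2d
  refine Finset.sum_le_sum fun q hq => Finset.sum_le_sum fun a _ => ?_
  have h1 : ρ q / (X : ℝ) ≤ ρ' q / X := div_le_div_of_nonneg_right (hρ' q hq) (Nat.cast_nonneg X)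
  have hc := hf q a
  refine intervalIntegral.integral_mono_interval (neg_le_neg h1) (ar_le X (hρ q hq)) h1
    (Filter.Eventually.of_forall fun x => by positivity)
    (by apply Continuous.intervalIntegrable; fun_prop)

theorem Mn_cont (F : ℝ → ℂ) (hF : Continuous F) (q : ℕ) : Continuous (Mn F q) := by
  unfold Mn
  fun_prop

/-- the mean is a contraction -/
theorem Mn_sq (F : ℝ → ℂ) (q : ℕ) (x : ℝ) :
    (Nat.totient q : ℝ) * ‖Mn F q x‖ ^ 2 ≤ ∑ a ∈ rr q, ‖F ((a : ℝ) / q + x)‖ ^ 2 := by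
  rcases Nat.eq_zero_or_pos (Nat.totient q) with h0 | h0
  · rw [h0, Nat.cast_zero, zero_mul]
    exact Finset.sum_nonneg fun a _ => by positivity
  · have hφ : (0 : ℝ) < Nat.totient q := by exact_mod_cast h0
    unfold Mn
    rw [norm_mul, norm_div, norm_one, Complex.norm_natCast]
    have h1 : ‖∑ b ∈ rr q, F ((b : ℝ) / q + x)‖ ≤ ∑ b ∈ rr q, ‖F ((b : ℝ) / q + x)‖ :=
      norm_sum_le _ _
    have h2 : (∑ b ∈ rr q, ‖F ((b : ℝ) / q + x)‖) ^ 2 ≤
        ((rr q).card : ℝ) * ∑ b ∈ rr q, ‖F ((b : ℝ) / q + x)‖ ^ 2 := sq_sum_le_card_mul_sum_sq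
    rw [rr_card] at h2
    have h3 := pow_le_pow_left₀ (norm_nonneg _) h1 2
    calc (Nat.totient q : ℝ) * (1 / (Nat.totient q : ℝ) * ‖∑ b ∈ rr q, F ((b : ℝ) / q + x)‖) ^ 2
        = ‖∑ b ∈ rr q, F ((b : ℝ) / q + x)‖ ^ 2 / Nat.totient q := by field_simp
      _ ≤ ((Nat.totient q : ℝ) * ∑ b ∈ rr q, ‖F ((b : ℝ) / q + x)‖ ^ 2) / Nat.totient q :=
          div_le_div_of_nonneg_right (h3.trans h2) hφ.le
      _ = _ := by field_simp

theorem N2d_Mn (X : ℕ) (ρ : ℕ → ℝ) (QQ : Finset ℕ) (hρ : ∀ q ∈ QQ, 0 ≤ ρ q) (F : ℝ → ℂ)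
    (hF : Continuous F) :
    N2d X ρ QQ (fun q _ x => Mn F q x) ≤ N2d X ρ QQ (fun q a x => F ((a : ℝ) / q + x)) := by
  unfold N2d
  refine Finset.sum_le_sum fun q hq => ?_
  have hM := Mn_cont F hF q
  rw [Finset.sum_const, nsmul_eq_mul, rr_card, ← intervalIntegral.integral_const_mul,
    ← intervalIntegral.integral_finsetSum
      (fun a _ => by apply Continuous.intervalIntegrable; fun_prop)]
  exact intervalIntegral.integral_mono_on (ar_le X (hρ q hq))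
    (by apply Continuous.intervalIntegrable; fun_prop)
    (by apply Continuous.intervalIntegrable; fun_prop) fun x _ => Mn_sq F q x

private theorem a1_tp_per (K : ℕ) (c : ℕ → ℂ) (x : ℝ) : tp K c (x + 1) = tp K c x := by
  unfold tp
  refine Finset.sum_congr rfl fun k _ => ?_
  rw [mul_add, mul_one, ar_ee_add, show ((k : ℝ)) = (((k : ℕ) : ℤ) : ℝ) by push_cast; rfl,
    ar_ee_int, mul_one]

/-- large sieve -/
theorem N2d_tp (X : ℕ) (ρ : ℕ → ℝ) (T N : ℝ) (QQ : Finset ℕ)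
    (hρ : ∀ q ∈ QQ, 0 ≤ ρ q ∧ ρ q ≤ T) (hT : 0 ≤ T) (hF : Fam QQ N) (hN : 1 ≤ N) (K : ℕ)
    (c : ℕ → ℂ) :
    N2d X ρ QQ (fun q a x => tp K c ((a : ℝ) / q + x)) ≤
      (2 * T * N / X + 1) * ∑ k ∈ Icc 1 K, ‖c k‖ ^ 2 := by
  have hc := ar_tp_cont K c
  refine (N2d_rad X ρ (fun _ => T) QQ (fun q hq => (hρ q hq).1) (fun q hq => (hρ q hq).2) _
    (fun q a => by fun_prop)).trans ?_
  have h1 := Pool.MP_dd84fd_nt.PL.overlap QQ N hF hN (fun x => ‖tp K c x‖ ^ 2)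
    (by fun_prop) (fun x => by positivity) (fun x => by rw [a1_tp_per]) (-(T / X)) (T / X)
    (ar_le X hT)
  rw [Pool.MP_dd84fd_nt.PL.tp_l2] at h1
  unfold N2d
  refine h1.trans (le_of_eq ?_)
  congr 1
  ring

end Pool.MP_dd84fd_nt.BX
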