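import Pool.Agent.Lib.MP_dd84fd_nt.BX.Ar3
import Pool.Agent.Lib.MP_dd84fd_nt.PL.QKer

/-!
# BX-Ar2: the exponential sum over the primes minus its mean, in characters

`PX_sub_mean`: `PX(a/q + x) - mean = VQ (all nonprincipal characters) + R`, `|R| ≤ 4 log X` (the primes which divide `q`).
`Rm_zero`, `Bd_VQ_zero`: a character which does not factor through `h_q = q/(q,n)` is orthogonal to
`e(-na/q)`.
-/

set_option autoImplicit false

namespace Pool.MP_dd84fd_nt.BX

open Finset Pool.MP_67663b_nt.Odd Pool.MP_dd84fd_nt.En Pool.MP_dd84fd_nt.E2 Pool.MP_dd84fd_nt.LS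
open Pool.MP_dd84fd_nt.GX Pool.MP_dd84fd_nt.HX Pool.MP_dd84fd_nt.IX
open Pool.MP_dd84fd_nt.PL (rr Fam tp sum_units hq qker_expand qker_std)
open Pool.MP_dd84fd_nt.JX (wP gP)
open Pool.MP_dd84fd_nt.LXP (tq)

/-- expansion of the additive character -/
theorem ee_expand (q : ℕ) [NeZero q] (a n : ℕ) (ha : a ∈ rr q) (hn : Nat.Coprime n q) :
    ∑ χ : DirichletCharacter ℂ q, tq q χ⁻¹ * χ (a : ZMod q) * χ (n : ZMod q) =
      (Nat.totient q : ℂ) * ee ((n : ℝ) * ((a : ℝ) / q)) := by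
  have ha' := ha
  rw [Pool.MP_dd84fd_nt.PL.rr, mem_filter, mem_range] at ha'
  have hu : IsUnit (((n : ℕ) : ZMod q) * ((a : ℕ) : ZMod q)) :=
    ((ZMod.isUnit_iff_coprime n q).2 hn).mul (rr_unit q a ha)
  have h1 := qker_expand q (fun b : ZMod q => ee ((b.val : ℝ) / q)) _ hu
  have h2 : ee (((((n : ℕ) : ZMod q) * ((a : ℕ) : ZMod q)).val : ℝ) / q) =
      ee ((n : ℝ) * ((a : ℝ) / q)) := by
    have e1 := qker_std q 1 (((n : ℕ) : ZMod q) * ((a : ℕ) : ZMod q))
    have e2 := qker_std q (n : ℤ) ((a : ℕ) : ZMod q)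
    rw [Int.cast_one, one_mul, Int.cast_one, one_mul] at e1
    rw [ZMod.val_natCast_of_lt ha'.1, Int.cast_natCast, Int.cast_natCast] at e2
    rw [e1, e2]
  rw [h2] at h1
  rw [h1]
  refine Finset.sum_congr rfl fun χ _ => ?_
  unfold tq
  rw [map_mul]
  ring

theorem VQ_univ (X q : ℕ) [NeZero q] (a : ℕ) (ha : a ∈ rr q) (x : ℝ) :
    VQ X q univ a x = ∑ n ∈ (Icc 1 X).filter (fun n => Nat.Coprime n q),
      ((wP X n : ℝ) : ℂ) * ee ((n : ℝ) * ((a : ℝ) / q + x)) := by
  have hφ : (Nat.totient q : ℂ) ≠ 0 := by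
    exact_mod_cast (Nat.totient_pos.2 (Nat.pos_of_ne_zero (NeZero.ne q))).ne'
  rw [VQ_eq, Finset.sum_filter]
  have h1 : ∀ χ ∈ (univ : Finset (DirichletCharacter ℂ q)),
      tq q χ⁻¹ * χ (a : ZMod q) * SX X ⟨q, χ⟩ x = ∑ n ∈ Icc 1 X,
        ((wP X n : ℝ) : ℂ) * ee ((n : ℝ) * x) *
          (tq q χ⁻¹ * χ (a : ZMod q) * χ (n : ZMod q)) := by
    intro χ _
    unfold SX
    rw [Finset.mul_sum]
    refine Finset.sum_congr rfl fun n _ => ?_
    show tq q χ⁻¹ * χ (a : ZMod q) * (((wP X n : ℝ) : ℂ) * χ (n : ZMod q) * ee ((n : ℝ) * x)) = _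
    ring
  rw [Finset.sum_congr rfl h1, Finset.sum_comm, Finset.mul_sum]
  refine Finset.sum_congr rfl fun n _ => ?_
  rw [← Finset.mul_sum]
  split_ifs with hn
  · rw [ee_expand q a n ha hn, mul_add, ar_ee_add]
    field_simp
  · have h2 : ∀ χ ∈ (univ : Finset (DirichletCharacter ℂ q)),
        tq q χ⁻¹ * χ (a : ZMod q) * χ (n : ZMod q) = 0 := by
      intro χ _
      have h3 : χ (n : ZMod q) = 0 := by
        apply MulChar.map_nonunit
        rw [ZMod.isUnit_iff_coprime]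
        exact hn
      rw [h3, mul_zero]
    rw [Finset.sum_congr rfl h2, Finset.sum_const_zero]
    ring

/-- the primes which divide `q` -/
noncomputable def RX (X q a : ℕ) (x : ℝ) : ℂ :=
  ∑ n ∈ (Icc 1 X).filter (fun n => ¬ Nat.Coprime n q),
    ((wP X n : ℝ) : ℂ) * ee ((n : ℝ) * ((a : ℝ) / q + x))

theorem PX_split (X q : ℕ) [NeZero q] (a : ℕ) (ha : a ∈ rr q) (x : ℝ) :
    PX X ((a : ℝ) / q + x) = VQ X q univ a x + RX X q a x := by
  rw [VQ_univ X q a ha x]
  unfold PX RX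
  rw [Finset.sum_filter_add_sum_filter_not]

private theorem a2_omega (q X : ℕ) (hq1 : 1 ≤ q) (hqX : q ≤ X) :
    (q.primeFactors.card : ℝ) ≤ 2 * Real.log X := by
  have h1 : 2 ^ q.primeFactors.card ≤ q := by
    calc 2 ^ q.primeFactors.card = ∏ _p ∈ q.primeFactors, 2 := by rw [Finset.prod_const]
      _ ≤ ∏ p ∈ q.primeFactors, p := Finset.prod_le_prod' fun p hp =>
          (Nat.prime_of_mem_primeFactors hp).two_le
      _ ≤ q := Nat.le_of_dvd hq1 (Nat.prod_primeFactors_dvd q)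
  have h2 : ((2 : ℝ) ^ q.primeFactors.card) ≤ X := by
    calc ((2 : ℝ) ^ q.primeFactors.card) = ((2 ^ q.primeFactors.card : ℕ) : ℝ) := by push_cast; rfl
      _ ≤ (q : ℝ) := by exact_mod_cast h1
      _ ≤ X := by exact_mod_cast hqX
  have h3 := Real.log_le_log (by positivity) h2
  rw [Real.log_pow] at h3
  have h4 := Real.log_two_gt_d9
  have h5 : (0 : ℝ) ≤ q.primeFactors.card := Nat.cast_nonneg _
  nlinarith

theorem RX_le (X q a : ℕ) (hq1 : 1 ≤ q) (hqX : q ≤ X) (x : ℝ) : ‖RX X q a x‖ ≤ 2 * Real.log X := by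
  classical
  unfold RX
  have h1 : ∀ n ∈ (Icc 1 X).filter (fun n => ¬ Nat.Coprime n q),
      ‖((wP X n : ℝ) : ℂ) * ee ((n : ℝ) * ((a : ℝ) / q + x))‖ ≤
        if n ∈ q.primeFactors then 1 else 0 := by
    intro n hn
    rw [mem_filter] at hn
    rw [norm_mul, ar_ee_norm, mul_one, Complex.norm_real, Real.norm_eq_abs]
    unfold wP
    by_cases h : n.Prime ∧ zI X ≤ n
    · have h2 : n ∣ q := by
        by_contra h3
        exact hn.2 ((Nat.Prime.coprime_iff_not_dvd h.1).2 h3)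
      have h3 : n ∈ q.primeFactors := by
        rw [Nat.mem_primeFactors]
        exact ⟨h.1, h2, by omega⟩
      rw [if_pos h, if_pos h3, abs_one]
    · rw [if_neg h, abs_zero]
      split_ifs <;> norm_num
  refine (norm_sum_le _ _).trans ((Finset.sum_le_sum h1).trans ?_)
  rw [← Finset.sum_filter, Finset.sum_const, nsmul_eq_mul, mul_one]
  refine le_trans ?_ (a2_omega q X hq1 hqX)
  have h2 : (((Icc 1 X).filter (fun n => ¬ Nat.Coprime n q)).filter
      (fun n => n ∈ q.primeFactors)).card ≤ q.primeFactors.card :=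
    Finset.card_le_card fun n hn => (mem_filter.1 hn).2
  exact_mod_cast h2

theorem RX_cont (X q a : ℕ) : Continuous (RX X q a) := by
  unfold RX
  have h := ar_ee_cont
  fun_prop

theorem PX_cont (X : ℕ) : Continuous (PX X) := by
  unfold PX
  have h := ar_ee_cont
  fun_prop

theorem FX_cont (w X : ℕ) : Continuous (FX w X) := by
  unfold FX
  have h := ar_ee_cont
  fun_prop

/-- the mean over the reduced residues is the part of the principal character -/
private theorem a2_mean (X q : ℕ) [NeZero q] (a : ℕ) (ha : a ∈ rr q) (x : ℝ) :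
    (1 / (Nat.totient q : ℂ)) * ∑ b ∈ rr q, VQ X q univ b x = VQ X q {1} a x := by
  have hφ : (Nat.totient q : ℂ) ≠ 0 := by
    exact_mod_cast (Nat.totient_pos.2 (Nat.pos_of_ne_zero (NeZero.ne q))).ne'
  have h1 : ∀ b ∈ rr q, VQ X q univ b x = ∑ χ : DirichletCharacter ℂ q,
      (1 / (Nat.totient q : ℂ)) * (tq q χ⁻¹ * SX X ⟨q, χ⟩ x) * χ (b : ZMod q) := by
    intro b _
    rw [VQ_eq, Finset.mul_sum]
    refine Finset.sum_congr rfl fun χ _ => ?_
    ring
  rw [Finset.sum_congr rfl h1, Finset.sum_comm, Finset.sum_eq_single (1 : DirichletCharacter ℂ q)]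
  · rw [← Finset.mul_sum]
    have h2 : ∀ b ∈ rr q, (1 : DirichletCharacter ℂ q) (b : ZMod q) = 1 := fun b hb =>
      MulChar.one_apply (rr_unit q b hb)
    rw [Finset.sum_congr rfl h2, Finset.sum_const, rr_card, nsmul_eq_mul, mul_one, VQ_eq,
      Finset.sum_singleton, MulChar.one_apply (rr_unit q a ha)]
    field_simp
  · intro χ _ hχ
    rw [← Finset.mul_sum, sum_rr_char q χ hχ, mul_zero]
  · intro h
    exact absurd (mem_univ _) h

/-- the remainder -/
noncomputable def RM (X q a : ℕ) (x : ℝ) : ℂ :=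
  RX X q a x - (1 / (Nat.totient q : ℂ)) * ∑ b ∈ rr q, RX X q b x

theorem RM_cont (X q a : ℕ) : Continuous (RM X q a) := by
  have h1 : ∀ b, Continuous (RX X q b) := fun b => RX_cont X q b
  unfold RM
  fun_prop

theorem RM_le (X q a : ℕ) (hq1 : 1 ≤ q) (hqX : q ≤ X) (x : ℝ) : ‖RM X q a x‖ ≤ 4 * Real.log X := by
  have hφ : (0 : ℝ) < Nat.totient q := by exact_mod_cast Nat.totient_pos.2 hq1
  unfold RM
  refine (norm_sub_le _ _).trans ?_
  have h1 := RX_le X q a hq1 hqX x
  have h2 : ‖(1 / (Nat.totient q : ℂ)) * ∑ b ∈ rr q, RX X q b x‖ ≤ 2 * Real.log X := by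
    rw [norm_mul, norm_div, norm_one, Complex.norm_natCast]
    have h3 : ‖∑ b ∈ rr q, RX X q b x‖ ≤ (Nat.totient q : ℝ) * (2 * Real.log X) := by
      refine (norm_sum_le _ _).trans ?_
      refine (Finset.sum_le_sum fun b _ => RX_le X q b hq1 hqX x).trans (le_of_eq ?_)
      rw [Finset.sum_const, rr_card, nsmul_eq_mul]
    calc 1 / (Nat.totient q : ℝ) * ‖∑ b ∈ rr q, RX X q b x‖
        ≤ 1 / (Nat.totient q : ℝ) * ((Nat.totient q : ℝ) * (2 * Real.log X)) :=
          mul_le_mul_of_nonneg_left h3 (by positivity)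
      _ = 2 * Real.log X := by field_simp
  linarith

open Classical in
theorem PX_sub_mean (X q : ℕ) [NeZero q] (a : ℕ) (ha : a ∈ rr q) (x : ℝ)
    (U : Finset (DirichletCharacter ℂ q)) (hU : ∀ χ, χ ∈ U ↔ χ ≠ 1) :
    PX X ((a : ℝ) / q + x) - Mn (PX X) q x = VQ X q U a x + RM X q a x := by
  have h1 : Mn (PX X) q x = VQ X q {1} a x +
      (1 / (Nat.totient q : ℂ)) * ∑ b ∈ rr q, RX X q b x := by
    unfold Mn
    rw [Finset.sum_congr rfl fun b hb => PX_split X q b hb x, Finset.sum_add_distrib, mul_add,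
      a2_mean X q a ha x]
  have h2 := VQ_disj X q {1} U (by
    rw [Finset.disjoint_singleton_left]
    intro h
    exact (hU 1).1 h rfl) univ (fun χ => by
      constructor
      · intro _
        by_cases h : χ = 1
        · left
          rw [Finset.mem_singleton]
          exact h
        · right
          exact (hU χ).2 h
      · intro _
        exact mem_univ _) a x
  rw [PX_split X q a ha x, h1, h2]
  unfold RM
  ring

/-- a character which does not factor through `h_q` is orthogonal to `e(-na/q)` -/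
theorem Rm_zero (q n : ℕ) [NeZero q] (χ : DirichletCharacter ℂ q)
    (h : ¬ χ.FactorsThrough (hq q n)) : Rm q n χ = 0 := by
  have hq1 : 0 < q := Nat.pos_of_ne_zero (NeZero.ne q)
  have hdv : hq q n ∣ q := Nat.div_dvd_of_dvd (Nat.gcd_dvd_left q n)
  rw [DirichletCharacter.factorsThrough_iff_ker_unitsMap hdv] at h
  rw [SetLike.not_le_iff_exists] at h
  obtain ⟨u, hu1, hu2⟩ := h
  have hχu : χ (u : ZMod q) ≠ 1 := by
    intro h1
    apply hu2
    rw [MonoidHom.mem_ker]
    ext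
    rw [MulChar.coe_toUnitHom, Units.val_one]
    exact h1
  -- the additive character
  have hE : ∀ y : ZMod q, ZMod.stdAddChar (((-(n : ℤ) : ℤ) : ZMod q) * ((u : ZMod q) * y)) =
      (ZMod.stdAddChar (((-(n : ℤ) : ℤ) : ZMod q) * y) : ℂ) := by
    intro y
    congr 1
    have h1 : (n : ZMod q) * ((u : ZMod q) - 1) = 0 := by
      have h2 : ZMod.castHom hdv (ZMod (hq q n)) ((u : ZMod q) - 1) = 0 := by
        rw [MonoidHom.mem_ker] at hu1
        have h3 := congrArg (Units.val) hu1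
        rw [ZMod.unitsMap_val, Units.val_one] at h3
        rw [map_sub, map_one, ZMod.castHom_apply, h3, sub_self]
      rw [ZMod.castHom_apply] at h2
      obtain ⟨v, hv⟩ : ∃ v : ℕ, v = ((u : ZMod q) - 1).val := ⟨_, rfl⟩
      have h3 : ((v : ℕ) : ZMod q) = (u : ZMod q) - 1 := by
        rw [hv, ZMod.natCast_zmod_val]
      have h4 : hq q n ∣ v := by
        rw [← h3] at h2
        rw [ZMod.cast_natCast hdv] at h2
        exact (ZMod.natCast_eq_zero_iff v (hq q n)).1 h2
      rw [← h3, ← Nat.cast_mul, ZMod.natCast_eq_zero_iff]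
      obtain ⟨k, hk⟩ := h4
      have h5 : hq q n * Nat.gcd q n = q := Nat.div_mul_cancel (Nat.gcd_dvd_left q n)
      obtain ⟨m, hm⟩ := Nat.gcd_dvd_right q n
      refine ⟨m * k, ?_⟩
      calc n * v = (Nat.gcd q n * m) * (hq q n * k) := by rw [← hm, hk]
        _ = (hq q n * Nat.gcd q n) * (m * k) := by ring
        _ = q * (m * k) := by rw [h5]
    push_cast
    linear_combination (-y) * h1
  -- the sum over the residue ring
  have hR : Rm q n χ = ∑ y : ZMod q, χ y * ZMod.stdAddChar (((-(n : ℤ) : ℤ) : ZMod q) * y) := by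
    have h1 := sum_rr q (fun y : ZMod q => χ y * ZMod.stdAddChar (((-(n : ℤ) : ℤ) : ZMod q) * y))
      (fun y hy => by rw [MulChar.map_nonunit χ hy, zero_mul])
    rw [← h1]
    unfold Rm
    refine Finset.sum_congr rfl fun a ha => ?_
    rw [Pool.MP_dd84fd_nt.PL.rr, mem_filter, mem_range] at ha
    have e2 := qker_std q (-(n : ℤ)) ((a : ℕ) : ZMod q)
    rw [ZMod.val_natCast_of_lt ha.1] at e2
    rw [← e2]
    congr 2
    push_cast
    ring
  have hS : χ (u : ZMod q) * Rm q n χ = Rm q n χ := by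
    rw [hR, Finset.mul_sum]
    rw [← Equiv.sum_comp (Units.mulLeft u) (fun y : ZMod q =>
      χ y * ZMod.stdAddChar (((-(n : ℤ) : ℤ) : ZMod q) * y))]
    refine Finset.sum_congr rfl fun y _ => ?_
    rw [Units.mulLeft_apply, hE y, map_mul χ]
    ring
  by_contra hne
  apply hχu
  have h1 : (χ (u : ZMod q) - 1) * Rm q n χ = 0 := by rw [sub_mul, hS, one_mul, sub_self]
  rcases mul_eq_zero.1 h1 with h2 | h2
  · exact sub_eq_zero.1 h2
  · exact absurd h2 hne

theorem Bd_VQ_zero (X : ℕ) (r : ℝ) (n q : ℕ) [NeZero q] (S : Finset (DirichletCharacter ℂ q))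
    (hS : ∀ χ ∈ S, ¬ χ.FactorsThrough (hq q n)) (P : ℝ → ℂ) (hP : Continuous P) :
    Bd X r n q (fun a x => VQ X q S a x) (fun _ x => P x) = 0 := by
  have hee := ar_ee_cont
  unfold Bd
  rw [← intervalIntegral.integral_finsetSum (fun a _ => by
    have := VQ_cont X q S a
    apply Continuous.intervalIntegrable; fun_prop)]
  have h1 : ∀ x : ℝ, ∑ a ∈ rr q, VQ X q S a x * P x * ee (-((n : ℝ) * ((a : ℝ) / q + x))) = 0 := by
    intro x
    have h2 : ∀ a ∈ rr q, VQ X q S a x * P x * ee (-((n : ℝ) * ((a : ℝ) / q + x))) =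
        ∑ χ ∈ S, (1 / (Nat.totient q : ℂ)) * tq q χ⁻¹ * SX X ⟨q, χ⟩ x * P x *
          ee (-((n : ℝ) * x)) * (χ (a : ZMod q) * ee (-((n : ℝ) * ((a : ℝ) / q)))) := by
      intro a _
      rw [VQ_eq, mul_add, neg_add, ar_ee_add, Finset.mul_sum, Finset.sum_mul, Finset.sum_mul]
      refine Finset.sum_congr rfl fun χ _ => ?_
      ring
    rw [Finset.sum_congr rfl h2, Finset.sum_comm]
    refine Finset.sum_eq_zero fun χ hχ => ?_
    rw [← Finset.mul_sum]
    have h3 := Rm_zero q n χ (hS χ hχ)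
    unfold Rm at h3
    rw [h3, mul_zero]
  simp only [h1, intervalIntegral.integral_zero]

end Pool.MP_dd84fd_nt.BX
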