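import Pool.Agent.Lib.MP_dd84fd_nt.BX.Ar1
import Pool.Agent.Lib.MP_dd84fd_nt.PL.Units

/-!
# BX-Ar3: Parseval over the characters modulo `q`

`VQ_sq`: the sum over the reduced residues `a` of `‖VQ X q S a x‖²`; `N2d_VQ`; `mC`: the mass of a set of
characters on the disc of radius `r/X`.
-/

set_option autoImplicit false

namespace Pool.MP_dd84fd_nt.BX

open Finset Pool.MP_67663b_nt.Odd Pool.MP_dd84fd_nt.En Pool.MP_dd84fd_nt.E2 Pool.MP_dd84fd_nt.LS
open Pool.MP_dd84fd_nt.GX Pool.MP_dd84fd_nt.HX Pool.MP_dd84fd_nt.IX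
open Pool.MP_dd84fd_nt.PL (rr Fam tp sum_units)
open Pool.MP_dd84fd_nt.JX (wP gP)
open Pool.MP_dd84fd_nt.LXP (tq)

theorem ar_conj (q : ℕ) [NeZero q] (χ : DirichletCharacter ℂ q) (a : ZMod q) :
    (starRingEnd ℂ) (χ a) = χ⁻¹ a := by
  by_cases hu : IsUnit a
  · obtain ⟨u, hu⟩ := hu
    rw [← hu]
    have h1 : ‖χ (u : ZMod q)‖ = 1 := DirichletCharacter.unit_norm_eq_one χ u
    rw [← Complex.inv_eq_conj h1]
    have h2 : χ⁻¹ (u : ZMod q) * χ (u : ZMod q) = 1 := by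
      rw [← MulChar.mul_apply, inv_mul_cancel, MulChar.one_apply_coe]
    exact (eq_inv_of_mul_eq_one_left h2).symm
  · rw [MulChar.map_nonunit _ hu, MulChar.map_nonunit _ hu, map_zero]

theorem rr_unit (q : ℕ) (a : ℕ) (ha : a ∈ rr q) : IsUnit ((a : ℕ) : ZMod q) := by
  rw [Pool.MP_dd84fd_nt.PL.rr, mem_filter] at ha
  exact (ZMod.isUnit_iff_coprime a q).2 ha.2

/-- the sum over the reduced residues as a sum over the residue ring -/
theorem sum_rr (q : ℕ) [NeZero q] (F : ZMod q → ℂ) (hF : ∀ y, ¬ IsUnit y → F y = 0) :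
    ∑ a ∈ rr q, F (a : ZMod q) = ∑ y : ZMod q, F y := by
  classical
  have h1 := sum_units q (fun a : ℕ => F (a : ZMod q))
  rw [← h1]
  simp only [ZMod.natCast_zmod_val]
  rw [Finset.sum_filter]
  refine Finset.sum_congr rfl fun y _ => ?_
  by_cases h : IsUnit y
  · rw [if_pos h]
  · rw [if_neg h, hF y h]

theorem sum_rr_char (q : ℕ) [NeZero q] (χ : DirichletCharacter ℂ q) (hχ : χ ≠ 1) :
    ∑ a ∈ rr q, χ (a : ZMod q) = 0 := by
  rw [sum_rr q (fun y => χ y) (fun y hy => MulChar.map_nonunit χ hy)]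
  exact MulChar.sum_eq_zero_of_ne_one hχ

theorem sum_rr_pair (q : ℕ) [NeZero q] (χ χ' : DirichletCharacter ℂ q) :
    ∑ a ∈ rr q, χ (a : ZMod q) * (starRingEnd ℂ) (χ' (a : ZMod q)) =
      (open Classical in if χ = χ' then (Nat.totient q : ℂ) else 0) := by
  classical
  have h1 : ∀ a ∈ rr q, χ (a : ZMod q) * (starRingEnd ℂ) (χ' (a : ZMod q)) =
      (χ * χ'⁻¹) (a : ZMod q) := fun a _ => by rw [ar_conj, MulChar.mul_apply]
  rw [Finset.sum_congr rfl h1]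
  by_cases h : χ = χ'
  · rw [if_pos h, h, mul_inv_cancel]
    have h2 : ∀ a ∈ rr q, (1 : DirichletCharacter ℂ q) (a : ZMod q) = 1 := fun a ha =>
      MulChar.one_apply (rr_unit q a ha)
    rw [Finset.sum_congr rfl h2, Finset.sum_const, rr_card, nsmul_eq_mul, mul_one]
  · rw [if_neg h]
    exact sum_rr_char q _ fun h2 => h (mul_inv_eq_one.mp h2)

/-- Parseval over the characters modulo `q` -/
theorem parseval_chi (q : ℕ) [NeZero q] (S : Finset (DirichletCharacter ℂ q))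
    (c : DirichletCharacter ℂ q → ℂ) :
    ∑ a ∈ rr q, ‖∑ χ ∈ S, c χ * χ (a : ZMod q)‖ ^ 2 =
      (Nat.totient q : ℝ) * ∑ χ ∈ S, ‖c χ‖ ^ 2 := by
  classical
  have h : ((∑ a ∈ rr q, ‖∑ χ ∈ S, c χ * χ (a : ZMod q)‖ ^ 2 : ℝ) : ℂ) =
      (((Nat.totient q : ℝ) * ∑ χ ∈ S, ‖c χ‖ ^ 2 : ℝ) : ℂ) := by
    push_cast
    have h1 : ∀ a ∈ rr q, ((‖∑ χ ∈ S, c χ * χ (a : ZMod q)‖ : ℝ) : ℂ) ^ 2 =
        ∑ χ ∈ S, ∑ χ' ∈ S, c χ * (starRingEnd ℂ) (c χ') *
          (χ (a : ZMod q) * (starRingEnd ℂ) (χ' (a : ZMod q))) := by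
      intro a _
      rw [← Complex.mul_conj', map_sum, Finset.sum_mul_sum]
      refine Finset.sum_congr rfl fun χ _ => Finset.sum_congr rfl fun χ' _ => ?_
      rw [map_mul (starRingEnd ℂ)]
      ring
    rw [Finset.sum_congr rfl h1, Finset.sum_comm, Finset.mul_sum]
    refine Finset.sum_congr rfl fun χ hχ => ?_
    rw [Finset.sum_comm]
    have h2 : ∀ χ' ∈ S, ∑ a ∈ rr q, c χ * (starRingEnd ℂ) (c χ') *
        (χ (a : ZMod q) * (starRingEnd ℂ) (χ' (a : ZMod q))) =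
        if χ = χ' then c χ * (starRingEnd ℂ) (c χ') * (Nat.totient q : ℂ) else 0 := by
      intro χ' _
      rw [← Finset.mul_sum, sum_rr_pair]
      split_ifs <;> simp
    rw [Finset.sum_congr rfl h2, Finset.sum_ite_eq, if_pos hχ, Complex.mul_conj']
    ring
  exact_mod_cast h

theorem SX_cont (X : ℕ) (ψ : PC) : Continuous (SX X ψ) := by
  unfold SX
  have h := ar_ee_cont
  fun_prop

theorem VQ_eq (X q : ℕ) [NeZero q] (S : Finset (DirichletCharacter ℂ q)) (a : ℕ) (x : ℝ) :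
    VQ X q S a x = (1 / (Nat.totient q : ℂ)) *
      ∑ χ ∈ S, tq q χ⁻¹ * χ (a : ZMod q) * SX X ⟨q, χ⟩ x := by
  unfold VQ
  rw [dif_neg (NeZero.ne q)]

theorem VQ_cont (X q : ℕ) (S : Finset (DirichletCharacter ℂ q)) (a : ℕ) :
    Continuous (VQ X q S a) := by
  rcases Nat.eq_zero_or_pos q with h | h
  · have h1 : VQ X q S a = fun _ => 0 := by
      funext x
      unfold VQ
      rw [dif_pos h]
    rw [h1]
    exact continuous_const
  · haveI : NeZero q := ⟨h.ne'⟩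
    have h1 : VQ X q S a = fun x => (1 / (Nat.totient q : ℂ)) *
      ∑ χ ∈ S, tq q χ⁻¹ * χ (a : ZMod q) * SX X ⟨q, χ⟩ x := by
      funext x
      exact VQ_eq X q S a x
    rw [h1]
    refine continuous_const.mul (continuous_finsetSum _ fun χ _ => ?_)
    exact continuous_const.mul (SX_cont X _)

theorem VQ_sq (X q : ℕ) [NeZero q] (S : Finset (DirichletCharacter ℂ q)) (x : ℝ) :
    ∑ a ∈ rr q, ‖VQ X q S a x‖ ^ 2 =
      ∑ χ ∈ S, ‖tq q χ⁻¹‖ ^ 2 / (Nat.totient q : ℝ) * ‖SX X ⟨q, χ⟩ x‖ ^ 2 := by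
  have hφ : (0 : ℝ) < Nat.totient q := by
    exact_mod_cast Nat.totient_pos.2 (Nat.pos_of_ne_zero (NeZero.ne q))
  have h1 : ∀ a ∈ rr q, ‖VQ X q S a x‖ ^ 2 = 1 / (Nat.totient q : ℝ) ^ 2 *
      ‖∑ χ ∈ S, (tq q χ⁻¹ * SX X ⟨q, χ⟩ x) * χ (a : ZMod q)‖ ^ 2 := by
    intro a _
    rw [VQ_eq, norm_mul, mul_pow, norm_div, norm_one, Complex.norm_natCast, div_pow, one_pow]
    congr 3
    refine Finset.sum_congr rfl fun χ _ => ?_
    ring
  rw [Finset.sum_congr rfl h1, ← Finset.mul_sum, parseval_chi, Finset.mul_sum, Finset.mul_sum]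
  refine Finset.sum_congr rfl fun χ _ => ?_
  rw [norm_mul]
  field_simp

open Classical in
/-- the mass of a set of characters modulo `q` on the disc of radius `r / X` -/
noncomputable def mC (X : ℕ) (r : ℝ) (q : ℕ) (S : Finset (DirichletCharacter ℂ q)) : ℝ :=
  if h : q = 0 then 0 else
    haveI : NeZero q := ⟨h⟩
    ∑ χ ∈ S, ‖tq q χ⁻¹‖ ^ 2 / (Nat.totient q : ℝ) *
      ∫ x in (-(r / X))..(r / X), ‖SX X ⟨q, χ⟩ x‖ ^ 2

theorem mC_eq (X : ℕ) (r : ℝ) (q : ℕ) [NeZero q] (S : Finset (DirichletCharacter ℂ q)) :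
    mC X r q S = ∑ χ ∈ S, ‖tq q χ⁻¹‖ ^ 2 / (Nat.totient q : ℝ) *
      ∫ x in (-(r / X))..(r / X), ‖SX X ⟨q, χ⟩ x‖ ^ 2 := by
  unfold mC
  rw [dif_neg (NeZero.ne q)]

private theorem a3_one (X q : ℕ) [NeZero q] (S : Finset (DirichletCharacter ℂ q)) (r : ℝ) :
    ∑ a ∈ rr q, ∫ x in (-(r / X))..(r / X), ‖VQ X q S a x‖ ^ 2 = mC X r q S := by
  have hV : ∀ a, Continuous (VQ X q S a) := fun a => VQ_cont X q S a
  rw [mC_eq, ← intervalIntegral.integral_finsetSum (fun a _ => by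
    have := hV a
    apply Continuous.intervalIntegrable; fun_prop)]
  have h1 : (∫ x in (-(r / X))..(r / X), ∑ a ∈ rr q, ‖VQ X q S a x‖ ^ 2) =
      ∫ x in (-(r / X))..(r / X),
        ∑ χ ∈ S, ‖tq q χ⁻¹‖ ^ 2 / (Nat.totient q : ℝ) * ‖SX X ⟨q, χ⟩ x‖ ^ 2 := by
    apply intervalIntegral.integral_congr
    intro x _
    exact VQ_sq X q S x
  rw [h1, intervalIntegral.integral_finsetSum (fun χ _ => by
    have := SX_cont X ⟨q, χ⟩
    apply Continuous.intervalIntegrable; fun_prop)]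
  refine Finset.sum_congr rfl fun χ _ => ?_
  rw [intervalIntegral.integral_const_mul]

theorem N2d_VQ (X : ℕ) (ρ : ℕ → ℝ) (QQ : Finset ℕ) (hQ : ∀ q ∈ QQ, 1 ≤ q)
    (S : (q : ℕ) → Finset (DirichletCharacter ℂ q)) :
    N2d X ρ QQ (fun q a x => VQ X q (S q) a x) = ∑ q ∈ QQ, mC X (ρ q) q (S q) := by
  unfold N2d
  refine Finset.sum_congr rfl fun q hq => ?_
  haveI : NeZero q := ⟨by have := hQ q hq; omega⟩
  exact a3_one X q (S q) (ρ q)

theorem int_SX_nonneg (X : ℕ) (r : ℝ) (hr : 0 ≤ r) (ψ : PC) :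
    0 ≤ ∫ x in (-(r / X))..(r / X), ‖SX X ψ x‖ ^ 2 :=
  intervalIntegral.integral_nonneg (ar_le X hr) fun x _ => by positivity

theorem mC_nonneg (X : ℕ) (r : ℝ) (hr : 0 ≤ r) (q : ℕ) (S : Finset (DirichletCharacter ℂ q)) :
    0 ≤ mC X r q S := by
  unfold mC
  split_ifs with h
  · exact le_rfl
  · refine Finset.sum_nonneg fun χ _ => mul_nonneg (by positivity) (int_SX_nonneg X r hr _)

theorem mC_mono (X : ℕ) (r r' : ℝ) (hr : 0 ≤ r) (hr' : r ≤ r') (q : ℕ)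
    (S S' : Finset (DirichletCharacter ℂ q)) (hS : S ⊆ S') : mC X r q S ≤ mC X r' q S' := by
  unfold mC
  split_ifs with h
  · exact le_rfl
  · have hr1 : 0 ≤ r' := hr.trans hr'
    refine (Finset.sum_le_sum_of_subset_of_nonneg hS fun χ _ _ =>
      mul_nonneg (by positivity) (int_SX_nonneg X r hr _)).trans ?_
    refine Finset.sum_le_sum fun χ _ => mul_le_mul_of_nonneg_left ?_ (by positivity)
    have h1 : r / (X : ℝ) ≤ r' / X := div_le_div_of_nonneg_right hr' (Nat.cast_nonneg X)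
    have hc := SX_cont X ⟨q, χ⟩
    exact intervalIntegral.integral_mono_interval (neg_le_neg h1) (ar_le X hr) h1
      (Filter.Eventually.of_forall fun x => by positivity)
      (by apply Continuous.intervalIntegrable; fun_prop)

open Classical in
/-- the light characters -/
theorem mC_LtQ (X : ℕ) (r T : ℝ) (hr : 0 ≤ r) (hrT : r ≤ T) (A' q : ℕ)
    (S : Finset (DirichletCharacter ℂ q))
    (hS : ∀ χ ∈ S, χ ≠ 1 ∧ sN X T ⟨q, χ⟩ ≤ 1 / (Real.log X) ^ A') :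
    mC X r q S ≤ LtQ X T A' q := by
  refine (mC_mono X r T hr hrT q S S (Finset.Subset.refl S)).trans ?_
  have hT : 0 ≤ T := hr.trans hrT
  unfold mC LtQ
  split_ifs with h
  · exact le_rfl
  · haveI : NeZero q := ⟨h⟩
    refine Finset.sum_le_sum_of_subset_of_nonneg ?_ fun χ _ _ =>
      mul_nonneg (by positivity) (int_SX_nonneg X T hT _)
    intro χ hχ
    rw [mem_filter]
    exact ⟨mem_univ _, hS χ hχ⟩

/-- splitting of the set of characters -/
theorem VQ_disj (X q : ℕ) (S S' : Finset (DirichletCharacter ℂ q))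
    (h : Disjoint S S') (U : Finset (DirichletCharacter ℂ q)) (hU : ∀ χ, χ ∈ U ↔ χ ∈ S ∨ χ ∈ S')
    (a : ℕ) (x : ℝ) : VQ X q U a x = VQ X q S a x + VQ X q S' a x := by
  classical
  have hU' : U = S ∪ S' := by
    ext χ
    rw [mem_union]
    exact hU χ
  unfold VQ
  split_ifs with h0
  · simp
  · rw [← mul_add, hU', Finset.sum_union h]

end Pool.MP_dd84fd_nt.BX
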