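import Pool.Agent.Lib.MP_dd84fd_nt.BX.Ar1
import Pool.Agent.Lib.MP_dd84fd_nt.JX.JF1
import Pool.Agent.Lib.MP_dd84fd_nt.SW.LamChar
import Pool.Agent.Lib.MP_dd84fd_nt.T7.VarL
import Mathlib.NumberTheory.Chebyshev

/-!
# BX-Ar5: Siegel-Walfisz for characters of small conductor

`SX_small`: `‖SX X ⟨q, χ⟩ x‖ ≤ X / L^A` for `χ ≠ 1` modulo `q ≤ X`, of conductor `≤ L^B`, `|x| ≤ L^B / X`.
`SW.lam_char` for the primitive character, the primes which divide `q` cost `log q`, partial summation.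
-/

set_option autoImplicit false

namespace Pool.MP_dd84fd_nt.BX

open Finset Pool.MP_67663b_nt.Odd Pool.MP_dd84fd_nt.En Pool.MP_dd84fd_nt.E2 Pool.MP_dd84fd_nt.LS
open Pool.MP_dd84fd_nt.GX Pool.MP_dd84fd_nt.HX Pool.MP_dd84fd_nt.IX
open Pool.MP_dd84fd_nt.PL (rr Fam tp)
open Pool.MP_dd84fd_nt.JX (wP gP gP_abs w1P)
open Pool.MP_dd84fd_nt.LXP (tq)

/-- `Λ` twisted by a character of small conductor, all `y ≤ X` -/
private theorem a5_lam (A B : ℕ) : ∃ X0 : ℕ, ∀ X : ℕ, X0 ≤ X → ∀ (d : ℕ) (χ : DirichletCharacter ℂ d),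
    1 ≤ d → (d : ℝ) ≤ Real.log X ^ B → χ ≠ 1 → ∀ y : ℕ, y ≤ X →
    ‖∑ n ∈ Icc 1 y, (ArithmeticFunction.vonMangoldt n : ℂ) * χ n‖ ≤ X / Real.log X ^ A := by
  obtain ⟨X1, hX1⟩ := Pool.MP_dd84fd_nt.SW.lam_char (A + 1) (B + 1)
  obtain ⟨X2, hX2⟩ := MP_log_large ((2 : ℝ) ^ (A + B + 3))
  obtain ⟨X3, hX3⟩ := MP_log_pow 1 (A + 1) (ε := 1 / 2) (by norm_num)
  refine ⟨max (max (X1 ^ 2) X2) (max X3 1), fun X hX d χ hd hdL hχ y hy => ?_⟩
  simp only [max_le_iff] at hX
  obtain ⟨⟨hXa, hXb⟩, hXc, hXd⟩ := hX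
  have hL := hX2 X hXb
  have h3 := hX3 X hXc
  have hXR : (1 : ℝ) ≤ X := by exact_mod_cast hXd
  have hX0 : (0 : ℝ) < X := by linarith
  obtain ⟨L, hLdef⟩ : ∃ L : ℝ, L = Real.log X := ⟨_, rfl⟩
  rw [← hLdef] at hL h3 hdL ⊢
  have hpow : ∀ k : ℕ, k ≤ A + B + 3 → (2 : ℝ) ^ k ≤ L := fun k hk =>
    (pow_le_pow_right₀ (by norm_num) hk).trans hL
  have hL1 : 1 ≤ L := by
    have := hpow 0 (Nat.zero_le _)
    rwa [pow_zero] at this
  have hL0 : 0 < L := by linarith
  have hs : (X : ℝ) ^ (1 / 2 : ℝ) * (X : ℝ) ^ (1 / 2 : ℝ) = X := by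
    rw [← Real.rpow_add hX0]
    norm_num
  have hs0 : 0 < (X : ℝ) ^ (1 / 2 : ℝ) := by positivity
  by_cases hys : (y : ℝ) ≤ (X : ℝ) ^ (1 / 2 : ℝ)
  · -- trivial bound
    have h4 : ∀ n ∈ Icc 1 y, ‖(ArithmeticFunction.vonMangoldt n : ℂ) * χ n‖ ≤ L := by
      intro n hn
      rw [mem_Icc] at hn
      rw [norm_mul, Complex.norm_real, Real.norm_of_nonneg ArithmeticFunction.vonMangoldt_nonneg]
      have h5 : ‖χ (n : ZMod d)‖ ≤ 1 := DirichletCharacter.norm_le_one χ _
      have h6 : ArithmeticFunction.vonMangoldt n ≤ L := by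
        refine ArithmeticFunction.vonMangoldt_le_log.trans ?_
        rw [hLdef]
        apply Real.log_le_log (by exact_mod_cast hn.1)
        exact_mod_cast hn.2.trans hy
      calc ArithmeticFunction.vonMangoldt n * ‖χ (n : ZMod d)‖
          ≤ ArithmeticFunction.vonMangoldt n * 1 :=
            mul_le_mul_of_nonneg_left h5 ArithmeticFunction.vonMangoldt_nonneg
        _ ≤ L := by linarith
    refine (norm_sum_le _ _).trans ((Finset.sum_le_sum h4).trans ?_)
    rw [Finset.sum_const, Nat.card_Icc, Nat.add_sub_cancel, nsmul_eq_mul, le_div_iff₀ (by positivity)]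
    calc (y : ℝ) * L * L ^ A = y * (1 * L ^ (A + 1)) := by ring
      _ ≤ (X : ℝ) ^ (1 / 2 : ℝ) * (X : ℝ) ^ (1 / 2 : ℝ) := by
          apply mul_le_mul hys h3 (by positivity) hs0.le
      _ = X := hs
  · push Not at hys
    have hy0 : (0 : ℝ) < y := hs0.trans hys
    have hlog : L / 2 ≤ Real.log y := by
      have h5 := Real.log_le_log hs0 hys.le
      rw [Real.log_rpow hX0] at h5
      rw [hLdef]
      linarith
    have hly : 0 < Real.log y := by linarith
    have h6 : X1 ≤ y := by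
      by_contra hlt
      push Not at hlt
      have h7 : (X : ℝ) < (X1 : ℝ) ^ 2 := by
        calc (X : ℝ) = (X : ℝ) ^ (1 / 2 : ℝ) * (X : ℝ) ^ (1 / 2 : ℝ) := hs.symm
          _ < (y : ℝ) * y := mul_lt_mul'' hys hys hs0.le hs0.le
          _ ≤ (X1 : ℝ) * X1 := by
              have : (y : ℝ) ≤ X1 := by exact_mod_cast hlt.le
              exact mul_le_mul this this hy0.le (hy0.le.trans this)
          _ = (X1 : ℝ) ^ 2 := by ring
      have h8 : (X1 : ℝ) ^ 2 ≤ X := by exact_mod_cast hXa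
      linarith
    have h7 : (d : ℝ) ≤ Real.log y ^ (B + 1) := by
      refine hdL.trans ?_
      have h8 : (L / 2) ^ (B + 1) ≤ Real.log y ^ (B + 1) :=
        pow_le_pow_left₀ (by linarith) hlog _
      refine le_trans ?_ h8
      rw [div_pow, le_div_iff₀ (by positivity), pow_succ]
      exact mul_le_mul_of_nonneg_left (hpow (B + 1) (by omega)) (by positivity)
    have h8 := hX1 y h6 d χ hd h7 hχ
    refine h8.trans ?_
    have h9 : (L / 2) ^ (A + 1) ≤ Real.log y ^ (A + 1) := pow_le_pow_left₀ (by linarith) hlog _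
    have h10 : (L : ℝ) ^ A ≤ (L / 2) ^ (A + 1) := by
      rw [div_pow, le_div_iff₀ (by positivity), pow_succ]
      exact mul_le_mul_of_nonneg_left (hpow (A + 1) (by omega)) (by positivity)
    have hyX : (y : ℝ) ≤ X := by exact_mod_cast hy
    exact div_le_div₀ hX0.le hyX (by positivity) (h10.trans h9)

/-- the primes `≥ zI X` with weight `log` -/
private noncomputable def tw (X n : ℕ) : ℝ := if n.Prime ∧ zI X ≤ n then Real.log n else 0

private theorem a5_pt (X q : ℕ) (hq1 : 1 ≤ q) (χ : DirichletCharacter ℂ q) (n : ℕ) (hn : 1 ≤ n) :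
    ‖((tw X n : ℝ) : ℂ) * χ (n : ZMod q) -
      (ArithmeticFunction.vonMangoldt n : ℂ) * χ.primitiveCharacter (n : ZMod χ.conductor)‖ ≤
      (if ¬ n.Prime then ArithmeticFunction.vonMangoldt n else 0) +
        (if n < zI X then Real.log n else 0) + (if n ∈ q.primeFactors then Real.log n else 0) := by
  have hL : 0 ≤ Real.log n := Real.log_natCast_nonneg n
  have h1 : ‖χ.primitiveCharacter (n : ZMod χ.conductor)‖ ≤ 1 :=
    DirichletCharacter.norm_le_one _ _
  have hL3 : 0 ≤ (if n ∈ q.primeFactors then Real.log n else 0) := by split_ifs <;> simp [hL]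
  have hL2 : 0 ≤ (if n < zI X then Real.log n else 0) := by split_ifs <;> simp [hL]
  have h0 := ArithmeticFunction.vonMangoldt_nonneg (n := n)
  by_cases hp : n.Prime
  · have hΛ := ArithmeticFunction.vonMangoldt_apply_prime hp
    have e1 : (if ¬ n.Prime then ArithmeticFunction.vonMangoldt n else 0) = (0 : ℝ) :=
      if_neg (not_not_intro hp)
    rw [e1, zero_add]
    by_cases hz : zI X ≤ n
    · have e2 : tw X n = Real.log n := by
        unfold tw
        rw [if_pos ⟨hp, hz⟩]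
      rw [e2, hΛ, ← mul_sub, norm_mul, Complex.norm_real, Real.norm_of_nonneg hL]
      by_cases hc : Nat.Coprime n q
      · have e3 : χ.primitiveCharacter (n : ZMod χ.conductor) = χ (n : ZMod q) := by
          have h2 := DirichletCharacter.primitiveCharacter_apply_of_isCoprime χ
            (a := (n : ℤ)) (Nat.isCoprime_iff_coprime.2 hc)
          rwa [Int.cast_natCast, Int.cast_natCast] at h2
        rw [e3, sub_self, norm_zero, mul_zero]
        linarith
      · have h2 : n ∣ q := by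
          by_contra h3
          exact hc ((Nat.Prime.coprime_iff_not_dvd hp).2 h3)
        have h3 : n ∈ q.primeFactors := by
          rw [Nat.mem_primeFactors]
          exact ⟨hp, h2, by omega⟩
        have e3 : χ (n : ZMod q) = 0 := by
          apply MulChar.map_nonunit
          rw [ZMod.isUnit_iff_coprime]
          exact hc
        rw [e3, zero_sub, norm_neg, if_pos h3]
        have : Real.log n * ‖χ.primitiveCharacter (n : ZMod χ.conductor)‖ ≤ Real.log n * 1 :=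
          mul_le_mul_of_nonneg_left h1 hL
        linarith
    · have e2 : tw X n = 0 := by
        unfold tw
        rw [if_neg (by tauto)]
      rw [e2, hΛ, if_pos (by omega), Complex.ofReal_zero, zero_mul, zero_sub, norm_neg, norm_mul,
        Complex.norm_real, Real.norm_of_nonneg hL]
      have : Real.log n * ‖χ.primitiveCharacter (n : ZMod χ.conductor)‖ ≤ Real.log n * 1 :=
        mul_le_mul_of_nonneg_left h1 hL
      linarith
  · have e2 : tw X n = 0 := by
      unfold tw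
      rw [if_neg (by tauto)]
    rw [if_pos hp, e2, Complex.ofReal_zero, zero_mul, zero_sub, norm_neg, norm_mul,
      Complex.norm_real, Real.norm_of_nonneg h0]
    have : ArithmeticFunction.vonMangoldt n * ‖χ.primitiveCharacter (n : ZMod χ.conductor)‖ ≤
        ArithmeticFunction.vonMangoldt n * 1 := mul_le_mul_of_nonneg_left h1 h0
    linarith

private theorem a5_not (X : ℕ) (hX : 1 ≤ X) :
    ∑ n ∈ Icc 1 X, (if ¬ n.Prime then ArithmeticFunction.vonMangoldt n else 0) ≤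
      2 * Real.sqrt X * Real.log X := by
  have h1 := Chebyshev.psi_sub_theta_eq_sum_not_prime (X : ℝ)
  have h2 := Chebyshev.psi_sub_theta_le (x := (X : ℝ)) (by exact_mod_cast hX)
  rw [h1, Nat.floor_natCast, Finset.sum_filter] at h2
  have h3 : Icc 1 X = Ioc 0 X := by
    ext n
    simp only [mem_Icc, mem_Ioc]
    omega
  rw [h3]
  exact h2

private theorem a5_z (X : ℕ) (hX : 1 ≤ X) :
    ∑ n ∈ Icc 1 X, (if n < zI X then Real.log n else 0) ≤ zI X * Real.log X := by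
  have hL : 0 ≤ Real.log X := Real.log_natCast_nonneg X
  rw [← Finset.sum_filter]
  have h1 : ∀ n ∈ (Icc 1 X).filter (fun n => n < zI X), Real.log (n : ℝ) ≤ Real.log X := by
    intro n hn
    rw [mem_filter, mem_Icc] at hn
    exact Real.log_le_log (by exact_mod_cast hn.1.1) (by exact_mod_cast hn.1.2)
  refine (Finset.sum_le_sum h1).trans ?_
  rw [Finset.sum_const, nsmul_eq_mul]
  refine mul_le_mul_of_nonneg_right ?_ hL
  have h2 : ((Icc 1 X).filter (fun n => n < zI X)).card ≤ (range (zI X)).card :=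
    Finset.card_le_card fun n hn => mem_range.2 (mem_filter.1 hn).2
  rw [card_range] at h2
  exact_mod_cast h2

private theorem a5_q (X q : ℕ) (hq1 : 1 ≤ q) (hqX : q ≤ X) :
    ∑ n ∈ Icc 1 X, (if n ∈ q.primeFactors then Real.log n else 0) ≤ Real.log X := by
  rw [← Finset.sum_filter]
  have h1 : ∑ n ∈ (Icc 1 X).filter (fun n => n ∈ q.primeFactors), Real.log (n : ℝ) ≤
      ∑ n ∈ q.primeFactors, Real.log (n : ℝ) := by
    refine Finset.sum_le_sum_of_subset_of_nonneg (fun n hn => (mem_filter.1 hn).2)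
      fun n _ _ => Real.log_natCast_nonneg n
  refine h1.trans ?_
  rw [← Real.log_prod (fun p hp => by
    have := (Nat.prime_of_mem_primeFactors hp).pos
    exact_mod_cast this.ne')]
  rw [← Nat.cast_prod]
  have h2 : ∏ p ∈ q.primeFactors, p ≤ q := Nat.le_of_dvd hq1 (Nat.prod_primeFactors_dvd q)
  apply Real.log_le_log
  · have : 0 < ∏ p ∈ q.primeFactors, p := Finset.prod_pos fun p hp =>
      (Nat.prime_of_mem_primeFactors hp).pos
    exact_mod_cast this
  · exact_mod_cast h2.trans hqX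

private theorem a5_zI (X : ℕ) (hX : 1 ≤ X) : (zI X : ℝ) ≤ 2 * (X : ℝ) ^ (1 / 2 : ℝ) := by
  have hXR : (1 : ℝ) ≤ X := by exact_mod_cast hX
  have h1 : (1 : ℝ) ≤ (X : ℝ) ^ (1 / 10 : ℝ) := Real.one_le_rpow hXR (by norm_num)
  have h2 : (zI X : ℝ) < (X : ℝ) ^ (1 / 10 : ℝ) + 1 := Nat.ceil_lt_add_one (by positivity)
  have h3 : (X : ℝ) ^ (1 / 10 : ℝ) ≤ (X : ℝ) ^ (1 / 2 : ℝ) :=
    Real.rpow_le_rpow_of_exponent_le hXR (by norm_num)
  linarith

/-- primes with weight `log`, twisted by a character of small conductor -/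
private theorem a5_tw (A B : ℕ) : ∃ X0 : ℕ, ∀ X : ℕ, X0 ≤ X → ∀ (q : ℕ) (χ : DirichletCharacter ℂ q),
    1 ≤ q → q ≤ X → (χ.conductor : ℝ) ≤ Real.log X ^ B → χ ≠ 1 → ∀ y : ℕ, y ≤ X →
    ‖∑ n ∈ Icc 1 y, ((tw X n : ℝ) : ℂ) * χ (n : ZMod q)‖ ≤ X / Real.log X ^ A := by
  obtain ⟨X1, hX1⟩ := a5_lam (A + 1) B
  obtain ⟨X2, hX2⟩ := MP_log_large 2
  obtain ⟨X3, hX3⟩ := MP_log_pow 5 (A + 2) (ε := 1 / 2) (by norm_num)
  refine ⟨max (max X1 X2) (max X3 1), fun X hX q χ hq1 hqX hc hχ y hy => ?_⟩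
  simp only [max_le_iff] at hX
  obtain ⟨⟨hXa, hXb⟩, hXc, hXd⟩ := hX
  have hL := hX2 X hXb
  have h3 := hX3 X hXc
  have hXR : (1 : ℝ) ≤ X := by exact_mod_cast hXd
  have hX0 : (0 : ℝ) < X := by linarith
  haveI : NeZero q := ⟨by omega⟩
  have hd1 : 1 ≤ χ.conductor := by
    rcases Nat.eq_zero_or_pos χ.conductor with h | h
    · have := DirichletCharacter.conductor_dvd_level χ
      rw [h] at this
      have := Nat.eq_zero_of_zero_dvd this
      omega
    · exact h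
  have hχ0 : χ.primitiveCharacter ≠ 1 := by
    intro h
    apply hχ
    have h1 := DirichletCharacter.changeLevel_primitiveCharacter χ
    rw [h, DirichletCharacter.changeLevel_one] at h1
    exact h1.symm
  have h4 := hX1 X hXa χ.conductor χ.primitiveCharacter hd1 hc hχ0 y hy
  have hsub : Icc 1 y ⊆ Icc 1 X := Finset.Icc_subset_Icc le_rfl hy
  have h5 : ‖∑ n ∈ Icc 1 y, (((tw X n : ℝ) : ℂ) * χ (n : ZMod q) -
      (ArithmeticFunction.vonMangoldt n : ℂ) * χ.primitiveCharacter (n : ZMod χ.conductor))‖ ≤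
      2 * Real.sqrt X * Real.log X + zI X * Real.log X + Real.log X := by
    refine (norm_sum_le _ _).trans ?_
    refine (Finset.sum_le_sum fun n hn => a5_pt X q hq1 χ n (mem_Icc.1 hn).1).trans ?_
    refine (Finset.sum_le_sum_of_subset_of_nonneg hsub fun n _ _ => ?_).trans ?_
    · have hLn : 0 ≤ Real.log n := Real.log_natCast_nonneg n
      have h0 := ArithmeticFunction.vonMangoldt_nonneg (n := n)
      have i1 : 0 ≤ (if ¬ n.Prime then ArithmeticFunction.vonMangoldt n else 0) := by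
        split_ifs
        · exact le_rfl
        · exact h0
      have i2 : 0 ≤ (if n < zI X then Real.log n else 0) := by split_ifs <;> simp [hLn]
      have i3 : 0 ≤ (if n ∈ q.primeFactors then Real.log n else 0) := by split_ifs <;> simp [hLn]
      linarith
    · rw [Finset.sum_add_distrib, Finset.sum_add_distrib]
      exact add_le_add (add_le_add (a5_not X hXd) (a5_z X hXd)) (a5_q X q hq1 hqX)
  rw [Finset.sum_sub_distrib] at h5
  have h6 : ‖∑ n ∈ Icc 1 y, ((tw X n : ℝ) : ℂ) * χ (n : ZMod q)‖ ≤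
      X / Real.log X ^ (A + 1) + (2 * Real.sqrt X * Real.log X + zI X * Real.log X +
        Real.log X) := by
    have h7 := norm_add_le (∑ n ∈ Icc 1 y, ((tw X n : ℝ) : ℂ) * χ (n : ZMod q) -
      ∑ n ∈ Icc 1 y, (ArithmeticFunction.vonMangoldt n : ℂ) *
        χ.primitiveCharacter (n : ZMod χ.conductor))
      (∑ n ∈ Icc 1 y, (ArithmeticFunction.vonMangoldt n : ℂ) *
        χ.primitiveCharacter (n : ZMod χ.conductor))
    rw [sub_add_cancel] at h7
    linarith
  refine h6.trans ?_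
  obtain ⟨L, hLdef⟩ : ∃ L : ℝ, L = Real.log X := ⟨_, rfl⟩
  rw [← hLdef] at hL h3 ⊢
  have hL0 : 0 < L := by linarith
  have hs : (X : ℝ) ^ (1 / 2 : ℝ) * (X : ℝ) ^ (1 / 2 : ℝ) = X := by
    rw [← Real.rpow_add hX0]
    norm_num
  obtain ⟨s, hsdef⟩ : ∃ s : ℝ, s = (X : ℝ) ^ (1 / 2 : ℝ) := ⟨_, rfl⟩
  have hs1 : 1 ≤ s := by
    rw [hsdef]
    exact Real.one_le_rpow hXR (by norm_num)
  have hsq : Real.sqrt X = s := by rw [hsdef, Real.sqrt_eq_rpow]
  have hz := a5_zI X hXd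
  rw [← hsdef] at h3 hs hz
  rw [hsq]
  have h8 : 2 * s * L + zI X * L + L ≤ 5 * s * L := by nlinarith
  have h9 : 5 * s * L ≤ X / L ^ (A + 1) := by
    rw [le_div_iff₀ (by positivity)]
    calc 5 * s * L * L ^ (A + 1) = s * (5 * L ^ (A + 2)) := by ring
      _ ≤ s * s := mul_le_mul_of_nonneg_left h3 (by linarith)
      _ = X := hs
  have h10 : (X : ℝ) / L ^ (A + 1) + X / L ^ (A + 1) ≤ X / L ^ A := by
    rw [← add_div, div_le_div_iff₀ (by positivity) (by positivity), pow_succ]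
    have h5 : (X + X : ℝ) * L ^ A = X * (L ^ A * 2) := by ring
    rw [h5]
    refine mul_le_mul_of_nonneg_left ?_ (by linarith)
    exact mul_le_mul_of_nonneg_left hL (by positivity)
  linarith

/-- the total variation of the weights `e(nx) / log n` -/
private theorem a5_var (X : ℕ) (x : ℝ)
    (h : ∑ n ∈ Ico 1 X, |gP X (n + 1) - gP X n| ≤ Real.log X) :
    ∑ n ∈ Ico 1 X, ‖((gP X (n + 1) : ℝ) : ℂ) * ee (((n + 1 : ℕ) : ℝ) * x) -
      ((gP X n : ℝ) : ℂ) * ee ((n : ℝ) * x)‖ ≤ Real.log X + 14 * (|x| * X) := by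
  have h1 : ∀ n ∈ Ico 1 X, ‖((gP X (n + 1) : ℝ) : ℂ) * ee (((n + 1 : ℕ) : ℝ) * x) -
      ((gP X n : ℝ) : ℂ) * ee ((n : ℝ) * x)‖ ≤ |gP X (n + 1) - gP X n| +
        2 * ‖ee (((n + 1 : ℕ) : ℝ) * x) - ee ((n : ℝ) * x)‖ := by
    intro n _
    have e1 : ((gP X (n + 1) : ℝ) : ℂ) * ee (((n + 1 : ℕ) : ℝ) * x) -
        ((gP X n : ℝ) : ℂ) * ee ((n : ℝ) * x) =
        ((gP X (n + 1) - gP X n : ℝ) : ℂ) * ee (((n + 1 : ℕ) : ℝ) * x) +
          ((gP X n : ℝ) : ℂ) * (ee (((n + 1 : ℕ) : ℝ) * x) - ee ((n : ℝ) * x)) := by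
      push_cast
      ring
    rw [e1]
    refine (norm_add_le _ _).trans ?_
    rw [norm_mul, norm_mul, ar_ee_norm, mul_one, Complex.norm_real, Complex.norm_real,
      Real.norm_eq_abs, Real.norm_eq_abs]
    have h2 := gP_abs X n
    rw [abs_of_nonneg h2.1]
    have h3 : gP X n * ‖ee (((n + 1 : ℕ) : ℝ) * x) - ee ((n : ℝ) * x)‖ ≤
        2 * ‖ee (((n + 1 : ℕ) : ℝ) * x) - ee ((n : ℝ) * x)‖ :=
      mul_le_mul_of_nonneg_right h2.2 (norm_nonneg _)
    linarith
  refine (Finset.sum_le_sum h1).trans ?_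
  rw [Finset.sum_add_distrib, ← Finset.mul_sum]
  have h2 := Pool.MP_dd84fd_nt.T7.ee_var X x
  linarith

theorem SX_small (A B : ℕ) : ∃ X0 : ℕ, ∀ X : ℕ, X0 ≤ X → ∀ (q : ℕ) (χ : DirichletCharacter ℂ q),
    1 ≤ q → q ≤ X → (χ.conductor : ℝ) ≤ Real.log X ^ B → χ ≠ 1 → ∀ x : ℝ,
    |x| ≤ Real.log X ^ B / X → ‖SX X ⟨q, χ⟩ x‖ ≤ X / Real.log X ^ A := by
  obtain ⟨X1, hX1⟩ := a5_tw (A + B + 2) B
  obtain ⟨X2, hX2⟩ := MP_log_large 17
  obtain ⟨X3, hX3⟩ := w1P
  refine ⟨max (max X1 X2) (max X3 1), fun X hX q χ hq1 hqX hc hχ x hx => ?_⟩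
  simp only [max_le_iff] at hX
  obtain ⟨⟨hXa, hXb⟩, hXc, hXd⟩ := hX
  have hL := hX2 X hXb
  have h3 := (hX3 X hXc).2
  rw [pow_one] at h3
  have hXR : (1 : ℝ) ≤ X := by exact_mod_cast hXd
  have hX0 : (0 : ℝ) < X := by linarith
  have h4 := hX1 X hXa q χ hq1 hqX hc hχ
  have h5 := a5_var X x h3
  have h6 := Pool.MP_dd84fd_nt.T7.abel_var X hXd (fun n => ((tw X n : ℝ) : ℂ) * χ (n : ZMod q))
    (fun n => ((gP X n : ℝ) : ℂ) * ee ((n : ℝ) * x)) (X / Real.log X ^ (A + B + 2)) 2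
    (Real.log X + 14 * (|x| * X)) h4 (fun n _ => by
      rw [norm_mul, ar_ee_norm, mul_one, Complex.norm_real, Real.norm_eq_abs,
        abs_of_nonneg (gP_abs X n).1]
      exact (gP_abs X n).2) h5
  have h7 : SX X ⟨q, χ⟩ x = ∑ n ∈ Icc 1 X, (((tw X n : ℝ) : ℂ) * χ (n : ZMod q)) *
      (((gP X n : ℝ) : ℂ) * ee ((n : ℝ) * x)) := by
    unfold SX
    refine Finset.sum_congr rfl fun n _ => ?_
    show ((wP X n : ℝ) : ℂ) * χ (n : ZMod q) * ee ((n : ℝ) * x) = _
    have e1 : wP X n = tw X n * gP X n := by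
      unfold wP tw gP
      split_ifs with h
      · have h8 : (1 : ℝ) < n := by exact_mod_cast h.1.one_lt
        have h9 := Real.log_pos h8
        field_simp
      · rw [zero_mul]
    rw [e1]
    push_cast
    ring
  rw [h7]
  refine h6.trans ?_
  obtain ⟨L, hLdef⟩ : ∃ L : ℝ, L = Real.log X := ⟨_, rfl⟩
  rw [← hLdef] at hL hx ⊢
  have hL0 : 0 < L := by linarith
  have hLB : 1 ≤ L ^ B := one_le_pow₀ (by linarith)
  have h8 : |x| * X ≤ L ^ B := by
    rwa [le_div_iff₀ hX0] at hx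
  have h9 : 2 + (L + 14 * (|x| * X)) ≤ L ^ (B + 2) := by
    have h10 : L ^ (B + 2) = L ^ B * L * L := by ring
    have h11 : L ≤ L ^ B * L := by nlinarith
    have h12 : L ^ B ≤ L ^ B * L := by nlinarith
    have h13 : 17 * (L ^ B * L) ≤ L ^ B * L * L := by nlinarith
    rw [h10]
    nlinarith
  calc X / L ^ (A + B + 2) * (2 + (L + 14 * (|x| * X)))
      ≤ X / L ^ (A + B + 2) * L ^ (B + 2) := mul_le_mul_of_nonneg_left h9 (by positivity)
    _ = X / L ^ A := by
        rw [show A + B + 2 = A + (B + 2) by ring, pow_add L A (B + 2)]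
        field_simp

end Pool.MP_dd84fd_nt.BX
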