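import Pool.Agent.Lib.MP_dd84fd_nt.BX.Ar2
import Pool.Agent.Lib.MP_dd84fd_nt.BX.Ar5
import Pool.Agent.Lib.MP_dd84fd_nt.LX.PwLamA
import Pool.Agent.Lib.MP_dd84fd_nt.JX.PlLam
import Pool.Agent.Lib.MP_dd84fd_nt.En.Tot

/-!
# BX-Ar6: the characters of small conductor on the discs

`SmS q Z`: the characters `χ ≠ 1` modulo `q` of conductor `≤ Z`; there are at most `Z²`;
`small_N2d`: their mass on the discs is `≤ X / L^B` for `Z` a power of `L`.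
-/

set_option autoImplicit false

namespace Pool.MP_dd84fd_nt.BX

open Finset Pool.MP_67663b_nt.Odd Pool.MP_dd84fd_nt.En Pool.MP_dd84fd_nt.E2 Pool.MP_dd84fd_nt.LS
open Pool.MP_dd84fd_nt.GX Pool.MP_dd84fd_nt.HX Pool.MP_dd84fd_nt.IX
open Pool.MP_dd84fd_nt.PL (rr Fam tp hq)
open Pool.MP_dd84fd_nt.JX (wP gP)
open Pool.MP_dd84fd_nt.LXP (tq OmH mem_OmH card_OmH gs_cond)
open Pool.MP_dd84fd_nt.JXP (lamj_harm)

open Classical in
/-- the nonprincipal characters modulo `q` of conductor `≤ Z` -/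
noncomputable def SmS (q : ℕ) (Z : ℝ) : Finset (DirichletCharacter ℂ q) :=
  if h : q = 0 then ∅ else
    haveI : NeZero q := ⟨h⟩
    (univ : Finset (DirichletCharacter ℂ q)).filter (fun χ => χ ≠ 1 ∧ (χ.conductor : ℝ) ≤ Z)

open Classical in
theorem mem_SmS (q : ℕ) [NeZero q] (Z : ℝ) (χ : DirichletCharacter ℂ q) :
    χ ∈ SmS q Z ↔ χ ≠ 1 ∧ (χ.conductor : ℝ) ≤ Z := by
  unfold SmS
  rw [dif_neg (NeZero.ne q), mem_filter]
  exact ⟨fun h => h.2, fun h => ⟨mem_univ _, h⟩⟩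

theorem card_SmS (q : ℕ) [NeZero q] (Z : ℝ) (hZ : 1 ≤ Z) : ((SmS q Z).card : ℝ) ≤ Z ^ 2 := by
  classical
  have hq1 : 0 < q := Nat.pos_of_ne_zero (NeZero.ne q)
  have hsub : SmS q Z ⊆ ((Icc 1 ⌊Z⌋₊).filter (fun d => d ∣ q)).biUnion
      (fun d => OmH (q / d) q) := by
    intro χ hχ
    rw [mem_SmS] at hχ
    rw [mem_biUnion]
    have hd := DirichletCharacter.conductor_dvd_level χ
    have hd1 : 1 ≤ χ.conductor := Nat.pos_of_dvd_of_pos hd hq1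
    refine ⟨χ.conductor, ?_, ?_⟩
    · rw [mem_filter, mem_Icc]
      exact ⟨⟨hd1, Nat.le_floor hχ.2⟩, hd⟩
    · rw [mem_OmH]
      have h1 : hq q (q / χ.conductor) = χ.conductor := by
        unfold hq
        rw [Nat.gcd_eq_right (Nat.div_dvd_of_dvd hd), Nat.div_div_self hd hq1.ne']
      rw [h1]
      exact χ.factorsThrough_conductor
  have h1 : ((SmS q Z).card : ℝ) ≤ ∑ d ∈ (Icc 1 ⌊Z⌋₊).filter (fun d => d ∣ q),
      ((OmH (q / d) q).card : ℝ) := by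
    have h2 := (Finset.card_le_card hsub).trans Finset.card_biUnion_le
    exact_mod_cast h2
  refine h1.trans ?_
  have h2 : ∀ d ∈ (Icc 1 ⌊Z⌋₊).filter (fun d => d ∣ q), ((OmH (q / d) q).card : ℝ) ≤ Z := by
    intro d hd
    rw [mem_filter, mem_Icc] at hd
    refine (card_OmH (q / d) q).trans ?_
    have h3 : hq q (q / d) = d := by
      unfold hq
      rw [Nat.gcd_eq_right (Nat.div_dvd_of_dvd hd.2), Nat.div_div_self hd.2 hq1.ne']
    rw [h3]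
    exact (Nat.le_floor_iff (by linarith)).1 hd.1.2
  refine (Finset.sum_le_sum h2).trans ?_
  rw [Finset.sum_const, nsmul_eq_mul, sq]
  refine mul_le_mul_of_nonneg_right ?_ (by linarith)
  have h3 : ((Icc 1 ⌊Z⌋₊).filter (fun d => d ∣ q)).card ≤ ⌊Z⌋₊ := by
    refine (Finset.card_filter_le _ _).trans ?_
    rw [Nat.card_Icc, Nat.add_sub_cancel]
  calc (((Icc 1 ⌊Z⌋₊).filter (fun d => d ∣ q)).card : ℝ) ≤ (⌊Z⌋₊ : ℝ) := by exact_mod_cast h3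
    _ ≤ Z := Nat.floor_le (by linarith)

theorem mC_SmS (X : ℕ) (r : ℝ) (hr : 0 ≤ r) (q : ℕ) [NeZero q] (Z : ℝ) (hZ : 1 ≤ Z) (G : ℝ)
    (hG : ∀ χ ∈ SmS q Z, ∀ x : ℝ, |x| ≤ r / X → ‖SX X ⟨q, χ⟩ x‖ ≤ G) :
    mC X r q (SmS q Z) ≤ 1 / (Nat.totient q : ℝ) * (Z ^ 3 * (2 * (r / X) * G ^ 2)) := by
  have hφ : (0 : ℝ) < Nat.totient q := by
    exact_mod_cast Nat.totient_pos.2 (Nat.pos_of_ne_zero (NeZero.ne q))
  have hrX : 0 ≤ r / (X : ℝ) := div_nonneg hr (Nat.cast_nonneg X)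
  rw [mC_eq]
  have h1 : ∀ χ ∈ SmS q Z, ‖tq q χ⁻¹‖ ^ 2 / (Nat.totient q : ℝ) *
      ∫ x in (-(r / X))..(r / X), ‖SX X ⟨q, χ⟩ x‖ ^ 2 ≤
      Z / (Nat.totient q : ℝ) * (2 * (r / X) * G ^ 2) := by
    intro χ hχ
    have hχ' := (mem_SmS q Z χ).1 hχ
    have h2 : ‖tq q χ⁻¹‖ ^ 2 ≤ Z := by
      refine (gs_cond q χ⁻¹).trans ?_
      rw [DirichletCharacter.conductor_inv]
      exact hχ'.2
    have h3 : ∫ x in (-(r / X))..(r / X), ‖SX X ⟨q, χ⟩ x‖ ^ 2 ≤ 2 * (r / X) * G ^ 2 := by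
      have hc := SX_cont X ⟨q, χ⟩
      have h4 : ∫ x in (-(r / X))..(r / X), ‖SX X ⟨q, χ⟩ x‖ ^ 2 ≤
          ∫ _x in (-(r / X))..(r / X), G ^ 2 := by
        refine intervalIntegral.integral_mono_on (ar_le X hr)
          (by apply Continuous.intervalIntegrable; fun_prop)
          (continuous_const.intervalIntegrable _ _) fun x hx => ?_
        exact pow_le_pow_left₀ (norm_nonneg _) (hG χ hχ x (abs_le.2 ⟨hx.1, hx.2⟩)) 2
      rw [intervalIntegral.integral_const, smul_eq_mul] at h4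
      refine h4.trans (le_of_eq ?_)
      ring
    refine mul_le_mul (div_le_div_of_nonneg_right h2 hφ.le) h3 (int_SX_nonneg X r hr _) ?_
    positivity
  refine (Finset.sum_le_sum h1).trans ?_
  rw [Finset.sum_const, nsmul_eq_mul]
  have h2 := card_SmS q Z hZ
  have h3 : 0 ≤ Z / (Nat.totient q : ℝ) * (2 * (r / X) * G ^ 2) := by positivity
  refine (mul_le_mul_of_nonneg_right h2 h3).trans (le_of_eq ?_)
  ring

private theorem a6_tot (X q : ℕ) (hq : 1 ≤ q) (hqX : q ≤ X) (hX : 1 ≤ Real.log X) :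
    1 / (Nat.totient q : ℝ) ≤ 4 * Real.log X * (1 / q) := by
  have h1 := totient_ge q hq
  have h2 : 1 + Real.logb 2 q ≤ 4 * Real.log X := by
    have h1 : Real.logb 2 q = Real.log q / Real.log 2 := rfl
    have h2 : Real.log q ≤ Real.log X :=
      Real.log_le_log (by exact_mod_cast hq) (by exact_mod_cast hqX)
    have h3 : (0.5 : ℝ) < Real.log 2 := by have := Real.log_two_gt_d9; linarith
    have h4 : 0 ≤ Real.log q := Real.log_natCast_nonneg q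
    have h5 : Real.log q / Real.log 2 ≤ 2 * Real.log q := by
      rw [div_le_iff₀ (by linarith)]
      nlinarith
    rw [h1]
    linarith
  have h3 : (0 : ℝ) < Nat.totient q := by exact_mod_cast Nat.totient_pos.2 hq
  have h4 : (0 : ℝ) < q := by exact_mod_cast hq
  rw [mul_one_div, div_le_div_iff₀ h3 h4]
  nlinarith

/-- the sum of `1/φ(q)` -/
theorem sum_inv_tot (X : ℕ) (hX : 2 ≤ Real.log X) (QQ : Finset ℕ) (hQ : ∀ q ∈ QQ, 1 ≤ q ∧ q ≤ X) :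
    ∑ q ∈ QQ, 1 / (Nat.totient q : ℝ) ≤ 8 * (Real.log X) ^ 2 := by
  have h1 : ∑ q ∈ QQ, 1 / (Nat.totient q : ℝ) ≤ ∑ q ∈ QQ, 4 * Real.log X * (1 / (q : ℝ)) :=
    Finset.sum_le_sum fun q hq => a6_tot X q (hQ q hq).1 (hQ q hq).2 (by linarith)
  have h2 := lamj_harm X QQ hQ
  rw [← Finset.mul_sum] at h1
  have h3 : 4 * Real.log X * ∑ q ∈ QQ, 1 / (q : ℝ) ≤ 4 * Real.log X * (1 + Real.log X) :=
    mul_le_mul_of_nonneg_left h2 (by linarith)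
  nlinarith

theorem small_N2d (B KK K2 : ℕ) : ∃ X0 : ℕ, ∀ X : ℕ, X0 ≤ X → ∀ (QQ : Finset ℕ) (ρ : ℕ → ℝ),
    (∀ q ∈ QQ, 0 ≤ ρ q ∧ ρ q ≤ 4 * (Real.log X) ^ K2) → (∀ q ∈ QQ, 1 ≤ q ∧ q ≤ X) →
    ∑ q ∈ QQ, mC X (ρ q) q (SmS q ((Real.log X) ^ KK)) ≤ X / (Real.log X) ^ B := by
  obtain ⟨X1, hX1⟩ := SX_small (B + 3 * KK + K2 + 3) (KK + K2 + 1)
  obtain ⟨X2, hX2⟩ := MP_log_large 64
  refine ⟨max (max X1 X2) 1, fun X hX QQ ρ hρ hQ => ?_⟩
  simp only [max_le_iff] at hX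
  obtain ⟨⟨hXa, hXb⟩, hXc⟩ := hX
  have hL := hX2 X hXb
  have h1 := hX1 X hXa
  have hXR : (1 : ℝ) ≤ X := by exact_mod_cast hXc
  have hX0 : (0 : ℝ) < X := by linarith
  have hs := sum_inv_tot X (by linarith) QQ hQ
  obtain ⟨L, hLdef⟩ : ∃ L : ℝ, L = Real.log X := ⟨_, rfl⟩
  rw [← hLdef] at hL h1 hρ hs ⊢
  have hL0 : 0 < L := by linarith
  have hL1 : 1 ≤ L := by linarith
  obtain ⟨G, hGdef⟩ : ∃ G : ℝ, G = X / L ^ (B + 3 * KK + K2 + 3) := ⟨_, rfl⟩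
  have hG0 : 0 ≤ G := by rw [hGdef]; positivity
  have h2 : ∀ q ∈ QQ, mC X (ρ q) q (SmS q (L ^ KK)) ≤ 1 / (Nat.totient q : ℝ) *
      ((L ^ KK) ^ 3 * (2 * ((4 * L ^ K2) / X) * G ^ 2)) := by
    intro q hq
    obtain ⟨hq1, hqX⟩ := hQ q hq
    obtain ⟨hr0, hr1⟩ := hρ q hq
    haveI : NeZero q := ⟨by omega⟩
    have h3 := mC_SmS X (ρ q) hr0 q (L ^ KK) (one_le_pow₀ hL1) G (by
      intro χ hχ x hx
      rw [mem_SmS] at hχ
      rw [hGdef]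
      refine h1 q χ hq1 hqX (hχ.2.trans ?_) hχ.1 x (hx.trans ?_)
      · exact pow_le_pow_right₀ hL1 (by omega)
      · refine div_le_div_of_nonneg_right (hr1.trans ?_) hX0.le
        calc 4 * L ^ K2 ≤ L * L ^ K2 := mul_le_mul_of_nonneg_right (by linarith) (by positivity)
          _ = L ^ (K2 + 1) := by ring
          _ ≤ L ^ (KK + K2 + 1) := pow_le_pow_right₀ hL1 (by omega))
    refine h3.trans ?_
    have hrX : ρ q / (X : ℝ) ≤ (4 * L ^ K2) / X := div_le_div_of_nonneg_right hr1 hX0.le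
    gcongr
  refine (Finset.sum_le_sum h2).trans ?_
  rw [← Finset.sum_mul]
  obtain ⟨M, hMdef⟩ : ∃ M : ℝ, M = L ^ (B + 3 * KK + K2 + 3) := ⟨_, rfl⟩
  have hM0 : 0 < M := by rw [hMdef]; positivity
  have h4 : (L ^ KK) ^ 3 * (2 * ((4 * L ^ K2) / X) * G ^ 2) =
      8 * X * (L ^ (3 * KK + K2) / M ^ 2) := by
    rw [hGdef, ← hMdef]
    field_simp
    ring
  rw [h4]
  have h5 : 0 ≤ 8 * X * (L ^ (3 * KK + K2) / M ^ 2) := by positivity
  refine (mul_le_mul_of_nonneg_right hs h5).trans ?_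
  have h6 : M = L ^ B * L ^ (3 * KK + K2) * L ^ 3 := by
    rw [hMdef]
    ring
  have h7 : 8 * L ^ 2 * (8 * X * (L ^ (3 * KK + K2) / M ^ 2)) =
      X / L ^ B * (64 * L ^ 2 * L ^ (3 * KK + K2) * L ^ B / M ^ 2) := by
    field_simp
    ring
  rw [h7]
  have h8 : 64 * L ^ 2 * L ^ (3 * KK + K2) * L ^ B / M ^ 2 ≤ 1 := by
    rw [div_le_one (by positivity)]
    have h9 : 64 * L ^ 2 * L ^ (3 * KK + K2) * L ^ B ≤ M := by
      rw [h6]
      calc 64 * L ^ 2 * L ^ (3 * KK + K2) * L ^ B ≤ L * L ^ 2 * L ^ (3 * KK + K2) * L ^ B := by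
            gcongr
        _ = L ^ B * L ^ (3 * KK + K2) * L ^ 3 := by ring
    have h10 : 1 ≤ M := by rw [hMdef]; exact one_le_pow₀ hL1
    nlinarith
  have h9 : 0 ≤ X / L ^ B := by positivity
  nlinarith

end Pool.MP_dd84fd_nt.BX
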