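import Pool.Agent.Lib.MP_dd84fd_nt.BX.ArM
import Pool.Agent.Lib.MP_dd84fd_nt.LX.PwGS
import Pool.Agent.Lib.MP_dd84fd_nt.JX.PlLam
import Pool.Agent.Lib.MP_dd84fd_nt.En.Tot

/-!
# BX-ArP: the mean of `W_-` on the reduced fractions with one denominator

Denominators without prime factor `> w`: the weights live on the integers coprime to `q`, so the mean is
`μ(q)/φ(q) W_-(x)` (`majP`).  Denominators with a prime factor `p > w`: `q ≤ L^K1 (q,n)` forces `p ∣ n`,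
so `∑ 1/q ≤ 4 L^2/w`, and the means of `PX` and `FX` are `O(L^5 X/q)` (`mod_split`).
-/

set_option autoImplicit false

namespace Pool.MP_dd84fd_nt.BX

open Finset Pool.MP_67663b_nt.Odd Pool.MP_dd84fd_nt.En Pool.MP_dd84fd_nt.E2 Pool.MP_dd84fd_nt.LS
open Pool.MP_dd84fd_nt.GX Pool.MP_dd84fd_nt.HX Pool.MP_dd84fd_nt.IX Pool.MP_dd84fd_nt.HXP
open Pool.MP_dd84fd_nt.PL (rr tp V0 Fam)
open Pool.MP_dd84fd_nt.JX (wP gP w1P majP wP_nonneg wP_le_one gP_abs)
open Pool.MP_dd84fd_nt.LXP (tq gs_unit gs_cond)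
open Pool.MP_dd84fd_nt.JXP (lamj_harm)

/-! ### Ramanujan sums -/

private theorem ap_sum (q : ℕ) [NeZero q] (F : ℕ → ℂ) :
    ∑ y : ZMod q, (1 : DirichletCharacter ℂ q) y * F y.val = ∑ b ∈ rr q, F b := by
  have e1 : ∑ y : ZMod q, (1 : DirichletCharacter ℂ q) y * F y.val =
      ∑ b ∈ range q, (1 : DirichletCharacter ℂ q) ((b : ℕ) : ZMod q) * F b := by
    refine sum_nbij' (fun y => y.val) (fun y => (y : ZMod q)) ?_ ?_ ?_ ?_ ?_
    · intro y _
      exact mem_range.2 (ZMod.val_lt y)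
    · intro y _
      exact mem_univ _
    · intro y _
      exact ZMod.natCast_zmod_val y
    · intro y hy
      exact ZMod.val_cast_of_lt (mem_range.1 hy)
    · intro y _
      rw [ZMod.natCast_zmod_val]
  rw [e1]
  unfold rr
  rw [sum_filter]
  refine sum_congr rfl fun b _ => ?_
  split_ifs with h
  · rw [MulChar.one_apply ((ZMod.isUnit_iff_coprime b q).2 h), one_mul]
  · have h2 : ¬ IsUnit ((b : ℕ) : ZMod q) := fun hu => h ((ZMod.isUnit_iff_coprime b q).1 hu)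
    rw [MulChar.map_nonunit _ h2, zero_mul]

/-- the Ramanujan sum at the integers coprime to `q` -/
theorem ap_ram (q : ℕ) (hq : 1 ≤ q) : ∃ κ : ℂ, ‖κ‖ ≤ 1 ∧ ∀ m : ℕ, Nat.Coprime m q →
    ∑ b ∈ rr q, ee ((m : ℝ) * ((b : ℝ) / q)) = κ := by
  haveI : NeZero q := ⟨by omega⟩
  refine ⟨tq q 1, ?_, fun m hm => ?_⟩
  · have h1 := gs_cond q (1 : DirichletCharacter ℂ q)
    rw [DirichletCharacter.conductor_one, Nat.cast_one] at h1
    nlinarith [norm_nonneg (tq q (1 : DirichletCharacter ℂ q))]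
  · have h1 := gs_unit q (1 : DirichletCharacter ℂ q) m hm
    rw [ap_sum q (fun y => ee ((m : ℝ) * ((y : ℝ) / q))),
      MulChar.one_apply ((ZMod.isUnit_iff_coprime m q).2 hm), map_one, one_mul] at h1
    exact h1

/-- the mean of a trigonometric sum -/
theorem ap_mean (q X : ℕ) (u : ℕ → ℝ) (x : ℝ) :
    Mn (fun θ => ∑ m ∈ Icc 1 X, ((u m : ℝ) : ℂ) * ee ((m : ℝ) * θ)) q x =
      (1 / (Nat.totient q : ℂ)) * ∑ m ∈ Icc 1 X, ((u m : ℝ) : ℂ) * ee ((m : ℝ) * x) *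
        ∑ b ∈ rr q, ee ((m : ℝ) * ((b : ℝ) / q)) := by
  unfold Mn
  congr 1
  rw [sum_comm]
  refine sum_congr rfl fun m _ => ?_
  rw [mul_sum]
  refine sum_congr rfl fun b _ => ?_
  rw [mul_add, ar_ee_add]
  ring

private theorem ap_cardp (q : ℕ) (hq : q ≠ 0) : (q.primeFactors.card : ℝ) ≤ 2 * Real.log q := by
  have h1 : 2 ^ q.primeFactors.card ≤ q := by
    calc 2 ^ q.primeFactors.card = ∏ p ∈ q.primeFactors, 2 := by rw [Finset.prod_const]
      _ ≤ ∏ p ∈ q.primeFactors, p :=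
          Finset.prod_le_prod (fun _ _ => by norm_num)
            (fun p hp => (Nat.prime_of_mem_primeFactors hp).two_le)
      _ ≤ q := Nat.le_of_dvd (Nat.pos_of_ne_zero hq) (Nat.prod_primeFactors_dvd q)
  have h2 : (2 : ℝ) ^ q.primeFactors.card ≤ q := by exact_mod_cast h1
  have h3 := Real.log_le_log (by positivity) h2
  rw [Real.log_pow] at h3
  have h4 : (0.5 : ℝ) < Real.log 2 := by have := Real.log_two_gt_d9; linarith
  have h5 : (0 : ℝ) ≤ q.primeFactors.card := Nat.cast_nonneg _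
  nlinarith

private theorem ap_tot (X q : ℕ) (hq : 1 ≤ q) (hqX : q ≤ X) (hX : 1 ≤ Real.log X) :
    1 / (Nat.totient q : ℝ) ≤ 4 * Real.log X * (1 / q) := by
  have h1 := totient_ge q hq
  have h2 : 1 + Real.logb 2 q ≤ 4 * Real.log X := by
    have h1 : Real.logb 2 q = Real.log q / Real.log 2 := rfl
    have h2 : Real.log q ≤ Real.log X :=
      Real.log_le_log (by exact_mod_cast hq) (by exact_mod_cast hqX)
    have h3 : (0.5 : ℝ) < Real.log 2 := by have := Real.log_two_gt_d9; linarith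
    have h4 : 0 ≤ Real.log q := Real.log_natCast_nonneg q
    have h5 : Real.log q / Real.log 2 ≤ 2 * Real.log q := by
      rw [div_le_iff₀ (by linarith)]
      nlinarith
    rw [h1]
    linarith
  have h3 : (0 : ℝ) < Nat.totient q := by exact_mod_cast Nat.totient_pos.2 hq
  have h4 : (0 : ℝ) < q := by exact_mod_cast hq
  rw [mul_one_div, div_le_div_iff₀ h3 h4]
  nlinarith

/-- sum of `1/q` over the multiples of the prime factors `> w` of `n` -/
theorem ap_harm (X n w : ℕ) (hn : 1 ≤ n) (hnX : n ≤ X) (hw : 1 ≤ w) (QQ : Finset ℕ)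
    (hQ : ∀ q ∈ QQ, 1 ≤ q ∧ q ≤ X) (hp : ∀ q ∈ QQ, ∃ p : ℕ, p.Prime ∧ w < p ∧ p ∣ q ∧ p ∣ n) :
    ∑ q ∈ QQ, 1 / (q : ℝ) ≤ 2 * Real.log X * (1 + Real.log X) / w := by
  classical
  have hw0 : (0 : ℝ) < w := by exact_mod_cast hw
  have hl0 : 0 ≤ Real.log (X : ℝ) := Real.log_natCast_nonneg X
  have h1 : ∑ q ∈ QQ, 1 / (q : ℝ) ≤ ∑ q ∈ QQ, ∑ p ∈ n.primeFactors.filter (fun p => w < p),
      if p ∣ q then 1 / (q : ℝ) else 0 := by
    refine sum_le_sum fun q hq => ?_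
    obtain ⟨p, hp1, hp2, hp3, hp4⟩ := hp q hq
    have hmem : p ∈ n.primeFactors.filter (fun p => w < p) := by
      rw [mem_filter, Nat.mem_primeFactors]
      exact ⟨⟨hp1, hp4, by omega⟩, hp2⟩
    have h3 := single_le_sum (f := fun p => if p ∣ q then 1 / (q : ℝ) else 0)
      (fun p _ => by
        show 0 ≤ if p ∣ q then 1 / (q : ℝ) else 0
        split_ifs
        · positivity
        · exact le_rfl) hmem
    simp only [if_pos hp3] at h3
    exact h3
  refine h1.trans ?_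
  rw [sum_comm]
  have h2 : ∀ p ∈ n.primeFactors.filter (fun p => w < p),
      ∑ q ∈ QQ, (if p ∣ q then 1 / (q : ℝ) else 0) ≤ (1 + Real.log X) / w := by
    intro p hp'
    rw [mem_filter, Nat.mem_primeFactors] at hp'
    obtain ⟨⟨hp1, -, -⟩, hp2⟩ := hp'
    have hp0 : (0 : ℝ) < p := by exact_mod_cast hp1.pos
    rw [← sum_filter]
    have h3 : ∑ q ∈ QQ.filter (fun q => p ∣ q), 1 / (q : ℝ) =
        (1 / (p : ℝ)) * ∑ l ∈ (QQ.filter (fun q => p ∣ q)).image (fun q => q / p),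
          1 / (l : ℝ) := by
      rw [sum_image, mul_sum]
      · refine sum_congr rfl fun q hq => ?_
        rw [mem_filter] at hq
        rw [Nat.cast_div hq.2 hp0.ne']
        have : (0 : ℝ) < q := by exact_mod_cast (hQ q hq.1).1
        field_simp
      · intro a ha b hb hab
        rw [mem_coe, mem_filter] at ha hb
        exact (Nat.div_left_inj ha.2 hb.2).1 hab
    have h4 := lamj_harm X ((QQ.filter (fun q => p ∣ q)).image (fun q => q / p)) (by
      intro l hl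
      rw [mem_image] at hl
      obtain ⟨q, hq, rfl⟩ := hl
      rw [mem_filter] at hq
      refine ⟨?_, (Nat.div_le_self _ _).trans (hQ q hq.1).2⟩
      exact Nat.div_pos (Nat.le_of_dvd (hQ q hq.1).1 hq.2) hp1.pos)
    rw [h3]
    have hwp : (w : ℝ) ≤ p := by exact_mod_cast hp2.le
    calc (1 / (p : ℝ)) * ∑ l ∈ (QQ.filter (fun q => p ∣ q)).image (fun q => q / p),
          1 / (l : ℝ) ≤ (1 / (p : ℝ)) * (1 + Real.log X) :=
          mul_le_mul_of_nonneg_left h4 (by positivity)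
      _ ≤ (1 / (w : ℝ)) * (1 + Real.log X) := by
          apply mul_le_mul_of_nonneg_right _ (by positivity)
          exact one_div_le_one_div_of_le hw0 hwp
      _ = (1 + Real.log X) / w := by ring
  refine (sum_le_sum h2).trans ?_
  rw [sum_const, nsmul_eq_mul]
  have h5 : ((n.primeFactors.filter (fun p => w < p)).card : ℝ) ≤ 2 * Real.log X := by
    have h6 : ((n.primeFactors.filter (fun p => w < p)).card : ℝ) ≤ n.primeFactors.card := by
      exact_mod_cast card_filter_le _ _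
    have h7 := ap_cardp n (by omega)
    have h8 : Real.log n ≤ Real.log X :=
      Real.log_le_log (by exact_mod_cast hn) (by exact_mod_cast hnX)
    linarith
  calc ((n.primeFactors.filter (fun p => w < p)).card : ℝ) * ((1 + Real.log X) / w) ≤
        2 * Real.log X * ((1 + Real.log X) / w) := mul_le_mul_of_nonneg_right h5 (by positivity)
    _ = _ := by ring

/-! ### Denominators without prime factor `> w` -/

theorem ap_good (X q w : ℕ) (hq : 1 ≤ q) (hw : w < zI X)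
    (hp : ∀ p : ℕ, p.Prime → p ∣ q → p ≤ w) (x : ℝ) :
    ‖Mn (WI wP gP (-1) w X) q x‖ ≤ 1 / (Nat.totient q : ℝ) * ‖WI wP gP (-1) w X x‖ := by
  obtain ⟨κ, hκ, hm⟩ := ap_ram q hq
  have e1 : Mn (WI wP gP (-1) w X) q x =
      (1 / (Nat.totient q : ℂ)) * (WI wP gP (-1) w X x * κ) := by
    have e2 := ap_mean q X (fun m => wP X m + (-1) * fI gP X w m) x
    have e3 : (fun θ => ∑ m ∈ Icc 1 X, (((wP X m + (-1) * fI gP X w m : ℝ)) : ℂ) *
        ee ((m : ℝ) * θ)) = WI wP gP (-1) w X := rfl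
    rw [e3] at e2
    rw [e2]
    congr 1
    unfold WI
    rw [sum_mul]
    refine sum_congr rfl fun m hmX => ?_
    by_cases hc : Nat.Coprime m q
    · rw [hm m hc]
    · have h1 : wP X m = 0 := by
        unfold wP
        rw [if_neg]
        rintro ⟨h2, h3⟩
        have h4 : m ∣ q := by
          by_contra h5
          exact hc ((Nat.Prime.coprime_iff_not_dvd h2).2 h5)
        have := hp m h2 h4
        omega
      have h2 : fI gP X w m = 0 := by
        unfold fI f1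
        rw [if_neg, mul_zero]
        intro h3
        obtain ⟨p, hp1, hp2, hp3⟩ := Nat.Prime.not_coprime_iff_dvd.1 hc
        have h4 : p ∣ primorial w := by
          unfold primorial
          apply dvd_prod_of_mem
          rw [mem_filter, mem_range]
          have := hp p hp1 hp3
          exact ⟨by omega, hp1⟩
        exact Nat.Prime.not_coprime_iff_dvd.2 ⟨p, hp1, hp2, h4⟩ h3
      rw [h1, h2]
      simp
  rw [e1, norm_mul, norm_div, norm_one, Complex.norm_natCast, norm_mul]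
  apply mul_le_mul_of_nonneg_left _ (by positivity)
  calc ‖WI wP gP (-1) w X x‖ * ‖κ‖ ≤ ‖WI wP gP (-1) w X x‖ * 1 :=
        mul_le_mul_of_nonneg_left hκ (norm_nonneg _)
    _ = _ := mul_one _

/-! ### The primes -/

theorem ap_prime (X q : ℕ) (hq : 1 ≤ q) (x : ℝ) :
    ‖Mn (PX X) q x‖ ≤ X / (Nat.totient q : ℝ) + 2 * Real.log q := by
  obtain ⟨κ, hκ, hm⟩ := ap_ram q hq
  have hφ : (0 : ℝ) < Nat.totient q := by exact_mod_cast Nat.totient_pos.2 hq
  have e2 := ap_mean q X (fun m => wP X m) x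
  have e3 : (fun θ => ∑ m ∈ Icc 1 X, ((wP X m : ℝ) : ℂ) * ee ((m : ℝ) * θ)) = PX X := rfl
  rw [e3] at e2
  rw [e2, norm_mul, norm_div, norm_one, Complex.norm_natCast]
  have h1 : ‖∑ m ∈ Icc 1 X, ((wP X m : ℝ) : ℂ) * ee ((m : ℝ) * x) *
      ∑ b ∈ rr q, ee ((m : ℝ) * ((b : ℝ) / q))‖ ≤
      ∑ m ∈ Icc 1 X, (1 + if m ∈ q.primeFactors then (Nat.totient q : ℝ) else 0) := by
    refine (norm_sum_le _ _).trans (sum_le_sum fun m _ => ?_)
    rw [norm_mul, norm_mul, ar_ee_norm, mul_one, Complex.norm_real, Real.norm_eq_abs,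
      abs_of_nonneg (wP_nonneg X m)]
    by_cases hc : Nat.Coprime m q
    · rw [hm m hc]
      have h2 : wP X m * ‖κ‖ ≤ 1 * 1 :=
        mul_le_mul (wP_le_one X m) hκ (norm_nonneg _) zero_le_one
      have h3 : (0 : ℝ) ≤ if m ∈ q.primeFactors then (Nat.totient q : ℝ) else 0 := by
        split_ifs <;> positivity
      linarith
    · by_cases hmp : m.Prime
      · have h4 : m ∈ q.primeFactors := by
          rw [Nat.mem_primeFactors]
          refine ⟨hmp, ?_, by omega⟩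
          by_contra h5
          exact hc ((Nat.Prime.coprime_iff_not_dvd hmp).2 h5)
        rw [if_pos h4]
        have h5 : ‖∑ b ∈ rr q, ee ((m : ℝ) * ((b : ℝ) / q))‖ ≤ Nat.totient q := by
          refine (norm_sum_le _ _).trans ?_
          rw [sum_congr rfl (fun b _ => ar_ee_norm _), sum_const, nsmul_eq_mul, mul_one, rr_card]
        have h6 : wP X m * ‖∑ b ∈ rr q, ee ((m : ℝ) * ((b : ℝ) / q))‖ ≤
            1 * (Nat.totient q : ℝ) :=
          mul_le_mul (wP_le_one X m) h5 (norm_nonneg _) zero_le_one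
        linarith
      · have h1 : wP X m = 0 := by
          unfold wP
          rw [if_neg]
          rintro ⟨h2, -⟩
          exact hmp h2
        rw [h1, zero_mul]
        split_ifs <;> positivity
  have h2 : ∑ m ∈ Icc 1 X, (1 + if m ∈ q.primeFactors then (Nat.totient q : ℝ) else 0) ≤
      X + (Nat.totient q : ℝ) * (2 * Real.log q) := by
    rw [sum_add_distrib, sum_const, nsmul_eq_mul, mul_one, Nat.card_Icc, ← sum_filter,
      sum_const, nsmul_eq_mul]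
    have h3 : (((Icc 1 X).filter (fun m => m ∈ q.primeFactors)).card : ℝ) ≤ 2 * Real.log q := by
      refine le_trans ?_ (ap_cardp q (by omega))
      have h4 : (Icc 1 X).filter (fun m => m ∈ q.primeFactors) ⊆ q.primeFactors := by
        intro m hm'
        exact (mem_filter.1 hm').2
      exact_mod_cast card_le_card h4
    have h5 : ((X + 1 - 1 : ℕ) : ℝ) = X := by simp
    rw [h5]
    nlinarith
  calc 1 / (Nat.totient q : ℝ) * ‖∑ m ∈ Icc 1 X, ((wP X m : ℝ) : ℂ) * ee ((m : ℝ) * x) *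
        ∑ b ∈ rr q, ee ((m : ℝ) * ((b : ℝ) / q))‖ ≤
        1 / (Nat.totient q : ℝ) * (X + (Nat.totient q : ℝ) * (2 * Real.log q)) :=
        mul_le_mul_of_nonneg_left (h1.trans h2) (by positivity)
    _ = X / (Nat.totient q : ℝ) + 2 * Real.log q := by
        field_simp

theorem ap_PX_cont (X : ℕ) : Continuous (PX X) := by
  have h := ar_ee_cont
  unfold PX
  fun_prop

theorem ap_FX_cont (w X : ℕ) : Continuous (FX w X) := by
  have h := ar_ee_cont
  unfold FX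
  fun_prop

theorem ap_WI_eq (w X : ℕ) (θ : ℝ) : WI wP gP (-1) w X θ = PX X θ - FX w X θ := by
  unfold WI PX FX
  rw [← sum_sub_distrib]
  refine sum_congr rfl fun n _ => ?_
  push_cast
  ring

/-- a prime factor `> L^K1` of `q ≤ L^K1 (q, n)` divides `n` -/
theorem ap_dvd (q n p : ℕ) (hq : 1 ≤ q) (hp : p.Prime) (hpq : p ∣ q) {Q : ℝ}
    (hQ : (q : ℝ) ≤ Q * (Nat.gcd q n : ℝ)) (hpQ : Q < p) : p ∣ n := by
  by_contra hn
  have h1 : Nat.Coprime p (Nat.gcd q n) :=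
    (Nat.Prime.coprime_iff_not_dvd hp).2 fun h => hn (h.trans (Nat.gcd_dvd_right q n))
  have h2 : p * Nat.gcd q n ∣ q := h1.mul_dvd_of_dvd_of_dvd hpq (Nat.gcd_dvd_left q n)
  have h3 : p * Nat.gcd q n ≤ q := Nat.le_of_dvd hq h2
  have h4 : (p : ℝ) * (Nat.gcd q n : ℝ) ≤ q := by exact_mod_cast h3
  have h5 : (0 : ℝ) < (Nat.gcd q n : ℝ) := by
    exact_mod_cast Nat.gcd_pos_of_pos_left n hq
  nlinarith

/-! ### The two parts -/

private theorem ap_term (X : ℕ) (hX : 1 ≤ X) (T r φ g G : ℝ) (hr : 0 ≤ r) (hrT : r ≤ T)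
    (hφ : 0 ≤ φ) (hg : g ^ 2 ≤ G) :
    φ * (2 * (r / X) * g ^ 2) ≤ φ * (2 * T / X) * G := by
  have hX0 : (0 : ℝ) < X := by exact_mod_cast hX
  have h1 : 2 * (r / X) ≤ 2 * T / X := by
    rw [mul_div_assoc']
    apply div_le_div_of_nonneg_right _ hX0.le
    linarith
  have h2 : 0 ≤ 2 * (r / (X : ℝ)) := by positivity
  have h3 : 2 * (r / X) * g ^ 2 ≤ 2 * T / X * G :=
    mul_le_mul h1 hg (by positivity) (h2.trans h1)
  calc φ * (2 * (r / X) * g ^ 2) ≤ φ * (2 * T / X * G) := mul_le_mul_of_nonneg_left h3 hφ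
    _ = _ := by ring

/-- the denominators without prime factor `> w` -/
theorem ap_part1 (X w K2 A : ℕ) (hX : 1 ≤ X) (hw : w < zI X) (hL : 4 ≤ Real.log X)
    (hW : ∀ θ : ℝ, Ht ((Real.log X) ^ (K2 + 3)) X θ →
      ‖WI wP gP (-1) w X θ‖ ≤ X / (Real.log X) ^ A) (QQ : Finset ℕ) (ρ : ℕ → ℝ)
    (hρ : ∀ q ∈ QQ, 0 ≤ ρ q ∧ ρ q ≤ 4 * (Real.log X) ^ K2) (hQ : ∀ q ∈ QQ, 1 ≤ q ∧ q ≤ X)
    (hp : ∀ q ∈ QQ, ∀ p : ℕ, p.Prime → p ∣ q → p ≤ w) :
    N2d X ρ QQ (fun q _ x => Mn (WI wP gP (-1) w X) q x) ≤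
      64 * (Real.log X) ^ (K2 + 2) * X / (Real.log X) ^ (2 * A) := by
  obtain ⟨L, hLd⟩ : ∃ L : ℝ, L = Real.log X := ⟨_, rfl⟩
  rw [← hLd] at hL hW hρ ⊢
  have hL0 : 0 < L := by linarith
  have hX0 : (0 : ℝ) < X := by exact_mod_cast hX
  have hWc : Continuous (WI wP gP (-1) w X) := by
    have h := ar_ee_cont
    unfold WI
    fun_prop
  have h1 := N2d_sup X ρ QQ (fun q hq => (hρ q hq).1)
    (fun q _ x => Mn (WI wP gP (-1) w X) q x) (fun q _ => Mn_cont _ hWc q)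
    (fun q => 1 / (Nat.totient q : ℝ) * (X / L ^ A)) (by
      intro q hq a _ x hx
      refine (ap_good X q w (hQ q hq).1 hw (hp q hq) x).trans ?_
      apply mul_le_mul_of_nonneg_left _ (by positivity)
      apply hW
      refine ⟨1, 0, one_pos, by simp, ?_⟩
      have h2 : |x| ≤ 4 * L ^ K2 / X := hx.trans
        (div_le_div_of_nonneg_right (hρ q hq).2 hX0.le)
      have h3 : (X : ℝ) * |x| ≤ 4 * L ^ K2 := by
        rw [le_div_iff₀ hX0] at h2
        linarith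
      have h4 : (1 : ℝ) ≤ L ^ K2 := one_le_pow₀ (by linarith)
      push_cast
      rw [div_one, sub_zero, one_mul, pow_add]
      have h5 : (5 : ℝ) ≤ L ^ 3 := by nlinarith [mul_pos hL0 hL0]
      nlinarith)
  refine h1.trans ?_
  have h2 : ∀ q ∈ QQ, (Nat.totient q : ℝ) * (2 * (ρ q / X) *
      (1 / (Nat.totient q : ℝ) * (X / L ^ A)) ^ 2) ≤
      32 * L ^ (K2 + 1) * X / L ^ (2 * A) * (1 / (q : ℝ)) := by
    intro q hq
    obtain ⟨q1, q2⟩ := hQ q hq
    have hφ : (0 : ℝ) < Nat.totient q := by exact_mod_cast Nat.totient_pos.2 q1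
    have h3 := ap_term X hX (4 * L ^ K2) (ρ q) (Nat.totient q)
      (1 / (Nat.totient q : ℝ) * (X / L ^ A)) _ (hρ q hq).1 (hρ q hq).2 hφ.le le_rfl
    refine h3.trans ?_
    have h4 := ap_tot X q q1 q2 (by rw [← hLd]; linarith)
    rw [← hLd] at h4
    calc (Nat.totient q : ℝ) * (2 * (4 * L ^ K2) / X) *
        (1 / (Nat.totient q : ℝ) * (X / L ^ A)) ^ 2 =
        8 * L ^ K2 * X / L ^ (2 * A) * (1 / (Nat.totient q : ℝ)) := by
          rw [two_mul A, pow_add]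
          field_simp
          ring
      _ ≤ 8 * L ^ K2 * X / L ^ (2 * A) * (4 * L * (1 / q)) :=
          mul_le_mul_of_nonneg_left h4 (by positivity)
      _ = 32 * L ^ (K2 + 1) * X / L ^ (2 * A) * (1 / (q : ℝ)) := by
          rw [pow_succ]
          ring
  refine (sum_le_sum h2).trans ?_
  rw [← mul_sum]
  have h5 := lamj_harm X QQ hQ
  rw [← hLd] at h5
  calc 32 * L ^ (K2 + 1) * X / L ^ (2 * A) * ∑ q ∈ QQ, 1 / (q : ℝ) ≤
      32 * L ^ (K2 + 1) * X / L ^ (2 * A) * (1 + L) :=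
        mul_le_mul_of_nonneg_left h5 (by positivity)
    _ ≤ 32 * L ^ (K2 + 1) * X / L ^ (2 * A) * (2 * L) := by
        apply mul_le_mul_of_nonneg_left _ (by positivity)
        linarith
    _ = 64 * L ^ (K2 + 2) * X / L ^ (2 * A) := by
        rw [show K2 + 2 = K2 + 1 + 1 by omega, pow_succ L (K2 + 1)]
        ring

/-- the primes, the denominators with a prime factor `> w` -/
theorem ap_part2 (X K2 : ℕ) (hX : 1 ≤ X) (hL : 4 ≤ Real.log X) (QQ : Finset ℕ) (ρ : ℕ → ℝ)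
    (hρ : ∀ q ∈ QQ, 0 ≤ ρ q ∧ ρ q ≤ 4 * (Real.log X) ^ K2) (N : ℝ)
    (hQ : ∀ q ∈ QQ, 1 ≤ q ∧ (q : ℝ) ≤ N ∧ q ≤ X) (hcN : (QQ.card : ℝ) * N ≤ (X : ℝ) ^ (2 / 3 : ℝ))
    (hX3 : 64 * (Real.log X) ^ (K2 + 2) ≤ (X : ℝ) ^ (1 / 3 : ℝ)) :
    N2d X ρ QQ (fun q _ x => Mn (PX X) q x) ≤
      64 * (Real.log X) ^ (K2 + 1) * X * (∑ q ∈ QQ, 1 / (q : ℝ)) + 1 := by
  obtain ⟨L, hLd⟩ : ∃ L : ℝ, L = Real.log X := ⟨_, rfl⟩
  rw [← hLd] at hL hρ hX3 ⊢
  have hL0 : 0 < L := by linarith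
  have hX0 : (0 : ℝ) < X := by exact_mod_cast hX
  have h1 := N2d_sup X ρ QQ (fun q hq => (hρ q hq).1)
    (fun q _ x => Mn (PX X) q x) (fun q _ => Mn_cont _ (ap_PX_cont X) q)
    (fun q => X / (Nat.totient q : ℝ) + 2 * L) (by
      intro q hq a _ x _
      refine (ap_prime X q (hQ q hq).1 x).trans ?_
      have : Real.log q ≤ L := by
        rw [hLd]
        exact Real.log_le_log (by exact_mod_cast (hQ q hq).1) (by exact_mod_cast (hQ q hq).2.2)
      linarith)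
  refine h1.trans ?_
  have h2 : ∀ q ∈ QQ, (Nat.totient q : ℝ) * (2 * (ρ q / X) *
      (X / (Nat.totient q : ℝ) + 2 * L) ^ 2) ≤
      64 * L ^ (K2 + 1) * X * (1 / (q : ℝ)) + 64 * L ^ (K2 + 2) * N / X := by
    intro q hq
    obtain ⟨q1, q2, q3⟩ := hQ q hq
    have hφ : (0 : ℝ) < Nat.totient q := by exact_mod_cast Nat.totient_pos.2 q1
    have hφN : (Nat.totient q : ℝ) ≤ N := by
      have : (Nat.totient q : ℝ) ≤ q := by exact_mod_cast Nat.totient_le q
      linarith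
    have h3 := ap_term X hX (4 * L ^ K2) (ρ q) (Nat.totient q)
      (X / (Nat.totient q : ℝ) + 2 * L) (2 * (X / (Nat.totient q : ℝ)) ^ 2 + 8 * L ^ 2)
      (hρ q hq).1 (hρ q hq).2 hφ.le (by
        nlinarith [sq_nonneg (X / (Nat.totient q : ℝ) - 2 * L)])
    refine h3.trans ?_
    have h4 := ap_tot X q q1 q3 (by rw [← hLd]; linarith)
    rw [← hLd] at h4
    calc (Nat.totient q : ℝ) * (2 * (4 * L ^ K2) / X) *
        (2 * (X / (Nat.totient q : ℝ)) ^ 2 + 8 * L ^ 2) =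
        16 * L ^ K2 * X * (1 / (Nat.totient q : ℝ)) +
          64 * L ^ (K2 + 2) * (Nat.totient q : ℝ) / X := by
          rw [pow_add L K2 2]
          field_simp
          ring
      _ ≤ 16 * L ^ K2 * X * (4 * L * (1 / q)) + 64 * L ^ (K2 + 2) * N / X := by
          apply add_le_add
          · exact mul_le_mul_of_nonneg_left h4 (by positivity)
          · apply div_le_div_of_nonneg_right _ hX0.le
            exact mul_le_mul_of_nonneg_left hφN (by positivity)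
      _ = 64 * L ^ (K2 + 1) * X * (1 / (q : ℝ)) + 64 * L ^ (K2 + 2) * N / X := by
          rw [pow_succ L K2]
          ring
  refine (sum_le_sum h2).trans ?_
  rw [sum_add_distrib, ← mul_sum, sum_const, nsmul_eq_mul]
  have h5 : (QQ.card : ℝ) * (64 * L ^ (K2 + 2) * N / X) ≤ 1 := by
    calc (QQ.card : ℝ) * (64 * L ^ (K2 + 2) * N / X) =
        64 * L ^ (K2 + 2) * ((QQ.card : ℝ) * N) / X := by ring
      _ ≤ (X : ℝ) ^ (1 / 3 : ℝ) * (X : ℝ) ^ (2 / 3 : ℝ) / X := by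
          apply div_le_div_of_nonneg_right _ hX0.le
          rcases QQ.eq_empty_or_nonempty with hE | ⟨q, hq⟩
          · rw [hE, card_empty, Nat.cast_zero, zero_mul, mul_zero]
            positivity
          · have : 0 ≤ N := (Nat.cast_nonneg q).trans (hQ q hq).2.1
            exact mul_le_mul hX3 hcN (by positivity) (by positivity)
      _ = 1 := by
          rw [← Real.rpow_add hX0]
          norm_num
          omega
  linarith

/-- the function `lam_q` of `mod_split` -/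
theorem ap_part3 (X K2 : ℕ) (hX : 1 ≤ X) (hL : 4 ≤ Real.log X) (QQ : Finset ℕ) (ρ : ℕ → ℝ)
    (hρ : ∀ q ∈ QQ, 0 ≤ ρ q ∧ ρ q ≤ 4 * (Real.log X) ^ K2) (hQ : ∀ q ∈ QQ, 1 ≤ q)
    (lam : ℕ → ℝ → ℂ) (hc : ∀ q, Continuous (lam q))
    (hl : ∀ q : ℕ, 1 ≤ q → ∀ x : ℝ, ‖lam q x‖ ≤ (Real.log X) ^ 5 * X / q) :
    N2d X ρ QQ (fun q _ x => lam q x) ≤
      8 * (Real.log X) ^ (K2 + 10) * X * ∑ q ∈ QQ, 1 / (q : ℝ) := by
  obtain ⟨L, hLd⟩ : ∃ L : ℝ, L = Real.log X := ⟨_, rfl⟩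
  rw [← hLd] at hL hρ hl ⊢
  have hL0 : 0 < L := by linarith
  have hX0 : (0 : ℝ) < X := by exact_mod_cast hX
  have h1 := N2d_sup X ρ QQ (fun q hq => (hρ q hq).1)
    (fun q _ x => lam q x) (fun q _ => hc q)
    (fun q => L ^ 5 * X / q) (fun q hq a _ x _ => hl q (hQ q hq) x)
  refine h1.trans ?_
  rw [mul_sum]
  refine sum_le_sum fun q hq => ?_
  have q1 := hQ q hq
  have hq0 : (0 : ℝ) < q := by exact_mod_cast q1
  have hφ : (0 : ℝ) < Nat.totient q := by exact_mod_cast Nat.totient_pos.2 q1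
  have hφq : (Nat.totient q : ℝ) ≤ q := by exact_mod_cast Nat.totient_le q
  have h3 := ap_term X hX (4 * L ^ K2) (ρ q) (Nat.totient q) (L ^ 5 * X / q) _
    (hρ q hq).1 (hρ q hq).2 hφ.le le_rfl
  refine h3.trans ?_
  calc (Nat.totient q : ℝ) * (2 * (4 * L ^ K2) / X) * (L ^ 5 * X / q) ^ 2 ≤
      (q : ℝ) * (2 * (4 * L ^ K2) / X) * (L ^ 5 * X / q) ^ 2 := by
        apply mul_le_mul_of_nonneg_right _ (by positivity)
        exact mul_le_mul_of_nonneg_right hφq (by positivity)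
    _ = 8 * L ^ (K2 + 10) * X * (1 / (q : ℝ)) := by
        rw [pow_add L K2 10]
        field_simp
        ring

private theorem ap_split (X : ℕ) (ρ : ℕ → ℝ) (QQ : Finset ℕ) (P : ℕ → Prop) [DecidablePred P]
    (f : ℕ → ℕ → ℝ → ℂ) : N2d X ρ QQ f =
      N2d X ρ (QQ.filter P) f + N2d X ρ (QQ.filter fun q => ¬ P q) f := by
  unfold N2d
  rw [sum_filter_add_sum_filter_not]

private theorem ap_sub {e th : ℝ} {K1 K2 X n : ℕ} {QQ : Finset ℕ} {N : ℝ} {ρ : ℕ → ℝ}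
    (hd : DiscH e th K1 K2 X n QQ N ρ) (Q' : Finset ℕ) (hs : Q' ⊆ QQ) :
    DiscH e th K1 K2 X n Q' N ρ := by
  obtain ⟨d1, d2, d3, d4, d5, d6, d7⟩ := hd
  refine ⟨d1, d2, fun q hq => d3 q (hs hq), fun q hq => d4 q (hs hq),
    fun q hq q' hq' => d5 q (hs hq) q' (hs hq'), le_trans ?_ d6, d7⟩
  exact_mod_cast card_le_card hs

/-- (MeanBD) -/
theorem meanBD : MeanBD := by
  classical
  intro e th he he1 h1 h2 B K1 K2
  obtain ⟨DM, hDM⟩ := majP (B + K2 + 4) (K2 + 3)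
  refine ⟨max DM (max (K1 + 1) (B + K2 + 15)), fun D' hD => ?_⟩
  have hD1 : DM ≤ D' := (le_max_left _ _).trans hD
  have hD2 : K1 + 1 ≤ D' := (le_max_left _ _).trans ((le_max_right _ _).trans hD)
  have hD3 : B + K2 + 15 ≤ D' := (le_max_right _ _).trans ((le_max_right _ _).trans hD)
  obtain ⟨X1, hX1⟩ := hDM D' hD1
  obtain ⟨X2, hX2⟩ := mod_split e th he he1 h1 h2 (B + 3) K1 K2 D' (by omega)
  obtain ⟨X3, hX3⟩ := am_sizes e th he he1 h1 h2 K1 K2
  obtain ⟨X4, hX4⟩ := MP_log_large 20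
  obtain ⟨X5, hX5⟩ := MP_log_pow 2 D' (ε := 1 / 10) (by norm_num)
  obtain ⟨X6, hX6⟩ := MP_log_pow 64 (K2 + 2) (ε := 1 / 3) (by norm_num)
  obtain ⟨X7, hX7⟩ := MP_log_pow 2 (B + 3) (ε := 1) (by norm_num)
  refine ⟨max (max X1 X2) (max (max X3 X4) (max (max X5 X6) (max X7 1))),
    fun X hX n QQ N ρ hd => ?_⟩
  have g1 := hX1 X (by omega)
  have g2 := hX2 X (by omega)
  have g3 := hX3 X (by omega)
  have g4 := hX4 X (by omega)
  have g5 := hX5 X (by omega)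
  have g6 := hX6 X (by omega)
  have g7 := hX7 X (by omega)
  have hX1' : 1 ≤ X := by omega
  have hXR : (1 : ℝ) ≤ X := by exact_mod_cast hX1'
  have hX0 : (0 : ℝ) < X := by linarith
  rw [Real.rpow_one] at g7
  rcases QQ.eq_empty_or_nonempty with hE | hne
  · unfold N2d
    rw [hE, sum_empty]
    have : 0 ≤ Real.log (X : ℝ) := by linarith
    positivity
  obtain ⟨s1, s2, s3, s4, s5, s6⟩ := g3 n QQ N ρ hd hne
  obtain ⟨lam, rest, hlc, hrc, hF, hlb, hr⟩ := g2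
  obtain ⟨L, hLd⟩ : ∃ L : ℝ, L = Real.log X := ⟨_, rfl⟩
  have hw1 : (wX D' X : ℝ) ≤ L ^ D' := by
    rw [hLd]
    exact Nat.floor_le (pow_nonneg (by linarith) _)
  have hw2 : L ^ D' < (wX D' X : ℝ) + 1 := by
    rw [hLd]
    exact Nat.lt_floor_add_one _
  have g4' : 20 ≤ L := by rw [hLd]; exact g4
  have hL0 : 0 < L := by linarith
  have hL1 : 1 ≤ L := by linarith
  have hLD : 2 ≤ L ^ D' := by
    calc (2 : ℝ) ≤ L ^ 1 := by rw [pow_one]; linarith
      _ ≤ L ^ D' := pow_le_pow_right₀ hL1 (by omega)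
  have hw3 : L ^ D' / 2 ≤ (wX D' X : ℝ) := by linarith
  have hw0 : (0 : ℝ) < wX D' X := by linarith
  have hw0' : 1 ≤ wX D' X := by exact_mod_cast hw0
  have hwz : wX D' X < zI X := by
    have h3 : ((wX D' X : ℕ) : ℝ) < (zI X : ℝ) := by
      have h4 : (X : ℝ) ^ (1 / 10 : ℝ) ≤ (zI X : ℝ) := by
        unfold zI
        exact Nat.le_ceil _
      rw [← hLd] at g5
      linarith
    exact_mod_cast h3
  obtain ⟨w, hw⟩ : ∃ w : ℕ, w = wX D' X := ⟨_, rfl⟩
  rw [← hw] at hw1 hw2 hw3 hw0 hw0' hwz hF g1 ⊢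
  -- the two parts
  obtain ⟨P, hP⟩ : ∃ P : ℕ → Prop, P = fun q => ∃ p : ℕ, p.Prime ∧ w < p ∧ p ∣ q := ⟨_, rfl⟩
  obtain ⟨Q1, hQ1⟩ : ∃ Q1 : Finset ℕ, Q1 = QQ.filter (fun q => ¬ P q) := ⟨_, rfl⟩
  obtain ⟨Q2, hQ2⟩ : ∃ Q2 : Finset ℕ, Q2 = QQ.filter P := ⟨_, rfl⟩
  have hs1 : Q1 ⊆ QQ := by rw [hQ1]; exact filter_subset _ _
  have hs2 : Q2 ⊆ QQ := by rw [hQ2]; exact filter_subset _ _
  have hX3' : (0 : ℝ) < (X : ℝ) := hX0
  rw [ap_split X ρ QQ P, ← hQ1, ← hQ2]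
  -- the first part
  have a1 := ap_part1 X w K2 (B + K2 + 4) hX1' hwz (by rw [← hLd]; linarith) g1 Q1 ρ
    (fun q hq => s5 q (hs1 hq)) (fun q hq => ⟨(s6 q (hs1 hq)).1, (s6 q (hs1 hq)).2.2⟩) (by
      intro q hq p hp hpq
      by_contra hcon
      rw [hQ1, mem_filter] at hq
      apply hq.2
      rw [hP]
      exact ⟨p, hp, by omega, hpq⟩)
  rw [← hLd] at a1
  have a1' : 64 * L ^ (K2 + 2) * X / L ^ (2 * (B + K2 + 4)) ≤ 64 * (X / L ^ (B + 3)) := by
    have h3 : L ^ (2 * (B + K2 + 4)) = L ^ (K2 + 2) * L ^ (B + 3) * L ^ (B + K2 + 3) := by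
      rw [← pow_add, ← pow_add]
      congr 1
      omega
    rw [h3]
    have h4 : 1 ≤ L ^ (B + K2 + 3) := one_le_pow₀ hL1
    rw [mul_div_assoc', div_le_div_iff₀ (by positivity) (by positivity)]
    have h5 : 0 ≤ 64 * L ^ (K2 + 2) * X * L ^ (B + 3) := by positivity
    nlinarith
  -- the second part
  have hd2 := ap_sub hd Q2 hs2
  have b0 := hr n Q2 N ρ hd2
  have hρ2 : ∀ q ∈ Q2, 0 ≤ ρ q := fun q hq => (s5 q (hs2 hq)).1
  have b1 : N2d X ρ Q2 (fun q _ x => Mn (WI wP gP (-1) w X) q x) ≤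
      2 * N2d X ρ Q2 (fun q _ x => Mn (PX X) q x) +
      2 * N2d X ρ Q2 (fun q _ x => Mn (FX w X) q x) := by
    have h3 := N2d_sub X ρ Q2 hρ2 (fun q _ x => Mn (PX X) q x) (fun q _ x => Mn (FX w X) q x)
      (fun q _ => Mn_cont _ (ap_PX_cont X) q) (fun q _ => Mn_cont _ (ap_FX_cont w X) q)
    have h4 : N2d X ρ Q2 (fun q _ x => Mn (WI wP gP (-1) w X) q x) =
        N2d X ρ Q2 (fun q _ x => Mn (PX X) q x - Mn (FX w X) q x) := by
      apply N2d_congr
      intro q _ a _ x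
      unfold Mn
      rw [← mul_sub, ← sum_sub_distrib]
      congr 1
      exact sum_congr rfl fun b _ => ap_WI_eq w X _
    rw [h4]
    exact h3
  have b2 : N2d X ρ Q2 (fun q _ x => Mn (FX w X) q x) ≤
      2 * N2d X ρ Q2 (fun q _ x => lam q x) + 2 * N2d X ρ Q2 rest := by
    have hm : ∀ q (_a : ℕ), Continuous (fun x => (1 / (Nat.totient q : ℂ)) *
        ∑ b ∈ rr q, rest q b x) := by
      intro q _
      have hrq := hrc q
      fun_prop
    have h3 := N2d_add X ρ Q2 hρ2 (fun q _ x => lam q x)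
      (fun q _ x => (1 / (Nat.totient q : ℂ)) * ∑ b ∈ rr q, rest q b x) (fun q _ => hlc q) hm
    have h4 : N2d X ρ Q2 (fun q _ x => Mn (FX w X) q x) =
        N2d X ρ Q2 (fun q _ x => lam q x + (1 / (Nat.totient q : ℂ)) *
          ∑ b ∈ rr q, rest q b x) := by
      apply N2d_congr
      intro q hq a _ x
      have hq1 := (s6 q (hs2 hq)).1
      have hφ : (Nat.totient q : ℂ) ≠ 0 := by
        have := Nat.totient_pos.2 hq1
        exact_mod_cast this.ne'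
      unfold Mn
      have e3 : ∑ b ∈ rr q, FX w X ((b : ℝ) / q + x) =
          ∑ b ∈ rr q, (lam q x + rest q b x) :=
        Finset.sum_congr rfl fun b _ => hF q hq1 b x
      rw [e3, Finset.sum_add_distrib, Finset.sum_const, nsmul_eq_mul, rr_card]
      field_simp
    have h5 := am_mean X ρ Q2 hρ2 rest hrc
    rw [h4]
    linarith
  have b3 := ap_part3 X K2 hX1' (by rw [← hLd]; linarith) Q2 ρ (fun q hq => s5 q (hs2 hq))
    (fun q hq => (s6 q (hs2 hq)).1) lam hlc hlb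
  have b4 := ap_part2 X K2 hX1' (by rw [← hLd]; linarith) Q2 ρ (fun q hq => s5 q (hs2 hq)) N
    (fun q hq => s6 q (hs2 hq)) (by
      have h3 : (Q2.card : ℝ) ≤ (X : ℝ) ^ (e / 2) := hd2.2.2.2.2.2.1
      calc (Q2.card : ℝ) * N ≤ (X : ℝ) ^ (e / 2) * (X : ℝ) ^ (2 / 3 - 900 * e) :=
            mul_le_mul h3 s2 (by linarith) (by positivity)
        _ ≤ (X : ℝ) ^ (2 / 3 : ℝ) := by
            rw [← Real.rpow_add hX0]
            exact Real.rpow_le_rpow_of_exponent_le hXR (by linarith)) g6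
  have hLK : L ^ K1 < (w : ℝ) + 1 := by
    have : L ^ K1 ≤ L ^ D' := pow_le_pow_right₀ hL1 (by omega)
    linarith
  have hnX : n ≤ X := hd.2.1
  have hn1 : 1 ≤ n := by
    have := hd.1
    omega
  have b5 := ap_harm X n w hn1 hnX hw0' Q2
    (fun q hq => ⟨(s6 q (hs2 hq)).1, (s6 q (hs2 hq)).2.2⟩) (by
      intro q hq
      have hq' := hq
      rw [hQ2, mem_filter, hP] at hq'
      obtain ⟨hqQ, p, hp, hwp, hpq⟩ := hq'
      refine ⟨p, hp, hwp, hpq, ?_⟩
      have hwp' : (w : ℝ) + 1 ≤ p := by exact_mod_cast hwp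
      refine ap_dvd q n p (s6 q hqQ).1 hp hpq (Q := L ^ K1) ?_ (by linarith)
      rw [hLd]
      exact (hd.2.2.1 q hqQ).2)
  rw [← hLd] at b0 b3 b4 b5 g7 ⊢
  obtain ⟨H, hH⟩ : ∃ H : ℝ, H = ∑ q ∈ Q2, 1 / (q : ℝ) := ⟨_, rfl⟩
  rw [← hH] at b3 b4 b5
  have hH0 : 0 ≤ H := by
    rw [hH]
    exact sum_nonneg fun q _ => by positivity
  have b6 : H ≤ 8 * L ^ 2 / L ^ D' := by
    refine b5.trans ?_
    rw [div_le_div_iff₀ hw0 (by positivity)]
    have h3 : 2 * L * (1 + L) ≤ 4 * L ^ 2 := by nlinarith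
    calc 2 * L * (1 + L) * L ^ D' ≤ 4 * L ^ 2 * L ^ D' :=
          mul_le_mul_of_nonneg_right h3 (by positivity)
      _ = 8 * L ^ 2 * (L ^ D' / 2) := by ring
      _ ≤ 8 * L ^ 2 * w := mul_le_mul_of_nonneg_left hw3 (by positivity)
  have b7 : L ^ (K2 + 10) * X * H ≤ 8 * (X / L ^ (B + 3)) := by
    have h3 : L ^ (K2 + 12) * L ^ (B + 3) ≤ L ^ D' := by
      rw [← pow_add]
      exact pow_le_pow_right₀ hL1 (by omega)
    calc L ^ (K2 + 10) * X * H ≤ L ^ (K2 + 10) * X * (8 * L ^ 2 / L ^ D') :=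
          mul_le_mul_of_nonneg_left b6 (by positivity)
      _ = 8 * (X * L ^ (K2 + 12) / L ^ D') := by
          rw [show K2 + 12 = (K2 + 10) + 2 by omega, pow_add L (K2 + 10) 2]
          ring
      _ ≤ 8 * (X / L ^ (B + 3)) := by
          apply mul_le_mul_of_nonneg_left _ (by norm_num)
          rw [div_le_div_iff₀ (by positivity) (by positivity)]
          calc X * L ^ (K2 + 12) * L ^ (B + 3) = X * (L ^ (K2 + 12) * L ^ (B + 3)) := by ring
            _ ≤ X * L ^ D' := mul_le_mul_of_nonneg_left h3 hX0.le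
  have b8 : L ^ (K2 + 1) * X * H ≤ L ^ (K2 + 10) * X * H := by
    apply mul_le_mul_of_nonneg_right _ hH0
    apply mul_le_mul_of_nonneg_right _ hX0.le
    exact pow_le_pow_right₀ hL1 (by omega)
  have b9 : 2 ≤ X / L ^ (B + 3) := by
    rw [le_div_iff₀ (by positivity)]
    exact g7
  have c1 : 2000 * (X / L ^ (B + 3)) ≤ X / L ^ B := by
    rw [pow_add, ← div_div, mul_div_assoc', div_le_iff₀ (by positivity)]
    have h3 : (2000 : ℝ) ≤ L ^ 3 := by
      calc (2000 : ℝ) ≤ 20 ^ 3 := by norm_num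
        _ ≤ L ^ 3 := pow_le_pow_left₀ (by norm_num) g4' 3
    calc 2000 * (X / L ^ B) = X / L ^ B * 2000 := by ring
      _ ≤ X / L ^ B * L ^ 3 := mul_le_mul_of_nonneg_left h3 (by positivity)
  obtain ⟨U, hU⟩ : ∃ U : ℝ, U = X / L ^ (B + 3) := ⟨_, rfl⟩
  obtain ⟨Z, hZ⟩ : ∃ Z : ℝ, Z = L ^ (K2 + 10) * X * H := ⟨_, rfl⟩
  obtain ⟨Z1, hZ1⟩ : ∃ Z1 : ℝ, Z1 = L ^ (K2 + 1) * X * H := ⟨_, rfl⟩
  have b3' : 8 * L ^ (K2 + 10) * X * H = 8 * Z := by rw [hZ]; ring
  have b4' : 64 * L ^ (K2 + 1) * X * H = 64 * Z1 := by rw [hZ1]; ring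
  rw [b3'] at b3
  rw [b4'] at b4
  rw [← hZ, ← hU] at b7
  rw [← hZ, ← hZ1] at b8
  rw [← hU] at a1' b0 b9 c1
  linarith

end Pool.MP_dd84fd_nt.BX
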