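import Pool.Agent.Lib.MP_dd84fd_nt.BX.Ar6
import Pool.Agent.Lib.MP_dd84fd_nt.BX.ArP

/-!
# BX-Ar7: reduction of the discs to the characters of large conductor and large norm

`arcBD_of_light : LightBD → ArcBD`.  `V = VQ (YQ)`, `P_± = Mn W_±`, `E_- = W_- - V`, `E_+ = W_+ - V - P_+`
have small norm; `W_- W_+ = V² + V P_+ + V E_+ + E_- W_+`, and `V P_+` integrates to the part of the
conductors `≤ L^K1`.
-/

set_option autoImplicit false

namespace Pool.MP_dd84fd_nt.BX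

open Finset Pool.MP_67663b_nt.Odd Pool.MP_dd84fd_nt.En Pool.MP_dd84fd_nt.E2 Pool.MP_dd84fd_nt.LS
open Pool.MP_dd84fd_nt.GX Pool.MP_dd84fd_nt.HX Pool.MP_dd84fd_nt.IX
open Pool.MP_dd84fd_nt.PL (rr Fam tp hq)
open Pool.MP_dd84fd_nt.JX (wP gP w1P)
open Pool.MP_dd84fd_nt.LXP (tq)
open Pool.MP_dd84fd_nt.IXP (WI_l2)

theorem WI_cont (s : ℝ) (w X : ℕ) : Continuous (WI wP gP s w X) := by
  unfold WI
  have h := ar_ee_cont
  fun_prop

theorem WI_plus (w X : ℕ) (θ : ℝ) : WI wP gP 1 w X θ = PX X θ + FX w X θ := by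
  unfold WI PX FX
  rw [← sum_add_distrib]
  refine sum_congr rfl fun n _ => ?_
  push_cast
  ring

theorem Mn_minus (w X q : ℕ) (x : ℝ) :
    Mn (WI wP gP (-1) w X) q x = Mn (PX X) q x - Mn (FX w X) q x := by
  unfold Mn
  rw [← mul_sub, ← sum_sub_distrib]
  congr 1
  exact sum_congr rfl fun b _ => ap_WI_eq w X _

theorem Mn_plus (w X q : ℕ) (x : ℝ) :
    Mn (WI wP gP 1 w X) q x = Mn (PX X) q x + Mn (FX w X) q x := by
  unfold Mn
  rw [← mul_add, ← sum_add_distrib]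
  congr 1
  exact sum_congr rfl fun b _ => WI_plus w X _

open Classical in
theorem mem_YQ (X : ℕ) (T Z : ℝ) (A' q : ℕ) [NeZero q] (χ : DirichletCharacter ℂ q) :
    χ ∈ YQ X T Z A' q ↔ Z < (χ.conductor : ℝ) ∧ 1 / (Real.log X) ^ A' < sN X T ⟨q, χ⟩ := by
  unfold YQ
  rw [dif_neg (NeZero.ne q), mem_filter]
  exact ⟨fun h => h.2, fun h => ⟨mem_univ _, h⟩⟩

/-- the set of all nonprincipal characters -/
theorem mem_UU (q : ℕ) [NeZero q] (χ : DirichletCharacter ℂ q) :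
    χ ∈ SmS q (q : ℝ) ↔ χ ≠ 1 := by
  rw [mem_SmS]
  refine ⟨fun h => h.1, fun h => ⟨h, ?_⟩⟩
  have h1 := Nat.le_of_dvd (Nat.pos_of_ne_zero (NeZero.ne q))
    (DirichletCharacter.conductor_dvd_level χ)
  exact_mod_cast h1

theorem ne_one_of_cond (q : ℕ) [NeZero q] (χ : DirichletCharacter ℂ q) (Z : ℝ) (hZ : 1 ≤ Z)
    (h : Z < (χ.conductor : ℝ)) : χ ≠ 1 := by
  rintro rfl
  rw [DirichletCharacter.conductor_one] at h
  push_cast at h
  linarith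

open Classical in
/-- the light characters of conductor `> Z` -/
noncomputable def SLt (X : ℕ) (T Z : ℝ) (A' q : ℕ) : Finset (DirichletCharacter ℂ q) :=
  (SmS q (q : ℝ)).filter (fun χ => Z < (χ.conductor : ℝ) ∧ sN X T ⟨q, χ⟩ ≤ 1 / (Real.log X) ^ A')

open Classical in
/-- `V` and its complement -/
theorem VQ_three (X : ℕ) (T Z : ℝ) (hZ : 1 ≤ Z) (A' q : ℕ) [NeZero q] (a : ℕ) (x : ℝ) :
    VQ X q (SmS q (q : ℝ)) a x = VQ X q (YQ X T Z A' q) a x +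
      (VQ X q (SmS q Z) a x + VQ X q (SLt X T Z A' q) a x) := by
  have h1 := VQ_disj X q (SmS q Z) (SLt X T Z A' q) (by
    rw [Finset.disjoint_left]
    intro χ h1 h2
    rw [mem_SmS] at h1
    unfold SLt at h2
    rw [mem_filter] at h2
    linarith [h1.2, h2.2.1]) (SmS q Z ∪ SLt X T Z A' q) (fun χ => mem_union) a x
  have h2 := VQ_disj X q (YQ X T Z A' q) (SmS q Z ∪ SLt X T Z A' q) (by
    rw [Finset.disjoint_left]
    intro χ h1 h2
    rw [mem_YQ] at h1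
    rw [mem_union, mem_SmS] at h2
    rcases h2 with h2 | h2
    · linarith [h1.1, h2.2]
    · unfold SLt at h2
      rw [mem_filter] at h2
      linarith [h1.2, h2.2.2]) (SmS q (q : ℝ)) (fun χ => by
    rw [mem_UU, mem_YQ, mem_union, mem_SmS]
    unfold SLt
    rw [mem_filter, mem_UU]
    constructor
    · intro h
      by_cases hc : (χ.conductor : ℝ) ≤ Z
      · right
        left
        exact ⟨h, hc⟩
      · push Not at hc
        by_cases hs : sN X T ⟨q, χ⟩ ≤ 1 / (Real.log X) ^ A'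
        · right
          right
          exact ⟨h, hc, hs⟩
        · push Not at hs
          left
          exact ⟨hc, hs⟩
    · rintro (h | h | h)
      · exact ne_one_of_cond q χ Z hZ h.1
      · exact h.1
      · exact h.1) a x
  rw [h2, h1]

/-- `h_q ≤ L^K1` -/
theorem hq_le (q n : ℕ) (hq1 : 1 ≤ q) (Q : ℝ) (h : (q : ℝ) ≤ Q * (Nat.gcd q n : ℝ)) :
    (hq q n : ℝ) ≤ Q := by
  have hg : 0 < Nat.gcd q n := Nat.gcd_pos_of_pos_left n hq1
  have hgR : (0 : ℝ) < (Nat.gcd q n : ℝ) := by exact_mod_cast hg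
  have h1 : hq q n * Nat.gcd q n = q := Nat.div_mul_cancel (Nat.gcd_dvd_left q n)
  have h2 : (hq q n : ℝ) * (Nat.gcd q n : ℝ) = q := by exact_mod_cast h1
  rw [← h2] at h
  exact le_of_mul_le_mul_right h hgR

open Classical in
/-- the part of the conductors `≤ Q` in the product with a function which does not depend on `a` -/
theorem Bd_V_P (X : ℕ) (r : ℝ) (n q : ℕ) [NeZero q] (S : Finset (DirichletCharacter ℂ q)) (Q : ℝ)
    (hQ : (hq q n : ℝ) ≤ Q) (P : ℝ → ℂ) (hP : Continuous P) :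
    Bd X r n q (fun a x => VQ X q S a x) (fun _ x => P x) =
      Bd X r n q (fun a x => VQ X q (S.filter (fun χ => (χ.conductor : ℝ) ≤ Q)) a x)
        (fun _ x => P x) := by
  have h0 := Bd_VQ_zero X r n q (S.filter (fun χ => ¬ (χ.conductor : ℝ) ≤ Q)) (by
    intro χ hχ hf
    rw [mem_filter] at hχ
    apply hχ.2
    have hdv : hq q n ∣ q := Nat.div_dvd_of_dvd (Nat.gcd_dvd_left q n)
    have hpos : 0 < hq q n := Nat.pos_of_dvd_of_pos hdv (Nat.pos_of_ne_zero (NeZero.ne q))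
    have h1 : χ.conductor ∣ hq q n :=
      DirichletCharacter.conductor_dvd_of_mem_conductorSet χ
        ((DirichletCharacter.mem_conductorSet_iff χ).2 hf)
    have h2 : (χ.conductor : ℝ) ≤ (hq q n : ℝ) := by exact_mod_cast Nat.le_of_dvd hpos h1
    exact h2.trans hQ) P hP
  have h1 : ∀ a x, VQ X q S a x = VQ X q (S.filter (fun χ => (χ.conductor : ℝ) ≤ Q)) a x +
      VQ X q (S.filter (fun χ => ¬ (χ.conductor : ℝ) ≤ Q)) a x := fun a x =>
    VQ_disj X q _ _ (Finset.disjoint_filter_filter_not S S _) S (fun χ => by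
      rw [mem_filter, mem_filter]
      constructor
      · intro h
        by_cases hc : (χ.conductor : ℝ) ≤ Q
        · left
          exact ⟨h, hc⟩
        · right
          exact ⟨h, hc⟩
      · rintro (h | h)
        · exact h.1
        · exact h.1) a x
  have h2 : (fun a x => VQ X q S a x) =
      fun a x => VQ X q (S.filter (fun χ => (χ.conductor : ℝ) ≤ Q)) a x +
        VQ X q (S.filter (fun χ => ¬ (χ.conductor : ℝ) ≤ Q)) a x := by
    funext a x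
    exact h1 a x
  rw [h2, Bd_add_left X r n q _ _ _ (fun a => VQ_cont X q _ a) (fun a => VQ_cont X q _ a)
    (fun _ => hP), h0, add_zero]

/-- the remainder of the primes which divide `q` -/
theorem N2d_RM (B K2 : ℕ) : ∃ X0 : ℕ, ∀ X : ℕ, X0 ≤ X → ∀ (QQ : Finset ℕ) (ρ : ℕ → ℝ) (N : ℝ),
    1 ≤ N → N ≤ X → Fam QQ N → (∀ q ∈ QQ, 0 ≤ ρ q ∧ ρ q ≤ 4 * (Real.log X) ^ K2) →
    (∀ q ∈ QQ, 1 ≤ q ∧ q ≤ X) → N2d X ρ QQ (fun q a x => RM X q a x) ≤ X / (Real.log X) ^ B := by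
  obtain ⟨X1, hX1⟩ := MP_log_pow 256 (B + K2 + 2) (ε := 1) one_pos
  obtain ⟨X2, hX2⟩ := MP_log_large 1
  refine ⟨max (max X1 X2) 1, fun X hX QQ ρ N hN1 hNX hF hρ hQ => ?_⟩
  simp only [max_le_iff] at hX
  obtain ⟨⟨hXa, hXb⟩, hXc⟩ := hX
  have h1 := hX1 X hXa
  have hL := hX2 X hXb
  rw [Real.rpow_one] at h1
  have hXR : (1 : ℝ) ≤ X := by exact_mod_cast hXc
  have hX0 : (0 : ℝ) < X := by linarith
  have h2 := N2d_sup X ρ QQ (fun q hq => (hρ q hq).1) (fun q a x => RM X q a x)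
    (fun q a => RM_cont X q a) (fun _ => 4 * Real.log X)
    (fun q hq a _ x _ => RM_le X q a (hQ q hq).1 (hQ q hq).2 x)
  refine h2.trans ?_
  obtain ⟨L, hLdef⟩ : ∃ L : ℝ, L = Real.log X := ⟨_, rfl⟩
  rw [← hLdef] at hL h1 hρ ⊢
  have hL0 : 0 < L := by linarith
  have h3 : ∀ q ∈ QQ, (Nat.totient q : ℝ) * (2 * (ρ q / X) * (4 * L) ^ 2) ≤
      (Nat.totient q : ℝ) * (2 * ((4 * L ^ K2) / X) * (4 * L) ^ 2) := by
    intro q hq
    have hrX : ρ q / (X : ℝ) ≤ (4 * L ^ K2) / X := div_le_div_of_nonneg_right (hρ q hq).2 hX0.le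
    gcongr
  refine (Finset.sum_le_sum h3).trans ?_
  rw [← Finset.sum_mul]
  have h4 := Pool.MP_dd84fd_nt.PL.count QQ N hF hN1
  have h5 : 0 ≤ 2 * ((4 * L ^ K2) / (X : ℝ)) * (4 * L) ^ 2 := by positivity
  refine (mul_le_mul_of_nonneg_right (h4.trans (show N + 1 ≤ 2 * X by linarith)) h5).trans ?_
  rw [le_div_iff₀ (by positivity)]
  calc 2 * X * (2 * ((4 * L ^ K2) / X) * (4 * L) ^ 2) * L ^ B = 256 * L ^ (B + K2 + 2) := by
        field_simp
        ring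
    _ ≤ X := h1

set_option maxHeartbeats 8000000 in
theorem arcBD_of_light (hLt : LightBD) : ArcBD := by
  classical
  intro e th he he1 h1 h2 A K1 K2 K'
  obtain ⟨B, hB⟩ : ∃ B : ℕ, B = 2 * A + 6 := ⟨_, rfl⟩
  obtain ⟨A', X1, hX1⟩ := hLt e th he he1 h1 h2 B K2
  obtain ⟨D1, hD1⟩ := meanBD e th he he1 h1 h2 B K1 K2
  obtain ⟨D2, hD2⟩ := modBD e th he he1 h1 h2 B K1 K2
  refine ⟨A', max (max D1 D2) 1, fun D' hD' => ?_⟩
  simp only [max_le_iff] at hD'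
  obtain ⟨⟨hDa, hDb⟩, hDc⟩ := hD'
  obtain ⟨X2, hX2⟩ := hD1 D' hDa
  obtain ⟨X3, hX3⟩ := hD2 D' hDb
  obtain ⟨X4, hX4⟩ := am_sizes e th he he1 h1 h2 K1 K2
  obtain ⟨X5, hX5⟩ := small_N2d B (max K1 K') K2
  obtain ⟨X6, hX6⟩ := WI_l2 2 1 wP gP w1P D' hDc
  obtain ⟨X7, hX7⟩ := N2d_RM B K2
  obtain ⟨X8, hX8⟩ := MP_log_large 100
  refine ⟨max (max (max X1 X2) (max X3 X4)) (max (max X5 X6) (max (max X7 X8) 1)),
    fun X hX n hn1 hn2 QQ N ρ hq1 hρ hlcm hcard hN => ?_⟩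
  simp only [max_le_iff] at hX
  obtain ⟨⟨⟨hXa, hXb⟩, hXc, hXd⟩, ⟨hXe, hXf⟩, ⟨hXg, hXh⟩, hXi⟩ := hX
  have hXR : (1 : ℝ) ≤ X := by exact_mod_cast hXi
  have hX0 : (0 : ℝ) < X := by linarith
  have hL := hX8 X hXh
  rcases QQ.eq_empty_or_nonempty with hQe | hne
  · subst hQe
    simp only [Finset.sum_empty, norm_zero, zero_add]
    have : 0 < Real.log X := by linarith
    positivity
  have hdisc : DiscH e th K1 K2 X n QQ N ρ := ⟨hn1, hn2, hq1, hρ, hlcm, hcard, hN⟩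
  obtain ⟨hN1, hN2, hTN, hF, hρ', hQ⟩ := hX4 X hXd n QQ N ρ hdisc hne
  have hρ0 : ∀ q ∈ QQ, 0 ≤ ρ q := fun q hq => (hρ q hq).1
  have hQ1 : ∀ q ∈ QQ, 1 ≤ q := fun q hq => (hQ q hq).1
  have hQX : ∀ q ∈ QQ, 1 ≤ q ∧ q ≤ X := fun q hq => ⟨(hQ q hq).1, (hQ q hq).2.2⟩
  obtain ⟨w, hw⟩ : ∃ w, w = wX D' X := ⟨_, rfl⟩
  have g1 := hX1 X hXa QQ N hQ1 hlcm hcard hN
  have g2 := hX2 X hXb n QQ N ρ hdisc
  have g3 := hX3 X hXc n QQ N ρ hdisc
  have g5 := hX5 X hXe QQ ρ hρ hQX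
  have g6 := hX6 X hXf
  rw [← hw] at g2 g3 g6 ⊢
  obtain ⟨L, hLd⟩ : ∃ L : ℝ, L = Real.log X := ⟨_, rfl⟩
  have hL1 : 1 ≤ L := by linarith
  have hL0 : 0 < L := by linarith
  have hNX : N ≤ X := by
    have h3 : 1 ≤ 2 * (4 * Real.log X ^ K2) := by
      have : 1 ≤ Real.log X ^ K2 := one_le_pow₀ (by linarith)
      linarith
    nlinarith
  have g7 := hX7 X hXg QQ ρ N hN1 hNX hF hρ hQX
  obtain ⟨T, hT⟩ : ∃ T : ℝ, T = 4 * (Real.log X) ^ K2 := ⟨_, rfl⟩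
  obtain ⟨Z, hZ⟩ : ∃ Z : ℝ, Z = (Real.log X) ^ K' := ⟨_, rfl⟩
  have hZ1 : 1 ≤ Z := by
    rw [hZ]
    exact one_le_pow₀ (by linarith)
  have hT0 : 0 ≤ T := by
    rw [hT]
    positivity
  rw [← hT] at g1 hTN hρ hρ'
  rw [← hT, ← hZ]
  obtain ⟨R, hR⟩ : ∃ R : ℝ, R = X / (Real.log X) ^ B := ⟨_, rfl⟩
  rw [← hR] at g1 g2 g3 g5 g7
  have hR0 : 0 ≤ R := by
    rw [hR]
    positivity
  -- the functions
  obtain ⟨Wm, hWm⟩ : ∃ Wm : ℕ → ℕ → ℝ → ℂ,
      Wm = fun (q a : ℕ) (x : ℝ) => WI wP gP (-1) w X ((a : ℝ) / q + x) := ⟨_, rfl⟩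
  obtain ⟨Wp, hWp⟩ : ∃ Wp : ℕ → ℕ → ℝ → ℂ,
      Wp = fun (q a : ℕ) (x : ℝ) => WI wP gP 1 w X ((a : ℝ) / q + x) := ⟨_, rfl⟩
  obtain ⟨V, hV⟩ : ∃ V : ℕ → ℕ → ℝ → ℂ, V = fun q a x => VQ X q (YQ X T Z A' q) a x := ⟨_, rfl⟩
  obtain ⟨Pp, hPp⟩ : ∃ Pp : ℕ → ℕ → ℝ → ℂ,
      Pp = fun q _ x => Mn (WI wP gP 1 w X) q x := ⟨_, rfl⟩
  obtain ⟨Pm, hPm⟩ : ∃ Pm : ℕ → ℕ → ℝ → ℂ,
      Pm = fun q _ x => Mn (WI wP gP (-1) w X) q x := ⟨_, rfl⟩
  obtain ⟨Va, hVa⟩ : ∃ Va : ℕ → ℕ → ℝ → ℂ, Va = fun q a x => VQ X q (SmS q Z) a x := ⟨_, rfl⟩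
  obtain ⟨Vb, hVb⟩ : ∃ Vb : ℕ → ℕ → ℝ → ℂ,
      Vb = fun q a x => VQ X q (SLt X T Z A' q) a x := ⟨_, rfl⟩
  obtain ⟨Rm', hRm⟩ : ∃ Rm' : ℕ → ℕ → ℝ → ℂ, Rm' = fun q a x => RM X q a x := ⟨_, rfl⟩
  obtain ⟨Fd, hFd⟩ : ∃ Fd : ℕ → ℕ → ℝ → ℂ,
      Fd = fun (q a : ℕ) (x : ℝ) => FX w X ((a : ℝ) / q + x) - Mn (FX w X) q x := ⟨_, rfl⟩
  -- continuity
  have cWm : ∀ q a, Continuous (Wm q a) := fun q a => by
    have := WI_cont (-1) w X
    rw [hWm]
    fun_prop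
  have cWp : ∀ q a, Continuous (Wp q a) := fun q a => by
    have := WI_cont 1 w X
    rw [hWp]
    fun_prop
  have cV : ∀ q a, Continuous (V q a) := fun q a => by
    rw [hV]
    exact VQ_cont X q _ a
  have cPp : ∀ q a, Continuous (Pp q a) := fun q a => by
    rw [hPp]
    exact Mn_cont _ (WI_cont 1 w X) q
  have cPm : ∀ q a, Continuous (Pm q a) := fun q a => by
    rw [hPm]
    exact Mn_cont _ (WI_cont (-1) w X) q
  have cVa : ∀ q a, Continuous (Va q a) := fun q a => by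
    rw [hVa]
    exact VQ_cont X q _ a
  have cVb : ∀ q a, Continuous (Vb q a) := fun q a => by
    rw [hVb]
    exact VQ_cont X q _ a
  have cRm : ∀ q a, Continuous (Rm' q a) := fun q a => by
    rw [hRm]
    exact RM_cont X q a
  have cFd : ∀ q a, Continuous (Fd q a) := fun q a => by
    have i1 := FX_cont w X
    have i2 := Mn_cont _ i1 q
    rw [hFd]
    fun_prop
  -- norms of the small parts
  have nPm : N2d X ρ QQ Pm ≤ R := by
    rw [hPm]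
    exact g2
  have nFd : N2d X ρ QQ Fd ≤ R := by
    rw [hFd]
    exact g3
  have nRm : N2d X ρ QQ Rm' ≤ R := by
    rw [hRm]
    exact g7
  have hKK : Z ≤ (Real.log X) ^ (max K1 K') := by
    rw [hZ]
    exact pow_le_pow_right₀ (by linarith) (le_max_right _ _)
  have hKK1 : (Real.log X) ^ K1 ≤ (Real.log X) ^ (max K1 K') :=
    pow_le_pow_right₀ (by linarith) (le_max_left _ _)
  have nVa : N2d X ρ QQ Va ≤ R := by
    rw [hVa, N2d_VQ X ρ QQ hQ1 (fun q => SmS q Z)]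
    refine (Finset.sum_le_sum fun q hq => ?_).trans g5
    haveI : NeZero q := ⟨by have := hQ1 q hq; omega⟩
    refine mC_mono X (ρ q) (ρ q) (hρ0 q hq) le_rfl q _ _ fun χ hχ => ?_
    rw [mem_SmS] at hχ ⊢
    exact ⟨hχ.1, hχ.2.trans hKK⟩
  have nVb : N2d X ρ QQ Vb ≤ R := by
    rw [hVb, N2d_VQ X ρ QQ hQ1 (fun q => SLt X T Z A' q)]
    refine (Finset.sum_le_sum fun q hq => ?_).trans g1
    haveI : NeZero q := ⟨by have := hQ1 q hq; omega⟩
    refine mC_LtQ X (ρ q) T (hρ0 q hq) (hρ q hq).2 A' q _ fun χ hχ => ?_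
    unfold SLt at hχ
    rw [mem_filter, mem_UU] at hχ
    exact ⟨hχ.1, hχ.2.2⟩
  -- the identities
  have idm : ∀ q ∈ QQ, ∀ a ∈ rr q, ∀ x, Wm q a x - V q a x =
      (Pm q a x + Va q a x) + ((Vb q a x + Rm' q a x) - Fd q a x) := by
    intro q hq a ha x
    haveI : NeZero q := ⟨by have := hQ1 q hq; omega⟩
    have e1 := PX_sub_mean X q a ha x (SmS q (q : ℝ)) (fun χ => mem_UU q χ)
    rw [VQ_three X T Z hZ1 A' q a x] at e1
    have e2 := ap_WI_eq w X ((a : ℝ) / q + x)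
    have e3 := Mn_minus w X q x
    rw [hWm, hV, hPm, hVa, hVb, hRm, hFd]
    show WI wP gP (-1) w X ((a : ℝ) / q + x) - VQ X q (YQ X T Z A' q) a x =
      (Mn (WI wP gP (-1) w X) q x + VQ X q (SmS q Z) a x) +
        ((VQ X q (SLt X T Z A' q) a x + RM X q a x) -
          (FX w X ((a : ℝ) / q + x) - Mn (FX w X) q x))
    rw [e2, e3]
    linear_combination e1
  have idp : ∀ q ∈ QQ, ∀ a ∈ rr q, ∀ x, Wp q a x - V q a x - Pp q a x =
      Va q a x + ((Vb q a x + Rm' q a x) + Fd q a x) := by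
    intro q hq a ha x
    haveI : NeZero q := ⟨by have := hQ1 q hq; omega⟩
    have e1 := PX_sub_mean X q a ha x (SmS q (q : ℝ)) (fun χ => mem_UU q χ)
    rw [VQ_three X T Z hZ1 A' q a x] at e1
    have e2 := WI_plus w X ((a : ℝ) / q + x)
    have e3 := Mn_plus w X q x
    rw [hWp, hV, hPp, hVa, hVb, hRm, hFd]
    show WI wP gP 1 w X ((a : ℝ) / q + x) - VQ X q (YQ X T Z A' q) a x -
      Mn (WI wP gP 1 w X) q x = VQ X q (SmS q Z) a x +
        ((VQ X q (SLt X T Z A' q) a x + RM X q a x) +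
          (FX w X ((a : ℝ) / q + x) - Mn (FX w X) q x))
    rw [e2, e3]
    linear_combination e1
  -- norms of E_-, E_+
  obtain ⟨Em, hEm⟩ : ∃ Em : ℕ → ℕ → ℝ → ℂ, Em = fun q a x => Wm q a x - V q a x := ⟨_, rfl⟩
  obtain ⟨Ep, hEp⟩ : ∃ Ep : ℕ → ℕ → ℝ → ℂ,
      Ep = fun q a x => Wp q a x - V q a x - Pp q a x := ⟨_, rfl⟩
  have cEm : ∀ q a, Continuous (Em q a) := fun q a => by
    have i1 := cWm q a
    have i2 := cV q a
    rw [hEm]
    fun_prop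
  have cEp : ∀ q a, Continuous (Ep q a) := fun q a => by
    have i1 := cWp q a
    have i2 := cV q a
    have i3 := cPp q a
    rw [hEp]
    fun_prop
  have nbr : N2d X ρ QQ (fun q a x => Vb q a x + Rm' q a x) ≤ 4 * R := by
    have i1 := N2d_add X ρ QQ hρ0 Vb Rm' cVb cRm
    linarith
  have cbr : ∀ q a, Continuous (fun x => Vb q a x + Rm' q a x) := fun q a =>
    (cVb q a).add (cRm q a)
  have nEm : N2d X ρ QQ Em ≤ 32 * R := by
    have i0 : N2d X ρ QQ Em = N2d X ρ QQ (fun q a x => (Pm q a x + Va q a x) +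
        ((Vb q a x + Rm' q a x) - Fd q a x)) := by
      rw [hEm]
      exact N2d_congr X ρ QQ _ _ idm
    have i1 := N2d_add X ρ QQ hρ0 Pm Va cPm cVa
    have i2 := N2d_sub X ρ QQ hρ0 (fun q a x => Vb q a x + Rm' q a x) Fd cbr cFd
    have i3 := N2d_add X ρ QQ hρ0 (fun q a x => Pm q a x + Va q a x)
      (fun q a x => (Vb q a x + Rm' q a x) - Fd q a x) (fun q a => (cPm q a).add (cVa q a))
      (fun q a => (cbr q a).sub (cFd q a))
    rw [i0]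
    linarith
  have nEp : N2d X ρ QQ Ep ≤ 32 * R := by
    have i0 : N2d X ρ QQ Ep = N2d X ρ QQ (fun q a x => Va q a x +
        ((Vb q a x + Rm' q a x) + Fd q a x)) := by
      rw [hEp]
      exact N2d_congr X ρ QQ _ _ idp
    have i2 := N2d_add X ρ QQ hρ0 (fun q a x => Vb q a x + Rm' q a x) Fd cbr cFd
    have i3 := N2d_add X ρ QQ hρ0 Va
      (fun q a x => (Vb q a x + Rm' q a x) + Fd q a x) cVa
      (fun q a => (cbr q a).add (cFd q a))
    rw [i0]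
    linarith
  -- norms of W_±, V, P_+
  have hW : ∀ s : ℝ, |s| ≤ 1 → N2d X ρ QQ (fun q a x => WI wP gP s w X ((a : ℝ) / q + x)) ≤
      2 * (X * L ^ 3) := by
    intro s hs
    obtain ⟨c, hc1, hc2⟩ := g6 s hs
    have i1 := N2d_tp X ρ T N QQ hρ hT0 hF hN1 X c
    have i2 : N2d X ρ QQ (fun q a x => WI wP gP s w X ((a : ℝ) / q + x)) =
        N2d X ρ QQ (fun q a x => tp X c ((a : ℝ) / q + x)) :=
      N2d_congr X ρ QQ _ _ fun q _ a _ x => hc2 _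
    rw [i2]
    refine i1.trans ?_
    have i3 : 2 * T * N / X + 1 ≤ 2 := by
      have : 2 * T * N / X ≤ 1 := by
        rw [div_le_one hX0]
        exact hTN
      linarith
    rw [← hLd] at hc1
    have i4 : 0 ≤ ∑ k ∈ Icc 1 X, ‖c k‖ ^ 2 := Finset.sum_nonneg fun k _ => by positivity
    calc (2 * T * N / X + 1) * ∑ k ∈ Icc 1 X, ‖c k‖ ^ 2 ≤ 2 * ∑ k ∈ Icc 1 X, ‖c k‖ ^ 2 :=
          mul_le_mul_of_nonneg_right i3 i4
      _ ≤ 2 * (X * L ^ 3) := by linarith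
  have nWm : N2d X ρ QQ Wm ≤ 2 * (X * L ^ 3) := by
    rw [hWm]
    exact hW (-1) (by norm_num)
  have nWp : N2d X ρ QQ Wp ≤ 2 * (X * L ^ 3) := by
    rw [hWp]
    exact hW 1 (by norm_num)
  have nPp : N2d X ρ QQ Pp ≤ 2 * (X * L ^ 3) := by
    rw [hPp]
    refine (N2d_Mn X ρ QQ hρ0 (WI wP gP 1 w X) (WI_cont 1 w X)).trans ?_
    exact hW 1 (by norm_num)
  have hRX : R ≤ X := by
    rw [hR]
    refine div_le_self hX0.le (one_le_pow₀ (by linarith))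
  have hXL3 : (X : ℝ) ≤ X * L ^ 3 := by
    have : 1 ≤ L ^ 3 := one_le_pow₀ hL1
    nlinarith
  have nV : N2d X ρ QQ V ≤ 100 * (X * L ^ 3) := by
    have i1 : N2d X ρ QQ V = N2d X ρ QQ (fun q a x => Wm q a x - Em q a x) := by
      refine N2d_congr X ρ QQ _ _ fun q _ a _ x => ?_
      rw [hEm]
      ring
    have i2 := N2d_sub X ρ QQ hρ0 Wm Em cWm cEm
    rw [i1]
    linarith
  -- the part of the small conductors in `V P_+`
  obtain ⟨V1, hV1⟩ : ∃ V1 : ℕ → ℕ → ℝ → ℂ, V1 = fun q a x =>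
      VQ X q ((YQ X T Z A' q).filter (fun χ => (χ.conductor : ℝ) ≤ (Real.log X) ^ K1)) a x :=
    ⟨_, rfl⟩
  have cV1 : ∀ q a, Continuous (V1 q a) := fun q a => by
    rw [hV1]
    exact VQ_cont X q _ a
  have nV1 : N2d X ρ QQ V1 ≤ R := by
    rw [hV1, N2d_VQ X ρ QQ hQ1 (fun q =>
      (YQ X T Z A' q).filter (fun χ => (χ.conductor : ℝ) ≤ (Real.log X) ^ K1))]
    refine (Finset.sum_le_sum fun q hq => ?_).trans g5
    haveI : NeZero q := ⟨by have := hQ1 q hq; omega⟩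
    refine mC_mono X (ρ q) (ρ q) (hρ0 q hq) le_rfl q _ _ fun χ hχ => ?_
    rw [mem_filter, mem_YQ] at hχ
    rw [mem_SmS]
    exact ⟨ne_one_of_cond q χ Z hZ1 hχ.1.1, hχ.2.trans hKK1⟩
  -- the bilinear form
  have hBd : ∀ q ∈ QQ, dsc (FFI wP gP w X n) X q (ρ q) =
      Bd X (ρ q) n q (V q) (V q) + Bd X (ρ q) n q (V1 q) (Pp q) +
        Bd X (ρ q) n q (Ep q) (V q) + Bd X (ρ q) n q (Em q) (Wp q) := by
    intro q hq
    haveI : NeZero q := ⟨by have := hQ1 q hq; omega⟩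
    have e0 : dsc (FFI wP gP w X n) X q (ρ q) = Bd X (ρ q) n q (Wm q) (Wp q) := by
      rw [hWm, hWp]
      rfl
    have e1 : Bd X (ρ q) n q (Wm q) (Wp q) = Bd X (ρ q) n q (V q) (Wp q) +
        Bd X (ρ q) n q (Em q) (Wp q) := by
      rw [← Bd_add_left X (ρ q) n q (V q) (Em q) (Wp q) (cV q) (cEm q) (cWp q)]
      congr 1
      funext a x
      rw [hEm]
      ring
    have e2 : Bd X (ρ q) n q (V q) (Wp q) = Bd X (ρ q) n q (V q) (V q) +
        (Bd X (ρ q) n q (Pp q) (V q) + Bd X (ρ q) n q (Ep q) (V q)) := by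
      rw [← Bd_add_left X (ρ q) n q (Pp q) (Ep q) (V q) (cPp q) (cEp q) (cV q)]
      rw [
        ← Bd_add_left X (ρ q) n q (V q) (fun a x => Pp q a x + Ep q a x) (V q) (cV q)
          (fun a => (cPp q a).add (cEp q a)) (cV q),
        Bd_comm X (ρ q) n q (V q) (Wp q)]
      congr 1
      funext a x
      rw [hEp]
      ring
    have e3 : Bd X (ρ q) n q (Pp q) (V q) = Bd X (ρ q) n q (V1 q) (Pp q) := by
      rw [Bd_comm, hV, hV1, hPp]
      exact Bd_V_P X (ρ q) n q (YQ X T Z A' q) ((Real.log X) ^ K1)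
        (hq_le q n (hQ1 q hq) _ (hq1 q hq).2) (Mn (WI wP gP 1 w X) q)
        (Mn_cont _ (WI_cont 1 w X) q)
    rw [e0, e1, e2, e3]
    ring
  have hVV : ∀ q ∈ QQ, ‖∑ a ∈ rr q, ∫ x in (-(ρ q / X))..(ρ q / X),
      VQ X q (YQ X T Z A' q) a x ^ 2 * ee (-((n : ℝ) * ((a : ℝ) / q + x)))‖ =
      ‖Bd X (ρ q) n q (V q) (V q)‖ := by
    intro q _
    congr 1
    unfold Bd
    refine Finset.sum_congr rfl fun a _ => ?_
    apply intervalIntegral.integral_congr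
    intro x _
    rw [hV]
    show VQ X q (YQ X T Z A' q) a x ^ 2 * _ =
      VQ X q (YQ X T Z A' q) a x * VQ X q (YQ X T Z A' q) a x * _
    rw [sq]
  rw [Finset.sum_congr rfl hVV]
  have t1 := Bd_cauchy X ρ QQ hρ0 n V1 Pp cV1 cPp
  have t2 := Bd_cauchy X ρ QQ hρ0 n Ep V cEp cV
  have t3 := Bd_cauchy X ρ QQ hρ0 n Em Wp cEm cWp
  have hsum : ‖∑ q ∈ QQ, dsc (FFI wP gP w X n) X q (ρ q)‖ ≤
      ∑ q ∈ QQ, ‖Bd X (ρ q) n q (V q) (V q)‖ + (∑ q ∈ QQ, ‖Bd X (ρ q) n q (V1 q) (Pp q)‖ +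
        ∑ q ∈ QQ, ‖Bd X (ρ q) n q (Ep q) (V q)‖ + ∑ q ∈ QQ, ‖Bd X (ρ q) n q (Em q) (Wp q)‖) := by
    refine (norm_sum_le _ _).trans ?_
    rw [← Finset.sum_add_distrib, ← Finset.sum_add_distrib, ← Finset.sum_add_distrib]
    refine Finset.sum_le_sum fun q hq => ?_
    rw [hBd q hq]
    have i1 := norm_add_le (Bd X (ρ q) n q (V q) (V q) + Bd X (ρ q) n q (V1 q) (Pp q) +
      Bd X (ρ q) n q (Ep q) (V q)) (Bd X (ρ q) n q (Em q) (Wp q))
    have i2 := norm_add_le (Bd X (ρ q) n q (V q) (V q) + Bd X (ρ q) n q (V1 q) (Pp q))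
      (Bd X (ρ q) n q (Ep q) (V q))
    have i3 := norm_add_le (Bd X (ρ q) n q (V q) (V q)) (Bd X (ρ q) n q (V1 q) (Pp q))
    linarith
  refine hsum.trans ?_
  have hS : Real.sqrt (R * (X * L ^ 3)) ≤ X / L ^ (A + 1) * (1 / L) ^ (1 / 2 : ℝ) := by
    have i1 : R * (X * L ^ 3) = (X / L ^ (A + 1)) ^ 2 * (1 / L) := by
      rw [hR, hB, ← hLd]
      have : L ^ (2 * A + 6) = (L ^ (A + 1)) ^ 2 * L * L ^ 3 := by ring
      rw [this]
      field_simp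
    rw [i1, Real.sqrt_mul (by positivity), Real.sqrt_sq (by positivity), Real.sqrt_eq_rpow]
  have hS2 : Real.sqrt (R * (X * L ^ 3)) ≤ X / L ^ (A + 1) := by
    refine hS.trans ?_
    have i1 : (1 / L) ^ (1 / 2 : ℝ) ≤ 1 := by
      apply Real.rpow_le_one (by positivity)
      · rw [div_le_one hL0]
        exact hL1
      · norm_num
    have i2 : 0 ≤ X / L ^ (A + 1) := by positivity
    nlinarith
  have hmul : ∀ c d u v : ℝ, 0 ≤ c → 0 ≤ d → u ≤ c * R → v ≤ d * (X * L ^ 3) →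
      Real.sqrt u * Real.sqrt v ≤ Real.sqrt (c * d) * (X / L ^ (A + 1)) := by
    intro c d u v hc hd hu hv
    have i1 : Real.sqrt u * Real.sqrt v ≤ Real.sqrt (c * R) * Real.sqrt (d * (X * L ^ 3)) :=
      mul_le_mul (Real.sqrt_le_sqrt hu) (Real.sqrt_le_sqrt hv) (Real.sqrt_nonneg _)
        (Real.sqrt_nonneg _)
    refine i1.trans ?_
    rw [← Real.sqrt_mul (mul_nonneg hc hR0), show c * R * (d * (X * L ^ 3)) =
      (c * d) * (R * (X * L ^ 3)) by ring, Real.sqrt_mul (mul_nonneg hc hd)]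
    exact mul_le_mul_of_nonneg_left hS2 (Real.sqrt_nonneg _)
  have u1 := hmul 1 2 (N2d X ρ QQ V1) (N2d X ρ QQ Pp) zero_le_one zero_le_two (by linarith) nPp
  have u2 := hmul 32 100 (N2d X ρ QQ Ep) (N2d X ρ QQ V) (by norm_num) (by norm_num) nEp nV
  have u3 := hmul 32 2 (N2d X ρ QQ Em) (N2d X ρ QQ Wp) (by norm_num) (by norm_num) nEm nWp
  have s1 : Real.sqrt (1 * 2) ≤ 2 := by
    rw [show (2 : ℝ) = Real.sqrt (2 ^ 2) by rw [Real.sqrt_sq (by norm_num)]]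
    apply Real.sqrt_le_sqrt
    norm_num
  have s2 : Real.sqrt (32 * 100) ≤ 60 := by
    rw [show (60 : ℝ) = Real.sqrt (60 ^ 2) by rw [Real.sqrt_sq (by norm_num)]]
    apply Real.sqrt_le_sqrt
    norm_num
  have s3 : Real.sqrt (32 * 2) ≤ 8 := by
    rw [show (8 : ℝ) = Real.sqrt (8 ^ 2) by rw [Real.sqrt_sq (by norm_num)]]
    apply Real.sqrt_le_sqrt
    norm_num
  have hXA : 0 ≤ X / L ^ (A + 1) := by positivity
  have hfin : 100 * (X / L ^ (A + 1)) ≤ X / (Real.log X) ^ A := by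
    rw [← hLd, pow_succ, le_div_iff₀ (by positivity)]
    have i1 : 100 * (X / (L ^ A * L)) * L ^ A = X * (100 / L) := by
      field_simp
    rw [i1]
    have i2 : 100 / L ≤ 1 := by
      rw [div_le_one hL0, hLd]
      exact hL
    nlinarith
  have v1 := mul_le_mul_of_nonneg_right s1 hXA
  have v2 := mul_le_mul_of_nonneg_right s2 hXA
  have v3 := mul_le_mul_of_nonneg_right s3 hXA
  linarith

end Pool.MP_dd84fd_nt.BX
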