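import Pool.Agent.Lib.MP_dd84fd_nt.BX.AsDefs

/-!
# BX-ArDefs: section A (arcs and characters), definitions (helper96)

`N2d`: square of the `L²` norm on the discs `|x| ≤ ρ_q/X` around the reduced fractions with denominator
`q ∈ QQ`.  `Bd`: the bilinear form on the discs of one denominator.  `PX`, `FX`: the exponential sums
of the primes and of the model, `WI wP gP s w X = PX X + s FX w X`.  `Mn F q x`: mean of `F(b/q + x)`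
over the reduced residues `b`.  `DiscH`: the common hypotheses of `ArcBD`.

Plan of `ArcBD` (`W_s = PX + s FX`, `P_s = Mn W_s`, all parts with `N2d ≤ X/L^B` are dropped by Cauchy):
* `MeanBD` : `N2d (P_-) ≤ X/L^B`;
* `ModBD` : `N2d (FX - Mn FX) ≤ X/L^B`;
* `PX - Mn PX = (1/φ(q)) ∑_{χ ≠ 1} τ(χ̄) χ(a) SX + O(20)` (Ar2); the characters of conductor `≤ L^K`
  are small (Siegel-Walfisz, Ar5), the light ones by `LightBD`; `VQ` is orthogonal to `P_+ e(-na/q)`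
  up to characters of conductor `≤ L^K1` (Ar4).
-/

set_option autoImplicit false

namespace Pool.MP_dd84fd_nt.BX

open Finset Pool.MP_67663b_nt.Odd Pool.MP_dd84fd_nt.En Pool.MP_dd84fd_nt.E2 Pool.MP_dd84fd_nt.LS
open Pool.MP_dd84fd_nt.GX Pool.MP_dd84fd_nt.HX Pool.MP_dd84fd_nt.IX
open Pool.MP_dd84fd_nt.PL (rr)
open Pool.MP_dd84fd_nt.JX (wP gP)
open Pool.MP_dd84fd_nt.LXP (tq)

/-- square of the `L²` norm on the discs of radius `ρ_q / X` -/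
noncomputable def N2d (X : ℕ) (ρ : ℕ → ℝ) (QQ : Finset ℕ) (f : ℕ → ℕ → ℝ → ℂ) : ℝ :=
  ∑ q ∈ QQ, ∑ a ∈ rr q, ∫ x in (-(ρ q / X))..(ρ q / X), ‖f q a x‖ ^ 2

/-- the bilinear form on the discs of radius `r / X` with denominator `q` -/
noncomputable def Bd (X : ℕ) (r : ℝ) (n q : ℕ) (f g : ℕ → ℝ → ℂ) : ℂ :=
  ∑ a ∈ rr q, ∫ x in (-(r / X))..(r / X), f a x * g a x * ee (-((n : ℝ) * ((a : ℝ) / q + x)))

/-- exponential sum over the primes -/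
noncomputable def PX (X : ℕ) (θ : ℝ) : ℂ := ∑ n ∈ Icc 1 X, ((wP X n : ℝ) : ℂ) * ee ((n : ℝ) * θ)

/-- exponential sum of the model -/
noncomputable def FX (w X : ℕ) (θ : ℝ) : ℂ :=
  ∑ n ∈ Icc 1 X, ((fI gP X w n : ℝ) : ℂ) * ee ((n : ℝ) * θ)

/-- the mean over the reduced fractions with denominator `q` -/
noncomputable def Mn (F : ℝ → ℂ) (q : ℕ) (x : ℝ) : ℂ :=
  (1 / (Nat.totient q : ℂ)) * ∑ b ∈ rr q, F ((b : ℝ) / q + x)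

/-- the hypotheses of `ArcBD` on `n`, `QQ`, `N`, `ρ` -/
def DiscH (e th : ℝ) (K1 K2 X n : ℕ) (QQ : Finset ℕ) (N : ℝ) (ρ : ℕ → ℝ) : Prop :=
  X < 2 * n ∧ n ≤ X ∧
    (∀ q ∈ QQ, 1 ≤ q ∧ (q : ℝ) ≤ (Real.log X) ^ K1 * (Nat.gcd q n : ℝ)) ∧
    (∀ q ∈ QQ, 0 ≤ ρ q ∧ ρ q ≤ 4 * (Real.log X) ^ K2) ∧
    (∀ q ∈ QQ, ∀ q' ∈ QQ, (Nat.lcm q q' : ℝ) ≤ N) ∧ (QQ.card : ℝ) ≤ (X : ℝ) ^ (e / 2) ∧
    N ≤ (X : ℝ) ^ (1 - th + 3 / 2 * e)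

/-- the mean of `W_-` is small -/
def MeanBD : Prop := ∀ (e th : ℝ), 0 < e → 20000 * e ≤ 1 → 1 / 3 + 1000 * e ≤ th → th ≤ 1 / 2 →
  ∀ B K1 K2 : ℕ, ∃ D0 : ℕ, ∀ D' : ℕ, D0 ≤ D' → ∃ X0 : ℕ, ∀ X : ℕ, X0 ≤ X →
    ∀ (n : ℕ) (QQ : Finset ℕ) (N : ℝ) (ρ : ℕ → ℝ), DiscH e th K1 K2 X n QQ N ρ →
      N2d X ρ QQ (fun q _ x => Mn (WI wP gP (-1) (wX D' X) X) q x) ≤ X / (Real.log X) ^ B

/-- the model is constant on the reduced fractions with one denominator -/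
def ModBD : Prop := ∀ (e th : ℝ), 0 < e → 20000 * e ≤ 1 → 1 / 3 + 1000 * e ≤ th → th ≤ 1 / 2 →
  ∀ B K1 K2 : ℕ, ∃ D0 : ℕ, ∀ D' : ℕ, D0 ≤ D' → ∃ X0 : ℕ, ∀ X : ℕ, X0 ≤ X →
    ∀ (n : ℕ) (QQ : Finset ℕ) (N : ℝ) (ρ : ℕ → ℝ), DiscH e th K1 K2 X n QQ N ρ →
      N2d X ρ QQ (fun q a x => FX (wX D' X) X ((a : ℝ) / q + x) - Mn (FX (wX D' X) X) q x) ≤
        X / (Real.log X) ^ B

open Classical in
/-- the mass of the light characters modulo `q` -/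
noncomputable def LtQ (X : ℕ) (T : ℝ) (A' q : ℕ) : ℝ :=
  if h : q = 0 then 0 else
    haveI : NeZero q := ⟨h⟩
    ∑ χ ∈ (univ : Finset (DirichletCharacter ℂ q)).filter
      (fun χ => χ ≠ 1 ∧ sN X T ⟨q, χ⟩ ≤ 1 / (Real.log X) ^ A'),
      ‖tq q χ⁻¹‖ ^ 2 / (Nat.totient q : ℝ) * ∫ x in (-(T / X))..(T / X), ‖SX X ⟨q, χ⟩ x‖ ^ 2

/-- (LIGHT): the light characters (helper33) -/
def LightBD : Prop := ∀ (e th : ℝ), 0 < e → 20000 * e ≤ 1 → 1 / 3 + 1000 * e ≤ th → th ≤ 1 / 2 →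
  ∀ B K2 : ℕ, ∃ A' X0 : ℕ, ∀ X : ℕ, X0 ≤ X → ∀ (QQ : Finset ℕ) (N : ℝ), (∀ q ∈ QQ, 1 ≤ q) →
    (∀ q ∈ QQ, ∀ q' ∈ QQ, (Nat.lcm q q' : ℝ) ≤ N) → (QQ.card : ℝ) ≤ (X : ℝ) ^ (e / 2) →
    N ≤ (X : ℝ) ^ (1 - th + 3 / 2 * e) →
    ∑ q ∈ QQ, LtQ X (4 * (Real.log X) ^ K2) A' q ≤ X / (Real.log X) ^ B

end Pool.MP_dd84fd_nt.BX
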