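import Pool.Agent.Lib.MP_dd84fd_nt.BX.Ar1
import Pool.Agent.Lib.MP_dd84fd_nt.JX.JF1
import Pool.Agent.Lib.MP_dd84fd_nt.IX.PlMod
import Pool.Agent.Lib.MP_dd84fd_nt.HX.PlTI
import Pool.Agent.Lib.MP_dd84fd_nt.HX.PlIw
import Pool.Agent.Lib.MP_dd84fd_nt.PL.Overlap
import Pool.Agent.Lib.MP_dd84fd_nt.PL.BMass

/-!
# BX-ArM: the model on the discs

`FX(a/q + x) = lam_q(x) + rest(q,a,x)`, `lam_q`: the divisors `d ≤ V0` with `q ∣ d`, `rest`: the other
`d` (`ti_rest`, pointwise `≤ C L^4 (V0 + q)`) and the error of `model_i` (`overlap`).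
-/

set_option autoImplicit false

namespace Pool.MP_dd84fd_nt.BX

open Finset Pool.MP_67663b_nt.Odd Pool.MP_dd84fd_nt.En Pool.MP_dd84fd_nt.E2 Pool.MP_dd84fd_nt.LS
open Pool.MP_dd84fd_nt.GX Pool.MP_dd84fd_nt.HX Pool.MP_dd84fd_nt.IX Pool.MP_dd84fd_nt.HXP
open Pool.MP_dd84fd_nt.PL (rr tp V0 Fam overlap tp_l2)
open Pool.MP_dd84fd_nt.IXP (model_i)
open Pool.MP_dd84fd_nt.JX (wP gP w1P)

/-- the discs: sizes -/
theorem am_sizes (e th : ℝ) (he : 0 < e) (he1 : 20000 * e ≤ 1) (h1 : 1 / 3 + 1000 * e ≤ th)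
    (h2 : th ≤ 1 / 2) (K1 K2 : ℕ) : ∃ X0 : ℕ, ∀ X : ℕ, X0 ≤ X →
    ∀ (n : ℕ) (QQ : Finset ℕ) (N : ℝ) (ρ : ℕ → ℝ), DiscH e th K1 K2 X n QQ N ρ → QQ.Nonempty →
      1 ≤ N ∧ N ≤ (X : ℝ) ^ (2 / 3 - 900 * e) ∧ 2 * (4 * (Real.log X) ^ K2) * N ≤ X ∧
      Fam QQ N ∧ (∀ q ∈ QQ, 0 ≤ ρ q ∧ ρ q ≤ 4 * (Real.log X) ^ K2) ∧
      (∀ q ∈ QQ, 1 ≤ q ∧ (q : ℝ) ≤ N ∧ q ≤ X) := by
  obtain ⟨X1, hX1⟩ := MP_log_pow 8 K2 (ε := 1 / 3) (by norm_num)
  refine ⟨max X1 1, fun X hX n QQ N ρ hd hne => ?_⟩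
  have g1 := hX1 X ((le_max_left _ _).trans hX)
  have g2 : 1 ≤ X := (le_max_right _ _).trans hX
  have hXR : (1 : ℝ) ≤ X := by exact_mod_cast g2
  have hX0 : (0 : ℝ) < X := by linarith
  obtain ⟨-, -, d1, d2, d3, d4, d5⟩ := hd
  have hq : ∀ q ∈ QQ, 1 ≤ q ∧ (q : ℝ) ≤ N := by
    intro q hq
    have h3 := d3 q hq q hq
    rw [Nat.lcm_self] at h3
    exact ⟨(d1 q hq).1, h3⟩
  obtain ⟨q0, hq0⟩ := hne
  have hN1 : 1 ≤ N := by
    have h3 : (1 : ℝ) ≤ q0 := by exact_mod_cast (hq q0 hq0).1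
    exact h3.trans (hq q0 hq0).2
  have hN2 : N ≤ (X : ℝ) ^ (2 / 3 - 900 * e) :=
    d5.trans (Real.rpow_le_rpow_of_exponent_le hXR (by linarith))
  have hN3 : N ≤ (X : ℝ) ^ (2 / 3 : ℝ) :=
    hN2.trans (Real.rpow_le_rpow_of_exponent_le hXR (by linarith))
  have hXX : (X : ℝ) ^ (1 / 3 : ℝ) * (X : ℝ) ^ (2 / 3 : ℝ) = X := by
    rw [← Real.rpow_add hX0]
    norm_num
  refine ⟨hN1, hN2, ?_, ⟨fun q h => (hq q h).1, d3⟩, d2, fun q h => ⟨(hq q h).1, (hq q h).2, ?_⟩⟩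
  · calc 2 * (4 * (Real.log X) ^ K2) * N = (8 * (Real.log X) ^ K2) * N := by ring
      _ ≤ (X : ℝ) ^ (1 / 3 : ℝ) * (X : ℝ) ^ (2 / 3 : ℝ) :=
          mul_le_mul g1 hN3 (by linarith) (by positivity)
      _ = X := hXX
  · have h3 : (X : ℝ) ^ (2 / 3 : ℝ) ≤ X := by
      calc (X : ℝ) ^ (2 / 3 : ℝ) ≤ (X : ℝ) ^ (1 : ℝ) :=
            Real.rpow_le_rpow_of_exponent_le hXR (by norm_num)
        _ = X := Real.rpow_one _
    have h4 : (q : ℝ) ≤ X := (hq q h).2.trans (hN3.trans h3)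
    exact_mod_cast h4

private theorem am_V0 (X : ℕ) (hX : 1 ≤ X) : (V0 X : ℝ) ≤ (X : ℝ) ^ (1 / 4 : ℝ) := by
  have h1 : V0 X ^ 4 ≤ X := by
    unfold V0
    have h2 : Nat.sqrt (Nat.sqrt X) ^ 2 ≤ Nat.sqrt X := Nat.sqrt_le' _
    have h3 : Nat.sqrt X ^ 2 ≤ X := Nat.sqrt_le' _
    calc Nat.sqrt (Nat.sqrt X) ^ 4 = (Nat.sqrt (Nat.sqrt X) ^ 2) ^ 2 := by ring
      _ ≤ (Nat.sqrt X) ^ 2 := Nat.pow_le_pow_left h2 2
      _ ≤ X := h3
  have h2 : ((V0 X : ℝ)) ^ 4 ≤ X := by exact_mod_cast h1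
  have h3 : (V0 X : ℝ) = (((V0 X : ℝ)) ^ 4) ^ (1 / 4 : ℝ) := by
    rw [← Real.rpow_natCast, ← Real.rpow_mul (Nat.cast_nonneg _)]
    norm_num
  rw [h3]
  exact Real.rpow_le_rpow (by positivity) h2 (by norm_num)

private theorem am_mult (V q : ℕ) (hq : 1 ≤ q) (F : ℕ → ℂ) :
    ∑ d ∈ (Icc 1 V).filter (fun d => q ∣ d), F d = ∑ l ∈ Icc 1 (V / q), F (l * q) := by
  symm
  refine sum_bij (fun l _ => l * q) ?_ ?_ ?_ ?_
  · intro l hl
    rw [mem_Icc] at hl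
    rw [mem_filter, mem_Icc]
    refine ⟨⟨Nat.mul_pos hl.1 hq, ?_⟩, Dvd.intro_left l rfl⟩
    exact (Nat.le_div_iff_mul_le hq).1 hl.2
  · intro l _ l' _ h
    exact Nat.eq_of_mul_eq_mul_right hq h
  · intro d hd
    rw [mem_filter, mem_Icc] at hd
    obtain ⟨⟨h1, h2⟩, ⟨l, rfl⟩⟩ := hd
    refine ⟨l, ?_, mul_comm _ _⟩
    rw [mem_Icc]
    refine ⟨Nat.pos_of_ne_zero fun h0 => by simp [h0] at h1, ?_⟩
    rw [Nat.le_div_iff_mul_le hq, mul_comm]
    exact h2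
  · intro l _
    rfl

/-- the model on the discs -/
theorem mod_split (e th : ℝ) (he : 0 < e) (he1 : 20000 * e ≤ 1) (h1 : 1 / 3 + 1000 * e ≤ th)
    (h2 : th ≤ 1 / 2) (B K1 K2 D' : ℕ) (hD : 1 ≤ D') : ∃ X0 : ℕ, ∀ X : ℕ, X0 ≤ X →
    ∃ (lam : ℕ → ℝ → ℂ) (rest : ℕ → ℕ → ℝ → ℂ), (∀ q, Continuous (lam q)) ∧
      (∀ q a, Continuous (rest q a)) ∧
      (∀ q : ℕ, 1 ≤ q → ∀ (a : ℕ) (x : ℝ),
        FX (wX D' X) X ((a : ℝ) / q + x) = lam q x + rest q a x) ∧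
      (∀ q : ℕ, 1 ≤ q → ∀ x : ℝ, ‖lam q x‖ ≤ (Real.log X) ^ 5 * X / q) ∧
      ∀ (n : ℕ) (QQ : Finset ℕ) (N : ℝ) (ρ : ℕ → ℝ), DiscH e th K1 K2 X n QQ N ρ →
        N2d X ρ QQ rest ≤ X / (Real.log X) ^ B := by
  classical
  obtain ⟨η, hη, Xm, hXm⟩ := model_i 2 1 wP gP w1P D' hD
  obtain ⟨C, hC, hti⟩ := ti_rest
  obtain ⟨Xs, hXs⟩ := am_sizes e th he he1 h1 h2 K1 K2
  obtain ⟨X1, hX1⟩ := MP_log_pow (64 * (4 * C) ^ 2) (8 + K2 + B) (ε := 1 / 6) (by norm_num)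
  obtain ⟨X2, hX2⟩ := MP_log_pow 8 B (ε := η) hη
  obtain ⟨X3, hX3⟩ := MP_log_pow 16 K2 (ε := 1 / 12) (by norm_num)
  obtain ⟨X4, hX4⟩ := MP_log_large 3
  obtain ⟨X5, hX5⟩ := MP_log_pow (64 * (4 * C) ^ 2) (8 + K2 + B) (ε := 2600 * e) (by positivity)
  refine ⟨max (max Xm Xs) (max (max X1 X2) (max (max X3 X4) (max X5 1))), fun X hX => ?_⟩
  have gm := hXm X (by omega)
  have gs := hXs X (by omega)
  have g2 := hX2 X (by omega)
  have g3 := hX3 X (by omega)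
  have g4 := hX4 X (by omega)
  have g5 := hX5 X (by omega)
  have hX1' : 1 ≤ X := by omega
  obtain ⟨Γ, em, hΓ, hem, hFX⟩ := gm
  have hXR : (1 : ℝ) ≤ X := by exact_mod_cast hX1'
  have hX0 : (0 : ℝ) < X := by linarith
  obtain ⟨L, hL⟩ : ∃ L : ℝ, L = Real.log X := ⟨_, rfl⟩
  rw [← hL] at hΓ g2 g3 g4 g5 gs ⊢
  have hL0 : 0 < L := by linarith
  have hL1 : 1 ≤ L := by linarith
  have hV := am_V0 X hX1'
  have hVX : V0 X ≤ X := (Nat.sqrt_le_self _).trans (Nat.sqrt_le_self _)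
  have hΓ' : ∀ d, BVw X (L ^ 3) (Γ d) := fun d => hΓ d
  -- the functions
  obtain ⟨lam, hlam⟩ : ∃ lam : ℕ → ℝ → ℂ, lam = fun q x =>
    ∑ l ∈ Icc 1 (V0 X / q), iw X (l * q) (Γ (l * q)) (1 * x) := ⟨_, rfl⟩
  obtain ⟨r1, hr1⟩ : ∃ r1 : ℕ → ℕ → ℝ → ℂ, r1 = fun (q a : ℕ) (x : ℝ) =>
    ∑ d ∈ (Icc 1 (V0 X)).filter (fun d => ¬ q ∣ d), iw X d (Γ d) ((a : ℝ) / q + x) := ⟨_, rfl⟩
  obtain ⟨r2, hr2⟩ : ∃ r2 : ℕ → ℕ → ℝ → ℂ, r2 = fun (q a : ℕ) (x : ℝ) => tp X em ((a : ℝ) / q + x) :=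
    ⟨_, rfl⟩
  have hr1c : ∀ q a, Continuous (r1 q a) := by
    intro q a
    rw [hr1]
    exact continuous_finsetSum _ fun l _ => (iw_cont X l (Γ l)).comp (by fun_prop)
  have hr2c : ∀ q a, Continuous (r2 q a) := by
    intro q a
    rw [hr2]
    exact (ar_tp_cont X em).comp (by fun_prop)
  refine ⟨lam, fun q a x => r1 q a x + r2 q a x, ?_, ?_, ?_, ?_, ?_⟩
  · intro q
    rw [hlam]
    exact continuous_finsetSum _ fun l _ => (iw_cont X _ _).comp (by fun_prop)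
  · intro q a
    exact (hr1c q a).add (hr2c q a)
  · intro q hq a x
    have e1 : FX (wX D' X) X ((a : ℝ) / q + x) =
        tp X (fun n => (fI gP X (wX D' X) n : ℂ)) ((a : ℝ) / q + x) := rfl
    rw [e1, hFX, hlam, hr1, hr2]
    have e2 : ∑ d ∈ Icc 1 (V0 X), iw X d (Γ d) ((a : ℝ) / q + x) =
        ∑ l ∈ Icc 1 (V0 X / q), iw X (l * q) (Γ (l * q)) (1 * x) +
        ∑ d ∈ (Icc 1 (V0 X)).filter (fun d => ¬ q ∣ d), iw X d (Γ d) ((a : ℝ) / q + x) := by
      rw [← sum_filter_add_sum_filter_not (Icc 1 (V0 X)) (fun d => q ∣ d)]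
      congr 1
      rw [am_mult (V0 X) q hq (fun d => iw X d (Γ d) ((a : ℝ) / q + x))]
      refine sum_congr rfl fun l _ => ?_
      have := iw_shift X l q a hq (Γ (l * q)) x 1
      rw [one_mul] at this ⊢
      exact this
    rw [e2]
    simp only
    ring
  · intro q hq x
    rw [hlam]
    have e2 := lam_iw X q (V0 X) (Icc 1 (V0 X / q)) (fun l => Γ (l * q)) (L ^ 3) x 1 hX1' hq hVX
      (fun l hl => by
        rw [mem_Icc] at hl
        exact ⟨hl.1, hl.2.trans (Nat.div_le_self _ _)⟩) (by positivity) (fun l _ => hΓ' (l * q))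
    refine e2.trans ?_
    rw [← hL]
    have hq0 : (0 : ℝ) < q := by exact_mod_cast hq
    apply div_le_div_of_nonneg_right _ hq0.le
    apply mul_le_mul_of_nonneg_right _ hX0.le
    calc L ^ 3 * (1 + L) ≤ L ^ 3 * L ^ 2 := by
          apply mul_le_mul_of_nonneg_left _ (by positivity)
          nlinarith
      _ = L ^ 5 := by ring
  · intro n QQ N ρ hd
    rcases QQ.eq_empty_or_nonempty with hQ | hne
    · unfold N2d
      rw [hQ, sum_empty]
      positivity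
    obtain ⟨s1, s2, s3, s4, s5, s6⟩ := gs n QQ N ρ hd hne
    have hcard : (QQ.card : ℝ) ≤ (X : ℝ) ^ (e / 2) := hd.2.2.2.2.2.1
    have hρ0 : ∀ q ∈ QQ, 0 ≤ ρ q := fun q hq => (s5 q hq).1
    have hadd := N2d_add X ρ QQ hρ0 r1 r2 hr1c hr2c
    -- the error of the model
    have t2 : N2d X ρ QQ r2 ≤ X / L ^ B / 4 := by
      have e1 := N2d_tp X ρ (4 * L ^ K2) N QQ s5 (by positivity) s4 s1 X em
      have e3 : (2 * (4 * L ^ K2) * N / X + 1) * ∑ k ∈ Icc 1 X, ‖em k‖ ^ 2 ≤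
          2 * ∑ k ∈ Icc 1 X, ‖em k‖ ^ 2 := by
        refine mul_le_mul_of_nonneg_right ?_ (sum_nonneg fun k _ => by positivity)
        have : 2 * (4 * L ^ K2) * N / X ≤ 1 := (div_le_one hX0).2 s3
        linarith
      rw [hr2]
      refine e1.trans (e3.trans ?_)
      have e2 : 8 * L ^ B * (X : ℝ) ^ (1 - η) ≤ X := by
        calc 8 * L ^ B * (X : ℝ) ^ (1 - η) ≤ (X : ℝ) ^ η * (X : ℝ) ^ (1 - η) :=
              mul_le_mul_of_nonneg_right g2 (by positivity)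
          _ = X := by
              rw [← Real.rpow_add hX0]
              have : η + (1 - η) = 1 := by ring
              rw [this, Real.rpow_one]
      rw [div_div, le_div_iff₀ (by positivity)]
      calc (2 * ∑ k ∈ Icc 1 X, ‖em k‖ ^ 2) * (L ^ B * 4) ≤
          (2 * (X : ℝ) ^ (1 - η)) * (L ^ B * 4) := by
            gcongr
        _ = 8 * L ^ B * (X : ℝ) ^ (1 - η) := by ring
        _ ≤ X := e2
    -- the divisors which are not multiples of `q`
    have t1 : N2d X ρ QQ r1 ≤ X / L ^ B / 4 := by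
      have hN4 : (X : ℝ) ^ (1 / 4 : ℝ) ≤ (X : ℝ) ^ (2 / 3 - 900 * e) :=
        Real.rpow_le_rpow_of_exponent_le hXR (by linarith)
      obtain ⟨Y, hY⟩ : ∃ Y : ℝ, Y = (X : ℝ) ^ (2 / 3 - 900 * e) := ⟨_, rfl⟩
      rw [← hY] at s2 hN4
      have hY0 : 0 < Y := by rw [hY]; positivity
      have hpt : ∀ q ∈ QQ, ∀ a ∈ rr q, ∀ x, |x| ≤ ρ q / X → ‖r1 q a x‖ ≤ 4 * C * L ^ 4 * Y := by
        intro q hq a ha x hx
        obtain ⟨q1, q2, q3⟩ := s6 q hq
        have hqR : (1 : ℝ) ≤ q := by exact_mod_cast q1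
        have hcop : Nat.Coprime a q := by
          unfold rr at ha
          exact (mem_filter.1 ha).2
        obtain ⟨σ, hσ, hσx⟩ : ∃ σ : ℝ, (σ = 1 ∨ σ = -1) ∧ x = σ * |x| := by
          rcases le_or_gt 0 x with h | h
          · exact ⟨1, Or.inl rfl, by rw [abs_of_nonneg h]; ring⟩
          · exact ⟨-1, Or.inr rfl, by rw [abs_of_neg h]; ring⟩
        have hDx : 4 * (V0 X : ℝ) * q * |x| ≤ 1 := by
          have e1 : |x| ≤ 4 * L ^ K2 / X := hx.trans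
            (div_le_div_of_nonneg_right (s5 q hq).2 hX0.le)
          calc 4 * (V0 X : ℝ) * q * |x| ≤ 4 * (X : ℝ) ^ (1 / 4 : ℝ) * Y * (4 * L ^ K2 / X) := by
                gcongr
                linarith
            _ = (16 * L ^ K2) * ((X : ℝ) ^ (1 / 4 : ℝ) * Y) / X := by ring
            _ ≤ (X : ℝ) ^ (1 / 12 : ℝ) * ((X : ℝ) ^ (1 / 4 : ℝ) * (X : ℝ) ^ (2 / 3 : ℝ)) / X := by
                apply div_le_div_of_nonneg_right _ hX0.le
                apply mul_le_mul g3 _ (by positivity) (by positivity)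
                apply mul_le_mul_of_nonneg_left _ (by positivity)
                rw [hY]
                exact Real.rpow_le_rpow_of_exponent_le hXR (by linarith)
            _ = 1 := by
                rw [← Real.rpow_add hX0, ← Real.rpow_add hX0]
                norm_num
                first
                  | exact hX0.ne'
                  | exact div_self hX0.ne'
                  | omega
        have h3 := hti X q a 1 (V0 X) ((Icc 1 (V0 X)).filter (fun d => ¬ q ∣ d)) Γ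
          (L ^ 3) |x| σ q1 hcop (one_dvd q) (by
            intro l hl
            rw [mem_filter, mem_Icc] at hl
            rw [Nat.div_one]
            exact ⟨hl.1.1, hl.1.2, hl.2⟩) hσ (abs_nonneg x) hDx (by positivity) (fun l _ => hΓ' l)
        simp only [mul_one, ← hσx] at h3
        rw [hr1]
        refine h3.trans ?_
        have hlogq : Real.log q ≤ L := by
          rw [hL]
          exact Real.log_le_log (by linarith) (by exact_mod_cast q3)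
        have hlog0 : 0 ≤ Real.log (q : ℝ) := Real.log_nonneg hqR
        calc C * L ^ 3 * ((V0 X : ℝ) + q) * (1 + Real.log q) ≤ C * L ^ 3 * (Y + Y) * (L + L) := by
              gcongr
              · linarith
              · linarith
          _ = 4 * C * L ^ 4 * Y := by ring
      have h4 := N2d_sup X ρ QQ hρ0 r1 hr1c (fun _ => 4 * C * L ^ 4 * Y) hpt
      refine h4.trans ?_
      have h5 : ∀ q ∈ QQ, (Nat.totient q : ℝ) * (2 * (ρ q / X) * (4 * C * L ^ 4 * Y) ^ 2) ≤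
          Y * (8 * L ^ K2 / X * (4 * C * L ^ 4 * Y) ^ 2) := by
        intro q hq
        obtain ⟨q1, q2, q3⟩ := s6 q hq
        have e1 : (Nat.totient q : ℝ) ≤ Y := by
          have : (Nat.totient q : ℝ) ≤ q := by exact_mod_cast Nat.totient_le q
          linarith
        have e2 : 2 * (ρ q / X) ≤ 8 * L ^ K2 / X := by
          rw [mul_div_assoc']
          apply div_le_div_of_nonneg_right _ hX0.le
          linarith [(s5 q hq).2]
        have e3 : 0 ≤ 2 * (ρ q / X) := by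
          have := (s5 q hq).1
          positivity
        exact mul_le_mul e1 (mul_le_mul_of_nonneg_right e2 (by positivity))
          (by positivity) hY0.le
      refine (sum_le_sum h5).trans ?_
      rw [sum_const, nsmul_eq_mul]
      have h6 : (QQ.card : ℝ) * (Y * (8 * L ^ K2 / X * (4 * C * L ^ 4 * Y) ^ 2)) ≤
          (X : ℝ) ^ (e / 2) * (Y * (8 * L ^ K2 / X * (4 * C * L ^ 4 * Y) ^ 2)) :=
        mul_le_mul_of_nonneg_right hcard (by positivity)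
      refine h6.trans ?_
      rw [div_div, le_div_iff₀ (by positivity)]
      have hY3 : Y ^ 3 = (X : ℝ) ^ (2 - 2700 * e) := by
        rw [hY, ← Real.rpow_natCast, ← Real.rpow_mul hX0.le]
        congr 1
        push_cast
        ring
      have h7 : (X : ℝ) ^ (e / 2) * (X : ℝ) ^ (2 - 2700 * e) * (X : ℝ) ^ (2600 * e) ≤
          (X : ℝ) ^ (2 : ℝ) := by
        rw [← Real.rpow_add hX0, ← Real.rpow_add hX0]
        exact Real.rpow_le_rpow_of_exponent_le hXR (by linarith)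
      calc (X : ℝ) ^ (e / 2) * (Y * (8 * L ^ K2 / X * (4 * C * L ^ 4 * Y) ^ 2)) * (L ^ B * 4) =
          (X : ℝ) ^ (e / 2) * Y ^ 3 * (32 * (4 * C) ^ 2 * L ^ (8 + K2 + B)) / X := by
            rw [pow_add, pow_add]
            field_simp
            norm_num
        _ ≤ (X : ℝ) ^ (e / 2) * Y ^ 3 * (X : ℝ) ^ (2600 * e) / X := by
            apply div_le_div_of_nonneg_right _ hX0.le
            apply mul_le_mul_of_nonneg_left _ (by positivity)
            have : 0 ≤ (4 * C) ^ 2 * L ^ (8 + K2 + B) := by positivity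
            linarith
        _ ≤ (X : ℝ) ^ (2 : ℝ) / X := by
            apply div_le_div_of_nonneg_right _ hX0.le
            rw [hY3]
            exact h7
        _ = X := by
            have : (X : ℝ) ^ (2 : ℝ) = X * X := by
              rw [show (2 : ℝ) = ((2 : ℕ) : ℝ) by norm_num, Real.rpow_natCast]
              ring
            rw [this]
            field_simp
    have h0 : 0 ≤ X / L ^ B := by positivity
    calc N2d X ρ QQ (fun q a x => r1 q a x + r2 q a x) ≤ 2 * N2d X ρ QQ r1 + 2 * N2d X ρ QQ r2 :=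
          hadd
      _ ≤ X / L ^ B := by linarith

/-- the mean of a function on the reduced fractions is a contraction -/
theorem am_mean (X : ℕ) (ρ : ℕ → ℝ) (QQ : Finset ℕ) (hρ : ∀ q ∈ QQ, 0 ≤ ρ q)
    (f : ℕ → ℕ → ℝ → ℂ) (hf : ∀ q a, Continuous (f q a)) :
    N2d X ρ QQ (fun q _ x => (1 / (Nat.totient q : ℂ)) * ∑ b ∈ rr q, f q b x) ≤
      N2d X ρ QQ f := by
  unfold N2d
  refine Finset.sum_le_sum fun q hq => ?_
  have hfq := hf q
  have hM : Continuous (fun x => (1 / (Nat.totient q : ℂ)) * ∑ b ∈ rr q, f q b x) := by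
    fun_prop
  rw [Finset.sum_const, nsmul_eq_mul, rr_card, ← intervalIntegral.integral_const_mul,
    ← intervalIntegral.integral_finsetSum
      (fun a _ => by apply Continuous.intervalIntegrable; fun_prop)]
  refine intervalIntegral.integral_mono_on (ar_le X (hρ q hq))
    (by apply Continuous.intervalIntegrable; fun_prop)
    (by apply Continuous.intervalIntegrable; fun_prop) fun x _ => ?_
  rcases Nat.eq_zero_or_pos (Nat.totient q) with h0 | h0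
  · rw [h0, Nat.cast_zero, zero_mul]
    exact Finset.sum_nonneg fun a _ => by positivity
  · have hφ : (0 : ℝ) < Nat.totient q := by exact_mod_cast h0
    rw [norm_mul, norm_div, norm_one, Complex.norm_natCast]
    have h1 : ‖∑ b ∈ rr q, f q b x‖ ^ 2 ≤ (Nat.totient q : ℝ) * ∑ b ∈ rr q, ‖f q b x‖ ^ 2 := by
      calc ‖∑ b ∈ rr q, f q b x‖ ^ 2 ≤ (∑ b ∈ rr q, ‖f q b x‖) ^ 2 :=
            pow_le_pow_left₀ (norm_nonneg _) (norm_sum_le _ _) 2
        _ ≤ ((rr q).card : ℝ) * ∑ b ∈ rr q, ‖f q b x‖ ^ 2 := sq_sum_le_card_mul_sum_sq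
        _ = (Nat.totient q : ℝ) * ∑ b ∈ rr q, ‖f q b x‖ ^ 2 := by rw [rr_card]
    rw [mul_pow]
    calc (Nat.totient q : ℝ) * ((1 / (Nat.totient q : ℝ)) ^ 2 * ‖∑ b ∈ rr q, f q b x‖ ^ 2) =
          ‖∑ b ∈ rr q, f q b x‖ ^ 2 / (Nat.totient q : ℝ) := by
          field_simp
      _ ≤ ∑ b ∈ rr q, ‖f q b x‖ ^ 2 := by
          rw [div_le_iff₀ hφ]
          linarith

/-- (ModBD) -/
theorem modBD : ModBD := by
  intro e th he he1 h1 h2 B K1 K2
  refine ⟨1, fun D' hD => ?_⟩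
  obtain ⟨X0, hX0⟩ := mod_split e th he he1 h1 h2 (B + 2) K1 K2 D' hD
  obtain ⟨X1, hX1⟩ := MP_log_large 4
  refine ⟨max X0 (max X1 1), fun X hX n QQ N ρ hd => ?_⟩
  obtain ⟨lam, rest, hlc, hrc, hF, -, hr⟩ := hX0 X (by omega)
  have g1 := hX1 X (by omega)
  have hX1' : 1 ≤ X := by omega
  have hXR : (1 : ℝ) ≤ X := by exact_mod_cast hX1'
  have hX0' : (0 : ℝ) < X := by linarith
  have hR := hr n QQ N ρ hd
  have hρ0 : ∀ q ∈ QQ, 0 ≤ ρ q := fun q hq => (hd.2.2.2.1 q hq).1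
  have hq1 : ∀ q ∈ QQ, 1 ≤ q := fun q hq => (hd.2.2.1 q hq).1
  have e1 : N2d X ρ QQ (fun q a x => FX (wX D' X) X ((a : ℝ) / q + x) -
      Mn (FX (wX D' X) X) q x) = N2d X ρ QQ (fun q a x => rest q a x -
      (1 / (Nat.totient q : ℂ)) * ∑ b ∈ rr q, rest q b x) := by
    apply N2d_congr
    intro q hq a _ x
    have hφ : (Nat.totient q : ℂ) ≠ 0 := by
      have := Nat.totient_pos.2 (hq1 q hq)
      exact_mod_cast this.ne'
    have e2 : Mn (FX (wX D' X) X) q x = lam q x +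
        (1 / (Nat.totient q : ℂ)) * ∑ b ∈ rr q, rest q b x := by
      unfold Mn
      have e3 : ∑ b ∈ rr q, FX (wX D' X) X ((b : ℝ) / q + x) =
          ∑ b ∈ rr q, (lam q x + rest q b x) :=
        Finset.sum_congr rfl fun b _ => hF q (hq1 q hq) b x
      rw [e3, Finset.sum_add_distrib, Finset.sum_const, nsmul_eq_mul, rr_card]
      field_simp
    rw [e2, hF q (hq1 q hq) a x]
    ring
  rw [e1]
  have hm : ∀ q (_a : ℕ), Continuous (fun x => (1 / (Nat.totient q : ℂ)) *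
      ∑ b ∈ rr q, rest q b x) := by
    intro q _
    have hrq := hrc q
    fun_prop
  have e4 := N2d_sub X ρ QQ hρ0 rest (fun q _ x => (1 / (Nat.totient q : ℂ)) *
      ∑ b ∈ rr q, rest q b x) hrc hm
  have e5 := am_mean X ρ QQ hρ0 rest hrc
  have hL0 : 0 < Real.log X := by linarith
  have e6 : 4 * (X / (Real.log X) ^ (B + 2)) ≤ X / (Real.log X) ^ B := by
    rw [pow_add, ← div_div, mul_div_assoc']
    rw [div_le_iff₀ (by positivity)]
    have h3 : 4 ≤ Real.log X ^ 2 := by nlinarith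
    calc 4 * (X / Real.log X ^ B) = X / Real.log X ^ B * 4 := by ring
      _ ≤ X / Real.log X ^ B * Real.log X ^ 2 := by
          apply mul_le_mul_of_nonneg_left h3
          positivity
  linarith

end Pool.MP_dd84fd_nt.BX
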