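import Pool.Agent.Lib.MP_dd84fd_nt.BX.AsDefs

/-!
# BX-As1: the squares of `VQ` and the pairs of characters modulo `q`

Expand the square of `VQ` (a finite sum over `χ ∈ Yq`), `ee(-(n(a/q+x))) = ee(-(n(a/q))) ee(-(nx))`,
sum over `a ∈ rr q` first: this gives `Rm q n (χ₁ χ₂)`.  The integral over `|x| ≤ ρ/X` of
`SX ⟨q,χ₁⟩ SX ⟨q,χ₂⟩ ee(-(nx))` is at most the integral of `|SX| |SX|` over `|x| ≤ T/X`, which is at
most `(X/L²) sN sN` by Cauchy-Schwarz.
-/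

set_option autoImplicit false

namespace Pool.MP_dd84fd_nt.BX

open Finset Pool.MP_67663b_nt.Odd Pool.MP_dd84fd_nt.En Pool.MP_dd84fd_nt.E2 Pool.MP_dd84fd_nt.LS
open Pool.MP_dd84fd_nt.GX Pool.MP_dd84fd_nt.HX Pool.MP_dd84fd_nt.IX
open Pool.MP_dd84fd_nt.PL (rr)
open Pool.MP_dd84fd_nt.JX (wP gP)
open Pool.MP_dd84fd_nt.LXP (tq)

theorem as_ee_cont : Continuous ee := by
  unfold ee
  fun_prop

theorem as_ee_norm (x : ℝ) : ‖ee x‖ = 1 := by
  unfold ee
  rw [show (2 * (Real.pi : ℂ) * (x : ℂ) * Complex.I) = ((2 * Real.pi * x : ℝ) : ℂ) * Complex.I by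
    push_cast; ring]
  exact Complex.norm_exp_ofReal_mul_I _

theorem as_ee_add (x y : ℝ) : ee (x + y) = ee x * ee y := by
  unfold ee
  rw [← Complex.exp_add]
  congr 1
  push_cast
  ring

private theorem SX_cont (X : ℕ) (ψ : PC) : Continuous (SX X ψ) := by
  unfold SX
  refine continuous_finsetSum _ fun n _ => ?_
  exact continuous_const.mul (as_ee_cont.comp (continuous_const.mul continuous_id))

/-- Cauchy–Schwarz for continuous functions on an interval -/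
theorem as_cs (f g : ℝ → ℝ) (hf : Continuous f) (hg : Continuous g) (a b : ℝ) (hab : a ≤ b) :
    ∫ x in a..b, f x * g x ≤
      Real.sqrt (∫ x in a..b, f x ^ 2) * Real.sqrt (∫ x in a..b, g x ^ 2) := by
  have hF : 0 ≤ ∫ x in a..b, f x ^ 2 :=
    intervalIntegral.integral_nonneg hab fun x _ => sq_nonneg _
  have hG : 0 ≤ ∫ x in a..b, g x ^ 2 :=
    intervalIntegral.integral_nonneg hab fun x _ => sq_nonneg _
  have key : ∀ t : ℝ, 0 ≤ (∫ x in a..b, f x ^ 2) * (t * t) +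
      (-2 * ∫ x in a..b, f x * g x) * t + ∫ x in a..b, g x ^ 2 := by
    intro t
    have h1 : 0 ≤ ∫ x in a..b, (t * f x - g x) ^ 2 :=
      intervalIntegral.integral_nonneg hab fun x _ => sq_nonneg _
    have h2 : ∫ x in a..b, (t * f x - g x) ^ 2 =
        ∫ x in a..b, ((t * t) * f x ^ 2 + (-2 * t) * (f x * g x) + g x ^ 2) := by
      congr 1
      funext x
      ring
    have c1 : Continuous (fun x => (t * t) * f x ^ 2) := continuous_const.mul (hf.pow 2)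
    have c2 : Continuous (fun x => (-2 * t) * (f x * g x)) := continuous_const.mul (hf.mul hg)
    have c3 : Continuous (fun x => g x ^ 2) := hg.pow 2
    have e1 : ∫ x in a..b, ((t * t) * f x ^ 2 + (-2 * t) * (f x * g x) + g x ^ 2) =
        (∫ x in a..b, ((t * t) * f x ^ 2 + (-2 * t) * (f x * g x))) + ∫ x in a..b, g x ^ 2 :=
      intervalIntegral.integral_add ((c1.add c2).intervalIntegrable _ _)
        (c3.intervalIntegrable _ _)
    have e2 : ∫ x in a..b, ((t * t) * f x ^ 2 + (-2 * t) * (f x * g x)) =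
        (∫ x in a..b, (t * t) * f x ^ 2) + ∫ x in a..b, (-2 * t) * (f x * g x) :=
      intervalIntegral.integral_add (c1.intervalIntegrable _ _) (c2.intervalIntegrable _ _)
    rw [h2, e1, e2, intervalIntegral.integral_const_mul,
      intervalIntegral.integral_const_mul] at h1
    linarith
  have h3 := discrim_le_zero key
  unfold discrim at h3
  rw [← Real.sqrt_mul hF]
  refine Real.le_sqrt_of_sq_le ?_
  nlinarith

theorem sN_nonneg (X : ℕ) (T : ℝ) (ψ : PC) : 0 ≤ sN X T ψ := by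
  unfold sN
  have : 0 ≤ Real.log (X : ℝ) := Real.log_natCast_nonneg X
  positivity

/-- the integral of a product -/
theorem as_int (X n : ℕ) (T ρ : ℝ) (hX : 2 ≤ X) (hρ0 : 0 ≤ ρ) (hρ : ρ ≤ T) (ψ₁ ψ₂ : PC) :
    ‖∫ x in (-(ρ / X))..(ρ / X), SX X ψ₁ x * SX X ψ₂ x * ee (-((n : ℝ) * x))‖ ≤
      (X : ℝ) / (Real.log X) ^ 2 * (sN X T ψ₁ * sN X T ψ₂) := by
  have hX0 : (0 : ℝ) < X := by exact_mod_cast (by omega : 0 < X)
  have hL0 : 0 < Real.log (X : ℝ) := Real.log_pos (by exact_mod_cast (by omega : 1 < X))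
  have hle : -(ρ / (X : ℝ)) ≤ ρ / X := by
    have : 0 ≤ ρ / (X : ℝ) := by positivity
    linarith
  have hT0 : 0 ≤ T / (X : ℝ) := div_nonneg (hρ0.trans hρ) hX0.le
  have hleT : -(T / (X : ℝ)) ≤ T / X := by linarith
  have hmono : ρ / (X : ℝ) ≤ T / X := by gcongr
  set f : ℝ → ℝ := fun x => ‖SX X ψ₁ x‖ with hf
  set g : ℝ → ℝ := fun x => ‖SX X ψ₂ x‖ with hg
  have hfc : Continuous f := (SX_cont X ψ₁).norm
  have hgc : Continuous g := (SX_cont X ψ₂).norm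
  have h1 : ‖∫ x in (-(ρ / X))..(ρ / X), SX X ψ₁ x * SX X ψ₂ x * ee (-((n : ℝ) * x))‖ ≤
      ∫ x in (-(ρ / X))..(ρ / X), f x * g x := by
    refine (intervalIntegral.norm_integral_le_integral_norm hle).trans (le_of_eq ?_)
    congr 1
    funext x
    rw [norm_mul, norm_mul, as_ee_norm, mul_one]
  have h2 : ∫ x in (-(ρ / X))..(ρ / X), f x * g x ≤ ∫ x in (-(T / X))..(T / X), f x * g x := by
    refine intervalIntegral.integral_mono_interval (by linarith) hle (by linarith) ?_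
      ((hfc.mul hgc).intervalIntegrable _ _)
    exact Filter.Eventually.of_forall fun x => mul_nonneg (norm_nonneg _) (norm_nonneg _)
  have h3 := as_cs f g hfc hgc _ _ hleT
  refine (h1.trans (h2.trans h3)).trans (le_of_eq ?_)
  unfold sN
  have hs : Real.sqrt (X : ℝ) * Real.sqrt X = X := Real.mul_self_sqrt hX0.le
  have hs0 : 0 < Real.sqrt (X : ℝ) := Real.sqrt_pos.2 hX0
  rw [show (X : ℝ) / Real.log X ^ 2 * (Real.log X / Real.sqrt X *
      Real.sqrt (∫ x in (-(T / X))..(T / X), ‖SX X ψ₁ x‖ ^ 2) * (Real.log X / Real.sqrt X *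
      Real.sqrt (∫ x in (-(T / X))..(T / X), ‖SX X ψ₂ x‖ ^ 2))) =
      (X / (Real.sqrt X * Real.sqrt X)) * (Real.log X ^ 2 / Real.log X ^ 2) *
      (Real.sqrt (∫ x in (-(T / X))..(T / X), ‖SX X ψ₁ x‖ ^ 2) *
      Real.sqrt (∫ x in (-(T / X))..(T / X), ‖SX X ψ₂ x‖ ^ 2)) by field_simp,
    hs, div_self hX0.ne', div_self (pow_ne_zero 2 hL0.ne'), one_mul, one_mul]

theorem vq_pairs (X q n : ℕ) (T ρ : ℝ) (hX : 2 ≤ X) (hq : 1 ≤ q) (hρ0 : 0 ≤ ρ) (hρ : ρ ≤ T)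
    (Yq : Finset (DirichletCharacter ℂ q)) :
    ‖∑ a ∈ rr q, ∫ x in (-(ρ / X))..(ρ / X), VQ X q Yq a x ^ 2 *
        ee (-((n : ℝ) * ((a : ℝ) / q + x)))‖ ≤
      ∑ χ₁ ∈ Yq, ∑ χ₂ ∈ Yq, cf q n χ₁ χ₂ *
        ((X : ℝ) / (Real.log X) ^ 2 * (sN X T ⟨q, χ₁⟩ * sN X T ⟨q, χ₂⟩)) := by
  have hq0 : q ≠ 0 := by omega
  have : NeZero q := ⟨hq0⟩
  set c : DirichletCharacter ℂ q → ℂ := fun χ => tq q χ⁻¹ with hc
  set S : DirichletCharacter ℂ q → ℝ → ℂ := fun χ x => SX X ⟨q, χ⟩ x with hS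
  set φ : ℂ := (Nat.totient q : ℂ) with hφ
  have hV : ∀ a x, VQ X q Yq a x = (1 / φ) * ∑ χ ∈ Yq, c χ * χ (a : ZMod q) * S χ x := by
    intro a x
    unfold VQ
    rw [dif_neg hq0]
  have hScont : ∀ χ, Continuous (S χ) := fun χ => SX_cont X _
  -- the integrand as a double sum
  have h1 : ∀ a ∈ rr q, ∫ x in (-(ρ / X))..(ρ / X), VQ X q Yq a x ^ 2 *
        ee (-((n : ℝ) * ((a : ℝ) / q + x))) =
      ∑ χ₁ ∈ Yq, ∑ χ₂ ∈ Yq, (1 / φ) ^ 2 * (c χ₁ * c χ₂) *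
        (((χ₁ * χ₂) (a : ZMod q)) * ee (-((n : ℝ) * ((a : ℝ) / q)))) *
        ∫ x in (-(ρ / X))..(ρ / X), S χ₁ x * S χ₂ x * ee (-((n : ℝ) * x)) := by
    intro a _
    have e1 : ∀ x : ℝ, VQ X q Yq a x ^ 2 * ee (-((n : ℝ) * ((a : ℝ) / q + x))) =
        ∑ χ₁ ∈ Yq, ∑ χ₂ ∈ Yq, (1 / φ) ^ 2 * (c χ₁ * c χ₂) *
          (((χ₁ * χ₂) (a : ZMod q)) * ee (-((n : ℝ) * ((a : ℝ) / q)))) *
          (S χ₁ x * S χ₂ x * ee (-((n : ℝ) * x))) := by
      intro x
      have e2 : ee (-((n : ℝ) * ((a : ℝ) / q + x))) =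
          ee (-((n : ℝ) * ((a : ℝ) / q))) * ee (-((n : ℝ) * x)) := by
        rw [← as_ee_add]
        congr 1
        ring
      rw [hV, e2, mul_pow, pow_two (∑ χ ∈ Yq, c χ * χ (a : ZMod q) * S χ x), sum_mul_sum,
        mul_sum, sum_mul]
      refine sum_congr rfl fun χ₁ _ => ?_
      rw [mul_sum, sum_mul]
      refine sum_congr rfl fun χ₂ _ => ?_
      rw [MulChar.mul_apply]
      ring
    simp only [e1]
    have hcont : ∀ χ₁ χ₂ : DirichletCharacter ℂ q, Continuous (fun x : ℝ =>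
        (1 / φ) ^ 2 * (c χ₁ * c χ₂) *
          (((χ₁ * χ₂) (a : ZMod q)) * ee (-((n : ℝ) * ((a : ℝ) / q)))) *
          (S χ₁ x * S χ₂ x * ee (-((n : ℝ) * x)))) := by
      intro χ₁ χ₂
      refine continuous_const.mul (((hScont χ₁).mul (hScont χ₂)).mul ?_)
      exact as_ee_cont.comp (continuous_const.mul continuous_id).neg
    rw [intervalIntegral.integral_finsetSum]
    · refine sum_congr rfl fun χ₁ _ => ?_
      rw [intervalIntegral.integral_finsetSum]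
      · refine sum_congr rfl fun χ₂ _ => ?_
        rw [intervalIntegral.integral_const_mul]
      · intro χ₂ _
        exact (hcont χ₁ χ₂).intervalIntegrable _ _
    · intro χ₁ _
      refine Continuous.intervalIntegrable ?_ _ _
      exact continuous_finsetSum _ fun χ₂ _ => hcont χ₁ χ₂
  rw [sum_congr rfl h1, sum_comm]
  refine (norm_sum_le _ _).trans (sum_le_sum fun χ₁ _ => ?_)
  rw [sum_comm]
  refine (norm_sum_le _ _).trans (sum_le_sum fun χ₂ _ => ?_)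
  rw [← sum_mul, ← mul_sum]
  have hcf : cf q n χ₁ χ₂ = ‖tq q χ₁⁻¹‖ * ‖tq q χ₂⁻¹‖ * ‖Rm q n (χ₁ * χ₂)‖ /
      (Nat.totient q : ℝ) ^ 2 := by
    unfold cf
    rw [dif_neg hq0]
  rw [norm_mul, hcf]
  have h2 : ‖(1 / φ) ^ 2 * (c χ₁ * c χ₂) * ∑ a ∈ rr q, (χ₁ * χ₂) (a : ZMod q) *
      ee (-((n : ℝ) * ((a : ℝ) / q)))‖ =
      ‖tq q χ₁⁻¹‖ * ‖tq q χ₂⁻¹‖ * ‖Rm q n (χ₁ * χ₂)‖ / (Nat.totient q : ℝ) ^ 2 := by
    unfold Rm
    rw [norm_mul, norm_mul, norm_mul, norm_pow, norm_div, norm_one, hφ, Complex.norm_natCast, hc]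
    ring
  rw [h2]
  refine mul_le_mul_of_nonneg_left (as_int X n T ρ hX hρ0 hρ _ _) (by positivity)

end Pool.MP_dd84fd_nt.BX
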