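import Pool.Agent.Lib.MP_dd84fd_nt.BX.As1

/-!
# BX-As3: from the pairs of characters modulo `q` to the pairs of primitive characters
-/

set_option autoImplicit false

namespace Pool.MP_dd84fd_nt.BX

open Finset Pool.MP_67663b_nt.Odd Pool.MP_dd84fd_nt.En Pool.MP_dd84fd_nt.E2 Pool.MP_dd84fd_nt.LS
open Pool.MP_dd84fd_nt.GX Pool.MP_dd84fd_nt.HX Pool.MP_dd84fd_nt.IX
open Pool.MP_dd84fd_nt.PL (rr)
open Pool.MP_dd84fd_nt.JX (wP gP)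
open Pool.MP_dd84fd_nt.LXP (tq)

/-- a character is induced by its primitive character -/
theorem ind_prc {q : ℕ} (χ : DirichletCharacter ℂ q) : ind q (prc χ) = χ := by
  have h : (prc χ).1 ∣ q := χ.conductor_dvd_level
  unfold ind
  rw [dif_pos h]
  exact DirichletCharacter.changeLevel_primitiveCharacter χ

theorem prc_inj {q : ℕ} : Function.Injective (prc (q := q)) := by
  intro χ χ' h
  rw [← ind_prc χ, ← ind_prc χ', h]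

theorem isPC_prc {q : ℕ} (hq : 1 ≤ q) (χ : DirichletCharacter ℂ q) : IsPC (prc χ) := by
  have : NeZero q := ⟨by omega⟩
  refine ⟨Nat.one_le_iff_ne_zero.2 (DirichletCharacter.conductor_ne_zero χ), ?_⟩
  exact DirichletCharacter.primitiveCharacter_isPrimitive χ

theorem cf_nonneg (q n : ℕ) (χ₁ χ₂ : DirichletCharacter ℂ q) : 0 ≤ cf q n χ₁ χ₂ := by
  unfold cf
  split_ifs
  · exact le_rfl
  · positivity

/-- the weight of a pair of primitive characters -/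
noncomputable def Wt (QQ : Finset ℕ) (n : ℕ) (ψ₁ ψ₂ : PC) : ℝ :=
  ∑ q ∈ QQ.filter (fun q => ψ₁.1 ∣ q ∧ ψ₂.1 ∣ q), cf q n (ind q ψ₁) (ind q ψ₂)

theorem Wt_nonneg (QQ : Finset ℕ) (n : ℕ) (ψ₁ ψ₂ : PC) : 0 ≤ Wt QQ n ψ₁ ψ₂ :=
  sum_nonneg fun _ _ => cf_nonneg _ _ _ _

open Classical in
/-- the sum over the moduli and the pairs of characters -/
theorem pairs_prim (QQ : Finset ℕ) (n : ℕ) (YY : (q : ℕ) → Finset (DirichletCharacter ℂ q))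
    (Y : Finset PC) (hY : ∀ q ∈ QQ, ∀ χ ∈ YY q, prc χ ∈ Y) (s : PC → ℝ) (hs : ∀ ψ ∈ Y, 0 ≤ s ψ)
    (t : (q : ℕ) → DirichletCharacter ℂ q → ℝ)
    (ht : ∀ q ∈ QQ, ∀ χ ∈ YY q, 0 ≤ t q χ ∧ t q χ ≤ s (prc χ)) :
    ∑ q ∈ QQ, ∑ χ₁ ∈ YY q, ∑ χ₂ ∈ YY q, cf q n χ₁ χ₂ * (t q χ₁ * t q χ₂) ≤
      ∑ ψ₁ ∈ Y, ∑ ψ₂ ∈ Y, Wt QQ n ψ₁ ψ₂ * (s ψ₁ * s ψ₂) := by
  have e1 : ∑ ψ₁ ∈ Y, ∑ ψ₂ ∈ Y, Wt QQ n ψ₁ ψ₂ * (s ψ₁ * s ψ₂) =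
      ∑ q ∈ QQ, ∑ ψ₁ ∈ Y, ∑ ψ₂ ∈ Y, (if ψ₁.1 ∣ q ∧ ψ₂.1 ∣ q then
        cf q n (ind q ψ₁) (ind q ψ₂) * (s ψ₁ * s ψ₂) else 0) := by
    symm
    rw [sum_comm]
    refine sum_congr rfl fun ψ₁ _ => ?_
    rw [sum_comm]
    refine sum_congr rfl fun ψ₂ _ => ?_
    unfold Wt
    rw [sum_filter, sum_mul]
    refine sum_congr rfl fun q _ => ?_
    split_ifs <;> simp
  rw [e1]
  refine sum_le_sum fun q hq => ?_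
  -- the image of the characters modulo `q`
  have hsub : (YY q).image prc ⊆ Y := by
    intro ψ hψ
    obtain ⟨χ, hχ, rfl⟩ := mem_image.1 hψ
    exact hY q hq χ hχ
  have hnn : ∀ ψ₁ ∈ Y, ∀ ψ₂ ∈ Y, 0 ≤ (if ψ₁.1 ∣ q ∧ ψ₂.1 ∣ q then
      cf q n (ind q ψ₁) (ind q ψ₂) * (s ψ₁ * s ψ₂) else 0) := by
    intro ψ₁ h1 ψ₂ h2
    split_ifs
    · exact mul_nonneg (cf_nonneg _ _ _ _) (mul_nonneg (hs _ h1) (hs _ h2))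
    · exact le_rfl
  calc ∑ χ₁ ∈ YY q, ∑ χ₂ ∈ YY q, cf q n χ₁ χ₂ * (t q χ₁ * t q χ₂)
      ≤ ∑ χ₁ ∈ YY q, ∑ χ₂ ∈ YY q, cf q n χ₁ χ₂ * (s (prc χ₁) * s (prc χ₂)) := by
        refine sum_le_sum fun χ₁ h1 => sum_le_sum fun χ₂ h2 => ?_
        refine mul_le_mul_of_nonneg_left ?_ (cf_nonneg _ _ _ _)
        exact mul_le_mul (ht q hq χ₁ h1).2 (ht q hq χ₂ h2).2 (ht q hq χ₂ h2).1
          (hs _ (hY q hq χ₁ h1))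
    _ = ∑ ψ₁ ∈ (YY q).image prc, ∑ ψ₂ ∈ (YY q).image prc, (if ψ₁.1 ∣ q ∧ ψ₂.1 ∣ q then
        cf q n (ind q ψ₁) (ind q ψ₂) * (s ψ₁ * s ψ₂) else 0) := by
        rw [sum_image (fun χ _ χ' _ h => prc_inj h)]
        refine sum_congr rfl fun χ₁ _ => ?_
        rw [sum_image (fun χ _ χ' _ h => prc_inj h)]
        refine sum_congr rfl fun χ₂ _ => ?_
        rw [if_pos ⟨χ₁.conductor_dvd_level, χ₂.conductor_dvd_level⟩, ind_prc, ind_prc]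
    _ ≤ ∑ ψ₁ ∈ Y, ∑ ψ₂ ∈ Y, (if ψ₁.1 ∣ q ∧ ψ₂.1 ∣ q then
        cf q n (ind q ψ₁) (ind q ψ₂) * (s ψ₁ * s ψ₂) else 0) := by
        refine (sum_le_sum fun ψ₁ h1 => sum_le_sum_of_subset_of_nonneg hsub
          fun ψ₂ h2 _ => hnn ψ₁ (hsub h1) ψ₂ h2).trans ?_
        exact sum_le_sum_of_subset_of_nonneg hsub fun ψ₁ h1 _ =>
          sum_nonneg fun ψ₂ h2 => hnn ψ₁ h1 ψ₂ h2

end Pool.MP_dd84fd_nt.BX
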