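import Mathlib

/-!
The sum over the pairs of characters, abstract form. `w i j` is the weight of the pair (sum over the moduli of the
products of the Gauss sums and Ramanujan sums), `h i j` the number `h0`, `s i` and `t j` the norms of the
two functions at the characters. Pairs with `h > H`: the weight is small, the sums of `s` (over the partners of one
`j`) and of `t` are bounded. Pairs with `h ≤ H`: at most `P` partners, `t j` is at most `lam` (otherwise the pair is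
excluded), Cauchy-Schwarz.
-/

set_option autoImplicit false

namespace Pool.MP_dd84fd_nt.BX

open Finset

open Classical in
theorem pairs_sum {ι κ : Type*} (Y1 : Finset ι) (Y2 : Finset κ) (w : ι → κ → ℝ) (h : ι → κ → ℕ)
    (s : ι → ℝ) (t : κ → ℝ) (A C1 C2 C3 lam : ℝ) (H P : ℕ) (hA : 0 ≤ A) (hC1 : 0 ≤ C1)
    (hlam : 0 ≤ lam) (hH : 1 ≤ H)
    (hs : ∀ i ∈ Y1, 0 ≤ s i) (ht : ∀ j ∈ Y2, 0 ≤ t j)
    (hw : ∀ i ∈ Y1, ∀ j ∈ Y2, w i j ≤ A * (h i j : ℝ) ^ (-(1 / 4 : ℝ)))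
    (hrel : ∀ j ∈ Y2, ∑ i ∈ Y1.filter (fun i => w i j ≠ 0), s i ≤ C1)
    (hsum : ∑ j ∈ Y2, t j ≤ C2) (hsq : ∑ i ∈ Y1, s i ^ 2 ≤ C3)
    (hlight : ∀ i ∈ Y1, ∀ j ∈ Y2, w i j ≠ 0 → h i j ≤ H → t j ≤ lam)
    (hp1 : ∀ i ∈ Y1, (Y2.filter (fun j => w i j ≠ 0 ∧ h i j ≤ H)).card ≤ P)
    (hp2 : ∀ j ∈ Y2, (Y1.filter (fun i => w i j ≠ 0 ∧ h i j ≤ H)).card ≤ P) :
    ∑ i ∈ Y1, ∑ j ∈ Y2, w i j * (s i * t j) ≤
      A * ((H : ℝ) ^ (-(1 / 4 : ℝ)) * (C1 * C2) + P * Real.sqrt (lam * C2 * C3)) := by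
  classical
  have hH0 : (0 : ℝ) < H := by exact_mod_cast hH
  set u : ι → κ → ℝ := fun i j => if w i j ≠ 0 ∧ h i j ≤ H then 1 else 0 with hu
  set v : ι → κ → ℝ := fun i j => if w i j ≠ 0 then 1 else 0 with hv
  have hu0 : ∀ i j, 0 ≤ u i j := fun i j => by simp only [hu]; split_ifs <;> norm_num
  have hv0 : ∀ i j, 0 ≤ v i j := fun i j => by simp only [hv]; split_ifs <;> norm_num
  -- pointwise bound
  have key : ∀ i ∈ Y1, ∀ j ∈ Y2, w i j ≤ A * ((H : ℝ) ^ (-(1 / 4 : ℝ)) * v i j + u i j) := by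
    intro i hi j hj
    by_cases c1 : w i j = 0
    · rw [c1]
      have := hu0 i j
      have := hv0 i j
      positivity
    · have hv1 : v i j = 1 := by simp [hv, c1]
      have h2 := hw i hi j hj
      by_cases c2 : h i j ≤ H
      · have hu1 : u i j = 1 := by simp [hu, c1, c2]
        rw [hv1, hu1]
        have h1 : (h i j : ℝ) ^ (-(1 / 4 : ℝ)) ≤ 1 := by
          rcases Nat.eq_zero_or_pos (h i j) with h0 | h0
          · rw [h0, Nat.cast_zero, Real.zero_rpow (by norm_num)]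
            norm_num
          · exact Real.rpow_le_one_of_one_le_of_nonpos (by exact_mod_cast h0) (by norm_num)
        have h4 : 0 ≤ (H : ℝ) ^ (-(1 / 4 : ℝ)) := by positivity
        exact h2.trans (mul_le_mul_of_nonneg_left (by linarith) hA)
      · rw [hv1]
        have h1 : (h i j : ℝ) ^ (-(1 / 4 : ℝ)) ≤ (H : ℝ) ^ (-(1 / 4 : ℝ)) :=
          Real.rpow_le_rpow_of_nonpos hH0 (by exact_mod_cast (not_le.1 c2).le) (by norm_num)
        have h4 := hu0 i j
        exact h2.trans (mul_le_mul_of_nonneg_left (by linarith) hA)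
  -- the first sum
  have S1 : ∑ i ∈ Y1, ∑ j ∈ Y2, v i j * (s i * t j) ≤ C1 * C2 := by
    rw [sum_comm]
    calc ∑ j ∈ Y2, ∑ i ∈ Y1, v i j * (s i * t j)
          = ∑ j ∈ Y2, t j * ∑ i ∈ Y1.filter (fun i => w i j ≠ 0), s i := by
            apply sum_congr rfl
            intro j _
            rw [sum_filter, mul_sum]
            apply sum_congr rfl
            intro i _
            simp only [hv]
            split_ifs <;> ring
        _ ≤ ∑ j ∈ Y2, t j * C1 := sum_le_sum fun j hj => mul_le_mul_of_nonneg_left (hrel j hj) (ht j hj)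
        _ = C1 * ∑ j ∈ Y2, t j := by rw [← sum_mul, mul_comm]
        _ ≤ C1 * C2 := mul_le_mul_of_nonneg_left hsum hC1
  -- the second sum
  have S2 : ∑ i ∈ Y1, ∑ j ∈ Y2, u i j * (s i * t j) ≤ P * Real.sqrt (lam * C2 * C3) := by
    set Q : Finset (ι × κ) := (Y1 ×ˢ Y2).filter (fun x => w x.1 x.2 ≠ 0 ∧ h x.1 x.2 ≤ H) with hQ
    have e0 : ∑ i ∈ Y1, ∑ j ∈ Y2, u i j * (s i * t j) = ∑ x ∈ Q, s x.1 * t x.2 := by
      rw [hQ, sum_filter, sum_product]
      apply sum_congr rfl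
      intro i _
      apply sum_congr rfl
      intro j _
      simp only [hu]
      split_ifs <;> ring
    have e1 : ∑ x ∈ Q, s x.1 ^ 2 ≤ P * C3 := by
      rw [hQ, sum_filter, sum_product]
      calc ∑ i ∈ Y1, ∑ j ∈ Y2, (if w i j ≠ 0 ∧ h i j ≤ H then s i ^ 2 else 0)
          = ∑ i ∈ Y1, ((Y2.filter (fun j => w i j ≠ 0 ∧ h i j ≤ H)).card : ℝ) * s i ^ 2 := by
            apply sum_congr rfl
            intro i _
            rw [← sum_filter, sum_const, nsmul_eq_mul]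
        _ ≤ ∑ i ∈ Y1, (P : ℝ) * s i ^ 2 := sum_le_sum fun i hi =>
            mul_le_mul_of_nonneg_right (by exact_mod_cast hp1 i hi) (sq_nonneg _)
        _ = P * ∑ i ∈ Y1, s i ^ 2 := by rw [mul_sum]
        _ ≤ P * C3 := mul_le_mul_of_nonneg_left hsq (Nat.cast_nonneg _)
    have e2 : ∑ x ∈ Q, t x.2 ^ 2 ≤ P * (lam * C2) := by
      calc ∑ x ∈ Q, t x.2 ^ 2 ≤ ∑ x ∈ Q, lam * t x.2 := by
            apply sum_le_sum
            intro x hx
            rw [hQ, mem_filter, mem_product] at hx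
            have h1 := hlight x.1 hx.1.1 x.2 hx.1.2 hx.2.1 hx.2.2
            rw [pow_two]
            exact mul_le_mul_of_nonneg_right h1 (ht _ hx.1.2)
        _ = ∑ j ∈ Y2, ((Y1.filter (fun i => w i j ≠ 0 ∧ h i j ≤ H)).card : ℝ) * (lam * t j) := by
            rw [hQ, sum_filter, sum_product_right]
            apply sum_congr rfl
            intro j _
            rw [← sum_filter]
            change ∑ _i ∈ Y1.filter (fun i => w i j ≠ 0 ∧ h i j ≤ H), lam * t j = _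
            rw [sum_const, nsmul_eq_mul]
        _ ≤ ∑ j ∈ Y2, (P : ℝ) * (lam * t j) := sum_le_sum fun j hj =>
            mul_le_mul_of_nonneg_right (by exact_mod_cast hp2 j hj) (mul_nonneg hlam (ht j hj))
        _ = P * (lam * ∑ j ∈ Y2, t j) := by rw [← mul_sum, ← mul_sum]
        _ ≤ P * (lam * C2) := mul_le_mul_of_nonneg_left (mul_le_mul_of_nonneg_left hsum hlam)
            (Nat.cast_nonneg _)
    rw [e0]
    have e3 := sum_mul_sq_le_sq_mul_sq Q (fun x => s x.1) (fun x => t x.2)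
    have e4 : (∑ x ∈ Q, s x.1 * t x.2) ^ 2 ≤ (P : ℝ) ^ 2 * (lam * C2 * C3) := by
      refine e3.trans ?_
      have h0 : 0 ≤ ∑ x ∈ Q, t x.2 ^ 2 := sum_nonneg fun _ _ => sq_nonneg _
      have h1 : 0 ≤ (P : ℝ) * C3 := le_trans (sum_nonneg fun _ _ => sq_nonneg _) e1
      calc (∑ x ∈ Q, s x.1 ^ 2) * ∑ x ∈ Q, t x.2 ^ 2 ≤ (P * C3) * (P * (lam * C2)) :=
            mul_le_mul e1 e2 h0 h1
        _ = (P : ℝ) ^ 2 * (lam * C2 * C3) := by ring
    calc ∑ x ∈ Q, s x.1 * t x.2 ≤ Real.sqrt ((P : ℝ) ^ 2 * (lam * C2 * C3)) := Real.le_sqrt_of_sq_le e4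
      _ = P * Real.sqrt (lam * C2 * C3) := by
          rw [Real.sqrt_mul (by positivity), Real.sqrt_sq (by positivity)]
  -- conclusion
  calc ∑ i ∈ Y1, ∑ j ∈ Y2, w i j * (s i * t j)
      ≤ ∑ i ∈ Y1, ∑ j ∈ Y2, A * ((H : ℝ) ^ (-(1 / 4 : ℝ)) * v i j + u i j) * (s i * t j) :=
        sum_le_sum fun i hi => sum_le_sum fun j hj =>
          mul_le_mul_of_nonneg_right (key i hi j hj) (mul_nonneg (hs i hi) (ht j hj))
    _ = A * ((H : ℝ) ^ (-(1 / 4 : ℝ)) * (∑ i ∈ Y1, ∑ j ∈ Y2, v i j * (s i * t j)) +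
          ∑ i ∈ Y1, ∑ j ∈ Y2, u i j * (s i * t j)) := by
        simp only [mul_add, mul_sum, ← sum_add_distrib]
        apply sum_congr rfl
        intro i _
        apply sum_congr rfl
        intro j _
        ring
    _ ≤ A * ((H : ℝ) ^ (-(1 / 4 : ℝ)) * (C1 * C2) + P * Real.sqrt (lam * C2 * C3)) := by
        apply mul_le_mul_of_nonneg_left _ hA
        exact add_le_add (mul_le_mul_of_nonneg_left S1 (by positivity)) S2

end Pool.MP_dd84fd_nt.BX
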