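import Pool.Agent.Lib.MP_dd84fd_nt.BX.As3
import Pool.Agent.Lib.MP_dd84fd_nt.BX.Pairs

/-!
# BX-As5: the sum over the pairs of primitive characters
-/

set_option autoImplicit false

namespace Pool.MP_dd84fd_nt.BX

open Finset Pool.MP_67663b_nt.Odd Pool.MP_dd84fd_nt.En Pool.MP_dd84fd_nt.E2 Pool.MP_dd84fd_nt.LS
open Pool.MP_dd84fd_nt.GX Pool.MP_dd84fd_nt.HX Pool.MP_dd84fd_nt.IX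
open Pool.MP_dd84fd_nt.PL (rr)
open Pool.MP_dd84fd_nt.JX (wP gP)
open Pool.MP_dd84fd_nt.LXP (tq)

theorem h0_comm (n : ℕ) (ψ₁ ψ₂ : PC) : h0 n ψ₁ ψ₂ = h0 n ψ₂ ψ₁ := by
  unfold h0
  rw [Nat.lcm_comm]

theorem cP_comm (ψ₁ ψ₂ : PC) : cP ψ₁ ψ₂ = cP ψ₂ ψ₁ := by
  unfold cP
  rw [mul_comm, Nat.lcm_comm]

/-- `a / (a, n)` divides `b / (b, n)` if `a` divides `b` -/
theorem div_gcd_dvd (a b n : ℕ) (hn : 1 ≤ n) (hab : a ∣ b) :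
    a / Nat.gcd a n ∣ b / Nat.gcd b n := by
  have key : ∀ m : ℕ, m / Nat.gcd m n * n = Nat.lcm m n := by
    intro m
    unfold Nat.lcm
    rw [Nat.div_mul_right_comm (Nat.gcd_dvd_left m n)]
  have h1 : Nat.lcm a n ∣ Nat.lcm b n := Nat.lcm_dvd (hab.trans (Nat.dvd_lcm_left _ _))
    (Nat.dvd_lcm_right _ _)
  rw [← key a, ← key b] at h1
  exact Nat.dvd_of_mul_dvd_mul_right (by omega) h1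

theorem as_h0_pos (n : ℕ) (ψ₁ ψ₂ : PC) (h1 : 1 ≤ ψ₁.1) (h2 : 1 ≤ ψ₂.1) : 1 ≤ h0 n ψ₁ ψ₂ := by
  unfold h0
  have h3 : 0 < Nat.lcm ψ₁.1 ψ₂.1 := Nat.lcm_pos (by omega) (by omega)
  exact Nat.div_pos (Nat.le_of_dvd h3 (Nat.gcd_dvd_left _ _))
    (Nat.gcd_pos_of_pos_left _ h3)

/-- `r₂ / (r₂, n)` divides `h₀` -/
theorem div_h0 (n : ℕ) (hn : 1 ≤ n) (ψ₁ ψ₂ : PC) :
    ψ₂.1 / Nat.gcd ψ₂.1 n ∣ h0 n ψ₁ ψ₂ :=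
  div_gcd_dvd _ _ n hn (Nat.dvd_lcm_right _ _)

/-- the sum over the pairs for one family of moduli -/
theorem pairs_bd (hP : ParBD) (C4 : ℝ) (hC4 : 0 < C4)
    (hG : ∀ n : ℕ, 1 ≤ n → ∀ ψ₁ ψ₂ : PC, IsPC ψ₁ → IsPC ψ₂ →
      ∀ QQ : Finset ℕ, (∀ q ∈ QQ, 1 ≤ q ∧ ψ₁.1 ∣ q ∧ ψ₂.1 ∣ q) →
      ∑ q ∈ QQ, cf q n (ind q ψ₁) (ind q ψ₂) ≤
        C4 * ((n : ℝ) / (Nat.totient n : ℝ)) * (h0 n ψ₁ ψ₂ : ℝ) ^ (-(1 / 4 : ℝ)) ∧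
      (¬ cP ψ₁ ψ₂ ∣ h0 n ψ₁ ψ₂ → ∀ q ∈ QQ, cf q n (ind q ψ₁) (ind q ψ₂) = 0))
    (n H : ℕ) (hn : 1 ≤ n) (hH : 1 ≤ H) (QQ : Finset ℕ) (hQ : ∀ q ∈ QQ, 1 ≤ q) (Y : Finset PC)
    (hY : ∀ ψ ∈ Y, IsPC ψ) (s : PC → ℝ) (hs : ∀ ψ ∈ Y, 0 ≤ s ψ) (C1 lam : ℝ) (hlam : 0 ≤ lam)
    (hC1 : ∑ ψ ∈ Y, s ψ ≤ C1)
    (hlight : ∀ ψ₁ ∈ Y, ∀ ψ₂ ∈ Y, cP ψ₁ ψ₂ ∣ h0 n ψ₁ ψ₂ → h0 n ψ₁ ψ₂ ≤ H → s ψ₂ ≤ lam) :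
    ∑ ψ₁ ∈ Y, ∑ ψ₂ ∈ Y, Wt QQ n ψ₁ ψ₂ * (s ψ₁ * s ψ₂) ≤
      C4 * ((n : ℝ) / (Nat.totient n : ℝ)) *
        ((H : ℝ) ^ (-(1 / 4 : ℝ)) * (C1 * C1) + ((H ^ 2 : ℕ) : ℝ) *
          Real.sqrt (lam * C1 * C1 ^ 2)) := by
  classical
  have hS0 : 0 ≤ ∑ ψ ∈ Y, s ψ := sum_nonneg hs
  have hC10 : 0 ≤ C1 := hS0.trans hC1
  have hfil : ∀ ψ₁ ψ₂ : PC, ∀ q ∈ QQ.filter (fun q => ψ₁.1 ∣ q ∧ ψ₂.1 ∣ q),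
      1 ≤ q ∧ ψ₁.1 ∣ q ∧ ψ₂.1 ∣ q := by
    intro ψ₁ ψ₂ q hq
    rw [mem_filter] at hq
    exact ⟨hQ q hq.1, hq.2.1, hq.2.2⟩
  have hdvd : ∀ ψ₁ ∈ Y, ∀ ψ₂ ∈ Y, Wt QQ n ψ₁ ψ₂ ≠ 0 → cP ψ₁ ψ₂ ∣ h0 n ψ₁ ψ₂ := by
    intro ψ₁ h1 ψ₂ h2 hne
    by_contra hcon
    apply hne
    unfold Wt
    exact sum_eq_zero ((hG n hn ψ₁ ψ₂ (hY _ h1) (hY _ h2) _ (hfil ψ₁ ψ₂)).2 hcon)
  refine pairs_sum Y Y (Wt QQ n) (h0 n) s s _ C1 C1 (C1 ^ 2) lam H (H ^ 2) (by positivity) hC10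
    hlam hH hs hs ?_ ?_ hC1 ?_ ?_ ?_ ?_
  · intro ψ₁ h1 ψ₂ h2
    exact (hG n hn ψ₁ ψ₂ (hY _ h1) (hY _ h2) _ (hfil ψ₁ ψ₂)).1
  · intro ψ₂ _
    exact (sum_le_sum_of_subset_of_nonneg (filter_subset _ _) fun ψ h _ => hs ψ h).trans hC1
  · calc ∑ ψ ∈ Y, s ψ ^ 2 ≤ ∑ ψ ∈ Y, s ψ * ∑ ψ' ∈ Y, s ψ' := by
          refine sum_le_sum fun ψ h => ?_
          rw [pow_two]
          exact mul_le_mul_of_nonneg_left (single_le_sum hs h) (hs ψ h)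
      _ = (∑ ψ ∈ Y, s ψ) ^ 2 := by rw [← sum_mul, pow_two]
      _ ≤ C1 ^ 2 := by gcongr
  · intro ψ₁ h1 ψ₂ h2 hne hle
    exact hlight ψ₁ h1 ψ₂ h2 (hdvd ψ₁ h1 ψ₂ h2 hne) hle
  · intro ψ₁ h1
    refine hP n H ψ₁ (hY _ h1) _ fun ψ₂ h2 => ?_
    rw [mem_filter] at h2
    rw [h0_comm n ψ₂ ψ₁, cP_comm ψ₂ ψ₁]
    exact ⟨hY _ h2.1, as_h0_pos n _ _ (hY _ h1).1 (hY _ h2.1).1, hdvd _ h1 _ h2.1 h2.2.1, h2.2.2⟩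
  · intro ψ₂ h2
    refine hP n H ψ₂ (hY _ h2) _ fun ψ₁ h1 => ?_
    rw [mem_filter] at h1
    exact ⟨hY _ h1.1, as_h0_pos n _ _ (hY _ h1.1).1 (hY _ h2).1, hdvd _ h1.1 _ h2 h1.2.1, h1.2.2⟩

/-- the family of one set of moduli is small, and its norms have a bounded sum -/
theorem fam_small (ν C c : ℝ) (hC : 0 < C) (X : ℕ) (hX : 1 ≤ X) (T δ : ℝ) (hδ : 0 < δ)
    (hS : ∀ Y : Finset PC, PFam Y ((X : ℝ) ^ (2 / 3 - ν)) → (∀ ψ ∈ Y, 2 ≤ ψ.1) →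
      (Y.card : ℝ) ≤ (X : ℝ) ^ c → ∑ ψ ∈ Y, sN X T ψ ≤ C)
    (hbig : C / δ + 1 < (X : ℝ) ^ c) (Y : Finset PC) (hY : PFam Y ((X : ℝ) ^ (2 / 3 - ν)))
    (h2 : ∀ ψ ∈ Y, 2 ≤ ψ.1) (hδY : ∀ ψ ∈ Y, δ ≤ sN X T ψ) : ∑ ψ ∈ Y, sN X T ψ ≤ C := by
  classical
  by_cases hcard : (Y.card : ℝ) ≤ (X : ℝ) ^ c
  · exact hS Y hY h2 hcard
  · exfalso
    push Not at hcard
    have hX0 : (0 : ℝ) ≤ (X : ℝ) ^ c := by positivity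
    obtain ⟨Y', hY', hc'⟩ := exists_subset_card_eq
      (show ⌊(X : ℝ) ^ c⌋₊ ≤ Y.card from Nat.floor_le_of_le hcard.le)
    have h3 : ∑ ψ ∈ Y', sN X T ψ ≤ C := by
      refine hS Y' (hY.mono hY') (fun ψ h => h2 ψ (hY' h)) ?_
      rw [hc']
      exact Nat.floor_le hX0
    have h4 : (Y'.card : ℝ) * δ ≤ ∑ ψ ∈ Y', sN X T ψ := by
      rw [← nsmul_eq_mul]
      exact card_nsmul_le_sum _ _ _ fun ψ h => hδY ψ (hY' h)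
    have h5 : (X : ℝ) ^ c - 1 < (Y'.card : ℝ) := by
      rw [hc']
      exact Nat.sub_one_lt_floor _
    have h6 : (Y'.card : ℝ) ≤ C / δ := by
      rw [le_div_iff₀ hδ]
      linarith
    linarith

end Pool.MP_dd84fd_nt.BX
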