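import Pool.Agent.Lib.MP_dd84fd_nt.BX.As5

/-!
# BX-As6: the moduli `d = r / h'` and one family of moduli `QQ`
-/

set_option autoImplicit false

namespace Pool.MP_dd84fd_nt.BX

open Finset Pool.MP_67663b_nt.Odd Pool.MP_dd84fd_nt.En Pool.MP_dd84fd_nt.E2 Pool.MP_dd84fd_nt.LS
open Pool.MP_dd84fd_nt.GX Pool.MP_dd84fd_nt.HX Pool.MP_dd84fd_nt.IX
open Pool.MP_dd84fd_nt.PL (rr)
open Pool.MP_dd84fd_nt.JX (wP gP)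
open Pool.MP_dd84fd_nt.LXP (tq)

open Classical in
/-- the heavy primitive characters with conductor in `(Z, R]` -/
noncomputable def Hv (X : ℕ) (T Z R κ : ℝ) : Finset PC :=
  (PR ⌊R⌋₊).filter (fun ψ => Z < (ψ.1 : ℝ) ∧ (ψ.1 : ℝ) ≤ R ∧ κ ≤ sN X T ψ)

theorem mem_Hv {X : ℕ} {T Z R κ : ℝ} {ψ : PC} :
    ψ ∈ Hv X T Z R κ ↔ IsPC ψ ∧ Z < (ψ.1 : ℝ) ∧ (ψ.1 : ℝ) ≤ R ∧ κ ≤ sN X T ψ := by
  classical
  unfold Hv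
  rw [mem_filter, mem_PR]
  constructor
  · rintro ⟨⟨_, h2⟩, h3, h4, h5⟩
    exact ⟨h2, h3, h4, h5⟩
  · rintro ⟨h2, h3, h4, h5⟩
    exact ⟨⟨Nat.le_floor h4, h2⟩, h3, h4, h5⟩

/-- the moduli `r / h`, `r` the conductor of a heavy character, `h ≤ H` -/
noncomputable def DD' (Y : Finset PC) (H : ℕ) : Finset ℕ :=
  ((Y ×ˢ Icc 1 H).filter (fun x => x.2 ∣ x.1.1)).image (fun x => x.1.1 / x.2)

theorem mem_DD' {Y : Finset PC} {H d : ℕ} :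
    d ∈ DD' Y H ↔ ∃ ψ ∈ Y, ∃ h : ℕ, 1 ≤ h ∧ h ≤ H ∧ h ∣ ψ.1 ∧ d = ψ.1 / h := by
  unfold DD'
  rw [mem_image]
  constructor
  · rintro ⟨⟨ψ, h⟩, hx, rfl⟩
    rw [mem_filter, mem_product, mem_Icc] at hx
    exact ⟨ψ, hx.1.1, h, hx.1.2.1, hx.1.2.2, hx.2, rfl⟩
  · rintro ⟨ψ, hψ, h, h1, h2, h3, rfl⟩
    refine ⟨⟨ψ, h⟩, ?_, rfl⟩
    rw [mem_filter, mem_product, mem_Icc]
    exact ⟨⟨hψ, h1, h2⟩, h3⟩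

theorem card_DD' (Y : Finset PC) (H : ℕ) : (DD' Y H).card ≤ Y.card * H := by
  unfold DD'
  refine card_image_le.trans ((card_filter_le _ _).trans ?_)
  rw [card_product, Nat.card_Icc, Nat.add_sub_cancel]

/-- one `n` and one family of moduli -/
theorem one_fam (hP : ParBD) (C4 : ℝ) (hC4 : 0 < C4)
    (hG : ∀ n : ℕ, 1 ≤ n → ∀ ψ₁ ψ₂ : PC, IsPC ψ₁ → IsPC ψ₂ →
      ∀ QQ : Finset ℕ, (∀ q ∈ QQ, 1 ≤ q ∧ ψ₁.1 ∣ q ∧ ψ₂.1 ∣ q) →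
      ∑ q ∈ QQ, cf q n (ind q ψ₁) (ind q ψ₂) ≤
        C4 * ((n : ℝ) / (Nat.totient n : ℝ)) * (h0 n ψ₁ ψ₂ : ℝ) ^ (-(1 / 4 : ℝ)) ∧
      (¬ cP ψ₁ ψ₂ ∣ h0 n ψ₁ ψ₂ → ∀ q ∈ QQ, cf q n (ind q ψ₁) (ind q ψ₂) = 0))
    (X n H A' : ℕ) (hX : 2 ≤ X) (hn : 1 ≤ n) (hH : 1 ≤ H) (T Z R ν C1 c κ : ℝ) (hZ : 1 ≤ Z)
    (hC1 : 0 < C1) (hκ : 0 < κ)
    (hS : ∀ Y : Finset PC, PFam Y ((X : ℝ) ^ (2 / 3 - ν)) → (∀ ψ ∈ Y, 2 ≤ ψ.1) →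
      (Y.card : ℝ) ≤ (X : ℝ) ^ c → ∑ ψ ∈ Y, sN X T ψ ≤ C1)
    (hL2 : 2 ≤ Real.log (X : ℝ))
    (hbig : C1 / (1 / (2 * (Real.log X) ^ A')) + 1 < (X : ℝ) ^ c)
    (hprc : ∀ q : ℕ, 1 ≤ q → q ≤ X → ∀ χ : DirichletCharacter ℂ q,
      sN X T ⟨q, χ⟩ ≤ sN X T (prc χ) + 1 / (Real.log X) ^ (A' + 1))
    (hR : R ≤ (X : ℝ) ^ (2 / 3 - ν)) (hRX : R ≤ X)
    (hD : ∀ d ∈ DD' (Hv X T Z R κ) H, ¬ d ∣ n)
    (QQ : Finset ℕ) (N : ℝ) (hQ : ∀ q ∈ QQ, 1 ≤ q)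
    (hN : ∀ q ∈ QQ, ∀ q' ∈ QQ, (Nat.lcm q q' : ℝ) ≤ N) (hNR : N ≤ R)
    (ρ : ℕ → ℝ) (hρ : ∀ q ∈ QQ, 0 ≤ ρ q ∧ ρ q ≤ T) :
    ∑ q ∈ QQ, ‖∑ a ∈ rr q, ∫ x in (-(ρ q / X))..(ρ q / X),
        VQ X q (YQ X T Z A' q) a x ^ 2 * ee (-((n : ℝ) * ((a : ℝ) / q + x)))‖ ≤
      (X : ℝ) / (Real.log X) ^ 2 * (C4 * ((n : ℝ) / (Nat.totient n : ℝ)) *
        ((H : ℝ) ^ (-(1 / 4 : ℝ)) * (2 * C1 * (2 * C1)) + ((H ^ 2 : ℕ) : ℝ) *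
          Real.sqrt (2 * κ * (2 * C1) * (2 * C1) ^ 2))) := by
  classical
  have hL0 : 0 < Real.log (X : ℝ) := by linarith
  set L : ℝ := Real.log (X : ℝ) with hLdef
  have hX0 : (0 : ℝ) < X := by exact_mod_cast (by omega : 0 < X)
  -- facts about the moduli
  have hqR : ∀ q ∈ QQ, (q : ℝ) ≤ R := by
    intro q hq
    have := hN q hq q hq
    rw [Nat.lcm_self] at this
    exact this.trans hNR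
  have hqX : ∀ q ∈ QQ, q ≤ X := by
    intro q hq
    exact_mod_cast (hqR q hq).trans hRX
  -- the characters
  have hYQ : ∀ q ∈ QQ, ∀ χ ∈ YQ X T Z A' q, Z < (χ.conductor : ℝ) ∧
      1 / L ^ A' < sN X T ⟨q, χ⟩ := by
    intro q hq χ hχ
    unfold YQ at hχ
    have hq0 : q ≠ 0 := by have := hQ q hq; omega
    rw [dif_neg hq0, mem_filter] at hχ
    exact hχ.2
  have hdouble : ∀ q ∈ QQ, ∀ χ ∈ YQ X T Z A' q, sN X T ⟨q, χ⟩ ≤ 2 * sN X T (prc χ) := by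
    intro q hq χ hχ
    have h1 := hprc q (hQ q hq) (hqX q hq) χ
    have h2 := (hYQ q hq χ hχ).2
    have h3 : 1 / L ^ (A' + 1) ≤ (1 / L ^ A') / 2 := by
      rw [pow_succ, ← one_div_mul_one_div, div_eq_mul_one_div (1 / L ^ A') 2]
      refine mul_le_mul_of_nonneg_left ?_ (by positivity)
      exact one_div_le_one_div_of_le (by norm_num) hL2
    linarith
  set Y : Finset PC := QQ.biUnion (fun q => (YQ X T Z A' q).image prc) with hYdef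
  have hYmem : ∀ ψ ∈ Y, ∃ q ∈ QQ, ∃ χ ∈ YQ X T Z A' q, prc χ = ψ := by
    intro ψ hψ
    rw [hYdef, mem_biUnion] at hψ
    obtain ⟨q, hq, hψ⟩ := hψ
    obtain ⟨χ, hχ, rfl⟩ := mem_image.1 hψ
    exact ⟨q, hq, χ, hχ, rfl⟩
  have hYPC : ∀ ψ ∈ Y, IsPC ψ := by
    intro ψ hψ
    obtain ⟨q, hq, χ, hχ, rfl⟩ := hYmem ψ hψ
    exact isPC_prc (hQ q hq) χ
  have hYZ : ∀ ψ ∈ Y, Z < (ψ.1 : ℝ) := by
    intro ψ hψ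
    obtain ⟨q, hq, χ, hχ, rfl⟩ := hYmem ψ hψ
    exact (hYQ q hq χ hχ).1
  have hYq : ∀ ψ ∈ Y, ∃ q ∈ QQ, ψ.1 ∣ q := by
    intro ψ hψ
    obtain ⟨q, hq, χ, hχ, rfl⟩ := hYmem ψ hψ
    exact ⟨q, hq, χ.conductor_dvd_level⟩
  have hYfam : PFam Y ((X : ℝ) ^ (2 / 3 - ν)) := by
    refine ⟨hYPC, fun ψ hψ ψ' hψ' => ?_⟩
    obtain ⟨q, hq, h1⟩ := hYq ψ hψ
    obtain ⟨q', hq', h1'⟩ := hYq ψ' hψ'
    have h2 : Nat.lcm ψ.1 ψ'.1 ∣ Nat.lcm q q' :=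
      Nat.lcm_dvd (h1.trans (Nat.dvd_lcm_left _ _)) (h1'.trans (Nat.dvd_lcm_right _ _))
    have h3 : 0 < Nat.lcm q q' := Nat.lcm_pos (hQ q hq) (hQ q' hq')
    have h4 : Nat.lcm ψ.1 ψ'.1 ≤ Nat.lcm q q' := Nat.le_of_dvd h3 h2
    have h5 : (Nat.lcm ψ.1 ψ'.1 : ℝ) ≤ (Nat.lcm q q' : ℝ) := by exact_mod_cast h4
    exact h5.trans ((hN q hq q' hq').trans (hNR.trans hR))
  have hY2 : ∀ ψ ∈ Y, 2 ≤ ψ.1 := by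
    intro ψ hψ
    have h1 : (1 : ℝ) < ψ.1 := lt_of_le_of_lt hZ (hYZ ψ hψ)
    exact_mod_cast h1
  have hYR : ∀ ψ ∈ Y, (ψ.1 : ℝ) ≤ R := by
    intro ψ hψ
    obtain ⟨q, hq, h1⟩ := hYq ψ hψ
    have h2 : ψ.1 ≤ q := Nat.le_of_dvd (hQ q hq) h1
    have h3 : (ψ.1 : ℝ) ≤ q := by exact_mod_cast h2
    exact h3.trans (hqR q hq)
  have hYδ : ∀ ψ ∈ Y, 1 / (2 * L ^ A') ≤ sN X T ψ := by
    intro ψ hψ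
    obtain ⟨q, hq, χ, hχ, rfl⟩ := hYmem ψ hψ
    have h1 := hdouble q hq χ hχ
    have h2 := (hYQ q hq χ hχ).2
    have h3 : 1 / (2 * L ^ A') = (1 / L ^ A') / 2 := by field_simp
    rw [h3]
    linarith
  have hsum : ∑ ψ ∈ Y, sN X T ψ ≤ C1 :=
    fam_small ν C1 c hC1 X (by omega) T (1 / (2 * L ^ A')) (by positivity) hS hbig Y hYfam hY2 hYδ
  -- first step: pairs of characters modulo q
  have step1 : ∑ q ∈ QQ, ‖∑ a ∈ rr q, ∫ x in (-(ρ q / X))..(ρ q / X),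
        VQ X q (YQ X T Z A' q) a x ^ 2 * ee (-((n : ℝ) * ((a : ℝ) / q + x)))‖ ≤
      (X : ℝ) / L ^ 2 * ∑ q ∈ QQ, ∑ χ₁ ∈ YQ X T Z A' q, ∑ χ₂ ∈ YQ X T Z A' q,
        cf q n χ₁ χ₂ * (sN X T ⟨q, χ₁⟩ * sN X T ⟨q, χ₂⟩) := by
    rw [mul_sum]
    refine sum_le_sum fun q hq => ?_
    refine (vq_pairs X q n T (ρ q) hX (hQ q hq) (hρ q hq).1 (hρ q hq).2 _).trans (le_of_eq ?_)
    rw [mul_sum]
    refine sum_congr rfl fun χ₁ _ => ?_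
    rw [mul_sum]
    refine sum_congr rfl fun χ₂ _ => ?_
    rw [← hLdef]
    ring
  refine step1.trans (mul_le_mul_of_nonneg_left ?_ (by positivity))
  -- second step: primitive characters
  have step2 := pairs_prim QQ n (fun q => YQ X T Z A' q) Y
    (fun q hq χ hχ => by
      rw [hYdef, mem_biUnion]
      exact ⟨q, hq, mem_image_of_mem _ hχ⟩)
    (fun ψ => 2 * sN X T ψ) (fun ψ _ => by have := sN_nonneg X T ψ; positivity)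
    (fun q χ => sN X T ⟨q, χ⟩)
    (fun q hq χ hχ => ⟨sN_nonneg X T _, hdouble q hq χ hχ⟩)
  refine step2.trans ?_
  refine pairs_bd hP C4 hC4 hG n H hn hH QQ hQ Y hYPC (fun ψ => 2 * sN X T ψ)
    (fun ψ _ => by have := sN_nonneg X T ψ; positivity) (2 * C1) (2 * κ) (by positivity)
    (by rw [← mul_sum]; linarith) ?_
  -- light pairs
  intro ψ₁ h1 ψ₂ h2 _ hle
  by_contra hcon
  push Not at hcon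
  have hheavy : ψ₂ ∈ Hv X T Z R κ :=
    mem_Hv.2 ⟨hYPC ψ₂ h2, hYZ ψ₂ h2, hYR ψ₂ h2, by linarith⟩
  have hr : 1 ≤ ψ₂.1 := (hYPC ψ₂ h2).1
  have hg : 0 < Nat.gcd ψ₂.1 n := Nat.gcd_pos_of_pos_left _ hr
  have hdiv := div_h0 n hn ψ₁ ψ₂
  have hh0 : 0 < h0 n ψ₁ ψ₂ := as_h0_pos n ψ₁ ψ₂ (hYPC ψ₁ h1).1 hr
  have hh1 : ψ₂.1 / Nat.gcd ψ₂.1 n ≤ H := (Nat.le_of_dvd hh0 hdiv).trans hle
  have hh2 : 1 ≤ ψ₂.1 / Nat.gcd ψ₂.1 n :=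
    Nat.div_pos (Nat.le_of_dvd hr (Nat.gcd_dvd_left _ _)) hg
  have hd1 : ψ₂.1 / Nat.gcd ψ₂.1 n ∣ ψ₂.1 := Nat.div_dvd_of_dvd (Nat.gcd_dvd_left _ _)
  have hd2 : ψ₂.1 / (ψ₂.1 / Nat.gcd ψ₂.1 n) = Nat.gcd ψ₂.1 n :=
    Nat.div_div_self (Nat.gcd_dvd_left _ _) (by omega)
  refine hD (Nat.gcd ψ₂.1 n) (mem_DD'.2 ⟨ψ₂, hheavy, _, hh2, hh1, hd1, hd2.symm⟩)
    (Nat.gcd_dvd_right _ _)

end Pool.MP_dd84fd_nt.BX
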