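import Pool.Agent.Lib.MP_dd84fd_nt.BX.As6
import Pool.Agent.Lib.MP_dd84fd_nt.BX.As2

/-!
# BX-As7: `GreedyBD` from its parts
-/

set_option autoImplicit false

namespace Pool.MP_dd84fd_nt.BX

open Finset Pool.MP_67663b_nt.Odd Pool.MP_dd84fd_nt.En Pool.MP_dd84fd_nt.E2 Pool.MP_dd84fd_nt.LS
open Pool.MP_dd84fd_nt.GX Pool.MP_dd84fd_nt.HX Pool.MP_dd84fd_nt.IX
open Pool.MP_dd84fd_nt.PL (rr)
open Pool.MP_dd84fd_nt.JX (wP gP)
open Pool.MP_dd84fd_nt.LXP (tq)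

private theorem a7_log (K : ℝ) : ∃ X0 : ℕ, ∀ X : ℕ, X0 ≤ X → K ≤ Real.log (X : ℝ) := by
  have h : Filter.Tendsto (fun n : ℕ => Real.log (n : ℝ)) Filter.atTop Filter.atTop :=
    Real.tendsto_log_atTop.comp tendsto_natCast_atTop_atTop
  exact Filter.eventually_atTop.1 (h.eventually_ge_atTop K)

/-- a power of `X` beats a power of the logarithm -/
private theorem a7_pow (C c : ℝ) (hc : 0 < c) (A : ℕ) :
    ∃ X0 : ℕ, ∀ X : ℕ, X0 ≤ X → C * (Real.log X) ^ A + 1 < (X : ℝ) ^ c := by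
  have h1 : (fun x : ℝ => Real.log x ^ A) =o[Filter.atTop] fun x : ℝ => x ^ c := by
    have := isLittleO_log_rpow_rpow_atTop (A : ℝ) hc
    refine this.congr' ?_ Filter.EventuallyEq.rfl
    exact Filter.Eventually.of_forall fun x => Real.rpow_natCast _ _
  have h2 : ∀ᶠ x : ℝ in Filter.atTop, ‖Real.log x ^ A‖ ≤ 1 / (2 * (|C| + 1)) * ‖x ^ c‖ :=
    h1.def (by positivity)
  have h3 : ∀ᶠ x : ℝ in Filter.atTop, 4 ≤ x ^ c :=
    (tendsto_rpow_atTop hc).eventually_ge_atTop 4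
  have h4 := (h2.and (h3.and (Filter.eventually_ge_atTop (1 : ℝ))))
  obtain ⟨X0, hX0⟩ := Filter.eventually_atTop.1 (tendsto_natCast_atTop_atTop.eventually h4)
  refine ⟨X0, fun X hX => ?_⟩
  obtain ⟨h5, h6, h7⟩ := hX0 X hX
  have hl : 0 ≤ Real.log (X : ℝ) := Real.log_nonneg h7
  have hp : 0 ≤ (X : ℝ) ^ c := by positivity
  rw [Real.norm_of_nonneg (by positivity), Real.norm_of_nonneg hp] at h5
  have h8 : C * Real.log (X : ℝ) ^ A ≤ |C| * (1 / (2 * (|C| + 1)) * (X : ℝ) ^ c) :=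
    (mul_le_mul_of_nonneg_right (le_abs_self C) (by positivity)).trans
      (mul_le_mul_of_nonneg_left h5 (abs_nonneg C))
  have h9 : |C| * (1 / (2 * (|C| + 1)) * (X : ℝ) ^ c) ≤ 1 / 2 * (X : ℝ) ^ c := by
    have h10 : |C| * (1 / (2 * (|C| + 1))) ≤ 1 / 2 := by
      rw [mul_one_div, div_le_div_iff₀ (by positivity) (by norm_num)]
      have := abs_nonneg C
      linarith
    calc |C| * (1 / (2 * (|C| + 1)) * (X : ℝ) ^ c) = |C| * (1 / (2 * (|C| + 1))) * (X : ℝ) ^ c := by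
          ring
      _ ≤ 1 / 2 * (X : ℝ) ^ c := by gcongr
  linarith

/-- the choice of `H` -/
private theorem a7_H (a ε : ℝ) (ha : 0 < a) (hε : 0 < ε) :
    ∃ H : ℕ, 1 ≤ H ∧ a * (H : ℝ) ^ (-(1 / 4 : ℝ)) ≤ ε := by
  have h1 : Filter.Tendsto (fun x : ℝ => x ^ (-(1 / 4 : ℝ))) Filter.atTop (nhds 0) :=
    tendsto_rpow_neg_atTop (by norm_num)
  have h2 : ∀ᶠ x : ℝ in Filter.atTop, x ^ (-(1 / 4 : ℝ)) < ε / a :=
    h1.eventually (gt_mem_nhds (by positivity))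
  obtain ⟨H, hH⟩ := ((tendsto_natCast_atTop_atTop.eventually h2).and
    (Filter.eventually_ge_atTop 1)).exists
  refine ⟨H, hH.2, ?_⟩
  have := hH.1.le
  rw [le_div_iff₀ ha] at this
  linarith

/-- `GreedyBD` from the six parts -/
theorem greedyBD (hA : ArcBD) (hG : GauBD) (hP : ParBD) (hS : SlBD) (hH : HvBD) (hE : ExBD) :
    GreedyBD := by
  intro e η he he' hη
  obtain ⟨C4, hC4, hG⟩ := hG
  obtain ⟨ν, hν⟩ : ∃ ν : ℝ, ν = 998 * e := ⟨_, rfl⟩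
  have hν0 : 0 < ν := by rw [hν]; positivity
  have hν1 : ν ≤ 1 / 20 := by rw [hν]; linarith
  obtain ⟨C1, c, hC1, hc, hS⟩ := hS ν hν0 hν1
  -- the choice of `H`
  obtain ⟨H, hH1, hH2⟩ := a7_H (C4 * (2 * C1 * (2 * C1))) (η / 4) (by positivity) (by positivity)
  have hHr : (1 : ℝ) ≤ H := by exact_mod_cast hH1
  -- the choice of `κ`
  obtain ⟨κ, hκ⟩ : ∃ κ : ℝ, κ = (η / (4 * C4 * H ^ 2)) ^ 2 / (2 * (2 * C1) * (2 * C1) ^ 2) :=
    ⟨_, rfl⟩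
  have hκ0 : 0 < κ := by rw [hκ]; positivity
  have hκ1 : C4 * (((H ^ 2 : ℕ) : ℝ) * Real.sqrt (2 * κ * (2 * C1) * (2 * C1) ^ 2)) ≤ η / 4 := by
    have e1 : 2 * κ * (2 * C1) * (2 * C1) ^ 2 = (η / (4 * C4 * H ^ 2)) ^ 2 := by
      rw [hκ]
      field_simp
    rw [e1, Real.sqrt_sq (by positivity)]
    apply le_of_eq
    push_cast
    field_simp
  obtain ⟨M0, hH⟩ := hH ν κ hν0 hκ0
  refine ⟨max (M0 * H) H, fun K1 K2 => ?_⟩
  obtain ⟨M', X1, hE⟩ := hE κ (K2 + 2) hκ0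
  refine ⟨M', fun th hth1 hth2 K => ?_⟩
  obtain ⟨A', D0, hA⟩ := hA e th he he' hth1 hth2 3 K1 K2 (K + 1)
  refine ⟨D0, fun D' hD' => ?_⟩
  obtain ⟨X2, hA⟩ := hA D' hD'
  obtain ⟨X3, hS⟩ := hS (K2 + 2)
  obtain ⟨X4, hH⟩ := hH (K2 + 2)
  obtain ⟨X5, hprc⟩ := sN_prc (A' + 1) (K2 + 2)
  obtain ⟨X6, hlog⟩ := a7_log (max (max 4 (H : ℝ)) (4 / η))
  obtain ⟨X7, hpow⟩ := a7_pow (C1 * 2) c hc A'
  refine ⟨max (max (max X1 X2) (max X3 X4)) (max (max X5 X6) (max X7 2)), fun X hX => ?_⟩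
  have hX1 : X1 ≤ X := by omega
  have hX2 : X2 ≤ X := by omega
  have hX3 : X3 ≤ X := by omega
  have hX4 : X4 ≤ X := by omega
  have hX5 : X5 ≤ X := by omega
  have hX6 : X6 ≤ X := by omega
  have hX7 : X7 ≤ X := by omega
  have hX8 : 2 ≤ X := by omega
  have hlog' := hlog X hX6
  have hpow' := hpow X hX7
  have hX0 : (0 : ℝ) < X := by exact_mod_cast (by omega : 0 < X)
  have hXr1 : (1 : ℝ) ≤ X := by exact_mod_cast (by omega : 1 ≤ X)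
  have hA := hA X hX2
  have hE := hE X hX1
  have hS := hS X hX3
  have hH := hH X hX4
  have hprc := hprc X hX5
  obtain ⟨L, hL⟩ : ∃ L : ℝ, L = Real.log (X : ℝ) := ⟨_, rfl⟩
  rw [← hL] at hlog' hpow' hA hE hS hH hprc
  have hL4 : 4 ≤ L := (le_max_left _ _).trans ((le_max_left _ _).trans hlog')
  have hLH : (H : ℝ) ≤ L := (le_max_right _ _).trans ((le_max_left _ _).trans hlog')
  have hLη : 4 / η ≤ L := (le_max_right _ _).trans hlog'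
  have hL0 : 0 < L := by linarith
  obtain ⟨T, hT⟩ : ∃ T : ℝ, T = 4 * L ^ K2 := ⟨_, rfl⟩
  have hT1 : 1 ≤ T := by
    have : (1 : ℝ) ≤ L ^ K2 := one_le_pow₀ (by linarith)
    rw [hT]
    linarith
  have hT2 : T ≤ L ^ (K2 + 2) := by
    rw [hT, pow_add, mul_comm]
    refine mul_le_mul_of_nonneg_left ?_ (by positivity)
    nlinarith
  obtain ⟨Z, hZ⟩ : ∃ Z : ℝ, Z = L ^ (K + 1) := ⟨_, rfl⟩
  have hZ1 : 1 ≤ Z := by rw [hZ]; exact one_le_pow₀ (by linarith)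
  obtain ⟨R, hR⟩ : ∃ R : ℝ, R = (X : ℝ) ^ (1 - th + 3 / 2 * e) := ⟨_, rfl⟩
  have hR1 : R ≤ (X : ℝ) ^ (2 / 3 - ν) := by
    rw [hR]
    refine Real.rpow_le_rpow_of_exponent_le hXr1 ?_
    rw [hν]
    linarith
  have hR2 : R ≤ (X : ℝ) ^ (1 - th + 3 * e) := by
    rw [hR]
    exact Real.rpow_le_rpow_of_exponent_le hXr1 (by linarith)
  have hR3 : R ≤ X := by
    refine hR1.trans ?_
    calc (X : ℝ) ^ (2 / 3 - ν) ≤ (X : ℝ) ^ (1 : ℝ) :=
          Real.rpow_le_rpow_of_exponent_le hXr1 (by linarith)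
      _ = X := Real.rpow_one _
  -- the heavy characters
  have hHv : (Hv X T Z R κ).card ≤ M0 := by
    refine hH T hT1 hT2 _ fun ψ hψ => ?_
    obtain ⟨h1, h2, h3, h4⟩ := mem_Hv.1 hψ
    refine ⟨h1, ?_, h3.trans hR1, h4⟩
    have h5 : (1 : ℝ) < ψ.1 := lt_of_le_of_lt hZ1 h2
    exact_mod_cast h5
  refine ⟨DD' (Hv X T Z R κ) H, ?_, ?_, ?_⟩
  · exact (card_DD' _ _).trans ((Nat.mul_le_mul_right H hHv).trans (le_max_left _ _))
  · intro d hd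
    obtain ⟨ψ, hψ, h, h1, h2, h3, rfl⟩ := mem_DD'.1 hd
    obtain ⟨g1, g2, g3, g4⟩ := mem_Hv.1 hψ
    have hmul : ψ.1 / h * h = ψ.1 := Nat.div_mul_cancel h3
    have hmulr : ((ψ.1 / h : ℕ) : ℝ) * h = ψ.1 := by exact_mod_cast hmul
    have hhr : (1 : ℝ) ≤ h := by exact_mod_cast h1
    have hhH : (h : ℝ) ≤ H := by exact_mod_cast h2
    refine ⟨?_, ?_, ?_⟩
    · rw [← hL]
      have h5 : L ^ K * h ≤ ((ψ.1 / h : ℕ) : ℝ) * h := by
        rw [hmulr]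
        refine le_trans ?_ g2.le
        rw [hZ, pow_succ]
        exact mul_le_mul_of_nonneg_left (hhH.trans hLH) (by positivity)
      exact le_of_mul_le_mul_right h5 (by linarith)
    · have h6 : ((ψ.1 / h : ℕ) : ℝ) ≤ ψ.1 := by exact_mod_cast Nat.div_le_self _ _
      exact h6.trans (g3.trans hR2)
    · obtain ⟨y, hy1, hy2⟩ := hE T hT1 hT2 ψ g4
      refine ⟨ψ.1, h, ψ.2, g1.2, h1, h2.trans (le_max_right _ _), hmul, y, hy1, ?_⟩
      rw [← hL]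
      exact hy2
  · intro n hn1 hn2 hDn QQ N ρ hQ hρ hN hcard hNle
    rw [← hL] at hQ hρ
    rw [← hL]
    have hn0 : 1 ≤ n := by omega
    have hmain := hA n hn1 hn2 QQ N ρ hQ hρ hN hcard hNle
    have hbig : C1 / (1 / (2 * (Real.log X) ^ A')) + 1 < (X : ℝ) ^ c := by
      rw [← hL]
      have e1 : C1 / (1 / (2 * L ^ A')) = C1 * 2 * L ^ A' := by field_simp
      rw [e1]
      exact hpow'
    have hfam := one_fam hP C4 hC4 hG X n H A' hX8 hn0 hH1 T Z R ν C1 c κ hZ1 hC1 hκ0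
      (hS T hT1 hT2) (by rw [← hL]; linarith) hbig
      (fun q hq1 hq2 χ => by rw [← hL]; exact hprc T hT1 hT2 q hq1 hq2 χ)
      hR1 hR3 hDn QQ N (fun q hq => (hQ q hq).1) hN (by rw [hR]; exact hNle) ρ
      (fun q hq => by rw [hT]; exact hρ q hq)
    rw [← hL, hT, hZ] at hfam
    refine hmain.trans ?_
    have hφ : (1 : ℝ) ≤ (n : ℝ) / (Nat.totient n : ℝ) := by
      have h1 : 0 < Nat.totient n := Nat.totient_pos.2 (by omega)
      rw [le_div_iff₀ (by exact_mod_cast h1), one_mul]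
      exact_mod_cast Nat.totient_le n
    obtain ⟨Φ, hΦ⟩ : ∃ Φ : ℝ, Φ = (n : ℝ) / (Nat.totient n : ℝ) := ⟨_, rfl⟩
    rw [← hΦ] at hfam hφ ⊢
    have hΦ0 : 0 ≤ Φ := by linarith
    have hXL : 0 ≤ (X : ℝ) / L ^ 2 := by positivity
    have b1 : (X : ℝ) / L ^ 2 * (C4 * Φ * ((H : ℝ) ^ (-(1 / 4 : ℝ)) * (2 * C1 * (2 * C1)) +
        ((H ^ 2 : ℕ) : ℝ) * Real.sqrt (2 * κ * (2 * C1) * (2 * C1) ^ 2))) ≤
        (X : ℝ) / L ^ 2 * (Φ * (η / 2)) := by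
      refine mul_le_mul_of_nonneg_left ?_ hXL
      calc C4 * Φ * ((H : ℝ) ^ (-(1 / 4 : ℝ)) * (2 * C1 * (2 * C1)) +
            ((H ^ 2 : ℕ) : ℝ) * Real.sqrt (2 * κ * (2 * C1) * (2 * C1) ^ 2))
          = Φ * (C4 * (2 * C1 * (2 * C1)) * (H : ℝ) ^ (-(1 / 4 : ℝ)) +
            C4 * (((H ^ 2 : ℕ) : ℝ) * Real.sqrt (2 * κ * (2 * C1) * (2 * C1) ^ 2))) := by ring
        _ ≤ Φ * (η / 4 + η / 4) := by
            refine mul_le_mul_of_nonneg_left (add_le_add hH2 hκ1) hΦ0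
        _ = Φ * (η / 2) := by ring
    have b2 : (X : ℝ) / L ^ 3 ≤ X / L ^ 2 * (Φ * (η / 2)) := by
      have h1 : (X : ℝ) / L ^ 3 = X / L ^ 2 * (1 / L) := by
        rw [pow_succ]
        field_simp
      rw [h1]
      refine mul_le_mul_of_nonneg_left ?_ hXL
      have h2 : 1 / L ≤ η / 4 := by
        rw [div_le_iff₀ hη] at hLη
        rw [div_le_div_iff₀ hL0 (by norm_num)]
        linarith
      have h3 : η / 2 ≤ Φ * (η / 2) := by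
        have : 0 ≤ η / 2 := by positivity
        nlinarith
      linarith
    calc _ ≤ (X : ℝ) / L ^ 2 * (Φ * (η / 2)) + X / L ^ 2 * (Φ * (η / 2)) :=
          add_le_add (hfam.trans b1) b2
      _ = η * Φ * (X / L ^ 2) := by ring

end Pool.MP_dd84fd_nt.BX
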