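import Pool.Agent.Lib.MP_dd84fd_nt.JX.Defs
import Pool.Agent.Lib.MP_dd84fd_nt.IX.FaDefs

/-!
# BX-PgDefs: boundedly many moduli at exponent 1/3, interface with JX (plug-in)

`GreedyBD` replaces `GreedyJ` for the family of the primes.  `M` depends only on `e`, `η`; `M'` also on
`K1`, `K2` (which are absolute once `A` is fixed).
-/

set_option autoImplicit false

namespace Pool.MP_dd84fd_nt.BX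

open Finset Pool.MP_67663b_nt.Odd Pool.MP_dd84fd_nt.En Pool.MP_dd84fd_nt.E2 Pool.MP_dd84fd_nt.LS
open Pool.MP_dd84fd_nt.L2G (nrm)
open Pool.MP_dd84fd_nt.GX Pool.MP_dd84fd_nt.HX Pool.MP_dd84fd_nt.IX
open Pool.MP_dd84fd_nt.PL (rr)
open Pool.MP_dd84fd_nt.JX (wP gP)

/-- `d = r/h`, `h ≤ M`, `r` the conductor of a primitive character with a large sum over primes -/
def Expl (M M' X d : ℕ) : Prop :=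
  ∃ (r h : ℕ) (χ : DirichletCharacter ℂ r), χ.IsPrimitive ∧ 1 ≤ h ∧ h ≤ M ∧ d * h = r ∧
    ∃ y : ℕ, y ≤ X ∧
      (X : ℝ) / (Real.log X) ^ M' ≤ ‖∑ p ∈ (Icc 1 y).filter Nat.Prime, χ (p : ZMod r)‖

/-- the discs with `q ≤ L^K1 (q,n)`, radii `≤ 4 L^K2 / X`: total `≤ R` -/
def GoodB (th e : ℝ) (ww gg : ℕ → ℕ → ℝ) (w X n K1 K2 : ℕ) (R : ℝ) : Prop :=
  ∀ (QQ : Finset ℕ) (N : ℝ) (ρ : ℕ → ℝ),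
    (∀ q ∈ QQ, 1 ≤ q ∧ (q : ℝ) ≤ (Real.log X) ^ K1 * (Nat.gcd q n : ℝ)) →
    (∀ q ∈ QQ, 0 ≤ ρ q ∧ ρ q ≤ 4 * (Real.log X) ^ K2) →
    (∀ q ∈ QQ, ∀ q' ∈ QQ, (Nat.lcm q q' : ℝ) ≤ N) → (QQ.card : ℝ) ≤ (X : ℝ) ^ (e / 2) →
    N ≤ (X : ℝ) ^ (1 - th + 3 / 2 * e) →
    ‖∑ q ∈ QQ, dsc (FFI ww gg w X n) X q (ρ q)‖ ≤ R

/-- boundedly many moduli -/
def GreedyBD : Prop := ∀ e η : ℝ, 0 < e → 20000 * e ≤ 1 → 0 < η → ∃ M : ℕ, ∀ K1 K2 : ℕ,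
  ∃ M' : ℕ, ∀ th : ℝ, 1 / 3 + 1000 * e ≤ th → th ≤ 1 / 2 → ∀ K : ℕ,
  ∃ D0 : ℕ, ∀ D' : ℕ, D0 ≤ D' → ∃ X0 : ℕ, ∀ X : ℕ, X0 ≤ X → ∃ D : Finset ℕ, D.card ≤ M ∧
    (∀ d ∈ D, (Real.log X) ^ K ≤ (d : ℝ) ∧ (d : ℝ) ≤ (X : ℝ) ^ (1 - th + 3 * e) ∧
      Expl M M' X d) ∧
    ∀ n : ℕ, X < 2 * n → n ≤ X → (∀ d ∈ D, ¬ d ∣ n) →
      GoodB th e wP gP (wX D' X) X n K1 K2
        (η * ((n : ℝ) / (Nat.totient n : ℝ)) * (X / (Real.log X) ^ 2))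

/-- GEN with boundedly many moduli, for the primes -/
def GenBD : Prop := ∀ (A : ℕ) (e η : ℝ), 0 < e → 20000 * e ≤ 1 → 0 < η → ∃ M : ℕ,
  ∀ th : ℝ, 1 / 3 + 1000 * e ≤ th → th ≤ 1 / 2 → ∀ K : ℕ,
  ∃ D0 : ℕ, ∀ D' : ℕ, D0 ≤ D' → ∃ X0 : ℕ, ∀ X : ℕ, X0 ≤ X → ∃ D Ex : Finset ℕ, D.card ≤ M ∧
    (∀ d ∈ D, (Real.log X) ^ K ≤ (d : ℝ) ∧ (d : ℝ) ≤ (X : ℝ) ^ (1 - th + 3 * e) ∧
      Expl M M X d) ∧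
    (Ex.card : ℝ) ≤ (X : ℝ) ^ (th - e / 4) ∧
    ∀ n : ℕ, X < 2 * n → n ≤ X → Even n → n ∉ Ex → (∀ d ∈ D, ¬ d ∣ n) →
      |cvv (wP X) (wP X) n - cvv (fI gP X (wX D' X)) (fI gP X (wX D' X)) n| ≤
        X / (Real.log X) ^ A + η * ((n : ℝ) / (Nat.totient n : ℝ)) * (X / (Real.log X) ^ 2)

/-- the asymptotic formula up to `η` with boundedly many moduli -/
def FinBD : Prop := ∀ η ε : ℝ, 0 < η → 0 < ε → ∃ M : ℕ, ∀ θ : ℝ, 1 / 3 ≤ θ → θ ≤ 1 →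
  ∀ K : ℕ, ∃ X0 : ℕ, ∀ X : ℕ, X0 ≤ X → ∃ D : Finset ℕ, D.card ≤ M ∧
    (∀ d ∈ D, (Real.log X) ^ K ≤ (d : ℝ) ∧ (d : ℝ) ≤ (X : ℝ) ^ (1 - θ) ∧ Expl M M X d) ∧
    ∀ P : ℕ → Prop, ∀ _ : DecidablePred P,
      (∀ n, P n → X < 2 * n ∧ Even n ∧ (∀ d ∈ D, ¬ d ∣ n) ∧
        η * (SS n * JJ n) < |(g n : ℝ) - SS n * JJ n|) →
      (((Icc 1 X).filter P).card : ℝ) ≤ (X : ℝ) ^ (θ + ε)

end Pool.MP_dd84fd_nt.BX
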