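import Pool.Agent.Lib.MP_dd84fd_nt.BX.LsA
import Pool.Agent.Lib.MP_dd84fd_nt.BX.PgDefs
import Pool.Agent.Lib.MP_dd84fd_nt.LX.PwDefs

/-!
# BX-AsDefs: boundedly many moduli, interface of the assembly (helper3)

`PC`, `pv`, `IsPC`, `PFam`: BX/LsA.  `SX X ψ x`: the exponential sum over the primes twisted by `ψ`;
`sN`: its normalised `L²` norm on `|x| ≤ T/X`; `ind q ψ`: the character modulo `q` induced by `ψ`;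
`prc χ`: the primitive character which induces `χ`; `cf`: the coefficient of a pair of characters
modulo `q`; `VQ`: the part of the exponential sum near `a/q` which belongs to the characters in `Yq`.
-/

set_option autoImplicit false

namespace Pool.MP_dd84fd_nt.BX

open Finset Pool.MP_67663b_nt.Odd Pool.MP_dd84fd_nt.En Pool.MP_dd84fd_nt.E2 Pool.MP_dd84fd_nt.LS
open Pool.MP_dd84fd_nt.GX Pool.MP_dd84fd_nt.HX Pool.MP_dd84fd_nt.IX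
open Pool.MP_dd84fd_nt.PL (rr)
open Pool.MP_dd84fd_nt.JX (wP gP)
open Pool.MP_dd84fd_nt.LXP (tq)

/-- `∑_{n ≤ X} wP(n) ψ(n) e(nx)` -/
noncomputable def SX (X : ℕ) (ψ : PC) (x : ℝ) : ℂ :=
  ∑ n ∈ Icc 1 X, ((wP X n : ℝ) : ℂ) * pv ψ n * ee ((n : ℝ) * x)

/-- `(L / √X) ‖SX X ψ‖` in `L²(|x| ≤ T/X)` -/
noncomputable def sN (X : ℕ) (T : ℝ) (ψ : PC) : ℝ :=
  Real.log X / Real.sqrt X * Real.sqrt (∫ x in (-(T / X))..(T / X), ‖SX X ψ x‖ ^ 2)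

open Classical in
/-- the character modulo `q` induced by `ψ` -/
noncomputable def ind (q : ℕ) (ψ : PC) : DirichletCharacter ℂ q :=
  if h : ψ.1 ∣ q then DirichletCharacter.changeLevel h ψ.2 else 1

/-- the primitive character which induces `χ` -/
noncomputable def prc {q : ℕ} (χ : DirichletCharacter ℂ q) : PC := ⟨χ.conductor, χ.primitiveCharacter⟩

/-- the Ramanujan sum of a character -/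
noncomputable def Rm (q n : ℕ) (χ : DirichletCharacter ℂ q) : ℂ :=
  ∑ a ∈ rr q, χ (a : ZMod q) * ee (-((n : ℝ) * ((a : ℝ) / q)))

open Classical in
/-- the coefficient of a pair of characters modulo `q` -/
noncomputable def cf (q n : ℕ) (χ₁ χ₂ : DirichletCharacter ℂ q) : ℝ :=
  if h : q = 0 then 0 else
    haveI : NeZero q := ⟨h⟩
    ‖tq q χ₁⁻¹‖ * ‖tq q χ₂⁻¹‖ * ‖Rm q n (χ₁ * χ₂)‖ / (Nat.totient q : ℝ) ^ 2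

open Classical in
/-- the part of the exponential sum at `a/q + x` which belongs to the characters in `Yq` -/
noncomputable def VQ (X q : ℕ) (Yq : Finset (DirichletCharacter ℂ q)) (a : ℕ) (x : ℝ) : ℂ :=
  if h : q = 0 then 0 else
    haveI : NeZero q := ⟨h⟩
    (1 / (Nat.totient q : ℂ)) * ∑ χ ∈ Yq, tq q χ⁻¹ * χ (a : ZMod q) * SX X ⟨q, χ⟩ x

open Classical in
/-- the characters modulo `q` with conductor `> Z` and norm `> L^(-A')` -/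
noncomputable def YQ (X : ℕ) (T Z : ℝ) (A' q : ℕ) : Finset (DirichletCharacter ℂ q) :=
  if h : q = 0 then ∅ else
    haveI : NeZero q := ⟨h⟩
    univ.filter (fun χ => Z < (χ.conductor : ℝ) ∧ 1 / (Real.log X) ^ A' < sN X T ⟨q, χ⟩)

/-- `h₀ = [r₁, r₂] / ([r₁, r₂], n)` -/
def h0 (n : ℕ) (ψ₁ ψ₂ : PC) : ℕ := Nat.lcm ψ₁.1 ψ₂.1 / Nat.gcd (Nat.lcm ψ₁.1 ψ₂.1) n

/-- the conductor of `ψ₁ ψ₂` -/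
noncomputable def cP (ψ₁ ψ₂ : PC) : ℕ :=
  (ind (Nat.lcm ψ₁.1 ψ₂.1) ψ₁ * ind (Nat.lcm ψ₁.1 ψ₂.1) ψ₂).conductor

/-! ### What the assembly uses -/

/-- (ARC) reduction of the discs to the characters of large conductor and large norm -/
def ArcBD : Prop := ∀ (e th : ℝ), 0 < e → 20000 * e ≤ 1 → 1 / 3 + 1000 * e ≤ th → th ≤ 1 / 2 →
  ∀ A K1 K2 K' : ℕ, ∃ A' D0 : ℕ, ∀ D' : ℕ, D0 ≤ D' → ∃ X0 : ℕ, ∀ X : ℕ, X0 ≤ X →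
    ∀ n : ℕ, X < 2 * n → n ≤ X → ∀ (QQ : Finset ℕ) (N : ℝ) (ρ : ℕ → ℝ),
    (∀ q ∈ QQ, 1 ≤ q ∧ (q : ℝ) ≤ (Real.log X) ^ K1 * (Nat.gcd q n : ℝ)) →
    (∀ q ∈ QQ, 0 ≤ ρ q ∧ ρ q ≤ 4 * (Real.log X) ^ K2) →
    (∀ q ∈ QQ, ∀ q' ∈ QQ, (Nat.lcm q q' : ℝ) ≤ N) → (QQ.card : ℝ) ≤ (X : ℝ) ^ (e / 2) →
    N ≤ (X : ℝ) ^ (1 - th + 3 / 2 * e) →
    ‖∑ q ∈ QQ, dsc (FFI wP gP (wX D' X) X n) X q (ρ q)‖ ≤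
      (∑ q ∈ QQ, ‖∑ a ∈ rr q, ∫ x in (-(ρ q / X))..(ρ q / X),
        VQ X q (YQ X (4 * (Real.log X) ^ K2) ((Real.log X) ^ K') A' q) a x ^ 2 *
          ee (-((n : ℝ) * ((a : ℝ) / q + x)))‖) + X / (Real.log X) ^ A

/-- (G4) the sum over the moduli for one pair of primitive characters -/
def GauBD : Prop := ∃ C : ℝ, 0 < C ∧ ∀ n : ℕ, 1 ≤ n → ∀ ψ₁ ψ₂ : PC, IsPC ψ₁ → IsPC ψ₂ →
  ∀ QQ : Finset ℕ, (∀ q ∈ QQ, 1 ≤ q ∧ ψ₁.1 ∣ q ∧ ψ₂.1 ∣ q) →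
    ∑ q ∈ QQ, cf q n (ind q ψ₁) (ind q ψ₂) ≤
      C * ((n : ℝ) / (Nat.totient n : ℝ)) * (h0 n ψ₁ ψ₂ : ℝ) ^ (-(1 / 4 : ℝ)) ∧
    (¬ cP ψ₁ ψ₂ ∣ h0 n ψ₁ ψ₂ → ∀ q ∈ QQ, cf q n (ind q ψ₁) (ind q ψ₂) = 0)

/-- (G5) the number of partners -/
def ParBD : Prop := ∀ (n H : ℕ) (ψ₂ : PC), IsPC ψ₂ → ∀ Y : Finset PC,
  (∀ ψ₁ ∈ Y, IsPC ψ₁ ∧ 1 ≤ h0 n ψ₁ ψ₂ ∧ cP ψ₁ ψ₂ ∣ h0 n ψ₁ ψ₂ ∧ h0 n ψ₁ ψ₂ ≤ H) → Y.card ≤ H ^ 2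

/-- (SL1) the log-free `l¹` bound -/
def SlBD : Prop := ∀ ν : ℝ, 0 < ν → ν ≤ 1 / 20 → ∃ C c : ℝ, 0 < C ∧ 0 < c ∧ ∀ B : ℕ, ∃ X0 : ℕ,
  ∀ X : ℕ, X0 ≤ X → ∀ T : ℝ, 1 ≤ T → T ≤ (Real.log X) ^ B → ∀ Y : Finset PC,
    PFam Y ((X : ℝ) ^ (2 / 3 - ν)) → (∀ ψ ∈ Y, 2 ≤ ψ.1) → (Y.card : ℝ) ≤ (X : ℝ) ^ c →
    ∑ ψ ∈ Y, sN X T ψ ≤ C

/-- (LSH) the number of heavy characters -/
def HvBD : Prop := ∀ ε κ : ℝ, 0 < ε → 0 < κ → ∃ M : ℕ, ∀ B : ℕ, ∃ X0 : ℕ, ∀ X : ℕ, X0 ≤ X →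
  ∀ T : ℝ, 1 ≤ T → T ≤ (Real.log X) ^ B → ∀ Y : Finset PC,
    (∀ ψ ∈ Y, IsPC ψ ∧ 2 ≤ ψ.1 ∧ (ψ.1 : ℝ) ≤ (X : ℝ) ^ (2 / 3 - ε) ∧ κ ≤ sN X T ψ) → Y.card ≤ M

/-- (ED) a character with large norm has a large sum over primes -/
def ExBD : Prop := ∀ (κ : ℝ) (B : ℕ), 0 < κ → ∃ (M' X0 : ℕ), ∀ X : ℕ, X0 ≤ X → ∀ T : ℝ, 1 ≤ T →
  T ≤ (Real.log X) ^ B → ∀ ψ : PC, κ ≤ sN X T ψ → ∃ y : ℕ, y ≤ X ∧
    (X : ℝ) / (Real.log X) ^ M' ≤ ‖∑ p ∈ (Icc 1 y).filter Nat.Prime, ψ.2 (p : ZMod ψ.1)‖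

end Pool.MP_dd84fd_nt.BX
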