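import Pool.Agent.Lib.MP_dd84fd_nt.En.Vz

/-!
# BX-BrA: the Brun-Hooley majorant (helper33), combinatorial part

`fr B x r = Σ_{T ⊆ B, #T ≤ r} ∏_{p ∈ T} (-x p)`; for even `r` and `0 ≤ x ≤ 1`:
`∏ (1 - x) ≤ fr ≤ ∏ (1 - x) + (Σ x)^(r+1)/(r+1)!` (`bonf`).
`Ef J B r`: the subsets `T` of `⋃_{j<J} B_j` with `#(T ∩ B_j) ≤ r_j`; `∏_j fr = Σ_{T ∈ Ef} ∏ (-x)` (`ef_prod`).
-/

set_option autoImplicit false

namespace Pool.MP_dd84fd_nt.BX

open Finset

/-- truncated product -/
noncomputable def fr (B : Finset ℕ) (x : ℕ → ℝ) (r : ℕ) : ℝ :=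
  ∑ T ∈ B.powerset.filter (fun T => T.card ≤ r), ∏ p ∈ T, (-x p)

/-- subsets of the union of the blocks with at most `r j` elements in the block `j` -/
def Ef (J : ℕ) (B : ℕ → Finset ℕ) (r : ℕ → ℕ) : Finset (Finset ℕ) :=
  ((range J).biUnion B).powerset.filter (fun T => ∀ j ∈ range J, (T ∩ B j).card ≤ r j)

theorem fr_empty (x : ℕ → ℝ) (r : ℕ) : fr ∅ x r = 1 := by
  unfold fr
  rw [powerset_empty, filter_singleton, if_pos (by simp), sum_singleton, prod_empty]

theorem fr_zero (B : Finset ℕ) (x : ℕ → ℝ) : fr B x 0 = 1 := by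
  unfold fr
  have : B.powerset.filter (fun T => T.card ≤ 0) = {∅} := by
    ext T
    simp only [mem_filter, mem_powerset, nonpos_iff_eq_zero, card_eq_zero, mem_singleton]
    constructor
    · rintro ⟨-, h⟩; exact h
    · rintro rfl; exact ⟨empty_subset _, rfl⟩
  rw [this, sum_singleton, prod_empty]

theorem fr_insert (B : Finset ℕ) (x : ℕ → ℝ) (r : ℕ) (p : ℕ) (hp : p ∉ B) :
    fr (insert p B) x (r + 1) = fr B x (r + 1) - x p * fr B x r := by
  unfold fr
  rw [powerset_insert, filter_union, sum_union]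
  · have h1 : (B.powerset.image (insert p)).filter (fun T => T.card ≤ r + 1) =
        (B.powerset.filter (fun T => T.card ≤ r)).image (insert p) := by
      ext T
      simp only [mem_filter, mem_image, mem_powerset]
      constructor
      · rintro ⟨⟨U, hU, rfl⟩, h⟩
        rw [card_insert_of_notMem (fun h => hp (hU h))] at h
        exact ⟨U, ⟨hU, by omega⟩, rfl⟩
      · rintro ⟨U, ⟨hU, h⟩, rfl⟩
        refine ⟨⟨U, hU, rfl⟩, ?_⟩
        rw [card_insert_of_notMem (fun h => hp (hU h))]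
        omega
    rw [h1, sum_image]
    · rw [sub_eq_add_neg, mul_sum]
      congr 1
      rw [← sum_neg_distrib]
      refine sum_congr rfl fun U hU => ?_
      rw [mem_filter, mem_powerset] at hU
      rw [prod_insert (fun h => hp (hU.1 h))]
      ring
    · intro U hU V hV h
      rw [mem_coe, mem_filter, mem_powerset] at hU hV
      have h2 : (insert p U).erase p = (insert p V).erase p := congrArg (fun W => W.erase p) h
      rwa [erase_insert (fun h => hp (hU.1 h)), erase_insert (fun h => hp (hV.1 h))] at h2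
  · rw [disjoint_left]
    intro T hT hT'
    simp only [mem_filter, mem_powerset, mem_image] at hT hT'
    obtain ⟨⟨U, -, rfl⟩, -⟩ := hT'
    exact hp (hT.1 (mem_insert_self p U))

/-- Bonferroni, both parities: `δ_r = (-1)^r (fr - ∏ (1-x))` satisfies
`0 ≤ δ_r ≤ (Σ x)^(r+1)/(r+1)!` -/
theorem bonf_aux (B : Finset ℕ) (x : ℕ → ℝ) (h0 : ∀ p ∈ B, 0 ≤ x p) (h1 : ∀ p ∈ B, x p ≤ 1) :
    ∀ r : ℕ, 0 ≤ (-1 : ℝ) ^ r * (fr B x r - ∏ p ∈ B, (1 - x p)) ∧
      (-1 : ℝ) ^ r * (fr B x r - ∏ p ∈ B, (1 - x p)) ≤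
        (∑ p ∈ B, x p) ^ (r + 1) / (Nat.factorial (r + 1) : ℝ) := by
  classical
  induction B using Finset.induction_on with
  | empty =>
    intro r
    rw [fr_empty, prod_empty, sum_empty]
    simp
  | insert p B hp ih =>
    have h0' : ∀ q ∈ B, 0 ≤ x q := fun q hq => h0 q (mem_insert_of_mem hq)
    have h1' : ∀ q ∈ B, x q ≤ 1 := fun q hq => h1 q (mem_insert_of_mem hq)
    have hx0 : 0 ≤ x p := h0 p (mem_insert_self p B)
    have hx1 : x p ≤ 1 := h1 p (mem_insert_self p B)
    have ih' := ih h0' h1'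
    have hP0 : 0 ≤ ∏ q ∈ B, (1 - x q) := prod_nonneg fun q hq => by linarith [h1' q hq]
    have hP1 : ∏ q ∈ B, (1 - x q) ≤ 1 :=
      prod_le_one (fun q hq => by linarith [h1' q hq]) (fun q hq => by linarith [h0' q hq])
    have hS : 0 ≤ ∑ q ∈ B, x q := sum_nonneg h0'
    intro r
    rw [prod_insert hp, sum_insert hp]
    cases r with
    | zero =>
      rw [fr_zero]
      have h2 := ih' 0
      rw [fr_zero] at h2
      simp only [pow_zero, one_mul, zero_add, pow_one, Nat.factorial_one, Nat.cast_one, div_one]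
        at h2 ⊢
      constructor
      · nlinarith [h2.1]
      · nlinarith [h2.2]
    | succ r =>
      rw [fr_insert B x r p hp]
      obtain ⟨a1, a2⟩ := ih' (r + 1)
      obtain ⟨b1, b2⟩ := ih' r
      have e1 : (-1 : ℝ) ^ (r + 1) * (fr B x (r + 1) - x p * fr B x r - (1 - x p) *
          ∏ q ∈ B, (1 - x q)) = (-1 : ℝ) ^ (r + 1) * (fr B x (r + 1) - ∏ q ∈ B, (1 - x q)) +
          x p * ((-1 : ℝ) ^ r * (fr B x r - ∏ q ∈ B, (1 - x q))) := by
        rw [pow_succ]; ring
      rw [e1]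
      refine ⟨add_nonneg a1 (mul_nonneg hx0 b1), ?_⟩
      refine (add_le_add a2 (mul_le_mul_of_nonneg_left b2 hx0)).trans ?_
      -- s^(r+2)/(r+2)! + x s^(r+1)/(r+1)! ≤ (x+s)^(r+2)/(r+2)!
      have hf : (Nat.factorial (r + 1 + 1) : ℝ) = (r + 2) * Nat.factorial (r + 1) := by
        rw [Nat.factorial_succ]; push_cast; ring
      have hfp : (0 : ℝ) < Nat.factorial (r + 1) := by exact_mod_cast Nat.factorial_pos _
      have key : (∑ q ∈ B, x q) ^ (r + 2) + (r + 2) * x p * (∑ q ∈ B, x q) ^ (r + 1) ≤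
          (x p + ∑ q ∈ B, x q) ^ (r + 2) := by
        generalize (∑ q ∈ B, x q) = s at hS
        generalize x p = y at hx0
        clear e1 a1 a2 b1 b2 ih ih' hf hfp
        induction r with
        | zero =>
          have h5 := sq_nonneg y
          simp only [zero_add, Nat.cast_zero, pow_one]
          nlinarith
        | succ r ih =>
          have h3 : (s ^ (r + 2) + (r + 2) * y * s ^ (r + 1)) * (y + s) ≤
              (y + s) ^ (r + 2) * (y + s) := mul_le_mul_of_nonneg_right ih (by linarith)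
          have h4 : 0 ≤ ((r : ℝ) + 2) * y ^ 2 * s ^ (r + 1) := by positivity
          calc s ^ (r + 1 + 2) + (((r + 1 : ℕ) : ℝ) + 2) * y * s ^ (r + 1 + 1)
              ≤ (s ^ (r + 2) + (r + 2) * y * s ^ (r + 1)) * (y + s) := by
                push_cast
                have : (s ^ (r + 2) + (r + 2) * y * s ^ (r + 1)) * (y + s) =
                    s ^ (r + 1 + 2) + (((r : ℝ) + 1) + 2) * y * s ^ (r + 1 + 1) +
                      ((r : ℝ) + 2) * y ^ 2 * s ^ (r + 1) := by ring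
                rw [this]
                linarith
            _ ≤ _ := h3
            _ = _ := by ring
      rw [hf, div_add' _ _ _ (by positivity), div_le_div_iff_of_pos_right (by positivity)]
      have e2 : x p * ((∑ q ∈ B, x q) ^ (r + 1) / (Nat.factorial (r + 1) : ℝ)) *
          ((r + 2) * Nat.factorial (r + 1)) = (r + 2) * x p * (∑ q ∈ B, x q) ^ (r + 1) := by
        field_simp
      rw [e2]
      exact key

/-- Bonferroni for even `r` -/
theorem bonf (B : Finset ℕ) (x : ℕ → ℝ) (h0 : ∀ p ∈ B, 0 ≤ x p) (h1 : ∀ p ∈ B, x p ≤ 1) (b : ℕ) :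
    ∏ p ∈ B, (1 - x p) ≤ fr B x (2 * b) ∧ fr B x (2 * b) ≤ ∏ p ∈ B, (1 - x p) +
      (∑ p ∈ B, x p) ^ (2 * b + 1) / (Nat.factorial (2 * b + 1) : ℝ) := by
  obtain ⟨h2, h3⟩ := bonf_aux B x h0 h1 (2 * b)
  rw [pow_mul, neg_one_sq, one_pow, one_mul] at h2 h3
  constructor <;> linarith

/-- the product of the truncated products -/
theorem ef_prod (J : ℕ) (B : ℕ → Finset ℕ) (r : ℕ → ℕ) (x : ℕ → ℝ)
    (hd : ∀ i < J, ∀ j < J, i ≠ j → Disjoint (B i) (B j)) :
    ∏ j ∈ range J, fr (B j) x (r j) = ∑ T ∈ Ef J B r, ∏ p ∈ T, (-x p) := by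
  classical
  induction J with
  | zero =>
    unfold Ef
    simp
  | succ J ih =>
    have hd' : ∀ i < J, ∀ j < J, i ≠ j → Disjoint (B i) (B j) := fun i hi j hj =>
      hd i (by omega) j (by omega)
    rw [prod_range_succ, ih hd']
    have hdJ : Disjoint ((range J).biUnion B) (B J) := by
      rw [disjoint_biUnion_left]
      intro i hi
      exact hd i (by have := mem_range.1 hi; omega) J (by omega) (by have := mem_range.1 hi; omega)
    unfold fr
    rw [sum_mul_sum, ← sum_product']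
    refine sum_nbij' (fun P => P.1 ∪ P.2) (fun T => (T ∩ (range J).biUnion B, T ∩ B J))
      ?_ ?_ ?_ ?_ ?_
    · rintro ⟨T1, T2⟩ h
      rw [mem_product] at h
      obtain ⟨h1, h2⟩ := h
      simp only [Ef, mem_filter, mem_powerset] at h1 h2 ⊢
      obtain ⟨h1a, h1b⟩ := h1
      obtain ⟨h2a, h2b⟩ := h2
      refine ⟨?_, ?_⟩
      · rw [range_add_one, biUnion_insert]
        exact union_subset (h1a.trans subset_union_right) (h2a.trans subset_union_left)
      · intro j hj
        rw [mem_range] at hj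
        rcases Nat.lt_succ_iff_lt_or_eq.1 hj with h | h
        · have : (T1 ∪ T2) ∩ B j = T1 ∩ B j := by
            ext p
            simp only [mem_inter, mem_union]
            constructor
            · rintro ⟨h3 | h3, h4⟩
              · exact ⟨h3, h4⟩
              · exact absurd h4 (disjoint_right.1 (hd j (by omega) J (by omega) (by omega)) (h2a h3))
            · rintro ⟨h3, h4⟩
              exact ⟨Or.inl h3, h4⟩
          rw [this]
          exact h1b j (mem_range.2 h)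
        · subst h
          have : (T1 ∪ T2) ∩ B j = T2 := by
            ext p
            simp only [mem_inter, mem_union]
            constructor
            · rintro ⟨h3 | h3, h4⟩
              · exact absurd h4 (disjoint_left.1 hdJ (h1a h3))
              · exact h3
            · intro h3
              exact ⟨Or.inr h3, h2a h3⟩
          rw [this]
          exact h2b
    · intro T h
      simp only [Ef, mem_filter, mem_powerset] at h
      obtain ⟨h1, h2⟩ := h
      rw [mem_product]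
      simp only [Ef, mem_filter, mem_powerset]
      refine ⟨⟨inter_subset_right, ?_⟩, inter_subset_right, h2 J (by simp)⟩
      intro j hj
      refine (card_le_card ?_).trans (h2 j (by have := mem_range.1 hj; rw [mem_range]; omega))
      intro p hp
      simp only [mem_inter] at hp ⊢
      exact ⟨hp.1.1, hp.2⟩
    · rintro ⟨T1, T2⟩ h
      rw [mem_product] at h
      obtain ⟨h1, h2⟩ := h
      simp only [Ef, mem_filter, mem_powerset] at h1 h2
      have h1a := h1.1
      have h2a := h2.1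
      refine Prod.ext ?_ ?_
      · ext p
        simp only [mem_inter, mem_union]
        constructor
        · rintro ⟨h3 | h3, h4⟩
          · exact h3
          · exact absurd (h2a h3) (disjoint_left.1 hdJ h4)
        · intro h3
          exact ⟨Or.inl h3, h1a h3⟩
      · ext p
        simp only [mem_inter, mem_union]
        constructor
        · rintro ⟨h3 | h3, h4⟩
          · exact absurd h4 (disjoint_left.1 hdJ (h1a h3))
          · exact h3
        · intro h3
          exact ⟨Or.inr h3, h2a h3⟩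
    · intro T h
      simp only [Ef, mem_filter, mem_powerset] at h
      have h1 := h.1
      rw [range_add_one, biUnion_insert] at h1
      simp only
      rw [← inter_union_distrib_left, union_comm, inter_eq_left]
      exact h1
    · rintro ⟨T1, T2⟩ h
      rw [mem_product] at h
      obtain ⟨h1, h2⟩ := h
      simp only [Ef, mem_filter, mem_powerset] at h1 h2
      simp only
      rw [prod_union (disjoint_of_subset_left h1.1 (disjoint_of_subset_right h2.1 hdJ))]

/-- the truncated product of the indicator function -/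
theorem fr_ind (B : Finset ℕ) (P : ℕ → Prop) [DecidablePred P] (r : ℕ) :
    fr B (fun p => if P p then 1 else 0) r = fr (B.filter P) (fun _ => 1) r := by
  classical
  unfold fr
  rw [← sum_filter_add_sum_filter_not (B.powerset.filter (fun T => T.card ≤ r))
    (fun T => T ⊆ B.filter P)]
  have h1 : ∑ T ∈ (B.powerset.filter (fun T => T.card ≤ r)).filter (fun T => ¬ T ⊆ B.filter P),
      ∏ p ∈ T, (-(if P p then (1 : ℝ) else 0)) = 0 := by
    refine sum_eq_zero fun T hT => ?_
    rw [mem_filter, mem_filter, mem_powerset] at hT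
    obtain ⟨p, hp, hp'⟩ := not_subset.1 hT.2
    refine prod_eq_zero hp ?_
    rw [if_neg, neg_zero]
    intro h
    exact hp' (mem_filter.2 ⟨hT.1.1 hp, h⟩)
  rw [h1, add_zero]
  have h2 : (B.powerset.filter (fun T => T.card ≤ r)).filter (fun T => T ⊆ B.filter P) =
      (B.filter P).powerset.filter (fun T => T.card ≤ r) := by
    ext T
    simp only [mem_filter, mem_powerset]
    constructor
    · rintro ⟨⟨_, h⟩, h'⟩; exact ⟨h', h⟩
    · rintro ⟨h', h⟩; exact ⟨⟨h'.trans (filter_subset _ _), h⟩, h'⟩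
  rw [h2]
  refine sum_congr rfl fun T hT => prod_congr rfl fun p hp => ?_
  rw [mem_filter, mem_powerset] at hT
  show -(if P p then (1 : ℝ) else 0) = -1
  rw [if_pos (mem_filter.1 (hT.1 hp)).2]

theorem fr_one_abs (A : Finset ℕ) (r : ℕ) : |fr A (fun _ => 1) r| ≤ 2 ^ A.card := by
  unfold fr
  refine (abs_sum_le_sum_abs _ _).trans ?_
  calc ∑ T ∈ A.powerset.filter (fun T => T.card ≤ r), |∏ p ∈ T, (-(1 : ℝ))|
      = ∑ T ∈ A.powerset.filter (fun T => T.card ≤ r), (1 : ℝ) := by
        refine sum_congr rfl fun T _ => ?_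
        rw [prod_const, abs_pow, abs_neg, abs_one, one_pow]
    _ ≤ ∑ T ∈ A.powerset, (1 : ℝ) :=
        sum_le_sum_of_subset_of_nonneg (filter_subset _ _) fun _ _ _ => zero_le_one
    _ = 2 ^ A.card := by
        rw [sum_const, card_powerset, nsmul_eq_mul, mul_one]
        push_cast
        rfl

/-- `fr = 0` if `1 ≤ #A ≤ r` -/
theorem fr_one_zero (A : Finset ℕ) (r : ℕ) (h1 : A.Nonempty) (h2 : A.card ≤ r) :
    fr A (fun _ => 1) r = 0 := by
  unfold fr
  have h3 : A.powerset.filter (fun T => T.card ≤ r) = A.powerset := by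
    rw [filter_eq_self]
    intro T hT
    exact (card_le_card (mem_powerset.1 hT)).trans h2
  rw [h3]
  have h4 := prod_add (fun _ : ℕ => (-1 : ℝ)) (fun _ => 1) A
  simp only [neg_add_cancel, prod_const, one_pow, mul_one] at h4
  rw [zero_pow (card_pos.2 h1).ne'] at h4
  simp only [prod_const]
  exact h4.symm

/-! ## the concrete weight -/

/-- the block boundaries `z^(1/2^j)` -/
noncomputable def bz (z : ℝ) (j : ℕ) : ℝ := z ^ ((1 / 2 : ℝ) ^ j)

/-- the primes in `[z^(1/2^(j+1)), z^(1/2^j))` -/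
noncomputable def blk (z : ℝ) (j : ℕ) : Finset ℕ :=
  Pool.MP_67663b_nt.Odd.pr (bz z (j + 1)) (bz z j)

/-- number of the primes of the block `j` dividing `n` -/
noncomputable def om (z : ℝ) (j n : ℕ) : ℕ := ((blk z j).filter (fun p => p ∣ n)).card

/-- number of blocks -/
noncomputable def JJ (z : ℝ) : ℕ := ⌈Real.logb 2 z⌉₊

/-- the Brun-Hooley majorant of the `z`-rough numbers -/
noncomputable def Sv (b : ℕ) (z : ℝ) (n : ℕ) : ℝ :=
  ∏ j ∈ range (JJ z), fr (blk z j) (fun p => if p ∣ n then 1 else 0) (2 * (b + j))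

open Classical in
/-- its support -/
noncomputable def ES (b : ℕ) (z : ℝ) : Finset ℕ :=
  (Ef (JJ z) (blk z) (fun j => 2 * (b + j))).image (fun T => ∏ p ∈ T, p)

theorem bz_zero (z : ℝ) : bz z 0 = z := by
  unfold bz; rw [pow_zero, Real.rpow_one]

theorem bz_anti {z : ℝ} (hz : 1 ≤ z) {i j : ℕ} (h : i ≤ j) : bz z j ≤ bz z i := by
  unfold bz
  refine Real.rpow_le_rpow_of_exponent_le hz ?_
  exact pow_le_pow_of_le_one (by norm_num) (by norm_num) h

theorem one_le_bz {z : ℝ} (hz : 1 ≤ z) (j : ℕ) : 1 ≤ bz z j :=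
  Real.one_le_rpow hz (by positivity)

theorem mem_blk {z : ℝ} {j p : ℕ} : p ∈ blk z j ↔ p.Prime ∧ bz z (j + 1) ≤ p ∧ (p : ℝ) < bz z j := by
  unfold blk
  rw [Pool.MP_67663b_nt.Odd.mem_pr]

theorem blk_disj {z : ℝ} (hz : 1 ≤ z) {i j : ℕ} (h : i ≠ j) : Disjoint (blk z i) (blk z j) := by
  rw [disjoint_left]
  intro p h1 h2
  rw [mem_blk] at h1 h2
  rcases lt_or_gt_of_ne h with h | h
  · have := bz_anti hz (show i + 1 ≤ j from h)
    linarith [h1.2.1, h2.2.2]
  · have := bz_anti hz (show j + 1 ≤ i from h)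
    linarith [h2.2.1, h1.2.2]

theorem bz_JJ {z : ℝ} (hz : 2 ≤ z) : bz z (JJ z) < 2 := by
  have hl2 : 0 < Real.log 2 := Real.log_pos (by norm_num)
  have hlz : 0 < Real.log z := Real.log_pos (by linarith)
  have h1 : z ≤ (2 : ℝ) ^ (JJ z) := by
    have h1 : z = (2 : ℝ) ^ (Real.logb 2 z) :=
      (Real.rpow_logb (by norm_num) (by norm_num) (by linarith)).symm
    rw [← Real.rpow_natCast]
    calc z = (2 : ℝ) ^ (Real.logb 2 z) := h1
      _ ≤ (2 : ℝ) ^ ((JJ z : ℕ) : ℝ) :=
        Real.rpow_le_rpow_of_exponent_le (by norm_num) (Nat.le_ceil _)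
  have h2 : Real.log z < z * Real.log 2 := by
    have h3 : Real.log (z / 2) ≤ z / 2 - 1 := Real.log_le_sub_one_of_pos (by linarith)
    rw [Real.log_div (by linarith) (by norm_num)] at h3
    have h4 := Real.log_two_gt_d9
    nlinarith
  have h5 : Real.log z * (1 / 2) ^ (JJ z) < Real.log 2 := by
    rw [one_div, inv_pow, ← div_eq_mul_inv, div_lt_iff₀ (by positivity)]
    calc Real.log z < z * Real.log 2 := h2
      _ ≤ 2 ^ (JJ z) * Real.log 2 := mul_le_mul_of_nonneg_right h1 hl2.le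
      _ = _ := by ring
  unfold bz
  rw [Real.rpow_def_of_pos (by linarith)]
  calc Real.exp (Real.log z * (1 / 2) ^ (JJ z)) < Real.exp (Real.log 2) := Real.exp_lt_exp.2 h5
    _ = 2 := Real.exp_log (by norm_num)

/-- the blocks cover the primes `< z` -/
theorem blk_union {z : ℝ} (hz : 2 ≤ z) :
    (range (JJ z)).biUnion (blk z) = Pool.MP_67663b_nt.Odd.pr 0 z := by
  ext p
  rw [mem_biUnion, Pool.MP_67663b_nt.Odd.mem_pr]
  constructor
  · rintro ⟨j, -, hj⟩
    rw [mem_blk] at hj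
    refine ⟨hj.1, Nat.cast_nonneg _, hj.2.2.trans_le ?_⟩
    have := bz_anti (show 1 ≤ z by linarith) (Nat.zero_le j)
    rwa [bz_zero] at this
  · rintro ⟨h1, -, h3⟩
    have hp2 : (2 : ℝ) ≤ p := by exact_mod_cast h1.two_le
    by_contra hcon
    push Not at hcon
    have key : ∀ j, j ≤ JJ z → (p : ℝ) < bz z j := by
      intro j
      induction j with
      | zero => intro _; rw [bz_zero]; exact h3
      | succ j ih =>
        intro hj
        by_contra hc
        push Not at hc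
        exact hcon j (mem_range.2 (by omega)) (mem_blk.2 ⟨h1, hc, ih (by omega)⟩)
    have := key (JJ z) le_rfl
    linarith [bz_JJ hz]

theorem mem_Ef {J : ℕ} {B : ℕ → Finset ℕ} {r : ℕ → ℕ} {T : Finset ℕ} :
    T ∈ Ef J B r ↔ T ⊆ (range J).biUnion B ∧ ∀ j ∈ range J, (T ∩ B j).card ≤ r j := by
  unfold Ef
  rw [mem_filter, mem_powerset]

theorem Ef_prime {b : ℕ} {z : ℝ} {T : Finset ℕ}
    (hT : T ∈ Ef (JJ z) (blk z) (fun j => 2 * (b + j))) : ∀ p ∈ T, p.Prime := by
  intro p hp
  have h1 := (mem_Ef.1 hT).1 hp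
  rw [mem_biUnion] at h1
  obtain ⟨j, -, hj⟩ := h1
  exact (mem_blk.1 hj).1

theorem prod_primes_sqf (T : Finset ℕ) (hT : ∀ p ∈ T, p.Prime) : Squarefree (∏ p ∈ T, p) := by
  classical
  induction T using Finset.induction_on with
  | empty => rw [prod_empty]; exact squarefree_one
  | insert p T hp ih =>
    rw [prod_insert hp]
    have h1 : p.Prime := hT p (mem_insert_self p T)
    have h2 : ∀ q ∈ T, q.Prime := fun q hq => hT q (mem_insert_of_mem hq)
    rw [Nat.squarefree_mul_iff]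
    refine ⟨?_, h1.squarefree, ih h2⟩
    refine Nat.Coprime.prod_right fun q hq => ?_
    rw [Nat.coprime_primes h1 (h2 q hq)]
    rintro rfl
    exact hp hq

theorem moebius_prod_primes (T : Finset ℕ) (hT : ∀ p ∈ T, p.Prime) :
    ArithmeticFunction.moebius (∏ p ∈ T, p) = (-1) ^ T.card := by
  rw [ArithmeticFunction.moebius_apply_of_squarefree (prod_primes_sqf T hT)]
  congr 1
  rw [← (ArithmeticFunction.cardDistinctFactors_eq_cardFactors_iff_squarefree
    (prod_ne_zero_iff.2 fun p hp => (hT p hp).ne_zero)).2 (prod_primes_sqf T hT),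
    ArithmeticFunction.cardDistinctFactors_apply, ← List.card_toFinset]
  exact congrArg card (Nat.primeFactors_prod hT)

theorem prod_dvd_iff (T : Finset ℕ) (hT : ∀ p ∈ T, p.Prime) (n : ℕ) :
    ∏ p ∈ T, p ∣ n ↔ ∀ p ∈ T, p ∣ n := by
  constructor
  · intro h p hp
    exact (dvd_prod_of_mem _ hp).trans h
  · intro h
    refine prod_dvd_of_isRelPrime ?_ h
    intro p hp q hq hpq
    exact Nat.coprime_iff_isRelPrime.1 ((Nat.coprime_primes (hT p hp) (hT q hq)).2 hpq)

theorem ES_inj (b : ℕ) (z : ℝ) : Set.InjOn (fun T : Finset ℕ => ∏ p ∈ T, p)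
    (Ef (JJ z) (blk z) (fun j => 2 * (b + j))) := by
  intro S hS T hT h
  rw [mem_coe] at hS hT
  have h1 := Nat.primeFactors_prod (Ef_prime hS)
  have h2 := Nat.primeFactors_prod (Ef_prime hT)
  rw [← h1, ← h2]
  exact congrArg Nat.primeFactors h

/-- `Sv n = Σ_{e ∈ ES, e ∣ n} μ(e)` -/
theorem Sv_eq (b : ℕ) {z : ℝ} (hz : 1 ≤ z) (n : ℕ) : Sv b z n =
    ∑ e ∈ (ES b z).filter (fun e => e ∣ n), (ArithmeticFunction.moebius e : ℝ) := by
  classical
  unfold Sv ES
  rw [ef_prod _ _ _ _ (fun i _ j _ h => blk_disj hz h), sum_filter, sum_image (ES_inj b z)]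
  refine sum_congr rfl fun T hT => ?_
  have hp := Ef_prime hT
  by_cases h : ∀ p ∈ T, p ∣ n
  · rw [if_pos ((prod_dvd_iff T hp n).2 h), moebius_prod_primes T hp]
    push_cast
    rw [← prod_const]
    refine prod_congr rfl fun p hp => ?_
    rw [if_pos (h p hp)]
  · rw [if_neg (fun h' => h ((prod_dvd_iff T hp n).1 h'))]
    push Not at h
    obtain ⟨p, hp, hpn⟩ := h
    refine prod_eq_zero hp ?_
    rw [if_neg hpn, neg_zero]

theorem om_eq_card {z : ℝ} {j : ℕ} {T : Finset ℕ} (hT : ∀ p ∈ T, p.Prime) :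
    om z j (∏ p ∈ T, p) = (T ∩ blk z j).card := by
  classical
  unfold om
  congr 1
  ext p
  rw [mem_filter, mem_inter, and_comm]
  refine and_congr_left fun hp => ?_
  have hpp : p.Prime := (mem_blk.1 hp).1
  constructor
  · intro h
    obtain ⟨q, hq, hpq⟩ := (Prime.dvd_finsetProd_iff hpp.prime _).1 h
    rwa [(Nat.prime_dvd_prime_iff_eq hpp (hT q hq)).1 hpq]
  · intro h
    exact dvd_prod_of_mem _ h

/-- the level -/
theorem ES_le {b : ℕ} {z : ℝ} (hz : 1 ≤ z) {e : ℕ} (he : e ∈ ES b z) :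
    (e : ℝ) ≤ z ^ (4 * b + 4) := by
  classical
  unfold ES at he
  rw [mem_image] at he
  obtain ⟨T, hT, rfl⟩ := he
  have hT' := mem_Ef.1 hT
  have h1 : ((∏ p ∈ T, p : ℕ) : ℝ) =
      ∏ j ∈ range (JJ z), ∏ p ∈ T ∩ blk z j, (p : ℝ) := by
    push_cast
    rw [← prod_biUnion]
    · refine prod_congr ?_ fun _ _ => rfl
      ext p
      rw [mem_biUnion]
      constructor
      · intro hp
        have h2 := hT'.1 hp
        rw [mem_biUnion] at h2
        obtain ⟨j, hj, hp'⟩ := h2
        exact ⟨j, hj, mem_inter.2 ⟨hp, hp'⟩⟩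
      · rintro ⟨j, -, hp⟩
        exact (mem_inter.1 hp).1
    · intro i _ j _ hij
      refine disjoint_of_subset_left inter_subset_right
        (disjoint_of_subset_right inter_subset_right (blk_disj hz hij))
  rw [h1]
  have h2 : ∀ j ∈ range (JJ z), ∏ p ∈ T ∩ blk z j, (p : ℝ) ≤
      z ^ ((1 / 2 : ℝ) ^ j * (2 * (b + j) : ℕ)) := by
    intro j hj
    calc ∏ p ∈ T ∩ blk z j, (p : ℝ) ≤ ∏ p ∈ T ∩ blk z j, bz z j := by
          refine prod_le_prod (fun p _ => Nat.cast_nonneg _) fun p hp => ?_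
          exact (mem_blk.1 (mem_inter.1 hp).2).2.2.le
      _ = bz z j ^ (T ∩ blk z j).card := by rw [prod_const]
      _ ≤ bz z j ^ (2 * (b + j)) := pow_le_pow_right₀ (one_le_bz hz j) (hT'.2 j hj)
      _ = z ^ ((1 / 2 : ℝ) ^ j * (2 * (b + j) : ℕ)) := by
          unfold bz
          rw [← Real.rpow_natCast, ← Real.rpow_mul (by linarith)]
  have h3 : ∏ j ∈ range (JJ z), ∏ p ∈ T ∩ blk z j, (p : ℝ) ≤
      ∏ j ∈ range (JJ z), z ^ ((1 / 2 : ℝ) ^ j * (2 * (b + j) : ℕ)) :=
    prod_le_prod (fun j _ => prod_nonneg fun p _ => Nat.cast_nonneg _) h2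
  refine h3.trans ?_
  rw [← Real.rpow_sum_of_pos (by linarith), ← Real.rpow_natCast]
  refine Real.rpow_le_rpow_of_exponent_le hz ?_
  have h4 : ∀ N : ℕ, ∑ j ∈ range N, (1 / 2 : ℝ) ^ j * ((2 * (b + j) : ℕ) : ℝ) =
      4 * b + 4 - (4 * b + 4 + 4 * N) * (1 / 2) ^ N := by
    intro N
    induction N with
    | zero => simp
    | succ N ih =>
      rw [sum_range_succ, ih, pow_succ]
      push_cast
      ring
  rw [h4]
  have : (0 : ℝ) ≤ (4 * b + 4 + 4 * (JJ z : ℝ)) * (1 / 2) ^ (JJ z) := by positivity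
  push_cast
  linarith

theorem ES_sqf {b : ℕ} {z : ℝ} {e : ℕ} (he : e ∈ ES b z) : Squarefree e := by
  unfold ES at he
  rw [mem_image] at he
  obtain ⟨T, hT, rfl⟩ := he
  exact prod_primes_sqf T (Ef_prime hT)

theorem ES_pos {b : ℕ} {z : ℝ} {e : ℕ} (he : e ∈ ES b z) : 0 < e :=
  Nat.pos_of_ne_zero (ES_sqf he).ne_zero

theorem ES_prime_lt {b : ℕ} {z : ℝ} (hz : 1 ≤ z) {e : ℕ} (he : e ∈ ES b z) {p : ℕ}
    (hp : p.Prime) (hpe : p ∣ e) : (p : ℝ) < z := by
  unfold ES at he
  rw [mem_image] at he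
  obtain ⟨T, hT, rfl⟩ := he
  obtain ⟨q, hq, hpq⟩ := (Prime.dvd_finsetProd_iff hp.prime _).1 hpe
  have hqp := Ef_prime hT q hq
  rw [(Nat.prime_dvd_prime_iff_eq hp hqp).1 hpq]
  have h1 := (mem_Ef.1 hT).1 hq
  rw [mem_biUnion] at h1
  obtain ⟨j, -, hj⟩ := h1
  have := bz_anti hz (Nat.zero_le j)
  rw [bz_zero] at this
  exact (mem_blk.1 hj).2.2.trans_le this

theorem ES_om {b : ℕ} {z : ℝ} {e : ℕ} (he : e ∈ ES b z) {j : ℕ} (hj : j < JJ z) :
    om z j e ≤ 2 * (b + j) := by
  unfold ES at he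
  rw [mem_image] at he
  obtain ⟨T, hT, rfl⟩ := he
  rw [om_eq_card (Ef_prime hT)]
  exact (mem_Ef.1 hT).2 j (mem_range.2 hj)

theorem one_mem_ES (b : ℕ) (z : ℝ) : 1 ∈ ES b z := by
  unfold ES
  rw [mem_image]
  refine ⟨∅, mem_Ef.2 ⟨empty_subset _, ?_⟩, prod_empty⟩
  intro j _
  rw [empty_inter, card_empty]
  exact Nat.zero_le _

theorem Sv_nonneg (b : ℕ) (z : ℝ) (n : ℕ) : 0 ≤ Sv b z n := by
  unfold Sv
  refine prod_nonneg fun j _ => ?_
  refine le_trans ?_ (bonf (blk z j) (fun p => if p ∣ n then 1 else 0) ?_ ?_ (b + j)).1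
  · refine prod_nonneg fun p _ => ?_
    split_ifs <;> norm_num
  · intro p _
    split_ifs <;> norm_num
  · intro p _
    split_ifs <;> norm_num

theorem Sv_rough (b : ℕ) {z : ℝ} (hz : 1 ≤ z) {n : ℕ} (hn : En.Rough z n) : Sv b z n = 1 := by
  unfold Sv
  refine prod_eq_one fun j _ => ?_
  rw [fr_ind]
  have h1 : (blk z j).filter (fun p => p ∣ n) = ∅ := by
    rw [filter_eq_empty_iff]
    intro p hp hpn
    rw [mem_blk] at hp
    have h2 := hn p hp.1 hpn
    have h3 := bz_anti hz (Nat.zero_le j)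
    rw [bz_zero] at h3
    linarith [hp.2.2]
  rw [h1, fr_empty]

theorem Sv_one (b : ℕ) {z : ℝ} (hz : 1 ≤ z) : Sv b z 1 = 1 := by
  refine Sv_rough b hz ?_
  intro p hp h
  exact absurd (Nat.dvd_one.1 h) hp.one_lt.ne'

/-- blockwise bound -/
theorem Sv_le_prod (b : ℕ) (z : ℝ) (n : ℕ) :
    Sv b z n ≤ ∏ j ∈ range (JJ z), (2 : ℝ) ^ (om z j n) := by
  unfold Sv om
  refine prod_le_prod ?_ fun j _ => ?_
  · intro j _
    refine le_trans ?_ (bonf (blk z j) (fun p => if p ∣ n then 1 else 0) ?_ ?_ (b + j)).1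
    · refine prod_nonneg fun p _ => ?_
      split_ifs <;> norm_num
    · intro p _
      split_ifs <;> norm_num
    · intro p _
      split_ifs <;> norm_num
  · rw [fr_ind]
    exact (le_abs_self _).trans (fr_one_abs _ _)

theorem sum_om_le {z : ℝ} (hz : 1 ≤ z) {n : ℕ} (hn : n ≠ 0) :
    ∑ j ∈ range (JJ z), om z j n ≤ n.primeFactors.card := by
  classical
  unfold om
  rw [← card_biUnion]
  · refine card_le_card ?_
    intro p hp
    rw [mem_biUnion] at hp
    obtain ⟨j, -, hp⟩ := hp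
    rw [mem_filter, mem_blk] at hp
    exact Nat.mem_primeFactors.2 ⟨hp.1.1, hp.2, hn⟩
  · intro i _ j _ hij
    exact disjoint_filter_filter (blk_disj hz hij)

theorem Sv_le (b : ℕ) {z : ℝ} (hz : 1 ≤ z) {n : ℕ} (hn : n ≠ 0) :
    Sv b z n ≤ 2 ^ n.primeFactors.card := by
  refine (Sv_le_prod b z n).trans ?_
  rw [prod_pow_eq_pow_sum]
  exact pow_le_pow_right₀ (by norm_num) (sum_om_le hz hn)

theorem Sv_pattern {b : ℕ} {z : ℝ} {n : ℕ} (h : Sv b z n ≠ 0) {j : ℕ} (hj : j < JJ z) :
    om z j n = 0 ∨ 2 * (b + j) < om z j n := by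
  by_contra hcon
  push Not at hcon
  apply h
  unfold Sv
  refine prod_eq_zero (mem_range.2 hj) ?_
  rw [fr_ind]
  refine fr_one_zero _ _ ?_ hcon.2
  rw [← card_pos]
  exact Nat.pos_of_ne_zero hcon.1

end Pool.MP_dd84fd_nt.BX
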