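import Pool.Agent.Lib.MP_dd84fd_nt.BX.BrA

/-!
# BX-BrB: the Brun-Hooley majorant (helper33), mean values

`sum_ES`: `Σ_{e ∈ ES} μ(e)/e ≤ C/log z`;
`sum_Sv`: `Σ_{u < n ≤ v} Sv n ≤ C (v-u)/log z + z^(4b+4)`.
-/

set_option autoImplicit false

namespace Pool.MP_dd84fd_nt.BX

open Finset Pool.MP_67663b_nt.Odd

/-- `Σ_{e ∈ ES} μ(e)/e = ∏_j fr` -/
theorem sum_ES_eq (b : ℕ) {z : ℝ} (hz : 1 ≤ z) :
    ∑ e ∈ ES b z, (ArithmeticFunction.moebius e : ℝ) / e =
      ∏ j ∈ range (JJ z), fr (blk z j) (fun p => 1 / (p : ℝ)) (2 * (b + j)) := by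
  classical
  rw [ef_prod _ _ _ _ (fun i _ j _ h => blk_disj hz h)]
  unfold ES
  rw [sum_image (ES_inj b z)]
  refine sum_congr rfl fun T hT => ?_
  rw [moebius_prod_primes T (Ef_prime hT)]
  push_cast
  rw [← prod_const, ← prod_div_distrib]
  refine prod_congr rfl fun p _ => ?_
  ring

/-- `Σ_{p ∈ blk j} 1/p ≤ 8` -/
theorem blk_sum {z : ℝ} (hz : 1 ≤ z) (j : ℕ) : ∑ p ∈ blk z j, 1 / (p : ℝ) ≤ 8 := by
  rcases (blk z j).eq_empty_or_nonempty with h | ⟨p0, hp0⟩
  · rw [h, sum_empty]; norm_num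
  · have h2 : 2 < bz z j := by
      have h3 : (2 : ℝ) ≤ p0 := by exact_mod_cast (mem_blk.1 hp0).1.two_le
      linarith [(mem_blk.1 hp0).2.2]
    have hl : Real.log 2 < Real.log (bz z j) := Real.log_lt_log (by norm_num) h2
    have hl2 := Real.log_two_gt_d9
    have hlp : 0 < Real.log (bz z j) := by linarith
    have hlog : Real.log (bz z (j + 1)) = Real.log (bz z j) / 2 := by
      unfold bz
      rw [Real.log_rpow (by linarith), Real.log_rpow (by linarith), pow_succ]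
      ring
    have h4 : ∀ p ∈ blk z j, 1 / (p : ℝ) ≤
        2 / Real.log (bz z j) * (Real.log (p : ℝ) / p) := by
      intro p hp
      have hp' := mem_blk.1 hp
      have hp0 : (0 : ℝ) < p := by exact_mod_cast hp'.1.pos
      have h5 : Real.log (bz z j) / 2 ≤ Real.log p := by
        rw [← hlog]
        exact Real.log_le_log (by linarith [one_le_bz hz (j + 1)]) hp'.2.1
      rw [div_mul_div_comm, div_le_div_iff₀ hp0 (by positivity)]
      nlinarith
    have h6 : ∑ p ∈ blk z j, Real.log (p : ℝ) / p ≤ Real.log (bz z j) + 2 := by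
      refine le_trans ?_ (En.sum_log_div (by linarith : 1 ≤ bz z j))
      refine sum_le_sum_of_subset_of_nonneg ?_ fun p _ _ =>
        div_nonneg (Real.log_natCast_nonneg p) (Nat.cast_nonneg _)
      intro p hp
      rw [mem_pr]
      have hp' := mem_blk.1 hp
      exact ⟨hp'.1, Nat.cast_nonneg _, hp'.2.2⟩
    calc ∑ p ∈ blk z j, 1 / (p : ℝ)
        ≤ ∑ p ∈ blk z j, 2 / Real.log (bz z j) * (Real.log (p : ℝ) / p) := sum_le_sum h4
      _ = 2 / Real.log (bz z j) * ∑ p ∈ blk z j, Real.log (p : ℝ) / p := by rw [mul_sum]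
      _ ≤ 2 / Real.log (bz z j) * (Real.log (bz z j) + 2) :=
          mul_le_mul_of_nonneg_left h6 (by positivity)
      _ ≤ 8 := by
          rw [div_mul_eq_mul_div, div_le_iff₀ (by linarith)]
          nlinarith

/-- the product of one block is bounded from below -/
theorem blk_prod {z : ℝ} (hz : 1 ≤ z) (j : ℕ) :
    Real.exp (-16) ≤ ∏ p ∈ blk z j, (1 - 1 / (p : ℝ)) := by
  have h1 : ∀ p ∈ blk z j, Real.exp (-(2 * (1 / (p : ℝ)))) ≤ 1 - 1 / (p : ℝ) := by
    intro p hp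
    have h2 : (2 : ℝ) ≤ p := by exact_mod_cast (mem_blk.1 hp).1.two_le
    have hp0 : (0 : ℝ) < p := by linarith
    set x := 1 / (p : ℝ) with hx
    have hx0 : 0 < x := by positivity
    have hx1 : x ≤ 1 / 2 := one_div_le_one_div_of_le (by norm_num) h2
    rw [Real.exp_neg, inv_le_comm₀ (Real.exp_pos _) (by linarith)]
    have h3 : (1 - x)⁻¹ ≤ 2 * x + 1 := by
      rw [inv_le_comm₀ (by linarith) (by linarith), inv_eq_one_div, div_le_iff₀ (by linarith)]
      nlinarith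
    exact h3.trans (Real.add_one_le_exp _)
  calc Real.exp (-16) ≤ Real.exp (∑ p ∈ blk z j, (-(2 * (1 / (p : ℝ))))) := by
        refine Real.exp_le_exp.2 ?_
        rw [sum_neg_distrib, ← mul_sum]
        linarith [blk_sum hz j]
    _ = ∏ p ∈ blk z j, Real.exp (-(2 * (1 / (p : ℝ)))) := Real.exp_sum _ _
    _ ≤ _ := prod_le_prod (fun p _ => (Real.exp_pos _).le) h1

theorem prod_blk {z : ℝ} (hz : 2 ≤ z) :
    ∏ j ∈ range (JJ z), ∏ p ∈ blk z j, (1 - 1 / (p : ℝ)) = En.V z := by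
  unfold En.V
  rw [← blk_union hz, prod_biUnion]
  intro i _ j _ hij
  exact blk_disj (by linarith) hij

/-- the constant -/
noncomputable def CB : ℝ := Real.exp (Real.exp 16 * Real.exp 8)

theorem CB_pos : 0 < CB := Real.exp_pos _

theorem sum_fact (x : ℝ) (hx : 0 ≤ x) (b J : ℕ) :
    ∑ j ∈ range J, x ^ (2 * (b + j) + 1) / (Nat.factorial (2 * (b + j) + 1) : ℝ) ≤ Real.exp x := by
  have h1 : ∑ j ∈ range J, x ^ (2 * (b + j) + 1) / (Nat.factorial (2 * (b + j) + 1) : ℝ) =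
      ∑ i ∈ (range J).image (fun j => 2 * (b + j) + 1), x ^ i / (Nat.factorial i : ℝ) := by
    rw [sum_image]
    intro i _ j _ h
    simp only at h
    omega
  rw [h1]
  refine le_trans ?_ (Real.sum_le_exp_of_nonneg hx (2 * (b + J) + 1))
  refine sum_le_sum_of_subset_of_nonneg ?_ fun i _ _ => by positivity
  intro i hi
  rw [mem_image] at hi
  obtain ⟨j, hj, rfl⟩ := hi
  rw [mem_range] at hj ⊢
  omega

theorem sum_ES (b : ℕ) {z : ℝ} (hz : 2 ≤ z) :
    ∑ e ∈ ES b z, (ArithmeticFunction.moebius e : ℝ) / e ≤ CB / Real.log z := by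
  have hz1 : 1 ≤ z := by linarith
  rw [sum_ES_eq b hz1]
  have hx0 : ∀ j, ∀ p ∈ blk z j, 0 ≤ 1 / (p : ℝ) := fun j p _ => by positivity
  have hx1 : ∀ j, ∀ p ∈ blk z j, 1 / (p : ℝ) ≤ 1 := by
    intro j p hp
    have h2 : (1 : ℝ) ≤ p := by exact_mod_cast (mem_blk.1 hp).1.one_lt.le
    rw [div_le_one (by linarith)]
    exact h2
  have h1 : ∀ j ∈ range (JJ z), fr (blk z j) (fun p => 1 / (p : ℝ)) (2 * (b + j)) ≤
      (∏ p ∈ blk z j, (1 - 1 / (p : ℝ))) * Real.exp (Real.exp 16 *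
        ((8 : ℝ) ^ (2 * (b + j) + 1) / (Nat.factorial (2 * (b + j) + 1) : ℝ))) := by
    intro j _
    refine (bonf (blk z j) _ (hx0 j) (hx1 j) (b + j)).2.trans ?_
    set P := ∏ p ∈ blk z j, (1 - 1 / (p : ℝ)) with hP
    have hPl : Real.exp (-16) ≤ P := blk_prod hz1 j
    have hP0 : 0 < P := (Real.exp_pos _).trans_le hPl
    have hs0 : 0 ≤ ∑ p ∈ blk z j, 1 / (p : ℝ) := sum_nonneg (hx0 j)
    have h2 : (∑ p ∈ blk z j, 1 / (p : ℝ)) ^ (2 * (b + j) + 1) /
        (Nat.factorial (2 * (b + j) + 1) : ℝ) ≤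
        (8 : ℝ) ^ (2 * (b + j) + 1) / (Nat.factorial (2 * (b + j) + 1) : ℝ) := by
      refine div_le_div_of_nonneg_right ?_ (by positivity)
      exact pow_le_pow_left₀ hs0 (blk_sum hz1 j) _
    set y := (8 : ℝ) ^ (2 * (b + j) + 1) / (Nat.factorial (2 * (b + j) + 1) : ℝ) with hy
    have hy0 : 0 ≤ y := by positivity
    have h3 : 1 ≤ P * Real.exp 16 := by
      calc (1 : ℝ) = Real.exp (-16) * Real.exp 16 := by rw [← Real.exp_add]; norm_num
        _ ≤ P * Real.exp 16 := mul_le_mul_of_nonneg_right hPl (Real.exp_pos _).le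
    calc P + (∑ p ∈ blk z j, 1 / (p : ℝ)) ^ (2 * (b + j) + 1) /
        (Nat.factorial (2 * (b + j) + 1) : ℝ) ≤ P + y := by linarith
      _ ≤ P + P * Real.exp 16 * y := by nlinarith
      _ = P * (Real.exp 16 * y + 1) := by ring
      _ ≤ P * Real.exp (Real.exp 16 * y) :=
          mul_le_mul_of_nonneg_left (Real.add_one_le_exp _) hP0.le
  have h0 : ∀ j ∈ range (JJ z), 0 ≤ fr (blk z j) (fun p => 1 / (p : ℝ)) (2 * (b + j)) := by
    intro j _
    refine le_trans ?_ (bonf (blk z j) _ (hx0 j) (hx1 j) (b + j)).1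
    exact prod_nonneg fun p hp => by linarith [hx1 j p hp]
  refine (prod_le_prod h0 h1).trans ?_
  rw [prod_mul_distrib, prod_blk hz, ← Real.exp_sum, ← mul_sum]
  have h4 : Real.exp (Real.exp 16 * ∑ j ∈ range (JJ z),
      (8 : ℝ) ^ (2 * (b + j) + 1) / (Nat.factorial (2 * (b + j) + 1) : ℝ)) ≤ CB := by
    unfold CB
    refine Real.exp_le_exp.2 (mul_le_mul_of_nonneg_left ?_ (Real.exp_pos _).le)
    exact sum_fact 8 (by norm_num) b (JJ z)
  calc En.V z * Real.exp (Real.exp 16 * ∑ j ∈ range (JJ z),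
      (8 : ℝ) ^ (2 * (b + j) + 1) / (Nat.factorial (2 * (b + j) + 1) : ℝ))
      ≤ 1 / Real.log z * CB := by
        refine mul_le_mul (En.V_le hz) h4 (Real.exp_pos _).le ?_
        have : 0 < Real.log z := Real.log_pos (by linarith)
        positivity
    _ = _ := by ring

theorem card_ES (b : ℕ) {z : ℝ} (hz : 1 ≤ z) : ((ES b z).card : ℝ) ≤ z ^ (4 * b + 4) := by
  have h1 : ES b z ⊆ Icc 1 ⌊z ^ (4 * b + 4)⌋₊ := by
    intro e he
    rw [mem_Icc]
    exact ⟨ES_pos he, Nat.le_floor (ES_le hz he)⟩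
  have h2 := card_le_card h1
  rw [Nat.card_Icc, Nat.add_sub_cancel] at h2
  calc ((ES b z).card : ℝ) ≤ (⌊z ^ (4 * b + 4)⌋₊ : ℝ) := by exact_mod_cast h2
    _ ≤ z ^ (4 * b + 4) := Nat.floor_le (by positivity)

/-- number of the multiples of `e` in `(u, v]` -/
theorem card_mult (u v e : ℕ) (huv : u ≤ v) (he : 0 < e) :
    |((((Ioc u v).filter (fun n => e ∣ n)).card : ℝ)) - ((v : ℝ) - u) / e| ≤ 1 := by
  have h1 : (Ioc u v).filter (fun n => e ∣ n) = (Ioc (u / e) (v / e)).image (fun m => m * e) := by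
    ext n
    rw [mem_filter, mem_image, mem_Ioc]
    constructor
    · rintro ⟨⟨h1, h2⟩, m, rfl⟩
      refine ⟨m, ?_, mul_comm m e⟩
      rw [mem_Ioc]
      constructor
      · rw [Nat.div_lt_iff_lt_mul he]; rwa [mul_comm m e]
      · rw [Nat.le_div_iff_mul_le he]; rwa [mul_comm m e]
    · rintro ⟨m, hm, rfl⟩
      rw [mem_Ioc, Nat.div_lt_iff_lt_mul he, Nat.le_div_iff_mul_le he] at hm
      exact ⟨hm, Dvd.intro_left m rfl⟩
  rw [h1, card_image_of_injective _ (fun a c h => Nat.eq_of_mul_eq_mul_right he h), Nat.card_Ioc]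
  have h2 : u / e ≤ v / e := Nat.div_le_div_right huv
  rw [Nat.cast_sub h2]
  have he' : (0 : ℝ) < e := by exact_mod_cast he
  have a1 : ((v / e : ℕ) : ℝ) ≤ (v : ℝ) / e := Nat.cast_div_le
  have a2 : ((u / e : ℕ) : ℝ) ≤ (u : ℝ) / e := Nat.cast_div_le
  have b1 : (v : ℝ) / e < ((v / e : ℕ) : ℝ) + 1 := by
    rw [div_lt_iff₀ he']
    have := Nat.lt_div_mul_add (a := v) he
    have h3 : v < (v / e + 1) * e := by rw [add_mul, one_mul]; exact this
    exact_mod_cast h3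
  have b2 : (u : ℝ) / e < ((u / e : ℕ) : ℝ) + 1 := by
    rw [div_lt_iff₀ he']
    have := Nat.lt_div_mul_add (a := u) he
    have h3 : u < (u / e + 1) * e := by rw [add_mul, one_mul]; exact this
    exact_mod_cast h3
  rw [sub_div, abs_le]
  constructor <;> linarith

theorem sum_Sv (b : ℕ) {z : ℝ} (hz : 2 ≤ z) (u v : ℕ) (huv : u ≤ v) :
    ∑ n ∈ Ioc u v, Sv b z n ≤ CB * ((v : ℝ) - u) / Real.log z + z ^ (4 * b + 4) := by
  classical
  have hz1 : 1 ≤ z := by linarith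
  have h1 : ∑ n ∈ Ioc u v, Sv b z n = ∑ e ∈ ES b z, (ArithmeticFunction.moebius e : ℝ) *
      (((Ioc u v).filter (fun n => e ∣ n)).card : ℝ) := by
    calc ∑ n ∈ Ioc u v, Sv b z n
        = ∑ n ∈ Ioc u v, ∑ e ∈ ES b z, if e ∣ n then (ArithmeticFunction.moebius e : ℝ) else 0 := by
          refine sum_congr rfl fun n _ => ?_
          rw [Sv_eq b hz1, sum_filter]
      _ = ∑ e ∈ ES b z, ∑ n ∈ Ioc u v, if e ∣ n then (ArithmeticFunction.moebius e : ℝ) else 0 :=
          sum_comm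
      _ = _ := by
          refine sum_congr rfl fun e _ => ?_
          rw [← sum_filter, sum_const, nsmul_eq_mul, mul_comm]
  have hmu : ∀ e : ℕ, |(ArithmeticFunction.moebius e : ℝ)| ≤ 1 := by
    intro e
    have := ArithmeticFunction.abs_moebius_le_one (n := e)
    exact_mod_cast this
  have h2 : ∀ e ∈ ES b z, (ArithmeticFunction.moebius e : ℝ) *
      (((Ioc u v).filter (fun n => e ∣ n)).card : ℝ) ≤
      ((v : ℝ) - u) * ((ArithmeticFunction.moebius e : ℝ) / e) + 1 := by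
    intro e he
    have h3 := card_mult u v e huv (ES_pos he)
    set c := (((Ioc u v).filter (fun n => e ∣ n)).card : ℝ)
    have h4 : (ArithmeticFunction.moebius e : ℝ) * c - ((v : ℝ) - u) *
        ((ArithmeticFunction.moebius e : ℝ) / e) =
        (ArithmeticFunction.moebius e : ℝ) * (c - ((v : ℝ) - u) / e) := by ring
    have h5 : |(ArithmeticFunction.moebius e : ℝ) * (c - ((v : ℝ) - u) / e)| ≤ 1 := by
      rw [abs_mul]
      calc _ ≤ 1 * (1 : ℝ) := mul_le_mul (hmu e) h3 (abs_nonneg _) zero_le_one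
        _ = 1 := one_mul 1
    have h6 := (le_abs_self _).trans h5
    linarith
  rw [h1]
  refine (sum_le_sum h2).trans ?_
  rw [sum_add_distrib, ← mul_sum, sum_const, nsmul_eq_mul, mul_one]
  have h7 : (0 : ℝ) ≤ (v : ℝ) - u := by
    have : (u : ℝ) ≤ v := by exact_mod_cast huv
    linarith
  have h8 := mul_le_mul_of_nonneg_left (sum_ES b hz) h7
  have h9 := card_ES b hz1
  have h10 : ((v : ℝ) - u) * (CB / Real.log z) = CB * ((v : ℝ) - u) / Real.log z := by ring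
  linarith

end Pool.MP_dd84fd_nt.BX
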