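import Pool.Agent.Lib.MP_dd84fd_nt.BX.CDefs

/-!
# BX/BrC: the weight `SS z = Sv 32 z`, interface (names of helper33's second version)
-/

set_option autoImplicit false

namespace Pool.MP_dd84fd_nt.BX

open Finset

open Classical in
/-- coefficients of `SS z` -/
noncomputable def lam (z : ℝ) (e : ℕ) : ℝ :=
  if e ∈ ES 32 z then ((ArithmeticFunction.moebius e : ℤ) : ℝ) else 0

theorem SS_nonneg (z : ℝ) (n : ℕ) : 0 ≤ SS z n := Sv_nonneg 32 z n

theorem SS_rough {z : ℝ} (hz : 1 ≤ z) {n : ℕ} (hn : En.Rough z n) : SS z n = 1 := Sv_rough 32 hz hn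

theorem SS_one {z : ℝ} (hz : 1 ≤ z) : SS z 1 = 1 := Sv_one 32 hz

theorem SS_prime {z : ℝ} (hz : 1 ≤ z) {p : ℕ} (hp : p.Prime) (h : z ≤ p) : SS z p = 1 := by
  refine SS_rough hz ?_
  intro q hq hqp
  rwa [(Nat.prime_dvd_prime_iff_eq hq hp).1 hqp]

theorem SS_le {z : ℝ} (hz : 1 ≤ z) {n : ℕ} (hn : n ≠ 0) : SS z n ≤ 2 ^ n.primeFactors.card :=
  Sv_le 32 hz hn

theorem abs_lam (z : ℝ) (e : ℕ) : |lam z e| ≤ 1 := by
  unfold lam
  split_ifs
  · have := ArithmeticFunction.abs_moebius_le_one (n := e)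
    exact_mod_cast this
  · rw [abs_zero]
    exact zero_le_one

theorem lam_supp {z : ℝ} (hz : 2 ≤ z) {e : ℕ} (h : lam z e ≠ 0) :
    1 ≤ e ∧ (e : ℝ) ≤ z ^ (132 : ℕ) := by
  have h1 : e ∈ ES 32 z := by
    by_contra hc
    apply h
    unfold lam
    rw [if_neg hc]
  refine ⟨ES_pos h1, ?_⟩
  have := ES_le (show (1 : ℝ) ≤ z by linarith) h1
  norm_num at this
  exact this

theorem SS_eq {z : ℝ} (hz : 2 ≤ z) {n : ℕ} (hn : n ≠ 0) :
    SS z n = ∑ e ∈ n.divisors, lam z e := by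
  classical
  have h1 : SS z n = ∑ e ∈ (ES 32 z).filter (fun e => e ∣ n),
      (ArithmeticFunction.moebius e : ℝ) := Sv_eq 32 (by linarith) n
  have h2 : ∑ e ∈ n.divisors, lam z e =
      ∑ e ∈ n.divisors.filter (fun e => e ∈ ES 32 z), (ArithmeticFunction.moebius e : ℝ) := by
    rw [sum_filter]
    refine sum_congr rfl fun e _ => ?_
    unfold lam
    rfl
  rw [h1, h2]
  refine sum_congr ?_ fun _ _ => rfl
  ext e
  rw [mem_filter, mem_filter, Nat.mem_divisors]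
  constructor
  · rintro ⟨h3, h4⟩
    exact ⟨⟨h4, hn⟩, h3⟩
  · rintro ⟨⟨h3, -⟩, h4⟩
    exact ⟨h4, h3⟩

theorem sum_SS {z : ℝ} (hz : 2 ≤ z) (A B : ℕ) (hAB : A ≤ B) :
    ∑ n ∈ Ioc A B, SS z n ≤ CB * ((B : ℝ) - A) / Real.log z + z ^ (132 : ℕ) := by
  have := sum_Sv 32 hz A B hAB
  norm_num at this
  exact this

end Pool.MP_dd84fd_nt.BX
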