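import Pool.Agent.Lib.MP_dd84fd_nt.BX.LsA

/-!
# BX-LsB: the weighted (log-free) large sieve for a small family (helper39)

`w ≥ 0` is a weight of divisor form `w(n) = ∑_{e ∣ n} lam_e` on the interval `(u, v]`, and `a_n = 0`
where `w(n) = 0`.  Duality, positivity of `w` for the diagonal terms, a bound `P` for the sums of
`f_i conj f_j` over the multiples of `e` for the other terms.  `ls_abs`: abstract family; `ls_mul`:
completely multiplicative functions; `ls_w`: primitive characters (Pólya–Vinogradov).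
-/

set_option autoImplicit false

namespace Pool.MP_dd84fd_nt.BX

open Finset Pool.MP_dd84fd_nt.L2G

/-- multiples of `e` in an interval -/
theorem sum_mult (u v e : ℕ) (he : 1 ≤ e) (f : ℕ → ℂ) :
    ∑ n ∈ Ioc u v, (if e ∣ n then f n else 0) = ∑ m ∈ Ioc (u / e) (v / e), f (e * m) := by
  rw [← sum_filter]
  symm
  refine sum_bij (fun m _ => e * m) ?_ ?_ ?_ ?_
  · intro m hm
    rw [mem_Ioc] at hm
    rw [mem_filter, mem_Ioc]
    refine ⟨⟨?_, ?_⟩, Dvd.intro _ rfl⟩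
    · have := (Nat.div_lt_iff_lt_mul (by omega)).1 hm.1
      rw [mul_comm]; exact this
    · have := (Nat.le_div_iff_mul_le (by omega)).1 hm.2
      rw [mul_comm]; exact this
  · intro m _ m' _ h
    exact Nat.eq_of_mul_eq_mul_left (by omega) h
  · intro n hn
    rw [mem_filter, mem_Ioc] at hn
    obtain ⟨⟨h1, h2⟩, m, rfl⟩ := hn
    refine ⟨m, ?_, rfl⟩
    rw [mem_Ioc]
    refine ⟨(Nat.div_lt_iff_lt_mul (by omega)).2 ?_, (Nat.le_div_iff_mul_le (by omega)).2 ?_⟩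
    · rw [mul_comm]; exact h1
    · rw [mul_comm]; exact h2
  · intro m _
    rfl

/-- `e = 0` has no multiples in an interval -/
theorem sum_mult_zero (u v : ℕ) (f : ℕ → ℂ) :
    ∑ n ∈ Ioc u v, (if 0 ∣ n then f n else 0) = 0 := by
  refine sum_eq_zero fun n hn => ?_
  rw [if_neg]
  rw [mem_Ioc] at hn
  rw [zero_dvd_iff]
  omega

/-- the dual inequality -/
theorem ls_dual_abs {ι : Type*} (Y : Finset ι) (f : ι → ℕ → ℂ) (hf : ∀ i ∈ Y, ∀ n, ‖f i n‖ ≤ 1)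
    (P : ℝ) (hP0 : 0 ≤ P) (E : Finset ℕ) (lam : ℕ → ℝ) (u v : ℕ) (w : ℕ → ℝ)
    (hw : ∀ n ∈ Ioc u v, w n = ∑ e ∈ E, if e ∣ n then lam e else 0)
    (hw0 : ∀ n ∈ Ioc u v, 0 ≤ w n)
    (hoff : ∀ i ∈ Y, ∀ j ∈ Y, i ≠ j → ∀ e ∈ E,
      ‖∑ n ∈ Ioc u v, (if e ∣ n then f i n * (starRingEnd ℂ) (f j n) else 0)‖ ≤ P)
    (b : ι → ℂ) :
    ∑ n ∈ Ioc u v, w n * ‖∑ i ∈ Y, b i * f i n‖ ^ 2 ≤
      (∑ n ∈ Ioc u v, w n + Y.card * (∑ e ∈ E, |lam e|) * P) * ∑ i ∈ Y, ‖b i‖ ^ 2 := by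
  classical
  obtain ⟨Λ, hΛ⟩ : ∃ Λ : ℝ, Λ = (∑ e ∈ E, |lam e|) * P := ⟨_, rfl⟩
  obtain ⟨W, hW⟩ : ∃ W : ℝ, W = ∑ n ∈ Ioc u v, w n := ⟨_, rfl⟩
  have hW0 : 0 ≤ W := by rw [hW]; exact sum_nonneg hw0
  have hΛ0 : 0 ≤ Λ := by
    rw [hΛ]
    have : 0 ≤ ∑ e ∈ E, |lam e| := sum_nonneg fun _ _ => abs_nonneg _
    positivity
  have hod : ∀ i ∈ Y, ∀ j ∈ Y, i ≠ j →
      ‖∑ n ∈ Ioc u v, (w n : ℂ) * (f i n * (starRingEnd ℂ) (f j n))‖ ≤ Λ := by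
    intro i hi j hj hij
    have h1 : ∑ n ∈ Ioc u v, (w n : ℂ) * (f i n * (starRingEnd ℂ) (f j n)) =
        ∑ e ∈ E, (lam e : ℂ) * ∑ n ∈ Ioc u v,
          (if e ∣ n then f i n * (starRingEnd ℂ) (f j n) else 0) := by
      have h2 : ∀ n ∈ Ioc u v, (w n : ℂ) * (f i n * (starRingEnd ℂ) (f j n)) =
          ∑ e ∈ E, (lam e : ℂ) * (if e ∣ n then f i n * (starRingEnd ℂ) (f j n) else 0) := by
        intro n hn
        rw [hw n hn]
        push_cast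
        rw [sum_mul]
        refine sum_congr rfl fun e _ => ?_
        split_ifs <;> simp
      rw [sum_congr rfl h2, sum_comm]
      exact sum_congr rfl fun e _ => by rw [mul_sum]
    rw [h1, hΛ, sum_mul]
    refine (norm_sum_le _ _).trans (sum_le_sum fun e he => ?_)
    rw [norm_mul, Complex.norm_real, Real.norm_eq_abs]
    exact mul_le_mul_of_nonneg_left (hoff i hi j hj hij e he) (abs_nonneg _)
  set T : ℝ := ∑ n ∈ Ioc u v, w n * ‖∑ i ∈ Y, b i * f i n‖ ^ 2 with hT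
  set S : ℝ := ∑ i ∈ Y, ‖b i‖ ^ 2 with hS
  have hT0 : 0 ≤ T := sum_nonneg fun n hn => mul_nonneg (hw0 n hn) (by positivity)
  have h5 : (T : ℂ) = ∑ i ∈ Y, ∑ j ∈ Y, b i * (starRingEnd ℂ) (b j) *
      ∑ n ∈ Ioc u v, (w n : ℂ) * (f i n * (starRingEnd ℂ) (f j n)) := by
    rw [hT]
    push_cast
    have h6 : ∀ n ∈ Ioc u v, (w n : ℂ) * (‖∑ i ∈ Y, b i * f i n‖ : ℂ) ^ 2 =
        ∑ i ∈ Y, ∑ j ∈ Y, b i * (starRingEnd ℂ) (b j) *
          ((w n : ℂ) * (f i n * (starRingEnd ℂ) (f j n))) := by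
      intro n _
      have h7 : ((‖∑ i ∈ Y, b i * f i n‖ : ℂ)) ^ 2 =
          (∑ i ∈ Y, b i * f i n) * (starRingEnd ℂ) (∑ i ∈ Y, b i * f i n) := by
        rw [Complex.mul_conj, Complex.normSq_eq_norm_sq]
        push_cast
        rfl
      rw [h7, map_sum, sum_mul_sum, mul_sum]
      refine sum_congr rfl fun i _ => ?_
      rw [mul_sum]
      refine sum_congr rfl fun j _ => ?_
      rw [map_mul]
      ring
    rw [sum_congr rfl h6, sum_comm]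
    refine sum_congr rfl fun i _ => ?_
    rw [sum_comm]
    refine sum_congr rfl fun j _ => ?_
    rw [mul_sum]
  have h8 : T ≤ ∑ i ∈ Y, ∑ j ∈ Y, ((if i = j then ‖b i‖ ^ 2 * W else 0) +
      (‖b i‖ ^ 2 / 2 + ‖b j‖ ^ 2 / 2) * Λ) := by
    have h9 : T = ‖(T : ℂ)‖ := by rw [Complex.norm_real, Real.norm_of_nonneg hT0]
    rw [h9, h5]
    refine (norm_sum_le _ _).trans (sum_le_sum fun i hi => ?_)
    refine (norm_sum_le _ _).trans (sum_le_sum fun j hj => ?_)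
    rw [norm_mul, norm_mul, RCLike.norm_conj]
    by_cases hcp : i = j
    · subst hcp
      rw [if_pos rfl]
      have h10 : ‖∑ n ∈ Ioc u v, (w n : ℂ) * (f i n * (starRingEnd ℂ) (f i n))‖ ≤ W := by
        rw [hW]
        refine (norm_sum_le _ _).trans (sum_le_sum fun n hn => ?_)
        rw [norm_mul, norm_mul, RCLike.norm_conj, Complex.norm_real,
          Real.norm_of_nonneg (hw0 n hn)]
        have h11 := hf i hi n
        have h12 : ‖f i n‖ * ‖f i n‖ ≤ 1 := mul_le_one₀ h11 (norm_nonneg _) h11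
        calc w n * (‖f i n‖ * ‖f i n‖) ≤ w n * 1 :=
              mul_le_mul_of_nonneg_left h12 (hw0 n hn)
          _ = w n := mul_one _
      have h13 : 0 ≤ (‖b i‖ ^ 2 / 2 + ‖b i‖ ^ 2 / 2) * Λ := by positivity
      calc ‖b i‖ * ‖b i‖ * ‖∑ n ∈ Ioc u v, (w n : ℂ) * (f i n * (starRingEnd ℂ) (f i n))‖ ≤
          ‖b i‖ * ‖b i‖ * W := mul_le_mul_of_nonneg_left h10 (by positivity)
        _ = ‖b i‖ ^ 2 * W := by ring
        _ ≤ _ := by linarith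
    · rw [if_neg hcp, zero_add]
      have h14 := hod i hi j hj hcp
      have h15 : ‖b i‖ * ‖b j‖ ≤ ‖b i‖ ^ 2 / 2 + ‖b j‖ ^ 2 / 2 := by
        nlinarith [sq_nonneg (‖b i‖ - ‖b j‖)]
      exact mul_le_mul h15 h14 (norm_nonneg _) (by positivity)
  refine h8.trans (le_of_eq ?_)
  have h16 : ∀ i ∈ Y, ∑ j ∈ Y, ((if i = j then ‖b i‖ ^ 2 * W else 0) +
      (‖b i‖ ^ 2 / 2 + ‖b j‖ ^ 2 / 2) * Λ) =
      ‖b i‖ ^ 2 * W + (Y.card * (‖b i‖ ^ 2 / 2) + S / 2) * Λ := by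
    intro i hi
    rw [sum_add_distrib, sum_ite_eq, if_pos hi, ← sum_mul, sum_add_distrib, sum_const,
      nsmul_eq_mul, ← sum_div]
  rw [sum_congr rfl h16, sum_add_distrib, ← sum_mul, ← sum_mul, sum_add_distrib, sum_const,
    nsmul_eq_mul, ← mul_sum, ← sum_div, ← hS, ← hW, mul_assoc (Y.card : ℝ), ← hΛ]
  ring

/-- the weighted large sieve, abstract family -/
theorem ls_abs {ι : Type*} (Y : Finset ι) (f : ι → ℕ → ℂ) (hf : ∀ i ∈ Y, ∀ n, ‖f i n‖ ≤ 1)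
    (P : ℝ) (hP0 : 0 ≤ P) (E : Finset ℕ) (lam : ℕ → ℝ) (u v : ℕ) (w : ℕ → ℝ)
    (hw : ∀ n ∈ Ioc u v, w n = ∑ e ∈ E, if e ∣ n then lam e else 0)
    (hw0 : ∀ n ∈ Ioc u v, 0 ≤ w n)
    (hoff : ∀ i ∈ Y, ∀ j ∈ Y, i ≠ j → ∀ e ∈ E,
      ‖∑ n ∈ Ioc u v, (if e ∣ n then f i n * (starRingEnd ℂ) (f j n) else 0)‖ ≤ P)
    (a : ℕ → ℂ) (ha : ∀ n ∈ Ioc u v, w n = 0 → a n = 0) :
    ∑ i ∈ Y, ‖∑ n ∈ Ioc u v, a n * f i n‖ ^ 2 ≤
      (∑ n ∈ Ioc u v, w n + Y.card * (∑ e ∈ E, |lam e|) * P) *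
        ∑ n ∈ Ioc u v, ‖a n‖ ^ 2 / w n := by
  classical
  set A : ι → ℂ := fun i => ∑ n ∈ Ioc u v, a n * f i n with hA
  set b : ι → ℂ := fun i => (starRingEnd ℂ) (A i) with hb
  set S : ℝ := ∑ i ∈ Y, ‖A i‖ ^ 2 with hS
  set W : ℝ := ∑ n ∈ Ioc u v, ‖a n‖ ^ 2 / w n with hW
  set K : ℝ := ∑ n ∈ Ioc u v, w n + Y.card * (∑ e ∈ E, |lam e|) * P with hK
  have hS0 : 0 ≤ S := sum_nonneg fun _ _ => by positivity
  have hW0 : 0 ≤ W := sum_nonneg fun n hn => div_nonneg (by positivity) (hw0 n hn)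
  have hK0 : 0 ≤ K := by
    rw [hK]
    have h1 : 0 ≤ ∑ n ∈ Ioc u v, w n := sum_nonneg hw0
    have : 0 ≤ ∑ e ∈ E, |lam e| := sum_nonneg fun _ _ => abs_nonneg _
    positivity
  have hbn : ∀ i, ‖b i‖ = ‖A i‖ := fun i => by rw [hb]; exact RCLike.norm_conj _
  have h1 : (S : ℂ) = ∑ n ∈ Ioc u v, a n * ∑ i ∈ Y, b i * f i n := by
    rw [hS]
    push_cast
    have : ∀ i ∈ Y, ((‖A i‖ : ℂ)) ^ 2 = ∑ n ∈ Ioc u v, a n * (b i * f i n) := by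
      intro i _
      have h2 : ((‖A i‖ : ℂ)) ^ 2 = A i * (starRingEnd ℂ) (A i) := by
        rw [Complex.mul_conj, Complex.normSq_eq_norm_sq]
        push_cast
        rfl
      rw [h2]
      change (∑ n ∈ Ioc u v, a n * f i n) * b i = _
      rw [sum_mul]
      refine sum_congr rfl fun n _ => ?_
      ring
    rw [sum_congr rfl this, sum_comm]
    refine sum_congr rfl fun n _ => ?_
    rw [mul_sum]
  have h2 : S ≤ ∑ n ∈ Ioc u v, (‖a n‖ / Real.sqrt (w n)) *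
      (Real.sqrt (w n) * ‖∑ i ∈ Y, b i * f i n‖) := by
    have h3 : S = ‖(S : ℂ)‖ := by rw [Complex.norm_real, Real.norm_of_nonneg hS0]
    rw [h3, h1]
    refine (norm_sum_le _ _).trans (sum_le_sum fun n hn => ?_)
    rw [norm_mul]
    by_cases h0 : w n = 0
    · rw [ha n hn h0, norm_zero, zero_mul, zero_div, zero_mul]
    · have h4 : 0 < Real.sqrt (w n) := Real.sqrt_pos.2 (lt_of_le_of_ne (hw0 n hn) (Ne.symm h0))
      apply le_of_eq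
      field_simp
  have h4 : S ^ 2 ≤ W * (∑ n ∈ Ioc u v, w n * ‖∑ i ∈ Y, b i * f i n‖ ^ 2) := by
    refine (pow_le_pow_left₀ hS0 h2 2).trans ?_
    refine (sum_mul_sq_le_sq_mul_sq _ _ _).trans (le_of_eq ?_)
    congr 1
    · rw [hW]
      refine sum_congr rfl fun n hn => ?_
      rw [div_pow, Real.sq_sqrt (hw0 n hn)]
    · refine sum_congr rfl fun n hn => ?_
      rw [mul_pow, Real.sq_sqrt (hw0 n hn)]
  have h5 := ls_dual_abs Y f hf P hP0 E lam u v w hw hw0 hoff b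
  have hbS : ∑ i ∈ Y, ‖b i‖ ^ 2 = S := sum_congr rfl fun i _ => by rw [hbn i]
  rw [← hK, hbS] at h5
  have h6 : S ^ 2 ≤ K * W * S := by
    calc S ^ 2 ≤ W * (∑ n ∈ Ioc u v, w n * ‖∑ i ∈ Y, b i * f i n‖ ^ 2) := h4
      _ ≤ W * (K * S) := mul_le_mul_of_nonneg_left h5 hW0
      _ = K * W * S := by ring
  rcases hS0.eq_or_lt with h7 | h7
  · rw [← h7]
    exact mul_nonneg hK0 hW0
  · nlinarith

/-- the weighted large sieve, completely multiplicative functions; `P` bounds the sums of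
`f_i conj f_j` (`i ≠ j`) over intervals -/
theorem ls_mul {ι : Type*} (Y : Finset ι) (f : ι → ℕ → ℂ) (hf : ∀ i ∈ Y, ∀ n, ‖f i n‖ ≤ 1)
    (hm : ∀ i ∈ Y, ∀ m n, f i (m * n) = f i m * f i n)
    (P : ℝ) (hP0 : 0 ≤ P)
    (hP : ∀ i ∈ Y, ∀ j ∈ Y, i ≠ j → ∀ a b : ℕ,
      ‖∑ n ∈ Ioc a b, f i n * (starRingEnd ℂ) (f j n)‖ ≤ P)
    (E : Finset ℕ) (lam : ℕ → ℝ) (u v : ℕ) (w : ℕ → ℝ)
    (hw : ∀ n ∈ Ioc u v, w n = ∑ e ∈ E, if e ∣ n then lam e else 0)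
    (hw0 : ∀ n ∈ Ioc u v, 0 ≤ w n)
    (a : ℕ → ℂ) (ha : ∀ n ∈ Ioc u v, w n = 0 → a n = 0) :
    ∑ i ∈ Y, ‖∑ n ∈ Ioc u v, a n * f i n‖ ^ 2 ≤
      (∑ n ∈ Ioc u v, w n + Y.card * (∑ e ∈ E, |lam e|) * P) *
        ∑ n ∈ Ioc u v, ‖a n‖ ^ 2 / w n := by
  refine ls_abs Y f hf P hP0 E lam u v w hw hw0 ?_ a ha
  intro i hi j hj hij e _
  rcases Nat.eq_zero_or_pos e with rfl | he
  · rw [sum_mult_zero, norm_zero]
    exact hP0
  · rw [sum_mult u v e he]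
    have h1 : ∀ m ∈ Ioc (u / e) (v / e), f i (e * m) * (starRingEnd ℂ) (f j (e * m)) =
        (f i e * (starRingEnd ℂ) (f j e)) * (f i m * (starRingEnd ℂ) (f j m)) := by
      intro m _
      rw [hm i hi, hm j hj, map_mul]
      ring
    rw [sum_congr rfl h1, ← mul_sum, norm_mul, norm_mul, RCLike.norm_conj]
    have h2 : ‖f i e‖ * ‖f j e‖ ≤ 1 := mul_le_one₀ (hf i hi e) (norm_nonneg _) (hf j hj e)
    calc _ ≤ 1 * ‖∑ m ∈ Ioc (u / e) (v / e), f i m * (starRingEnd ℂ) (f j m)‖ :=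
          mul_le_mul_of_nonneg_right h2 (norm_nonneg _)
      _ ≤ P := by rw [one_mul]; exact hP i hi j hj hij _ _

/-- the weighted large sieve for a family of primitive characters -/
theorem ls_w {Y : Finset PC} {N Dv : ℝ} (hY : PFam Y N) (hN : 1 ≤ N) (hDv0 : 0 ≤ Dv)
    (hDv : ∀ m : ℕ, 1 ≤ m → (m : ℝ) ≤ N → (m.divisors.card : ℝ) ≤ Dv)
    (E : Finset ℕ) (lam : ℕ → ℝ) (u v : ℕ) (w : ℕ → ℝ)
    (hw : ∀ n ∈ Ioc u v, w n = ∑ e ∈ E, if e ∣ n then lam e else 0)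
    (hw0 : ∀ n ∈ Ioc u v, 0 ≤ w n) (a : ℕ → ℂ) (ha : ∀ n ∈ Ioc u v, w n = 0 → a n = 0) :
    ∑ ψ ∈ Y, ‖∑ n ∈ Ioc u v, a n * pv ψ n‖ ^ 2 ≤
      (∑ n ∈ Ioc u v, w n +
        Y.card * (∑ e ∈ E, |lam e|) * (Dv * Real.sqrt N * (1 + Real.log N))) *
        ∑ n ∈ Ioc u v, ‖a n‖ ^ 2 / w n := by
  have hP0 : 0 ≤ Dv * Real.sqrt N * (1 + Real.log N) := by
    have := Real.log_nonneg hN
    have := Real.sqrt_nonneg N
    positivity
  refine ls_mul Y pv (fun ψ _ n => pv_norm_le ψ n) (fun ψ _ m n => pv_mul ψ m n) _ hP0 ?_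
    E lam u v w hw hw0 a ha
  intro ψ hψ ψ' hψ' hne c d
  have h := pc_pv_fam hY hDv hψ hψ' hne 1 c d
  simpa using h

end Pool.MP_dd84fd_nt.BX
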