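import Pool.Agent.Lib.MP_dd84fd_nt.BX.CId
import Pool.Agent.Lib.MP_dd84fd_nt.BX.LsB

/-!
# BX/CSq: the two square bounds (weighted large sieve with majorant `SS`)

`ls_mul` (BX/LsB) with `E = ES 32 z`, `lam e = μ(e)`, `w = SS z` (`Sv_eq`, `Sv_nonneg`),
`∑_E |μ| ≤ #ES ≤ lvl z` (`card_ES`), `P = P2`.

`sq_cc`: `a = cc z U` vanishes where `SS` does; `∑ a²/SS = ∑ SS cs² ≤ ∑ SS 4^ω ≤ C H / log z`
(`cs_abs`, `StarH`) and `∑ SS ≤ ∑ SS 4^ω ≤ C H / log z`: the bound is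
`(C H / log z + #Y lvl P2) * (C H / log z) ≤ 2 (C H / log z)²`.
`sq_tht`: `a = θ`, supported on primes `p > A ≥ z`, where `SS p = 1` (`Sv_rough`); elsewhere
`a = 0` (`0² / w = 0`): `∑ a²/SS ≤ (log X)² #{primes} ≤ (log X)² ∑ SS ≤ (log X)² C H / log z`.
(`SS n = 0` and `n` prime `> z` is impossible, so `ha` holds.)
-/

set_option autoImplicit false

namespace Pool.MP_dd84fd_nt.BX

open Finset

private theorem csq_core {ι : Type} {Y : Finset ι} {f : ι → ℕ → ℂ} {P1 P2 : ℝ} (hF : ChF Y f P1 P2)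
    {z : ℝ} (hz : 2 ≤ z) (hP2 : 0 ≤ P2) (A B : ℕ) (a : ℕ → ℝ)
    (ha : ∀ n ∈ Ioc A B, SS z n = 0 → a n = 0) (M D : ℝ) (hM : ∑ n ∈ Ioc A B, SS z n ≤ M)
    (hD : ∑ n ∈ Ioc A B, a n ^ 2 / SS z n ≤ D) (h3 : Y.card * lvl z * P2 ≤ M) :
    ∑ i ∈ Y, ‖∑ l ∈ Ioc A B, ((a l : ℝ) : ℂ) * f i l‖ ^ 2 ≤ 2 * M * D := by
  have hz1 : (1 : ℝ) ≤ z := by linarith
  have hS0 : ∀ n, 0 ≤ SS z n := fun n => Sv_nonneg 32 z n
  have h := ls_mul Y f hF.bd hF.mul P2 hP2 hF.pv2 (ES 32 z)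
    (fun e => (ArithmeticFunction.moebius e : ℝ)) A B (SS z) (fun n _ => by
      unfold SS
      rw [Sv_eq 32 hz1 n, sum_filter]) (fun n _ => hS0 n) (fun n => ((a n : ℝ) : ℂ)) (fun n hn h0 => by
      show ((a n : ℝ) : ℂ) = 0
      rw [ha n hn h0, Complex.ofReal_zero])
  refine h.trans ?_
  have hmu : ∑ e ∈ ES 32 z, |((ArithmeticFunction.moebius e : ℤ) : ℝ)| ≤ lvl z := by
    have h1 : ∑ e ∈ ES 32 z, |((ArithmeticFunction.moebius e : ℤ) : ℝ)| ≤ ∑ _e ∈ ES 32 z, (1 : ℝ) := by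
      refine sum_le_sum fun e _ => ?_
      rw [← Int.cast_abs]
      have := ArithmeticFunction.abs_moebius_le_one (n := e)
      exact_mod_cast this
    rw [sum_const, nsmul_eq_mul, mul_one] at h1
    have h2 := card_ES 32 hz1
    unfold lvl
    have h4 : (4 * 32 + 4 : ℕ) = 132 := by norm_num
    rw [h4] at h2
    exact h1.trans h2
  have hR : ∑ n ∈ Ioc A B, ‖((a n : ℝ) : ℂ)‖ ^ 2 / SS z n ≤ D := by
    refine le_trans (le_of_eq ?_) hD
    refine sum_congr rfl fun n _ => ?_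
    rw [Complex.norm_real, Real.norm_eq_abs, sq_abs]
  have hR0 : 0 ≤ ∑ n ∈ Ioc A B, ‖((a n : ℝ) : ℂ)‖ ^ 2 / SS z n :=
    sum_nonneg fun n _ => div_nonneg (by positivity) (hS0 n)
  have hmu0 : 0 ≤ ∑ e ∈ ES 32 z, |((ArithmeticFunction.moebius e : ℤ) : ℝ)| :=
    sum_nonneg fun _ _ => abs_nonneg _
  have hL0 : 0 ≤ ∑ n ∈ Ioc A B, SS z n +
      Y.card * (∑ e ∈ ES 32 z, |((ArithmeticFunction.moebius e : ℤ) : ℝ)|) * P2 := by
    have h1 : 0 ≤ ∑ n ∈ Ioc A B, SS z n := sum_nonneg fun n _ => hS0 n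
    positivity
  have hL : ∑ n ∈ Ioc A B, SS z n +
      Y.card * (∑ e ∈ ES 32 z, |((ArithmeticFunction.moebius e : ℤ) : ℝ)|) * P2 ≤ 2 * M := by
    have h1 : (Y.card : ℝ) * (∑ e ∈ ES 32 z, |((ArithmeticFunction.moebius e : ℤ) : ℝ)|) * P2 ≤
        Y.card * lvl z * P2 := by gcongr
    linarith
  exact mul_le_mul hL hR hR0 (hL0.trans hL)

private theorem csq_four (n : ℕ) : (1 : ℝ) ≤ (4 : ℝ) ^ omg n := one_le_pow₀ (by norm_num)

theorem sq_cc {ι : Type} {Y : Finset ι} {f : ι → ℕ → ℂ} {P1 P2 : ℝ} (hF : ChF Y f P1 P2)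
    {z : ℝ} (hz : 2 ≤ z) {X : ℕ} {C : ℝ} (hC : 0 ≤ C) (hP2 : 0 ≤ P2) (hS : StarH z X C)
    (U A B : ℕ) (H : ℝ) (hB : B ≤ X) (hAB : (B : ℝ) - A ≤ H)
    (h1 : (B : ℝ) ^ (1 / 4 : ℝ) ≤ H) (h2 : z ^ (528 : ℕ) ≤ H)
    (h3 : Y.card * lvl z * P2 ≤ C * H / Real.log z) :
    ∑ i ∈ Y, ‖∑ l ∈ Ioc A B, ((cc z U l : ℝ) : ℂ) * f i l‖ ^ 2 ≤
      2 * (C * H / Real.log z) ^ 2 := by
  have hS0 : ∀ n, 0 ≤ SS z n := fun n => Sv_nonneg 32 z n
  have hst := hS A B H hB hAB h1 h2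
  have hM : ∑ n ∈ Ioc A B, SS z n ≤ C * H / Real.log z := by
    refine le_trans (sum_le_sum fun n _ => ?_) hst
    exact le_mul_of_one_le_right (hS0 n) (csq_four n)
  have hD : ∑ n ∈ Ioc A B, cc z U n ^ 2 / SS z n ≤ C * H / Real.log z := by
    refine le_trans (sum_le_sum fun n hn => ?_) hst
    rw [mem_Ioc] at hn
    have hcs := cs_abs U (l := n) (by omega)
    have h4 : cs U n ^ 2 ≤ (4 : ℝ) ^ omg n := by
      rw [← sq_abs, show (4 : ℝ) = 2 ^ 2 by norm_num, ← pow_mul, mul_comm 2, pow_mul]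
      exact pow_le_pow_left₀ (abs_nonneg _) hcs 2
    have h5 : cc z U n ^ 2 / SS z n = SS z n * cs U n ^ 2 := by
      unfold cc
      by_cases h0 : SS z n = 0
      · rw [h0]
        simp
      · field_simp
    rw [h5]
    exact mul_le_mul_of_nonneg_left h4 (hS0 n)
  have h := csq_core hF hz hP2 A B (cc z U) (fun n _ h0 => by
    unfold cc
    rw [h0, zero_mul]) _ _ hM hD h3
  refine h.trans (le_of_eq ?_)
  ring

theorem sq_tht {ι : Type} {Y : Finset ι} {f : ι → ℕ → ℂ} {P1 P2 : ℝ} (hF : ChF Y f P1 P2)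
    {z : ℝ} (hz : 2 ≤ z) {X : ℕ} {C : ℝ} (hC : 0 ≤ C) (hP2 : 0 ≤ P2) (hS : StarH z X C)
    (A B : ℕ) (H : ℝ) (hB : B ≤ X) (hA : z ≤ A) (hAB : (B : ℝ) - A ≤ H)
    (h1 : (B : ℝ) ^ (1 / 4 : ℝ) ≤ H) (h2 : z ^ (528 : ℕ) ≤ H)
    (h3 : Y.card * lvl z * P2 ≤ C * H / Real.log z) :
    ∑ i ∈ Y, ‖∑ k ∈ Ioc A B, ((tht k : ℝ) : ℂ) * f i k‖ ^ 2 ≤
      2 * (C * H / Real.log z * Real.log X) ^ 2 := by
  have hz1 : (1 : ℝ) ≤ z := by linarith
  have hS0 : ∀ n, 0 ≤ SS z n := fun n => Sv_nonneg 32 z n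
  have hst := hS A B H hB hAB h1 h2
  have hM : ∑ n ∈ Ioc A B, SS z n ≤ C * H / Real.log z := by
    refine le_trans (sum_le_sum fun n _ => ?_) hst
    exact le_mul_of_one_le_right (hS0 n) (csq_four n)
  have hpr : ∀ n ∈ Ioc A B, n.Prime → SS z n = 1 := by
    intro n hn hp
    rw [mem_Ioc] at hn
    refine Sv_rough 32 hz1 ?_
    intro p hp' hpn
    rw [(Nat.prime_dvd_prime_iff_eq hp' hp).1 hpn]
    have h4 : (A : ℝ) < n := by exact_mod_cast hn.1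
    linarith
  have hD : ∑ n ∈ Ioc A B, tht n ^ 2 / SS z n ≤ Real.log X ^ 2 * (C * H / Real.log z) := by
    have h4 : ∑ n ∈ Ioc A B, tht n ^ 2 / SS z n ≤ ∑ n ∈ Ioc A B, Real.log X ^ 2 * SS z n := by
      refine sum_le_sum fun n hn => ?_
      by_cases hp : n.Prime
      · rw [hpr n hn hp, div_one, mul_one]
        unfold tht
        rw [if_pos hp]
        rw [mem_Ioc] at hn
        have h5 : (1 : ℝ) ≤ n := by
          have : 1 ≤ n := by omega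
          exact_mod_cast this
        have h6 : (n : ℝ) ≤ X := by
          have : n ≤ X := by omega
          exact_mod_cast this
        exact pow_le_pow_left₀ (Real.log_nonneg h5) (Real.log_le_log (by linarith) h6) 2
      · unfold tht
        rw [if_neg hp]
        have h5 := hS0 n
        rw [zero_pow (by norm_num), zero_div]
        positivity
    rw [← mul_sum] at h4
    exact h4.trans (mul_le_mul_of_nonneg_left hM (sq_nonneg _))
  have h := csq_core hF hz hP2 A B tht (fun n hn h0 => by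
    by_cases hp : n.Prime
    · rw [hpr n hn hp] at h0
      exact absurd h0 one_ne_zero
    · unfold tht
      rw [if_neg hp]) _ _ hM hD h3
  refine h.trans (le_of_eq ?_)
  ring

end Pool.MP_dd84fd_nt.BX
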