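import Pool.Agent.Lib.MP_dd84fd_nt.BX.CWin
import Pool.Agent.Lib.MP_dd84fd_nt.BX.CSq

/-!
# BX/CBil: the bilinear part

`exists_grid`, then `window` with `a = cc z U`, `b = θ`, `Ga = G`, `Gb = log X`,
`Ca = 3 C / log z`, `Cb = 3 C log X / log z`.

`hA`: `gI` is `Ioc A B` with `B ≤ X`, `B ≤ y_{r+1} ≤ 2 y_r`, `B - A ≤ y_{r+1} - y_r + 1 =
δ y_r + 1 ≤ 2 δ y_r =: H` (`dU`, `y_r ≥ U`); `B^(1/4) ≤ (2 y_r)^(1/4) = (2U)^(1/4) (y_r/U)^(1/4) ≤
2 δ U (y_r/U) = H` (`a1`); `a2`, `a3` (both are monotone in `y_r ≥ U`); `sq_cc`: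
`2 (C H / log z)² = 8 (C δ y_r / log z)² ≤ (Ca δ y_r)²`.
`hB`: `y = y_r < V` (`exists_grid`), `Ioc ⌊α/y⌋ ⌊β/y⌋`: `⌊β/y⌋ - ⌊α/y⌋ ≤ h/y + 1 ≤ 2h/y =: H`
(`b0`), `⌊β/y⌋ ≤ X`, `⌊β/y⌋^(1/4) ≤ (X/y)^(1/4) = (X/V)^(1/4) (V/y)^(1/4) ≤ (2h/V)(V/y) = H` (`b1`);
`b2`, `b3` monotone; `⌊α/y⌋ ≥ ⌊h/V⌋ ≥ h/V - 1 ≥ z^528/2 - 1 ≥ z` (`b2`, `z2`); `sq_tht`:
`2 (C H log X / log z)² = 8 (..)² ≤ (Cb h / y)²`.
The main term: `R δ ≤ 2 log V + 1 ≤ 3 log X`, `Ca Cb = 9 C² log X / (log z)²`,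
`log X ≤ u log z`: `≤ 27 C² u² √T h`.
-/

set_option autoImplicit false

namespace Pool.MP_dd84fd_nt.BX

open Finset

/-- the quarter power grows slower than the identity -/
private theorem cbil_rpow {a x H y : ℝ} (ha : 0 < a) (hx : 0 ≤ x) (hxa : x ≤ a * y) (hy : 1 ≤ y)
    (h : a ^ (1 / 4 : ℝ) ≤ H) : x ^ (1 / 4 : ℝ) ≤ H * y := by
  have h0 : (0 : ℝ) ≤ a ^ (1 / 4 : ℝ) := Real.rpow_nonneg ha.le _
  have hH : 0 ≤ H := h0.trans h
  calc x ^ (1 / 4 : ℝ) ≤ (a * y) ^ (1 / 4 : ℝ) := Real.rpow_le_rpow hx hxa (by norm_num)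
    _ = a ^ (1 / 4 : ℝ) * y ^ (1 / 4 : ℝ) := Real.mul_rpow ha.le (by linarith)
    _ ≤ H * y := by
        refine mul_le_mul h ?_ (Real.rpow_nonneg (by linarith) _) hH
        calc y ^ (1 / 4 : ℝ) ≤ y ^ (1 : ℝ) := Real.rpow_le_rpow_of_exponent_le hy (by norm_num)
          _ = y := Real.rpow_one y

private theorem cbil_z {z : ℝ} (hz : 2 ≤ z) : 2 * z + 2 ≤ z ^ (528 : ℕ) := by
  have h1 : z ^ 3 ≤ z ^ (528 : ℕ) := pow_le_pow_right₀ (by linarith) (by norm_num)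
  have h2 : 2 * z + 2 ≤ z ^ 3 := by nlinarith [sq_nonneg (z - 2), mul_pos (by linarith : (0:ℝ) < z) (by linarith : (0:ℝ) < z)]
  linarith

theorem bil_bd {ι : Type} {Y : Finset ι} {f : ι → ℕ → ℂ} {X h U V T : ℕ}
    {z u δ P1 P2 C G N : ℝ} (hp : Prm X h U V z u δ P1 P2 C G N) (hF : ChF Y f P1 P2)
    (hS : StarH z X C) (hY : (Y.card : ℝ) ≤ N) (α β : ℕ → ℕ) (hc : Cells X h T α β) :
    ∑ i ∈ Y, nt T (fun t => Bil (fun l => ((cc z U l : ℝ) : ℂ)) (fun k => ((tht k : ℝ) : ℂ))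
        U V (f i) (α t) (β t)) ≤
      27 * C ^ 2 * u ^ 2 * (Real.sqrt T * h) +
        Y.card * (Real.sqrt T * (2 * G * Real.log X * (δ * X * Real.log X + V))) := by
  classical
  have hz := hp.z2
  have hz1 : (1 : ℝ) ≤ z := by linarith
  have hlz : 0 < Real.log z := Real.log_pos (by linarith)
  have hC1 := hp.C1
  have hC0 : (0 : ℝ) ≤ C := by linarith
  have hL1 := hp.lX
  have hL0 : 0 < Real.log X := by linarith
  have hδ := hp.d0
  have hP2 : (0 : ℝ) ≤ P2 := by linarith [hp.P21]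
  have hU : (1 : ℝ) ≤ U := by exact_mod_cast hp.U1
  have hU0 : (0 : ℝ) < U := by linarith
  have hV1 : 1 ≤ V := hp.U1.trans hp.UV
  have hV : (1 : ℝ) ≤ V := by exact_mod_cast hV1
  have hV0 : (0 : ℝ) < V := by linarith
  have hX1 : 1 ≤ X := hV1.trans hp.VX
  have hXr : (1 : ℝ) ≤ X := by exact_mod_cast hX1
  have hh : (1 : ℝ) ≤ h := by exact_mod_cast hp.h1
  have hlvl : 0 ≤ lvl z := by unfold lvl; positivity
  have hG : 0 ≤ G := by
    have h1 := hp.g1 1 (by simp [hX1])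
    have h2 : (0 : ℝ) ≤ (4 : ℝ) ^ omg 1 := by positivity
    linarith
  obtain ⟨R, hR, hRV, hRd⟩ := exists_grid U V δ hp.U1 hp.UV hδ hp.d1
  have hyg : ∀ r, (U : ℝ) ≤ yg U δ r := by
    intro r
    unfold yg
    have h1 : (1 : ℝ) ≤ (1 + δ) ^ r := one_le_pow₀ (by linarith)
    nlinarith
  have hygs : ∀ r, yg U δ (r + 1) = (1 + δ) * yg U δ r := by
    intro r
    unfold yg
    ring
  have hYN : ∀ W : ℝ, N * lvl z * P2 ≤ W → Y.card * lvl z * P2 ≤ W := by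
    intro W hW
    refine le_trans ?_ hW
    exact mul_le_mul_of_nonneg_right (mul_le_mul_of_nonneg_right hY hlvl) hP2
  set Ca : ℝ := 3 * C / Real.log z with hCa
  set Cb : ℝ := 3 * C * Real.log X / Real.log z with hCb
  have hCa0 : 0 ≤ Ca := by rw [hCa]; positivity
  have hCb0 : 0 ≤ Cb := by rw [hCb]; positivity
  have ha : ∀ l ∈ Ioc U V, ‖((cc z U l : ℝ) : ℂ)‖ ≤ G := by
    intro l hl
    rw [mem_Ioc] at hl
    have hl1 : 1 ≤ l := by omega
    rw [Complex.norm_real, Real.norm_eq_abs]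
    exact (cc_abs hz1 U hl1).trans (hp.g1 l (by rw [mem_Icc]; exact ⟨hl1, hl.2.trans hp.VX⟩))
  have hb : ∀ k ≤ X, ‖((tht k : ℝ) : ℂ)‖ ≤ Real.log X := by
    intro k hk
    rw [Complex.norm_real, Real.norm_eq_abs]
    unfold tht
    split_ifs with hkp
    · have hk1 : (1 : ℝ) ≤ k := by exact_mod_cast hkp.one_le
      rw [abs_of_nonneg (Real.log_nonneg hk1)]
      exact Real.log_le_log (by linarith) (by exact_mod_cast hk)
    · rw [abs_zero]; exact hL0.le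
  have hA : ∀ r < R, ∑ i ∈ Y, ‖Aw (fun l => ((cc z U l : ℝ) : ℂ)) U V δ (f i) r‖ ^ 2 ≤
      (Ca * (δ * yg U δ r)) ^ 2 := by
    intro r hr
    set y := yg U δ r with hy
    have hyU : (U : ℝ) ≤ y := hyg r
    have hy0 : 0 < y := by linarith
    have hyV : y < V := hRV r hr
    have hy' := hygs r
    rw [← hy] at hy'
    have hfl : ⌊y⌋₊ ≤ V := by
      have := Nat.floor_le hy0.le
      exact_mod_cast (this.trans hyV.le)
    have hr1 : 1 ≤ y / U := by rw [le_div_iff₀ hU0]; linarith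
    have hyy : y = U * (y / U) := by field_simp
    have hB0 : ((min ⌊yg U δ (r + 1)⌋₊ V : ℕ) : ℝ) ≤ yg U δ (r + 1) := by
      have h1 : ((min ⌊yg U δ (r + 1)⌋₊ V : ℕ) : ℝ) ≤ (⌊yg U δ (r + 1)⌋₊ : ℝ) := by
        exact_mod_cast min_le_left _ _
      exact h1.trans (Nat.floor_le (by rw [hy']; positivity))
    have hmain := sq_cc hF hz (X := X) (C := C) hC0 hP2 hS U (min ⌊y⌋₊ V)
      (min ⌊yg U δ (r + 1)⌋₊ V) (2 * δ * y) ((min_le_right _ _).trans hp.VX) ?_ ?_ ?_ ?_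
    · have e1 : ∑ i ∈ Y, ‖Aw (fun l => ((cc z U l : ℝ) : ℂ)) U V δ (f i) r‖ ^ 2 =
          ∑ i ∈ Y, ‖∑ l ∈ Ioc (min ⌊y⌋₊ V) (min ⌊yg U δ (r + 1)⌋₊ V),
            ((cc z U l : ℝ) : ℂ) * f i l‖ ^ 2 := rfl
      rw [e1]
      refine hmain.trans ?_
      have e2 : 2 * (C * (2 * δ * y) / Real.log z) ^ 2 =
          8 * (C * δ * y / Real.log z) ^ 2 := by ring
      have e3 : (Ca * (δ * y)) ^ 2 = 9 * (C * δ * y / Real.log z) ^ 2 := by rw [hCa]; ring
      rw [e2, e3]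
      nlinarith [sq_nonneg (C * δ * y / Real.log z)]
    · -- length
      have h1 : y - 1 ≤ ((min ⌊y⌋₊ V : ℕ) : ℝ) := by
        rw [min_eq_left hfl]
        exact (Nat.sub_one_lt_floor y).le
      have h2 : 1 ≤ δ * y := hp.dU.trans (mul_le_mul_of_nonneg_left hyU hδ.le)
      have h3 := hB0.trans_eq hy'
      have h4 : (1 + δ) * y = y + δ * y := by ring
      have h5 : 2 * δ * y = δ * y + δ * y := by ring
      linarith
    · -- quarter power
      have h1 : ((min ⌊yg U δ (r + 1)⌋₊ V : ℕ) : ℝ) ≤ (2 * U) * (y / U) := by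
        refine hB0.trans ?_
        rw [hy']
        have : (2 * U) * (y / U) = 2 * y := by field_simp
        rw [this]
        nlinarith [hp.d1]
      have h2 := cbil_rpow (a := 2 * U) (by linarith) (Nat.cast_nonneg _) h1 hr1 hp.a1
      refine h2.trans (le_of_eq ?_)
      field_simp
    · exact hp.a2.trans (mul_le_mul_of_nonneg_left hyU (by linarith))
    · refine hYN _ (hp.a3.trans ?_)
      refine div_le_div_of_nonneg_right ?_ hlz.le
      exact mul_le_mul_of_nonneg_left (mul_le_mul_of_nonneg_left hyU (by linarith)) hC0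
  have hB : ∀ r < R, ∀ t ∈ Icc 1 T,
      ∑ i ∈ Y, ‖Bw (fun k => ((tht k : ℝ) : ℂ)) U δ (f i) (α t) (β t) r‖ ^ 2 ≤
      (Cb * (h / yg U δ r)) ^ 2 := by
    intro r hr t ht
    obtain ⟨hc1, hc2, hc3, hc4⟩ := hc t ht
    set y := yg U δ r with hy
    have hyU : (U : ℝ) ≤ y := hyg r
    have hy1 : 1 ≤ y := hU.trans hyU
    have hy0 : 0 < y := by linarith
    have hyV : y < V := hRV r hr
    have hyh : y ≤ h := hyV.le.trans hp.b0
    have hVy : 1 ≤ (V : ℝ) / y := by rw [le_div_iff₀ hy0]; linarith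
    have hc1r : (h : ℝ) ≤ α t := by exact_mod_cast hc1
    have hc3r : (β t : ℝ) ≤ α t + h := by exact_mod_cast hc3
    have hc4r : (β t : ℝ) ≤ X := by exact_mod_cast hc4
    have hα0 : (0 : ℝ) ≤ α t / y := by positivity
    have hβ0 : (0 : ℝ) ≤ β t / y := by positivity
    have hflα := Nat.sub_one_lt_floor ((α t : ℝ) / y)
    have hflβ := Nat.floor_le hβ0
    have hhV : 2 * (h : ℝ) / V * ((V : ℝ) / y) = 2 * h / y := by field_simp
    have hmono : 2 * (h : ℝ) / V ≤ 2 * h / y := by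
      rw [← hhV]
      have : (0 : ℝ) ≤ 2 * h / V := by positivity
      nlinarith
    have hmain := sq_tht hF hz (X := X) (C := C) hC0 hP2 hS ⌊(α t : ℝ) / y⌋₊
      ⌊(β t : ℝ) / y⌋₊ (2 * h / y) ?_ ?_ ?_ ?_ ?_ ?_
    · have e1 : ∑ i ∈ Y, ‖Bw (fun k => ((tht k : ℝ) : ℂ)) U δ (f i) (α t) (β t) r‖ ^ 2 =
          ∑ i ∈ Y, ‖∑ k ∈ Ioc ⌊(α t : ℝ) / y⌋₊ ⌊(β t : ℝ) / y⌋₊,
            ((tht k : ℝ) : ℂ) * f i k‖ ^ 2 := rfl
      rw [e1]
      refine hmain.trans ?_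
      have e2 : 2 * (C * (2 * h / y) / Real.log z * Real.log X) ^ 2 =
          8 * (C * (h / y) * Real.log X / Real.log z) ^ 2 := by ring
      have e3 : (Cb * (h / y)) ^ 2 = 9 * (C * (h / y) * Real.log X / Real.log z) ^ 2 := by
        rw [hCb]; ring
      rw [e2, e3]
      nlinarith [sq_nonneg (C * (h / y) * Real.log X / Real.log z)]
    · -- `≤ X`
      have h1 : (⌊(β t : ℝ) / y⌋₊ : ℝ) ≤ X := by
        refine hflβ.trans ((div_le_self (Nat.cast_nonneg _) hy1).trans hc4r)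
      exact_mod_cast h1
    · -- `z ≤ ⌊α/y⌋`
      have h1 : (h : ℝ) / V ≤ α t / y := by
        calc (h : ℝ) / V ≤ h / y := div_le_div_of_nonneg_left (by linarith) hy0 hyV.le
          _ ≤ α t / y := div_le_div_of_nonneg_right hc1r hy0.le
      have h2 := hp.b2
      have h3 := cbil_z hz
      have h4 : 2 * (h : ℝ) / V = 2 * (h / V) := by ring
      linarith
    · -- length
      have h1 : (β t : ℝ) / y - α t / y ≤ h / y := by
        rw [← sub_div]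
        exact div_le_div_of_nonneg_right (by linarith) hy0.le
      have h2 : (1 : ℝ) ≤ h / y := by rw [le_div_iff₀ hy0]; linarith
      have h3 : 2 * (h : ℝ) / y = h / y + h / y := by ring
      linarith
    · -- quarter power
      have h1 : (⌊(β t : ℝ) / y⌋₊ : ℝ) ≤ (X / V) * (V / y) := by
        refine hflβ.trans ?_
        have : (X : ℝ) / V * (V / y) = X / y := by field_simp
        rw [this]
        exact div_le_div_of_nonneg_right hc4r hy0.le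
      have h2 := cbil_rpow (a := (X : ℝ) / V) (by positivity) (Nat.cast_nonneg _) h1 hVy hp.b1
      rw [hhV] at h2
      exact h2
    · exact hp.b2.trans hmono
    · refine hYN _ (hp.b3.trans ?_)
      refine div_le_div_of_nonneg_right ?_ hlz.le
      exact mul_le_mul_of_nonneg_left hmono hC0
  have hwin := window Y f (fun l => ((cc z U l : ℝ) : ℂ)) (fun k => ((tht k : ℝ) : ℂ)) X T U V R δ h
    Ca Cb G (Real.log X) α β (fun i hi n => hF.bd i hi n) hp.U1 hp.UV hp.VX hδ hp.d1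
    (by linarith) hCa0 hCb0 hG hL0.le ha hb hR (fun t ht => ⟨(hc t ht).2.1, (hc t ht).2.2.2⟩) hA hB
  refine hwin.trans (add_le_add ?_ le_rfl)
  refine mul_le_mul_of_nonneg_right ?_ (by positivity)
  have hlV : Real.log V ≤ Real.log X := Real.log_le_log hV0 (by exact_mod_cast hp.VX)
  have h1 : R * δ ≤ 3 * Real.log X := by linarith
  have h2 : Real.log X ≤ u * Real.log z := by
    rw [← Real.log_rpow (by linarith : (0 : ℝ) < z)]
    exact Real.log_le_log (by linarith) hp.Xz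
  have h3 : Real.log X / Real.log z ≤ u := by rwa [div_le_iff₀ hlz]
  have h4 : 0 ≤ Real.log X / Real.log z := by positivity
  have h5 : Ca * Cb = 9 * C ^ 2 * Real.log X / Real.log z ^ 2 := by
    rw [hCa, hCb]; field_simp; ring
  calc R * δ * (Ca * Cb) ≤ 3 * Real.log X * (Ca * Cb) :=
        mul_le_mul_of_nonneg_right h1 (mul_nonneg hCa0 hCb0)
    _ = 27 * C ^ 2 * (Real.log X / Real.log z) ^ 2 := by rw [h5]; ring
    _ ≤ 27 * C ^ 2 * u ^ 2 := by
        refine mul_le_mul_of_nonneg_left ?_ (by positivity)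
        exact pow_le_pow_left₀ h4 h3 2

end Pool.MP_dd84fd_nt.BX
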