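import Pool.Agent.Lib.MP_dd84fd_nt.BX.BrB

/-!
# BX, section C: definitions (Vaughan coefficient, abstract families, parameters)

Section C proves the `l^1` bound for the primes on a small family of characters
(`CFin.l1_primes`).  Everything is done for an abstract family `ChF`.  Paper: BD_secC_h81.md.
-/

set_option autoImplicit false

namespace Pool.MP_dd84fd_nt.BX

open Finset

/-- Moebius function, real valued -/
noncomputable def muR (n : ℕ) : ℝ := ((ArithmeticFunction.moebius n : ℤ) : ℝ)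

/-- the Brun-Hooley weight used in section C -/
noncomputable def SS (z : ℝ) (n : ℕ) : ℝ := Sv 32 z n

/-- the sieve level `z ^ 132` -/
noncomputable def lvl (z : ℝ) : ℝ := z ^ (132 : ℕ)

/-- `∑_{d ∣ l, d ≤ U} μ(d)` -/
noncomputable def cs (U l : ℕ) : ℝ := ∑ d ∈ l.divisors.filter (fun d => d ≤ U), muR d

/-- the coefficient `c = S c♯` -/
noncomputable def cc (z : ℝ) (U l : ℕ) : ℝ := SS z l * cs U l

/-- `log n` on the primes -/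
noncomputable def tht (n : ℕ) : ℝ := if n.Prime then Real.log n else 0

/-- von Mangoldt function -/
noncomputable def La (n : ℕ) : ℝ := ArithmeticFunction.vonMangoldt n

/-- number of distinct prime factors -/
def omg (n : ℕ) : ℕ := n.primeFactors.card

/-- the type I term: `∑_{e, d} μ(e) μ(d) [lcm(e,d) ∣ n] log (n / lcm(e,d))` -/
noncomputable def TI (z : ℝ) (U n : ℕ) : ℝ :=
  ∑ e ∈ ES 32 z, ∑ d ∈ Icc 1 U,
    if Nat.lcm e d ∣ n then muR e * muR d * Real.log ((n / Nat.lcm e d : ℕ) : ℝ) else 0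

/-- the part `l > V` of `∑_{l ∣ n} c(l) Λ(n / l)` -/
noncomputable def TL (z : ℝ) (U V n : ℕ) : ℝ :=
  ∑ l ∈ n.divisors.filter (fun l => V < l), cc z U l * La (n / l)

/-- a finite family of completely multiplicative functions bounded by `1`, all of whose sums
over intervals are at most `P1`, and all of whose correlations over intervals are at most `P2` -/
structure ChF {ι : Type} (Y : Finset ι) (f : ι → ℕ → ℂ) (P1 P2 : ℝ) : Prop where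
  mul : ∀ i ∈ Y, ∀ m n : ℕ, f i (m * n) = f i m * f i n
  bd : ∀ i ∈ Y, ∀ n : ℕ, ‖f i n‖ ≤ 1
  pv1 : ∀ i ∈ Y, ∀ a b : ℕ, ‖∑ n ∈ Ioc a b, f i n‖ ≤ P1
  pv2 : ∀ i ∈ Y, ∀ j ∈ Y, i ≠ j → ∀ a b : ℕ,
    ‖∑ n ∈ Ioc a b, f i n * (starRingEnd ℂ) (f j n)‖ ≤ P2

/-- `l²` norm over the cells `1 ≤ t ≤ T` -/
noncomputable def nt (T : ℕ) (g : ℕ → ℂ) : ℝ := Real.sqrt (∑ t ∈ Icc 1 T, ‖g t‖ ^ 2)

/-- the sieve input: `∑_{n ∈ (A,B]} S(n) 4^ω(n) ≤ C H / log z` for the intervals `(A, B]` of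
length at most `H`, `B ≤ X`, `H ≥ B^(1/4)`, `H ≥ z^528` -/
def StarH (z : ℝ) (X : ℕ) (C : ℝ) : Prop :=
  ∀ A B : ℕ, ∀ H : ℝ, B ≤ X → (B : ℝ) - A ≤ H → (B : ℝ) ^ (1 / 4 : ℝ) ≤ H →
    z ^ (528 : ℕ) ≤ H → ∑ n ∈ Ioc A B, SS z n * (4 : ℝ) ^ omg n ≤ C * H / Real.log z

/-- cells: `h ≤ α t ≤ β t ≤ min (α t + h, X)` for `1 ≤ t ≤ T` -/
def Cells (X h T : ℕ) (α β : ℕ → ℕ) : Prop :=
  ∀ t ∈ Icc 1 T, h ≤ α t ∧ α t ≤ β t ∧ β t ≤ α t + h ∧ β t ≤ X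

/-- the grid `U (1 + δ)^r` -/
noncomputable def yg (U : ℕ) (δ : ℝ) (r : ℕ) : ℝ := U * (1 + δ) ^ r

/-- the `r`-th interval of `(U, V]` -/
noncomputable def gI (U V : ℕ) (δ : ℝ) (r : ℕ) : Finset ℕ :=
  Ioc (min ⌊yg U δ r⌋₊ V) (min ⌊yg U δ (r + 1)⌋₊ V)

/-- `∑_{l in the r-th interval} a(l) f(l)` -/
noncomputable def Aw (a : ℕ → ℂ) (U V : ℕ) (δ : ℝ) (f : ℕ → ℂ) (r : ℕ) : ℂ :=
  ∑ l ∈ gI U V δ r, a l * f l

/-- `∑ b(k) f(k)` over the `r`-th window of the cell `(α, β]` -/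
noncomputable def Bw (b : ℕ → ℂ) (U : ℕ) (δ : ℝ) (f : ℕ → ℂ) (α β : ℕ) (r : ℕ) : ℂ :=
  ∑ k ∈ Ioc ⌊(α : ℝ) / yg U δ r⌋₊ ⌊(β : ℝ) / yg U δ r⌋₊, b k * f k

/-- the bilinear form in one cell -/
noncomputable def Bil (a b : ℕ → ℂ) (U V : ℕ) (f : ℕ → ℂ) (α β : ℕ) : ℂ :=
  ∑ l ∈ Ioc U V, a l * f l * ∑ k ∈ Ioc (α / l) (β / l), b k * f k

/-- the error in one cell -/
noncomputable def ErrC (X U V : ℕ) (z δ P1 G : ℝ) : ℝ :=
  2 * lvl z * U * P1 * Real.log X + lvl z * U * P1 * (X / V) * Real.log X +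
    4 * G * Real.log X * (δ * X * Real.log X + V) + 4 * Real.sqrt X * Real.log X +
    8 * G * Real.sqrt (X * V) * Real.log X

/-- all parameters and their inequalities; `N` is an upper bound for the size of the family -/
structure Prm (X h U V : ℕ) (z u δ P1 P2 C G N : ℝ) : Prop where
  z2 : 2 ≤ z
  u1 : 1 ≤ u
  Xz : (X : ℝ) ≤ z ^ u
  lX : 1 ≤ Real.log X
  C1 : 1 ≤ C
  N0 : 0 ≤ N
  U1 : 1 ≤ U
  UV : U ≤ V
  VX : V ≤ X
  h1 : 1 ≤ h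
  hX : h ≤ X
  d0 : 0 < δ
  d1 : δ ≤ 1
  P21 : 1 ≤ P2
  P12 : P2 ≤ P1
  dU : 1 ≤ δ * U
  a1 : (2 * U : ℝ) ^ (1 / 4 : ℝ) ≤ 2 * δ * U
  a2 : z ^ (528 : ℕ) ≤ 2 * δ * U
  a3 : N * lvl z * P2 ≤ C * (2 * δ * U) / Real.log z
  b0 : (V : ℝ) ≤ h
  b1 : ((X : ℝ) / V) ^ (1 / 4 : ℝ) ≤ 2 * h / V
  b2 : z ^ (528 : ℕ) ≤ 2 * h / V
  b3 : N * lvl z * P2 ≤ C * (2 * h / V) / Real.log z
  g1 : ∀ l ∈ Icc 1 X, (4 : ℝ) ^ omg l ≤ G
  e1 : N * ErrC X U V z δ P1 G ≤ h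

end Pool.MP_dd84fd_nt.BX
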