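import Pool.Agent.Lib.MP_dd84fd_nt.BX.CDefs
import Pool.Agent.Lib.MP_dd84fd_nt.DivBound

/-!
# BX/CPar: the choice of the parameters

`z = X^(ν/8448)` (so `lvl z = z^132 = X^(ν/64)`, `z^528 = X^(ν/16)`, `X = z^u`, `u = 8448/ν`),
`δ = X^(-ν/64)`, `U = ⌊P2 X^(ν/8)⌋`, `V = ⌊U P1 X^(ν/8)⌋`, `G = X^(ν/256)`, `N = X^(ν/4096)`,
`h ≥ X^(1-ν/1024)`, `P1 P2² ≤ X^(1-ν)`, `1 ≤ P2 ≤ P1`.  All inequalities hold for large `X`, in
terms of the exponents (`U ≥ P2 X^(ν/8)/2`, `V ≥ U P1 X^(ν/8)/2`, `V P2 ≤ P1 P2² X^(ν/4) ≤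
X^(1-3ν/4)`):
* `dU`: `δ U ≥ X^(7ν/64)/2`; `a1`: `(2U)^(1/4) ≤ 2δU` iff `(2U)^(3/4) δ ≥ 1`, `U ≥ X^(ν/8)/2`;
* `a2`: `ν/16 < 7ν/64`; `a3`: `2δU ≥ P2 X^(7ν/64)`, `ν/4096 + ν/64 < 7ν/64`;
* `b0`: `V ≤ X^(1-3ν/4) ≤ h`; `b1`: `h/V = (X/V)(h/X) ≥ (X/V) X^(-ν/1024)`, `(X/V)^(3/4) ≥ X^(9ν/16)`;
* `b2`: `h/V ≥ X^(3ν/4-ν/1024)`; `b3`: `h/V ≥ P2 X^(3ν/4-ν/1024)`;
* `g1`: `4^ω(l) ≤ τ(l)²` and `τ(l)^k ≤ C l` (`div_bound`), `k = 2m`, `m ≥ 512/ν`:
  `τ(l)² ≤ (C X)^(1/m) ≤ (C X)^(ν/512) ≤ X^(ν/256)` for `X ≥ C`;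
* `e1`: exponents (times powers of `log X` and constants), all `< 1 - ν/1024`:
  `N lvl U P1`: `ν/4096 + ν/64 + ν/8 + 1 - ν`;  `N lvl U P1 X/V ≤ 2 N lvl X^(1-ν/8)`:
  `1 + ν/4096 + ν/64 - ν/8`;  `N G δ X`: `1 + ν/4096 + ν/256 - ν/64`;  `N G V`: `≤ 1 - 3ν/4 + ..`;
  `N √X`;  `N G √(X V)`: `1 - 3ν/8 + ν/4096 + ν/256`.
-/

set_option autoImplicit false

namespace Pool.MP_dd84fd_nt.BX

open Finset

private theorem quarter {B y : ℝ} (hB : 1 ≤ B) (hy : B ^ 512 ≤ y) : y ^ (1 / 4 : ℝ) * B ^ 64 ≤ y := by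
  have hB0 : 0 ≤ B := by linarith
  have hy1 : 1 ≤ y := (one_le_pow₀ hB).trans hy
  have hy0 : 0 < y := by linarith
  have h1 : B ^ 64 ≤ y ^ (3 / 4 : ℝ) := by
    calc B ^ 64 = (B ^ 512) ^ (1 / 8 : ℝ) := by
          rw [← Real.rpow_natCast, ← Real.rpow_natCast, ← Real.rpow_mul hB0]
          norm_num
      _ ≤ y ^ (1 / 8 : ℝ) := Real.rpow_le_rpow (by positivity) hy (by norm_num)
      _ ≤ y ^ (3 / 4 : ℝ) := Real.rpow_le_rpow_of_exponent_le hy1 (by norm_num)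
  calc y ^ (1 / 4 : ℝ) * B ^ 64 ≤ y ^ (1 / 4 : ℝ) * y ^ (3 / 4 : ℝ) :=
        mul_le_mul_of_nonneg_left h1 (by positivity)
    _ = y := by
        rw [← Real.rpow_add hy0]
        norm_num

private theorem om_le (l : ℕ) (hl : l ≠ 0) : 2 ^ omg l ≤ l.divisors.card := by
  rw [Nat.card_divisors hl]
  unfold omg
  rw [← Finset.prod_const]
  refine Finset.prod_le_prod' fun p hp => ?_
  have h1 : p.Prime := Nat.prime_of_mem_primeFactors hp
  have h2 : 1 ≤ l.factorization p := (h1.dvd_iff_one_le_factorization hl).1 (Nat.dvd_of_mem_primeFactors hp)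
  omega

/-- the inequalities in terms of `B = X ^ (ν / 4096)` -/
private theorem core {x B L P1 P2 u v h C lz : ℝ} (hL : 1 ≤ L) (hB : 100 * L ^ 2 ≤ B) (hx : B ^ 100 ≤ x)
    (hP2 : 1 ≤ P2) (hP1 : P2 ≤ P1) (hP : P1 * P2 ^ 2 * B ^ 4096 ≤ x) (hh : x ≤ h * B ^ 4)
    (hu1 : 1 ≤ u) (hu : u ≤ P2 * B ^ 512) (hu2 : P2 * B ^ 512 ≤ 2 * u) (hv1 : 1 ≤ v)
    (hv : v ≤ u * P1 * B ^ 512) (hv2 : u * P1 * B ^ 512 ≤ 2 * v) (hC : 1 ≤ C) (hlz : 0 < lz) (hlzL : lz ≤ L) :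
    (v ≤ x ∧ 1 ≤ (B ^ 64)⁻¹ * u ∧ (2 * u) ^ (1 / 4 : ℝ) ≤ 2 * (B ^ 64)⁻¹ * u ∧
      B ^ 256 ≤ 2 * (B ^ 64)⁻¹ * u ∧ B * B ^ 64 * P2 ≤ C * (2 * (B ^ 64)⁻¹ * u) / lz) ∧
    (v ≤ h ∧ (x / v) ^ (1 / 4 : ℝ) ≤ 2 * h / v ∧ B ^ 256 ≤ 2 * h / v ∧
      B * B ^ 64 * P2 ≤ C * (2 * h / v) / lz) ∧
    B * (2 * B ^ 64 * u * P1 * L + B ^ 64 * u * P1 * (x / v) * L +
      4 * B ^ 16 * L * ((B ^ 64)⁻¹ * x * L + v) + 4 * Real.sqrt x * L +
      8 * B ^ 16 * Real.sqrt (x * v) * L) ≤ h := by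
  have hL2 : L ≤ L ^ 2 := by nlinarith
  have hBL : 100 * L ≤ B := by linarith
  have hB1 : 1 ≤ B := by linarith
  have hB100 : 100 ≤ B := by linarith
  have hB0 : 0 < B := by linarith
  have hx0 : 0 < x := (pow_pos hB0 100).trans_le hx
  have hpow : ∀ n : ℕ, 1 ≤ B ^ n := fun n => one_le_pow₀ hB1
  have hmono : ∀ m n : ℕ, m ≤ n → B ^ m ≤ B ^ n := fun m n hmn => pow_le_pow_right₀ hB1 hmn
  have hP20 : 0 < P2 := by linarith
  have hP10 : 0 < P1 := by linarith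
  have hP11 : 1 ≤ P1 := hP2.trans hP1
  have hsq : P2 ≤ P2 ^ 2 := by nlinarith
  -- products
  have hPP : P1 * P2 ≤ P1 * P2 ^ 2 := mul_le_mul_of_nonneg_left hsq hP10.le
  have hvP : v * B ^ 3072 * P2 ≤ x := by
    calc v * B ^ 3072 * P2 ≤ (u * P1 * B ^ 512) * B ^ 3072 * P2 := by gcongr
      _ ≤ ((P2 * B ^ 512) * P1 * B ^ 512) * B ^ 3072 * P2 := by gcongr
      _ = P1 * P2 ^ 2 * B ^ 4096 := by ring
      _ ≤ x := hP
  have hvx : v * B ^ 3072 ≤ x := by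
    calc v * B ^ 3072 = v * B ^ 3072 * 1 := by ring
      _ ≤ v * B ^ 3072 * P2 := by gcongr
      _ ≤ x := hvP
  have huP : u * P1 * B ^ 3584 ≤ x := by
    calc u * P1 * B ^ 3584 ≤ (P2 * B ^ 512) * P1 * B ^ 3584 := by gcongr
      _ = P1 * P2 * B ^ 4096 := by ring
      _ ≤ P1 * P2 ^ 2 * B ^ 4096 := by gcongr
      _ ≤ x := hP
  have hvPh : v * P2 * B ^ 3068 ≤ h := by
    have h1 : v * P2 * B ^ 3068 * B ^ 4 ≤ h * B ^ 4 := by
      calc v * P2 * B ^ 3068 * B ^ 4 = v * B ^ 3072 * P2 := by ring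
        _ ≤ x := hvP
        _ ≤ h * B ^ 4 := hh
    exact le_of_mul_le_mul_right h1 (by positivity)
  have hvh : v * B ^ 3068 ≤ h := by
    calc v * B ^ 3068 = v * 1 * B ^ 3068 := by ring
      _ ≤ v * P2 * B ^ 3068 := by gcongr
      _ ≤ h := hvPh
  have hB64 : 0 < B ^ 64 := by positivity
  have hu512 : B ^ 512 ≤ 2 * u := by
    calc B ^ 512 = 1 * B ^ 512 := by ring
      _ ≤ P2 * B ^ 512 := by gcongr
      _ ≤ 2 * u := hu2
  refine ⟨⟨?_, ?_, ?_, ?_, ?_⟩, ⟨?_, ?_, ?_, ?_⟩, ?_⟩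
  · calc v = v * 1 := by ring
      _ ≤ v * B ^ 3072 := by gcongr; exact hpow _
      _ ≤ x := hvx
  · rw [inv_mul_eq_div, le_div_iff₀ hB64, one_mul]
    have h1 : 2 * B ^ 64 ≤ B ^ 512 := by
      calc 2 * B ^ 64 ≤ B * B ^ 64 := by gcongr; linarith
        _ = B ^ 65 := by ring
        _ ≤ B ^ 512 := hmono _ _ (by norm_num)
    linarith
  · have h1 := quarter hB1 hu512
    rw [mul_assoc, inv_mul_eq_div, ← mul_div_assoc, le_div_iff₀ hB64]
    exact h1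
  · rw [mul_assoc, inv_mul_eq_div, ← mul_div_assoc, le_div_iff₀ hB64]
    calc B ^ 256 * B ^ 64 = B ^ 320 := by ring
      _ ≤ B ^ 512 := hmono _ _ (by norm_num)
      _ ≤ 2 * u := hu512
  · rw [le_div_iff₀ hlz, mul_assoc 2, inv_mul_eq_div, ← mul_div_assoc, ← mul_div_assoc, le_div_iff₀ hB64]
    calc B * B ^ 64 * P2 * lz * B ^ 64 ≤ B * B ^ 64 * P2 * B * B ^ 64 := by
          gcongr
          linarith
      _ = P2 * B ^ 130 := by ring
      _ ≤ P2 * B ^ 512 := by gcongr; norm_num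
      _ ≤ 2 * u := hu2
      _ = 1 * (2 * u) := by ring
      _ ≤ C * (2 * u) := by gcongr
  · calc v = v * 1 := by ring
      _ ≤ v * B ^ 3068 := by gcongr; exact hpow _
      _ ≤ h := hvh
  · have hv0 : 0 < v := by linarith
    have h1 : B ^ 512 ≤ x / v := by
      rw [le_div_iff₀ hv0]
      calc B ^ 512 * v ≤ B ^ 3072 * v := by gcongr; norm_num
        _ = v * B ^ 3072 := by ring
        _ ≤ x := hvx
    have h2 := quarter hB1 h1
    rw [le_div_iff₀ hv0]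
    have h3 : (x / v) ^ (1 / 4 : ℝ) * B ^ 4 ≤ x / v := by
      refine le_trans ?_ h2
      gcongr
      norm_num
    rw [le_div_iff₀ hv0] at h3
    have h4 : (x / v) ^ (1 / 4 : ℝ) * v * B ^ 4 ≤ h * B ^ 4 := by
      calc (x / v) ^ (1 / 4 : ℝ) * v * B ^ 4 = (x / v) ^ (1 / 4 : ℝ) * B ^ 4 * v := by ring
        _ ≤ x := h3
        _ ≤ h * B ^ 4 := hh
    have h5 := le_of_mul_le_mul_right h4 (by positivity)
    have h6 : 0 ≤ h := le_trans (by positivity) hvh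
    linarith
  · have hv0 : 0 < v := by linarith
    rw [le_div_iff₀ hv0]
    have h6 : 0 ≤ h := le_trans (by positivity) hvh
    calc B ^ 256 * v ≤ B ^ 3068 * v := by gcongr; norm_num
      _ = v * B ^ 3068 := by ring
      _ ≤ h := hvh
      _ ≤ 2 * h := by linarith
  · have hv0 : 0 < v := by linarith
    have h6 : 0 ≤ h := le_trans (by positivity) hvh
    rw [le_div_iff₀ hlz, ← mul_div_assoc, le_div_iff₀ hv0]
    calc B * B ^ 64 * P2 * lz * v ≤ B * B ^ 64 * P2 * B * v := by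
          gcongr
          linarith
      _ = v * P2 * B ^ 66 := by ring
      _ ≤ v * P2 * B ^ 3068 := by gcongr; norm_num
      _ ≤ h := hvPh
      _ = 1 * h := by ring
      _ ≤ C * (2 * h) := by nlinarith
  · have hv0 : 0 < v := by linarith
    have hu0 : 0 < u := by linarith
    -- every term is at most `x / (8 B ^ 4)`
    have hLB : L ≤ B := by linarith
    have hL0 : 0 < L := by linarith
    have t1 : B * (2 * B ^ 64 * u * P1 * L) * (8 * B ^ 4) ≤ x := by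
      calc B * (2 * B ^ 64 * u * P1 * L) * (8 * B ^ 4) ≤ B * (2 * B ^ 64 * u * P1 * B) * (8 * B ^ 4) := by gcongr
        _ = 16 * (u * P1 * B ^ 70) := by ring
        _ ≤ B * (u * P1 * B ^ 70) := by gcongr; linarith
        _ = u * P1 * B ^ 71 := by ring
        _ ≤ u * P1 * B ^ 3584 := by gcongr; norm_num
        _ ≤ x := huP
    have t2 : B * (B ^ 64 * u * P1 * (x / v) * L) * (8 * B ^ 4) ≤ x := by
      have e : B * (B ^ 64 * u * P1 * (x / v) * L) * (8 * B ^ 4) = (8 * B ^ 69 * L * (u * P1)) * x / v := by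
        field_simp
      rw [e, div_le_iff₀ hv0, mul_comm x v]
      refine mul_le_mul_of_nonneg_right ?_ hx0.le
      have h1 : 8 * B ^ 69 * L * (u * P1) * 2 ≤ u * P1 * B ^ 512 := by
        calc 8 * B ^ 69 * L * (u * P1) * 2 ≤ 8 * B ^ 69 * B * (u * P1) * 2 := by gcongr
          _ = 16 * (u * P1 * B ^ 70) := by ring
          _ ≤ B * (u * P1 * B ^ 70) := by gcongr; linarith
          _ = u * P1 * B ^ 71 := by ring
          _ ≤ u * P1 * B ^ 512 := by gcongr; norm_num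
      linarith
    have t3 : B * (4 * B ^ 16 * L * ((B ^ 64)⁻¹ * x * L)) * (8 * B ^ 4) ≤ x := by
      have e : B * (4 * B ^ 16 * L * ((B ^ 64)⁻¹ * x * L)) * (8 * B ^ 4) = (32 * L ^ 2 * B ^ 21) * x / B ^ 64 := by
        field_simp
        ring
      rw [e, div_le_iff₀ hB64, mul_comm x]
      refine mul_le_mul_of_nonneg_right ?_ hx0.le
      calc 32 * L ^ 2 * B ^ 21 ≤ B * B ^ 21 := by gcongr; linarith [sq_nonneg L]
        _ = B ^ 22 := by ring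
        _ ≤ B ^ 64 := hmono _ _ (by norm_num)
    have t4 : B * (4 * B ^ 16 * L * v) * (8 * B ^ 4) ≤ x := by
      calc B * (4 * B ^ 16 * L * v) * (8 * B ^ 4) = 32 * L * (v * B ^ 21) := by ring
        _ ≤ B * (v * B ^ 21) := by gcongr; linarith
        _ = v * B ^ 22 := by ring
        _ ≤ v * B ^ 3072 := by gcongr; norm_num
        _ ≤ x := hvx
    have hs : B ^ 50 ≤ Real.sqrt x := by
      refine Real.le_sqrt_of_sq_le ?_
      calc (B ^ 50) ^ 2 = B ^ 100 := by ring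
        _ ≤ x := hx
    have t5 : B * (4 * Real.sqrt x * L) * (8 * B ^ 4) ≤ x := by
      have h1 : B * (4 * Real.sqrt x * L) * (8 * B ^ 4) ≤ Real.sqrt x * Real.sqrt x := by
        calc B * (4 * Real.sqrt x * L) * (8 * B ^ 4) = Real.sqrt x * (32 * L * B ^ 5) := by ring
          _ ≤ Real.sqrt x * Real.sqrt x := by
            gcongr
            refine le_trans ?_ hs
            calc 32 * L * B ^ 5 ≤ B * B ^ 5 := by gcongr; linarith
              _ = B ^ 6 := by ring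
              _ ≤ B ^ 50 := hmono _ _ (by norm_num)
      rwa [Real.mul_self_sqrt hx0.le] at h1
    have t6 : B * (8 * B ^ 16 * Real.sqrt (x * v) * L) * (8 * B ^ 4) ≤ x := by
      have h1 : Real.sqrt (x * v) * B ^ 100 ≤ x := by
        have h2 : Real.sqrt (x * v) * B ^ 100 = Real.sqrt (x * v * (B ^ 100) ^ 2) := by
          rw [Real.sqrt_mul (show 0 ≤ x * v by positivity) ((B ^ 100) ^ 2), Real.sqrt_sq (by positivity)]
        rw [h2]
        refine Real.sqrt_le_iff.2 ⟨hx0.le, ?_⟩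
        calc x * v * (B ^ 100) ^ 2 = x * (v * B ^ 200) := by ring
          _ ≤ x * (v * B ^ 3072) := by gcongr; norm_num
          _ ≤ x * x := by gcongr
          _ = x ^ 2 := by ring
      calc B * (8 * B ^ 16 * Real.sqrt (x * v) * L) * (8 * B ^ 4) = (64 * L) * (Real.sqrt (x * v) * B ^ 21) := by ring
        _ ≤ B * (Real.sqrt (x * v) * B ^ 21) := by gcongr; linarith
        _ = Real.sqrt (x * v) * B ^ 22 := by ring
        _ ≤ Real.sqrt (x * v) * B ^ 100 := by gcongr; norm_num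
        _ ≤ x := h1
    have h8 : 0 < 8 * B ^ 4 := by positivity
    have key : B * (2 * B ^ 64 * u * P1 * L + B ^ 64 * u * P1 * (x / v) * L +
      4 * B ^ 16 * L * ((B ^ 64)⁻¹ * x * L + v) + 4 * Real.sqrt x * L +
      8 * B ^ 16 * Real.sqrt (x * v) * L) * (8 * B ^ 4) ≤ h * (8 * B ^ 4) := by
      have e : B * (2 * B ^ 64 * u * P1 * L + B ^ 64 * u * P1 * (x / v) * L +
        4 * B ^ 16 * L * ((B ^ 64)⁻¹ * x * L + v) + 4 * Real.sqrt x * L +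
        8 * B ^ 16 * Real.sqrt (x * v) * L) * (8 * B ^ 4) =
        B * (2 * B ^ 64 * u * P1 * L) * (8 * B ^ 4) + B * (B ^ 64 * u * P1 * (x / v) * L) * (8 * B ^ 4) +
        B * (4 * B ^ 16 * L * ((B ^ 64)⁻¹ * x * L)) * (8 * B ^ 4) + B * (4 * B ^ 16 * L * v) * (8 * B ^ 4) +
        B * (4 * Real.sqrt x * L) * (8 * B ^ 4) + B * (8 * B ^ 16 * Real.sqrt (x * v) * L) * (8 * B ^ 4) := by ring
      rw [e]
      have h9 : 6 * x ≤ h * (8 * B ^ 4) := by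
        have : h * (8 * B ^ 4) = 8 * (h * B ^ 4) := by ring
        rw [this]
        linarith
      linarith
    exact le_of_mul_le_mul_right key h8

theorem prm_exists (ν : ℝ) (h0 : 0 < ν) (h1 : ν ≤ 1 / 20) (C : ℝ) (hC : 1 ≤ C) :
    ∃ X0 : ℕ, ∀ X : ℕ, X0 ≤ X → ∀ (P1 P2 : ℝ) (h : ℕ), 1 ≤ P2 → P2 ≤ P1 →
      P1 * P2 ^ 2 ≤ (X : ℝ) ^ (1 - ν) → (X : ℝ) ^ (1 - ν / 1024) ≤ h → h ≤ X →
      Prm X h ⌊P2 * (X : ℝ) ^ (ν / 8)⌋₊
        ⌊(⌊P2 * (X : ℝ) ^ (ν / 8)⌋₊ : ℝ) * P1 * (X : ℝ) ^ (ν / 8)⌋₊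
        ((X : ℝ) ^ (ν / 8448)) (8448 / ν) ((X : ℝ) ^ (-(ν / 64))) P1 P2 C
        ((X : ℝ) ^ (ν / 256)) ((X : ℝ) ^ (ν / 4096)) := by
  obtain ⟨m, hm⟩ : ∃ m : ℕ, 512 / ν ≤ m := exists_nat_ge _
  obtain ⟨C0, hC01, hC0⟩ := Pool.Agent.Lib.MP_dd84fd_nt.DivBound.div_bound (2 * m)
  have hm0 : m ≠ 0 := by
    rintro rfl
    have : 0 < 512 / ν := by positivity
    push_cast at hm
    linarith
  have ht : Filter.Tendsto (fun n : ℕ => (n : ℝ)) Filter.atTop Filter.atTop := tendsto_natCast_atTop_atTop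
  obtain ⟨X1, hX1⟩ : ∃ X1 : ℕ, ∀ X ≥ X1, 2 ≤ (X : ℝ) ^ (ν / 8448) :=
    Filter.eventually_atTop.1 (((tendsto_rpow_atTop (by positivity)).comp ht).eventually_ge_atTop 2)
  obtain ⟨X2, hX2⟩ : ∃ X2 : ℕ, ∀ X ≥ X2, 1 ≤ Real.log X :=
    Filter.eventually_atTop.1 ((Real.tendsto_log_atTop.comp ht).eventually_ge_atTop 1)
  obtain ⟨X3, hX3⟩ : ∃ X3 : ℕ, ∀ X ≥ X3, ‖Real.log (X : ℝ)‖ ≤ 1 / 10 * ‖(X : ℝ) ^ (ν / 8192)‖ :=
    Filter.eventually_atTop.1 (ht.eventually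
      ((isLittleO_log_rpow_atTop (show 0 < ν / 8192 by positivity)).bound (show (0 : ℝ) < 1 / 10 by norm_num)))
  refine ⟨X1 + X2 + X3 + C0 + 1, fun X hX P1 P2 h hP2 hP1 hP hh hhX => ?_⟩
  have hz2 := hX1 X (by omega)
  have hL := hX2 X (by omega)
  have hLs := hX3 X (by omega)
  have hXC : C0 ≤ X := by omega
  have hX1' : (1 : ℝ) ≤ X := by exact_mod_cast (by omega : 1 ≤ X)
  have hX0 : (0 : ℝ) < X := by linarith
  obtain ⟨B, hBdef⟩ : ∃ B : ℝ, B = (X : ℝ) ^ (ν / 4096) := ⟨_, rfl⟩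
  have hB1 : 1 ≤ B := by
    rw [hBdef]
    exact Real.one_le_rpow hX1' (by positivity)
  have hB0 : 0 < B := by linarith
  have hpw : ∀ n : ℕ, B ^ n = (X : ℝ) ^ (ν / 4096 * n) := by
    intro n
    rw [hBdef, ← Real.rpow_natCast, ← Real.rpow_mul hX0.le]
  have e512 : (X : ℝ) ^ (ν / 8) = B ^ 512 := by
    rw [hpw]
    congr 1
    push_cast
    ring
  have e64 : (X : ℝ) ^ (-(ν / 64)) = (B ^ 64)⁻¹ := by
    rw [Real.rpow_neg hX0.le, hpw]
    congr 2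
    push_cast
    ring
  have e16 : (X : ℝ) ^ (ν / 256) = B ^ 16 := by
    rw [hpw]
    congr 1
    push_cast
    ring
  obtain ⟨z, hzdef⟩ : ∃ z : ℝ, z = (X : ℝ) ^ (ν / 8448) := ⟨_, rfl⟩
  have ez132 : z ^ 132 = B ^ 64 := by
    rw [hpw, hzdef, ← Real.rpow_natCast, ← Real.rpow_mul hX0.le]
    congr 1
    push_cast
    ring
  have ez528 : z ^ 528 = B ^ 256 := by
    rw [hpw, hzdef, ← Real.rpow_natCast, ← Real.rpow_mul hX0.le]
    congr 1
    push_cast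
    ring
  have hlz : Real.log z = ν / 8448 * Real.log X := by
    rw [hzdef, Real.log_rpow hX0]
  have hB : 100 * Real.log X ^ 2 ≤ B := by
    have h3 : (X : ℝ) ^ (ν / 8192) ^ (1 : ℕ) = (X : ℝ) ^ (ν / 8192) := by rw [pow_one]
    rw [Real.norm_of_nonneg (by linarith), Real.norm_of_nonneg (by positivity)] at hLs
    have h4 : ((X : ℝ) ^ (ν / 8192)) ^ 2 = B := by
      rw [hBdef, ← Real.rpow_natCast, ← Real.rpow_mul hX0.le]
      congr 1
      push_cast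
      ring
    rw [← h4]
    have h5 : 10 * Real.log X ≤ (X : ℝ) ^ (ν / 8192) := by linarith
    calc 100 * Real.log X ^ 2 = (10 * Real.log X) ^ 2 := by ring
      _ ≤ ((X : ℝ) ^ (ν / 8192)) ^ 2 := pow_le_pow_left₀ (by linarith) h5 2
  have hx100 : B ^ 100 ≤ X := by
    rw [hpw]
    calc (X : ℝ) ^ (ν / 4096 * ((100 : ℕ) : ℝ)) ≤ (X : ℝ) ^ (1 : ℝ) :=
          Real.rpow_le_rpow_of_exponent_le hX1' (by push_cast; linarith)
      _ = X := Real.rpow_one _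
  have hP' : P1 * P2 ^ 2 * B ^ 4096 ≤ X := by
    calc P1 * P2 ^ 2 * B ^ 4096 ≤ (X : ℝ) ^ (1 - ν) * B ^ 4096 := by gcongr
      _ = (X : ℝ) ^ (1 : ℝ) := by
        rw [hpw, ← Real.rpow_add hX0]
        congr 1
        push_cast
        ring
      _ = X := Real.rpow_one _
  have hh' : (X : ℝ) ≤ h * B ^ 4 := by
    calc (X : ℝ) = (X : ℝ) ^ (1 : ℝ) := (Real.rpow_one _).symm
      _ = (X : ℝ) ^ (1 - ν / 1024) * B ^ 4 := by
        rw [hpw, ← Real.rpow_add hX0]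
        congr 1
        push_cast
        ring
      _ ≤ h * B ^ 4 := by gcongr
  rw [e512, e64, e16, ← hzdef, ← hBdef]
  obtain ⟨U, hU⟩ : ∃ U : ℕ, U = ⌊P2 * B ^ 512⌋₊ := ⟨_, rfl⟩
  rw [← hU]
  obtain ⟨V, hV⟩ : ∃ V : ℕ, V = ⌊(U : ℝ) * P1 * B ^ 512⌋₊ := ⟨_, rfl⟩
  rw [← hV]
  have hP20 : 0 < P2 := by linarith
  have hP10 : 0 < P1 := by linarith
  have hp512 : 1 ≤ B ^ 512 := one_le_pow₀ hB1
  have hU1 : 1 ≤ U := by
    rw [hU, Nat.one_le_floor_iff]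
    nlinarith
  have hU1r : (1 : ℝ) ≤ U := by exact_mod_cast hU1
  have hUle : (U : ℝ) ≤ P2 * B ^ 512 := by
    rw [hU]
    exact Nat.floor_le (by positivity)
  have hUge : P2 * B ^ 512 ≤ 2 * U := by
    have := Nat.lt_floor_add_one (P2 * B ^ 512)
    rw [← hU] at this
    linarith
  have hUV' : (U : ℝ) ≤ U * P1 * B ^ 512 := by
    have h3 : 1 ≤ P1 * B ^ 512 := by nlinarith
    calc (U : ℝ) = U * 1 := by ring
      _ ≤ U * (P1 * B ^ 512) := by gcongr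
      _ = U * P1 * B ^ 512 := by ring
  have hUV : U ≤ V := by
    rw [hV]
    exact Nat.le_floor hUV'
  have hV1r : (1 : ℝ) ≤ V := by exact_mod_cast hU1.trans hUV
  have hVle : (V : ℝ) ≤ U * P1 * B ^ 512 := by
    rw [hV]
    exact Nat.floor_le (by positivity)
  have hVge : (U : ℝ) * P1 * B ^ 512 ≤ 2 * V := by
    have := Nat.lt_floor_add_one ((U : ℝ) * P1 * B ^ 512)
    rw [← hV] at this
    linarith
  have hlz0 : 0 < Real.log z := by
    rw [hlz]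
    have : 0 < Real.log X := by linarith
    positivity
  have hlzL : Real.log z ≤ Real.log X := by
    rw [hlz]
    have : ν / 8448 ≤ 1 := by linarith
    nlinarith
  obtain ⟨⟨c1, c2, c3, c4, c5⟩, ⟨c6, c7, c8, c9⟩, c10⟩ := core hL hB hx100 hP2 hP1 hP' hh' hU1r hUle hUge hV1r hVle
    hVge hC hlz0 hlzL
  have hh1 : 1 ≤ h := by
    have h3 : (1 : ℝ) ≤ h := hV1r.trans c6
    exact_mod_cast h3
  refine ⟨by rw [hzdef]; exact hz2, ?_, ?_, hL, hC, hB0.le, hU1, hUV, by exact_mod_cast c1, hh1, hhX, by positivity,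
    inv_le_one_of_one_le₀ (one_le_pow₀ hB1), hP2, hP1, c2, c3, ?_, ?_, c6, c7, ?_, ?_, ?_, ?_⟩
  · rw [le_div_iff₀ h0]
    linarith
  · rw [hzdef, ← Real.rpow_mul hX0.le]
    have : ν / 8448 * (8448 / ν) = 1 := by field_simp
    rw [this, Real.rpow_one]
  · rw [ez528]
    exact c4
  · unfold lvl
    rw [ez132]
    exact c5
  · rw [ez528]
    exact c8
  · unfold lvl
    rw [ez132]
    exact c9
  · intro l hl
    obtain ⟨hl1, hlX⟩ := mem_Icc.1 hl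
    have hl0 : l ≠ 0 := by omega
    have h3 : (4 : ℝ) ^ omg l ≤ ((l.divisors.card : ℕ) : ℝ) ^ 2 := by
      calc (4 : ℝ) ^ omg l = ((2 ^ omg l : ℕ) : ℝ) ^ 2 := by
            push_cast
            rw [← pow_mul, mul_comm, pow_mul]
            norm_num
        _ ≤ ((l.divisors.card : ℕ) : ℝ) ^ 2 := by
            have := om_le l hl0
            gcongr
    refine h3.trans ?_
    have h4 : (((l.divisors.card : ℕ) : ℝ) ^ 2) ^ m ≤ (B ^ 16) ^ m := by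
      have h5 := hC0 l hl0
      have h6 : ((l.divisors.card : ℕ) : ℝ) ^ (2 * m) ≤ (X : ℝ) ^ 2 := by
        have h7 : l.divisors.card ^ (2 * m) ≤ X ^ 2 := by
          calc l.divisors.card ^ (2 * m) ≤ C0 * l := h5
            _ ≤ X * X := Nat.mul_le_mul hXC hlX
            _ = X ^ 2 := by ring
        exact_mod_cast h7
      rw [← pow_mul]
      refine h6.trans ?_
      rw [← pow_mul, hpw, ← Real.rpow_natCast]
      refine Real.rpow_le_rpow_of_exponent_le hX1' ?_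
      push_cast
      rw [div_le_iff₀ h0] at hm
      linarith
    exact le_of_pow_le_pow_left₀ hm0 (by positivity) h4
  · unfold ErrC lvl
    rw [ez132]
    exact c10

end Pool.MP_dd84fd_nt.BX
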