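import Pool.Agent.Lib.MP_dd84fd_nt.BX.CSt0

/-!
# BX/CSt2: mean value of a partial weight over the multiples of `∏ T`

`d = ∏ T`, `s = sT z T`.  `ef_prod` with `J = JJ z` and the blocks `B'_j = P_j` if `j ∈ s`, `∅`
otherwise (`fr_empty`; pairwise disjoint by `blk_disj`) and `x p = [p ∣ n]` gives
`∏_{j∈s} Sb z j n = ∑_{T' ∈ Ef J B' r} (-1)^|T'| [∏T' ∣ n]` (`prod_dvd_iff`), and with `x p = 1/p`
`∏_{j∈s} sgm z j = ∑_{T'} (-1)^|T'|/∏T'`.
`T'` and `T` are disjoint sets of primes (the blocks `j ∈ s` do not meet `T`), so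
`d ∣ n ∧ ∏T' ∣ n` iff `d ∏T' ∣ n`; `card_mult`: the number of these `n ∈ (A, B]` is
`(B-A)/(d ∏T') + O(1)`.  The map `T' ↦ ∏T'` is injective with values in `[1, z^132]` (each `T'` is
in `Ef (JJ z) (blk z) (2(32+j))`, `ES_inj`, `ES_le`, `card_ES`): at most `z^132` sets.
-/

set_option autoImplicit false

namespace Pool.MP_dd84fd_nt.BX

open Finset

theorem st_int {z : ℝ} (hz : 2 ≤ z) (T : Finset ℕ) (hT : T ∈ TTs z) (A B : ℕ) (hAB : A ≤ B) :
    ∑ n ∈ (Ioc A B).filter (fun n => (∏ p ∈ T, p) ∣ n), ∏ j ∈ sT z T, Sb z j n ≤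
      ((B : ℝ) - A) / (∏ p ∈ T, (p : ℝ)) * ∏ j ∈ sT z T, |sgm z j| + lvl z := by
  classical
  have hz1 : 1 ≤ z := by linarith
  have hTp : ∀ p ∈ T, p.Prime := by
    intro p hp
    unfold TTs at hT
    rw [mem_filter, mem_powerset] at hT
    have h1 := hT.1 hp
    rw [mem_biUnion] at h1
    obtain ⟨j, -, hj⟩ := h1
    exact (mem_blk.1 hj).1
  obtain ⟨Bp, hBp⟩ : ∃ Bp : ℕ → Finset ℕ, Bp = fun j => if j ∈ sT z T then blk z j else ∅ :=
    ⟨_, rfl⟩
  have hBp1 : ∀ j ∈ sT z T, Bp j = blk z j := fun j hj => by rw [hBp]; simp only [if_pos hj]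
  have hBp2 : ∀ j, j ∉ sT z T → Bp j = ∅ := fun j hj => by rw [hBp]; simp only [if_neg hj]
  obtain ⟨E, hE⟩ : ∃ E, E = Ef (JJ z) Bp (fun j => 2 * (32 + j)) := ⟨_, rfl⟩
  have hd : ∀ i < JJ z, ∀ j < JJ z, i ≠ j → Disjoint (Bp i) (Bp j) := by
    intro i _ j _ hij
    by_cases hi : i ∈ sT z T
    · by_cases hj : j ∈ sT z T
      · rw [hBp1 i hi, hBp1 j hj]
        exact blk_disj hz1 hij
      · rw [hBp2 j hj]
        exact disjoint_empty_right _
    · rw [hBp2 i hi]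
      exact disjoint_empty_left _
  have hprod : ∀ x : ℕ → ℝ, ∏ j ∈ sT z T, fr (blk z j) x (2 * (32 + j)) =
      ∑ T' ∈ E, ∏ p ∈ T', (-x p) := by
    intro x
    rw [hE, ← ef_prod (JJ z) Bp (fun j => 2 * (32 + j)) x hd]
    have hsub : sT z T ⊆ range (JJ z) := filter_subset _ _
    rw [← prod_subset hsub (f := fun j => fr (Bp j) x (2 * (32 + j)))]
    · refine prod_congr rfl fun j hj => ?_
      rw [hBp1 j hj]
    · intro j _ hj
      rw [hBp2 j hj, fr_empty]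
  have hEm : ∀ T' ∈ E, ∀ p ∈ T', ∃ j ∈ sT z T, p ∈ blk z j := by
    intro T' hT' p hp
    rw [hE] at hT'
    have h1 := (mem_Ef.1 hT').1 hp
    rw [mem_biUnion] at h1
    obtain ⟨j, -, hj⟩ := h1
    by_cases h : j ∈ sT z T
    · rw [hBp1 j h] at hj
      exact ⟨j, h, hj⟩
    · rw [hBp2 j h] at hj
      exact absurd hj (notMem_empty _)
  have hEp : ∀ T' ∈ E, ∀ p ∈ T', p.Prime := by
    intro T' hT' p hp
    obtain ⟨j, -, hj⟩ := hEm T' hT' p hp
    exact (mem_blk.1 hj).1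
  have hEd : ∀ T' ∈ E, Disjoint T T' := by
    intro T' hT'
    rw [disjoint_left]
    intro p hp hp'
    obtain ⟨j, hj, hpj⟩ := hEm T' hT' p hp'
    unfold sT at hj
    have h1 := (mem_filter.1 hj).2
    have h2 : p ∈ T ∩ blk z j := mem_inter.2 ⟨hp, hpj⟩
    rw [h1] at h2
    exact notMem_empty _ h2
  have hEs : E ⊆ Ef (JJ z) (blk z) (fun j => 2 * (32 + j)) := by
    intro T' hT'
    have hT0 := hT'
    rw [hE, mem_Ef] at hT0
    rw [mem_Ef]
    refine ⟨fun p hp => ?_, fun j hj => ?_⟩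
    · obtain ⟨j, hj, hpj⟩ := hEm T' hT' p hp
      exact mem_biUnion.2 ⟨j, (mem_filter.1 hj).1, hpj⟩
    · by_cases h : j ∈ sT z T
      · rw [← hBp1 j h]
        exact hT0.2 j hj
      · have h1 : T' ∩ blk z j = ∅ := by
          rw [eq_empty_iff_forall_notMem]
          intro p hp
          rw [mem_inter] at hp
          obtain ⟨i, hi, hpi⟩ := hEm T' hT' p hp.1
          have hij : i ≠ j := fun h' => h (h' ▸ hi)
          exact disjoint_left.1 (blk_disj hz1 hij) hpi hp.2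
        rw [h1, card_empty]
        exact Nat.zero_le _
  have hcard : (E.card : ℝ) ≤ lvl z := by
    have h1 := card_le_card hEs
    have h2 : (ES 32 z).card = (Ef (JJ z) (blk z) (fun j => 2 * (32 + j))).card := by
      unfold ES
      exact card_image_of_injOn (ES_inj 32 z)
    have h3 := card_ES 32 hz1
    rw [h2] at h3
    unfold lvl
    calc (E.card : ℝ) ≤ ((Ef (JJ z) (blk z) (fun j => 2 * (32 + j))).card : ℝ) := by
          exact_mod_cast h1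
      _ ≤ z ^ (4 * 32 + 4) := h3
      _ = z ^ (132 : ℕ) := by norm_num
  have hpos : ∀ S : Finset ℕ, (∀ p ∈ S, p.Prime) → 0 < ∏ p ∈ S, p := fun S hS =>
    prod_pos fun p hp => (hS p hp).pos
  have hTpos : (0 : ℝ) < ∏ p ∈ T, (p : ℝ) := prod_pos fun p hp => by
    exact_mod_cast (hTp p hp).pos
  -- one set `T'`
  have hone : ∀ T' ∈ E, ∑ n ∈ (Ioc A B).filter (fun n => (∏ p ∈ T, p) ∣ n),
      ∏ p ∈ T', (-(if p ∣ n then (1 : ℝ) else 0)) ≤
      ((B : ℝ) - A) / (∏ p ∈ T, (p : ℝ)) * ∏ p ∈ T', (-(1 / (p : ℝ))) + 1 := by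
    intro T' hT'
    have hu : ∀ p ∈ T ∪ T', p.Prime := by
      intro p hp
      rcases mem_union.1 hp with h | h
      · exact hTp p h
      · exact hEp T' hT' p h
    have e1 : ∀ n : ℕ, ∏ p ∈ T', (-(if p ∣ n then (1 : ℝ) else 0)) =
        if (∏ p ∈ T', p) ∣ n then (-1 : ℝ) ^ T'.card else 0 := by
      intro n
      by_cases h : ∀ p ∈ T', p ∣ n
      · rw [if_pos ((prod_dvd_iff T' (hEp T' hT') n).2 h), ← prod_const]
        refine prod_congr rfl fun p hp => ?_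
        rw [if_pos (h p hp)]
      · rw [if_neg (fun h' => h ((prod_dvd_iff T' (hEp T' hT') n).1 h'))]
        push Not at h
        obtain ⟨p, hp, hpn⟩ := h
        refine prod_eq_zero hp ?_
        rw [if_neg hpn, neg_zero]
    have e2 : ∑ n ∈ (Ioc A B).filter (fun n => (∏ p ∈ T, p) ∣ n),
        ∏ p ∈ T', (-(if p ∣ n then (1 : ℝ) else 0)) = (-1 : ℝ) ^ T'.card *
          (((Ioc A B).filter (fun n => (∏ p ∈ T ∪ T', p) ∣ n)).card : ℝ) := by
      rw [sum_congr rfl fun n _ => e1 n, ← sum_filter, filter_filter, sum_const, nsmul_eq_mul,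
        mul_comm]
      congr 3
      ext n
      rw [mem_filter, mem_filter]
      refine and_congr_right fun _ => ?_
      rw [prod_dvd_iff _ hu, prod_dvd_iff _ hTp, prod_dvd_iff _ (hEp T' hT')]
      constructor
      · rintro ⟨h1, h2⟩ p hp
        rcases mem_union.1 hp with h | h
        · exact h1 p h
        · exact h2 p h
      · intro h
        exact ⟨fun p hp => h p (mem_union_left _ hp), fun p hp => h p (mem_union_right _ hp)⟩
    have e3 := card_mult A B (∏ p ∈ T ∪ T', p) hAB (hpos _ hu)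
    obtain ⟨c, hc⟩ : ∃ c : ℝ, c = (((Ioc A B).filter (fun n => (∏ p ∈ T ∪ T', p) ∣ n)).card : ℝ) :=
      ⟨_, rfl⟩
    rw [← hc] at e2 e3
    have e4 : ((∏ p ∈ T ∪ T', p : ℕ) : ℝ) = (∏ p ∈ T, (p : ℝ)) * ∏ p ∈ T', (p : ℝ) := by
      rw [prod_union (hEd T' hT')]
      push_cast
      rfl
    have e5 : ∏ p ∈ T', (-(1 / (p : ℝ))) = (-1 : ℝ) ^ T'.card / ∏ p ∈ T', (p : ℝ) := by
      rw [← prod_const, ← prod_div_distrib]
      refine prod_congr rfl fun p _ => ?_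
      ring
    have e6 : (-1 : ℝ) ^ T'.card * c - ((B : ℝ) - A) / (∏ p ∈ T, (p : ℝ)) *
        ∏ p ∈ T', (-(1 / (p : ℝ))) =
        (-1 : ℝ) ^ T'.card * (c - ((B : ℝ) - A) / ((∏ p ∈ T ∪ T', p : ℕ) : ℝ)) := by
      rw [e5, e4, div_mul_eq_div_div]
      ring
    have e7 : |(-1 : ℝ) ^ T'.card * (c - ((B : ℝ) - A) / ((∏ p ∈ T ∪ T', p : ℕ) : ℝ))| ≤ 1 := by
      rw [abs_mul, abs_pow, abs_neg, abs_one, one_pow, one_mul]
      exact e3
    have e8 := (le_abs_self _).trans e7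
    rw [e2]
    linarith
  have hsgm : ∏ j ∈ sT z T, sgm z j = ∑ T' ∈ E, ∏ p ∈ T', (-(1 / (p : ℝ))) :=
    hprod (fun p => 1 / (p : ℝ))
  have hBA : (0 : ℝ) ≤ (B : ℝ) - A := by
    have : (A : ℝ) ≤ B := by exact_mod_cast hAB
    linarith
  calc ∑ n ∈ (Ioc A B).filter (fun n => (∏ p ∈ T, p) ∣ n), ∏ j ∈ sT z T, Sb z j n
      = ∑ n ∈ (Ioc A B).filter (fun n => (∏ p ∈ T, p) ∣ n), ∑ T' ∈ E,
          ∏ p ∈ T', (-(if p ∣ n then (1 : ℝ) else 0)) := by
        refine sum_congr rfl fun n _ => ?_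
        exact hprod (fun p => if p ∣ n then 1 else 0)
    _ = ∑ T' ∈ E, ∑ n ∈ (Ioc A B).filter (fun n => (∏ p ∈ T, p) ∣ n),
          ∏ p ∈ T', (-(if p ∣ n then (1 : ℝ) else 0)) := sum_comm
    _ ≤ ∑ T' ∈ E, (((B : ℝ) - A) / (∏ p ∈ T, (p : ℝ)) * ∏ p ∈ T', (-(1 / (p : ℝ))) + 1) :=
        sum_le_sum hone
    _ = ((B : ℝ) - A) / (∏ p ∈ T, (p : ℝ)) * ∏ j ∈ sT z T, sgm z j + E.card := by
        rw [sum_add_distrib, ← mul_sum, hsgm, sum_const, nsmul_eq_mul, mul_one]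
    _ ≤ ((B : ℝ) - A) / (∏ p ∈ T, (p : ℝ)) * ∏ j ∈ sT z T, |sgm z j| + lvl z := by
        refine add_le_add (mul_le_mul_of_nonneg_left ?_ (div_nonneg hBA hTpos.le)) hcard
        rw [← abs_prod]
        exact le_abs_self _

end Pool.MP_dd84fd_nt.BX
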