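import Pool.Agent.Lib.MP_dd84fd_nt.BX.CSt0

/-!
# BX/CSt3: the main term of (*)

`K = 8^64`.  (a) For any finite set `P` of primes, `K ≥ 0`, real `ρ`:
`∑_{T ⊆ P, |T| ≥ ρ} K^|T|/∏T ≤ 2^(-ρ) ∑_{T ⊆ P} (2K)^|T|/∏T = 2^(-ρ) ∏_{p∈P} (1 + 2K/p) ≤
2^(-ρ) exp(2K ∑_{p∈P} 1/p)` (`Finset.prod_one_add`, `prod_one_add_le_exp_sum`).
(b) `J` blocks: by induction on `J` (as in `ef_prod`; `T ↦ (T ∩ P_{<J}, T ∩ P_J)`):
`∑_{T ⊆ P_0 ∪ .. ∪ P_{J-1}, all T ∩ P_j = ∅ or |T ∩ P_j| ≥ ρ_j} K^|T|/∏T ∏_{j : T∩P_j=∅} y_j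
  = ∏_{j<J} (y_j + ∑_{∅ ≠ T ⊆ P_j, |T| ≥ ρ_j} K^|T|/∏T)`; here `ρ_j = 1 + j/32 > 0`, `y_j = |sgm z j|`.
(c) `v_j = ∏_{p∈P_j} (1 - 1/p) ≥ exp(-16)` (`blk_prod`), `∑_{P_j} 1/p ≤ 8` (`blk_sum`);
`|sgm z j| ≤ v_j + 8^(2(32+j)+1)/(2(32+j)+1)!` (`bonf`, the difference is `≥ 0` and `v_j ≥ 0`), and
`8^m/m! ≤ e^8 · 2^(-j)`-like: `8^m/m! = 16^m/m! 2^(-m) ≤ e^16 2^(-m)`, `m ≥ 1 + j/32`.
So factor `j` is `≤ v_j + 2^(-1-j/32) (e^16 + e^(16K)) ≤ v_j (1 + C2 2^(-j/32))`,
`C2 = e^16 (e^16 + e^(16K))`, and the product is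
`≤ ∏ v_j * exp(C2 ∑_{j<J} 2^(-j/32)) ≤ V z * exp(64 C2) ≤ exp(64 C2)/log z` (`prod_blk`, `En.V_le`;
the geometric series `1/(1 - 2^(-1/32)) ≤ 64`, or any other absolute bound).
-/

set_option autoImplicit false

namespace Pool.MP_dd84fd_nt.BX

open Finset

/-- product over blocks of sums over subsets = sum over subsets of the union -/
theorem CSt3_prod_sum (J : ℕ) (B : ℕ → Finset ℕ) (F : ℕ → Finset ℕ → ℝ)
    (hd : ∀ i < J, ∀ j < J, i ≠ j → Disjoint (B i) (B j)) :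
    ∏ j ∈ range J, ∑ S ∈ (B j).powerset, F j S =
      ∑ T ∈ ((range J).biUnion B).powerset, ∏ j ∈ range J, F j (T ∩ B j) := by
  classical
  induction J with
  | zero => simp
  | succ J ih =>
    have hd' : ∀ i < J, ∀ j < J, i ≠ j → Disjoint (B i) (B j) := fun i hi j hj =>
      hd i (by omega) j (by omega)
    rw [prod_range_succ, ih hd']
    have hdJ : Disjoint ((range J).biUnion B) (B J) := by
      rw [disjoint_biUnion_left]
      intro i hi
      exact hd i (by have := mem_range.1 hi; omega) J (by omega) (by have := mem_range.1 hi; omega)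
    rw [sum_mul_sum, ← sum_product']
    refine sum_nbij' (fun P => P.1 ∪ P.2) (fun T => (T ∩ (range J).biUnion B, T ∩ B J))
      ?_ ?_ ?_ ?_ ?_
    · rintro ⟨T1, T2⟩ h
      rw [mem_product, mem_powerset, mem_powerset] at h
      obtain ⟨h1, h2⟩ := h
      rw [mem_powerset, range_add_one, biUnion_insert]
      exact union_subset (h1.trans subset_union_right) (h2.trans subset_union_left)
    · intro T h
      rw [mem_product, mem_powerset, mem_powerset]
      exact ⟨inter_subset_right, inter_subset_right⟩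
    · rintro ⟨T1, T2⟩ h
      rw [mem_product, mem_powerset, mem_powerset] at h
      obtain ⟨h1a, h2a⟩ := h
      simp only at h1a h2a
      refine Prod.ext ?_ ?_
      · ext p
        simp only [mem_inter, mem_union]
        constructor
        · rintro ⟨h3 | h3, h4⟩
          · exact h3
          · exact absurd (h2a h3) (disjoint_left.1 hdJ h4)
        · intro h3
          exact ⟨Or.inl h3, h1a h3⟩
      · ext p
        simp only [mem_inter, mem_union]
        constructor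
        · rintro ⟨h3 | h3, h4⟩
          · exact absurd h4 (disjoint_left.1 hdJ (h1a h3))
          · exact h3
        · intro h3
          exact ⟨Or.inr h3, h2a h3⟩
    · intro T h
      rw [mem_powerset, range_add_one, biUnion_insert] at h
      simp only
      rw [← inter_union_distrib_left, union_comm, inter_eq_left]
      exact h
    · rintro ⟨T1, T2⟩ h
      rw [mem_product, mem_powerset, mem_powerset] at h
      obtain ⟨h1a, h2a⟩ := h
      simp only at h1a h2a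
      simp only
      rw [prod_range_succ]
      congr 1
      · refine prod_congr rfl fun j hj => ?_
        have hj' := mem_range.1 hj
        congr 1
        ext p
        simp only [mem_inter, mem_union]
        constructor
        · rintro ⟨h3, h4⟩
          exact ⟨Or.inl h3, h4⟩
        · rintro ⟨h3 | h3, h4⟩
          · exact ⟨h3, h4⟩
          · exact absurd h4 (disjoint_right.1 (hd j (by omega) J (by omega) (by omega)) (h2a h3))
      · congr 1
        ext p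
        simp only [mem_inter, mem_union]
        constructor
        · intro h3
          exact ⟨Or.inr h3, h2a h3⟩
        · rintro ⟨h3 | h3, h4⟩
          · exact absurd h4 (disjoint_left.1 hdJ (h1a h3))
          · exact h3

open Classical in
/-- the factor of the set `S` in block `j` -/
noncomputable def CSt3_F (K : ℝ) (z : ℝ) (j : ℕ) (S : Finset ℕ) : ℝ :=
  if S = ∅ then |sgm z j| else
    if 1 + (j : ℝ) / 32 ≤ (S.card : ℝ) then ∏ p ∈ S, (K / (p : ℝ)) else 0

theorem CSt3_F_nonneg {K : ℝ} (hK : 0 ≤ K) (z : ℝ) (j : ℕ) (S : Finset ℕ) : 0 ≤ CSt3_F K z j S := by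
  unfold CSt3_F
  split_ifs
  · exact abs_nonneg _
  · exact prod_nonneg fun p _ => by positivity
  · exact le_rfl

/-- the term of `T` is the product of the factors -/
theorem CSt3_term {K : ℝ} {z : ℝ} (hz : 1 ≤ z) {T : Finset ℕ} (hT : T ∈ TTs z) :
    K ^ T.card / (∏ p ∈ T, (p : ℝ)) * ∏ j ∈ sT z T, |sgm z j| =
      ∏ j ∈ range (JJ z), CSt3_F K z j (T ∩ blk z j) := by
  classical
  unfold TTs at hT
  rw [mem_filter, mem_powerset] at hT
  obtain ⟨h1, h2⟩ := hT
  rw [← prod_filter_mul_prod_filter_not (range (JJ z)) (fun j => T ∩ blk z j = ∅)]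
  rw [mul_comm]
  congr 1
  · unfold sT
    refine prod_congr ?_ fun j hj => ?_
    · ext j
      simp only [mem_filter]
    · rw [mem_filter] at hj
      unfold CSt3_F
      rw [if_pos hj.2]
  · have h3 : ∏ j ∈ (range (JJ z)).filter (fun j => ¬ T ∩ blk z j = ∅),
        CSt3_F K z j (T ∩ blk z j) =
        ∏ j ∈ range (JJ z), ∏ p ∈ T ∩ blk z j, (K / (p : ℝ)) := by
      rw [← prod_filter_mul_prod_filter_not (range (JJ z)) (fun j => T ∩ blk z j = ∅)
        (fun j => ∏ p ∈ T ∩ blk z j, (K / (p : ℝ)))]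
      have h4 : ∏ j ∈ (range (JJ z)).filter (fun j => T ∩ blk z j = ∅),
          ∏ p ∈ T ∩ blk z j, (K / (p : ℝ)) = 1 := by
        refine prod_eq_one fun j hj => ?_
        rw [mem_filter] at hj
        rw [hj.2, prod_empty]
      rw [h4, one_mul]
      refine prod_congr rfl fun j hj => ?_
      rw [mem_filter] at hj
      unfold CSt3_F
      rw [if_neg hj.2, if_pos ((h2 j hj.1).resolve_left hj.2)]
    rw [h3, ← prod_biUnion]
    · have h5 : (range (JJ z)).biUnion (fun j => T ∩ blk z j) = T := by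
        ext p
        rw [mem_biUnion]
        constructor
        · rintro ⟨j, -, hp⟩
          exact (mem_inter.1 hp).1
        · intro hp
          have h6 := h1 hp
          rw [mem_biUnion] at h6
          obtain ⟨j, hj, hp'⟩ := h6
          exact ⟨j, hj, mem_inter.2 ⟨hp, hp'⟩⟩
      rw [h5, prod_div_distrib, prod_const]
    · intro i _ j _ hij
      exact disjoint_of_subset_left inter_subset_right
        (disjoint_of_subset_right inter_subset_right (blk_disj hz hij))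

/-- the sum of the factors of one block -/
theorem CSt3_block {K : ℝ} (hK : 0 ≤ K) {z : ℝ} (hz : 1 ≤ z) (j : ℕ) :
    ∑ S ∈ (blk z j).powerset, CSt3_F K z j S ≤
      |sgm z j| + (2 : ℝ) ^ (-(1 + (j : ℝ) / 32)) * Real.exp (16 * K) := by
  classical
  have h2ρ : 0 < (2 : ℝ) ^ (-(1 + (j : ℝ) / 32)) := Real.rpow_pos_of_pos (by norm_num) _
  have h1 : ∀ S ∈ (blk z j).powerset, CSt3_F K z j S ≤ (if S = ∅ then |sgm z j| else 0) +
      (2 : ℝ) ^ (-(1 + (j : ℝ) / 32)) * ∏ p ∈ S, (2 * K * (1 / (p : ℝ))) := by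
    intro S _
    have h0 : 0 ≤ ∏ p ∈ S, (2 * K * (1 / (p : ℝ))) := prod_nonneg fun p _ => by positivity
    unfold CSt3_F
    by_cases hS : S = ∅
    · rw [if_pos hS, if_pos hS]
      nlinarith [mul_nonneg h2ρ.le h0]
    · rw [if_neg hS, if_neg hS, zero_add]
      split_ifs with hc
      · have e1 : ∏ p ∈ S, (2 * K * (1 / (p : ℝ))) = 2 ^ S.card * ∏ p ∈ S, (K / (p : ℝ)) := by
          rw [← prod_const, ← prod_mul_distrib]
          refine prod_congr rfl fun p _ => ?_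
          ring
        rw [e1, ← mul_assoc]
        have h3 : 0 ≤ ∏ p ∈ S, (K / (p : ℝ)) := prod_nonneg fun p _ => by positivity
        have h4 : 1 ≤ (2 : ℝ) ^ (-(1 + (j : ℝ) / 32)) * 2 ^ S.card := by
          rw [← Real.rpow_natCast, ← Real.rpow_add (by norm_num)]
          exact Real.one_le_rpow (by norm_num) (by linarith)
        nlinarith
      · positivity
  refine (sum_le_sum h1).trans ?_
  rw [sum_add_distrib, sum_ite_eq' (blk z j).powerset ∅, if_pos (empty_mem_powerset _), ← mul_sum,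
    ← prod_one_add]
  refine add_le_add le_rfl (mul_le_mul_of_nonneg_left ?_ h2ρ.le)
  calc ∏ p ∈ blk z j, (1 + 2 * K * (1 / (p : ℝ)))
      ≤ ∏ p ∈ blk z j, Real.exp (2 * K * (1 / (p : ℝ))) := by
        refine prod_le_prod (fun p _ => by positivity) fun p _ => ?_
        rw [add_comm]
        exact Real.add_one_le_exp _
    _ = Real.exp (∑ p ∈ blk z j, 2 * K * (1 / (p : ℝ))) := (Real.exp_sum _ _).symm
    _ ≤ Real.exp (16 * K) := by
        refine Real.exp_le_exp.2 ?_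
        rw [← mul_sum]
        have := blk_sum hz j
        nlinarith

theorem CSt3_sgm {z : ℝ} (hz : 1 ≤ z) (j : ℕ) :
    |sgm z j| ≤ ∏ p ∈ blk z j, (1 - 1 / (p : ℝ)) +
      (2 : ℝ) ^ (-(1 + (j : ℝ) / 32)) * Real.exp 16 := by
  have hx0 : ∀ p ∈ blk z j, 0 ≤ 1 / (p : ℝ) := fun p _ => by positivity
  have hx1 : ∀ p ∈ blk z j, 1 / (p : ℝ) ≤ 1 := by
    intro p hp
    have h2 : (1 : ℝ) ≤ p := by exact_mod_cast (mem_blk.1 hp).1.one_lt.le
    rw [div_le_one (by linarith)]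
    exact h2
  have hb := bonf (blk z j) (fun p => 1 / (p : ℝ)) hx0 hx1 (32 + j)
  have hv0 : 0 ≤ ∏ p ∈ blk z j, (1 - 1 / (p : ℝ)) :=
    prod_nonneg fun p hp => by linarith [hx1 p hp]
  have hs0 : 0 ≤ ∑ p ∈ blk z j, 1 / (p : ℝ) := sum_nonneg hx0
  unfold sgm
  rw [abs_of_nonneg (hv0.trans hb.1)]
  refine hb.2.trans (add_le_add le_rfl ?_)
  have h2 : (∑ p ∈ blk z j, 1 / (p : ℝ)) ^ (2 * (32 + j) + 1) /
      (Nat.factorial (2 * (32 + j) + 1) : ℝ) ≤
      (8 : ℝ) ^ (2 * (32 + j) + 1) / (Nat.factorial (2 * (32 + j) + 1) : ℝ) := by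
    refine div_le_div_of_nonneg_right ?_ (by positivity)
    exact pow_le_pow_left₀ hs0 (blk_sum hz j) _
  refine h2.trans ?_
  have h3 : (16 : ℝ) ^ (2 * (32 + j) + 1) / (Nat.factorial (2 * (32 + j) + 1) : ℝ) ≤
      Real.exp 16 := Real.pow_div_factorial_le_exp 16 (by norm_num) _
  have h4 : (8 : ℝ) ^ (2 * (32 + j) + 1) / (Nat.factorial (2 * (32 + j) + 1) : ℝ) =
      (2 : ℝ) ^ (-((2 * (32 + j) + 1 : ℕ) : ℝ)) *
        ((16 : ℝ) ^ (2 * (32 + j) + 1) / (Nat.factorial (2 * (32 + j) + 1) : ℝ)) := by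
    rw [Real.rpow_neg (by norm_num), Real.rpow_natCast,
      show (16 : ℝ) = 2 * 8 by norm_num, mul_pow]
    field_simp
  rw [h4]
  refine mul_le_mul ?_ h3 (by positivity) (Real.rpow_pos_of_pos (by norm_num) _).le
  refine Real.rpow_le_rpow_of_exponent_le (by norm_num) ?_
  push_cast
  have : (0 : ℝ) ≤ j := Nat.cast_nonneg j
  linarith

theorem CSt3_geom (J : ℕ) : ∑ j ∈ range J, (2 : ℝ) ^ (-(1 + (j : ℝ) / 32)) ≤
    (1 - (2 : ℝ) ^ (-(1 / 32 : ℝ)))⁻¹ := by
  have h0 : 0 < (2 : ℝ) ^ (-(1 / 32 : ℝ)) := Real.rpow_pos_of_pos (by norm_num) _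
  have h1 : (2 : ℝ) ^ (-(1 / 32 : ℝ)) < 1 :=
    Real.rpow_lt_one_of_one_lt_of_neg (by norm_num) (by norm_num)
  rw [← tsum_geometric_of_lt_one h0.le h1]
  refine le_trans (sum_le_sum fun j _ => ?_)
    ((summable_geometric_of_lt_one h0.le h1).sum_le_tsum (range J) fun j _ => by positivity)
  rw [← Real.rpow_natCast, ← Real.rpow_mul (by norm_num)]
  refine Real.rpow_le_rpow_of_exponent_le (by norm_num) ?_
  linarith

theorem CSt3_main (K : ℝ) (hK : 0 ≤ K) : ∃ C : ℝ, 0 < C ∧ ∀ z : ℝ, 2 ≤ z →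
    ∑ T ∈ TTs z, K ^ T.card / (∏ p ∈ T, (p : ℝ)) * ∏ j ∈ sT z T, |sgm z j| ≤
      C / Real.log z := by
  classical
  set C2 : ℝ := Real.exp 16 * (Real.exp 16 + Real.exp (16 * K)) with hC2
  have hC20 : 0 < C2 := by positivity
  refine ⟨Real.exp (C2 * (1 - (2 : ℝ) ^ (-(1 / 32 : ℝ)))⁻¹), Real.exp_pos _, fun z hz => ?_⟩
  have hz1 : 1 ≤ z := by linarith
  have hlz : 0 < Real.log z := Real.log_pos (by linarith)
  have h1 : ∑ T ∈ TTs z, K ^ T.card / (∏ p ∈ T, (p : ℝ)) * ∏ j ∈ sT z T, |sgm z j| ≤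
      ∏ j ∈ range (JJ z), ∑ S ∈ (blk z j).powerset, CSt3_F K z j S := by
    rw [CSt3_prod_sum (JJ z) (blk z) (CSt3_F K z) (fun i _ j _ h => blk_disj hz1 h),
      sum_congr rfl fun T hT => CSt3_term hz1 hT]
    refine sum_le_sum_of_subset_of_nonneg ?_ fun T _ _ =>
      prod_nonneg fun j _ => CSt3_F_nonneg hK z j _
    unfold TTs
    exact filter_subset _ _
  refine h1.trans ?_
  have h2 : ∀ j ∈ range (JJ z), ∑ S ∈ (blk z j).powerset, CSt3_F K z j S ≤
      (∏ p ∈ blk z j, (1 - 1 / (p : ℝ))) *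
        Real.exp (C2 * (2 : ℝ) ^ (-(1 + (j : ℝ) / 32))) := by
    intro j _
    refine (CSt3_block hK hz1 j).trans ?_
    have h3 := CSt3_sgm hz1 j
    have hPl : Real.exp (-16) ≤ ∏ p ∈ blk z j, (1 - 1 / (p : ℝ)) := blk_prod hz1 j
    set P := ∏ p ∈ blk z j, (1 - 1 / (p : ℝ)) with hP
    have hP0 : 0 < P := (Real.exp_pos _).trans_le hPl
    set y := (2 : ℝ) ^ (-(1 + (j : ℝ) / 32)) with hy
    have hy0 : 0 < y := Real.rpow_pos_of_pos (by norm_num) _
    have h4 : 1 ≤ P * Real.exp 16 := by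
      calc (1 : ℝ) = Real.exp (-16) * Real.exp 16 := by rw [← Real.exp_add]; norm_num
        _ ≤ P * Real.exp 16 := mul_le_mul_of_nonneg_right hPl (Real.exp_pos _).le
    have h5 : 0 < y * (Real.exp 16 + Real.exp (16 * K)) := by positivity
    calc |sgm z j| + y * Real.exp (16 * K)
        ≤ P + 1 * (y * (Real.exp 16 + Real.exp (16 * K))) := by linarith
      _ ≤ P + (P * Real.exp 16) * (y * (Real.exp 16 + Real.exp (16 * K))) :=
          add_le_add le_rfl (mul_le_mul_of_nonneg_right h4 h5.le)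
      _ = P * (C2 * y + 1) := by rw [hC2]; ring
      _ ≤ P * Real.exp (C2 * y) :=
          mul_le_mul_of_nonneg_left (Real.add_one_le_exp _) hP0.le
  refine (prod_le_prod (fun j _ => sum_nonneg fun S _ => CSt3_F_nonneg hK z j S) h2).trans ?_
  rw [prod_mul_distrib, prod_blk hz, ← Real.exp_sum, ← mul_sum]
  calc En.V z * Real.exp (C2 * ∑ j ∈ range (JJ z), (2 : ℝ) ^ (-(1 + (j : ℝ) / 32)))
      ≤ 1 / Real.log z * Real.exp (C2 * (1 - (2 : ℝ) ^ (-(1 / 32 : ℝ)))⁻¹) := by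
        refine mul_le_mul (En.V_le hz) ?_ (Real.exp_pos _).le (by positivity)
        exact Real.exp_le_exp.2 (mul_le_mul_of_nonneg_left (CSt3_geom _) hC20.le)
    _ = _ := by ring

theorem st_main : ∃ C : ℝ, 0 < C ∧ ∀ z : ℝ, 2 ≤ z →
    ∑ T ∈ TTs z, ((8 : ℝ) ^ 64) ^ T.card / (∏ p ∈ T, (p : ℝ)) * ∏ j ∈ sT z T, |sgm z j| ≤
      C / Real.log z :=
  CSt3_main ((8 : ℝ) ^ 64) (by positivity)

end Pool.MP_dd84fd_nt.BX
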