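import Pool.Agent.Lib.MP_dd84fd_nt.BX.CSt1
import Pool.Agent.Lib.MP_dd84fd_nt.BX.CSt2
import Pool.Agent.Lib.MP_dd84fd_nt.BX.CSt3
import Pool.Agent.Lib.MP_dd84fd_nt.DivBound

/-!
# BX/CStar: the sieve input (*)

`K = 8^64`.  Let `A ≤ B` (if `A ≥ B` the sum is empty and the right side is `≥ 0`),
`B ≤ X ≤ z^u`, `B - A ≤ H`, `B^(1/4) ≤ H`, `z^528 ≤ H`.
`st_pt` (with `n^4 ≤ B^4`) and exchanging the sums:
`∑_{n ∈ (A,B]} SS z n 4^omg n ≤ 4^u ∑_{T ∈ TTs z, (∏T)^64 ≤ B^4} K^|T| ∑_{n ∈ (A,B], ∏T ∣ n} ∏_{j∈sT} Sb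
 ≤ 4^u ∑_T K^|T| (H/∏T ∏_{j∈sT} |sgm z j| + z^132)`   (`st_int`).
Main term: all `T ∈ TTs z`, `st_main`: `≤ 4^u C3 H / log z`.
Errors: the sets `T ∈ TTs z` are sets of primes, `T ↦ d = ∏ T` is injective (`Nat.primeFactors_prod`),
`d^64 ≤ B^4` gives `1 ≤ d ≤ D := B^(1/16)`, and `K^|T| = (2^|T|)^192 = τ(d)^192 ≤ C1 d`
(`div_bound 192`; `2^|T| ≤ τ(d)` since all subproducts are different divisors,
`HX/DcRg card_divisors_le_two_pow` has the other direction; or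
`Nat.Coprime.card_divisors_mul`, induction on `T`): `∑_T K^|T| ≤ C1 D² = C1 B^(1/8) ≤ C1 H^(1/2)`;
`z^132 H^(1/2) = H z^132/H^(1/2) ≤ H z^132/z^264 = H/z^132 ≤ H/log z`.
-/

set_option autoImplicit false

namespace Pool.MP_dd84fd_nt.BX

open Finset

private theorem csPrime {z : ℝ} {T : Finset ℕ} (hT : T ∈ TTs z) : ∀ p ∈ T, p.Prime := by
  classical
  intro p hp
  unfold TTs at hT
  rw [mem_filter, mem_powerset] at hT
  have h1 := hT.1 hp
  rw [mem_biUnion] at h1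
  obtain ⟨j, -, hj⟩ := h1
  exact (mem_blk.1 hj).1

private theorem two_pow_le_div (T : Finset ℕ) (hT : ∀ p ∈ T, p.Prime) :
    2 ^ T.card ≤ (∏ p ∈ T, p).divisors.card := by
  classical
  rw [← card_powerset]
  have h0 : ∏ p ∈ T, p ≠ 0 := prod_ne_zero_iff.2 fun p hp => (hT p hp).ne_zero
  refine card_le_card_of_injOn (fun S => ∏ p ∈ S, p) ?_ ?_
  · intro S hS
    rw [mem_coe, mem_powerset] at hS
    rw [mem_coe, Nat.mem_divisors]
    exact ⟨prod_dvd_prod_of_subset _ _ _ hS, h0⟩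
  · intro S hS S' hS' h
    rw [mem_coe, mem_powerset] at hS hS'
    have h1 := Nat.primeFactors_prod (fun p hp => hT p (hS hp))
    have h2 := Nat.primeFactors_prod (fun p hp => hT p (hS' hp))
    rw [← h1, ← h2]
    exact congrArg Nat.primeFactors h

theorem star (u : ℝ) : ∃ C : ℝ, 1 ≤ C ∧ ∀ z : ℝ, 2 ≤ z → ∀ X : ℕ, (X : ℝ) ≤ z ^ u →
    StarH z X C := by
  classical
  obtain ⟨C3, hC3, hmain⟩ := st_main
  obtain ⟨C1, hC1, hdiv⟩ := Pool.Agent.Lib.MP_dd84fd_nt.DivBound.div_bound 192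
  have h4u : (0 : ℝ) < (4 : ℝ) ^ u := Real.rpow_pos_of_pos (by norm_num) u
  refine ⟨max 1 ((4 : ℝ) ^ u * (C3 + C1)), le_max_left _ _, ?_⟩
  intro z hz X hX A B H hBX hAH hB4 hzH
  have hz1 : 1 ≤ z := by linarith
  have hz0 : 0 < z := by linarith
  have hlz : 0 < Real.log z := Real.log_pos (by linarith)
  have hH0 : 0 < H := lt_of_lt_of_le (by positivity) hzH
  have hfin : (4 : ℝ) ^ u * (C3 + C1) * H / Real.log z ≤
      max 1 ((4 : ℝ) ^ u * (C3 + C1)) * H / Real.log z := by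
    gcongr
    exact le_max_right _ _
  rcases le_or_gt B A with hAB | hAB
  · rw [Ioc_eq_empty (by omega), sum_empty]
    positivity
  obtain ⟨K, hK⟩ : ∃ K : ℝ, K = (8 : ℝ) ^ 64 := ⟨_, rfl⟩
  have hK0 : 0 < K := by rw [hK]; positivity
  obtain ⟨F, hF⟩ : ∃ F : Finset (Finset ℕ), F =
    (TTs z).filter (fun T => (∏ p ∈ T, p) ^ 64 ≤ B ^ 4) := ⟨_, rfl⟩
  have hFT : ∀ T ∈ F, T ∈ TTs z := fun T hT => by rw [hF] at hT; exact (mem_filter.1 hT).1
  have hFB : ∀ T ∈ F, (∏ p ∈ T, p) ^ 64 ≤ B ^ 4 := fun T hT => by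
    rw [hF] at hT; exact (mem_filter.1 hT).2
  have hterm : ∀ (T : Finset ℕ) (n : ℕ), 0 ≤ K ^ T.card * ∏ j ∈ sT z T, Sb z j n := fun T n =>
    mul_nonneg (by positivity) (prod_nonneg fun j _ => Sb_nonneg z j n)
  have hpos : ∀ T ∈ TTs z, (0 : ℝ) < ∏ p ∈ T, (p : ℝ) := fun T hT => prod_pos fun p hp => by
    exact_mod_cast (csPrime hT p hp).pos
  -- step 1
  have h1 : ∀ n ∈ Ioc A B, SS z n * (4 : ℝ) ^ omg n ≤ (4 : ℝ) ^ u *
      ∑ T ∈ F.filter (fun T => (∏ p ∈ T, p) ∣ n), K ^ T.card * ∏ j ∈ sT z T, Sb z j n := by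
    intro n hn
    rw [mem_Ioc] at hn
    have h2 := st_pt u hz hX (show 1 ≤ n by omega) (show n ≤ X by omega)
    refine h2.trans (mul_le_mul_of_nonneg_left ?_ h4u.le)
    rw [← hK]
    refine sum_le_sum_of_subset_of_nonneg ?_ fun T _ _ => hterm T n
    intro T hT
    rw [mem_filter] at hT
    rw [mem_filter, hF, mem_filter]
    exact ⟨⟨hT.1, hT.2.1.trans (Nat.pow_le_pow_left hn.2 4)⟩, hT.2.2⟩
  -- step 2
  have h2 : ∑ n ∈ Ioc A B, SS z n * (4 : ℝ) ^ omg n ≤ (4 : ℝ) ^ u *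
      ∑ T ∈ F, K ^ T.card * (((B : ℝ) - A) / (∏ p ∈ T, (p : ℝ)) * ∏ j ∈ sT z T, |sgm z j| +
        lvl z) := by
    calc ∑ n ∈ Ioc A B, SS z n * (4 : ℝ) ^ omg n ≤ ∑ n ∈ Ioc A B, (4 : ℝ) ^ u *
          ∑ T ∈ F.filter (fun T => (∏ p ∈ T, p) ∣ n), K ^ T.card * ∏ j ∈ sT z T, Sb z j n :=
          sum_le_sum h1
      _ = (4 : ℝ) ^ u * ∑ n ∈ Ioc A B, ∑ T ∈ F, if (∏ p ∈ T, p) ∣ n then
            K ^ T.card * ∏ j ∈ sT z T, Sb z j n else 0 := by
          rw [← mul_sum]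
          congr 1
          refine sum_congr rfl fun n _ => ?_
          rw [sum_filter]
      _ = (4 : ℝ) ^ u * ∑ T ∈ F, K ^ T.card *
            ∑ n ∈ (Ioc A B).filter (fun n => (∏ p ∈ T, p) ∣ n), ∏ j ∈ sT z T, Sb z j n := by
          rw [sum_comm]
          congr 1
          refine sum_congr rfl fun T _ => ?_
          rw [← sum_filter, mul_sum]
      _ ≤ _ := by
          refine mul_le_mul_of_nonneg_left (sum_le_sum fun T hT => ?_) h4u.le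
          exact mul_le_mul_of_nonneg_left (st_int hz T (hFT T hT) A B hAB.le) (by positivity)
  -- main term
  have h3 : ∑ T ∈ F, K ^ T.card * (((B : ℝ) - A) / (∏ p ∈ T, (p : ℝ)) *
      ∏ j ∈ sT z T, |sgm z j|) ≤ H * (C3 / Real.log z) := by
    have h4 := hmain z hz
    rw [← hK] at h4
    have hn0 : ∀ T ∈ TTs z, 0 ≤ K ^ T.card / (∏ p ∈ T, (p : ℝ)) * ∏ j ∈ sT z T, |sgm z j| :=
      fun T hT => mul_nonneg (div_nonneg (by positivity) (hpos T hT).le)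
        (prod_nonneg fun j _ => abs_nonneg _)
    have h5 : ∑ T ∈ F, K ^ T.card / (∏ p ∈ T, (p : ℝ)) * ∏ j ∈ sT z T, |sgm z j| ≤
        C3 / Real.log z := by
      refine le_trans (sum_le_sum_of_subset_of_nonneg ?_ fun T hT _ => hn0 T hT) h4
      intro T hT
      exact hFT T hT
    refine le_trans ?_ (mul_le_mul_of_nonneg_left h5 hH0.le)
    rw [mul_sum]
    refine sum_le_sum fun T hT => ?_
    have h6 := hn0 T (hFT T hT)
    calc K ^ T.card * (((B : ℝ) - A) / (∏ p ∈ T, (p : ℝ)) * ∏ j ∈ sT z T, |sgm z j|)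
        = ((B : ℝ) - A) * (K ^ T.card / (∏ p ∈ T, (p : ℝ)) * ∏ j ∈ sT z T, |sgm z j|) := by ring
      _ ≤ H * (K ^ T.card / (∏ p ∈ T, (p : ℝ)) * ∏ j ∈ sT z T, |sgm z j|) :=
          mul_le_mul_of_nonneg_right hAH h6
  -- the number of sets
  obtain ⟨D, hD⟩ : ∃ D : ℝ, D = (B : ℝ) ^ (1 / 16 : ℝ) := ⟨_, rfl⟩
  have hB0 : (0 : ℝ) ≤ B := Nat.cast_nonneg B
  have hD0 : 0 ≤ D := by rw [hD]; positivity
  have hD64 : D ^ 64 = (B : ℝ) ^ 4 := by
    rw [hD, ← Real.rpow_natCast, ← Real.rpow_mul hB0, ← Real.rpow_natCast]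
    congr 1
    norm_num
  have hD4 : D ^ 4 = (B : ℝ) ^ (1 / 4 : ℝ) := by
    rw [hD, ← Real.rpow_natCast, ← Real.rpow_mul hB0]
    congr 1
    norm_num
  have hTD : ∀ T ∈ F, ((∏ p ∈ T, p : ℕ) : ℝ) ≤ D := by
    intro T hT
    have h5 : ((∏ p ∈ T, p : ℕ) : ℝ) ^ 64 ≤ D ^ 64 := by
      rw [hD64]
      exact_mod_cast hFB T hT
    exact le_of_pow_le_pow_left₀ (by norm_num) hD0 h5
  have hcardF : (F.card : ℝ) ≤ D := by
    have h5 : F.card ≤ (Icc 1 ⌊D⌋₊).card := by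
      refine card_le_card_of_injOn (fun T => ∏ p ∈ T, p) ?_ ?_
      · intro T hT
        rw [mem_coe] at hT
        rw [mem_coe, mem_Icc]
        refine ⟨?_, Nat.le_floor (hTD T hT)⟩
        exact Nat.one_le_iff_ne_zero.2 (prod_ne_zero_iff.2 fun p hp =>
          (csPrime (hFT T hT) p hp).ne_zero)
      · intro S hS T hT h
        rw [mem_coe] at hS hT
        have h1 := Nat.primeFactors_prod (csPrime (hFT S hS))
        have h2 := Nat.primeFactors_prod (csPrime (hFT T hT))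
        rw [← h1, ← h2]
        exact congrArg Nat.primeFactors h
    rw [Nat.card_Icc, Nat.add_sub_cancel] at h5
    calc (F.card : ℝ) ≤ (⌊D⌋₊ : ℝ) := by exact_mod_cast h5
      _ ≤ D := Nat.floor_le hD0
  have hKT : ∀ T ∈ F, K ^ T.card ≤ C1 * D := by
    intro T hT
    have hp := csPrime (hFT T hT)
    have h5 := two_pow_le_div T hp
    have h6 := hdiv (∏ p ∈ T, p) (prod_ne_zero_iff.2 fun p hp' => (hp p hp').ne_zero)
    have h7 : (2 ^ T.card) ^ 192 ≤ C1 * ∏ p ∈ T, p := (Nat.pow_le_pow_left h5 192).trans h6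
    have h8 : K ^ T.card = (((2 ^ T.card) ^ 192 : ℕ) : ℝ) := by
      rw [hK]
      push_cast
      rw [← pow_mul, ← pow_mul, show (8 : ℝ) = 2 ^ 3 by norm_num, ← pow_mul]
      congr 1
      ring
    rw [h8]
    calc (((2 ^ T.card) ^ 192 : ℕ) : ℝ) ≤ ((C1 * ∏ p ∈ T, p : ℕ) : ℝ) := by exact_mod_cast h7
      _ = C1 * ((∏ p ∈ T, p : ℕ) : ℝ) := by push_cast; rfl
      _ ≤ C1 * D := mul_le_mul_of_nonneg_left (hTD T hT) (Nat.cast_nonneg _)
  have hsq : D ^ 2 ≤ Real.sqrt H := by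
    apply Real.le_sqrt_of_sq_le
    calc (D ^ 2) ^ 2 = D ^ 4 := by ring
      _ ≤ H := by rw [hD4]; exact hB4
  have hsz : z ^ (264 : ℕ) ≤ Real.sqrt H := by
    apply Real.le_sqrt_of_sq_le
    calc (z ^ (264 : ℕ)) ^ 2 = z ^ (528 : ℕ) := by rw [← pow_mul]
      _ ≤ H := hzH
  have hss : Real.sqrt H * Real.sqrt H = H := Real.mul_self_sqrt hH0.le
  have hs0 : 0 ≤ Real.sqrt H := Real.sqrt_nonneg H
  have hlogz : Real.log z ≤ z ^ (132 : ℕ) := by
    calc Real.log z ≤ z - 1 := Real.log_le_sub_one_of_pos hz0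
      _ ≤ z := by linarith
      _ = z ^ (1 : ℕ) := (pow_one z).symm
      _ ≤ z ^ (132 : ℕ) := pow_le_pow_right₀ hz1 (by norm_num)
  have h9 : ∑ T ∈ F, K ^ T.card * lvl z ≤ H * (C1 / Real.log z) := by
    have hl0 : 0 ≤ lvl z := by unfold lvl; positivity
    have h10 : ∑ T ∈ F, K ^ T.card * lvl z ≤ F.card * (C1 * D) * lvl z := by
      rw [← sum_mul]
      refine mul_le_mul_of_nonneg_right ?_ hl0
      calc ∑ T ∈ F, K ^ T.card ≤ ∑ T ∈ F, (C1 * D : ℝ) := sum_le_sum hKT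
        _ = F.card * (C1 * D) := by rw [sum_const, nsmul_eq_mul]
    have h11 : (F.card : ℝ) * (C1 * D) * lvl z ≤ C1 * (Real.sqrt H * lvl z) := by
      have h12 : (F.card : ℝ) * (C1 * D) ≤ C1 * Real.sqrt H := by
        calc (F.card : ℝ) * (C1 * D) ≤ D * (C1 * D) :=
              mul_le_mul_of_nonneg_right hcardF (by positivity)
          _ = C1 * D ^ 2 := by ring
          _ ≤ C1 * Real.sqrt H := mul_le_mul_of_nonneg_left hsq (Nat.cast_nonneg _)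
      calc (F.card : ℝ) * (C1 * D) * lvl z ≤ C1 * Real.sqrt H * lvl z :=
            mul_le_mul_of_nonneg_right h12 hl0
        _ = C1 * (Real.sqrt H * lvl z) := by ring
    have h13 : Real.sqrt H * lvl z * Real.log z ≤ H := by
      calc Real.sqrt H * lvl z * Real.log z ≤ Real.sqrt H * lvl z * z ^ (132 : ℕ) :=
            mul_le_mul_of_nonneg_left hlogz (mul_nonneg hs0 hl0)
        _ = Real.sqrt H * z ^ (264 : ℕ) := by unfold lvl; ring
        _ ≤ Real.sqrt H * Real.sqrt H := mul_le_mul_of_nonneg_left hsz hs0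
        _ = H := hss
    have h14 : Real.sqrt H * lvl z ≤ H / Real.log z := by
      rw [le_div_iff₀ hlz]
      exact h13
    calc ∑ T ∈ F, K ^ T.card * lvl z ≤ C1 * (Real.sqrt H * lvl z) := h10.trans h11
      _ ≤ C1 * (H / Real.log z) := mul_le_mul_of_nonneg_left h14 (Nat.cast_nonneg _)
      _ = H * (C1 / Real.log z) := by ring
  refine h2.trans (le_trans ?_ hfin)
  have h15 : ∑ T ∈ F, K ^ T.card * (((B : ℝ) - A) / (∏ p ∈ T, (p : ℝ)) *
      ∏ j ∈ sT z T, |sgm z j| + lvl z) ≤ H * (C3 / Real.log z) + H * (C1 / Real.log z) := by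
    calc _ = ∑ T ∈ F, K ^ T.card * (((B : ℝ) - A) / (∏ p ∈ T, (p : ℝ)) *
          ∏ j ∈ sT z T, |sgm z j|) + ∑ T ∈ F, K ^ T.card * lvl z := by
          rw [← sum_add_distrib]
          refine sum_congr rfl fun T _ => ?_
          ring
      _ ≤ _ := add_le_add h3 h9
  calc (4 : ℝ) ^ u * ∑ T ∈ F, K ^ T.card * (((B : ℝ) - A) / (∏ p ∈ T, (p : ℝ)) *
      ∏ j ∈ sT z T, |sgm z j| + lvl z) ≤
        (4 : ℝ) ^ u * (H * (C3 / Real.log z) + H * (C1 / Real.log z)) :=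
        mul_le_mul_of_nonneg_left h15 h4u.le
    _ = (4 : ℝ) ^ u * (C3 + C1) * H / Real.log z := by ring

end Pool.MP_dd84fd_nt.BX
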