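import Pool.Agent.Lib.MP_dd84fd_nt.BX.CLam
import Pool.Agent.Lib.MP_dd84fd_nt.BX.CPar
import Pool.Agent.Lib.MP_dd84fd_nt.BX.CStar

/-!
# BX/CFin: the `l^1` bound for the primes (L1B)

`star (8448/ν)` gives `C0`, `prm_exists ν C0` the parameters, `l1_tht` the bound
`C1 √T h`, `C1 = 27 C0² u² + 1`, for `θ` and EVERY choice of cells.  Abel summation: for
`n ∈ (α, β]`, `β ≤ α + h`, `1/log n = 1/log(α+h+1) + ∑_{r=1}^{h} [n ≤ α+r] (1/log(α+r) -
1/log(α+r+1))`, so
`∑_{n ∈ (α,β], n prime} f(n) = F(β)/log(α+h+1) + ∑_{r=1}^h w_r(α) F(min(β, α+r))`,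
`F(b) = ∑_{n ∈ (α,b]} θ(n) f(n)`, `0 ≤ w_r(α) ≤ 1/((α+r) log²(α+r)) ≤ 1/(h log² h)` (`α ≥ h`).
`(α, min(β, α+r)]` are cells again.  `nt_add`, `nt_sum`, `nt_scale`:
`∑_Y nt ≤ C1 √T h (1/log h + h * 1/(h log² h)) ≤ 2 C1 √T h / log h ≤ 4 C1 √T h / log X`
(`h ≥ X^(1/2)`).
-/

set_option autoImplicit false

namespace Pool.MP_dd84fd_nt.BX

open Finset

/-- the Abel weights -/
private noncomputable def wA (a r : ℕ) : ℝ :=
  1 / Real.log ((a + r : ℕ) : ℝ) - 1 / Real.log ((a + r + 1 : ℕ) : ℝ)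

private theorem wA_sum (a n : ℕ) (hn : a < n) : ∀ h : ℕ,
    ∑ r ∈ Icc 1 h, (if n ≤ a + r then wA a r else 0) =
      if n ≤ a + h then 1 / Real.log (n : ℝ) - 1 / Real.log ((a + h + 1 : ℕ) : ℝ) else 0 := by
  intro h
  induction h with
  | zero =>
    rw [if_neg (by omega)]
    simp
  | succ h ih =>
    rw [← Finset.insert_Icc_right_eq_Icc_add_one (by omega : 1 ≤ h + 1),
      sum_insert (by simp), ih]
    by_cases h1 : n ≤ a + h
    · rw [if_pos h1, if_pos (by omega), if_pos (by omega)]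
      unfold wA
      have e1 : a + (h + 1) = a + h + 1 := by ring
      rw [e1]
      ring
    · rw [if_neg h1]
      by_cases h2 : n ≤ a + (h + 1)
      · have h3 : n = a + (h + 1) := by omega
        rw [if_pos h2, if_pos h2]
        unfold wA
        rw [← h3]
        ring
      · rw [if_neg h2, if_neg h2, add_zero]

private theorem wA_nonneg {a r h : ℕ} (hh : 2 ≤ h) (ha : h ≤ a) : 0 ≤ wA a r := by
  unfold wA
  have hx : (2 : ℝ) ≤ ((a + r : ℕ) : ℝ) := by exact_mod_cast (by omega : 2 ≤ a + r)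
  have hl : 0 < Real.log ((a + r : ℕ) : ℝ) := Real.log_pos (by linarith)
  have hle : Real.log ((a + r : ℕ) : ℝ) ≤ Real.log ((a + r + 1 : ℕ) : ℝ) := by
    apply Real.log_le_log (by linarith)
    push_cast
    linarith
  have := one_div_le_one_div_of_le hl hle
  linarith

private theorem wA_le {a r h : ℕ} (hh : 2 ≤ h) (ha : h ≤ a) :
    wA a r ≤ 1 / (h * Real.log h ^ 2) := by
  unfold wA
  have hh' : (2 : ℝ) ≤ (h : ℝ) := by exact_mod_cast hh
  have hx : (h : ℝ) ≤ ((a + r : ℕ) : ℝ) := by exact_mod_cast (by omega : h ≤ a + r)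
  have hl0 : 0 < Real.log (h : ℝ) := Real.log_pos (by linarith)
  have hl1 : Real.log (h : ℝ) ≤ Real.log ((a + r : ℕ) : ℝ) := Real.log_le_log (by linarith) hx
  have hx1 : ((a + r + 1 : ℕ) : ℝ) = ((a + r : ℕ) : ℝ) + 1 := by push_cast; ring
  rw [hx1]
  generalize ((a + r : ℕ) : ℝ) = x at hx hl1
  have hl2 : Real.log x ≤ Real.log (x + 1) := Real.log_le_log (by linarith) (by linarith)
  have hd : Real.log (x + 1) - Real.log x ≤ 1 / h := by
    rw [← Real.log_div (by linarith) (by linarith)]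
    have hx0 : (0 : ℝ) < x := by linarith
    have h1 : (x + 1) / x = 1 + 1 / x := by
      rw [add_div, div_self hx0.ne']
    rw [h1]
    have h2 := Real.log_le_sub_one_of_pos (show (0 : ℝ) < 1 + 1 / x by positivity)
    have h3 : 1 / x ≤ 1 / (h : ℝ) := one_div_le_one_div_of_le (by linarith) hx
    linarith
  have he : 1 / Real.log x - 1 / Real.log (x + 1) =
      (Real.log (x + 1) - Real.log x) / (Real.log x * Real.log (x + 1)) := by
    have h1 : Real.log x ≠ 0 := by linarith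
    have h2 : Real.log (x + 1) ≠ 0 := by linarith
    field_simp
  rw [he]
  have h4 : Real.log (h : ℝ) ^ 2 ≤ Real.log x * Real.log (x + 1) := by
    rw [pow_two]
    exact mul_le_mul hl1 (hl1.trans hl2) hl0.le (by linarith)
  have h5 : (1 : ℝ) / (h * Real.log h ^ 2) = (1 / h) / Real.log h ^ 2 := by
    rw [div_div]
  rw [h5]
  exact div_le_div₀ (by positivity) hd (by positivity) h4

private theorem abelP (g : ℕ → ℂ) {a b h : ℕ} (hb : b ≤ a + h) :
    ∑ n ∈ (Ioc a b).filter Nat.Prime, g n =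
      ((1 / Real.log ((a + h + 1 : ℕ) : ℝ) : ℝ) : ℂ) * ∑ n ∈ Ioc a b, ((tht n : ℝ) : ℂ) * g n +
        ∑ r ∈ Icc 1 h, ((wA a r : ℝ) : ℂ) *
          ∑ n ∈ Ioc a (min b (a + r)), ((tht n : ℝ) : ℂ) * g n := by
  have h1 : ∀ r ∈ Icc 1 h, ((wA a r : ℝ) : ℂ) *
      ∑ n ∈ Ioc a (min b (a + r)), ((tht n : ℝ) : ℂ) * g n =
      ∑ n ∈ Ioc a b, (((if n ≤ a + r then wA a r else 0 : ℝ)) : ℂ) *
        (((tht n : ℝ) : ℂ) * g n) := by
    intro r _
    have h2 : Ioc a (min b (a + r)) = (Ioc a b).filter (fun n => n ≤ a + r) := by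
      ext n
      simp only [mem_Ioc, mem_filter]
      omega
    rw [h2, sum_filter, mul_sum]
    refine sum_congr rfl fun n _ => ?_
    by_cases h3 : n ≤ a + r
    · rw [if_pos h3, if_pos h3]
    · rw [if_neg h3, if_neg h3]
      simp
  rw [sum_congr rfl h1, sum_comm, mul_sum, ← sum_add_distrib, sum_filter]
  refine sum_congr rfl fun n hn => ?_
  rw [mem_Ioc] at hn
  rw [← sum_mul, ← add_mul]
  have h4 := wA_sum a n hn.1 h
  rw [if_pos (by omega)] at h4
  have h5 : ∑ r ∈ Icc 1 h, (((if n ≤ a + r then wA a r else 0 : ℝ)) : ℂ) =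
      ((1 / Real.log (n : ℝ) - 1 / Real.log ((a + h + 1 : ℕ) : ℝ) : ℝ) : ℂ) := by
    rw [← h4]
    push_cast
    rfl
  rw [h5, ← Complex.ofReal_add]
  have h6 : 1 / Real.log ((a + h + 1 : ℕ) : ℝ) +
      (1 / Real.log (n : ℝ) - 1 / Real.log ((a + h + 1 : ℕ) : ℝ)) = 1 / Real.log (n : ℝ) := by ring
  rw [h6]
  by_cases hp : n.Prime
  · rw [if_pos hp]
    unfold tht
    rw [if_pos hp]
    have hl : Real.log (n : ℝ) ≠ 0 := by
      have : (1 : ℝ) < n := by exact_mod_cast hp.one_lt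
      exact (Real.log_pos this).ne'
    rw [← mul_assoc, ← Complex.ofReal_mul, one_div, inv_mul_cancel₀ hl, Complex.ofReal_one, one_mul]
  · rw [if_neg hp]
    unfold tht
    rw [if_neg hp]
    simp

/-- (L1B) -/
theorem l1_primes (ν : ℝ) (h0 : 0 < ν) (h1 : ν ≤ 1 / 20) : ∃ C : ℝ, 0 < C ∧ ∃ X0 : ℕ,
    ∀ X : ℕ, X0 ≤ X → ∀ {ι : Type} (Y : Finset ι) (f : ι → ℕ → ℂ) (P1 P2 : ℝ),
      ChF Y f P1 P2 → 1 ≤ P2 → P2 ≤ P1 → P1 * P2 ^ 2 ≤ (X : ℝ) ^ (1 - ν) →
      (Y.card : ℝ) ≤ (X : ℝ) ^ (ν / 4096) → ∀ (h T : ℕ) (α β : ℕ → ℕ),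
      (X : ℝ) ^ (1 - ν / 1024) ≤ h → h ≤ X → Cells X h T α β →
      ∑ i ∈ Y, nt T (fun t => ∑ n ∈ (Ioc (α t) (β t)).filter Nat.Prime, f i n) ≤
        C * (Real.sqrt T * h) / Real.log X := by
  obtain ⟨C0, hC0, hst⟩ := star (8448 / ν)
  obtain ⟨X0, hX0⟩ := prm_exists ν h0 h1 C0 hC0
  set C1 : ℝ := 27 * C0 ^ 2 * (8448 / ν) ^ 2 + 1 with hC1
  have hC1p : 0 < C1 := by positivity
  refine ⟨4 * C1, by positivity, max X0 9, ?_⟩
  intro X hX ι Y f P1 P2 hF hP2 hP12 hP hY h T α β hhX hhX' hc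
  have hXX0 : X0 ≤ X := le_trans (le_max_left _ _) hX
  have hX9 : 9 ≤ X := le_trans (le_max_right _ _) hX
  have hp := hX0 X hXX0 P1 P2 h hP2 hP12 hP hhX hhX'
  have hS := hst _ hp.z2 X hp.Xz
  have key : ∀ β' : ℕ → ℕ, Cells X h T α β' →
      ∑ i ∈ Y, nt T (fun t => ∑ n ∈ Ioc (α t) (β' t), ((tht n : ℝ) : ℂ) * f i n) ≤
        C1 * (Real.sqrt T * h) := fun β' hc' => l1_tht hp hF hS hY α β' hc'
  -- sizes
  have hX9' : (9 : ℝ) ≤ X := by exact_mod_cast hX9
  have hlX : 2 ≤ Real.log X := by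
    have h2 : Real.exp 2 ≤ 9 := by
      have h3 := Real.exp_one_lt_d9
      have h4 : Real.exp 2 = Real.exp 1 * Real.exp 1 := by rw [← Real.exp_add]; norm_num
      rw [h4]
      nlinarith [Real.exp_pos 1]
    have h5 := Real.log_le_log (Real.exp_pos 2) (h2.trans hX9')
    rwa [Real.log_exp] at h5
  have hhalf : Real.log X / 2 ≤ Real.log h := by
    have h2 : (X : ℝ) ^ (1 / 2 : ℝ) ≤ h := by
      refine le_trans (Real.rpow_le_rpow_of_exponent_le (by linarith) ?_) hhX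
      linarith
    have h3 := Real.log_le_log (by positivity) h2
    rw [Real.log_rpow (by linarith)] at h3
    linarith
  have hlh1 : 1 ≤ Real.log h := by linarith
  have hh2 : 2 ≤ h := by
    by_contra hcon
    have : h = 0 ∨ h = 1 := by omega
    rcases this with rfl | rfl
    · norm_num at hlh1
    · norm_num at hlh1
  have hh0 : (0 : ℝ) < h := by exact_mod_cast (by omega : 0 < h)
  have hlh0 : 0 < Real.log h := by linarith
  -- cells
  have hcr : ∀ r : ℕ, Cells X h T α (fun t => min (β t) (α t + r)) := by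
    intro r t ht
    obtain ⟨c1, c2, c3, c4⟩ := hc t ht
    refine ⟨c1, ?_, ?_, ?_⟩
    · simp only [le_min_iff]
      omega
    · exact (min_le_left _ _).trans c3
    · exact (min_le_left _ _).trans c4
  have hi : ∀ i ∈ Y, nt T (fun t => ∑ n ∈ (Ioc (α t) (β t)).filter Nat.Prime, f i n) ≤
      1 / Real.log h * nt T (fun t => ∑ n ∈ Ioc (α t) (β t), ((tht n : ℝ) : ℂ) * f i n) +
      ∑ r ∈ Icc 1 h, 1 / (h * Real.log h ^ 2) *
        nt T (fun t => ∑ n ∈ Ioc (α t) (min (β t) (α t + r)), ((tht n : ℝ) : ℂ) * f i n) := by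
    intro i _
    have e1 : nt T (fun t => ∑ n ∈ (Ioc (α t) (β t)).filter Nat.Prime, f i n) =
        nt T (fun t => ((1 / Real.log ((α t + h + 1 : ℕ) : ℝ) : ℝ) : ℂ) *
            ∑ n ∈ Ioc (α t) (β t), ((tht n : ℝ) : ℂ) * f i n +
          ∑ r ∈ Icc 1 h, ((wA (α t) r : ℝ) : ℂ) *
            ∑ n ∈ Ioc (α t) (min (β t) (α t + r)), ((tht n : ℝ) : ℂ) * f i n) := by
      refine nt_congr T _ _ fun t ht => ?_
      obtain ⟨c1, c2, c3, c4⟩ := hc t ht
      exact abelP (f i) c3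
    rw [e1]
    refine (nt_add T (fun t => ((1 / Real.log ((α t + h + 1 : ℕ) : ℝ) : ℝ) : ℂ) *
            ∑ n ∈ Ioc (α t) (β t), ((tht n : ℝ) : ℂ) * f i n)
          (fun t => ∑ r ∈ Icc 1 h, ((wA (α t) r : ℝ) : ℂ) *
            ∑ n ∈ Ioc (α t) (min (β t) (α t + r)), ((tht n : ℝ) : ℂ) * f i n)).trans ?_
    refine add_le_add ?_ ?_
    · refine nt_scale T _ (by positivity) _ _ fun t ht => ?_
      obtain ⟨c1, c2, c3, c4⟩ := hc t ht
      rw [norm_mul, Complex.norm_real, Real.norm_eq_abs]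
      refine mul_le_mul_of_nonneg_right ?_ (norm_nonneg _)
      have hle : Real.log (h : ℝ) ≤ Real.log ((α t + h + 1 : ℕ) : ℝ) :=
        Real.log_le_log hh0 (by exact_mod_cast (by omega : h ≤ α t + h + 1))
      rw [abs_of_nonneg (by have : 0 ≤ Real.log ((α t + h + 1 : ℕ) : ℝ) := by linarith
                            positivity)]
      exact one_div_le_one_div_of_le hlh0 hle
    · refine (nt_sum T (Icc 1 h) (fun r t => ((wA (α t) r : ℝ) : ℂ) *
            ∑ n ∈ Ioc (α t) (min (β t) (α t + r)), ((tht n : ℝ) : ℂ) * f i n)).trans ?_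
      refine sum_le_sum fun r _ => ?_
      refine nt_scale T _ (by positivity) _ _ fun t ht => ?_
      obtain ⟨c1, c2, c3, c4⟩ := hc t ht
      rw [norm_mul, Complex.norm_real, Real.norm_eq_abs, abs_of_nonneg (wA_nonneg hh2 c1)]
      exact mul_le_mul_of_nonneg_right (wA_le hh2 c1) (norm_nonneg _)
  have hM : 0 ≤ Real.sqrt T * h := by positivity
  calc ∑ i ∈ Y, nt T (fun t => ∑ n ∈ (Ioc (α t) (β t)).filter Nat.Prime, f i n)
      ≤ ∑ i ∈ Y, (1 / Real.log h *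
          nt T (fun t => ∑ n ∈ Ioc (α t) (β t), ((tht n : ℝ) : ℂ) * f i n) +
        ∑ r ∈ Icc 1 h, 1 / (h * Real.log h ^ 2) *
          nt T (fun t => ∑ n ∈ Ioc (α t) (min (β t) (α t + r)), ((tht n : ℝ) : ℂ) * f i n)) :=
        sum_le_sum hi
    _ = 1 / Real.log h * ∑ i ∈ Y,
          nt T (fun t => ∑ n ∈ Ioc (α t) (β t), ((tht n : ℝ) : ℂ) * f i n) +
        ∑ r ∈ Icc 1 h, 1 / (h * Real.log h ^ 2) * ∑ i ∈ Y,
          nt T (fun t => ∑ n ∈ Ioc (α t) (min (β t) (α t + r)), ((tht n : ℝ) : ℂ) * f i n) := by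
        rw [sum_add_distrib, mul_sum, sum_comm]
        congr 1
        refine sum_congr rfl fun r _ => ?_
        rw [mul_sum]
    _ ≤ 1 / Real.log h * (C1 * (Real.sqrt T * h)) +
        ∑ r ∈ Icc 1 h, 1 / (h * Real.log h ^ 2) * (C1 * (Real.sqrt T * h)) := by
        refine add_le_add ?_ (sum_le_sum fun r _ => ?_)
        · exact mul_le_mul_of_nonneg_left (key β hc) (by positivity)
        · exact mul_le_mul_of_nonneg_left (key _ (hcr r)) (by positivity)
    _ = (1 / Real.log h + 1 / Real.log h ^ 2) * (C1 * (Real.sqrt T * h)) := by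
        rw [sum_const, Nat.card_Icc, Nat.add_sub_cancel, nsmul_eq_mul]
        field_simp
    _ ≤ (4 / Real.log X) * (C1 * (Real.sqrt T * h)) := by
        refine mul_le_mul_of_nonneg_right ?_ (by positivity)
        have h2 : 1 / Real.log h ^ 2 ≤ 1 / Real.log h := by
          refine one_div_le_one_div_of_le hlh0 ?_
          nlinarith
        have h3 : 1 / Real.log h ≤ 2 / Real.log X := by
          rw [div_le_div_iff₀ hlh0 (by linarith)]
          linarith
        have h4 : 4 / Real.log X = 2 / Real.log X + 2 / Real.log X := by ring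
        linarith
    _ = 4 * C1 * (Real.sqrt T * h) / Real.log X := by ring

end Pool.MP_dd84fd_nt.BX
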