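import Pool.Agent.Lib.MP_dd84fd_nt.BX.CDefs

/-!
# BX/CId: the exact identity `Λ = TI - Λ * c`

`c(l) = S(l) ∑_{d ∣ l, d ≤ U} μ(d)`; by `Sv_eq` (`b = 32`) and `d ∣ l ∧ e ∣ l ↔ lcm ∣ l`:
`cc z U l = ∑_{e ∈ ES 32 z} ∑_{d ≤ U} [lcm(e,d) ∣ l] μ(e) μ(d)` for `l ≥ 1` (`cc_div`).
`cc 1 = 1` (`Sv_one`), `cc l = 0` for `1 < l ≤ U` (`∑_{d ∣ l} μ(d) = 0`).
`vau`: `∑_{l ∣ n} c(l) Λ(n/l) = ∑_{e,d} μ(e) μ(d) ∑_{l ∣ n, g ∣ l} Λ(n/l)`, `g = lcm(e,d)`; the inner
sum is `0` if `g ∤ n`, else `∑_{m ∣ n/g} Λ(m) = log (n/g)` (`vonMangoldt_sum`).  The left side is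
`Λ(n) + ∑_{l ∣ n, l > U} c(l) Λ(n/l)`; the part `U < l ≤ V` is separated from `l > V`.
`cc_abs`: `|S| ≤ 2^ω` (`Sv_le`, `Sv_nonneg`), `|c♯| ≤ #{squarefree divisors} = 2^ω`.
-/

set_option autoImplicit false

namespace Pool.MP_dd84fd_nt.BX

open Finset

private theorem ci_cs (U : ℕ) {l : ℕ} (hl : 1 ≤ l) :
    cs U l = ∑ d ∈ Icc 1 U, if d ∣ l then muR d else 0 := by
  unfold cs
  rw [← sum_filter]
  refine sum_congr ?_ fun _ _ => rfl
  ext d
  simp only [mem_filter, Nat.mem_divisors, mem_Icc]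
  constructor
  · rintro ⟨⟨h1, -⟩, h2⟩
    exact ⟨⟨Nat.pos_of_dvd_of_pos h1 hl, h2⟩, h1⟩
  · rintro ⟨⟨-, h2⟩, h1⟩
    exact ⟨⟨h1, by omega⟩, h2⟩

theorem cc_div {z : ℝ} (hz : 1 ≤ z) (U : ℕ) {l : ℕ} (hl : 1 ≤ l) :
    cc z U l = ∑ e ∈ ES 32 z, ∑ d ∈ Icc 1 U, if Nat.lcm e d ∣ l then muR e * muR d else 0 := by
  unfold cc SS
  rw [Sv_eq 32 hz l, ci_cs U hl, sum_filter, sum_mul_sum]
  refine sum_congr rfl fun e _ => sum_congr rfl fun d _ => ?_
  by_cases h1 : e ∣ l
  · by_cases h2 : d ∣ l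
    · rw [if_pos h1, if_pos h2, if_pos (Nat.lcm_dvd h1 h2)]
      rfl
    · rw [if_neg h2, mul_zero, if_neg fun h => h2 ((Nat.dvd_lcm_right e d).trans h)]
  · rw [if_neg h1, zero_mul, if_neg fun h => h1 ((Nat.dvd_lcm_left e d).trans h)]

theorem cc_one {z : ℝ} (hz : 1 ≤ z) {U : ℕ} (hU : 1 ≤ U) : cc z U 1 = 1 := by
  unfold cc SS
  rw [Sv_one 32 hz, one_mul]
  unfold cs
  rw [Nat.divisors_one, filter_singleton, if_pos hU, sum_singleton]
  unfold muR
  rw [ArithmeticFunction.moebius_apply_one, Int.cast_one]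

theorem cc_mid (z : ℝ) {U l : ℕ} (h1 : 1 < l) (h2 : l ≤ U) : cc z U l = 0 := by
  unfold cc
  have h3 : cs U l = 0 := by
    unfold cs
    have h4 : l.divisors.filter (fun d => d ≤ U) = l.divisors :=
      filter_true_of_mem fun d hd => (Nat.divisor_le hd).trans h2
    rw [h4]
    unfold muR
    rw [← Int.cast_sum]
    have h5 : ∑ d ∈ l.divisors, ArithmeticFunction.moebius d = 0 := by
      have h6 := congrArg (fun f : ArithmeticFunction ℤ => f l) ArithmeticFunction.moebius_mul_coe_zeta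
      rw [ArithmeticFunction.coe_mul_zeta_apply, ArithmeticFunction.one_apply_ne (by omega)] at h6
      exact h6
    rw [h5, Int.cast_zero]
  rw [h3, mul_zero]

theorem cs_abs (U : ℕ) {l : ℕ} (hl : 1 ≤ l) : |cs U l| ≤ (2 : ℝ) ^ omg l := by
  classical
  unfold cs
  refine (abs_sum_le_sum_abs _ _).trans ?_
  have h1 : ∀ d, |muR d| = if Squarefree d then 1 else 0 := by
    intro d
    unfold muR
    by_cases h : Squarefree d
    · rw [if_pos h]
      have := ArithmeticFunction.abs_moebius_eq_one_of_squarefree h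
      rw [← Int.cast_abs, this, Int.cast_one]
    · rw [if_neg h, ArithmeticFunction.moebius_eq_zero_of_not_squarefree h, Int.cast_zero, abs_zero]
  simp only [h1]
  rw [← sum_filter, sum_const, nsmul_eq_mul, mul_one]
  have h2 : ((l.divisors.filter (fun d => d ≤ U)).filter Squarefree).card ≤
      l.primeFactors.powerset.card := by
    refine card_le_card_of_injOn (fun d => d.primeFactors) ?_ ?_
    · intro d hd
      rw [mem_coe, mem_filter, mem_filter, Nat.mem_divisors] at hd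
      rw [mem_coe, mem_powerset]
      exact Nat.primeFactors_mono hd.1.1.1 hd.1.1.2
    · intro d hd d' hd' h
      rw [mem_coe, mem_filter] at hd hd'
      have e1 := Nat.prod_primeFactors_of_squarefree hd.2
      have e2 := Nat.prod_primeFactors_of_squarefree hd'.2
      simp only at h
      rw [← e1, ← e2, h]
  rw [card_powerset] at h2
  unfold omg
  exact_mod_cast h2

theorem cc_abs {z : ℝ} (hz : 1 ≤ z) (U : ℕ) {l : ℕ} (hl : 1 ≤ l) :
    |cc z U l| ≤ (4 : ℝ) ^ omg l := by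
  unfold cc SS
  rw [abs_mul, abs_of_nonneg (Sv_nonneg 32 z l)]
  have h1 : Sv 32 z l ≤ 2 ^ omg l := Sv_le 32 hz (by omega)
  have h2 : (4 : ℝ) ^ omg l = 2 ^ omg l * 2 ^ omg l := by
    rw [← mul_pow]; norm_num
  rw [h2]
  exact mul_le_mul h1 (cs_abs U hl) (abs_nonneg _) (by positivity)

private theorem ci_inner {n g : ℕ} (hn : 1 ≤ n) (hg : 1 ≤ g) :
    ∑ l ∈ n.divisors, (if g ∣ l then La (n / l) else 0) =
      if g ∣ n then Real.log ((n / g : ℕ) : ℝ) else 0 := by
  by_cases h : g ∣ n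
  · rw [if_pos h, ← sum_filter]
    obtain ⟨m, rfl⟩ := h
    have hg0 : 0 < g := hg
    have hm0 : m ≠ 0 := by
      rintro rfl
      omega
    rw [Nat.mul_div_cancel_left m hg0]
    have h1 : ∑ l ∈ (g * m).divisors.filter (fun l => g ∣ l), La (g * m / l) =
        ∑ k ∈ m.divisors, La (m / k) := by
      refine sum_nbij' (fun l => l / g) (fun k => g * k) ?_ ?_ ?_ ?_ ?_
      · intro l hl
        rw [mem_filter, Nat.mem_divisors] at hl
        obtain ⟨⟨h1, -⟩, k, rfl⟩ := hl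
        rw [Nat.mem_divisors, Nat.mul_div_cancel_left k hg0]
        exact ⟨Nat.dvd_of_mul_dvd_mul_left hg0 h1, hm0⟩
      · intro k hk
        rw [Nat.mem_divisors] at hk
        rw [mem_filter, Nat.mem_divisors]
        exact ⟨⟨Nat.mul_dvd_mul_left g hk.1, by positivity⟩, Dvd.intro k rfl⟩
      · intro l hl
        rw [mem_filter] at hl
        exact Nat.mul_div_cancel' hl.2
      · intro k _
        exact Nat.mul_div_cancel_left k hg0
      · intro l hl
        rw [mem_filter] at hl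
        obtain ⟨-, k, rfl⟩ := hl
        rw [Nat.mul_div_cancel_left k hg0, Nat.mul_div_mul_left m k hg0]
    rw [h1, Nat.sum_div_divisors m La]
    unfold La
    exact ArithmeticFunction.vonMangoldt_sum
  · rw [if_neg h]
    refine sum_eq_zero fun l hl => ?_
    rw [if_neg fun hgl => h (hgl.trans (Nat.dvd_of_mem_divisors hl))]

private theorem ci_all {z : ℝ} (hz : 1 ≤ z) {U n : ℕ} (hn : 1 ≤ n) :
    ∑ l ∈ n.divisors, cc z U l * La (n / l) = TI z U n := by
  unfold TI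
  have h1 : ∀ l ∈ n.divisors, cc z U l * La (n / l) =
      ∑ e ∈ ES 32 z, ∑ d ∈ Icc 1 U, muR e * muR d * (if Nat.lcm e d ∣ l then La (n / l) else 0) := by
    intro l hl
    have hl1 : 1 ≤ l := Nat.pos_of_mem_divisors hl
    rw [cc_div hz U hl1, sum_mul]
    refine sum_congr rfl fun e _ => ?_
    rw [sum_mul]
    refine sum_congr rfl fun d _ => ?_
    by_cases h : Nat.lcm e d ∣ l
    · rw [if_pos h, if_pos h]
    · rw [if_neg h, if_neg h, zero_mul, mul_zero]
  rw [sum_congr rfl h1, sum_comm]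
  refine sum_congr rfl fun e he => ?_
  rw [sum_comm]
  refine sum_congr rfl fun d hd => ?_
  rw [← mul_sum, ci_inner hn (Nat.lcm_pos (ES_pos he) (mem_Icc.1 hd).1)]
  by_cases h : Nat.lcm e d ∣ n
  · rw [if_pos h, if_pos h]
  · rw [if_neg h, if_neg h, mul_zero]

/-- the identity -/
theorem vau {z : ℝ} (hz : 1 ≤ z) {U V n : ℕ} (hU : 1 ≤ U) (hUV : U ≤ V) (hn : 1 ≤ n) :
    La n = TI z U n - TL z U V n -
      ∑ l ∈ n.divisors.filter (fun l => U < l ∧ l ≤ V), cc z U l * La (n / l) := by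
  rw [← ci_all hz hn]
  unfold TL
  have h1 : ∑ l ∈ n.divisors, cc z U l * La (n / l) =
      ∑ l ∈ n.divisors.filter (fun l => V < l), cc z U l * La (n / l) +
        ∑ l ∈ n.divisors.filter (fun l => ¬ V < l), cc z U l * La (n / l) :=
    (sum_filter_add_sum_filter_not _ _ _).symm
  have h2 : ∑ l ∈ n.divisors.filter (fun l => ¬ V < l), cc z U l * La (n / l) =
      ∑ l ∈ (n.divisors.filter (fun l => ¬ V < l)).filter (fun l => U < l), cc z U l * La (n / l) +
        ∑ l ∈ (n.divisors.filter (fun l => ¬ V < l)).filter (fun l => ¬ U < l),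
          cc z U l * La (n / l) := (sum_filter_add_sum_filter_not _ _ _).symm
  have h3 : (n.divisors.filter (fun l => ¬ V < l)).filter (fun l => U < l) =
      n.divisors.filter (fun l => U < l ∧ l ≤ V) := by
    ext l
    simp only [mem_filter, not_lt]
    tauto
  have h4 : ∑ l ∈ (n.divisors.filter (fun l => ¬ V < l)).filter (fun l => ¬ U < l),
      cc z U l * La (n / l) = La n := by
    rw [sum_eq_single 1]
    · rw [cc_one hz hU, one_mul, Nat.div_one]
    · intro l hl hl1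
      rw [mem_filter, mem_filter, Nat.mem_divisors] at hl
      have hl0 : 0 < l := Nat.pos_of_dvd_of_pos hl.1.1.1 hn
      rw [cc_mid z (by omega) (by omega), zero_mul]
    · intro h
      exfalso
      apply h
      rw [mem_filter, mem_filter, Nat.mem_divisors]
      exact ⟨⟨⟨one_dvd n, by omega⟩, by omega⟩, by omega⟩
  rw [h1, h2, h3, h4]
  ring

end Pool.MP_dd84fd_nt.BX
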