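import Pool.Agent.Lib.MP_dd84fd_nt.BX.CId

/-!
# BX/CTI: the type I term and the part `l > V` (Polya-Vinogradov)

For one completely multiplicative `f`, `|f| ≤ 1`, `|∑_{(a,b]} f| ≤ P`.
`sum_mult` (BX/LsB): `∑_{n ∈ (A,B], g ∣ n} F(n) = ∑_{m ∈ (A/g, B/g]} F(g m)`.

`log_pv`: Abel summation, `log k = log b - ∑_{k ≤ j < b} (log (j+1) - log j)`:
`|∑_{(a,b]} log k f(k)| ≤ P log b + P (log b - log (a+1)) ≤ 2 P log b`.
`ti_bd`: `∑ TI(n) f(n) = ∑_{e,d} μ(e) μ(d) f(g) ∑_{k ∈ (A/g, B/g]} log k f(k)`, `#ES ≤ lvl z`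
(`card_ES`), `#{d ≤ U} = U`.
`cc_pv`: `|∑_{(a,b]} c(l) f(l)| ≤ lvl z * U * P` (`cc_div`).
`tl_bd`: `∑_{n ∈ (A,B]} TL(n) f(n) = ∑_{k ≤ B/V} Λ(k) f(k) ∑_{l ∈ (max(A/k, V), B/k]} c(l) f(l)`
(`n = k l`, `l > V` so `k < B/V`), `∑_{k ≤ y} Λ(k) ≤ y log B`.
-/

set_option autoImplicit false

namespace Pool.MP_dd84fd_nt.BX

open Finset

private theorem CTI_P0 {f : ℕ → ℂ} {P : ℝ} (hP : ∀ a b : ℕ, ‖∑ n ∈ Ioc a b, f n‖ ≤ P) : 0 ≤ P :=
  (norm_nonneg _).trans (hP 0 0)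

private theorem CTI_logD (f : ℕ → ℂ) (P : ℝ) (hP : ∀ a b : ℕ, ‖∑ n ∈ Ioc a b, f n‖ ≤ P) (a b : ℕ)
    (hab : a + 1 ≤ b) :
    ‖∑ k ∈ Ioc a b, ((Real.log k : ℝ) : ℂ) * f k - ((Real.log b : ℝ) : ℂ) * ∑ k ∈ Ioc a b, f k‖ ≤
      P * (Real.log b - Real.log ((a + 1 : ℕ) : ℝ)) := by
  induction b, hab using Nat.le_induction with
  | base =>
    have h1 : Ioc a (a + 1) = {a + 1} := by
      ext n
      rw [mem_Ioc, mem_singleton]
      omega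
    rw [h1, sum_singleton, sum_singleton, sub_self, norm_zero, sub_self, mul_zero]
  | succ b hb ih =>
    have h1 : Ioc a (b + 1) = insert (b + 1) (Ioc a b) := by
      ext n
      rw [mem_insert, mem_Ioc, mem_Ioc]
      omega
    have h2 : b + 1 ∉ Ioc a b := by
      rw [mem_Ioc]
      omega
    rw [h1, sum_insert h2, sum_insert h2]
    have hb0 : (0 : ℝ) < (b : ℝ) := by
      have : 0 < b := by omega
      exact_mod_cast this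
    have h3 : 0 ≤ Real.log ((b + 1 : ℕ) : ℝ) - Real.log (b : ℝ) := by
      have := Real.log_le_log hb0 (show (b : ℝ) ≤ ((b + 1 : ℕ) : ℝ) by push_cast; linarith)
      linarith
    have h4 : ((Real.log ((b + 1 : ℕ) : ℝ) : ℝ) : ℂ) * f (b + 1) +
        ∑ k ∈ Ioc a b, ((Real.log k : ℝ) : ℂ) * f k -
        ((Real.log ((b + 1 : ℕ) : ℝ) : ℝ) : ℂ) * (f (b + 1) + ∑ k ∈ Ioc a b, f k) =
        (∑ k ∈ Ioc a b, ((Real.log k : ℝ) : ℂ) * f k - ((Real.log b : ℝ) : ℂ) * ∑ k ∈ Ioc a b, f k) -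
        ((Real.log ((b + 1 : ℕ) : ℝ) - Real.log (b : ℝ) : ℝ) : ℂ) * ∑ k ∈ Ioc a b, f k := by
      push_cast
      ring
    rw [h4]
    refine (norm_sub_le _ _).trans ?_
    have h5 : ‖((Real.log ((b + 1 : ℕ) : ℝ) - Real.log (b : ℝ) : ℝ) : ℂ) * ∑ k ∈ Ioc a b, f k‖ ≤
        (Real.log ((b + 1 : ℕ) : ℝ) - Real.log (b : ℝ)) * P := by
      rw [norm_mul, Complex.norm_real, Real.norm_eq_abs, abs_of_nonneg h3]
      exact mul_le_mul_of_nonneg_left (hP a b) h3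
    have h6 := add_le_add ih h5
    refine h6.trans (le_of_eq ?_)
    ring

theorem log_pv (f : ℕ → ℂ) (P : ℝ) (hP : ∀ a b : ℕ, ‖∑ n ∈ Ioc a b, f n‖ ≤ P) (a b : ℕ) :
    ‖∑ k ∈ Ioc a b, ((Real.log k : ℝ) : ℂ) * f k‖ ≤ 2 * P * Real.log b := by
  have hP0 := CTI_P0 hP
  rcases Nat.lt_or_ge a b with hab | hab
  · have h1 := CTI_logD f P hP a b hab
    have hlb : 0 ≤ Real.log (b : ℝ) := Real.log_natCast_nonneg b
    have hla : 0 ≤ Real.log ((a + 1 : ℕ) : ℝ) := Real.log_natCast_nonneg _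
    have h2 : ‖((Real.log b : ℝ) : ℂ) * ∑ k ∈ Ioc a b, f k‖ ≤ Real.log b * P := by
      rw [norm_mul, Complex.norm_real, Real.norm_eq_abs, abs_of_nonneg hlb]
      exact mul_le_mul_of_nonneg_left (hP a b) hlb
    have h3 : ∑ k ∈ Ioc a b, ((Real.log k : ℝ) : ℂ) * f k =
        (∑ k ∈ Ioc a b, ((Real.log k : ℝ) : ℂ) * f k - ((Real.log b : ℝ) : ℂ) * ∑ k ∈ Ioc a b, f k) +
        ((Real.log b : ℝ) : ℂ) * ∑ k ∈ Ioc a b, f k := by ring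
    rw [h3]
    refine (norm_add_le _ _).trans ?_
    have h4 : P * (Real.log b - Real.log ((a + 1 : ℕ) : ℝ)) ≤ P * Real.log b :=
      mul_le_mul_of_nonneg_left (by linarith) hP0
    linarith
  · rw [Ioc_eq_empty (by omega), sum_empty, norm_zero]
    have : 0 ≤ Real.log (b : ℝ) := Real.log_natCast_nonneg b
    positivity

private theorem CTI_mult (u v e : ℕ) (he : 1 ≤ e) (f : ℕ → ℂ) :
    ∑ n ∈ Ioc u v, (if e ∣ n then f n else 0) = ∑ m ∈ Ioc (u / e) (v / e), f (e * m) := by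
  rw [← sum_filter]
  symm
  refine sum_bij (fun m _ => e * m) ?_ ?_ ?_ ?_
  · intro m hm
    rw [mem_Ioc] at hm
    rw [mem_filter, mem_Ioc]
    refine ⟨⟨?_, ?_⟩, Dvd.intro _ rfl⟩
    · have := (Nat.div_lt_iff_lt_mul (by omega)).1 hm.1
      rw [mul_comm]; exact this
    · have := (Nat.le_div_iff_mul_le (by omega)).1 hm.2
      rw [mul_comm]; exact this
  · intro m _ m' _ h
    exact Nat.eq_of_mul_eq_mul_left (by omega) h
  · intro n hn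
    rw [mem_filter, mem_Ioc] at hn
    obtain ⟨⟨h1, h2⟩, m, rfl⟩ := hn
    refine ⟨m, ?_, rfl⟩
    rw [mem_Ioc]
    refine ⟨(Nat.div_lt_iff_lt_mul (by omega)).2 ?_, (Nat.le_div_iff_mul_le (by omega)).2 ?_⟩
    · rw [mul_comm]; exact h1
    · rw [mul_comm]; exact h2
  · intro m _
    rfl

private theorem CTI_mu (n : ℕ) : ‖((muR n : ℝ) : ℂ)‖ ≤ 1 := by
  rw [Complex.norm_real, Real.norm_eq_abs]
  unfold muR
  exact_mod_cast ArithmeticFunction.abs_moebius_le_one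

private theorem CTI_gen {z : ℝ} (hz : 1 ≤ z) (U : ℕ) (f : ℕ → ℂ) (h : ℕ → ℝ) (Q : ℝ) (X : ℕ)
    (hm : ∀ m n, f (m * n) = f m * f n) (hf : ∀ n, ‖f n‖ ≤ 1)
    (hQ : ∀ a b : ℕ, b ≤ X → ‖∑ n ∈ Ioc a b, ((h n : ℝ) : ℂ) * f n‖ ≤ Q) (A B : ℕ) (hB : B ≤ X) :
    ‖∑ n ∈ Ioc A B, ((∑ e ∈ ES 32 z, ∑ d ∈ Icc 1 U,
      (if Nat.lcm e d ∣ n then muR e * muR d * h (n / Nat.lcm e d) else 0) : ℝ) : ℂ) * f n‖ ≤
      lvl z * U * Q := by
  have hQ0 : 0 ≤ Q := (norm_nonneg _).trans (hQ 0 0 (Nat.zero_le _))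
  have h1 : ∑ n ∈ Ioc A B, ((∑ e ∈ ES 32 z, ∑ d ∈ Icc 1 U,
      (if Nat.lcm e d ∣ n then muR e * muR d * h (n / Nat.lcm e d) else 0) : ℝ) : ℂ) * f n =
      ∑ e ∈ ES 32 z, ∑ d ∈ Icc 1 U, ∑ n ∈ Ioc A B,
        (if Nat.lcm e d ∣ n then
          ((muR e : ℝ) : ℂ) * ((muR d : ℝ) : ℂ) * ((h (n / Nat.lcm e d) : ℝ) : ℂ) * f n else 0) := by
    have h2 : ∀ n ∈ Ioc A B, ((∑ e ∈ ES 32 z, ∑ d ∈ Icc 1 U,
      (if Nat.lcm e d ∣ n then muR e * muR d * h (n / Nat.lcm e d) else 0) : ℝ) : ℂ) * f n =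
      ∑ e ∈ ES 32 z, ∑ d ∈ Icc 1 U,
        (if Nat.lcm e d ∣ n then
          ((muR e : ℝ) : ℂ) * ((muR d : ℝ) : ℂ) * ((h (n / Nat.lcm e d) : ℝ) : ℂ) * f n else 0) := by
      intro n _
      rw [Complex.ofReal_sum, sum_mul]
      refine sum_congr rfl fun e _ => ?_
      rw [Complex.ofReal_sum, sum_mul]
      refine sum_congr rfl fun d _ => ?_
      split_ifs
      · push_cast
        ring
      · simp
    rw [sum_congr rfl h2, sum_comm]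
    refine sum_congr rfl fun e _ => ?_
    rw [sum_comm]
  rw [h1]
  have h3 : ∀ e ∈ ES 32 z, ∀ d ∈ Icc 1 U, ‖∑ n ∈ Ioc A B,
        (if Nat.lcm e d ∣ n then
          ((muR e : ℝ) : ℂ) * ((muR d : ℝ) : ℂ) * ((h (n / Nat.lcm e d) : ℝ) : ℂ) * f n else 0)‖ ≤ Q := by
    intro e he d hd
    rw [mem_Icc] at hd
    have hg : 1 ≤ Nat.lcm e d := Nat.lcm_pos (ES_pos he) (by omega)
    rw [CTI_mult A B _ hg (fun n => ((muR e : ℝ) : ℂ) * ((muR d : ℝ) : ℂ) *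
      ((h (n / Nat.lcm e d) : ℝ) : ℂ) * f n)]
    have h4 : ∑ m ∈ Ioc (A / Nat.lcm e d) (B / Nat.lcm e d), ((muR e : ℝ) : ℂ) * ((muR d : ℝ) : ℂ) *
        ((h (Nat.lcm e d * m / Nat.lcm e d) : ℝ) : ℂ) * f (Nat.lcm e d * m) =
        (((muR e : ℝ) : ℂ) * ((muR d : ℝ) : ℂ) * f (Nat.lcm e d)) *
        ∑ m ∈ Ioc (A / Nat.lcm e d) (B / Nat.lcm e d), ((h m : ℝ) : ℂ) * f m := by
      rw [mul_sum]
      refine sum_congr rfl fun m _ => ?_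
      rw [Nat.mul_div_cancel_left _ (by omega), hm]
      ring
    rw [h4, norm_mul, norm_mul, norm_mul]
    have h5 := CTI_mu e
    have h6 := CTI_mu d
    have h7 := hf (Nat.lcm e d)
    have h8 := hQ (A / Nat.lcm e d) (B / Nat.lcm e d) ((Nat.div_le_self _ _).trans hB)
    have h9 : ‖((muR e : ℝ) : ℂ)‖ * ‖((muR d : ℝ) : ℂ)‖ * ‖f (Nat.lcm e d)‖ ≤ 1 * 1 * 1 :=
      mul_le_mul (mul_le_mul h5 h6 (norm_nonneg _) (by norm_num)) h7 (norm_nonneg _) (by norm_num)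
    calc _ ≤ (1 * 1 * 1) * Q := mul_le_mul h9 h8 (norm_nonneg _) (by norm_num)
      _ = Q := by ring
  have h10 : ‖∑ e ∈ ES 32 z, ∑ d ∈ Icc 1 U, ∑ n ∈ Ioc A B,
        (if Nat.lcm e d ∣ n then
          ((muR e : ℝ) : ℂ) * ((muR d : ℝ) : ℂ) * ((h (n / Nat.lcm e d) : ℝ) : ℂ) * f n else 0)‖ ≤
        ∑ e ∈ ES 32 z, ∑ d ∈ Icc 1 U, Q := by
    refine (norm_sum_le _ _).trans (sum_le_sum fun e he => ?_)
    exact (norm_sum_le _ _).trans (sum_le_sum fun d hd => h3 e he d hd)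
  refine h10.trans ?_
  rw [sum_const, sum_const, Nat.card_Icc, Nat.add_sub_cancel, nsmul_eq_mul, nsmul_eq_mul]
  have h11 : ((ES 32 z).card : ℝ) ≤ lvl z := by
    have := card_ES 32 hz
    unfold lvl
    exact this
  have h12 : ((ES 32 z).card : ℝ) * ((U : ℝ) * Q) ≤ lvl z * ((U : ℝ) * Q) :=
    mul_le_mul_of_nonneg_right h11 (by positivity)
  rw [← mul_assoc (lvl z)] at h12
  exact h12

theorem cc_pv {z : ℝ} (hz : 1 ≤ z) (U : ℕ) (f : ℕ → ℂ) (P : ℝ)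
    (hm : ∀ m n, f (m * n) = f m * f n) (hf : ∀ n, ‖f n‖ ≤ 1)
    (hP : ∀ a b : ℕ, ‖∑ n ∈ Ioc a b, f n‖ ≤ P) (a b : ℕ) :
    ‖∑ l ∈ Ioc a b, ((cc z U l : ℝ) : ℂ) * f l‖ ≤ lvl z * U * P := by
  have h1 := CTI_gen hz U f (fun _ => 1) P b hm hf (fun a b _ => by
    simp only [Complex.ofReal_one, one_mul]
    exact hP a b) a b le_rfl
  have h2 : ∑ l ∈ Ioc a b, ((cc z U l : ℝ) : ℂ) * f l =
      ∑ n ∈ Ioc a b, ((∑ e ∈ ES 32 z, ∑ d ∈ Icc 1 U,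
      (if Nat.lcm e d ∣ n then muR e * muR d * 1 else 0) : ℝ) : ℂ) * f n := by
    refine sum_congr rfl fun n hn => ?_
    rw [mem_Ioc] at hn
    rw [cc_div hz U (by omega)]
    simp only [mul_one]
  rw [h2]
  exact h1

theorem ti_bd {z : ℝ} (hz : 1 ≤ z) (U : ℕ) (f : ℕ → ℂ) (P : ℝ)
    (hm : ∀ m n, f (m * n) = f m * f n) (hf : ∀ n, ‖f n‖ ≤ 1)
    (hP : ∀ a b : ℕ, ‖∑ n ∈ Ioc a b, f n‖ ≤ P) (A B X : ℕ) (hB : B ≤ X) :
    ‖∑ n ∈ Ioc A B, ((TI z U n : ℝ) : ℂ) * f n‖ ≤ 2 * lvl z * U * P * Real.log X := by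
  have hP0 := CTI_P0 hP
  have h1 := CTI_gen hz U f (fun n => Real.log n) (2 * P * Real.log X) X hm hf (fun a b hb => by
    refine (log_pv f P hP a b).trans ?_
    refine mul_le_mul_of_nonneg_left ?_ (by positivity)
    rcases Nat.eq_zero_or_pos b with h0 | h0
    · rw [h0, Nat.cast_zero, Real.log_zero]
      exact Real.log_natCast_nonneg X
    · exact Real.log_le_log (by exact_mod_cast h0) (by exact_mod_cast hb)) A B hB
  refine le_trans (le_of_eq ?_) (h1.trans (le_of_eq (by ring)))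
  rfl

private theorem CTI_swap (z : ℝ) (U V : ℕ) (f : ℕ → ℂ) (hm : ∀ m n, f (m * n) = f m * f n)
    (hV0 : 1 ≤ V) (A B : ℕ) :
    ∑ n ∈ Ioc A B, ((TL z U V n : ℝ) : ℂ) * f n =
      ∑ k ∈ Icc 1 (B / V), (((La k : ℝ) : ℂ) * f k) *
        ∑ l ∈ Ioc (max (A / k) V) (B / k), ((cc z U l : ℝ) : ℂ) * f l := by
  have h1 : ∀ n ∈ Ioc A B, ((TL z U V n : ℝ) : ℂ) * f n =
      ∑ l ∈ n.divisors.filter (fun l => V < l), ((cc z U l : ℝ) : ℂ) * ((La (n / l) : ℝ) : ℂ) * f n := by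
    intro n _
    unfold TL
    rw [Complex.ofReal_sum, sum_mul]
    refine sum_congr rfl fun l _ => ?_
    push_cast
    ring
  rw [sum_congr rfl h1]
  have h2 : ∀ k ∈ Icc 1 (B / V), (((La k : ℝ) : ℂ) * f k) *
        ∑ l ∈ Ioc (max (A / k) V) (B / k), ((cc z U l : ℝ) : ℂ) * f l =
      ∑ l ∈ Ioc (max (A / k) V) (B / k), (((La k : ℝ) : ℂ) * f k) * (((cc z U l : ℝ) : ℂ) * f l) := by
    intro k _
    rw [mul_sum]
  rw [sum_congr rfl h2, sum_sigma', sum_sigma']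
  refine sum_bij' (fun x _ => ⟨x.1 / x.2, x.2⟩) (fun x _ => ⟨x.1 * x.2, x.2⟩) ?_ ?_ ?_ ?_ ?_
  · rintro ⟨n, l⟩ hx
    rw [mem_sigma, mem_Ioc, mem_filter, Nat.mem_divisors] at hx
    obtain ⟨⟨hA, hB⟩, ⟨hl, hn0⟩, hV⟩ := hx
    simp only at hA hB hl hn0 hV
    obtain ⟨k, rfl⟩ := hl
    have hl0 : 0 < l := by omega
    have hk0 : 0 < k := Nat.pos_of_ne_zero fun h => hn0 (by rw [h, mul_zero])
    rw [mem_sigma, mem_Icc, mem_Ioc]
    simp only [Nat.mul_div_cancel_left _ hl0]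
    refine ⟨⟨hk0, ?_⟩, ?_, ?_⟩
    · rw [Nat.le_div_iff_mul_le hV0]
      calc k * V ≤ k * l := Nat.mul_le_mul_left _ hV.le
        _ = l * k := mul_comm _ _
        _ ≤ B := hB
    · rw [max_lt_iff]
      refine ⟨?_, hV⟩
      rw [Nat.div_lt_iff_lt_mul hk0]
      exact hA
    · rw [Nat.le_div_iff_mul_le hk0]
      exact hB
  · rintro ⟨k, l⟩ hx
    rw [mem_sigma, mem_Icc, mem_Ioc, max_lt_iff] at hx
    obtain ⟨⟨hk1, hk2⟩, ⟨h3, h4⟩, h5⟩ := hx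
    simp only at hk1 hk2 h3 h4 h5
    rw [Nat.div_lt_iff_lt_mul (by omega)] at h3
    rw [Nat.le_div_iff_mul_le (by omega)] at h5
    rw [mem_sigma, mem_Ioc, mem_filter, Nat.mem_divisors]
    simp only
    refine ⟨⟨?_, ?_⟩, ⟨Dvd.intro_left _ rfl, ?_⟩, h4⟩
    · rw [mul_comm]; exact h3
    · rw [mul_comm]; exact h5
    · have : 0 < k * l := Nat.mul_pos (by omega) (by omega)
      omega
  · rintro ⟨n, l⟩ hx
    rw [mem_sigma, mem_Ioc, mem_filter, Nat.mem_divisors] at hx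
    obtain ⟨-, ⟨hl, hn0⟩, -⟩ := hx
    simp only at hl
    simp only [Nat.div_mul_cancel hl]
  · rintro ⟨k, l⟩ hx
    rw [mem_sigma, mem_Icc, mem_Ioc, max_lt_iff] at hx
    obtain ⟨-, ⟨-, h4⟩, -⟩ := hx
    simp only at h4
    have hl0 : 0 < l := by omega
    simp only [Nat.mul_div_cancel _ hl0]
  · rintro ⟨n, l⟩ hx
    rw [mem_sigma, mem_Ioc, mem_filter, Nat.mem_divisors] at hx
    obtain ⟨-, ⟨hl, hn0⟩, -⟩ := hx
    simp only at hl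
    simp only
    have h6 : f n = f (n / l) * f l := by rw [← hm, Nat.div_mul_cancel hl]
    rw [h6]
    ring

theorem tl_bd {z : ℝ} (hz : 1 ≤ z) (U V : ℕ) (hV : 1 ≤ V) (f : ℕ → ℂ) (P : ℝ)
    (hm : ∀ m n, f (m * n) = f m * f n) (hf : ∀ n, ‖f n‖ ≤ 1)
    (hP : ∀ a b : ℕ, ‖∑ n ∈ Ioc a b, f n‖ ≤ P) (A B X : ℕ) (hB : B ≤ X) :
    ‖∑ n ∈ Ioc A B, ((TL z U V n : ℝ) : ℂ) * f n‖ ≤ lvl z * U * P * (X / V) * Real.log X := by
  have hP0 := CTI_P0 hP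
  have hlvl : 0 ≤ lvl z := by
    unfold lvl
    exact pow_nonneg (by linarith) _
  have hlX : 0 ≤ Real.log (X : ℝ) := Real.log_natCast_nonneg X
  have hV0 : (0 : ℝ) < V := by exact_mod_cast hV
  rw [CTI_swap z U V f hm hV A B]
  have h1 : ∀ k ∈ Icc 1 (B / V), ‖(((La k : ℝ) : ℂ) * f k) *
        ∑ l ∈ Ioc (max (A / k) V) (B / k), ((cc z U l : ℝ) : ℂ) * f l‖ ≤
        Real.log X * (lvl z * U * P) := by
    intro k hk
    rw [mem_Icc] at hk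
    have hk0 : (0 : ℝ) < k := by exact_mod_cast (show 0 < k by omega)
    have hkX : k ≤ X := hk.2.trans ((Nat.div_le_self _ _).trans hB)
    have h2 : ‖((La k : ℝ) : ℂ)‖ ≤ Real.log X := by
      rw [Complex.norm_real, Real.norm_eq_abs]
      unfold La
      rw [abs_of_nonneg ArithmeticFunction.vonMangoldt_nonneg]
      refine ArithmeticFunction.vonMangoldt_le_log.trans ?_
      exact Real.log_le_log hk0 (by exact_mod_cast hkX)
    rw [norm_mul, norm_mul]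
    have h3 := cc_pv hz U f P hm hf hP (max (A / k) V) (B / k)
    have h4 : ‖((La k : ℝ) : ℂ)‖ * ‖f k‖ ≤ Real.log X * 1 :=
      mul_le_mul h2 (hf k) (norm_nonneg _) hlX
    rw [mul_one] at h4
    exact mul_le_mul h4 h3 (norm_nonneg _) hlX
  refine (norm_sum_le _ _).trans ((sum_le_sum h1).trans ?_)
  rw [sum_const, Nat.card_Icc, Nat.add_sub_cancel, nsmul_eq_mul]
  have h5 : ((B / V : ℕ) : ℝ) ≤ (X : ℝ) / V := by
    refine Nat.cast_div_le.trans ?_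
    exact div_le_div_of_nonneg_right (by exact_mod_cast hB) hV0.le
  have h6 : 0 ≤ Real.log X * (lvl z * U * P) :=
    mul_nonneg hlX (mul_nonneg (mul_nonneg hlvl (Nat.cast_nonneg _)) hP0)
  calc ((B / V : ℕ) : ℝ) * (Real.log X * (lvl z * U * P)) ≤
        (X : ℝ) / V * (Real.log X * (lvl z * U * P)) := mul_le_mul_of_nonneg_right h5 h6
    _ = lvl z * U * P * (X / V) * Real.log X := by ring

end Pool.MP_dd84fd_nt.BX
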