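import Pool.Agent.Lib.MP_dd84fd_nt.BX.CBil
import Pool.Agent.Lib.MP_dd84fd_nt.BX.CTI

/-!
# BX/CLam: the `l^1` bound for `θ = log 1_P`

`tht_cell` (one `f`): `vau` summed over `n ∈ (A,B]` against `f`; the last sum is
`Bil cc La = Bil cc θ + Bil cc (La - θ)` (`n = l k`).  `La - θ ≥ 0` and
`∑_{k ≤ y} (La - θ)(k) = ψ(y) - θ(y) ≤ 2 √y log y` (Mathlib `Chebyshev.psi_sub_theta_le`), so
`|Bil cc (La-θ)| ≤ ∑_{l ≤ V} G 2 √(X/l) log X ≤ 4 G √(X V) log X`, and `|∑ (La-θ) f| ≤ 2 √X log X`.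

`l1_tht`: `nt` of the cell sums `≤ nt (Bil) + √T * error` (`nt_add`, `nt_const`); sum over `Y`:
`bil_bd` and `#Y * ErrC ≤ N * ErrC ≤ h` (`e1`).
-/

set_option autoImplicit false

namespace Pool.MP_dd84fd_nt.BX

open Finset

private theorem cl_nonneg (n : ℕ) : 0 ≤ La n - tht n := by
  unfold La tht
  split_ifs with h
  · rw [ArithmeticFunction.vonMangoldt_apply_prime h, sub_self]
  · rw [sub_zero]
    exact ArithmeticFunction.vonMangoldt_nonneg

private theorem cl_sum (a b : ℕ) :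
    ∑ k ∈ Ioc a b, (La k - tht k) ≤ 2 * Real.sqrt b * Real.log b := by
  rcases Nat.eq_zero_or_pos b with rfl | hb
  · simp
  have h1 : ∑ k ∈ Ioc a b, (La k - tht k) ≤ ∑ k ∈ Ioc 0 b, (La k - tht k) := by
    apply sum_le_sum_of_subset_of_nonneg
    · intro k hk
      rw [mem_Ioc] at hk ⊢
      omega
    · intro k _ _
      exact cl_nonneg k
  refine h1.trans ?_
  have hb1 : (1:ℝ) ≤ b := by exact_mod_cast hb
  have h2 := Chebyshev.psi_sub_theta_le hb1
  have h3 : Chebyshev.psi (b:ℝ) = ∑ k ∈ Ioc 0 b, La k := by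
    unfold Chebyshev.psi
    rw [Nat.floor_natCast]
    rfl
  have h4 : Chebyshev.theta (b:ℝ) = ∑ k ∈ Ioc 0 b, tht k := by
    unfold Chebyshev.theta
    rw [Nat.floor_natCast, sum_filter]
    rfl
  rw [h3, h4, ← sum_sub_distrib] at h2
  exact h2

private theorem cl_norm (f : ℕ → ℂ) (hf : ∀ n, ‖f n‖ ≤ 1) (a b : ℕ) :
    ‖∑ k ∈ Ioc a b, ((La k - tht k : ℝ) : ℂ) * f k‖ ≤ 2 * Real.sqrt b * Real.log b := by
  refine (norm_sum_le _ _).trans (le_trans ?_ (cl_sum a b))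
  apply sum_le_sum
  intro k _
  rw [norm_mul, Complex.norm_real, Real.norm_eq_abs, abs_of_nonneg (cl_nonneg k)]
  calc (La k - tht k) * ‖f k‖ ≤ (La k - tht k) * 1 := by
        apply mul_le_mul_of_nonneg_left (hf k) (cl_nonneg k)
    _ = _ := mul_one _

private theorem cl_div (U V A B : ℕ) (F : ℕ → ℕ → ℂ) :
    ∑ n ∈ Ioc A B, ∑ l ∈ n.divisors.filter (fun l => U < l ∧ l ≤ V), F l n =
      ∑ l ∈ Ioc U V, ∑ k ∈ Ioc (A / l) (B / l), F l (l * k) := by
  classical
  have h1 : ∀ n ∈ Ioc A B, ∑ l ∈ n.divisors.filter (fun l => U < l ∧ l ≤ V), F l n =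
      ∑ l ∈ Ioc U V, if l ∣ n then F l n else 0 := by
    intro n hn
    rw [mem_Ioc] at hn
    rw [← sum_filter]
    apply sum_congr _ fun _ _ => rfl
    ext l
    rw [mem_filter, mem_filter, Nat.mem_divisors, mem_Ioc]
    constructor
    · rintro ⟨⟨h1, h2⟩, h3⟩
      exact ⟨h3, h1⟩
    · rintro ⟨h1, h2⟩
      exact ⟨⟨h2, by omega⟩, h1⟩
  rw [sum_congr rfl h1, sum_comm]
  apply sum_congr rfl
  intro l hl
  rw [mem_Ioc] at hl
  exact sum_mult A B l (by omega) (fun n => F l n)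

private theorem cl_sqrt_sum (V : ℕ) : ∑ l ∈ Ioc 0 V, 1 / Real.sqrt l ≤ 2 * Real.sqrt V := by
  induction V with
  | zero => simp
  | succ V ih =>
    rw [sum_Ioc_succ_top (Nat.zero_le V)]
    have hs0 : 0 < Real.sqrt ((V + 1 : ℕ) : ℝ) := Real.sqrt_pos.2 (by positivity)
    have h1 : 1 / Real.sqrt ((V + 1 : ℕ) : ℝ) ≤
        2 * Real.sqrt ((V + 1 : ℕ) : ℝ) - 2 * Real.sqrt V := by
      rw [div_le_iff₀ hs0]
      have h2 : Real.sqrt ((V + 1 : ℕ) : ℝ) * Real.sqrt ((V + 1 : ℕ) : ℝ) = (V:ℝ) + 1 := by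
        rw [Real.mul_self_sqrt (by positivity)]
        push_cast
        ring
      have h3 : Real.sqrt V * Real.sqrt V = (V:ℝ) := Real.mul_self_sqrt (by positivity)
      nlinarith [sq_nonneg (Real.sqrt ((V + 1 : ℕ) : ℝ) - Real.sqrt V)]
    linarith

theorem tht_cell {z : ℝ} (hz : 1 ≤ z) {U V X : ℕ} (hU : 1 ≤ U) (hUV : U ≤ V) (hVX : V ≤ X)
    (G : ℝ) (hG : ∀ l ∈ Icc 1 X, (4 : ℝ) ^ omg l ≤ G) (f : ℕ → ℂ) (P : ℝ)
    (hm : ∀ m n, f (m * n) = f m * f n) (hf : ∀ n, ‖f n‖ ≤ 1)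
    (hP : ∀ a b : ℕ, ‖∑ n ∈ Ioc a b, f n‖ ≤ P) (A B : ℕ) (hB : B ≤ X) :
    ‖∑ n ∈ Ioc A B, ((tht n : ℝ) : ℂ) * f n +
        Bil (fun l => ((cc z U l : ℝ) : ℂ)) (fun k => ((tht k : ℝ) : ℂ)) U V f A B‖ ≤
      2 * lvl z * U * P * Real.log X + lvl z * U * P * (X / V) * Real.log X +
        4 * Real.sqrt X * Real.log X + 8 * G * Real.sqrt (X * V) * Real.log X := by
  have hX1 : 1 ≤ X := by omega
  have hX1' : (1:ℝ) ≤ X := by exact_mod_cast hX1
  have hlogX : 0 ≤ Real.log X := Real.log_nonneg hX1'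
  have hG1 : 1 ≤ G := by
    have h1 := hG 1 (by rw [mem_Icc]; omega)
    unfold omg at h1
    simpa using h1
  have h1 := ti_bd hz U f P hm hf hP A B X hB
  have h2 := tl_bd hz U V (by omega) f P hm hf hP A B X hB
  -- the sum over all integers
  have hlogB : 2 * Real.sqrt B * Real.log B ≤ 2 * Real.sqrt X * Real.log X := by
    rcases Nat.eq_zero_or_pos B with rfl | hB0
    · simp only [CharP.cast_eq_zero, Real.sqrt_zero, mul_zero, Real.log_zero]
      positivity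
    · have hB1 : (1:ℝ) ≤ B := by exact_mod_cast hB0
      have hBX : (B:ℝ) ≤ X := by exact_mod_cast hB
      have h3 : Real.log B ≤ Real.log X := Real.log_le_log (by linarith) hBX
      have h4 : Real.sqrt B ≤ Real.sqrt X := Real.sqrt_le_sqrt hBX
      have h5 : 0 ≤ Real.log B := Real.log_nonneg hB1
      gcongr
  have h3 := (cl_norm f hf A B).trans hlogB
  -- the bilinear form with `La - tht`
  obtain ⟨W, hW⟩ : ∃ W : ℂ, W = ∑ l ∈ Ioc U V, ((cc z U l : ℝ) : ℂ) * f l *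
      ∑ k ∈ Ioc (A / l) (B / l), ((La k - tht k : ℝ) : ℂ) * f k := ⟨_, rfl⟩
  have h4 : ‖W‖ ≤ 4 * G * Real.sqrt (X * V) * Real.log X := by
    rw [hW]
    refine (norm_sum_le _ _).trans ?_
    have h5 : ∀ l ∈ Ioc U V, ‖((cc z U l : ℝ) : ℂ) * f l *
        ∑ k ∈ Ioc (A / l) (B / l), ((La k - tht k : ℝ) : ℂ) * f k‖ ≤
        2 * G * Real.sqrt X * Real.log X * (1 / Real.sqrt l) := by
      intro l hl
      rw [mem_Ioc] at hl
      have hl1 : 1 ≤ l := by omega
      have hl1' : (1:ℝ) ≤ l := by exact_mod_cast hl1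
      have hls : 0 < Real.sqrt l := Real.sqrt_pos.2 (by linarith)
      rw [norm_mul, norm_mul, Complex.norm_real, Real.norm_eq_abs]
      have h6 : |cc z U l| ≤ G := (cc_abs hz U hl1).trans (hG l (by rw [mem_Icc]; omega))
      have h7 : |cc z U l| * ‖f l‖ ≤ G := by
        calc |cc z U l| * ‖f l‖ ≤ G * 1 := mul_le_mul h6 (hf l) (norm_nonneg _) (by linarith)
          _ = G := mul_one G
      have h8 := cl_norm f hf (A / l) (B / l)
      have h9 : 2 * Real.sqrt ((B / l : ℕ) : ℝ) * Real.log ((B / l : ℕ) : ℝ) ≤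
          2 * (Real.sqrt X * (1 / Real.sqrt l)) * Real.log X := by
        rcases Nat.eq_zero_or_pos (B / l) with h0 | h0
        · rw [h0]
          simp only [CharP.cast_eq_zero, Real.sqrt_zero, mul_zero, Real.log_zero]
          positivity
        · have h10 : (1:ℝ) ≤ ((B / l : ℕ) : ℝ) := by exact_mod_cast h0
          have h11 : ((B / l : ℕ) : ℝ) ≤ X / l := by
            refine Nat.cast_div_le.trans ?_
            have : (B:ℝ) ≤ X := by exact_mod_cast hB
            gcongr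
          have h12 : Real.sqrt ((B / l : ℕ) : ℝ) ≤ Real.sqrt X * (1 / Real.sqrt l) := by
            rw [mul_one_div, ← Real.sqrt_div (by linarith)]
            exact Real.sqrt_le_sqrt h11
          have h13 : Real.log ((B / l : ℕ) : ℝ) ≤ Real.log X := by
            apply Real.log_le_log (by linarith)
            refine h11.trans ?_
            exact div_le_self (by linarith) hl1'
          have h14 : 0 ≤ Real.log ((B / l : ℕ) : ℝ) := Real.log_nonneg h10
          gcongr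
      calc |cc z U l| * ‖f l‖ *
            ‖∑ k ∈ Ioc (A / l) (B / l), ((La k - tht k : ℝ) : ℂ) * f k‖ ≤
            G * (2 * (Real.sqrt X * (1 / Real.sqrt l)) * Real.log X) :=
            mul_le_mul h7 (h8.trans h9) (norm_nonneg _) (by linarith)
        _ = _ := by ring
    refine (sum_le_sum h5).trans ?_
    rw [← mul_sum]
    have h6 : ∑ l ∈ Ioc U V, 1 / Real.sqrt l ≤ 2 * Real.sqrt V := by
      refine le_trans ?_ (cl_sqrt_sum V)
      apply sum_le_sum_of_subset_of_nonneg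
      · intro l hl
        rw [mem_Ioc] at hl ⊢
        omega
      · intro l _ _
        positivity
    calc 2 * G * Real.sqrt X * Real.log X * ∑ l ∈ Ioc U V, 1 / Real.sqrt l ≤
          2 * G * Real.sqrt X * Real.log X * (2 * Real.sqrt V) := by
          apply mul_le_mul_of_nonneg_left h6
          positivity
      _ = 4 * G * (Real.sqrt X * Real.sqrt V) * Real.log X := by ring
      _ = _ := by rw [← Real.sqrt_mul (by linarith)]
  -- the identity
  have hid : ∑ n ∈ Ioc A B, ((tht n : ℝ) : ℂ) * f n +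
      Bil (fun l => ((cc z U l : ℝ) : ℂ)) (fun k => ((tht k : ℝ) : ℂ)) U V f A B =
      ∑ n ∈ Ioc A B, ((TI z U n : ℝ) : ℂ) * f n - ∑ n ∈ Ioc A B, ((TL z U V n : ℝ) : ℂ) * f n -
        W - ∑ n ∈ Ioc A B, ((La n - tht n : ℝ) : ℂ) * f n := by
    have e1 : ∑ n ∈ Ioc A B, ((La n : ℝ) : ℂ) * f n =
        ∑ n ∈ Ioc A B, ((TI z U n : ℝ) : ℂ) * f n - ∑ n ∈ Ioc A B, ((TL z U V n : ℝ) : ℂ) * f n -
        ∑ n ∈ Ioc A B, ∑ l ∈ n.divisors.filter (fun l => U < l ∧ l ≤ V),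
          ((cc z U l : ℝ) : ℂ) * ((La (n / l) : ℝ) : ℂ) * f n := by
      rw [← sum_sub_distrib, ← sum_sub_distrib]
      apply sum_congr rfl
      intro n hn
      rw [mem_Ioc] at hn
      have hv := vau hz (V := V) hU hUV (show 1 ≤ n by omega)
      rw [hv]
      push_cast
      rw [sub_mul, sub_mul, sum_mul]
    have e2 : ∑ n ∈ Ioc A B, ∑ l ∈ n.divisors.filter (fun l => U < l ∧ l ≤ V),
        ((cc z U l : ℝ) : ℂ) * ((La (n / l) : ℝ) : ℂ) * f n =
        Bil (fun l => ((cc z U l : ℝ) : ℂ)) (fun k => ((La k : ℝ) : ℂ)) U V f A B := by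
      rw [cl_div U V A B (fun l n => ((cc z U l : ℝ) : ℂ) * ((La (n / l) : ℝ) : ℂ) * f n)]
      unfold Bil
      apply sum_congr rfl
      intro l hl
      rw [mem_Ioc] at hl
      rw [mul_sum]
      apply sum_congr rfl
      intro k _
      rw [Nat.mul_div_cancel_left k (by omega), hm]
      ring
    have e3 : Bil (fun l => ((cc z U l : ℝ) : ℂ)) (fun k => ((La k : ℝ) : ℂ)) U V f A B =
        Bil (fun l => ((cc z U l : ℝ) : ℂ)) (fun k => ((tht k : ℝ) : ℂ)) U V f A B + W := by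
      rw [hW]
      unfold Bil
      rw [← sum_add_distrib]
      apply sum_congr rfl
      intro l _
      rw [← mul_add, ← sum_add_distrib]
      congr 1
      apply sum_congr rfl
      intro k _
      push_cast
      ring
    have e4 : ∑ n ∈ Ioc A B, ((La n - tht n : ℝ) : ℂ) * f n =
        ∑ n ∈ Ioc A B, ((La n : ℝ) : ℂ) * f n - ∑ n ∈ Ioc A B, ((tht n : ℝ) : ℂ) * f n := by
      rw [← sum_sub_distrib]
      apply sum_congr rfl
      intro n _
      push_cast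
      ring
    rw [e4, e1, e2, e3]
    ring
  rw [hid]
  have hn : ‖∑ n ∈ Ioc A B, ((TI z U n : ℝ) : ℂ) * f n -
      ∑ n ∈ Ioc A B, ((TL z U V n : ℝ) : ℂ) * f n -
        W - ∑ n ∈ Ioc A B, ((La n - tht n : ℝ) : ℂ) * f n‖ ≤
      ‖∑ n ∈ Ioc A B, ((TI z U n : ℝ) : ℂ) * f n‖ + ‖∑ n ∈ Ioc A B, ((TL z U V n : ℝ) : ℂ) * f n‖ +
        ‖W‖ + ‖∑ n ∈ Ioc A B, ((La n - tht n : ℝ) : ℂ) * f n‖ := by
    refine (norm_sub_le _ _).trans ?_
    gcongr
    refine (norm_sub_le _ _).trans ?_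
    gcongr
    exact norm_sub_le _ _
  have hGs : 0 ≤ G * Real.sqrt (X * V) * Real.log X := by positivity
  have hXs : 0 ≤ Real.sqrt X * Real.log X := by positivity
  linarith

theorem l1_tht {ι : Type} {Y : Finset ι} {f : ι → ℕ → ℂ} {X h U V T : ℕ}
    {z u δ P1 P2 C G N : ℝ} (hp : Prm X h U V z u δ P1 P2 C G N) (hF : ChF Y f P1 P2)
    (hS : StarH z X C) (hY : (Y.card : ℝ) ≤ N) (α β : ℕ → ℕ) (hc : Cells X h T α β) :
    ∑ i ∈ Y, nt T (fun t => ∑ n ∈ Ioc (α t) (β t), ((tht n : ℝ) : ℂ) * f i n) ≤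
      (27 * C ^ 2 * u ^ 2 + 1) * (Real.sqrt T * h) := by
  have hbil := bil_bd hp hF hS hY α β hc
  have hX1 : 1 ≤ X := by
    have h1 := hp.U1
    have h2 := hp.UV
    have h3 := hp.VX
    omega
  have hX1' : (1:ℝ) ≤ X := by exact_mod_cast hX1
  have hlX := hp.lX
  have hz1 : 1 ≤ z := by linarith [hp.z2]
  have hP1 : 0 ≤ P1 := by linarith [hp.P21, hp.P12]
  have hlvl : 0 ≤ lvl z := by
    unfold lvl
    positivity
  have hG1 : 1 ≤ G := by
    have h1 := hp.g1 1 (by rw [mem_Icc]; omega)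
    unfold omg at h1
    simpa using h1
  obtain ⟨M, hM⟩ : ∃ M : ℝ, M = 2 * lvl z * U * P1 * Real.log X +
      lvl z * U * P1 * (X / V) * Real.log X + 4 * Real.sqrt X * Real.log X +
      8 * G * Real.sqrt (X * V) * Real.log X := ⟨_, rfl⟩
  have hlogX : 0 ≤ Real.log X := by linarith
  have hM0 : 0 ≤ M := by
    rw [hM]
    clear hbil hM hp
    generalize lvl z = Lv at hlvl ⊢
    generalize Real.log X = lX at hlogX ⊢
    positivity
  have hδ := hp.d0
  have hD0 : 0 ≤ G * Real.log X * (δ * X * Real.log X + V) := by positivity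
  have hi : ∀ i ∈ Y, nt T (fun t => ∑ n ∈ Ioc (α t) (β t), ((tht n : ℝ) : ℂ) * f i n) ≤
      Real.sqrt T * M + nt T (fun t => Bil (fun l => ((cc z U l : ℝ) : ℂ))
        (fun k => ((tht k : ℝ) : ℂ)) U V (f i) (α t) (β t)) := by
    intro i hi
    have h1 : ∀ t ∈ Icc 1 T, (fun t => ∑ n ∈ Ioc (α t) (β t), ((tht n : ℝ) : ℂ) * f i n) t =
        (fun t => (∑ n ∈ Ioc (α t) (β t), ((tht n : ℝ) : ℂ) * f i n +
          Bil (fun l => ((cc z U l : ℝ) : ℂ))
            (fun k => ((tht k : ℝ) : ℂ)) U V (f i) (α t) (β t)) +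
          (-1) * Bil (fun l => ((cc z U l : ℝ) : ℂ))
            (fun k => ((tht k : ℝ) : ℂ)) U V (f i) (α t) (β t)) t := by
      intro t _
      simp only
      ring
    rw [nt_congr T _ _ h1]
    refine (nt_add T _ _).trans ?_
    rw [nt_mul, norm_neg, norm_one, one_mul]
    gcongr
    apply nt_const T M hM0
    intro t ht
    rw [hM]
    exact tht_cell hz1 hp.U1 hp.UV hp.VX G hp.g1 (f i) P1 (hF.mul i hi) (hF.bd i hi)
      (hF.pv1 i hi) _ _ (hc t ht).2.2.2
  refine (sum_le_sum hi).trans ?_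
  rw [sum_add_distrib, sum_const, nsmul_eq_mul]
  have hErr : M + 2 * (G * Real.log X * (δ * X * Real.log X + V)) ≤ ErrC X U V z δ P1 G := by
    unfold ErrC
    rw [hM]
    linarith
  have hsT : 0 ≤ Real.sqrt T := Real.sqrt_nonneg _
  have hE0 : 0 ≤ ErrC X U V z δ P1 G := by linarith
  have h5 : (Y.card : ℝ) * (Real.sqrt T * (M + 2 * (G * Real.log X * (δ * X * Real.log X + V)))) ≤
      Real.sqrt T * h := by
    calc (Y.card : ℝ) * (Real.sqrt T * (M + 2 * (G * Real.log X * (δ * X * Real.log X + V)))) =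
          Real.sqrt T * ((Y.card : ℝ) *
            (M + 2 * (G * Real.log X * (δ * X * Real.log X + V)))) := by ring
      _ ≤ Real.sqrt T * (N * ErrC X U V z δ P1 G) := by
          apply mul_le_mul_of_nonneg_left _ hsT
          exact mul_le_mul hY hErr (by linarith) (by linarith [hp.N0])
      _ ≤ Real.sqrt T * h := mul_le_mul_of_nonneg_left hp.e1 hsT
  have h6 : (Y.card : ℝ) * (Real.sqrt T * M) + (27 * C ^ 2 * u ^ 2 * (Real.sqrt T * h) +
      Y.card * (Real.sqrt T * (2 * G * Real.log X * (δ * X * Real.log X + V)))) =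
      27 * C ^ 2 * u ^ 2 * (Real.sqrt T * h) + (Y.card : ℝ) *
        (Real.sqrt T * (M + 2 * (G * Real.log X * (δ * X * Real.log X + V)))) := by ring
  linarith

end Pool.MP_dd84fd_nt.BX
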