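import Pool.Agent.Lib.MP_dd84fd_nt.BX.CDefs

/-!
# BX/CNt: the norm `nt` (l² over the cells)

`nt T g` is the norm of the vector `(g t)_{1 ≤ t ≤ T}` of `EuclideanSpace ℂ (Icc 1 T)`
(or use `Real.Lp_add_le`-type Minkowski, `Finset.sum_mul_sq_le_sq_mul_sq`).
-/

set_option autoImplicit false

namespace Pool.MP_dd84fd_nt.BX

open Finset

theorem nt_nonneg (T : ℕ) (g : ℕ → ℂ) : 0 ≤ nt T g := Real.sqrt_nonneg _

theorem nt_sq (T : ℕ) (g : ℕ → ℂ) : nt T g ^ 2 = ∑ t ∈ Icc 1 T, ‖g t‖ ^ 2 := by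
  unfold nt
  exact Real.sq_sqrt (sum_nonneg fun _ _ => by positivity)

theorem nt_mono (T : ℕ) (g g' : ℕ → ℂ) (h : ∀ t ∈ Icc 1 T, ‖g t‖ ≤ ‖g' t‖) : nt T g ≤ nt T g' := by
  unfold nt
  refine Real.sqrt_le_sqrt (sum_le_sum fun t ht => ?_)
  exact pow_le_pow_left₀ (norm_nonneg _) (h t ht) 2

theorem nt_congr (T : ℕ) (g g' : ℕ → ℂ) (h : ∀ t ∈ Icc 1 T, g t = g' t) : nt T g = nt T g' := by
  unfold nt
  congr 1
  exact sum_congr rfl fun t ht => by rw [h t ht]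

private theorem nt_cauchy (T : ℕ) (a b : ℕ → ℝ) (A B : ℝ) (hA : 0 ≤ A) (hB : 0 ≤ B)
    (h1 : ∑ t ∈ Icc 1 T, a t ^ 2 ≤ A ^ 2) (h2 : ∑ t ∈ Icc 1 T, b t ^ 2 ≤ B ^ 2) :
    ∑ t ∈ Icc 1 T, a t * b t ≤ A * B := by
  have h3 := sum_mul_sq_le_sq_mul_sq (Icc 1 T) a b
  have h4 : (∑ t ∈ Icc 1 T, a t * b t) ^ 2 ≤ (A * B) ^ 2 := by
    calc (∑ t ∈ Icc 1 T, a t * b t) ^ 2 ≤ (∑ t ∈ Icc 1 T, a t ^ 2) * ∑ t ∈ Icc 1 T, b t ^ 2 := h3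
      _ ≤ A ^ 2 * B ^ 2 := mul_le_mul h1 h2 (sum_nonneg fun _ _ => by positivity) (by positivity)
      _ = (A * B) ^ 2 := by ring
  exact (abs_le_of_sq_le_sq' h4 (by positivity)).2

/-- Minkowski -/
theorem nt_add (T : ℕ) (g g' : ℕ → ℂ) : nt T (fun t => g t + g' t) ≤ nt T g + nt T g' := by
  have h1 := nt_nonneg T g
  have h2 := nt_nonneg T g'
  have h3 : nt T (fun t => g t + g' t) ^ 2 ≤ (nt T g + nt T g') ^ 2 := by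
    rw [nt_sq]
    calc ∑ t ∈ Icc 1 T, ‖g t + g' t‖ ^ 2 ≤ ∑ t ∈ Icc 1 T, (‖g t‖ + ‖g' t‖) ^ 2 :=
          sum_le_sum fun t _ => pow_le_pow_left₀ (norm_nonneg _) (norm_add_le _ _) 2
      _ = ∑ t ∈ Icc 1 T, ‖g t‖ ^ 2 + 2 * ∑ t ∈ Icc 1 T, ‖g t‖ * ‖g' t‖ + ∑ t ∈ Icc 1 T, ‖g' t‖ ^ 2 := by
          rw [mul_sum, ← sum_add_distrib, ← sum_add_distrib]
          exact sum_congr rfl fun t _ => by ring
      _ ≤ nt T g ^ 2 + 2 * (nt T g * nt T g') + nt T g' ^ 2 := by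
          rw [nt_sq, nt_sq]
          have h4 := nt_cauchy T (fun t => ‖g t‖) (fun t => ‖g' t‖) (nt T g) (nt T g') h1 h2
            (by rw [nt_sq]) (by rw [nt_sq])
          linarith
      _ = (nt T g + nt T g') ^ 2 := by ring
  exact (abs_le_of_sq_le_sq' h3 (by positivity)).2

theorem nt_mul (T : ℕ) (c : ℂ) (g : ℕ → ℂ) : nt T (fun t => c * g t) = ‖c‖ * nt T g := by
  unfold nt
  have h1 : ∑ t ∈ Icc 1 T, ‖c * g t‖ ^ 2 = ‖c‖ ^ 2 * ∑ t ∈ Icc 1 T, ‖g t‖ ^ 2 := by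
    rw [mul_sum]
    exact sum_congr rfl fun t _ => by rw [norm_mul, mul_pow]
  rw [h1, Real.sqrt_mul (by positivity), Real.sqrt_sq (norm_nonneg _)]

theorem nt_sum {κ : Type} (T : ℕ) (s : Finset κ) (g : κ → ℕ → ℂ) :
    nt T (fun t => ∑ r ∈ s, g r t) ≤ ∑ r ∈ s, nt T (g r) := by
  classical
  induction s using Finset.induction_on with
  | empty =>
    have h1 : nt T (fun _ => 0) = 0 := by
      unfold nt
      simp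
    simp only [sum_empty]
    rw [h1]
  | insert r s hr ih =>
    rw [sum_insert hr]
    have h1 : nt T (fun t => ∑ r ∈ insert r s, g r t) = nt T (fun t => g r t + ∑ r ∈ s, g r t) :=
      nt_congr T _ _ fun t _ => sum_insert hr
    rw [h1]
    exact (nt_add T (g r) (fun t => ∑ r ∈ s, g r t)).trans (by linarith)

/-- pointwise scaling by factors of size at most `κ` -/
theorem nt_scale (T : ℕ) (κ : ℝ) (hκ : 0 ≤ κ) (g g' : ℕ → ℂ)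
    (h : ∀ t ∈ Icc 1 T, ‖g t‖ ≤ κ * ‖g' t‖) : nt T g ≤ κ * nt T g' := by
  have h1 := nt_mul T (κ : ℂ) g'
  rw [Complex.norm_real, Real.norm_eq_abs, abs_of_nonneg hκ] at h1
  rw [← h1]
  refine nt_mono T _ _ fun t ht => ?_
  rw [norm_mul, Complex.norm_real, Real.norm_eq_abs, abs_of_nonneg hκ]
  exact h t ht

theorem nt_const (T : ℕ) (M : ℝ) (hM : 0 ≤ M) (g : ℕ → ℂ) (h : ∀ t ∈ Icc 1 T, ‖g t‖ ≤ M) :
    nt T g ≤ Real.sqrt T * M := by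
  unfold nt
  have h1 : ∑ t ∈ Icc 1 T, ‖g t‖ ^ 2 ≤ (T : ℝ) * M ^ 2 := by
    calc ∑ t ∈ Icc 1 T, ‖g t‖ ^ 2 ≤ ∑ _t ∈ Icc 1 T, M ^ 2 :=
          sum_le_sum fun t ht => pow_le_pow_left₀ (norm_nonneg _) (h t ht) 2
      _ = (T : ℝ) * M ^ 2 := by
          rw [sum_const, Nat.card_Icc, nsmul_eq_mul]
          simp
  calc Real.sqrt (∑ t ∈ Icc 1 T, ‖g t‖ ^ 2) ≤ Real.sqrt ((T : ℝ) * M ^ 2) := Real.sqrt_le_sqrt h1
    _ = Real.sqrt T * M := by rw [Real.sqrt_mul (Nat.cast_nonneg _), Real.sqrt_sq hM]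

/-- Cauchy over the family -/
theorem sum_mul_nt {ι : Type} (Y : Finset ι) (T : ℕ) (a : ι → ℂ) (g : ι → ℕ → ℂ) (A G : ℝ)
    (hA : 0 ≤ A) (hG : 0 ≤ G) (h1 : ∑ i ∈ Y, ‖a i‖ ^ 2 ≤ A ^ 2)
    (h2 : ∀ t ∈ Icc 1 T, ∑ i ∈ Y, ‖g i t‖ ^ 2 ≤ G ^ 2) :
    ∑ i ∈ Y, ‖a i‖ * nt T (g i) ≤ A * (Real.sqrt T * G) := by
  have h3 := sum_mul_sq_le_sq_mul_sq Y (fun i => ‖a i‖) (fun i => nt T (g i))
  have h4 : ∑ i ∈ Y, nt T (g i) ^ 2 ≤ (Real.sqrt T * G) ^ 2 := by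
    calc ∑ i ∈ Y, nt T (g i) ^ 2 = ∑ i ∈ Y, ∑ t ∈ Icc 1 T, ‖g i t‖ ^ 2 :=
          sum_congr rfl fun i _ => nt_sq T (g i)
      _ = ∑ t ∈ Icc 1 T, ∑ i ∈ Y, ‖g i t‖ ^ 2 := sum_comm
      _ ≤ ∑ _t ∈ Icc 1 T, G ^ 2 := sum_le_sum h2
      _ = (Real.sqrt T * G) ^ 2 := by
          rw [sum_const, Nat.card_Icc, nsmul_eq_mul, mul_pow, Real.sq_sqrt (Nat.cast_nonneg _)]
          simp
  have h5 : (∑ i ∈ Y, ‖a i‖ * nt T (g i)) ^ 2 ≤ (A * (Real.sqrt T * G)) ^ 2 := by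
    calc (∑ i ∈ Y, ‖a i‖ * nt T (g i)) ^ 2 ≤ (∑ i ∈ Y, ‖a i‖ ^ 2) * ∑ i ∈ Y, nt T (g i) ^ 2 := h3
      _ ≤ A ^ 2 * (Real.sqrt T * G) ^ 2 :=
        mul_le_mul h1 h4 (sum_nonneg fun _ _ => by positivity) (by positivity)
      _ = (A * (Real.sqrt T * G)) ^ 2 := by ring
  exact (abs_le_of_sq_le_sq' h5 (by positivity)).2

end Pool.MP_dd84fd_nt.BX
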