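import Mathlib
import Pool.Agent.Lib.BV.Defs
import Pool.Agent.Lib.MP_67663b_nt.OddB.ExpDefs

/-!
# Project BD (MP_dd84fd_nt): definitions (helper39)

`PC` is the type of Dirichlet characters of all moduli, `pv ψ n` the value at `n`, `IsPC` says that
the character is primitive (and the modulus positive), `PFam Y N`: finite family of primitive
characters whose moduli have pairwise least common multiples at most `N`, `PR R`: all primitive
characters of modulus `≤ R`.
-/

set_option autoImplicit false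

namespace Pool.MP_dd84fd_nt.BX

open Finset Pool.MP_67663b_nt.Odd

/-- characters of all moduli -/
abbrev PC : Type := (r : ℕ) × DirichletCharacter ℂ r

/-- the value of a character at a natural number -/
noncomputable def pv (ψ : PC) (n : ℕ) : ℂ := ψ.2 (n : ZMod ψ.1)

/-- primitive character -/
def IsPC (ψ : PC) : Prop := 1 ≤ ψ.1 ∧ ψ.2.IsPrimitive

/-- a finite family of primitive characters whose moduli have pairwise least common multiples
at most `N` -/
def PFam (Y : Finset PC) (N : ℝ) : Prop :=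
  (∀ ψ ∈ Y, IsPC ψ) ∧ ∀ ψ ∈ Y, ∀ ψ' ∈ Y, (Nat.lcm ψ.1 ψ'.1 : ℝ) ≤ N

/-- the primitive characters of modulus at most `R` -/
noncomputable def PR (R : ℕ) : Finset PC := (Icc 1 R).sigma (fun r => Pool.BV.prim r)

theorem PFam.mono {Y Y' : Finset PC} {N : ℝ} (h : PFam Y N) (hY : Y' ⊆ Y) : PFam Y' N :=
  ⟨fun ψ hψ => h.1 ψ (hY hψ), fun ψ hψ ψ' hψ' => h.2 ψ (hY hψ) ψ' (hY hψ')⟩

theorem pv_mul (ψ : PC) (a b : ℕ) : pv ψ (a * b) = pv ψ a * pv ψ b := by
  unfold pv
  rw [Nat.cast_mul, map_mul]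

theorem pv_norm_le (ψ : PC) (n : ℕ) : ‖pv ψ n‖ ≤ 1 := DirichletCharacter.norm_le_one ψ.2 _

theorem mem_PR {R : ℕ} {ψ : PC} : ψ ∈ PR R ↔ ψ.1 ≤ R ∧ IsPC ψ := by
  unfold PR IsPC
  rw [mem_sigma, mem_Icc, Pool.BV.mem_prim]
  tauto

end Pool.MP_dd84fd_nt.BX
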