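import Pool.Agent.Lib.BV.LSieve
import Pool.Agent.Lib.MP_dd84fd_nt.BX.Defs

/-!
# BX-Gal: an exponential sum near `0` and its sums over short intervals (Gallagher) (helper39)

`∫_{|x| ≤ 1/(2H)} |∑_{n ≤ X} a_n e(nx)|² dx ≤ (π²/4) H⁻² ∑_u |∑_{u-H < n ≤ u} a_n|²`.
-/

set_option autoImplicit false

namespace Pool.MP_dd84fd_nt.BX

open Finset Pool.MP_67663b_nt.Odd

private theorem ga_ee (x : ℝ) : Pool.BV.ee x = ee x := rfl

private theorem ga_cont (A : Finset ℕ) (c : ℕ → ℂ) :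
    Continuous fun x : ℝ => ∑ n ∈ A, c n * ee ((n : ℝ) * x) := by
  refine continuous_finsetSum _ (fun n _ => ?_)
  refine continuous_const.mul ?_
  unfold ee
  fun_prop

/-- Parseval on a period -/
theorem ga_parseval (A : Finset ℕ) (c : ℕ → ℂ) :
    ∫ x in (-(1 / 2 : ℝ))..(1 / 2), ‖∑ n ∈ A, c n * ee ((n : ℝ) * x)‖ ^ 2 =
      ∑ n ∈ A, ‖c n‖ ^ 2 := by
  have hper : Function.Periodic (fun x : ℝ => ‖∑ n ∈ A, c n * ee ((n : ℝ) * x)‖ ^ 2) 1 := by
    intro x
    have h1 : ∀ n ∈ A, c n * ee ((n : ℝ) * (x + 1)) = c n * ee ((n : ℝ) * x) := by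
      intro n _
      rw [← ga_ee, ← ga_ee, mul_add, mul_one]
      have := Pool.BV.ee_add_int ((n : ℝ) * x) (n : ℤ)
      rw [Int.cast_natCast] at this
      rw [this]
    simp only
    rw [sum_congr rfl h1]
  have h2 := hper.intervalIntegral_add_eq (-(1 / 2 : ℝ)) 0
  rw [show -(1 / 2 : ℝ) + 1 = 1 / 2 by norm_num, zero_add] at h2
  rw [h2]
  have h3 : ∀ x : ℝ, ‖∑ n ∈ A, c n * ee ((n : ℝ) * x)‖ ^ 2 =
      Pool.BV.Gs A (fun n => (c n).re) (fun n => (c n).im) x := by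
    intro x
    exact Pool.BV.norm_sq_eq_Gs A c x
  simp_rw [h3]
  rw [Pool.BV.int_Gs]
  refine sum_congr rfl fun n _ => ?_
  rw [← Complex.normSq_eq_norm_sq, Complex.normSq_apply]
  ring

/-- the kernel `∑_{h < H} e(hx)` near `0` -/
theorem ga_ker (H : ℕ) (hH : 1 ≤ H) (x : ℝ) (hx : |x| ≤ 1 / (2 * H)) :
    2 * H / Real.pi ≤ ‖∑ h ∈ range H, ee ((h : ℝ) * x)‖ := by
  have hpi := Real.pi_pos
  have hH0 : (0 : ℝ) < H := by exact_mod_cast hH
  have hsin : ∀ θ : ℝ, ‖ee θ - 1‖ = 2 * |Real.sin (Real.pi * θ)| := by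
    intro θ
    have h1 : ‖ee θ - 1‖ ^ 2 = (2 * |Real.sin (Real.pi * θ)|) ^ 2 := by
      unfold ee
      have e1 : (2 * Real.pi * θ * Complex.I : ℂ) = ((2 * (Real.pi * θ) : ℝ) : ℂ) * Complex.I := by
        push_cast
        ring
      rw [e1, ← Complex.normSq_eq_norm_sq, Complex.normSq_apply, Complex.sub_re, Complex.sub_im,
        Complex.exp_ofReal_mul_I_re, Complex.exp_ofReal_mul_I_im, Complex.one_re, Complex.one_im,
        mul_pow, sq_abs, Real.cos_two_mul, Real.sin_two_mul]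
      have := Real.sin_sq_add_cos_sq (Real.pi * θ)
      nlinarith
    have h2 : 0 ≤ 2 * |Real.sin (Real.pi * θ)| := by positivity
    exact (pow_left_inj₀ (norm_nonneg _) h2 two_ne_zero).1 h1
  rcases eq_or_ne x 0 with rfl | hx0
  · have h1 : ∀ h ∈ range H, ee ((h : ℝ) * 0) = 1 := by
      intro h _
      rw [mul_zero, ← ga_ee]
      exact Pool.BV.ee_zero
    rw [sum_congr rfl h1, sum_const, card_range, nsmul_eq_mul, mul_one, Complex.norm_natCast,
      div_le_iff₀ hpi]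
    nlinarith [Real.pi_gt_three]
  · have hxa : 0 < |x| := abs_pos.2 hx0
    have hHx : (H : ℝ) * |x| ≤ 1 / 2 := by
      have := mul_le_mul_of_nonneg_left hx hH0.le
      calc (H : ℝ) * |x| ≤ H * (1 / (2 * H)) := this
        _ = 1 / 2 := by field_simp
    -- the geometric sum
    have hgeo : (∑ h ∈ range H, ee ((h : ℝ) * x)) * (ee x - 1) = ee ((H : ℝ) * x) - 1 := by
      have h1 : ∀ h ∈ range H, ee ((h : ℝ) * x) = ee x ^ h := by
        intro h _
        unfold ee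
        rw [← Complex.exp_nat_mul]
        congr 1
        push_cast
        ring
      rw [sum_congr rfl h1, geom_sum_mul]
      congr 1
      unfold ee
      rw [← Complex.exp_nat_mul]
      congr 1
      push_cast
      ring
    have hn := congrArg norm hgeo
    rw [norm_mul, hsin x, hsin ((H : ℝ) * x)] at hn
    -- lower bound of the right-hand side
    have h2 : 2 * ((H : ℝ) * |x|) ≤ |Real.sin (Real.pi * ((H : ℝ) * x))| := by
      have e0 : 0 ≤ Real.sin (Real.pi * ((H : ℝ) * |x|)) :=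
        Real.sin_nonneg_of_nonneg_of_le_pi (by positivity) (by nlinarith)
      have e1 : |Real.sin (Real.pi * ((H : ℝ) * x))| = Real.sin (Real.pi * ((H : ℝ) * |x|)) := by
        rcases abs_cases x with ⟨h, _⟩ | ⟨h, _⟩
        · rw [h] at e0 ⊢
          exact abs_of_nonneg e0
        · have e3 : Real.pi * ((H : ℝ) * x) = -(Real.pi * ((H : ℝ) * |x|)) := by
            rw [h]; ring
          rw [e3, Real.sin_neg, abs_neg]
          exact abs_of_nonneg e0
      rw [e1]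
      have h3 := Real.mul_le_sin (x := Real.pi * ((H : ℝ) * |x|)) (by positivity) (by nlinarith)
      calc 2 * ((H : ℝ) * |x|) = 2 / Real.pi * (Real.pi * ((H : ℝ) * |x|)) := by
            field_simp
        _ ≤ _ := h3
    have h4 : |Real.sin (Real.pi * x)| ≤ Real.pi * |x| := by
      have h5 := Real.abs_sin_le_abs (x := Real.pi * x)
      rwa [abs_mul, abs_of_pos hpi] at h5
    have h6 : 2 * (2 * ((H : ℝ) * |x|)) ≤
        ‖∑ h ∈ range H, ee ((h : ℝ) * x)‖ * (2 * (Real.pi * |x|)) := by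
      calc 2 * (2 * ((H : ℝ) * |x|)) ≤ 2 * |Real.sin (Real.pi * ((H : ℝ) * x))| := by linarith
        _ = ‖∑ h ∈ range H, ee ((h : ℝ) * x)‖ * (2 * |Real.sin (Real.pi * x)|) := hn.symm
        _ ≤ _ := mul_le_mul_of_nonneg_left (by linarith) (norm_nonneg _)
    rw [div_le_iff₀ hpi]
    have h7 : (2 * (H : ℝ)) * (2 * |x|) ≤
        (‖∑ h ∈ range H, ee ((h : ℝ) * x)‖ * Real.pi) * (2 * |x|) := by nlinarith
    exact le_of_mul_le_mul_right h7 (by positivity)

/-- the window sums -/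
theorem ga_conv (X H : ℕ) (a : ℕ → ℂ) (x : ℝ) :
    (∑ n ∈ Icc 1 X, a n * ee ((n : ℝ) * x)) * (∑ h ∈ range H, ee ((h : ℝ) * x)) =
      ∑ u ∈ range (X + H), (∑ n ∈ Ioc (u - H) (min u X), a n) * ee ((u : ℝ) * x) := by
  have h1 : ∀ n ∈ Icc 1 X, ∑ h ∈ range H, a n * ee ((n : ℝ) * x) * ee ((h : ℝ) * x) =
      ∑ u ∈ range (X + H), (if n ≤ u ∧ u < n + H then a n else 0) * ee ((u : ℝ) * x) := by
    intro n hn
    rw [mem_Icc] at hn
    have h2 : ∀ h ∈ range H, a n * ee ((n : ℝ) * x) * ee ((h : ℝ) * x) =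
        a n * ee (((n + h : ℕ) : ℝ) * x) := by
      intro h _
      rw [mul_assoc, ← ga_ee, ← ga_ee, ← Pool.BV.ee_add, ga_ee]
      congr 2
      push_cast
      ring
    rw [sum_congr rfl h2]
    have h3 := sum_Ico_eq_sum_range (fun u : ℕ => a n * ee ((u : ℝ) * x)) n (n + H)
    rw [Nat.add_sub_cancel_left] at h3
    rw [← h3]
    have h4 : ∀ u ∈ range (X + H), (if n ≤ u ∧ u < n + H then a n else 0) * ee ((u : ℝ) * x) =
        if n ≤ u ∧ u < n + H then a n * ee ((u : ℝ) * x) else 0 := by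
      intro u _
      split_ifs <;> simp
    rw [sum_congr rfl h4, ← sum_filter]
    refine sum_congr ?_ fun _ _ => rfl
    ext u
    simp only [mem_filter, mem_range, mem_Ico]
    omega
  rw [sum_mul_sum, sum_congr rfl h1, sum_comm]
  refine sum_congr rfl fun u _ => ?_
  rw [← sum_mul]
  congr 1
  rw [← sum_filter]
  refine sum_congr ?_ fun _ _ => rfl
  ext n
  simp only [mem_filter, mem_Icc, mem_Ioc]
  omega

/-- Gallagher's lemma in the form needed here -/
theorem gal (X H : ℕ) (hH : 1 ≤ H) (a : ℕ → ℂ) :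
    ∫ x in (-(1 / (2 * H) : ℝ))..(1 / (2 * H)), ‖∑ n ∈ Icc 1 X, a n * ee ((n : ℝ) * x)‖ ^ 2 ≤
      (Real.pi ^ 2 / 4) / (H : ℝ) ^ 2 *
        ∑ u ∈ range (X + H), ‖∑ n ∈ Ioc (u - H) (min u X), a n‖ ^ 2 := by
  have hpi := Real.pi_pos
  have hH0 : (0 : ℝ) < H := by exact_mod_cast hH
  have hH1 : (1 : ℝ) ≤ H := by exact_mod_cast hH
  have hle : (1 / (2 * H) : ℝ) ≤ 1 / 2 := by
    apply one_div_le_one_div_of_le (by norm_num)
    linarith
  have h0 : (0 : ℝ) < 1 / (2 * H) := by positivity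
  have hc1 := ga_cont (Icc 1 X) a
  have hc2 := ga_cont (range (X + H)) (fun u => ∑ n ∈ Ioc (u - H) (min u X), a n)
  have h1 : ∫ x in (-(1 / (2 * H) : ℝ))..(1 / (2 * H)),
      ‖∑ n ∈ Icc 1 X, a n * ee ((n : ℝ) * x)‖ ^ 2 ≤
      ∫ x in (-(1 / (2 * H) : ℝ))..(1 / (2 * H)), (Real.pi ^ 2 / 4) / (H : ℝ) ^ 2 *
        ‖∑ u ∈ range (X + H), (∑ n ∈ Ioc (u - H) (min u X), a n) * ee ((u : ℝ) * x)‖ ^ 2 := by
    apply intervalIntegral.integral_mono_on (by linarith)
      (Continuous.intervalIntegrable (by exact hc1.norm.pow 2) _ _)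
      (Continuous.intervalIntegrable (by exact continuous_const.mul (hc2.norm.pow 2)) _ _)
    intro x hx
    show ‖∑ n ∈ Icc 1 X, a n * ee ((n : ℝ) * x)‖ ^ 2 ≤ (Real.pi ^ 2 / 4) / (H : ℝ) ^ 2 *
        ‖∑ u ∈ range (X + H), (∑ n ∈ Ioc (u - H) (min u X), a n) * ee ((u : ℝ) * x)‖ ^ 2
    have hx' : |x| ≤ 1 / (2 * H) := abs_le.2 ⟨hx.1, hx.2⟩
    have h2 := ga_ker H hH x hx'
    rw [← ga_conv, norm_mul, mul_pow]
    have h3 : (2 * H / Real.pi) ^ 2 ≤ ‖∑ h ∈ range H, ee ((h : ℝ) * x)‖ ^ 2 :=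
      pow_le_pow_left₀ (by positivity) h2 2
    have h4 : (0 : ℝ) ≤ ‖∑ n ∈ Icc 1 X, a n * ee ((n : ℝ) * x)‖ ^ 2 := by positivity
    have key : ∀ S D : ℝ, 0 ≤ S → (2 * H / Real.pi) ^ 2 ≤ D →
        S ≤ (Real.pi ^ 2 / 4) / (H : ℝ) ^ 2 * (S * D) := by
      intro S D hS hD
      calc S = (Real.pi ^ 2 / 4) / (H : ℝ) ^ 2 * (S * (2 * H / Real.pi) ^ 2) := by
            field_simp; norm_num
        _ ≤ _ := by
          apply mul_le_mul_of_nonneg_left _ (by positivity)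
          exact mul_le_mul_of_nonneg_left hD hS
    exact key _ _ h4 h3
  refine h1.trans ?_
  rw [intervalIntegral.integral_const_mul]
  apply mul_le_mul_of_nonneg_left _ (by positivity)
  rw [← ga_parseval]
  apply intervalIntegral.integral_mono_interval (by linarith) (by linarith) hle
  · filter_upwards with x
    positivity
  · exact (hc2.norm.pow 2).intervalIntegrable _ _

end Pool.MP_dd84fd_nt.BX
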