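import Pool.Agent.Lib.MP_dd84fd_nt.BX.AsDefs
import Pool.Agent.Lib.MP_dd84fd_nt.BX.Gal
import Pool.Agent.Lib.MP_dd84fd_nt.BX.CDefs
import Pool.Agent.Lib.MP_dd84fd_nt.DivBound

/-!
# BX-Sl: the `l¹` bound for the norms `sN` from the `l¹` bound for sums over short intervals (helper23)

`e(nx)` is replaced by `e(t h x)` on the cell `(t h, (t+1) h]`; Parseval on `|x| ≤ 1/(2h)`.
-/

set_option autoImplicit false

namespace Pool.MP_dd84fd_nt.BX

open Finset Pool.MP_67663b_nt.Odd Pool.MP_dd84fd_nt.IX Pool.MP_dd84fd_nt.JX Filter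

/-- cells of the fixed grid `t h` -/
def CellsT (X h : ℕ) (α β : ℕ → ℕ) : Prop :=
  ∀ t ∈ Icc 1 (X / h), t * h ≤ α t ∧ α t ≤ β t ∧ β t ≤ (t + 1) * h ∧ β t ≤ X

/-- the `l¹` bound for the primes in short intervals, for characters -/
def L1P (ν : ℝ) : Prop := ∃ C c : ℝ, 0 < C ∧ 0 < c ∧ ∃ X0 : ℕ, ∀ X : ℕ, X0 ≤ X → ∀ h : ℕ,
  (X : ℝ) ^ (1 - c) ≤ h → h ≤ X → ∀ (Y : Finset PC) (P1 P2 : ℝ), ChF Y pv P1 P2 → 1 ≤ P2 →
    P2 ≤ P1 → P1 * P2 ^ 2 ≤ (X : ℝ) ^ (1 - ν) → (Y.card : ℝ) ≤ (X : ℝ) ^ c →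
    ∀ α β : ℕ → ℕ, CellsT X h α β →
    ∑ ψ ∈ Y, nt (X / h) (fun t => ∑ n ∈ (Ioc (α t) (β t)).filter Nat.Prime, pv ψ n) ≤
      C * Real.sqrt ((X : ℝ) * h) / Real.log X

/-- the sum over the cell `t` -/
noncomputable def Fc (X h : ℕ) (ψ : PC) (t : ℕ) : ℂ :=
  ∑ n ∈ (Ioc (t * h) (min ((t + 1) * h) X)).filter Nat.Prime, pv ψ n

private theorem sl_cont (X : ℕ) (ψ : PC) : Continuous fun x : ℝ => SX X ψ x := by
  unfold SX
  refine continuous_finsetSum _ (fun n _ => ?_)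
  refine continuous_const.mul ?_
  unfold ee
  fun_prop

private theorem sl_contA (X h : ℕ) (ψ : PC) :
    Continuous fun x : ℝ => ∑ t ∈ Icc 1 (X / h), Fc X h ψ t * ee ((t : ℝ) * (h * x)) := by
  refine continuous_finsetSum _ (fun n _ => ?_)
  refine continuous_const.mul ?_
  unfold ee
  fun_prop

private theorem sl_w_le (X n : ℕ) : ‖((wP X n : ℝ) : ℂ)‖ ≤ 1 := by
  unfold wP
  split_ifs <;> simp

/-- the main part as a sum over `n` -/
private theorem sl_main (X h : ℕ) (hh : 1 ≤ h) (hz : zI X ≤ h) (ψ : PC) (x : ℝ) :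
    ∑ n ∈ Ioc h X, ((wP X n : ℝ) : ℂ) * pv ψ n * ee ((((n - 1) / h : ℕ) : ℝ) * (h * x)) =
      ∑ t ∈ Icc 1 (X / h), Fc X h ψ t * ee ((t : ℝ) * (h * x)) := by
  have hmaps : ∀ n ∈ Ioc h X, (n - 1) / h ∈ Icc 1 (X / h) := by
    intro n hn
    rw [mem_Ioc] at hn
    rw [mem_Icc]
    refine ⟨(Nat.le_div_iff_mul_le (by omega)).2 (by omega), Nat.div_le_div_right (by omega)⟩
  rw [← sum_fiberwise_of_maps_to hmaps]
  refine sum_congr rfl fun t ht => ?_
  rw [mem_Icc] at ht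
  have hfib : (Ioc h X).filter (fun n => (n - 1) / h = t) = Ioc (t * h) (min ((t + 1) * h) X) := by
    ext n
    rw [mem_filter, mem_Ioc, mem_Ioc, Nat.div_eq_iff (by omega : 0 < h), le_min_iff]
    have h1 : h ≤ t * h := Nat.le_mul_of_pos_left h (by omega)
    have h2 : (t + 1) * h = t * h + h := by ring
    constructor
    · rintro ⟨⟨h3, h4⟩, h5, h6⟩
      omega
    · rintro ⟨h3, h4, h5⟩
      omega
  rw [hfib, Fc, sum_filter, sum_mul]
  refine sum_congr rfl fun n hn => ?_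
  have hn' : n ∈ (Ioc h X).filter (fun n => (n - 1) / h = t) := by rw [hfib]; exact hn
  rw [mem_filter, mem_Ioc] at hn'
  rw [hn'.2]
  unfold wP
  by_cases hp : n.Prime
  · have : zI X ≤ n := by omega
    simp [hp, this]
  · simp [hp]

/-- the error term -/
private theorem sl_err (X h : ℕ) (T : ℝ) (hT : 1 ≤ T) (hX : 1 ≤ X) (hh : 1 ≤ h) (hhX : h ≤ X)
    (hz : zI X ≤ h) (ψ : PC) (x : ℝ) (hx : |x| ≤ T / X) :
    ‖SX X ψ x - ∑ t ∈ Icc 1 (X / h), Fc X h ψ t * ee ((t : ℝ) * (h * x))‖ ≤ 8 * h * T := by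
  have hX0 : (0 : ℝ) < X := by exact_mod_cast hX
  have hh0 : (0 : ℝ) < h := by exact_mod_cast hh
  rw [← sl_main X h hh hz ψ x]
  have hsplit : SX X ψ x = ∑ n ∈ Icc 1 h, ((wP X n : ℝ) : ℂ) * pv ψ n * ee ((n : ℝ) * x) +
      ∑ n ∈ Ioc h X, ((wP X n : ℝ) : ℂ) * pv ψ n * ee ((n : ℝ) * x) := by
    unfold SX
    have h1 : Icc 1 X = Icc 1 h ∪ Ioc h X := by
      ext n
      simp only [mem_union, mem_Icc, mem_Ioc]
      omega
    rw [h1, sum_union]
    rw [Finset.disjoint_left]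
    intro n h2 h3
    rw [mem_Icc] at h2
    rw [mem_Ioc] at h3
    omega
  rw [hsplit, add_sub_assoc, ← sum_sub_distrib]
  have e1 : ‖∑ n ∈ Icc 1 h, ((wP X n : ℝ) : ℂ) * pv ψ n * ee ((n : ℝ) * x)‖ ≤ h := by
    refine (norm_sum_le _ _).trans ?_
    calc ∑ n ∈ Icc 1 h, ‖((wP X n : ℝ) : ℂ) * pv ψ n * ee ((n : ℝ) * x)‖
        ≤ ∑ n ∈ Icc 1 h, (1 : ℝ) := by
          refine sum_le_sum fun n _ => ?_
          rw [norm_mul, norm_mul, norm_ee, mul_one]
          exact mul_le_one₀ (sl_w_le X n) (norm_nonneg _) (pv_norm_le ψ n)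
      _ = h := by simp
  have e2 : ‖∑ n ∈ Ioc h X, (((wP X n : ℝ) : ℂ) * pv ψ n * ee ((n : ℝ) * x) -
      ((wP X n : ℝ) : ℂ) * pv ψ n * ee ((((n - 1) / h : ℕ) : ℝ) * (h * x)))‖ ≤
      2 * Real.pi * h * T := by
    refine (norm_sum_le _ _).trans ?_
    calc ∑ n ∈ Ioc h X, ‖((wP X n : ℝ) : ℂ) * pv ψ n * ee ((n : ℝ) * x) -
          ((wP X n : ℝ) : ℂ) * pv ψ n * ee ((((n - 1) / h : ℕ) : ℝ) * (h * x))‖
        ≤ ∑ n ∈ Ioc h X, (2 * Real.pi * (h * (T / X))) := by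
          refine sum_le_sum fun n hn => ?_
          rw [mem_Ioc] at hn
          rw [← mul_sub, norm_mul, norm_mul]
          have h1 := norm_ee_sub_ee_le ((n : ℝ) * x) ((((n - 1) / h : ℕ) : ℝ) * (h * x))
          have h2 : |(n : ℝ) * x - (((n - 1) / h : ℕ) : ℝ) * (h * x)| ≤ h * (T / X) := by
            have h3 : (n : ℝ) * x - (((n - 1) / h : ℕ) : ℝ) * (h * x) =
                ((n : ℝ) - (((n - 1) / h * h : ℕ) : ℝ)) * x := by push_cast; ring
            rw [h3, abs_mul]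
            refine mul_le_mul ?_ hx (abs_nonneg _) hh0.le
            have h4 := Nat.div_add_mod (n - 1) h
            have h5 := Nat.mod_lt (n - 1) (by omega : 0 < h)
            have h6 : (n - 1) / h * h = h * ((n - 1) / h) := Nat.mul_comm _ _
            have h7 : (n - 1) / h * h ≤ n := by omega
            have h8 : n - (n - 1) / h * h ≤ h := by omega
            rw [abs_of_nonneg (by
              have : (((n - 1) / h * h : ℕ) : ℝ) ≤ n := by exact_mod_cast h7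
              linarith)]
            have h9 : (n : ℝ) ≤ h + (((n - 1) / h * h : ℕ) : ℝ) := by
              exact_mod_cast (by omega : n ≤ h + (n - 1) / h * h)
            linarith
          calc ‖((wP X n : ℝ) : ℂ)‖ * ‖pv ψ n‖ *
                ‖ee ((n : ℝ) * x) - ee ((((n - 1) / h : ℕ) : ℝ) * (h * x))‖
              ≤ 1 * 1 * (2 * Real.pi * |(n : ℝ) * x - (((n - 1) / h : ℕ) : ℝ) * (h * x)|) := by
                refine mul_le_mul (mul_le_mul (sl_w_le X n) (pv_norm_le ψ n) (norm_nonneg _)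
                  zero_le_one) h1 (norm_nonneg _) (by norm_num)
            _ ≤ 2 * Real.pi * (h * (T / X)) := by
                rw [one_mul, one_mul]
                exact mul_le_mul_of_nonneg_left h2 (by positivity)
      _ = ((X - h : ℕ) : ℝ) * (2 * Real.pi * (h * (T / X))) := by
          rw [sum_const, Nat.card_Ioc, nsmul_eq_mul]
      _ ≤ X * (2 * Real.pi * (h * (T / X))) := by
          refine mul_le_mul_of_nonneg_right ?_ (by positivity)
          exact_mod_cast Nat.sub_le X h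
      _ = 2 * Real.pi * h * T := by field_simp
  refine (norm_add_le _ _).trans ?_
  have hpi := Real.pi_lt_d2
  have h10 : (h : ℝ) ≤ h * T := by nlinarith
  have h11 : 2 * Real.pi * h * T ≤ 6.3 * (h * T) := by
    have : 0 ≤ (h : ℝ) * T := by positivity
    nlinarith
  linarith

/-- Parseval for the main part -/
private theorem sl_pars (X h : ℕ) (hh : 1 ≤ h) (ψ : PC) :
    ∫ x in (-(1 / (2 * h : ℝ)))..(1 / (2 * h : ℝ)),
      ‖∑ t ∈ Icc 1 (X / h), Fc X h ψ t * ee ((t : ℝ) * (h * x))‖ ^ 2 =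
      1 / h * ∑ t ∈ Icc 1 (X / h), ‖Fc X h ψ t‖ ^ 2 := by
  have hh0 : (0 : ℝ) < h := by exact_mod_cast hh
  have h1 := intervalIntegral.integral_comp_mul_left (a := -(1 / (2 * h : ℝ))) (b := 1 / (2 * h : ℝ))
    (fun y : ℝ => ‖∑ t ∈ Icc 1 (X / h), Fc X h ψ t * ee ((t : ℝ) * y)‖ ^ 2) (c := (h : ℝ)) hh0.ne'
  rw [h1]
  have e1 : (h : ℝ) * -(1 / (2 * h : ℝ)) = -(1 / 2) := by field_simp
  have e2 : (h : ℝ) * (1 / (2 * h : ℝ)) = 1 / 2 := by field_simp
  rw [e1, e2, ga_parseval, smul_eq_mul, one_div]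

/-- the norm of one character -/
theorem sl_norm (X h : ℕ) (T : ℝ) (hT : 1 ≤ T) (hX : 3 ≤ X) (hh : 1 ≤ h)
    (hz : zI X ≤ h) (hhT : 2 * h * T ≤ X) (ψ : PC) :
    sN X T ψ ≤ 2 * (Real.log X / Real.sqrt ((X : ℝ) * h) * nt (X / h) (Fc X h ψ)) +
      32 * Real.log X * T ^ 2 * (h / X) := by
  have hX0 : (0 : ℝ) < X := by exact_mod_cast (by omega : 0 < X)
  have hh0 : (0 : ℝ) < h := by exact_mod_cast hh
  have hhX : h ≤ X := by
    have : (h : ℝ) ≤ X := by nlinarith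
    exact_mod_cast this
  have hL : 0 ≤ Real.log X := Real.log_natCast_nonneg X
  set A : ℝ → ℂ := fun x => ∑ t ∈ Icc 1 (X / h), Fc X h ψ t * ee ((t : ℝ) * (h * x)) with hA
  have hTX : 0 ≤ T / X := by positivity
  have hTh : T / X ≤ 1 / (2 * h) := by
    rw [div_le_div_iff₀ hX0 (by positivity)]
    linarith
  have hcA : Continuous fun x => ‖A x‖ ^ 2 := (sl_contA X h ψ).norm.pow 2
  have hcS : Continuous fun x => ‖SX X ψ x‖ ^ 2 := (sl_cont X ψ).norm.pow 2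
  -- the integral
  have hint : ∫ x in (-(T / X))..(T / X), ‖SX X ψ x‖ ^ 2 ≤
      2 * (1 / h * ∑ t ∈ Icc 1 (X / h), ‖Fc X h ψ t‖ ^ 2) + 4 * (T / X) * (8 * h * T) ^ 2 := by
    have h1 : ∫ x in (-(T / X))..(T / X), ‖SX X ψ x‖ ^ 2 ≤
        ∫ x in (-(T / X))..(T / X), (2 * ‖A x‖ ^ 2 + 2 * (8 * h * T) ^ 2) := by
      refine intervalIntegral.integral_mono_on (by linarith) (hcS.intervalIntegrable _ _)
        (((hcA.const_mul 2).add continuous_const).intervalIntegrable _ _) fun x hx => ?_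
      have hx' : |x| ≤ T / X := abs_le.2 ⟨hx.1, hx.2⟩
      have h2 := sl_err X h T hT (by omega) hh hhX hz ψ x hx'
      have h3 : ‖SX X ψ x‖ ≤ ‖A x‖ + 8 * h * T := by
        have h4 : SX X ψ x = A x + (SX X ψ x - A x) := by ring
        rw [h4]
        exact (norm_add_le _ _).trans (by linarith)
      have h5 : ‖SX X ψ x‖ ^ 2 ≤ (‖A x‖ + 8 * h * T) ^ 2 :=
        pow_le_pow_left₀ (norm_nonneg _) h3 2
      nlinarith [sq_nonneg (‖A x‖ - 8 * h * T)]
    refine h1.trans ?_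
    rw [intervalIntegral.integral_add ((hcA.const_mul 2).intervalIntegrable _ _)
      (continuous_const.intervalIntegrable _ _), intervalIntegral.integral_const,
      intervalIntegral.integral_const_mul]
    have h6 : ∫ x in (-(T / X))..(T / X), ‖A x‖ ^ 2 ≤
        ∫ x in (-(1 / (2 * h : ℝ)))..(1 / (2 * h : ℝ)), ‖A x‖ ^ 2 := by
      refine intervalIntegral.integral_mono_interval (by linarith) (by linarith) hTh ?_
        (hcA.intervalIntegrable _ _)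
      exact Filter.Eventually.of_forall fun x => sq_nonneg _
    rw [sl_pars X h hh ψ] at h6
    have h7 : (T / X - -(T / X)) • (2 * (8 * (h : ℝ) * T) ^ 2) = 4 * (T / X) * (8 * h * T) ^ 2 := by
      rw [smul_eq_mul]
      ring
    rw [h7]
    linarith
  -- square roots
  have hS0 : 0 ≤ ∑ t ∈ Icc 1 (X / h), ‖Fc X h ψ t‖ ^ 2 := sum_nonneg fun _ _ => sq_nonneg _
  have hsq : Real.sqrt (∫ x in (-(T / X))..(T / X), ‖SX X ψ x‖ ^ 2) ≤
      2 * (1 / Real.sqrt h * nt (X / h) (Fc X h ψ)) + 32 * T ^ 2 * (h / Real.sqrt X) := by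
    rw [Real.sqrt_le_left (by
      have : 0 ≤ nt (X / h) (Fc X h ψ) := Real.sqrt_nonneg _
      positivity)]
    refine hint.trans ?_
    have e1 : (1 / Real.sqrt h * nt (X / h) (Fc X h ψ)) ^ 2 =
        1 / h * ∑ t ∈ Icc 1 (X / h), ‖Fc X h ψ t‖ ^ 2 := by
      unfold nt
      rw [mul_pow, div_pow, one_pow, Real.sq_sqrt hh0.le, Real.sq_sqrt hS0]
    have e2 : (32 * T ^ 2 * (h / Real.sqrt X)) ^ 2 = 1024 * T ^ 4 * h ^ 2 / X := by
      rw [mul_pow, mul_pow, div_pow, Real.sq_sqrt hX0.le]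
      ring
    have e3 : 4 * (T / X) * (8 * h * T) ^ 2 ≤ 1024 * T ^ 4 * h ^ 2 / X := by
      have h8 : 4 * (T / X) * (8 * h * T) ^ 2 = 256 * T ^ 3 * h ^ 2 / X := by ring
      rw [h8]
      refine div_le_div_of_nonneg_right ?_ hX0.le
      have h9 : T ^ 3 ≤ T ^ 4 := pow_le_pow_right₀ hT (by norm_num)
      have h10 : 0 ≤ T ^ 4 := by positivity
      have h11 : (256 : ℝ) * T ^ 3 ≤ 1024 * T ^ 4 := by linarith
      exact mul_le_mul_of_nonneg_right h11 (sq_nonneg _)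
    have hn0 : 0 ≤ 1 / Real.sqrt h * nt (X / h) (Fc X h ψ) := by
      have : 0 ≤ nt (X / h) (Fc X h ψ) := Real.sqrt_nonneg _
      positivity
    have hm0 : 0 ≤ 32 * T ^ 2 * (h / Real.sqrt X) := by positivity
    have h12 : 0 ≤ 1 / (h : ℝ) * ∑ t ∈ Icc 1 (X / h), ‖Fc X h ψ t‖ ^ 2 := by positivity
    calc 2 * (1 / (h : ℝ) * ∑ t ∈ Icc 1 (X / h), ‖Fc X h ψ t‖ ^ 2) + 4 * (T / X) * (8 * h * T) ^ 2
        ≤ 4 * (1 / (h : ℝ) * ∑ t ∈ Icc 1 (X / h), ‖Fc X h ψ t‖ ^ 2) + 1024 * T ^ 4 * h ^ 2 / X := by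
          linarith
      _ = (2 * (1 / Real.sqrt h * nt (X / h) (Fc X h ψ))) ^ 2 +
            (32 * T ^ 2 * (h / Real.sqrt X)) ^ 2 := by
          rw [mul_pow, e1, e2]
          ring
      _ ≤ _ := by nlinarith [mul_nonneg hn0 hm0]
  have hLX : 0 ≤ Real.log X / Real.sqrt X := by positivity
  calc sN X T ψ = Real.log X / Real.sqrt X *
        Real.sqrt (∫ x in (-(T / X))..(T / X), ‖SX X ψ x‖ ^ 2) := rfl
    _ ≤ Real.log X / Real.sqrt X *
        (2 * (1 / Real.sqrt h * nt (X / h) (Fc X h ψ)) + 32 * T ^ 2 * (h / Real.sqrt X)) :=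
        mul_le_mul_of_nonneg_left hsq hLX
    _ = _ := by
        rw [Real.sqrt_mul hX0.le]
        have h13 : Real.sqrt X * Real.sqrt X = X := Real.mul_self_sqrt hX0.le
        have h14 : 0 < Real.sqrt X := Real.sqrt_pos.2 hX0
        have h15 : 0 < Real.sqrt h := Real.sqrt_pos.2 hh0
        rw [mul_add]
        congr 1
        · field_simp
        · rw [show Real.log X / Real.sqrt X * (32 * T ^ 2 * (h / Real.sqrt X)) =
            32 * Real.log X * T ^ 2 * (h / (Real.sqrt X * Real.sqrt X)) by field_simp, h13]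

private theorem sl_log_pow (C : ℝ) (K : ℕ) {ε : ℝ} (hε : 0 < ε) : ∃ X0 : ℕ, ∀ X : ℕ, X0 ≤ X →
    C * (Real.log X) ^ K ≤ (X : ℝ) ^ ε := by
  have h1 := (isLittleO_log_rpow_rpow_atTop (K : ℝ) hε).bound
    (show (0 : ℝ) < 1 / (|C| + 1) by positivity)
  have h2 := tendsto_natCast_atTop_atTop (R := ℝ) |>.eventually h1
  obtain ⟨X0, hX0⟩ := Filter.eventually_atTop.mp h2
  refine ⟨max X0 1, fun X hX => ?_⟩
  have h3 := hX0 X ((le_max_left _ _).trans hX)
  have hX1 : (1 : ℝ) ≤ X := by exact_mod_cast (le_max_right _ _).trans hX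
  have hl : 0 ≤ Real.log X := Real.log_nonneg hX1
  rw [Real.norm_of_nonneg (by positivity), Real.norm_of_nonneg (by positivity),
    Real.rpow_natCast] at h3
  have h4 : C * (Real.log X) ^ K ≤ (|C| + 1) * (Real.log X) ^ K := by
    apply mul_le_mul_of_nonneg_right _ (by positivity)
    linarith [le_abs_self C]
  refine h4.trans ?_
  have h5 : (|C| + 1) * (Real.log X) ^ K ≤ (|C| + 1) * (1 / (|C| + 1) * (X : ℝ) ^ ε) :=
    mul_le_mul_of_nonneg_left h3 (by positivity)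
  refine h5.trans (le_of_eq ?_)
  have : |C| + 1 ≠ 0 := by positivity
  field_simp

/-- the families of characters satisfy the conditions of the abstract families -/
theorem sl_fam (ν : ℝ) (hν : 0 < ν) (hν1 : ν ≤ 1 / 20) : ∃ X0 : ℕ, ∀ X : ℕ, X0 ≤ X →
    ∀ Y : Finset PC, PFam Y ((X : ℝ) ^ (2 / 3 - ν)) → (∀ ψ ∈ Y, 2 ≤ ψ.1) →
      ChF Y pv ((X : ℝ) ^ (1 / 3 - ν / 3)) ((X : ℝ) ^ (1 / 3 - ν / 3)) := by
  obtain ⟨k, hk⟩ := exists_nat_gt (24 / ν)
  have hk0 : 0 < k := by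
    rcases Nat.eq_zero_or_pos k with h | h
    · rw [h] at hk
      have : 0 < 24 / ν := by positivity
      rw [Nat.cast_zero] at hk
      linarith
    · exact h
  obtain ⟨C, hC1, hC⟩ := Pool.Agent.Lib.MP_dd84fd_nt.DivBound.div_bound k
  obtain ⟨X1, hX1⟩ := sl_log_pow 2 1 (show (0 : ℝ) < ν / 12 by positivity)
  refine ⟨max (max X1 C) 3, fun X hX Y hY h2 => ?_⟩
  have hXX1 : X1 ≤ X := le_trans (le_trans (le_max_left _ _) (le_max_left _ _)) hX
  have hXC : C ≤ X := le_trans (le_trans (le_max_right _ _) (le_max_left _ _)) hX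
  have hX3 : 3 ≤ X := le_trans (le_max_right _ _) hX
  have hXr : (1 : ℝ) ≤ X := by exact_mod_cast (by omega : 1 ≤ X)
  have hX0 : (0 : ℝ) < X := by linarith
  have hlog1 : 1 ≤ Real.log X := by
    rw [Real.le_log_iff_exp_le hX0]
    have h3 : (3 : ℝ) ≤ X := by exact_mod_cast hX3
    linarith [Real.exp_one_lt_d9]
  set N : ℝ := (X : ℝ) ^ (2 / 3 - ν) with hN
  have hNX : N ≤ X := by
    rw [hN]
    calc (X : ℝ) ^ (2 / 3 - ν) ≤ (X : ℝ) ^ (1 : ℝ) := Real.rpow_le_rpow_of_exponent_le hXr (by linarith)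
      _ = X := Real.rpow_one _
  have hN1 : 1 ≤ N := Real.one_le_rpow hXr (by linarith)
  have hDv : ∀ m : ℕ, 1 ≤ m → (m : ℝ) ≤ N → (m.divisors.card : ℝ) ≤ (X : ℝ) ^ (ν / 12) := by
    intro m hm hmN
    have h3 := hC m (by omega)
    have h4 : ((m.divisors.card : ℝ)) ^ k ≤ C * m := by exact_mod_cast h3
    have h5 : (C : ℝ) * m ≤ X ^ (2 : ℕ) := by
      rw [pow_two]
      exact mul_le_mul (by exact_mod_cast hXC) (hmN.trans hNX) (Nat.cast_nonneg _) hX0.le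
    have h6 : (X : ℝ) ^ (2 : ℕ) ≤ ((X : ℝ) ^ (ν / 12)) ^ k := by
      rw [← Real.rpow_natCast ((X : ℝ) ^ (ν / 12)) k, ← Real.rpow_mul hX0.le,
        ← Real.rpow_natCast (X : ℝ) 2]
      refine Real.rpow_le_rpow_of_exponent_le hXr ?_
      rw [div_lt_iff₀ hν] at hk
      push_cast
      linarith
    exact le_of_pow_le_pow_left₀ (by omega) (by positivity) (h4.trans (h5.trans h6))
  have hlogN : 1 + Real.log N ≤ (X : ℝ) ^ (ν / 12) := by
    have h3 := hX1 X hXX1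
    rw [pow_one] at h3
    have h4 : Real.log N ≤ Real.log X := Real.log_le_log (by linarith) hNX
    linarith
  have hlogN0 : 0 ≤ Real.log N := Real.log_nonneg hN1
  have hsqrt : Real.sqrt N = (X : ℝ) ^ (1 / 3 - ν / 2) := by
    rw [hN, Real.sqrt_eq_rpow, ← Real.rpow_mul hX0.le]
    congr 1
    ring
  have hfin : (X : ℝ) ^ (ν / 12) * Real.sqrt N * (1 + Real.log N) ≤ (X : ℝ) ^ (1 / 3 - ν / 3) := by
    rw [hsqrt]
    calc (X : ℝ) ^ (ν / 12) * (X : ℝ) ^ (1 / 3 - ν / 2) * (1 + Real.log N)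
        ≤ (X : ℝ) ^ (ν / 12) * (X : ℝ) ^ (1 / 3 - ν / 2) * (X : ℝ) ^ (ν / 12) :=
          mul_le_mul_of_nonneg_left hlogN (by positivity)
      _ = (X : ℝ) ^ (1 / 3 - ν / 3) := by
          rw [← Real.rpow_add hX0, ← Real.rpow_add hX0]
          congr 1
          ring
  refine ⟨fun ψ _ m n => pv_mul ψ m n, fun ψ _ n => pv_norm_le ψ n, ?_, ?_⟩
  · intro ψ hψ a b
    have h3 := pc_pv_one ψ (hY.1 ψ hψ) (h2 ψ hψ) 1 a b
    simp only [one_mul] at h3
    refine h3.trans (le_trans ?_ hfin)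
    have h4 : (ψ.1 : ℝ) ≤ N := by
      have := hY.2 ψ hψ ψ hψ
      rwa [Nat.lcm_self] at this
    have h5 : 1 ≤ ψ.1 := (hY.1 ψ hψ).1
    have h6 : (1 : ℝ) ≤ ψ.1 := by exact_mod_cast h5
    have h7 : Real.log ψ.1 ≤ Real.log N := Real.log_le_log (by linarith) h4
    have h8 : 0 ≤ Real.log ψ.1 := Real.log_nonneg h6
    exact mul_le_mul (mul_le_mul (hDv _ h5 h4) (Real.sqrt_le_sqrt h4) (Real.sqrt_nonneg _)
      (by positivity)) (by linarith) (by linarith) (by positivity)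
  · intro ψ hψ ψ' hψ' hne a b
    have h3 := pc_pv_fam hY hDv hψ hψ' hne 1 a b
    simp only [one_mul] at h3
    exact h3.trans hfin

/-- the `l¹` bound for the norms -/
theorem slBD (hL : ∀ ν : ℝ, 0 < ν → ν ≤ 1 / 20 → L1P ν) : SlBD := by
  intro ν hν hν1
  obtain ⟨C1, c1, hC1, hc1, X1, H1⟩ := hL ν hν hν1
  set c0 : ℝ := min c1 (1 / 20) with hc0
  have hc0p : 0 < c0 := lt_min hc1 (by norm_num)
  have hc0c : c0 ≤ c1 := min_le_left _ _
  have hc0h : c0 ≤ 1 / 20 := min_le_right _ _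
  refine ⟨2 * C1 + 1, c0 / 2, by positivity, by positivity, fun B => ?_⟩
  obtain ⟨X2, hX2⟩ := sl_fam ν hν hν1
  obtain ⟨X3, hX3⟩ := sl_log_pow 64 (2 * B + 1) (show (0 : ℝ) < c0 / 2 by positivity)
  obtain ⟨X4, hX4⟩ := sl_log_pow 4 B hc0p
  refine ⟨max (max X1 X2) (max (max X3 X4) 3), fun X hX T hT hTB Y hY h2 hcard => ?_⟩
  have hXX1 : X1 ≤ X := le_trans (le_trans (le_max_left _ _) (le_max_left _ _)) hX
  have hXX2 : X2 ≤ X := le_trans (le_trans (le_max_right _ _) (le_max_left _ _)) hX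
  have hXX3 : X3 ≤ X := le_trans (le_trans (le_trans (le_max_left _ _) (le_max_left _ _))
    (le_max_right _ _)) hX
  have hXX4 : X4 ≤ X := le_trans (le_trans (le_trans (le_max_right _ _) (le_max_left _ _))
    (le_max_right _ _)) hX
  have hX3' : 3 ≤ X := le_trans (le_trans (le_max_right _ _) (le_max_right _ _)) hX
  have hXr : (1 : ℝ) ≤ X := by exact_mod_cast (by omega : 1 ≤ X)
  have hX0 : (0 : ℝ) < X := by linarith
  have hL0 : 0 < Real.log X := Real.log_pos (by exact_mod_cast (by omega : 1 < X))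
  have e3 := hX3 X hXX3
  have e4 := hX4 X hXX4
  -- the length of the cells
  set h : ℕ := ⌈(X : ℝ) ^ (1 - c0)⌉₊ with hh
  have hpow1 : (1 : ℝ) ≤ (X : ℝ) ^ (1 - c0) := Real.one_le_rpow hXr (by linarith)
  have hle : (X : ℝ) ^ (1 - c0) ≤ h := Nat.le_ceil _
  have hle2 : (h : ℝ) ≤ 2 * (X : ℝ) ^ (1 - c0) := by
    have := Nat.ceil_lt_add_one (by linarith : (0 : ℝ) ≤ (X : ℝ) ^ (1 - c0))
    linarith
  have hh1 : 1 ≤ h := by
    have : (1 : ℝ) ≤ h := hpow1.trans hle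
    exact_mod_cast this
  have hmul : (X : ℝ) ^ (1 - c0) * (X : ℝ) ^ c0 = X := by
    rw [← Real.rpow_add hX0]
    simp
  have hhT : 2 * (h : ℝ) * T ≤ X := by
    calc 2 * (h : ℝ) * T ≤ 2 * (2 * (X : ℝ) ^ (1 - c0)) * (Real.log X) ^ B :=
          mul_le_mul (by linarith) hTB (by linarith) (by positivity)
      _ = (X : ℝ) ^ (1 - c0) * (4 * (Real.log X) ^ B) := by ring
      _ ≤ (X : ℝ) ^ (1 - c0) * (X : ℝ) ^ c0 := mul_le_mul_of_nonneg_left e4 (by positivity)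
      _ = X := hmul
  have hhX : h ≤ X := by
    have h3 : (h : ℝ) ≤ 2 * h * T := by
      have : (0 : ℝ) ≤ h := Nat.cast_nonneg _
      nlinarith
    exact_mod_cast h3.trans hhT
  have hz : zI X ≤ h := Nat.ceil_le_ceil
    (Real.rpow_le_rpow_of_exponent_le hXr (by linarith : (1 / 10 : ℝ) ≤ 1 - c0))
  have hcells : CellsT X h (fun t => t * h) (fun t => min ((t + 1) * h) X) := by
    intro t ht
    rw [mem_Icc] at ht
    have h3 : t * h ≤ X := le_trans (Nat.mul_le_mul_right h ht.2) (Nat.div_mul_le_self X h)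
    refine ⟨le_rfl, le_min (Nat.mul_le_mul_right h (Nat.le_succ t)) h3, min_le_left _ _, min_le_right _ _⟩
  have hP1 : (1 : ℝ) ≤ (X : ℝ) ^ (1 / 3 - ν / 3) := Real.one_le_rpow hXr (by linarith)
  have hP3 : (X : ℝ) ^ (1 / 3 - ν / 3) * ((X : ℝ) ^ (1 / 3 - ν / 3)) ^ 2 ≤ (X : ℝ) ^ (1 - ν) := by
    rw [← Real.rpow_natCast ((X : ℝ) ^ (1 / 3 - ν / 3)) 2, ← Real.rpow_mul hX0.le,
      ← Real.rpow_add hX0]
    apply le_of_eq
    congr 1
    push_cast
    ring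
  have hmain := H1 X hXX1 h (le_trans (Real.rpow_le_rpow_of_exponent_le hXr (by linarith)) hle) hhX
    Y _ _ (hX2 X hXX2 Y hY h2) hP1 le_rfl hP3
    (hcard.trans (Real.rpow_le_rpow_of_exponent_le hXr (by linarith))) _ _ hcells
  have hsum : ∑ ψ ∈ Y, sN X T ψ ≤ ∑ ψ ∈ Y, (2 * (Real.log X / Real.sqrt ((X : ℝ) * h) *
      nt (X / h) (Fc X h ψ)) + 32 * Real.log X * T ^ 2 * (h / X)) :=
    sum_le_sum fun ψ _ => sl_norm X h T hT hX3' hh1 hz hhT ψ
  refine hsum.trans ?_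
  rw [sum_add_distrib, sum_const, nsmul_eq_mul, ← mul_sum, ← mul_sum]
  have hsqpos : 0 < Real.sqrt ((X : ℝ) * h) := Real.sqrt_pos.2 (by positivity)
  have p1 : 2 * (Real.log X / Real.sqrt ((X : ℝ) * h) * ∑ ψ ∈ Y, nt (X / h) (Fc X h ψ)) ≤
      2 * C1 := by
    have h5 : Real.log X / Real.sqrt ((X : ℝ) * h) * ∑ ψ ∈ Y, nt (X / h) (Fc X h ψ) ≤
        Real.log X / Real.sqrt ((X : ℝ) * h) * (C1 * Real.sqrt ((X : ℝ) * h) / Real.log X) :=
      mul_le_mul_of_nonneg_left hmain (by positivity)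
    have h6 : Real.log X / Real.sqrt ((X : ℝ) * h) * (C1 * Real.sqrt ((X : ℝ) * h) / Real.log X) =
        C1 := by field_simp
    linarith
  have p2 : (Y.card : ℝ) * (32 * Real.log X * T ^ 2 * (h / X)) ≤ 1 := by
    have h5 : T ^ 2 ≤ (Real.log X) ^ (2 * B) := by
      rw [pow_mul']
      exact pow_le_pow_left₀ (by linarith) hTB 2
    have h6 : (h : ℝ) / X ≤ 2 * (X : ℝ) ^ (-c0) := by
      rw [div_le_iff₀ hX0, mul_assoc]
      refine hle2.trans (le_of_eq ?_)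
      rw [show (X : ℝ) ^ (-c0) * (X : ℝ) = (X : ℝ) ^ (1 - c0) by
        nth_rewrite 2 [← Real.rpow_one (X : ℝ)]
        rw [← Real.rpow_add hX0]
        congr 1
        ring]
    have h7 : 32 * Real.log X * T ^ 2 * (h / X) ≤
        32 * Real.log X * (Real.log X) ^ (2 * B) * (2 * (X : ℝ) ^ (-c0)) := by
      refine mul_le_mul (mul_le_mul_of_nonneg_left h5 (by positivity)) h6 (by positivity) (by positivity)
    calc (Y.card : ℝ) * (32 * Real.log X * T ^ 2 * (h / X))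
        ≤ (X : ℝ) ^ (c0 / 2) * (32 * Real.log X * (Real.log X) ^ (2 * B) * (2 * (X : ℝ) ^ (-c0))) :=
          mul_le_mul hcard h7 (by positivity) (by positivity)
      _ = (X : ℝ) ^ (c0 / 2) * (X : ℝ) ^ (-c0) * (64 * (Real.log X) ^ (2 * B + 1)) := by ring
      _ ≤ (X : ℝ) ^ (c0 / 2) * (X : ℝ) ^ (-c0) * (X : ℝ) ^ (c0 / 2) :=
          mul_le_mul_of_nonneg_left e3 (by positivity)
      _ = 1 := by
          rw [← Real.rpow_add hX0, ← Real.rpow_add hX0]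
          rw [show c0 / 2 + -c0 + c0 / 2 = 0 by ring, Real.rpow_zero]
  linarith

end Pool.MP_dd84fd_nt.BX
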