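import Pool.Agent.Lib.MP_dd84fd_nt.BX.CFin
import Pool.Agent.Lib.MP_dd84fd_nt.BX.Sl

/-!
# BX/CSl: `SlBD` (what the assembly consumes) from (L1B)

`l1P`: the hypothesis `L1P ν` of helper23's `slBD_of` is (L1B) for the cells of the grid `t h`.
-/

set_option autoImplicit false

namespace Pool.MP_dd84fd_nt.BX

open Finset

theorem l1P (ν : ℝ) (h0 : 0 < ν) (h1 : ν ≤ 1 / 20) : L1P ν := by
  obtain ⟨C, hC, X0, H⟩ := l1_primes ν h0 h1
  refine ⟨C, ν / 4096, hC, by positivity, max X0 3, fun X hX h hh hhX Y P1 P2 hF hP2 hP12 hPP hY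
    α β hc => ?_⟩
  have hX0 : X0 ≤ X := (le_max_left _ _).trans hX
  have hX3 : 3 ≤ X := (le_max_right _ _).trans hX
  have hXr : (1 : ℝ) ≤ X := by exact_mod_cast (by omega : 1 ≤ X)
  have hL : 0 < Real.log X := Real.log_pos (by exact_mod_cast (by omega : 1 < X))
  have hh' : (X : ℝ) ^ (1 - ν / 1024) ≤ h :=
    (Real.rpow_le_rpow_of_exponent_le hXr (by linarith)).trans hh
  have hcell : Cells X h (X / h) α β := by
    intro t ht
    obtain ⟨a, b, c, d⟩ := hc t ht
    rw [mem_Icc] at ht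
    have h2 : h ≤ t * h := Nat.le_mul_of_pos_left h (by omega)
    refine ⟨h2.trans a, b, ?_, d⟩
    calc β t ≤ (t + 1) * h := c
      _ = t * h + h := by ring
      _ ≤ α t + h := Nat.add_le_add_right a h
  have hmain := H X hX0 Y pv P1 P2 hF hP2 hP12 hPP hY h (X / h) α β hh' hhX hcell
  refine hmain.trans ?_
  have hT : Real.sqrt ((X / h : ℕ) : ℝ) * h ≤ Real.sqrt ((X : ℝ) * h) := by
    have h3 : ((X / h : ℕ) : ℝ) ≤ (X : ℝ) / h := Nat.cast_div_le
    have h4 : (0 : ℝ) ≤ h := Nat.cast_nonneg _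
    have h5 : (h : ℝ) = Real.sqrt ((h : ℝ) * h) := (Real.sqrt_mul_self h4).symm
    calc Real.sqrt ((X / h : ℕ) : ℝ) * h ≤ Real.sqrt ((X : ℝ) / h) * h :=
          mul_le_mul_of_nonneg_right (Real.sqrt_le_sqrt h3) h4
      _ = Real.sqrt ((X : ℝ) / h) * Real.sqrt ((h : ℝ) * h) := by rw [← h5]
      _ = Real.sqrt ((X : ℝ) / h * (h * h)) := (Real.sqrt_mul (by positivity) _).symm
      _ ≤ Real.sqrt ((X : ℝ) * h) := by
          refine Real.sqrt_le_sqrt (le_of_eq ?_)
          have h6 : (h : ℝ) ≠ 0 := by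
            have : (0 : ℝ) < (X : ℝ) ^ (1 - ν / 1024) := by positivity
            linarith
          field_simp
  exact div_le_div_of_nonneg_right (mul_le_mul_of_nonneg_left hT hC.le) hL.le

theorem slBD_all : SlBD := slBD l1P

end Pool.MP_dd84fd_nt.BX
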