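import Pool.Agent.Lib.MP_dd84fd_nt.BX.CDefs

/-!
# BX/CSt0: definitions for the sieve input (*)
-/

set_option autoImplicit false

namespace Pool.MP_dd84fd_nt.BX

open Finset

/-- the factor of block `j` of the weight `SS` -/
noncomputable def Sb (z : ℝ) (j n : ℕ) : ℝ :=
  fr (blk z j) (fun p => if p ∣ n then 1 else 0) (2 * (32 + j))

/-- its mean value -/
noncomputable def sgm (z : ℝ) (j : ℕ) : ℝ := fr (blk z j) (fun p => 1 / (p : ℝ)) (2 * (32 + j))

open Classical in
/-- sets `T` of primes `< z` with `T ∩ P_j = ∅` or `|T ∩ P_j| ≥ 1 + j/32` for every block -/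
noncomputable def TTs (z : ℝ) : Finset (Finset ℕ) :=
  ((range (JJ z)).biUnion (blk z)).powerset.filter (fun T =>
    ∀ j ∈ range (JJ z), T ∩ blk z j = ∅ ∨ 1 + (j : ℝ) / 32 ≤ ((T ∩ blk z j).card : ℝ))

/-- the blocks without elements of `T` -/
noncomputable def sT (z : ℝ) (T : Finset ℕ) : Finset ℕ :=
  (range (JJ z)).filter (fun j => T ∩ blk z j = ∅)

theorem SS_eq_prod (z : ℝ) (n : ℕ) : SS z n = ∏ j ∈ range (JJ z), Sb z j n := rfl

end Pool.MP_dd84fd_nt.BX
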