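import Pool.Agent.Lib.MP_dd84fd_nt.BX.CSt0

/-!
# BX/CSt1: pointwise majorisation of `S(n) 4^ω(n)`

`K = 8^64`, `P_j = blk z j`, `z_j = bz z j`: `z_0 = z` and `z_{j+1}^2 = z_j`
(`z^((1/2)^(j+1))`, `Real.rpow_natCast`/`rpow_mul`).

If `SS z n = 0` the left side is `0` and the right side is `≥ 0` (`Sb ≥ 0` by `bonf`, as in
`Sv_nonneg`).  Otherwise, with `w_j = om z j n`, by `Sv_pattern` every `w_j` (`j < JJ z`) is `0` or
`≥ 2 (32 + j) + 1 ≥ 65`.  For every `j < JJ z` choose `T_j ⊆ {p ∈ P_j : p ∣ n}` with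
`|T_j| = (w_j + 63) / 64` (`Finset.exists_subset_card_eq`), `T = ⋃_{j<J} T_j`; `T ∩ P_j = T_j`
(`blk_disj`).  Then `T` is one of the sets of the right side and its term is `≥` the left side:
* `T_j = ∅` iff `w_j = 0`; `64 |T_j| ≥ w_j ≥ 65 + 2 j`, so `|T_j| ≥ 1 + j/32`; so `T ∈ TTs z`;
* `∏ T ∣ n` (`prod_dvd_iff`);
* `64 |T_j| ≤ w_j + 63 ≤ 2 w_j`; the primes of `P_j` are `< z_j` and `≥ z_{j+1}`, so
  `(∏ T_j)^64 ≤ z_j^(64|T_j|) ≤ z_j^(2 w_j) = z_{j+1}^(4 w_j) ≤ (∏_{p ∈ P_j, p ∣ n} p)^4`;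
  the product over `j` of `∏_{p ∈ P_j, p ∣ n} p` divides `n`: `(∏ T)^64 ≤ n^4`;
* `Sb z j n = 1` for `j ∈ sT z T` (no prime of `P_j` divides `n`; `fr_ind`, `fr_empty`);
* `omg n = #{p ∣ n, p ≥ z} + ∑_{j<J} w_j` (`blk_union`: the blocks are the primes `< z`), and
  `#{p ∣ n, p ≥ z} ≤ u` because `z^# ≤ ∏ p ≤ n ≤ X ≤ z^u`; `|Sb z j n| ≤ 2^w_j` (`fr_ind`,
  `fr_one_abs`), so `Sb z j n * 4^w_j ≤ 8^w_j ≤ (8^64)^|T_j|`.
-/

set_option autoImplicit false

namespace Pool.MP_dd84fd_nt.BX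

open Finset

theorem Sb_nonneg (z : ℝ) (j n : ℕ) : 0 ≤ Sb z j n := by
  unfold Sb
  refine le_trans ?_ (bonf (blk z j) (fun p => if p ∣ n then 1 else 0) ?_ ?_ (32 + j)).1
  · refine prod_nonneg fun p _ => ?_
    split_ifs <;> norm_num
  · intro p _
    split_ifs <;> norm_num
  · intro p _
    split_ifs <;> norm_num

private theorem CSt1_bz {z : ℝ} (hz : 1 ≤ z) (j : ℕ) : bz z (j + 1) ^ 2 = bz z j := by
  unfold bz
  rw [← Real.rpow_natCast, ← Real.rpow_mul (by linarith)]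
  congr 1
  rw [pow_succ]
  push_cast
  ring

private theorem CSt1_blk {z : ℝ} (hz : 1 ≤ z) {j w : ℕ} {A B : Finset ℕ} (hA : A ⊆ blk z j)
    (hB : B ⊆ blk z j) (hw : B.card = w) (h : 128 * A.card ≤ 4 * w) :
    (∏ p ∈ A, (p : ℝ)) ^ 64 ≤ (∏ p ∈ B, (p : ℝ)) ^ 4 := by
  have hy : 1 ≤ bz z (j + 1) := one_le_bz hz (j + 1)
  have h1 : ∏ p ∈ A, (p : ℝ) ≤ bz z (j + 1) ^ (2 * A.card) := by
    rw [pow_mul, CSt1_bz hz, ← prod_const]
    exact prod_le_prod (fun p _ => Nat.cast_nonneg _) fun p hp => (mem_blk.1 (hA hp)).2.2.le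
  have h2 : bz z (j + 1) ^ w ≤ ∏ p ∈ B, (p : ℝ) := by
    rw [← hw, ← prod_const]
    exact prod_le_prod (fun p _ => by linarith) fun p hp => (mem_blk.1 (hB hp)).2.1
  calc (∏ p ∈ A, (p : ℝ)) ^ 64 ≤ (bz z (j + 1) ^ (2 * A.card)) ^ 64 :=
        pow_le_pow_left₀ (prod_nonneg fun p _ => Nat.cast_nonneg _) h1 64
    _ = bz z (j + 1) ^ (128 * A.card) := by rw [← pow_mul]; congr 1; ring
    _ ≤ bz z (j + 1) ^ (4 * w) := pow_le_pow_right₀ hy h
    _ = (bz z (j + 1) ^ w) ^ 4 := by rw [← pow_mul]; congr 1; ring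
    _ ≤ (∏ p ∈ B, (p : ℝ)) ^ 4 := pow_le_pow_left₀ (by positivity) h2 4

theorem st_pt (u : ℝ) {z : ℝ} (hz : 2 ≤ z) {X n : ℕ} (hX : (X : ℝ) ≤ z ^ u) (hn : 1 ≤ n)
    (hnX : n ≤ X) :
    SS z n * (4 : ℝ) ^ omg n ≤ (4 : ℝ) ^ u *
      ∑ T ∈ (TTs z).filter (fun T => (∏ p ∈ T, p) ^ 64 ≤ n ^ 4 ∧ (∏ p ∈ T, p) ∣ n),
        ((8 : ℝ) ^ 64) ^ T.card * ∏ j ∈ sT z T, Sb z j n := by
  classical
  have hz1 : (1 : ℝ) ≤ z := by linarith
  have hn0 : n ≠ 0 := by omega
  have hterm : ∀ T : Finset ℕ, 0 ≤ ((8 : ℝ) ^ 64) ^ T.card * ∏ j ∈ sT z T, Sb z j n := fun T =>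
    mul_nonneg (by positivity) (prod_nonneg fun j _ => Sb_nonneg z j n)
  by_cases hS : SS z n = 0
  · rw [hS, zero_mul]
    exact mul_nonneg (by positivity) (sum_nonneg fun T _ => hterm T)
  -- the pattern
  have hpat : ∀ j < JJ z, om z j n = 0 ∨ 2 * (32 + j) < om z j n := fun j hj => Sv_pattern hS hj
  set B : ℕ → Finset ℕ := fun j => (blk z j).filter (fun p => p ∣ n) with hBdef
  have hBc : ∀ j, (B j).card = om z j n := fun j => rfl
  have hex : ∀ j, ∃ A ⊆ B j, A.card = (om z j n + 63) / 64 := by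
    intro j
    refine exists_subset_card_eq ?_
    rw [hBc]
    omega
  choose A hAB hAc using hex
  have hAb : ∀ j, A j ⊆ blk z j := fun j => (hAB j).trans (filter_subset _ _)
  have hBb : ∀ j, B j ⊆ blk z j := fun j => filter_subset _ _
  set T : Finset ℕ := (range (JJ z)).biUnion A with hTdef
  have hTj : ∀ j ∈ range (JJ z), T ∩ blk z j = A j := by
    intro j hj
    ext p
    rw [mem_inter, hTdef, mem_biUnion]
    constructor
    · rintro ⟨⟨i, -, hi⟩, hp⟩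
      by_cases hij : i = j
      · rw [← hij]; exact hi
      · exact absurd hp (disjoint_left.1 (blk_disj hz1 hij) (hAb i hi))
    · intro hp
      exact ⟨⟨j, hj, hp⟩, hAb j hp⟩
  have hTs : T ⊆ (range (JJ z)).biUnion (blk z) := by
    intro p hp
    rw [hTdef, mem_biUnion] at hp
    obtain ⟨j, hj, hp⟩ := hp
    exact mem_biUnion.2 ⟨j, hj, hAb j hp⟩
  have hTp : ∀ p ∈ T, p.Prime := by
    intro p hp
    obtain ⟨j, -, hj⟩ := mem_biUnion.1 (hTs hp)
    exact (mem_blk.1 hj).1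
  have hTT : T ∈ TTs z := by
    unfold TTs
    rw [mem_filter, mem_powerset]
    refine ⟨hTs, fun j hj => ?_⟩
    rw [hTj j hj]
    rcases hpat j (mem_range.1 hj) with h0 | h0
    · left
      rw [← card_eq_zero, hAc, h0]
    · right
      have h1 : 64 * (A j).card ≥ 65 + 2 * j := by
        rw [hAc]
        omega
      have h2 : (64 : ℝ) * (A j).card ≥ 65 + 2 * j := by exact_mod_cast h1
      linarith
  have hTdvd : (∏ p ∈ T, p) ∣ n := by
    rw [prod_dvd_iff T hTp]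
    intro p hp
    rw [hTdef, mem_biUnion] at hp
    obtain ⟨j, -, hp⟩ := hp
    exact (mem_filter.1 (hAB j hp)).2
  -- disjointness
  have hdA : ∀ i ∈ range (JJ z), ∀ j ∈ range (JJ z), i ≠ j → Disjoint (A i) (A j) :=
    fun i _ j _ hij => disjoint_of_subset_left (hAb i)
      (disjoint_of_subset_right (hAb j) (blk_disj hz1 hij))
  have hdB : ∀ i ∈ range (JJ z), ∀ j ∈ range (JJ z), i ≠ j → Disjoint (B i) (B j) :=
    fun i _ j _ hij => disjoint_of_subset_left (hBb i)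
      (disjoint_of_subset_right (hBb j) (blk_disj hz1 hij))
  set TB : Finset ℕ := (range (JJ z)).biUnion B with hTB
  have hTBp : ∀ p ∈ TB, p.Prime := by
    intro p hp
    rw [hTB, mem_biUnion] at hp
    obtain ⟨j, -, hp⟩ := hp
    exact (mem_blk.1 (hBb j hp)).1
  have hTBdvd : (∏ p ∈ TB, p) ∣ n := by
    rw [prod_dvd_iff TB hTBp]
    intro p hp
    rw [hTB, mem_biUnion] at hp
    obtain ⟨j, -, hp⟩ := hp
    exact (mem_filter.1 hp).2
  have hwA : ∀ j ∈ range (JJ z), 128 * (A j).card ≤ 4 * om z j n := by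
    intro j hj
    rw [hAc]
    rcases hpat j (mem_range.1 hj) with h0 | h0
    · rw [h0]
    · omega
  have hTn : (∏ p ∈ T, p) ^ 64 ≤ n ^ 4 := by
    have h1 : (∏ p ∈ T, (p : ℝ)) ^ 64 ≤ (∏ p ∈ TB, (p : ℝ)) ^ 4 := by
      rw [hTdef, hTB, prod_biUnion (by
          intro i hi j hj hij; exact hdA i (mem_coe.1 hi) j (mem_coe.1 hj) hij),
        prod_biUnion (by
          intro i hi j hj hij; exact hdB i (mem_coe.1 hi) j (mem_coe.1 hj) hij),
        ← prod_pow, ← prod_pow]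
      refine prod_le_prod (fun j _ => by positivity) fun j hj => ?_
      exact CSt1_blk hz1 (hAb j) (hBb j) (hBc j) (hwA j hj)
    have h2 : (∏ p ∈ TB, (p : ℝ)) ≤ n := by
      have := Nat.le_of_dvd (by omega) hTBdvd
      rw [← Nat.cast_prod]
      exact Nat.cast_le.2 this
    have h3 : (∏ p ∈ T, (p : ℝ)) ^ 64 ≤ (n : ℝ) ^ 4 :=
      h1.trans (pow_le_pow_left₀ (prod_nonneg fun p _ => Nat.cast_nonneg _) h2 4)
    rw [← Nat.cast_prod, ← Nat.cast_pow, ← Nat.cast_pow] at h3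
    exact Nat.cast_le.1 h3
  have hmem : T ∈ (TTs z).filter (fun T => (∏ p ∈ T, p) ^ 64 ≤ n ^ 4 ∧ (∏ p ∈ T, p) ∣ n) :=
    mem_filter.2 ⟨hTT, hTn, hTdvd⟩
  refine le_trans ?_ (mul_le_mul_of_nonneg_left
    (single_le_sum (f := fun T => ((8 : ℝ) ^ 64) ^ T.card * ∏ j ∈ sT z T, Sb z j n)
      (fun T _ => hterm T) hmem) (by positivity))
  -- the product over `sT` is `1`
  have hone : ∏ j ∈ sT z T, Sb z j n = 1 := by
    refine prod_eq_one fun j hj => ?_
    unfold sT at hj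
    rw [mem_filter] at hj
    obtain ⟨hj, hj0⟩ := hj
    rw [hTj j hj] at hj0
    have h1 : (om z j n + 63) / 64 = 0 := by rw [← hAc, hj0, card_empty]
    have h2 : om z j n = 0 := by omega
    have h3 : (blk z j).filter (fun p => p ∣ n) = ∅ := card_eq_zero.1 h2
    unfold Sb
    rw [fr_ind, h3, fr_empty]
  simp only [hone, mul_one]
  -- the large primes
  set LG : Finset ℕ := n.primeFactors.filter (fun p => z ≤ (p : ℝ)) with hLG
  have hcard : omg n ≤ LG.card + ∑ j ∈ range (JJ z), om z j n := by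
    have h1 : ∑ j ∈ range (JJ z), om z j n = TB.card := by
      rw [hTB, card_biUnion hdB]
      exact sum_congr rfl fun j _ => (hBc j).symm
    rw [h1]
    unfold omg
    refine (card_le_card ?_).trans (card_union_le _ _)
    intro p hp
    have hpp := Nat.prime_of_mem_primeFactors hp
    have hpn := Nat.dvd_of_mem_primeFactors hp
    rw [mem_union]
    by_cases hpz : z ≤ (p : ℝ)
    · left
      exact mem_filter.2 ⟨hp, hpz⟩
    · right
      have h2 : p ∈ (range (JJ z)).biUnion (blk z) := by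
        rw [blk_union hz, Pool.MP_67663b_nt.Odd.mem_pr]
        exact ⟨hpp, Nat.cast_nonneg _, lt_of_not_ge hpz⟩
      obtain ⟨j, hj, hpj⟩ := mem_biUnion.1 h2
      rw [hTB, mem_biUnion]
      exact ⟨j, hj, mem_filter.2 ⟨hpj, hpn⟩⟩
  have hLGu : (LG.card : ℝ) ≤ u := by
    have h1 : z ^ (LG.card : ℝ) ≤ z ^ u := by
      rw [Real.rpow_natCast, ← prod_const]
      calc ∏ _p ∈ LG, z ≤ ∏ p ∈ LG, (p : ℝ) :=
            prod_le_prod (fun p _ => by linarith) fun p hp => (mem_filter.1 hp).2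
        _ ≤ n := by
            have h2 : (∏ p ∈ LG, p) ∣ n := by
              rw [prod_dvd_iff LG (fun p hp => Nat.prime_of_mem_primeFactors (mem_filter.1 hp).1)]
              exact fun p hp => Nat.dvd_of_mem_primeFactors (mem_filter.1 hp).1
            have := Nat.le_of_dvd (by omega) h2
            rw [← Nat.cast_prod]
            exact Nat.cast_le.2 this
        _ ≤ X := by exact_mod_cast hnX
        _ ≤ z ^ u := hX
    exact (Real.rpow_le_rpow_left_iff (by linarith)).1 h1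
  have h4 : (4 : ℝ) ^ omg n ≤ (4 : ℝ) ^ u * ∏ j ∈ range (JJ z), (4 : ℝ) ^ om z j n := by
    rw [prod_pow_eq_pow_sum]
    calc (4 : ℝ) ^ omg n ≤ (4 : ℝ) ^ (LG.card + ∑ j ∈ range (JJ z), om z j n) :=
          pow_le_pow_right₀ (by norm_num) hcard
      _ = (4 : ℝ) ^ (LG.card : ℝ) * (4 : ℝ) ^ (∑ j ∈ range (JJ z), om z j n) := by
          rw [pow_add, Real.rpow_natCast]
      _ ≤ _ := mul_le_mul_of_nonneg_right
          (Real.rpow_le_rpow_of_exponent_le (by norm_num) hLGu) (by positivity)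
  have hS0 : 0 ≤ SS z n := Sv_nonneg 32 z n
  have h5 : SS z n * ∏ j ∈ range (JJ z), (4 : ℝ) ^ om z j n ≤ ((8 : ℝ) ^ 64) ^ T.card := by
    rw [SS_eq_prod, ← prod_mul_distrib, hTdef, card_biUnion hdA, ← prod_pow_eq_pow_sum]
    refine prod_le_prod (fun j _ => mul_nonneg (Sb_nonneg z j n) (by positivity)) fun j _ => ?_
    have h6 : Sb z j n ≤ 2 ^ om z j n := by
      unfold Sb om
      rw [fr_ind]
      exact (le_abs_self _).trans (fr_one_abs _ _)
    calc Sb z j n * 4 ^ om z j n ≤ 2 ^ om z j n * 4 ^ om z j n :=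
          mul_le_mul_of_nonneg_right h6 (by positivity)
      _ = 8 ^ om z j n := by rw [← mul_pow]; norm_num
      _ ≤ 8 ^ (64 * (A j).card) := by
          refine pow_le_pow_right₀ (by norm_num) ?_
          rw [hAc]
          omega
      _ = (8 ^ 64) ^ (A j).card := by rw [pow_mul]
  calc SS z n * (4 : ℝ) ^ omg n
      ≤ SS z n * ((4 : ℝ) ^ u * ∏ j ∈ range (JJ z), (4 : ℝ) ^ om z j n) :=
        mul_le_mul_of_nonneg_left h4 hS0
    _ = (4 : ℝ) ^ u * (SS z n * ∏ j ∈ range (JJ z), (4 : ℝ) ^ om z j n) := by ring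
    _ ≤ (4 : ℝ) ^ u * ((8 : ℝ) ^ 64) ^ T.card := mul_le_mul_of_nonneg_left h5 (by positivity)

end Pool.MP_dd84fd_nt.BX
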