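import Pool.Agent.Lib.MP_dd84fd_nt.BX.CNt

/-!
# BX/CWin: the window lemma (W), for arbitrary coefficients

`win_err`.  Let `l ∈ gI U V δ r`, `y = yg U δ r`, so `y < l ≤ (1+δ) y` and `l ≤ V`.  As
`⌊α/l⌋ ≤ ⌊α/y⌋`, `⌊β/l⌋ ≤ ⌊β/y⌋`, `α ≤ β`,
`∑_{(α/l, β/l]} - ∑_{(⌊α/y⌋, ⌊β/y⌋]} = ∑_{(α/l, ⌊α/y⌋]} - ∑_{(β/l, ⌊β/y⌋]}` and the two last
intervals have at most `β/y - β/l + 1 ≤ δ β/l + 1 ≤ δ X/l + 1` elements
(`1/y - 1/l ≤ (1+δ)/l - 1/l`).  So the error is `≤ ∑_{l ∈ (U,V]} Ga * 2 Gb (δ X/l + 1) ≤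
2 Ga Gb (δ X log X + V)` (`∑_{U<l≤V} 1/l ≤ log (V/U) ≤ log X`).  The intervals `gI U V δ r`,
`r < R`, are a partition of `(U, V]` because `V ≤ yg U δ R`.

`win_main`: Minkowski (`nt_sum`, `nt_mul`), then Cauchy (`sum_mul_nt`) for every `r`:
`≤ ∑_{r<R} (Ca δ y_r) (√T Cb h / y_r) = R δ Ca Cb √T h`.

`exists_grid`: `R` minimal with `V ≤ U (1+δ)^R`; `(R-1) log(1+δ) < log(V/U)`, `log(1+δ) ≥ δ/2`.
-/

set_option autoImplicit false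

namespace Pool.MP_dd84fd_nt.BX

open Finset

private theorem cw_log (δ : ℝ) (h0 : 0 < δ) (h1 : δ ≤ 1) : δ / 2 ≤ Real.log (1 + δ) := by
  have h2 := Real.one_sub_inv_le_log_of_pos (show 0 < 1 + δ by linarith)
  have h3 : δ / 2 ≤ 1 - (1 + δ)⁻¹ := by
    have h4 : (1 + δ)⁻¹ ≤ 1 - δ / 2 := by
      rw [inv_le_iff_one_le_mul₀ (by linarith)]
      nlinarith
    linarith
  linarith

theorem exists_grid (U V : ℕ) (δ : ℝ) (hU : 1 ≤ U) (hUV : U ≤ V) (h0 : 0 < δ) (h1 : δ ≤ 1) :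
    ∃ R : ℕ, (V : ℝ) ≤ yg U δ R ∧ (∀ r < R, yg U δ r < V) ∧ R * δ ≤ 2 * Real.log V + 1 := by
  classical
  have hU' : (1 : ℝ) ≤ U := by exact_mod_cast hU
  have hV' : (1 : ℝ) ≤ V := by exact_mod_cast hU.trans hUV
  have hex : ∃ R : ℕ, (V : ℝ) ≤ yg U δ R := by
    obtain ⟨R, hR⟩ := pow_unbounded_of_one_lt (V : ℝ) (show 1 < 1 + δ by linarith)
    refine ⟨R, ?_⟩
    unfold yg
    have : (1 + δ) ^ R ≤ U * (1 + δ) ^ R := le_mul_of_one_le_left (by positivity) hU'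
    linarith
  refine ⟨Nat.find hex, Nat.find_spec hex, ?_, ?_⟩
  · intro r hr
    have := Nat.find_min hex hr
    exact not_le.1 this
  · have hlogV : 0 ≤ Real.log V := Real.log_nonneg hV'
    rcases Nat.eq_zero_or_pos (Nat.find hex) with h | h
    · rw [h]
      push_cast
      linarith
    · obtain ⟨R, hR⟩ : ∃ R, Nat.find hex = R + 1 := ⟨Nat.find hex - 1, by omega⟩
      have h2 : yg U δ R < V := not_le.1 (Nat.find_min hex (by omega))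
      rw [hR]
      have h3 : (1 + δ) ^ R ≤ yg U δ R := by
        unfold yg
        exact le_mul_of_one_le_left (by positivity) hU'
      have h4 : (R : ℝ) * Real.log (1 + δ) ≤ Real.log V := by
        rw [← Real.log_pow]
        exact Real.log_le_log (by positivity) (h3.trans h2.le)
      have h5 := cw_log δ h0 h1
      have h6 : (R : ℝ) * (δ / 2) ≤ R * Real.log (1 + δ) :=
        mul_le_mul_of_nonneg_left h5 (Nat.cast_nonneg R)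
      push_cast
      linarith

private theorem yg_pos (U : ℕ) (δ : ℝ) (hU : 1 ≤ U) (h0 : 0 < δ) (r : ℕ) : 1 ≤ yg U δ r := by
  unfold yg
  have hU' : (1 : ℝ) ≤ U := by exact_mod_cast hU
  have h1 : (1 : ℝ) ≤ (1 + δ) ^ r := one_le_pow₀ (by linarith)
  nlinarith

private theorem yg_succ (U : ℕ) (δ : ℝ) (r : ℕ) : yg U δ (r + 1) = (1 + δ) * yg U δ r := by
  unfold yg
  rw [pow_succ]
  ring

private theorem yg_mono (U : ℕ) (δ : ℝ) (hU : 1 ≤ U) (h0 : 0 < δ) (r : ℕ) :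
    yg U δ r ≤ yg U δ (r + 1) := by
  rw [yg_succ]
  have := yg_pos U δ hU h0 r
  nlinarith

private theorem cw_mono (U V : ℕ) (δ : ℝ) (hU : 1 ≤ U) (h0 : 0 < δ) (r : ℕ) :
    min ⌊yg U δ r⌋₊ V ≤ min ⌊yg U δ (r + 1)⌋₊ V :=
  min_le_min_right V (Nat.floor_mono (yg_mono U δ hU h0 r))

private theorem cw_mono' (U V : ℕ) (δ : ℝ) (hU : 1 ≤ U) (h0 : 0 < δ) (r : ℕ) :
    min ⌊yg U δ 0⌋₊ V ≤ min ⌊yg U δ r⌋₊ V := by
  induction r with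
  | zero => exact le_rfl
  | succ r ih => exact ih.trans (cw_mono U V δ hU h0 r)

private theorem cw_grid {M : Type*} [AddCommMonoid M] (U V : ℕ) (δ : ℝ) (hU : 1 ≤ U) (h0 : 0 < δ)
    (F : ℕ → M) (R : ℕ) :
    ∑ r ∈ range R, ∑ l ∈ gI U V δ r, F l =
      ∑ l ∈ Ioc (min ⌊yg U δ 0⌋₊ V) (min ⌊yg U δ R⌋₊ V), F l := by
  induction R with
  | zero => simp
  | succ R ih =>
    rw [sum_range_succ, ih, gI]
    exact Finset.sum_Ioc_consecutive F (cw_mono' U V δ hU h0 R) (cw_mono U V δ hU h0 R)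

private theorem cw_grid' {M : Type*} [AddCommMonoid M] (U V R : ℕ) (δ : ℝ) (hU : 1 ≤ U)
    (hUV : U ≤ V) (h0 : 0 < δ) (hR : (V : ℝ) ≤ yg U δ R) (F : ℕ → M) :
    ∑ l ∈ Ioc U V, F l = ∑ r ∈ range R, ∑ l ∈ gI U V δ r, F l := by
  rw [cw_grid U V δ hU h0 F R]
  have h1 : min ⌊yg U δ 0⌋₊ V = U := by
    have : yg U δ 0 = U := by unfold yg; simp
    rw [this, Nat.floor_natCast]
    exact min_eq_left hUV
  have h2 : min ⌊yg U δ R⌋₊ V = V := min_eq_right (Nat.le_floor hR)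
  rw [h1, h2]

/-- `(U, V]` is the disjoint union of the intervals of the grid -/
theorem grid_sum (U V R : ℕ) (δ : ℝ) (hU : 1 ≤ U) (hUV : U ≤ V) (h0 : 0 < δ)
    (hR : (V : ℝ) ≤ yg U δ R) (F : ℕ → ℂ) :
    ∑ l ∈ Ioc U V, F l = ∑ r ∈ range R, ∑ l ∈ gI U V δ r, F l :=
  cw_grid' U V R δ hU hUV h0 hR F

/-- elements of a grid interval -/
private theorem gI_mem (U V : ℕ) (δ : ℝ) (r l : ℕ) (hU : 1 ≤ U) (h0 : 0 < δ) (h : l ∈ gI U V δ r) :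
    l ≤ V ∧ yg U δ r < l ∧ (l : ℝ) ≤ (1 + δ) * yg U δ r := by
  rw [gI, mem_Ioc] at h
  obtain ⟨h1, h2⟩ := h
  have h3 : l ≤ V := h2.trans (min_le_right _ _)
  have h4 : l ≤ ⌊yg U δ (r + 1)⌋₊ := h2.trans (min_le_left _ _)
  refine ⟨h3, ?_, ?_⟩
  · have h5 : ⌊yg U δ r⌋₊ < l := by
      rcases min_lt_iff.1 h1 with h6 | h6
      · exact h6
      · omega
    exact (Nat.floor_lt (le_trans zero_le_one (yg_pos U δ hU h0 r))).1 h5
  · rw [← yg_succ]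
    exact (Nat.le_floor_iff (le_trans zero_le_one (yg_pos U δ hU h0 (r + 1)))).1 h4

private theorem cw_norm_Ioc (b f : ℕ → ℂ) (X : ℕ) (Gb : ℝ) (hf : ∀ n, ‖f n‖ ≤ 1)
    (hb : ∀ k ≤ X, ‖b k‖ ≤ Gb) (A B : ℕ) (hB : B ≤ X) :
    ‖∑ k ∈ Ioc A B, b k * f k‖ ≤ Gb * ((B - A : ℕ) : ℝ) := by
  refine (norm_sum_le _ _).trans ?_
  have h1 : ∀ k ∈ Ioc A B, ‖b k * f k‖ ≤ Gb := by
    intro k hk
    rw [norm_mul]
    have h2 := hb k ((mem_Ioc.1 hk).2.trans hB)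
    have h3 := hf k
    have h4 := norm_nonneg (b k)
    calc ‖b k‖ * ‖f k‖ ≤ ‖b k‖ * 1 := mul_le_mul_of_nonneg_left h3 h4
      _ ≤ Gb := by rw [mul_one]; exact h2
  refine (sum_le_card_nsmul _ _ _ h1).trans ?_
  rw [Nat.card_Ioc, nsmul_eq_mul, mul_comm]

/-- number of integers between `⌊α/l⌋` and `⌊α/y⌋` -/
private theorem cw_cnt (α X l : ℕ) (y δ : ℝ) (hy : 1 ≤ y) (h1 : y < l) (h2 : (l : ℝ) ≤ (1 + δ) * y)
    (h0 : 0 < δ) (hα : α ≤ X) :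
    α / l ≤ ⌊(α : ℝ) / y⌋₊ ∧ ⌊(α : ℝ) / y⌋₊ ≤ X ∧
      (((⌊(α : ℝ) / y⌋₊ - α / l : ℕ)) : ℝ) ≤ δ * X / l + 1 := by
  have hy0 : 0 < y := by linarith
  have hl : (0 : ℝ) < l := by linarith
  have hαX : (α : ℝ) ≤ X := by exact_mod_cast hα
  have e1 : ((α / l : ℕ) : ℝ) ≤ (α : ℝ) / l := Nat.cast_div_le
  have e2 : (α : ℝ) / l ≤ (α : ℝ) / y := div_le_div_of_nonneg_left (Nat.cast_nonneg α) hy0 h1.le
  have h3 : α / l ≤ ⌊(α : ℝ) / y⌋₊ := Nat.le_floor (e1.trans e2)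
  refine ⟨h3, ?_, ?_⟩
  · have h4 : (⌊(α : ℝ) / y⌋₊ : ℝ) ≤ X := by
      refine (Nat.floor_le (by positivity)).trans ?_
      refine (div_le_self (Nat.cast_nonneg α) hy).trans hαX
    exact_mod_cast h4
  · rw [Nat.cast_sub h3]
    have h5 : (⌊(α : ℝ) / y⌋₊ : ℝ) ≤ (α : ℝ) / y := Nat.floor_le (by positivity)
    have h6 : (α : ℝ) / l - 1 ≤ ((α / l : ℕ) : ℝ) := by
      have h7 : α < l * (α / l + 1) := by
        have := Nat.div_add_mod α l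
        have hm := Nat.mod_lt α (show 0 < l by exact_mod_cast hl)
        rw [mul_add, mul_one]
        omega
      have h8 : (α : ℝ) < l * ((α / l : ℕ) + 1 : ℝ) := by exact_mod_cast h7
      have h9 : (α : ℝ) / l < (α / l : ℕ) + 1 := by
        rw [div_lt_iff₀ hl, mul_comm]
        exact h8
      linarith
    have h10 : (α : ℝ) / y ≤ (1 + δ) * (α : ℝ) / l := by
      rw [div_le_div_iff₀ hy0 hl]
      nlinarith [Nat.cast_nonneg (α := ℝ) α]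
    have h11 : (1 + δ) * (α : ℝ) / l = (α : ℝ) / l + δ * α / l := by ring
    have h12 : δ * α / l ≤ δ * X / l := by
      apply div_le_div_of_nonneg_right _ hl.le
      exact mul_le_mul_of_nonneg_left hαX h0.le
    linarith

private theorem cw_diff (b f : ℕ → ℂ) (X l α β : ℕ) (Gb y δ : ℝ) (hf : ∀ n, ‖f n‖ ≤ 1)
    (hb : ∀ k ≤ X, ‖b k‖ ≤ Gb) (hy : 1 ≤ y) (h1 : y < l) (h2 : (l : ℝ) ≤ (1 + δ) * y)
    (h0 : 0 < δ) (hGb : 0 ≤ Gb) (hαβ : α ≤ β) (hβ : β ≤ X) :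
    ‖∑ k ∈ Ioc (α / l) (β / l), b k * f k -
      ∑ k ∈ Ioc ⌊(α : ℝ) / y⌋₊ ⌊(β : ℝ) / y⌋₊, b k * f k‖ ≤ 2 * Gb * (δ * X / l + 1) := by
  obtain ⟨a1, a2, a3⟩ := cw_cnt α X l y δ hy h1 h2 h0 (hαβ.trans hβ)
  obtain ⟨b1, b2, b3⟩ := cw_cnt β X l y δ hy h1 h2 h0 hβ
  have hy0 : 0 < y := by linarith
  have c1 : α / l ≤ β / l := Nat.div_le_div_right hαβ
  have c2 : ⌊(α : ℝ) / y⌋₊ ≤ ⌊(β : ℝ) / y⌋₊ := by
    apply Nat.floor_mono
    apply div_le_div_of_nonneg_right _ hy0.le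
    exact_mod_cast hαβ
  have d1 := Finset.sum_Ioc_consecutive (fun k => b k * f k) c1 b1
  have d2 := Finset.sum_Ioc_consecutive (fun k => b k * f k) a1 c2
  have e : ∑ k ∈ Ioc (α / l) (β / l), b k * f k -
      ∑ k ∈ Ioc ⌊(α : ℝ) / y⌋₊ ⌊(β : ℝ) / y⌋₊, b k * f k =
      ∑ k ∈ Ioc (α / l) ⌊(α : ℝ) / y⌋₊, b k * f k - ∑ k ∈ Ioc (β / l) ⌊(β : ℝ) / y⌋₊, b k * f k := by
    linear_combination d1 - d2
  rw [e]
  refine (norm_sub_le _ _).trans ?_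
  have n1 := cw_norm_Ioc b f X Gb hf hb (α / l) _ a2
  have n2 := cw_norm_Ioc b f X Gb hf hb (β / l) _ b2
  have n3 := mul_le_mul_of_nonneg_left a3 hGb
  have n4 := mul_le_mul_of_nonneg_left b3 hGb
  linarith

private theorem cw_harm (U V : ℕ) (hU : 1 ≤ U) (hUV : U ≤ V) :
    ∑ l ∈ Ioc U V, (1 : ℝ) / l ≤ Real.log V - Real.log U := by
  induction V, hUV using Nat.le_induction with
  | base => simp
  | succ V hV ih =>
    rw [Finset.sum_Ioc_succ_top hV]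
    have hV0 : (0 : ℝ) < V := by
      have : 0 < V := by omega
      exact_mod_cast this
    have h1 := Real.one_sub_inv_le_log_of_pos (show 0 < ((V : ℝ) + 1) / V by positivity)
    rw [Real.log_div (by positivity) hV0.ne'] at h1
    have h2 : 1 - (((V : ℝ) + 1) / V)⁻¹ = 1 / ((V + 1 : ℕ) : ℝ) := by
      push_cast
      field_simp
      ring
    rw [h2] at h1
    push_cast at h1 ⊢
    linarith

theorem win_err (a b : ℕ → ℂ) (X U V R : ℕ) (δ Ga Gb : ℝ) (f : ℕ → ℂ) (α β : ℕ)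
    (hf : ∀ n, ‖f n‖ ≤ 1) (hU : 1 ≤ U) (hUV : U ≤ V) (hVX : V ≤ X) (h0 : 0 < δ) (h1 : δ ≤ 1)
    (hGa : 0 ≤ Ga) (hGb : 0 ≤ Gb) (ha : ∀ l ∈ Ioc U V, ‖a l‖ ≤ Ga) (hb : ∀ k ≤ X, ‖b k‖ ≤ Gb)
    (hR : (V : ℝ) ≤ yg U δ R) (hαβ : α ≤ β) (hβ : β ≤ X) :
    ‖Bil a b U V f α β - ∑ r ∈ range R, Aw a U V δ f r * Bw b U δ f α β r‖ ≤
      2 * Ga * Gb * (δ * X * Real.log X + V) := by
  have e : Bil a b U V f α β - ∑ r ∈ range R, Aw a U V δ f r * Bw b U δ f α β r =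
      ∑ r ∈ range R, ∑ l ∈ gI U V δ r, a l * f l *
        (∑ k ∈ Ioc (α / l) (β / l), b k * f k -
          ∑ k ∈ Ioc ⌊(α : ℝ) / yg U δ r⌋₊ ⌊(β : ℝ) / yg U δ r⌋₊, b k * f k) := by
    rw [Bil, grid_sum U V R δ hU hUV h0 hR, ← sum_sub_distrib]
    refine sum_congr rfl fun r _ => ?_
    rw [Aw, Bw, sum_mul, ← sum_sub_distrib]
    refine sum_congr rfl fun l _ => ?_
    rw [mul_sub]
  rw [e]
  have hsub : ∀ r ∈ range R, ∀ l ∈ gI U V δ r, l ∈ Ioc U V := by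
    intro r _ l hl
    obtain ⟨g1, g2, _⟩ := gI_mem U V δ r l hU h0 hl
    rw [mem_Ioc]
    refine ⟨?_, g1⟩
    have g4 : (U : ℝ) ≤ yg U δ r := by
      unfold yg
      have h1 : (1 : ℝ) ≤ (1 + δ) ^ r := one_le_pow₀ (by linarith)
      have : (0 : ℝ) ≤ U := Nat.cast_nonneg U
      nlinarith
    have g5 : (U : ℝ) < l := lt_of_le_of_lt g4 g2
    exact_mod_cast g5
  have hb1 : ∀ r ∈ range R, ∀ l ∈ gI U V δ r, ‖a l * f l *
        (∑ k ∈ Ioc (α / l) (β / l), b k * f k -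
          ∑ k ∈ Ioc ⌊(α : ℝ) / yg U δ r⌋₊ ⌊(β : ℝ) / yg U δ r⌋₊, b k * f k)‖ ≤
        Ga * (2 * Gb * (δ * X / l + 1)) := by
    intro r hr l hl
    obtain ⟨g1, g2, g3⟩ := gI_mem U V δ r l hU h0 hl
    have k1 := cw_diff b f X l α β Gb (yg U δ r) δ hf hb (yg_pos U δ hU h0 r) g2 g3 h0 hGb hαβ hβ
    rw [norm_mul, norm_mul]
    have k2 : ‖a l‖ * ‖f l‖ ≤ Ga := by
      calc ‖a l‖ * ‖f l‖ ≤ ‖a l‖ * 1 := mul_le_mul_of_nonneg_left (hf l) (norm_nonneg _)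
        _ ≤ Ga := by rw [mul_one]; exact ha l (hsub r hr l hl)
    exact mul_le_mul k2 k1 (norm_nonneg _) hGa
  refine (norm_sum_le _ _).trans ?_
  have s1 : ∀ r ∈ range R, ‖∑ l ∈ gI U V δ r, a l * f l *
        (∑ k ∈ Ioc (α / l) (β / l), b k * f k -
          ∑ k ∈ Ioc ⌊(α : ℝ) / yg U δ r⌋₊ ⌊(β : ℝ) / yg U δ r⌋₊, b k * f k)‖ ≤
        ∑ l ∈ gI U V δ r, Ga * (2 * Gb * (δ * X / l + 1)) := fun r hr =>
    (norm_sum_le _ _).trans (sum_le_sum fun l hl => hb1 r hr l hl)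
  refine (sum_le_sum s1).trans ?_
  rw [← cw_grid' U V R δ hU hUV h0 hR (fun l => Ga * (2 * Gb * (δ * X / l + 1)))]
  have s2 : ∑ l ∈ Ioc U V, Ga * (2 * Gb * (δ * X / l + 1)) =
      2 * Ga * Gb * (δ * X * ∑ l ∈ Ioc U V, (1 : ℝ) / l + ((V - U : ℕ) : ℝ)) := by
    rw [← mul_sum, ← mul_sum, sum_add_distrib, sum_const, Nat.card_Ioc, nsmul_eq_mul, mul_one,
      mul_sum (Ioc U V) (fun l : ℕ => (1 : ℝ) / l) (δ * X)]
    have : ∀ l ∈ Ioc U V, δ * X / (l : ℝ) = δ * X * (1 / (l : ℝ)) := fun l _ => by ring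
    rw [sum_congr rfl this]
    ring
  rw [s2]
  have hX1 : (1 : ℝ) ≤ X := by
    have : 1 ≤ X := by omega
    exact_mod_cast this
  have s3 : ∑ l ∈ Ioc U V, (1 : ℝ) / l ≤ Real.log X := by
    refine (cw_harm U V hU hUV).trans ?_
    have h4 : 0 ≤ Real.log U := Real.log_nonneg (by exact_mod_cast hU)
    have h5 : Real.log V ≤ Real.log X :=
      Real.log_le_log (by exact_mod_cast (show 0 < V by omega)) (by exact_mod_cast hVX)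
    linarith
  have s4 : ((V - U : ℕ) : ℝ) ≤ V := by exact_mod_cast Nat.sub_le V U
  have s5 : δ * X * ∑ l ∈ Ioc U V, (1 : ℝ) / l ≤ δ * X * Real.log X :=
    mul_le_mul_of_nonneg_left s3 (by positivity)
  exact mul_le_mul_of_nonneg_left (by linarith) (by positivity)

theorem win_main {ι : Type} (Y : Finset ι) (f : ι → ℕ → ℂ) (a b : ℕ → ℂ) (T U V R : ℕ)
    (δ h Ca Cb : ℝ) (α β : ℕ → ℕ) (hU : 1 ≤ U) (h0 : 0 < δ) (hh : 0 ≤ h) (hCa : 0 ≤ Ca)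
    (hCb : 0 ≤ Cb)
    (hA : ∀ r < R, ∑ i ∈ Y, ‖Aw a U V δ (f i) r‖ ^ 2 ≤ (Ca * (δ * yg U δ r)) ^ 2)
    (hB : ∀ r < R, ∀ t ∈ Icc 1 T, ∑ i ∈ Y, ‖Bw b U δ (f i) (α t) (β t) r‖ ^ 2 ≤
      (Cb * (h / yg U δ r)) ^ 2) :
    ∑ i ∈ Y, nt T (fun t => ∑ r ∈ range R, Aw a U V δ (f i) r * Bw b U δ (f i) (α t) (β t) r) ≤
      R * δ * (Ca * Cb) * (Real.sqrt T * h) := by
  have s1 : ∀ i ∈ Y, nt T (fun t => ∑ r ∈ range R,
      Aw a U V δ (f i) r * Bw b U δ (f i) (α t) (β t) r) ≤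
      ∑ r ∈ range R, ‖Aw a U V δ (f i) r‖ * nt T (fun t => Bw b U δ (f i) (α t) (β t) r) := by
    intro i _
    refine (nt_sum T (range R)
      (fun r t => Aw a U V δ (f i) r * Bw b U δ (f i) (α t) (β t) r)).trans ?_
    refine sum_le_sum fun r _ => ?_
    exact (nt_mul T (Aw a U V δ (f i) r) (fun t => Bw b U δ (f i) (α t) (β t) r)).le
  refine (sum_le_sum s1).trans ?_
  rw [sum_comm]
  have s2 : ∀ r ∈ range R, ∑ i ∈ Y, ‖Aw a U V δ (f i) r‖ *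
      nt T (fun t => Bw b U δ (f i) (α t) (β t) r) ≤ δ * (Ca * Cb) * (Real.sqrt T * h) := by
    intro r hr
    have hr' := mem_range.1 hr
    have hy := yg_pos U δ hU h0 r
    have hy0 : 0 < yg U δ r := by linarith
    have k1 := sum_mul_nt Y T (fun i => Aw a U V δ (f i) r)
      (fun i t => Bw b U δ (f i) (α t) (β t) r) (Ca * (δ * yg U δ r)) (Cb * (h / yg U δ r))
      (by positivity) (by positivity) (hA r hr') (hB r hr')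
    refine k1.trans (le_of_eq ?_)
    field_simp
  refine (sum_le_card_nsmul _ _ _ s2).trans (le_of_eq ?_)
  rw [card_range, nsmul_eq_mul]
  ring

/-- the window lemma -/
theorem window {ι : Type} (Y : Finset ι) (f : ι → ℕ → ℂ) (a b : ℕ → ℂ) (X T U V R : ℕ)
    (δ h Ca Cb Ga Gb : ℝ) (α β : ℕ → ℕ) (hf : ∀ i ∈ Y, ∀ n, ‖f i n‖ ≤ 1)
    (hU : 1 ≤ U) (hUV : U ≤ V) (hVX : V ≤ X) (h0 : 0 < δ) (h1 : δ ≤ 1) (hh : 0 ≤ h)
    (hCa : 0 ≤ Ca) (hCb : 0 ≤ Cb) (hGa : 0 ≤ Ga) (hGb : 0 ≤ Gb)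
    (ha : ∀ l ∈ Ioc U V, ‖a l‖ ≤ Ga) (hb : ∀ k ≤ X, ‖b k‖ ≤ Gb) (hR : (V : ℝ) ≤ yg U δ R)
    (hc : ∀ t ∈ Icc 1 T, α t ≤ β t ∧ β t ≤ X)
    (hA : ∀ r < R, ∑ i ∈ Y, ‖Aw a U V δ (f i) r‖ ^ 2 ≤ (Ca * (δ * yg U δ r)) ^ 2)
    (hB : ∀ r < R, ∀ t ∈ Icc 1 T, ∑ i ∈ Y, ‖Bw b U δ (f i) (α t) (β t) r‖ ^ 2 ≤
      (Cb * (h / yg U δ r)) ^ 2) :
    ∑ i ∈ Y, nt T (fun t => Bil a b U V (f i) (α t) (β t)) ≤
      R * δ * (Ca * Cb) * (Real.sqrt T * h) +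
        Y.card * (Real.sqrt T * (2 * Ga * Gb * (δ * X * Real.log X + V))) := by
  have hX0 : 0 ≤ Real.log X := Real.log_natCast_nonneg X
  have hM : 0 ≤ 2 * Ga * Gb * (δ * X * Real.log X + V) := by positivity
  have s1 : ∀ i ∈ Y, nt T (fun t => Bil a b U V (f i) (α t) (β t)) ≤
      nt T (fun t => ∑ r ∈ range R, Aw a U V δ (f i) r * Bw b U δ (f i) (α t) (β t) r) +
        Real.sqrt T * (2 * Ga * Gb * (δ * X * Real.log X + V)) := by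
    intro i hi
    have k1 := nt_add T
      (fun t => ∑ r ∈ range R, Aw a U V δ (f i) r * Bw b U δ (f i) (α t) (β t) r)
      (fun t => Bil a b U V (f i) (α t) (β t) -
        ∑ r ∈ range R, Aw a U V δ (f i) r * Bw b U δ (f i) (α t) (β t) r)
    have k2 := nt_const T _ hM (fun t => Bil a b U V (f i) (α t) (β t) -
        ∑ r ∈ range R, Aw a U V δ (f i) r * Bw b U δ (f i) (α t) (β t) r) (fun t ht =>
      win_err a b X U V R δ Ga Gb (f i) (α t) (β t) (hf i hi) hU hUV hVX h0 h1 hGa hGb ha hb hR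
        (hc t ht).1 (hc t ht).2)
    have k3 := nt_congr T (fun t => Bil a b U V (f i) (α t) (β t))
      (fun t => ∑ r ∈ range R, Aw a U V δ (f i) r * Bw b U δ (f i) (α t) (β t) r +
        (Bil a b U V (f i) (α t) (β t) -
        ∑ r ∈ range R, Aw a U V δ (f i) r * Bw b U δ (f i) (α t) (β t) r))
      (fun t _ => by ring)
    rw [k3]
    exact k1.trans (by linarith)
  refine (sum_le_sum s1).trans ?_
  rw [sum_add_distrib, sum_const, nsmul_eq_mul]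
  have k4 := win_main Y f a b T U V R δ h Ca Cb α β hU h0 hh hCa hCb hA hB
  linarith

end Pool.MP_dd84fd_nt.BX
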