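import Pool.Agent.Lib.MP_dd84fd_nt.En.BT
import Pool.Agent.Lib.MP_dd84fd_nt.En.Vz
import Pool.Agent.Lib.MP_dd84fd_nt.BX.CDefs

/-!
# BX-DgA: primes in short classes, numbers whose least prime factor is in a short class,
reciprocals of the rough numbers (helper39)
-/

set_option autoImplicit false

namespace Pool.MP_dd84fd_nt.BX

open Finset Pool.MP_67663b_nt.Odd Pool.MP_dd84fd_nt.En

private theorem dg_short : ∃ C : ℝ, 0 < C ∧ ∀ α β : ℝ, 2 ≤ α → α + Real.sqrt α ≤ β → β ≤ 2 * α →
    ∑ p ∈ pr α β, 1 / (p : ℝ) ≤ C * (β - α) / (α * Real.log α) := by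
  obtain ⟨C, hC, h⟩ := prime_short
  refine ⟨2 * C, by positivity, fun α β hα hβ hβ2 => ?_⟩
  have hα0 : 0 < α := by linarith
  have hs0 := Real.sqrt_nonneg α
  have hla : 0 < Real.log α := Real.log_pos (by linarith)
  have h1 := h α hα α (β - α) le_rfl (by linarith)
  rw [show α + (β - α) = β by ring] at h1
  have h2 : Real.log β ≤ 2 * Real.log α := by
    calc Real.log β ≤ Real.log (α ^ 2) := Real.log_le_log (by linarith) (by nlinarith)
      _ = 2 * Real.log α := by rw [Real.log_pow]; norm_num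
  have h3 : ∀ p ∈ pr α β, 1 / (p : ℝ) ≤ 1 / (α * Real.log α) * Real.log (p : ℝ) := by
    intro p hp
    rw [mem_pr] at hp
    have hp0 : 0 < (p : ℝ) := by linarith [hp.2.1]
    have h4 : Real.log α ≤ Real.log p := Real.log_le_log hα0 hp.2.1
    rw [one_div_mul_eq_div, div_le_div_iff₀ hp0 (by positivity)]
    have := hp.2.1
    nlinarith [mul_le_mul this h4 hla.le hp0.le]
  calc ∑ p ∈ pr α β, 1 / (p : ℝ) ≤ ∑ p ∈ pr α β, 1 / (α * Real.log α) * Real.log (p : ℝ) :=
        sum_le_sum h3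
    _ = 1 / (α * Real.log α) * ∑ p ∈ pr α β, Real.log (p : ℝ) := by rw [mul_sum]
    _ ≤ 1 / (α * Real.log α) * (C * (β - α) * Real.log β / Real.log α) :=
        mul_le_mul_of_nonneg_left h1 (by positivity)
    _ ≤ 1 / (α * Real.log α) * (C * (β - α) * (2 * Real.log α) / Real.log α) := by
        apply mul_le_mul_of_nonneg_left _ (by positivity)
        apply div_le_div_of_nonneg_right _ hla.le
        exact mul_le_mul_of_nonneg_left h2 (mul_nonneg hC.le (by linarith))
    _ = 2 * C * (β - α) / (α * Real.log α) := by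
        field_simp

/-- reciprocals of the primes of `[α, β)`, `β ≥ α + √α` -/
theorem recip_class : ∃ C : ℝ, 0 < C ∧ ∀ α β : ℝ, 2 ≤ α → α + Real.sqrt α ≤ β →
    ∑ p ∈ pr α β, 1 / (p : ℝ) ≤ C * Real.log (β / α) / Real.log α := by
  obtain ⟨C, hC, h⟩ := dg_short
  refine ⟨3 * C, by positivity, fun α β hα hβ => ?_⟩
  have hα0 : 0 < α := by linarith
  have hs0 : 0 < Real.sqrt α := Real.sqrt_pos.2 hα0
  have hβ0 : 0 < β := by linarith
  have hla : 0 < Real.log α := Real.log_pos (by linarith)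
  have hlog : 1 - (β / α)⁻¹ ≤ Real.log (β / α) := Real.one_sub_inv_le_log_of_pos (by positivity)
  rw [inv_div] at hlog
  rcases le_or_gt β (2 * α) with hβ2 | hβ2
  · refine (h α β hα hβ hβ2).trans ?_
    rw [div_le_div_iff₀ (by positivity) hla]
    have h1 : (β - α) / (2 * α) ≤ Real.log (β / α) := by
      refine le_trans ?_ hlog
      rw [show 1 - α / β = (β - α) / β by field_simp]
      exact div_le_div_of_nonneg_left (by linarith) hβ0 hβ2
    rw [div_le_iff₀ (by positivity)] at h1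
    have h2 : 0 ≤ Real.log (β / α) := by
      refine le_trans ?_ hlog
      rw [sub_nonneg, div_le_one hβ0]; linarith
    have h3 : C * (β - α) ≤ 3 * C * Real.log (β / α) * α := by
      nlinarith [mul_le_mul_of_nonneg_left h1 hC.le, mul_nonneg (mul_nonneg hC.le h2) hα0.le]
    calc C * (β - α) * Real.log α ≤ 3 * C * Real.log (β / α) * α * Real.log α :=
          mul_le_mul_of_nonneg_right h3 hla.le
      _ = _ := by ring
  · -- dyadic pieces
    have hd : ∀ J : ℕ, ∑ p ∈ pr α ((2 : ℝ) ^ J * α), 1 / (p : ℝ) ≤ J * (C / Real.log α) := by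
      intro J
      induction J with
      | zero =>
        rw [pow_zero, one_mul]
        have : pr α α = ∅ := by
          ext p; rw [mem_pr]
          constructor
          · rintro ⟨_, h1, h2⟩; linarith
          · intro h; exact absurd h (notMem_empty p)
        rw [this, sum_empty]
        simp
      | succ J ih =>
        have h2J : (1 : ℝ) ≤ 2 ^ J := one_le_pow₀ (by norm_num)
        have hsub : pr α ((2 : ℝ) ^ (J + 1) * α) ⊆
            pr α ((2 : ℝ) ^ J * α) ∪ pr ((2 : ℝ) ^ J * α) ((2 : ℝ) ^ (J + 1) * α) := by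
          intro p hp
          rw [mem_pr] at hp
          rw [mem_union, mem_pr, mem_pr]
          rcases lt_or_ge (p : ℝ) ((2 : ℝ) ^ J * α) with h5 | h5
          · exact Or.inl ⟨hp.1, hp.2.1, h5⟩
          · exact Or.inr ⟨hp.1, h5, hp.2.2⟩
        have ha1 : 2 ≤ (2 : ℝ) ^ J * α := by nlinarith
        have h6 := h ((2 : ℝ) ^ J * α) ((2 : ℝ) ^ (J + 1) * α) ha1 (by
          have : Real.sqrt ((2 : ℝ) ^ J * α) ≤ (2 : ℝ) ^ J * α := by
            rw [Real.sqrt_le_left (by linarith)]
            nlinarith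
          rw [pow_succ]; linarith) (by rw [pow_succ]; linarith)
        have h7 : C * ((2 : ℝ) ^ (J + 1) * α - (2 : ℝ) ^ J * α) /
            ((2 : ℝ) ^ J * α * Real.log ((2 : ℝ) ^ J * α)) ≤ C / Real.log α := by
          have h8 : Real.log α ≤ Real.log ((2 : ℝ) ^ J * α) :=
            Real.log_le_log hα0 (by nlinarith)
          have h9 : 0 < Real.log ((2 : ℝ) ^ J * α) := by linarith
          have h10 : C * ((2 : ℝ) ^ (J + 1) * α - (2 : ℝ) ^ J * α) /
            ((2 : ℝ) ^ J * α * Real.log ((2 : ℝ) ^ J * α)) = C / Real.log ((2 : ℝ) ^ J * α) := by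
            have h11 : (2 : ℝ) ^ (J + 1) * α - (2 : ℝ) ^ J * α = (2 : ℝ) ^ J * α := by
              rw [pow_succ]; ring
            rw [h11]
            have : (2 : ℝ) ^ J * α ≠ 0 := by positivity
            field_simp
          rw [h10]
          exact div_le_div_of_nonneg_left hC.le hla h8
        calc ∑ p ∈ pr α ((2 : ℝ) ^ (J + 1) * α), 1 / (p : ℝ)
            ≤ ∑ p ∈ pr α ((2 : ℝ) ^ J * α) ∪ pr ((2 : ℝ) ^ J * α) ((2 : ℝ) ^ (J + 1) * α),
              1 / (p : ℝ) := sum_le_sum_of_subset_of_nonneg hsub fun _ _ _ => by positivity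
          _ ≤ ∑ p ∈ pr α ((2 : ℝ) ^ J * α), 1 / (p : ℝ) +
              ∑ p ∈ pr ((2 : ℝ) ^ J * α) ((2 : ℝ) ^ (J + 1) * α), 1 / (p : ℝ) := by
              rw [← sum_union_inter]
              have : 0 ≤ ∑ p ∈ pr α ((2 : ℝ) ^ J * α) ∩
                pr ((2 : ℝ) ^ J * α) ((2 : ℝ) ^ (J + 1) * α), 1 / (p : ℝ) :=
                sum_nonneg fun _ _ => by positivity
              linarith
          _ ≤ J * (C / Real.log α) + C / Real.log α := add_le_add ih (h6.trans h7)
          _ = _ := by push_cast; ring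
    obtain ⟨J, hJ⟩ : ∃ J : ℕ, J = ⌈Real.logb 2 (β / α)⌉₊ := ⟨_, rfl⟩
    have hl2 := Real.log_two_gt_d9
    have hba : 2 < β / α := by rw [lt_div_iff₀ hα0]; exact hβ2
    have hlb : 1 ≤ Real.logb 2 (β / α) := by
      rw [Real.logb, le_div_iff₀ (by linarith), one_mul]
      exact Real.log_le_log (by norm_num) hba.le
    have h12 : β ≤ (2 : ℝ) ^ J * α := by
      have h13 : β / α ≤ (2 : ℝ) ^ J := by
        have h14 : β / α = (2 : ℝ) ^ (Real.logb 2 (β / α)) :=
          (Real.rpow_logb (by norm_num) (by norm_num) (by positivity)).symm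
        rw [← Real.rpow_natCast]
        conv_lhs => rw [h14]
        apply Real.rpow_le_rpow_of_exponent_le (by norm_num)
        rw [hJ]; exact Nat.le_ceil _
      rwa [div_le_iff₀ hα0] at h13
    have h15 : (J : ℝ) ≤ 3 * Real.log (β / α) := by
      have h16 : (J : ℝ) < Real.logb 2 (β / α) + 1 := by
        rw [hJ]; exact Nat.ceil_lt_add_one (by linarith)
      have h17 : (J : ℝ) ≤ 2 * Real.logb 2 (β / α) := by linarith
      refine h17.trans ?_
      have h18 : 0 ≤ Real.log (β / α) := Real.log_nonneg (by linarith)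
      rw [Real.logb, ← mul_div_assoc, div_le_iff₀ (by linarith)]
      nlinarith
    calc ∑ p ∈ pr α β, 1 / (p : ℝ) ≤ ∑ p ∈ pr α ((2 : ℝ) ^ J * α), 1 / (p : ℝ) := by
          refine sum_le_sum_of_subset_of_nonneg ?_ fun _ _ _ => by positivity
          intro p hp
          rw [mem_pr] at hp ⊢
          exact ⟨hp.1, hp.2.1, hp.2.2.trans_le h12⟩
      _ ≤ J * (C / Real.log α) := hd J
      _ ≤ 3 * Real.log (β / α) * (C / Real.log α) :=
          mul_le_mul_of_nonneg_right h15 (by positivity)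
      _ = _ := by ring

open Classical in
/-- the `z`-rough numbers of `(u, v]` whose least prime factor is in `[α, β)` -/
noncomputable def cls (z α β : ℝ) (u v : ℕ) : Finset ℕ :=
  (Ioc u v).filter (fun h => Rough z h ∧ α ≤ (h.minFac : ℝ) ∧ (h.minFac : ℝ) < β)

theorem card_cls : ∃ C : ℝ, 0 < C ∧ ∀ z α β y : ℝ, 2 ≤ z → z ≤ α → α + Real.sqrt α ≤ β →
    β * Real.sqrt z ≤ y → ∀ u v : ℕ, (v : ℝ) ≤ u + y →
    ((cls z α β u v).card : ℝ) ≤ C * y * Real.log (β / α) / (Real.log α * Real.log z) := by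
  classical
  obtain ⟨C1, hC1, h1⟩ := rough_short
  obtain ⟨C2, hC2, h2⟩ := recip_class
  refine ⟨C1 * C2, by positivity, fun z α β y hz hα hβ hy u v huv => ?_⟩
  have hz0 : 0 < z := by linarith
  have hlz : 0 < Real.log z := Real.log_pos (by linarith)
  have hla : 0 < Real.log α := Real.log_pos (by linarith)
  have hy0 : 0 ≤ y := by
    have := Real.sqrt_nonneg z
    have := Real.sqrt_nonneg α
    have : 0 ≤ β * Real.sqrt z := mul_nonneg (by linarith) (by linarith)
    linarith
  have hsub : cls z α β u v ⊆ (pr α β).biUnion fun p =>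
      (RN z ((u : ℝ) / p) ((u : ℝ) / p + y / p)).image (fun k => p * k) := by
    intro h hh
    unfold cls at hh
    rw [mem_filter, mem_Ioc] at hh
    obtain ⟨⟨h3, h4⟩, h5, h6, h7⟩ := hh
    have hne : h ≠ 1 := by
      rintro rfl
      rw [Nat.minFac_one] at h6
      norm_num at h6
      linarith
    have hp := Nat.minFac_prime hne
    have hp0 : (0 : ℝ) < h.minFac := by exact_mod_cast hp.pos
    rw [mem_biUnion]
    refine ⟨h.minFac, mem_pr.2 ⟨hp, h6, h7⟩, ?_⟩
    rw [mem_image]
    refine ⟨h / h.minFac, ?_, Nat.mul_div_cancel' (Nat.minFac_dvd h)⟩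
    have hk : (h.minFac : ℝ) * ((h / h.minFac : ℕ) : ℝ) = h := by
      rw [← Nat.cast_mul, Nat.mul_div_cancel' (Nat.minFac_dvd h)]
    rw [RN, mem_filter, mem_Ioc]
    refine ⟨⟨?_, ?_⟩, ?_⟩
    · rw [Nat.floor_lt (by positivity), div_lt_iff₀ hp0]
      have : (u : ℝ) < h := by exact_mod_cast h3
      linarith
    · rw [Nat.le_floor_iff (by positivity), ← add_div, le_div_iff₀ hp0]
      have : (h : ℝ) ≤ v := by exact_mod_cast h4
      linarith
    · intro q hq hqd
      exact h5 q hq (hqd.trans (Nat.div_dvd_of_dvd (Nat.minFac_dvd h)))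
  have hcard : ((cls z α β u v).card : ℝ) ≤ ∑ p ∈ pr α β,
      ((RN z ((u : ℝ) / p) ((u : ℝ) / p + y / p)).card : ℝ) := by
    have h8 := (card_le_card hsub).trans card_biUnion_le
    have h9 : (∑ p ∈ pr α β, ((RN z ((u : ℝ) / p) ((u : ℝ) / p + y / p)).image
        (fun k => p * k)).card) ≤ ∑ p ∈ pr α β,
        (RN z ((u : ℝ) / p) ((u : ℝ) / p + y / p)).card := sum_le_sum fun p _ => card_image_le
    exact_mod_cast h8.trans h9
  have hone : ∀ p ∈ pr α β, ((RN z ((u : ℝ) / p) ((u : ℝ) / p + y / p)).card : ℝ) ≤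
      C1 * y / Real.log z * (1 / (p : ℝ)) := by
    intro p hp
    rw [mem_pr] at hp
    have hp0 : (0 : ℝ) < p := by linarith [hp.2.1]
    have h10 := h1 z hz ((u : ℝ) / p) (y / p) (by positivity) (by
      rw [le_div_iff₀ hp0]
      have := mul_le_mul_of_nonneg_right hp.2.2.le (Real.sqrt_nonneg z)
      linarith)
    refine h10.trans (le_of_eq ?_)
    field_simp
  calc ((cls z α β u v).card : ℝ) ≤ _ := hcard
    _ ≤ ∑ p ∈ pr α β, C1 * y / Real.log z * (1 / (p : ℝ)) := sum_le_sum hone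
    _ = C1 * y / Real.log z * ∑ p ∈ pr α β, 1 / (p : ℝ) := by rw [mul_sum]
    _ ≤ C1 * y / Real.log z * (C2 * Real.log (β / α) / Real.log α) :=
        mul_le_mul_of_nonneg_left (h2 α β (by linarith) hβ) (by positivity)
    _ = _ := by field_simp

open Classical in
/-- `n ↦ 1/n` on the `z`-rough numbers -/
private noncomputable def rinv (z : ℝ) : ℕ →* ℝ where
  toFun n := if Rough z n then (n : ℝ)⁻¹ else 0
  map_one' := by
    have : Rough z 1 := by
      intro p hp h
      exact absurd (Nat.dvd_one.1 h) hp.one_lt.ne'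
    rw [if_pos this]
    simp
  map_mul' m n := by
    have h : Rough z (m * n) ↔ Rough z m ∧ Rough z n := by
      constructor
      · intro h
        exact ⟨fun p hp hd => h p hp (hd.mul_right n), fun p hp hd => h p hp (hd.mul_left m)⟩
      · rintro ⟨h1, h2⟩ p hp hd
        rcases (Nat.Prime.dvd_mul hp).1 hd with h3 | h3
        · exact h1 p hp h3
        · exact h2 p hp h3
    by_cases h1 : Rough z m
    · by_cases h2 : Rough z n
      · rw [if_pos (h.2 ⟨h1, h2⟩), if_pos h1, if_pos h2]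
        push_cast
        rw [mul_inv]
      · rw [if_neg (fun h3 => h2 (h.1 h3).2), if_neg h2, mul_zero]
    · rw [if_neg (fun h3 => h1 (h.1 h3).1), if_neg h1, zero_mul]

open Classical in
/-- reciprocals of the rough numbers -/
theorem rough_inv : ∃ C : ℝ, 0 < C ∧ ∀ z : ℝ, 2 ≤ z → ∀ N : ℕ, z ≤ N →
    ∑ n ∈ (Icc 1 N).filter (Rough z), 1 / (n : ℝ) ≤ C * Real.log N / Real.log z := by
  obtain ⟨C, hC, hV⟩ := V_inv_le
  refine ⟨2 * C, by positivity, fun z hz N hN => ?_⟩
  have hlz : 0 < Real.log z := Real.log_pos (by linarith)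
  have hN2 : (2 : ℝ) ≤ N := by linarith
  have h := EulerProduct.summable_and_hasSum_smoothNumbers_prod_primesBelow_geometric
    (f := rinv z) (fun {p} hp => by
      have h1 : (2 : ℝ) ≤ p := by exact_mod_cast hp.two_le
      change ‖if Rough z p then (p : ℝ)⁻¹ else 0‖ < 1
      split_ifs
      · rw [norm_inv, Real.norm_of_nonneg (by linarith)]
        exact inv_lt_one_of_one_lt₀ (by linarith)
      · simp) (N + 1)
  have h2 := h.2
  have hmem : ∀ m ∈ (Icc 1 N).filter (Rough z), m ∈ Nat.smoothNumbers (N + 1) := by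
    intro m hm
    rw [mem_filter, mem_Icc] at hm
    rw [Nat.mem_smoothNumbers']
    intro p hp hd
    have := Nat.le_of_dvd (by omega) hd
    omega
  have h3 : ∑ m ∈ (Icc 1 N).filter (Rough z), 1 / (m : ℝ) =
      ∑ m ∈ ((Icc 1 N).filter (Rough z)).attach.map
        ⟨fun m => (⟨m.1, hmem m.1 m.2⟩ : Nat.smoothNumbers (N + 1)),
        fun a b hab => Subtype.ext (congrArg (fun x => x.1) hab)⟩, rinv z m.1 := by
    rw [sum_map, ← sum_attach]
    refine sum_congr rfl fun m _ => ?_
    change _ = if Rough z m.1 then ((m.1 : ℕ) : ℝ)⁻¹ else 0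
    rw [if_pos (mem_filter.1 m.2).2, one_div]
  have h4 : ∑ m ∈ (Icc 1 N).filter (Rough z), 1 / (m : ℝ) ≤
      ∏ p ∈ (N + 1).primesBelow, (1 - rinv z p)⁻¹ := by
    rw [h3]
    refine sum_le_hasSum _ (fun m _ => ?_) h2
    change (0 : ℝ) ≤ if Rough z m.1 then ((m.1 : ℕ) : ℝ)⁻¹ else 0
    split_ifs
    · positivity
    · exact le_rfl
  have h5 : ∏ p ∈ (N + 1).primesBelow, (1 - rinv z p)⁻¹ = V z / V ((N : ℝ) + 1) := by
    have hset : pr 0 ((N : ℝ) + 1) = (N + 1).primesBelow := by
      ext p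
      rw [mem_pr, Nat.mem_primesBelow]
      constructor
      · rintro ⟨h1, _, h3⟩
        exact ⟨by exact_mod_cast h3, h1⟩
      · rintro ⟨h1, h2⟩
        exact ⟨h2, Nat.cast_nonneg _, by exact_mod_cast h1⟩
    have hpos : ∀ p : ℕ, p.Prime → (0 : ℝ) < 1 - 1 / (p : ℝ) := by
      intro p hp
      have h1 : (2 : ℝ) ≤ p := by exact_mod_cast hp.two_le
      have : 1 / (p : ℝ) ≤ 1 / 2 := one_div_le_one_div_of_le (by norm_num) h1
      linarith
    have hsplit : V ((N : ℝ) + 1) = V z * ∏ p ∈ (N + 1).primesBelow, (1 - rinv z p) := by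
      unfold V
      rw [hset]
      have h6 : pr 0 z = (N + 1).primesBelow.filter (fun p : ℕ => (p : ℝ) < z) := by
        ext p
        rw [mem_pr, mem_filter, Nat.mem_primesBelow]
        constructor
        · rintro ⟨h1, _, h3⟩
          refine ⟨⟨?_, h1⟩, h3⟩
          have : (p : ℝ) < (N : ℝ) + 1 := by linarith
          exact_mod_cast this
        · rintro ⟨⟨h1, h2⟩, h3⟩
          exact ⟨h2, Nat.cast_nonneg _, h3⟩
      rw [h6, prod_filter, ← prod_mul_distrib]
      refine prod_congr rfl fun p hp => ?_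
      have hp' := (Nat.mem_primesBelow.1 hp).2
      have h7 : Rough z p ↔ z ≤ (p : ℝ) := by
        constructor
        · intro h; exact h p hp' dvd_rfl
        · intro h q hq hqd
          rwa [(Nat.prime_dvd_prime_iff_eq hq hp').1 hqd]
      change _ = _ * (1 - (if Rough z p then (p : ℝ)⁻¹ else 0))
      by_cases h8 : (p : ℝ) < z
      · rw [if_pos h8, if_neg (fun h => absurd (h7.1 h) (not_le.2 h8)), sub_zero, mul_one]
      · rw [if_neg h8, if_pos (h7.2 (not_lt.1 h8)), one_mul, one_div]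
    have hV0 := V_pos z
    have hVN := V_pos ((N : ℝ) + 1)
    rw [prod_inv_distrib]
    have h9 : ∏ p ∈ (N + 1).primesBelow, (1 - rinv z p) ≠ 0 := by
      intro h0
      rw [h0, mul_zero] at hsplit
      linarith
    rw [hsplit]
    field_simp
  have hVN := V_pos ((N : ℝ) + 1)
  have h10 := V_le hz
  have h11 := hV ((N : ℝ) + 1) (by linarith)
  have h12 : Real.log ((N : ℝ) + 1) ≤ 2 * Real.log N := by
    calc Real.log ((N : ℝ) + 1) ≤ Real.log ((N : ℝ) ^ 2) := Real.log_le_log (by linarith) (by nlinarith)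
      _ = 2 * Real.log N := by rw [Real.log_pow]; norm_num
  calc ∑ n ∈ (Icc 1 N).filter (Rough z), 1 / (n : ℝ) ≤ V z / V ((N : ℝ) + 1) := h4.trans_eq h5
    _ = V z * (1 / V ((N : ℝ) + 1)) := by ring
    _ ≤ 1 / Real.log z * (C * (2 * Real.log N)) := by
        refine mul_le_mul h10 (h11.trans (mul_le_mul_of_nonneg_left h12 hC.le)) ?_ ?_
        · positivity
        · positivity
    _ = _ := by ring

end Pool.MP_dd84fd_nt.BX
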