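import Pool.Agent.Lib.MP_dd84fd_nt.BX.AsDefs

/-!
# BX-Ex: a character with large norm has a large sum over primes

If `κ ≤ sN X T ψ` then `|SX X ψ x|` is at least `κ X/(L √(2T))` for some `|x| ≤ T/X`; by partial
summation `|SX X ψ x| ≤ (1 + 2πT) max_y |∑_{p ≤ y} ψ(p)| + X^(1/10)`.
-/

set_option autoImplicit false

namespace Pool.MP_dd84fd_nt.BX

open Finset MeasureTheory Pool.MP_67663b_nt.Odd Pool.MP_dd84fd_nt.En Pool.MP_dd84fd_nt.E2
open Pool.MP_dd84fd_nt.LS Pool.MP_dd84fd_nt.GX Pool.MP_dd84fd_nt.HX Pool.MP_dd84fd_nt.IX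
open Pool.MP_dd84fd_nt.JX (wP gP)

private theorem ex_log (k : ℕ) (c : ℝ) : ∃ X0 : ℕ, ∀ X : ℕ, X0 ≤ X →
    20 * (Real.log X) ^ k ≤ X ∧ c ≤ Real.log X := by
  have h1 : (fun x : ℝ => Real.log x ^ k) =o[Filter.atTop] (id : ℝ → ℝ) :=
    Real.isLittleO_pow_log_id_atTop
  have h2 := (h1.bound (c := 1 / 20) (by norm_num))
  have h3 : ∀ᶠ X : ℕ in Filter.atTop, ‖Real.log (X : ℝ) ^ k‖ ≤ 1 / 20 * ‖((X : ℕ) : ℝ)‖ :=
    tendsto_natCast_atTop_atTop.eventually h2
  have h4 : ∀ᶠ X : ℕ in Filter.atTop, c ≤ Real.log (X : ℝ) :=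
    (Real.tendsto_log_atTop.comp tendsto_natCast_atTop_atTop).eventually_ge_atTop c
  obtain ⟨X0, hX0⟩ := Filter.eventually_atTop.1 (h3.and h4)
  refine ⟨max X0 1, fun X hX => ?_⟩
  obtain ⟨h5, h6⟩ := hX0 X (le_trans (le_max_left _ _) hX)
  have hX1 : (1 : ℝ) ≤ X := by exact_mod_cast le_trans (le_max_right _ _) hX
  have hl : 0 ≤ Real.log X := Real.log_nonneg hX1
  rw [Real.norm_of_nonneg (by positivity), Real.norm_of_nonneg (by positivity)] at h5
  exact ⟨by linarith, h6⟩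

/-- partial summation -/
private theorem ex_abel (a b : ℕ → ℂ) (N : ℕ) :
    ∑ n ∈ Icc 1 N, a n * b n =
      (∑ n ∈ Icc 1 N, a n) * b N - ∑ m ∈ range N, (∑ n ∈ Icc 1 m, a n) * (b (m + 1) - b m) := by
  induction N with
  | zero => simp
  | succ N ih =>
    rw [Finset.sum_Icc_succ_top (by omega), ih, Finset.sum_Icc_succ_top (by omega), sum_range_succ]
    ring

private theorem ex_part (a : ℕ → ℂ) (N : ℕ) (M x : ℝ) (hM : ∀ y ≤ N, ‖∑ n ∈ Icc 1 y, a n‖ ≤ M) :
    ‖∑ n ∈ Icc 1 N, a n * ee ((n : ℝ) * x)‖ ≤ M * (1 + N * (2 * Real.pi * |x|)) := by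
  rw [ex_abel a (fun n => ee ((n : ℝ) * x)) N]
  refine (norm_sub_le _ _).trans ?_
  rw [mul_add, mul_one]
  refine add_le_add ?_ ?_
  · rw [norm_mul, norm_ee, mul_one]
    exact hM N le_rfl
  · refine (norm_sum_le _ _).trans ?_
    have h : ∀ m ∈ range N, ‖(∑ n ∈ Icc 1 m, a n) *
        (ee (((m + 1 : ℕ) : ℝ) * x) - ee ((m : ℝ) * x))‖ ≤ M * (2 * Real.pi * |x|) := by
      intro m hm
      rw [norm_mul]
      have h1 := norm_ee_sub_ee_le (((m + 1 : ℕ) : ℝ) * x) ((m : ℝ) * x)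
      have e : ((m + 1 : ℕ) : ℝ) * x - (m : ℝ) * x = x := by push_cast; ring
      rw [e] at h1
      have h2 := hM m (mem_range.1 hm).le
      exact mul_le_mul h2 h1 (norm_nonneg _) ((norm_nonneg _).trans h2)
    refine (sum_le_sum h).trans ?_
    rw [sum_const, card_range, nsmul_eq_mul]
    exact le_of_eq (by ring)

private theorem ex_SX (X : ℕ) (ψ : PC) (M x : ℝ)
    (hM : ∀ y ≤ X, ‖∑ p ∈ (Icc 1 y).filter Nat.Prime, ψ.2 (p : ZMod ψ.1)‖ ≤ M) :
    ‖SX X ψ x‖ ≤ M * (1 + X * (2 * Real.pi * |x|)) + (X : ℝ) ^ (1 / 10 : ℝ) := by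
  have h1 := ex_part (fun n => if n.Prime then pv ψ n else 0) X M x (fun y hy => by
    have := hM y hy
    rw [sum_filter] at this
    exact this)
  have h2 : SX X ψ x = ∑ n ∈ Icc 1 X, (if n.Prime then pv ψ n else 0) * ee ((n : ℝ) * x) -
      ∑ n ∈ Icc 1 X, (if n.Prime ∧ n < zI X then pv ψ n else 0) * ee ((n : ℝ) * x) := by
    unfold SX wP
    rw [← sum_sub_distrib]
    refine sum_congr rfl fun n _ => ?_
    by_cases hp : n.Prime
    · by_cases hz : zI X ≤ n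
      · rw [if_pos ⟨hp, hz⟩, if_pos hp, if_neg (by omega)]
        push_cast
        ring
      · rw [if_neg (by tauto), if_pos hp, if_pos ⟨hp, by omega⟩]
        push_cast
        ring
    · rw [if_neg (by tauto), if_neg hp, if_neg (by tauto)]
      push_cast
      ring
  rw [h2]
  refine (norm_sub_le _ _).trans (add_le_add h1 ?_)
  refine (norm_sum_le _ _).trans ?_
  have h3 : ∀ n ∈ Icc 1 X, ‖(if n.Prime ∧ n < zI X then pv ψ n else 0) * ee ((n : ℝ) * x)‖ ≤
      if n ∈ Ico 1 (zI X) then 1 else 0 := by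
    intro n hn
    rw [norm_mul, norm_ee, mul_one]
    by_cases h : n.Prime ∧ n < zI X
    · rw [if_pos h, if_pos (mem_Ico.2 ⟨(mem_Icc.1 hn).1, h.2⟩)]
      exact pv_norm_le ψ n
    · rw [if_neg h, norm_zero]
      split_ifs <;> norm_num
  refine (sum_le_sum h3).trans ?_
  rw [← sum_filter, sum_const, nsmul_eq_mul, mul_one]
  have h4 : (Icc 1 X).filter (fun n => n ∈ Ico 1 (zI X)) ⊆ Ico 1 (zI X) :=
    fun n hn => (mem_filter.1 hn).2
  have h5 : (((Icc 1 X).filter (fun n => n ∈ Ico 1 (zI X))).card : ℝ) ≤ ((zI X - 1 : ℕ) : ℝ) := by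
    have := card_le_card h4
    rw [Nat.card_Ico] at this
    exact_mod_cast this
  refine h5.trans ?_
  rcases Nat.eq_zero_or_pos (zI X) with h0 | h0
  · rw [h0]
    simp only [zero_tsub, Nat.cast_zero]
    positivity
  · rw [Nat.cast_sub h0, Nat.cast_one]
    have h6 : (zI X : ℝ) < (X : ℝ) ^ (1 / 10 : ℝ) + 1 := Nat.ceil_lt_add_one (by positivity)
    linarith

private theorem ex_cont (X : ℕ) (ψ : PC) : Continuous (SX X ψ) := by
  have h : Continuous ee := by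
    unfold ee
    fun_prop
  unfold SX
  refine continuous_finsetSum _ fun n _ => ?_
  exact continuous_const.mul (h.comp (continuous_const.mul continuous_id))

theorem exBD : ExBD := by
  intro κ B hκ
  obtain ⟨X1, hX1⟩ := ex_log (2 * (2 * B + 2)) (19 / κ + 1)
  refine ⟨2 * B + 2, max X1 2, fun X hX T hT1 hTB ψ hψ => ?_⟩
  obtain ⟨h1, h2⟩ := hX1 X (le_trans (le_max_left _ _) hX)
  have hX2 : 2 ≤ X := le_trans (le_max_right _ _) hX
  have hXr : (0 : ℝ) < X := by exact_mod_cast (by omega : 0 < X)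
  have hX1r : (1 : ℝ) ≤ X := by exact_mod_cast (by omega : 1 ≤ X)
  obtain ⟨L, hL⟩ : ∃ L, L = Real.log X := ⟨_, rfl⟩
  rw [← hL] at h1 h2 hTB ⊢
  have hk : 0 < 19 / κ := by positivity
  have hL1 : 1 < L := by linarith
  have hL0 : 0 < L := by linarith
  by_contra hcon
  push Not at hcon
  obtain ⟨M, hMd⟩ : ∃ M, M = (X : ℝ) / L ^ (2 * B + 2) := ⟨_, rfl⟩
  have hM0 : 0 < M := by rw [hMd]; positivity
  have hsmall : (X : ℝ) ^ (1 / 10 : ℝ) ≤ M := by
    have e1 : (X : ℝ) ^ (1 / 10 : ℝ) ≤ Real.sqrt X := by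
      rw [Real.sqrt_eq_rpow]
      exact Real.rpow_le_rpow_of_exponent_le hX1r (by norm_num)
    have e2 : L ^ (2 * B + 2) ≤ Real.sqrt X := by
      refine Real.le_sqrt_of_sq_le ?_
      rw [← pow_mul, mul_comm (2 * B + 2) 2]
      have : 0 ≤ L ^ (2 * (2 * B + 2)) := by positivity
      linarith
    rw [hMd, le_div_iff₀ (by positivity)]
    calc (X : ℝ) ^ (1 / 10 : ℝ) * L ^ (2 * B + 2) ≤ Real.sqrt X * Real.sqrt X :=
          mul_le_mul e1 e2 (by positivity) (by positivity)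
      _ = X := Real.mul_self_sqrt hXr.le
  have hb : ∀ x ∈ Set.Icc (-(T / X)) (T / X), ‖SX X ψ x‖ ^ 2 ≤ (9 * T * M) ^ 2 := by
    intro x hx
    refine pow_le_pow_left₀ (norm_nonneg _) ?_ 2
    refine (ex_SX X ψ M x (fun y hy => by rw [hMd]; exact (hcon y hy).le)).trans ?_
    have hx1 : |x| ≤ T / X := abs_le.2 hx
    have h3 : (X : ℝ) * (2 * Real.pi * |x|) ≤ 2 * Real.pi * T := by
      calc (X : ℝ) * (2 * Real.pi * |x|) ≤ X * (2 * Real.pi * (T / X)) := by gcongr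
        _ = 2 * Real.pi * T := by field_simp
    have h4 : 2 * Real.pi * T ≤ 7 * T := by
      have := Real.pi_lt_d2
      nlinarith
    have h5 : M * (1 + X * (2 * Real.pi * |x|)) ≤ M * (8 * T) :=
      mul_le_mul_of_nonneg_left (by linarith) hM0.le
    nlinarith
  have hTX : 0 < T / X := div_pos (by linarith) hXr
  have hint : ∫ x in (-(T / X))..(T / X), ‖SX X ψ x‖ ^ 2 ≤ (9 * T * M) ^ 2 * (2 * (T / X)) := by
    have h3 : ∫ x in (-(T / X))..(T / X), ‖SX X ψ x‖ ^ 2 ≤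
        ∫ _x in (-(T / X))..(T / X), (9 * T * M) ^ 2 :=
      intervalIntegral.integral_mono_on (by linarith)
        (((ex_cont X ψ).norm.pow 2).intervalIntegrable _ _)
        (continuous_const.intervalIntegrable _ _) hb
    rw [intervalIntegral.integral_const, smul_eq_mul] at h3
    refine h3.trans (le_of_eq ?_)
    ring
  have hs : Real.sqrt (∫ x in (-(T / X))..(T / X), ‖SX X ψ x‖ ^ 2) ≤
      9 * T * M * (2 * T / Real.sqrt X) := by
    refine (Real.sqrt_le_sqrt hint).trans ?_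
    rw [Real.sqrt_mul (by positivity), Real.sqrt_sq (by positivity)]
    refine mul_le_mul_of_nonneg_left ?_ (by positivity)
    have e : 2 * (T / (X : ℝ)) = (2 * T) / X := by ring
    rw [e, Real.sqrt_div (by linarith)]
    refine div_le_div_of_nonneg_right ?_ (by positivity)
    rw [Real.sqrt_le_left (by linarith)]
    nlinarith
  have hfin : sN X T ψ ≤ L / Real.sqrt X * (9 * T * M * (2 * T / Real.sqrt X)) := by
    unfold sN
    rw [← hL]
    exact mul_le_mul_of_nonneg_left hs (by positivity)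
  have e2 : L / Real.sqrt X * (9 * T * M * (2 * T / Real.sqrt X)) = 18 * L * T ^ 2 * M / X := by
    have hq := Real.mul_self_sqrt hXr.le
    have hs0 : Real.sqrt X ≠ 0 := (Real.sqrt_pos.2 hXr).ne'
    field_simp
    rw [sq (Real.sqrt X), hq]
    ring
  have h6 : T ^ 2 ≤ (L ^ B) ^ 2 := pow_le_pow_left₀ (by linarith) hTB 2
  have h7 : 18 * L * T ^ 2 * M / X ≤ 18 / L := by
    rw [hMd]
    have e3 : 18 * L * T ^ 2 * ((X : ℝ) / L ^ (2 * B + 2)) / X = 18 * L * T ^ 2 / L ^ (2 * B + 2) := by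
      field_simp
    rw [e3, div_le_div_iff₀ (by positivity) hL0]
    have e4 : 18 * L ^ (2 * B + 2) = 18 * L * (L ^ B) ^ 2 * L := by ring
    rw [e4]
    have : 18 * L * T ^ 2 ≤ 18 * L * (L ^ B) ^ 2 := mul_le_mul_of_nonneg_left h6 (by positivity)
    exact mul_le_mul_of_nonneg_right this hL0.le
  have h8 : 18 / L < κ := by
    rw [div_lt_iff₀ hL0]
    have : κ * (19 / κ) = 19 := by field_simp
    nlinarith
  rw [e2] at hfin
  linarith

end Pool.MP_dd84fd_nt.BX
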