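import Pool.Agent.Lib.MP_dd84fd_nt.BG.Part
import Pool.Agent.Lib.MP_dd84fd_nt.BX.AsDefs

/-!
# BX-Gau: the Gauss sum package for the assembly (helper28)

`gauBD : GauBD` and `parBD : ParBD` from the files `BG/*`; `h0_bad`: if `h₀ ≤ H` then `r₁/h' ∣ n` for some `h' ≤ H`.
-/

set_option autoImplicit false

namespace Pool.MP_dd84fd_nt.BX

open Finset Pool.MP_67663b_nt.Odd Pool.MP_dd84fd_nt.En Pool.MP_dd84fd_nt.E2 Pool.MP_dd84fd_nt.LS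
open Pool.MP_dd84fd_nt.GX Pool.MP_dd84fd_nt.HX Pool.MP_dd84fd_nt.IX
open Pool.MP_dd84fd_nt.PL (rr)
open Pool.MP_dd84fd_nt.JX (wP gP)
open Pool.MP_dd84fd_nt.LXP (tq)

/-- the inverse character -/
private noncomputable def iv (ψ : PC) : PC := ⟨ψ.1, ψ.2⁻¹⟩

private theorem iv_pc (ψ : PC) (h : IsPC ψ) : BG.Pri (iv ψ) := by
  refine ⟨h.1, ?_⟩
  show (ψ.2⁻¹).IsPrimitive
  rw [DirichletCharacter.isPrimitive_def, DirichletCharacter.conductor_inv]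
  exact h.2

private theorem ind_up (q : ℕ) (ψ : PC) : ind q ψ = BG.up ψ q := by
  unfold ind BG.up
  by_cases h : ψ.1 ∣ q
  · simp only [dif_pos h]
  · simp only [dif_neg h]

private theorem up_iv (q : ℕ) (ψ : PC) : BG.up (iv ψ) q = (BG.up ψ q)⁻¹ := by
  unfold BG.up
  by_cases h : ψ.1 ∣ q
  · have h' : (iv ψ).1 ∣ q := h
    rw [dif_pos h, dif_pos h']
    exact map_inv (DirichletCharacter.changeLevel h) ψ.2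
  · have h' : ¬ (iv ψ).1 ∣ q := h
    rw [dif_neg h, dif_neg h', inv_one]

private theorem ram_rm (q n : ℕ) (hq : 1 ≤ q) (χ : DirichletCharacter ℂ q) :
    BG.Ram q n χ⁻¹ = Rm q n χ := by
  have : NeZero q := ⟨by omega⟩
  unfold BG.Ram Rm rr
  rw [Finset.sum_filter]
  refine Finset.sum_congr rfl fun y _ => ?_
  by_cases hy : Nat.Coprime y q
  · rw [if_pos hy]
    have hu : IsUnit ((y : ℕ) : ZMod q) := (ZMod.isUnit_iff_coprime y q).2 hy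
    have e1 := L2G.co_char_conj q (χ⁻¹) (y : ZMod q) hu
    have e2 := L2G.co_inv_apply q (χ⁻¹) (y : ZMod q) hu
    rw [inv_inv] at e2
    rw [e1, ← e2]
  · rw [if_neg hy]
    have hu : ¬ IsUnit ((y : ℕ) : ZMod q) := fun h => hy ((ZMod.isUnit_iff_coprime y q).1 h)
    rw [MulChar.map_nonunit _ hu, map_zero, zero_mul]

private theorem cf_co (q n : ℕ) (hq : 1 ≤ q) (ψ₁ ψ₂ : PC) :
    cf q n (ind q ψ₁) (ind q ψ₂) = BG.co q n (BG.up (iv ψ₁) q) (BG.up (iv ψ₂) q) := by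
  have hq0 : q ≠ 0 := by omega
  haveI : NeZero q := ⟨hq0⟩
  unfold cf BG.co
  rw [dif_neg hq0, ind_up, ind_up, up_iv, up_iv, BG.tqq_eq, BG.tqq_eq, ← mul_inv, ram_rm q n hq]

private theorem h0_eq (n : ℕ) (ψ₁ ψ₂ : PC) : h0 n ψ₁ ψ₂ = BG.h0 n (iv ψ₁) (iv ψ₂) := rfl

private theorem cP_eq (ψ₁ ψ₂ : PC) (h : ℕ) : cP ψ₁ ψ₂ ∣ h ↔ BG.PDvd (iv ψ₁) (iv ψ₂) h := by
  unfold cP BG.PDvd
  rw [up_iv, up_iv, ← mul_inv, DirichletCharacter.conductor_inv, ind_up, ind_up]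
  exact Iff.rfl

theorem gauBD : GauBD := by
  classical
  obtain ⟨C, hC, hsum⟩ := BG.co_sum
  refine ⟨C, hC, fun n hn ψ₁ ψ₂ h1 h2 QQ hQQ => ⟨?_, ?_⟩⟩
  · have h3 := hsum n hn (iv ψ₁) (iv ψ₂) (iv_pc ψ₁ h1) (iv_pc ψ₂ h2) QQ (fun q hq => (hQQ q hq).1)
    rw [← h0_eq] at h3
    have h4 : QQ.filter (fun q => Nat.lcm (iv ψ₁).1 (iv ψ₂).1 ∣ q) = QQ :=
      Finset.filter_true_of_mem fun q hq => Nat.lcm_dvd (hQQ q hq).2.1 (hQQ q hq).2.2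
    rw [h4] at h3
    have h5 : ∑ q ∈ QQ, cf q n (ind q ψ₁) (ind q ψ₂) =
        ∑ q ∈ QQ, BG.co q n (BG.up (iv ψ₁) q) (BG.up (iv ψ₂) q) :=
      Finset.sum_congr rfl fun q hq => cf_co q n (hQQ q hq).1 ψ₁ ψ₂
    rw [h5]
    exact h3
  · intro hno q hq
    obtain ⟨a1, a2, a3⟩ := hQQ q hq
    rw [cf_co q n a1 ψ₁ ψ₂]
    by_contra hne
    have h6 := BG.co_ne n q a1 (iv ψ₁) (iv ψ₂) (iv_pc ψ₁ h1) (iv_pc ψ₂ h2) (Nat.lcm_dvd a2 a3) hne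
    exact hno ((cP_eq ψ₁ ψ₂ _).2 h6.2.2)

theorem parBD : ParBD := by
  classical
  intro n H ψ₂ h2 Y hY
  -- the inverse characters
  obtain ⟨Y', hY'⟩ : ∃ Y' : Finset BG.Ch, Y' = Y.image iv := ⟨_, rfl⟩
  have hinj : Y'.card = Y.card := by
    rw [hY']
    refine Finset.card_image_of_injOn ?_
    rintro ⟨r, χ⟩ _ ⟨r', χ'⟩ _ h
    unfold iv at h
    simp only at h
    obtain ⟨ha, hb⟩ := Sigma.mk.inj_iff.1 h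
    subst ha
    have hb' := eq_of_heq hb
    rw [inv_inj.1 hb']
  have h3 := BG.partners H (iv ψ₂) (iv_pc ψ₂ h2) Y' (by
    intro P hP
    rw [hY'] at hP
    obtain ⟨ψ, hψ, rfl⟩ := Finset.mem_image.1 hP
    exact iv_pc ψ (hY ψ hψ).1)
  rw [← hinj]
  refine le_trans (Finset.card_le_card ?_) h3
  intro P hP
  rw [Finset.mem_filter]
  refine ⟨hP, ?_⟩
  rw [hY'] at hP
  obtain ⟨ψ, hψ, rfl⟩ := Finset.mem_image.1 hP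
  obtain ⟨-, b1, b2, b3⟩ := hY ψ hψ
  exact ⟨h0 n ψ ψ₂, b1, b3, (cP_eq ψ ψ₂ _).1 b2⟩

/-- (G6) if `h₀ ≤ H` then `r₁/h' ∣ n` for some `h' ∣ r₁`, `h' ≤ H`; the same for `r₂` -/
theorem h0_bad (n H : ℕ) (ψ₁ ψ₂ : PC) (h1 : IsPC ψ₁) (h2 : IsPC ψ₂) (hH : h0 n ψ₁ ψ₂ ≤ H) :
    (∃ h' : ℕ, 1 ≤ h' ∧ h' ≤ H ∧ h' ∣ ψ₁.1 ∧ ψ₁.1 / h' ∣ n) ∧
      ∃ h' : ℕ, 1 ≤ h' ∧ h' ≤ H ∧ h' ∣ ψ₂.1 ∧ ψ₂.1 / h' ∣ n := by
  refine ⟨BG.bad_dvd n H ψ₁ ψ₂ h1 h2 hH, BG.bad_dvd n H ψ₂ ψ₁ h2 h1 ?_⟩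
  have : BG.h0 n ψ₂ ψ₁ = h0 n ψ₁ ψ₂ := by
    unfold BG.h0 h0 PL.hq
    rw [Nat.lcm_comm]
  rw [this]
  exact hH

/-- `h₀ ≥ 1` -/
theorem h0_pos (n : ℕ) (ψ₁ ψ₂ : PC) (h1 : IsPC ψ₁) (h2 : IsPC ψ₂) : 1 ≤ h0 n ψ₁ ψ₂ :=
  BG.hq_pos _ n (Nat.lcm_pos h1.1 h2.1)

/-- the conductor of an induced character -/
theorem ind_cond (q : ℕ) (hq : 1 ≤ q) (ψ : PC) (h : IsPC ψ) (hd : ψ.1 ∣ q) :
    (ind q ψ).conductor = ψ.1 := by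
  rw [ind_up]
  exact BG.up_cond ψ h q hq hd

/-- a primitive character is determined by the induced character -/
theorem ind_inj (q : ℕ) (hq : 1 ≤ q) (ψ ψ' : PC) (h : IsPC ψ) (h' : IsPC ψ') (hd : ψ.1 ∣ q)
    (hd' : ψ'.1 ∣ q) (he : ind q ψ = ind q ψ') : ψ = ψ' := by
  rw [ind_up, ind_up] at he
  exact BG.up_inj ψ ψ' h h' q hq hd hd' he

end Pool.MP_dd84fd_nt.BX
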