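import Pool.Agent.Lib.MP_dd84fd_nt.L2G.PV
import Pool.Agent.Lib.MP_dd84fd_nt.BX.Defs

/-!
# BX-LsA: distinct primitive characters (helper39)

`PC` is the type of Dirichlet characters of all moduli, `pv ψ n` the value.  For two distinct
primitive characters `ψ, ψ'` the function `n ↦ ψ(n) conj ψ'(n)` is a nonprincipal character modulo
the least common multiple of the moduli, and the Pólya–Vinogradov inequality holds for it on every
interval of multiples of `e`.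
-/

set_option autoImplicit false

namespace Pool.MP_dd84fd_nt.BX

open Finset Pool.MP_dd84fd_nt.L2G

private theorem la_conj (q : ℕ) [NeZero q] (ψ : DirichletCharacter ℂ q) (b : ZMod q) :
    (starRingEnd ℂ) (ψ b) = (ψ⁻¹ : DirichletCharacter ℂ q) b := by
  by_cases hb : IsUnit b
  · rw [co_char_conj q ψ b hb, co_inv_apply q ψ b hb]
  · rw [MulChar.map_nonunit ψ hb, MulChar.map_nonunit _ hb, map_zero]

/-- the product of a character and the conjugate of another one, modulo a common multiple -/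
theorem pv_conj_eq (ψ ψ' : PC) (Q : ℕ) [NeZero Q] (h : ψ.1 ∣ Q) (h' : ψ'.1 ∣ Q)
    (hQ : ∀ p : ℕ, p.Prime → p ∣ Q → p ∣ ψ.1 ∨ p ∣ ψ'.1) (n : ℕ) :
    pv ψ n * (starRingEnd ℂ) (pv ψ' n) =
      (DirichletCharacter.changeLevel h ψ.2 * (DirichletCharacter.changeLevel h' ψ'.2)⁻¹ :
        DirichletCharacter ℂ Q) (n : ZMod Q) := by
  unfold pv
  by_cases hn : Nat.Coprime n Q
  · have hc : IsCoprime (n : ℤ) (Q : ℤ) := Nat.isCoprime_iff_coprime.mpr hn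
    have e1 := DirichletCharacter.changeLevel_eq_cast_of_dvd' ψ.2 h hc
    have e2 := DirichletCharacter.changeLevel_eq_cast_of_dvd' ψ'.2 h' hc
    rw [Int.cast_natCast, Int.cast_natCast] at e1 e2
    rw [MulChar.mul_apply, ← la_conj, e1, e2]
  · have hu : ¬ IsUnit ((n : ℕ) : ZMod Q) := fun hh => hn ((ZMod.isUnit_iff_coprime n Q).1 hh)
    rw [MulChar.map_nonunit _ hu]
    obtain ⟨p, hp, hpn, hpQ⟩ := Nat.Prime.not_coprime_iff_dvd.1 hn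
    rcases hQ p hp hpQ with h1 | h1
    · have : ¬ IsUnit ((n : ℕ) : ZMod ψ.1) := fun hh => by
        have := (ZMod.isUnit_iff_coprime n ψ.1).1 hh
        exact Nat.Prime.not_coprime_iff_dvd.2 ⟨p, hp, hpn, h1⟩ this
      rw [MulChar.map_nonunit _ this, zero_mul]
    · have : ¬ IsUnit ((n : ℕ) : ZMod ψ'.1) := fun hh => by
        have := (ZMod.isUnit_iff_coprime n ψ'.1).1 hh
        exact Nat.Prime.not_coprime_iff_dvd.2 ⟨p, hp, hpn, h1⟩ this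
      rw [MulChar.map_nonunit ψ'.2 this, map_zero, mul_zero]

/-- distinct primitive characters are distinct modulo a common multiple -/
theorem pc_ne (ψ ψ' : PC) (hψ : IsPC ψ) (hψ' : IsPC ψ') (hne : ψ ≠ ψ') (Q : ℕ) [NeZero Q]
    (h : ψ.1 ∣ Q) (h' : ψ'.1 ∣ Q) :
    (DirichletCharacter.changeLevel h ψ.2 * (DirichletCharacter.changeLevel h' ψ'.2)⁻¹ :
        DirichletCharacter ℂ Q) ≠ 1 := by
  intro h1
  have h2 : DirichletCharacter.changeLevel h ψ.2 = DirichletCharacter.changeLevel h' ψ'.2 :=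
    mul_inv_eq_one.mp h1
  obtain ⟨r, χ⟩ := ψ
  obtain ⟨r', χ'⟩ := ψ'
  have h3 : r = r' := by
    have e1 := DirichletCharacter.conductor_changeLevel χ h
    have e2 := DirichletCharacter.conductor_changeLevel χ' h'
    have p1 : χ.conductor = r := hψ.2
    have p2 : χ'.conductor = r' := hψ'.2
    rw [h2] at e1
    rw [← p1, ← p2, ← e1, ← e2]
  subst h3
  exact hne (congrArg (Sigma.mk r) (DirichletCharacter.changeLevel_injective h h2))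

/-- Pólya–Vinogradov for the product of two distinct primitive characters -/
theorem pc_pv (ψ ψ' : PC) (hψ : IsPC ψ) (hψ' : IsPC ψ') (hne : ψ ≠ ψ') (e u v : ℕ) :
    ‖∑ m ∈ Ioc u v, pv ψ (e * m) * (starRingEnd ℂ) (pv ψ' (e * m))‖ ≤
      ((Nat.lcm ψ.1 ψ'.1).divisors.card : ℝ) * Real.sqrt (Nat.lcm ψ.1 ψ'.1 : ℕ) *
        (1 + Real.log (Nat.lcm ψ.1 ψ'.1 : ℕ)) := by
  obtain ⟨Q, hQ⟩ : ∃ Q, Q = Nat.lcm ψ.1 ψ'.1 := ⟨_, rfl⟩
  have hψ1 : ψ.1 ≠ 0 := by have := hψ.1; omega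
  have hψ1' : ψ'.1 ≠ 0 := by have := hψ'.1; omega
  have hQ0 : Q ≠ 0 := by rw [hQ]; exact Nat.lcm_ne_zero hψ1 hψ1'
  have : NeZero Q := ⟨hQ0⟩
  have hd : ψ.1 ∣ Q := hQ ▸ Nat.dvd_lcm_left _ _
  have hd' : ψ'.1 ∣ Q := hQ ▸ Nat.dvd_lcm_right _ _
  have hpr : ∀ p : ℕ, p.Prime → p ∣ Q → p ∣ ψ.1 ∨ p ∣ ψ'.1 := by
    intro p hp hpQ
    rw [hQ] at hpQ
    exact (Nat.Prime.dvd_mul hp).1 (hpQ.trans (Nat.lcm_dvd_mul _ _))
  rw [← hQ]
  set Ξ : DirichletCharacter ℂ Q := DirichletCharacter.changeLevel hd ψ.2 *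
    (DirichletCharacter.changeLevel hd' ψ'.2)⁻¹ with hΞ
  have h1 : ∀ m ∈ Ioc u v, pv ψ (e * m) * (starRingEnd ℂ) (pv ψ' (e * m)) =
      Ξ (e : ZMod Q) * Ξ (m : ZMod Q) := by
    intro m _
    rw [pv_conj_eq ψ ψ' Q hd hd' hpr (e * m), ← hΞ, Nat.cast_mul, map_mul]
  rw [sum_congr rfl h1, ← mul_sum, norm_mul]
  have h2 : Ioc u v = Ico (u + 1) (v + 1) := by
    ext n; simp only [mem_Ioc, mem_Ico]; omega
  rw [h2]
  have h3 := PV_all Q Ξ (pc_ne ψ ψ' hψ hψ' hne Q hd hd') (u + 1) (v + 1)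
  calc ‖Ξ (e : ZMod Q)‖ * ‖∑ m ∈ Ico (u + 1) (v + 1), Ξ (m : ZMod Q)‖ ≤
      1 * ‖∑ m ∈ Ico (u + 1) (v + 1), Ξ (m : ZMod Q)‖ :=
        mul_le_mul_of_nonneg_right (DirichletCharacter.norm_le_one Ξ _) (norm_nonneg _)
    _ ≤ _ := by rw [one_mul]; exact h3

/-- the same with the parameters of a family -/
theorem pc_pv_fam {Y : Finset PC} {N Dv : ℝ} (hY : PFam Y N)
    (hDv : ∀ m : ℕ, 1 ≤ m → (m : ℝ) ≤ N → (m.divisors.card : ℝ) ≤ Dv)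
    {ψ ψ' : PC} (hψ : ψ ∈ Y) (hψ' : ψ' ∈ Y) (hne : ψ ≠ ψ') (e u v : ℕ) :
    ‖∑ m ∈ Ioc u v, pv ψ (e * m) * (starRingEnd ℂ) (pv ψ' (e * m))‖ ≤
      Dv * Real.sqrt N * (1 + Real.log N) := by
  have h1 := hY.1 ψ hψ
  have h2 := hY.1 ψ' hψ'
  have h3 := hY.2 ψ hψ ψ' hψ'
  have hψ1 : ψ.1 ≠ 0 := by have := h1.1; omega
  have hψ1' : ψ'.1 ≠ 0 := by have := h2.1; omega
  have hQ1 : 1 ≤ Nat.lcm ψ.1 ψ'.1 := Nat.one_le_iff_ne_zero.2 (Nat.lcm_ne_zero hψ1 hψ1')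
  have hQr : (1 : ℝ) ≤ (Nat.lcm ψ.1 ψ'.1 : ℕ) := by exact_mod_cast hQ1
  refine (pc_pv ψ ψ' h1 h2 hne e u v).trans ?_
  have h4 := hDv _ hQ1 h3
  have h5 : Real.sqrt (Nat.lcm ψ.1 ψ'.1 : ℕ) ≤ Real.sqrt N := Real.sqrt_le_sqrt h3
  have h6 : Real.log (Nat.lcm ψ.1 ψ'.1 : ℕ) ≤ Real.log N := Real.log_le_log (by linarith) h3
  have h7 : 0 ≤ Real.log (Nat.lcm ψ.1 ψ'.1 : ℕ) := Real.log_nonneg hQr
  have h8 : (0 : ℝ) ≤ ((Nat.lcm ψ.1 ψ'.1).divisors.card : ℝ) := Nat.cast_nonneg _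
  exact mul_le_mul (mul_le_mul h4 h5 (Real.sqrt_nonneg _) (h8.trans h4)) (by linarith)
    (by linarith) (mul_nonneg (h8.trans h4) (Real.sqrt_nonneg _))

/-- a single nonprincipal primitive character -/
theorem pc_pv_one (ψ : PC) (hψ : IsPC ψ) (hne : 2 ≤ ψ.1) (e u v : ℕ) :
    ‖∑ m ∈ Ioc u v, pv ψ (e * m)‖ ≤
      (ψ.1.divisors.card : ℝ) * Real.sqrt ψ.1 * (1 + Real.log ψ.1) := by
  have : NeZero ψ.1 := ⟨by omega⟩
  have h0 : ψ.2 ≠ 1 := by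
    intro h
    have h1 : ψ.2.conductor = ψ.1 := hψ.2
    rw [h, DirichletCharacter.conductor_one] at h1
    omega
  have h1 : ∀ m ∈ Ioc u v, pv ψ (e * m) = ψ.2 (e : ZMod ψ.1) * ψ.2 (m : ZMod ψ.1) := by
    intro m _
    unfold pv
    rw [Nat.cast_mul, map_mul]
  rw [sum_congr rfl h1, ← mul_sum, norm_mul]
  have h2 : Ioc u v = Ico (u + 1) (v + 1) := by
    ext n; simp only [mem_Ioc, mem_Ico]; omega
  rw [h2]
  have h3 := PV_all ψ.1 ψ.2 h0 (u + 1) (v + 1)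
  calc _ ≤ 1 * ‖∑ m ∈ Ico (u + 1) (v + 1), ψ.2 (m : ZMod ψ.1)‖ :=
        mul_le_mul_of_nonneg_right (DirichletCharacter.norm_le_one ψ.2 _) (norm_nonneg _)
    _ ≤ _ := by rw [one_mul]; exact h3

end Pool.MP_dd84fd_nt.BX
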