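import Pool.Agent.Lib.MP_dd84fd_nt.BX.LsB
import Pool.Agent.Lib.MP_dd84fd_nt.BX.BrC

/-!
# BX-LsC: the weighted large sieve for abstract families `ChF` (helper39)

`ls_chf`: `w n = ∑_{e ∣ n} lam e ≥ 0`, `|lam| ≤ 1` supported on `[1, E]`.  `ls_SS`: the Brun–Hooley
weight `SS z`.  `ls_SS_le`: coefficients `|a n| ≤ A` supported where `SS z n = 1`.
`PFam.chF`: a family of primitive characters is a `ChF`.
-/

set_option autoImplicit false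

namespace Pool.MP_dd84fd_nt.BX

open Finset

theorem ls_chf {ι : Type} {Y : Finset ι} {f : ι → ℕ → ℂ} {P1 P2 : ℝ} (h : ChF Y f P1 P2)
    (hP2 : 0 ≤ P2) (E : ℝ) (hE : 0 ≤ E) (lam : ℕ → ℝ) (hl : ∀ e, |lam e| ≤ 1)
    (hs : ∀ e, lam e ≠ 0 → 1 ≤ e ∧ (e : ℝ) ≤ E) (u v : ℕ) (w : ℕ → ℝ)
    (hw : ∀ n ∈ Ioc u v, w n = ∑ e ∈ n.divisors, lam e)
    (hw0 : ∀ n ∈ Ioc u v, 0 ≤ w n) (a : ℕ → ℂ) (ha : ∀ n ∈ Ioc u v, w n = 0 → a n = 0) :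
    ∑ i ∈ Y, ‖∑ n ∈ Ioc u v, a n * f i n‖ ^ 2 ≤
      (∑ n ∈ Ioc u v, w n + Y.card * E * P2) * ∑ n ∈ Ioc u v, ‖a n‖ ^ 2 / w n := by
  have hdiv : ∀ n ∈ Ioc u v, w n = ∑ e ∈ Icc 1 ⌊E⌋₊, if e ∣ n then lam e else 0 := by
    intro n hn
    have hn0 : n ≠ 0 := by rw [mem_Ioc] at hn; omega
    rw [hw n hn, ← sum_filter]
    symm
    apply sum_subset_zero_on_sdiff
    · intro e he
      rw [mem_filter] at he
      exact Nat.mem_divisors.2 ⟨he.2, hn0⟩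
    · intro e he
      rw [mem_sdiff, mem_filter, mem_Icc, Nat.mem_divisors] at he
      by_contra hcon
      obtain ⟨h1, h2⟩ := hs e hcon
      exact he.2 ⟨⟨h1, Nat.le_floor h2⟩, he.1.1⟩
    · intro e _
      rfl
  have h1 := ls_mul Y f (fun i hi n => h.bd i hi n) (fun i hi m n => h.mul i hi m n) P2 hP2
    (fun i hi j hj hij a b => h.pv2 i hi j hj hij a b) (Icc 1 ⌊E⌋₊) lam u v w hdiv hw0 a ha
  refine h1.trans ?_
  apply mul_le_mul_of_nonneg_right _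
    (sum_nonneg fun n hn => div_nonneg (by positivity) (hw0 n hn))
  have h2 : ∑ e ∈ Icc 1 ⌊E⌋₊, |lam e| ≤ E := by
    calc ∑ e ∈ Icc 1 ⌊E⌋₊, |lam e| ≤ ∑ e ∈ Icc 1 ⌊E⌋₊, (1 : ℝ) := sum_le_sum fun e _ => hl e
      _ = (⌊E⌋₊ : ℝ) := by rw [sum_const, nsmul_eq_mul, mul_one, Nat.card_Icc]; simp
      _ ≤ E := Nat.floor_le hE
  have h3 : (Y.card : ℝ) * (∑ e ∈ Icc 1 ⌊E⌋₊, |lam e|) * P2 ≤ Y.card * E * P2 :=
    mul_le_mul_of_nonneg_right (mul_le_mul_of_nonneg_left h2 (Nat.cast_nonneg _)) hP2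
  linarith

/-- the Brun–Hooley weight -/
theorem ls_SS {ι : Type} {Y : Finset ι} {f : ι → ℕ → ℂ} {P1 P2 : ℝ} (h : ChF Y f P1 P2)
    (hP2 : 0 ≤ P2) {z : ℝ} (hz : 2 ≤ z) (u v : ℕ) (a : ℕ → ℂ)
    (ha : ∀ n ∈ Ioc u v, SS z n = 0 → a n = 0) :
    ∑ i ∈ Y, ‖∑ n ∈ Ioc u v, a n * f i n‖ ^ 2 ≤
      (∑ n ∈ Ioc u v, SS z n + Y.card * z ^ (132 : ℕ) * P2) *
        ∑ n ∈ Ioc u v, ‖a n‖ ^ 2 / SS z n :=
  ls_chf h hP2 (z ^ (132 : ℕ)) (by positivity) (lam z) (fun e => abs_lam z e)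
    (fun e he => lam_supp hz he) u v (SS z)
    (fun n hn => SS_eq hz (by rw [mem_Ioc] at hn; omega)) (fun n _ => SS_nonneg z n) a ha

/-- coefficients bounded by `A` on numbers with `SS z n = 1`, for example rough numbers -/
theorem ls_SS_le {ι : Type} {Y : Finset ι} {f : ι → ℕ → ℂ} {P1 P2 : ℝ} (h : ChF Y f P1 P2)
    (hP2 : 0 ≤ P2) {z : ℝ} (hz : 2 ≤ z) (u v : ℕ) (huv : u ≤ v) (a : ℕ → ℂ) (A : ℝ)
    (ha : ∀ n ∈ Ioc u v, a n ≠ 0 → SS z n = 1) (hA : ∀ n ∈ Ioc u v, ‖a n‖ ≤ A) (K : ℝ)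
    (hK : CB * ((v : ℝ) - u) / Real.log z + z ^ (132 : ℕ) + Y.card * z ^ (132 : ℕ) * P2 ≤ K) :
    ∑ i ∈ Y, ‖∑ n ∈ Ioc u v, a n * f i n‖ ^ 2 ≤ (A * K) ^ 2 := by
  have hz0 : 0 < z := by linarith
  have h1 := ls_SS h hP2 hz u v a (fun n hn h0 => by
    by_contra hcon
    rw [ha n hn hcon] at h0
    exact one_ne_zero h0)
  have hS := sum_SS hz u v huv
  have hS0 : 0 ≤ ∑ n ∈ Ioc u v, SS z n := sum_nonneg fun n _ => SS_nonneg z n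
  have hoff : 0 ≤ (Y.card : ℝ) * z ^ (132 : ℕ) * P2 := by positivity
  have h2 : ∑ n ∈ Ioc u v, ‖a n‖ ^ 2 / SS z n ≤ A ^ 2 * ∑ n ∈ Ioc u v, SS z n := by
    rw [mul_sum]
    refine sum_le_sum fun n hn => ?_
    by_cases h0 : a n = 0
    · rw [h0, norm_zero]
      have := SS_nonneg z n
      simp only [ne_eq, OfNat.ofNat_ne_zero, not_false_eq_true, zero_pow, zero_div]
      positivity
    · rw [ha n hn h0, div_one, mul_one]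
      exact pow_le_pow_left₀ (norm_nonneg _) (hA n hn) 2
  calc _ ≤ _ := h1
    _ ≤ K * (A ^ 2 * K) := by
        refine mul_le_mul ?_ (h2.trans ?_) ?_ ?_
        · linarith
        · exact mul_le_mul_of_nonneg_left (by linarith) (sq_nonneg A)
        · exact sum_nonneg fun n _ => div_nonneg (by positivity) (SS_nonneg z n)
        · linarith
    _ = (A * K) ^ 2 := by ring

/-- a family of primitive characters -/
theorem PFam.chF {Y : Finset PC} {N Dv : ℝ} (hY : PFam Y N) (hN : 1 ≤ N)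
    (hDv : ∀ m : ℕ, 1 ≤ m → (m : ℝ) ≤ N → (m.divisors.card : ℝ) ≤ Dv)
    (h2 : ∀ ψ ∈ Y, 2 ≤ ψ.1) :
    ChF Y pv (Dv * Real.sqrt N * (1 + Real.log N)) (Dv * Real.sqrt N * (1 + Real.log N)) := by
  have hDv0 : 0 ≤ Dv := by
    have := hDv 1 le_rfl (by simpa using hN)
    have h1 : (0 : ℝ) ≤ ((1 : ℕ).divisors.card : ℝ) := Nat.cast_nonneg _
    linarith
  refine ⟨fun ψ _ m n => pv_mul ψ m n, fun ψ _ n => pv_norm_le ψ n, ?_, ?_⟩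
  · intro ψ hψ a b
    have h3 := pc_pv_one ψ (hY.1 ψ hψ) (h2 ψ hψ) 1 a b
    simp only [one_mul] at h3
    refine h3.trans ?_
    have hr1 : (1 : ℝ) ≤ ψ.1 := by exact_mod_cast (hY.1 ψ hψ).1
    have hrN : (ψ.1 : ℝ) ≤ N := by
      have := hY.2 ψ hψ ψ hψ
      rwa [Nat.lcm_self] at this
    have h4 := hDv ψ.1 (hY.1 ψ hψ).1 hrN
    have h5 : Real.sqrt ψ.1 ≤ Real.sqrt N := Real.sqrt_le_sqrt hrN
    have h6 : Real.log ψ.1 ≤ Real.log N := Real.log_le_log (by linarith) hrN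
    have h7 : 0 ≤ Real.log ψ.1 := Real.log_nonneg hr1
    exact mul_le_mul (mul_le_mul h4 h5 (Real.sqrt_nonneg _) hDv0) (by linarith)
      (by linarith) (mul_nonneg hDv0 (Real.sqrt_nonneg _))
  · intro ψ hψ ψ' hψ' hne a b
    have h := pc_pv_fam hY hDv hψ hψ' hne 1 a b
    simpa using h

end Pool.MP_dd84fd_nt.BX
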