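import Pool.Agent.Lib.MP_dd84fd_nt.BX.LsH

/-!
# BX-LsG: rough weights, families up to modulus `X^(1 - ε)` (helper39)

`ls_pf`: the weighted large sieve with the Brun–Hooley majorant for a family of primitive
characters (the trivial character may belong to it).  `ls_rough`: for every weight bounded by `K0`
and supported on the `X^(ε/2000)`-rough numbers,
`∑_ψ (L²/X) ∫_{|x| ≤ T/X} |∑_{n ≤ X} w_n ψ(n) e(nx)|² dx ≤ C(ε) K0²`.
-/

set_option autoImplicit false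

namespace Pool.MP_dd84fd_nt.BX

open Finset Pool.MP_67663b_nt.Odd Pool.MP_dd84fd_nt.IX

/-- the weighted large sieve, `w n = ∑_{e ∣ n} lam e`, `|lam| ≤ 1` supported on `[1, E]` -/
theorem ls_two {ι : Type*} (Y : Finset ι) (f : ι → ℕ → ℂ) (hf : ∀ i ∈ Y, ∀ n, ‖f i n‖ ≤ 1)
    (hm : ∀ i ∈ Y, ∀ m n, f i (m * n) = f i m * f i n)
    (P : ℝ) (hP0 : 0 ≤ P)
    (hP : ∀ i ∈ Y, ∀ j ∈ Y, i ≠ j → ∀ a b : ℕ,
      ‖∑ n ∈ Ioc a b, f i n * (starRingEnd ℂ) (f j n)‖ ≤ P)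
    (E : ℝ) (hE : 0 ≤ E) (lam : ℕ → ℝ) (hl : ∀ e, |lam e| ≤ 1)
    (hs : ∀ e, lam e ≠ 0 → 1 ≤ e ∧ (e : ℝ) ≤ E) (u v : ℕ) (w : ℕ → ℝ)
    (hw : ∀ n ∈ Ioc u v, w n = ∑ e ∈ n.divisors, lam e)
    (hw0 : ∀ n ∈ Ioc u v, 0 ≤ w n) (a : ℕ → ℂ) (ha : ∀ n ∈ Ioc u v, w n = 0 → a n = 0) :
    ∑ i ∈ Y, ‖∑ n ∈ Ioc u v, a n * f i n‖ ^ 2 ≤
      (∑ n ∈ Ioc u v, w n + Y.card * E * P) * ∑ n ∈ Ioc u v, ‖a n‖ ^ 2 / w n := by
  have hdiv : ∀ n ∈ Ioc u v, w n = ∑ e ∈ Icc 1 ⌊E⌋₊, if e ∣ n then lam e else 0 := by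
    intro n hn
    have hn0 : n ≠ 0 := by rw [mem_Ioc] at hn; omega
    rw [hw n hn, ← sum_filter]
    symm
    apply sum_subset_zero_on_sdiff
    · intro e he
      rw [mem_filter] at he
      exact Nat.mem_divisors.2 ⟨he.2, hn0⟩
    · intro e he
      rw [mem_sdiff, mem_filter, mem_Icc, Nat.mem_divisors] at he
      by_contra hcon
      obtain ⟨h1, h2⟩ := hs e hcon
      exact he.2 ⟨⟨h1, Nat.le_floor h2⟩, he.1.1⟩
    · intro e _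
      rfl
  have h1 := ls_mul Y f hf hm P hP0 hP (Icc 1 ⌊E⌋₊) lam u v w hdiv hw0 a ha
  refine h1.trans ?_
  apply mul_le_mul_of_nonneg_right _
    (sum_nonneg fun n hn => div_nonneg (by positivity) (hw0 n hn))
  have h2 : ∑ e ∈ Icc 1 ⌊E⌋₊, |lam e| ≤ E := by
    calc ∑ e ∈ Icc 1 ⌊E⌋₊, |lam e| ≤ ∑ e ∈ Icc 1 ⌊E⌋₊, (1 : ℝ) := sum_le_sum fun e _ => hl e
      _ = (⌊E⌋₊ : ℝ) := by rw [sum_const, nsmul_eq_mul, mul_one, Nat.card_Icc]; simp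
      _ ≤ E := Nat.floor_le hE
  have h3 : (Y.card : ℝ) * (∑ e ∈ Icc 1 ⌊E⌋₊, |lam e|) * P ≤ Y.card * E * P :=
    mul_le_mul_of_nonneg_right (mul_le_mul_of_nonneg_left h2 (Nat.cast_nonneg _)) hP0
  linarith

/-- the Brun–Hooley weight, coefficients bounded by `A` where `SS z n = 1` and `0` elsewhere -/
theorem ls_two_le {ι : Type*} (Y : Finset ι) (f : ι → ℕ → ℂ) (hf : ∀ i ∈ Y, ∀ n, ‖f i n‖ ≤ 1)
    (hm : ∀ i ∈ Y, ∀ m n, f i (m * n) = f i m * f i n)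
    (P : ℝ) (hP0 : 0 ≤ P)
    (hP : ∀ i ∈ Y, ∀ j ∈ Y, i ≠ j → ∀ a b : ℕ,
      ‖∑ n ∈ Ioc a b, f i n * (starRingEnd ℂ) (f j n)‖ ≤ P)
    {z : ℝ} (hz : 2 ≤ z) (u v : ℕ) (huv : u ≤ v) (a : ℕ → ℂ) (A : ℝ)
    (ha : ∀ n ∈ Ioc u v, a n ≠ 0 → SS z n = 1) (hA : ∀ n ∈ Ioc u v, ‖a n‖ ≤ A) (K : ℝ)
    (hK : CB * ((v : ℝ) - u) / Real.log z + z ^ (132 : ℕ) + Y.card * z ^ (132 : ℕ) * P ≤ K) :
    ∑ i ∈ Y, ‖∑ n ∈ Ioc u v, a n * f i n‖ ^ 2 ≤ (A * K) ^ 2 := by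
  have hz0 : 0 < z := by linarith
  have h1 := ls_two Y f hf hm P hP0 hP (z ^ (132 : ℕ)) (by positivity) (lam z)
    (fun e => abs_lam z e) (fun e he => lam_supp hz he) u v (SS z)
    (fun n hn => SS_eq hz (by rw [mem_Ioc] at hn; omega)) (fun n _ => SS_nonneg z n) a
    (fun n hn h0 => by
      by_contra hcon
      rw [ha n hn hcon] at h0
      exact one_ne_zero h0)
  have hS := sum_SS hz u v huv
  have hS0 : 0 ≤ ∑ n ∈ Ioc u v, SS z n := sum_nonneg fun n _ => SS_nonneg z n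
  have hoff : 0 ≤ (Y.card : ℝ) * z ^ (132 : ℕ) * P := by positivity
  have h2 : ∑ n ∈ Ioc u v, ‖a n‖ ^ 2 / SS z n ≤ A ^ 2 * ∑ n ∈ Ioc u v, SS z n := by
    rw [mul_sum]
    refine sum_le_sum fun n hn => ?_
    by_cases h0 : a n = 0
    · rw [h0, norm_zero]
      have := SS_nonneg z n
      simp only [ne_eq, OfNat.ofNat_ne_zero, not_false_eq_true, zero_pow, zero_div]
      positivity
    · rw [ha n hn h0, div_one, mul_one]
      exact pow_le_pow_left₀ (norm_nonneg _) (hA n hn) 2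
  calc _ ≤ _ := h1
    _ ≤ K * (A ^ 2 * K) := by
        refine mul_le_mul ?_ (h2.trans ?_) ?_ ?_
        · linarith
        · exact mul_le_mul_of_nonneg_left (by linarith) (sq_nonneg A)
        · exact sum_nonneg fun n _ => div_nonneg (by positivity) (SS_nonneg z n)
        · linarith
    _ = (A * K) ^ 2 := by ring

/-- a family of primitive characters (the trivial character may belong to it) -/
theorem ls_pf {Y : Finset PC} {N Dv : ℝ} (hY : PFam Y N) (hN : 1 ≤ N) (hDv0 : 0 ≤ Dv)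
    (hDv : ∀ m : ℕ, 1 ≤ m → (m : ℝ) ≤ N → (m.divisors.card : ℝ) ≤ Dv)
    {z : ℝ} (hz : 2 ≤ z) (u v : ℕ) (huv : u ≤ v) (a : ℕ → ℂ) (A : ℝ)
    (ha : ∀ n ∈ Ioc u v, a n ≠ 0 → SS z n = 1) (hA : ∀ n ∈ Ioc u v, ‖a n‖ ≤ A) (K : ℝ)
    (hK : CB * ((v : ℝ) - u) / Real.log z + z ^ (132 : ℕ) +
      Y.card * z ^ (132 : ℕ) * (Dv * Real.sqrt N * (1 + Real.log N)) ≤ K) :
    ∑ ψ ∈ Y, ‖∑ n ∈ Ioc u v, a n * pv ψ n‖ ^ 2 ≤ (A * K) ^ 2 := by
  have hP0 : 0 ≤ Dv * Real.sqrt N * (1 + Real.log N) := by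
    have := Real.log_nonneg hN
    have := Real.sqrt_nonneg N
    positivity
  refine ls_two_le Y pv (fun ψ _ n => pv_norm_le ψ n) (fun ψ _ m n => pv_mul ψ m n) _ hP0 ?_
    hz u v huv a A ha hA K hK
  intro ψ hψ ψ' hψ' hne c d
  have h := pc_pv_fam hY hDv hψ hψ' hne 1 c d
  simpa using h

/-- the exponential sum of a weight -/
noncomputable def SXw (w : ℕ → ℂ) (X : ℕ) (ψ : PC) (x : ℝ) : ℂ :=
  ∑ n ∈ Icc 1 X, w n * pv ψ n * ee ((n : ℝ) * x)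

/-- `(L / √X) ‖SXw‖` in `L²(|x| ≤ T/X)` -/
noncomputable def sNw (w : ℕ → ℂ) (X : ℕ) (T : ℝ) (ψ : PC) : ℝ :=
  Real.log X / Real.sqrt X * Real.sqrt (∫ x in (-(T / X))..(T / X), ‖SXw w X ψ x‖ ^ 2)

theorem SXw_cont (w : ℕ → ℂ) (X : ℕ) (ψ : PC) : Continuous (SXw w X ψ) := by
  unfold SXw
  refine continuous_finsetSum _ (fun n _ => ?_)
  refine continuous_const.mul ?_
  unfold ee
  fun_prop

theorem sNw_sq (w : ℕ → ℂ) {X : ℕ} {T : ℝ} (hT : 0 ≤ T) (ψ : PC) :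
    sNw w X T ψ ^ 2 = Real.log X ^ 2 / X * ∫ x in (-(T / X))..(T / X), ‖SXw w X ψ x‖ ^ 2 := by
  have h1 : 0 ≤ T / X := by positivity
  have h3 : 0 ≤ ∫ x in (-(T / X))..(T / X), ‖SXw w X ψ x‖ ^ 2 := by
    apply intervalIntegral.integral_nonneg (by linarith)
    intro x _
    positivity
  unfold sNw
  rw [mul_pow, div_pow, Real.sq_sqrt (Nat.cast_nonneg X), Real.sq_sqrt h3]

/-- `sNw` of a family from the bound for the intervals -/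
theorem sum_sNw_win (w : ℕ → ℂ) {X H : ℕ} (hX : 1 ≤ X) (hH : 1 ≤ H) (hHX : H ≤ X) {T : ℝ}
    (hT : 0 ≤ T) (hTH : T / X ≤ 1 / (2 * H)) (Y : Finset PC) (K : ℝ)
    (hwin : ∀ u ∈ range (X + H), ∑ ψ ∈ Y,
      ‖∑ n ∈ Ioc (u - H) (min u X), w n * pv ψ n‖ ^ 2 ≤ K ^ 2) :
    ∑ ψ ∈ Y, sNw w X T ψ ^ 2 ≤ 5 * (Real.log X * K / H) ^ 2 := by
  have hX0 : (0 : ℝ) < X := by exact_mod_cast hX
  have hH0 : (0 : ℝ) < H := by exact_mod_cast hH
  have hgal : ∀ ψ ∈ Y, sNw w X T ψ ^ 2 ≤ Real.log X ^ 2 / X * ((Real.pi ^ 2 / 4) / (H : ℝ) ^ 2 *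
      ∑ u ∈ range (X + H), ‖∑ n ∈ Ioc (u - H) (min u X), w n * pv ψ n‖ ^ 2) := by
    intro ψ _
    have hc : Continuous fun x : ℝ => ‖SXw w X ψ x‖ ^ 2 := (SXw_cont w X ψ).norm.pow 2
    have hTX0 : 0 ≤ T / X := by positivity
    have h1 : ∫ x in (-(T / X))..(T / X), ‖SXw w X ψ x‖ ^ 2 ≤
        ∫ x in (-(1 / (2 * H) : ℝ))..(1 / (2 * H)), ‖SXw w X ψ x‖ ^ 2 := by
      apply intervalIntegral.integral_mono_interval (by linarith) (by linarith) hTH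
      · filter_upwards with x
        positivity
      · exact hc.intervalIntegrable _ _
    have h2 := gal X H hH (fun n => w n * pv ψ n)
    rw [sNw_sq w hT ψ]
    apply mul_le_mul_of_nonneg_left _ (by positivity)
    exact h1.trans h2
  calc ∑ ψ ∈ Y, sNw w X T ψ ^ 2 ≤ ∑ ψ ∈ Y, Real.log X ^ 2 / X * ((Real.pi ^ 2 / 4) / (H : ℝ) ^ 2 *
      ∑ u ∈ range (X + H), ‖∑ n ∈ Ioc (u - H) (min u X), w n * pv ψ n‖ ^ 2) :=
        sum_le_sum hgal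
    _ = Real.log X ^ 2 / X * ((Real.pi ^ 2 / 4) / (H : ℝ) ^ 2 * ∑ u ∈ range (X + H), ∑ ψ ∈ Y,
        ‖∑ n ∈ Ioc (u - H) (min u X), w n * pv ψ n‖ ^ 2) := by
        rw [← mul_sum, ← mul_sum, sum_comm]
    _ ≤ Real.log X ^ 2 / X * ((Real.pi ^ 2 / 4) / (H : ℝ) ^ 2 * ∑ u ∈ range (X + H), K ^ 2) := by
        gcongr with u hu
        exact hwin u hu
    _ = (Real.pi ^ 2 / 4) * (Real.log X * K / H) ^ 2 * ((X + H) / X) := by
        rw [sum_const, card_range, nsmul_eq_mul]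
        push_cast
        field_simp
    _ ≤ 5 * (Real.log X * K / H) ^ 2 := by
        have hHX' : (H : ℝ) ≤ X := by exact_mod_cast hHX
        have h1 : ((X : ℝ) + H) / X ≤ 2 := by
          rw [div_le_iff₀ hX0]; linarith
        have h2 : Real.pi ^ 2 / 4 ≤ 5 / 2 := by nlinarith [Real.pi_lt_d2, Real.pi_gt_three]
        have h3 : 0 ≤ (Real.log X * K / H) ^ 2 := by positivity
        have h4 : 0 ≤ ((X : ℝ) + H) / X := by positivity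
        calc (Real.pi ^ 2 / 4) * (Real.log X * K / H) ^ 2 * (((X : ℝ) + H) / X) ≤
            (5 / 2) * (Real.log X * K / H) ^ 2 * 2 := by
              apply mul_le_mul _ h1 h4 (by positivity)
              exact mul_le_mul_of_nonneg_right h2 h3
          _ = _ := by ring

private theorem lg_big (c a : ℝ) (ha : 0 < a) : ∃ X0 : ℕ, ∀ X : ℕ, X0 ≤ X → c ≤ (X : ℝ) ^ a := by
  have h1 := ((tendsto_rpow_atTop ha).comp
    (tendsto_natCast_atTop_atTop (R := ℝ))).eventually_ge_atTop c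
  exact Filter.eventually_atTop.1 h1

private theorem lg_log (B : ℕ) (c a : ℝ) (ha : 0 < a) : ∃ X0 : ℕ, ∀ X : ℕ, X0 ≤ X →
    c * (1 + Real.log X) ^ B ≤ (X : ℝ) ^ a := by
  have h1 : (fun x : ℝ => c * (1 + Real.log x) ^ B) =o[Filter.atTop] fun x => x ^ a := by
    have h2 : (fun x : ℝ => (1 + Real.log x) ^ B) =o[Filter.atTop] fun x => x ^ a := by
      rcases Nat.eq_zero_or_pos B with rfl | hB
      · simp only [pow_zero]
        exact (Asymptotics.isLittleO_const_left.2 (Or.inr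
          (tendsto_norm_atTop_atTop.comp (tendsto_rpow_atTop ha))))
      · have hB0 : (0 : ℝ) < B := by exact_mod_cast hB
        have h3 : (fun x : ℝ => 1 + Real.log x) =o[Filter.atTop] fun x => x ^ (a / B) := by
          refine Asymptotics.IsLittleO.add ?_ (isLittleO_log_rpow_atTop (by positivity))
          exact (Asymptotics.isLittleO_const_left.2 (Or.inr
            (tendsto_norm_atTop_atTop.comp (tendsto_rpow_atTop (by positivity)))))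
        have h4 := h3.pow (n := B) hB
        refine h4.congr' (Filter.EventuallyEq.rfl) ?_
        filter_upwards [Filter.eventually_ge_atTop 0] with x hx
        rw [← Real.rpow_natCast, ← Real.rpow_mul hx]
        congr 1
        field_simp
    exact h2.const_mul_left c
  have h5 := (h1.bound one_pos)
  have h6 := (tendsto_natCast_atTop_atTop (R := ℝ)).eventually h5
  obtain ⟨X1, hX1⟩ := Filter.eventually_atTop.1 h6
  refine ⟨X1, fun X hX => ?_⟩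
  have h7 := hX1 X hX
  rw [one_mul, Real.norm_eq_abs, Real.norm_eq_abs,
    abs_of_nonneg (Real.rpow_nonneg (Nat.cast_nonneg X) a)] at h7
  exact (le_abs_self _).trans h7

/-- the sum of the squares of the norms of a weight supported where `SS z n = 1`,
`z = X^(ε/2000)`, family with least common multiples `≤ X^(2 - 2ε)` -/
theorem sum_sNw_SS (ε : ℝ) (hε0 : 0 < ε) (hε1 : ε ≤ 1) (B : ℕ) : ∃ X0 : ℕ, ∀ X : ℕ, X0 ≤ X →
    ∀ T : ℝ, 1 ≤ T → T ≤ (Real.log X) ^ B → ∀ Y : Finset PC,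
    PFam Y ((X : ℝ) ^ (2 - 2 * ε)) → (Y.card : ℝ) ≤ (X : ℝ) ^ (ε / 10) →
    ∀ (w : ℕ → ℂ) (K0 : ℝ),
    (∀ n ∈ Icc 1 X, w n ≠ 0 → SS ((X : ℝ) ^ (ε / 2000)) n = 1) →
    (∀ n ∈ Icc 1 X, ‖w n‖ ≤ K0) →
    ∑ ψ ∈ Y, sNw w X T ψ ^ 2 ≤ 5 * (K0 * (2000 / ε * CB + 1)) ^ 2 := by
  obtain ⟨k, hk⟩ : ∃ k : ℕ, k = ⌈150 / ε⌉₊ := ⟨_, rfl⟩
  have hkε : 150 ≤ (k : ℝ) * ε := by
    have h1 : 150 / ε ≤ k := by rw [hk]; exact Nat.le_ceil _
    rwa [div_le_iff₀ hε0] at h1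
  obtain ⟨C, hC1, hC⟩ := Pool.Agent.Lib.MP_dd84fd_nt.DivBound.div_bound k
  obtain ⟨X1, hX1⟩ := lg_big (max (C : ℝ) 2) (ε / 2000) (by positivity)
  obtain ⟨X2, hX2⟩ := lg_log 1 2 (ε / 50) (by positivity)
  obtain ⟨X3, hX3⟩ := lg_log B 4 (ε / 4) (by positivity)
  obtain ⟨X4, hX4⟩ := lg_log 1 2 (ε / 4) (by positivity)
  refine ⟨max (max X1 X2) (max (max X3 X4) 3),
    fun X hX T hT1 hT2 Y hPF hYM w K0 hw hw0 => ?_⟩
  simp only [max_le_iff] at hX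
  obtain ⟨⟨a1, a2⟩, ⟨a3, a4⟩, a5⟩ := hX
  have hXn : (3 : ℝ) ≤ X := by exact_mod_cast a5
  have hX0 : (0 : ℝ) < X := by linarith
  have hX1r : (1 : ℝ) ≤ X := by linarith
  have b1 := hX1 X a1
  have b2 := hX2 X a2
  have b3 := hX3 X a3
  have b4 := hX4 X a4
  rw [pow_one] at b2 b4
  obtain ⟨L, hL⟩ : ∃ L : ℝ, L = Real.log X := ⟨_, rfl⟩
  have hL1 : 1 ≤ L := by
    rw [hL, Real.le_log_iff_exp_le hX0]
    exact (Real.exp_one_lt_d9.le.trans (by norm_num)).trans hXn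
  have hL0 : 0 < L := by linarith
  rw [← hL] at b2 b3 b4 hT2
  have hrp : ∀ a b : ℝ, (X : ℝ) ^ a * (X : ℝ) ^ b = (X : ℝ) ^ (a + b) := fun a b =>
    (Real.rpow_add hX0 a b).symm
  have hmono : ∀ a b : ℝ, a ≤ b → (X : ℝ) ^ a ≤ (X : ℝ) ^ b := fun a b h =>
    Real.rpow_le_rpow_of_exponent_le hX1r h
  have hK0 : 0 ≤ K0 := (norm_nonneg _).trans (hw0 1 (by rw [mem_Icc]; omega))
  -- parameters
  obtain ⟨z, hz⟩ : ∃ z : ℝ, z = (X : ℝ) ^ (ε / 2000) := ⟨_, rfl⟩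
  have hz2 : 2 ≤ z := by rw [hz]; exact (le_max_right _ _).trans b1
  have hzC : (C : ℝ) ≤ z := by rw [hz]; exact (le_max_left _ _).trans b1
  have hlz : Real.log z = ε * L / 2000 := by
    rw [hz, Real.log_rpow hX0, ← hL]; ring
  have hz4 : z ^ (132 : ℕ) = (X : ℝ) ^ (132 * ε / 2000) := by
    rw [hz, ← Real.rpow_natCast, ← Real.rpow_mul hX0.le]
    congr 1
    push_cast
    ring
  obtain ⟨N, hN⟩ : ∃ N : ℝ, N = (X : ℝ) ^ (2 - 2 * ε) := ⟨_, rfl⟩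
  have hN1 : 1 ≤ N := by rw [hN]; exact Real.one_le_rpow hX1r (by linarith)
  have hsN : Real.sqrt N = (X : ℝ) ^ (1 - ε) := by
    rw [hN, Real.sqrt_eq_rpow, ← Real.rpow_mul hX0.le]
    congr 1
    ring
  have hlN : Real.log N ≤ 2 * L := by
    rw [hN, Real.log_rpow hX0, ← hL]
    nlinarith
  obtain ⟨Dv, hDv⟩ : ∃ Dv : ℝ, Dv = (X : ℝ) ^ (ε / 50) := ⟨_, rfl⟩
  have hDv0 : 0 ≤ Dv := by rw [hDv]; positivity
  have hk0 : k ≠ 0 := by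
    rintro rfl
    simp only [Nat.cast_zero, zero_mul] at hkε
    linarith
  have hDvb : ∀ m : ℕ, 1 ≤ m → (m : ℝ) ≤ N → (m.divisors.card : ℝ) ≤ Dv := by
    intro m hm hmN
    have h1 := hC m (by omega)
    have h2 : (m.divisors.card : ℝ) ^ k ≤ C * m := by exact_mod_cast h1
    have h3 : (C : ℝ) * m ≤ (X : ℝ) ^ (ε / 2000) * (X : ℝ) ^ (2 - 2 * ε) := by
      rw [hN] at hmN
      rw [hz] at hzC
      exact mul_le_mul hzC hmN (Nat.cast_nonneg _) (by positivity)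
    rw [hrp] at h3
    have h4 : Dv ^ k = (X : ℝ) ^ (ε / 50 * k) := by
      rw [hDv, ← Real.rpow_natCast, ← Real.rpow_mul hX0.le]
    have h5 : (m.divisors.card : ℝ) ^ k ≤ Dv ^ k := by
      rw [h4]
      exact h2.trans (h3.trans (hmono _ _ (by linarith)))
    exact le_of_pow_le_pow_left₀ hk0 hDv0 h5
  -- the length of the intervals
  have hT0 : 0 < T := by linarith
  obtain ⟨H, hH⟩ : ∃ H : ℕ, H = ⌊(X : ℝ) / (2 * T)⌋₊ := ⟨_, rfl⟩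
  have hTX : T ≤ (X : ℝ) ^ (ε / 4) / 4 := by
    have h1 : L ^ B ≤ (1 + L) ^ B := pow_le_pow_left₀ (by linarith) (by linarith) B
    linarith
  have hH1 : (H : ℝ) ≤ X / (2 * T) := by rw [hH]; exact Nat.floor_le (by positivity)
  have hH2 : (X : ℝ) ^ (1 - ε / 4) ≤ H := by
    have h1 : (X : ℝ) / (2 * T) < (H : ℝ) + 1 := by rw [hH]; exact Nat.lt_floor_add_one _
    have h2 : 2 * (X : ℝ) ^ (1 - ε / 4) ≤ X / (2 * T) := by
      rw [le_div_iff₀ (by positivity)]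
      have h3 : (X : ℝ) ^ (1 - ε / 4) * (X : ℝ) ^ (ε / 4) = X := by
        rw [hrp]
        rw [show 1 - ε / 4 + ε / 4 = 1 by ring, Real.rpow_one]
      have h4 : 0 ≤ (X : ℝ) ^ (1 - ε / 4) := by positivity
      nlinarith
    have h5 : 1 ≤ (X : ℝ) ^ (1 - ε / 4) := Real.one_le_rpow hX1r (by linarith)
    linarith
  have hHr1 : (1 : ℝ) ≤ H := (Real.one_le_rpow hX1r (by linarith)).trans hH2
  have hHn : 1 ≤ H := by exact_mod_cast hHr1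
  have hH0 : (0 : ℝ) < H := by linarith
  have hHX : H ≤ X := by
    have h1 : (H : ℝ) ≤ X := by
      refine hH1.trans ?_
      rw [div_le_iff₀ (by positivity)]
      nlinarith
    exact_mod_cast h1
  have hTH : T / X ≤ 1 / (2 * H) := by
    rw [div_le_div_iff₀ hX0 (by positivity)]
    rw [le_div_iff₀ (by positivity)] at hH1
    linarith
  -- the bound for one interval
  obtain ⟨K, hK⟩ : ∃ K : ℝ, K = (2000 / ε * CB + 1) * H / L := ⟨_, rfl⟩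
  have hCB := CB_pos
  have hsmall : z ^ (132 : ℕ) + Y.card * z ^ (132 : ℕ) *
      (Dv * Real.sqrt N * (1 + Real.log N)) ≤ H / L := by
    have hlN0 := Real.log_nonneg hN1
    have h1 : (Y.card : ℝ) * z ^ (132 : ℕ) * (Dv * Real.sqrt N * (1 + Real.log N)) ≤
        (X : ℝ) ^ (1 - ε / 2) := by
      rw [hz4, hDv, hsN]
      have h2 : (Y.card : ℝ) * (1 + Real.log N) ≤ (X : ℝ) ^ (ε / 10 + ε / 50) := by
        calc (Y.card : ℝ) * (1 + Real.log N) ≤ (X : ℝ) ^ (ε / 10) * (2 * (1 + L)) :=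
              mul_le_mul hYM (by linarith) (by linarith) (by positivity)
          _ ≤ (X : ℝ) ^ (ε / 10) * (X : ℝ) ^ (ε / 50) :=
              mul_le_mul_of_nonneg_left b2 (by positivity)
          _ = _ := by rw [hrp]
      calc (Y.card : ℝ) * (X : ℝ) ^ (132 * ε / 2000) * ((X : ℝ) ^ (ε / 50) *
            (X : ℝ) ^ (1 - ε) * (1 + Real.log N)) =
            ((X : ℝ) ^ (132 * ε / 2000) * (X : ℝ) ^ (ε / 50) * (X : ℝ) ^ (1 - ε)) *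
              ((Y.card : ℝ) * (1 + Real.log N)) := by ring
        _ ≤ ((X : ℝ) ^ (132 * ε / 2000) * (X : ℝ) ^ (ε / 50) * (X : ℝ) ^ (1 - ε)) *
              (X : ℝ) ^ (ε / 10 + ε / 50) := mul_le_mul_of_nonneg_left h2 (by positivity)
        _ ≤ _ := by
            rw [hrp, hrp, hrp]
            exact hmono _ _ (by linarith)
    have h3 : z ^ (132 : ℕ) ≤ (X : ℝ) ^ (1 - ε / 2) := by
      rw [hz4]; exact hmono _ _ (by linarith)
    have h4 : 2 * (X : ℝ) ^ (1 - ε / 2) ≤ H / L := by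
      rw [le_div_iff₀ (by linarith)]
      have h5 : 2 * L ≤ (X : ℝ) ^ (ε / 4) := by linarith
      calc 2 * (X : ℝ) ^ (1 - ε / 2) * L = (X : ℝ) ^ (1 - ε / 2) * (2 * L) := by ring
        _ ≤ (X : ℝ) ^ (1 - ε / 2) * (X : ℝ) ^ (ε / 4) :=
            mul_le_mul_of_nonneg_left h5 (by positivity)
        _ ≤ (X : ℝ) ^ (1 - ε / 4) := by
            rw [hrp]; exact hmono _ _ (by linarith)
        _ ≤ H := hH2
    linarith
  have hwin : ∀ u ∈ range (X + H), ∑ ψ ∈ Y,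
      ‖∑ n ∈ Ioc (u - H) (min u X), w n * pv ψ n‖ ^ 2 ≤ (K0 * K) ^ 2 := by
    intro u hu
    rw [mem_range] at hu
    have huv : u - H ≤ min u X := by omega
    have hmem : ∀ n ∈ Ioc (u - H) (min u X), n ∈ Icc 1 X := by
      intro n hn
      rw [mem_Ioc] at hn
      rw [mem_Icc]
      omega
    rw [← hN] at hPF
    refine ls_pf hPF hN1 hDv0 hDvb hz2 (u - H) (min u X) huv w K0 ?_
      (fun n hn => hw0 n (hmem n hn)) K ?_
    · intro n hn hn0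
      rw [hz]
      exact hw n (hmem n hn) hn0
    have h1 : ((min u X : ℕ) : ℝ) - ((u - H : ℕ) : ℝ) ≤ H := by
      have h2 : min u X ≤ (u - H) + H := by omega
      have h3 : ((min u X : ℕ) : ℝ) ≤ ((u - H : ℕ) : ℝ) + H := by exact_mod_cast h2
      linarith
    have h4 : CB * (((min u X : ℕ) : ℝ) - ((u - H : ℕ) : ℝ)) / Real.log z ≤
        2000 / ε * CB * H / L := by
      rw [hlz]
      have h5 : 2000 / ε * CB * H / L = CB * H / (ε * L / 2000) := by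
        field_simp
      rw [h5]
      exact div_le_div_of_nonneg_right (mul_le_mul_of_nonneg_left h1 hCB.le) (by positivity)
    rw [hK]
    have h5 : (2000 / ε * CB + 1) * H / L = 2000 / ε * CB * H / L + H / L := by ring
    rw [h5]
    linarith
  have hfin := sum_sNw_win w (by omega) hHn hHX hT0.le hTH Y (K0 * K) hwin
  refine hfin.trans (le_of_eq ?_)
  rw [← hL, hK]
  congr 2
  field_simp

/-- **weights on rough numbers**: families with least common multiples `≤ X^(2 - 2ε)` -/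
theorem sum_sNw_rough (ε : ℝ) (hε0 : 0 < ε) (hε1 : ε ≤ 1) (B : ℕ) : ∃ X0 : ℕ, ∀ X : ℕ, X0 ≤ X →
    ∀ T : ℝ, 1 ≤ T → T ≤ (Real.log X) ^ B → ∀ Y : Finset PC,
    PFam Y ((X : ℝ) ^ (2 - 2 * ε)) → (Y.card : ℝ) ≤ (X : ℝ) ^ (ε / 10) →
    ∀ (w : ℕ → ℂ) (K0 : ℝ),
    (∀ n ∈ Icc 1 X, w n ≠ 0 → En.Rough ((X : ℝ) ^ (ε / 2000)) n) →
    (∀ n ∈ Icc 1 X, ‖w n‖ ≤ K0) →
    ∑ ψ ∈ Y, sNw w X T ψ ^ 2 ≤ 5 * (K0 * (2000 / ε * CB + 1)) ^ 2 := by
  obtain ⟨X0, hX0⟩ := sum_sNw_SS ε hε0 hε1 B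
  refine ⟨max X0 1, fun X hX T hT1 hT2 Y hY hYc w K0 hw hw0 => ?_⟩
  refine hX0 X ((le_max_left _ _).trans hX) T hT1 hT2 Y hY hYc w K0 (fun n hn hn0 => ?_) hw0
  have hXr : (1 : ℝ) ≤ X := by exact_mod_cast (le_max_right X0 1).trans hX
  exact SS_rough (Real.one_le_rpow hXr (by positivity)) (hw n hn hn0)

/-- the moduli `≤ X^(1 - ε)` -/
theorem pfam_sq {Y : Finset PC} {X : ℕ} {ε : ℝ} (hX : 1 ≤ X)
    (hY : ∀ ψ ∈ Y, IsPC ψ ∧ (ψ.1 : ℝ) ≤ (X : ℝ) ^ (1 - ε)) :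
    PFam Y ((X : ℝ) ^ (2 - 2 * ε)) := by
  have hX0 : (0 : ℝ) < X := by exact_mod_cast hX
  refine ⟨fun ψ hψ => (hY ψ hψ).1, fun ψ hψ ψ' hψ' => ?_⟩
  have h1 := (hY ψ hψ).2
  have h2 := (hY ψ' hψ').2
  have h3 : Nat.lcm ψ.1 ψ'.1 ≤ ψ.1 * ψ'.1 :=
    Nat.le_of_dvd (Nat.mul_pos (hY ψ hψ).1.1 (hY ψ' hψ').1.1) (Nat.lcm_dvd_mul _ _)
  calc (Nat.lcm ψ.1 ψ'.1 : ℝ) ≤ (ψ.1 : ℝ) * ψ'.1 := by exact_mod_cast h3
    _ ≤ (X : ℝ) ^ (1 - ε) * (X : ℝ) ^ (1 - ε) :=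
        mul_le_mul h1 h2 (Nat.cast_nonneg _) (by positivity)
    _ = (X : ℝ) ^ (2 - 2 * ε) := by
        rw [← Real.rpow_add hX0]
        congr 1
        ring

/-- **the number of heavy characters**, modulus `≤ X^(1 - ε)`, weights bounded by `K0` on
`X^(ε/2000)`-rough numbers -/
theorem hv_rough (ε κ K0 : ℝ) (hε0 : 0 < ε) (hε1 : ε ≤ 1) (hκ : 0 < κ) : ∃ M : ℕ,
    ∀ B : ℕ, ∃ X0 : ℕ, ∀ X : ℕ, X0 ≤ X → ∀ T : ℝ, 1 ≤ T → T ≤ (Real.log X) ^ B →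
    ∀ (w : ℕ → ℂ), (∀ n ∈ Icc 1 X, w n ≠ 0 → En.Rough ((X : ℝ) ^ (ε / 2000)) n) →
    (∀ n ∈ Icc 1 X, ‖w n‖ ≤ K0) → ∀ Y : Finset PC,
    (∀ ψ ∈ Y, IsPC ψ ∧ (ψ.1 : ℝ) ≤ (X : ℝ) ^ (1 - ε) ∧ κ ≤ sNw w X T ψ) → Y.card ≤ M := by
  obtain ⟨M, hM⟩ : ∃ M : ℕ, 5 * (K0 * (2000 / ε * CB + 1)) ^ 2 / κ ^ 2 < (M : ℝ) + 1 :=
    ⟨⌈5 * (K0 * (2000 / ε * CB + 1)) ^ 2 / κ ^ 2⌉₊, (Nat.le_ceil _).trans_lt (lt_add_one _)⟩
  refine ⟨M, fun B => ?_⟩
  obtain ⟨X0, hX0⟩ := sum_sNw_rough ε hε0 hε1 B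
  obtain ⟨X1, hX1⟩ := lg_big ((M : ℝ) + 1) (ε / 10) (by positivity)
  refine ⟨max (max X0 X1) 1, fun X hX T hT1 hT2 w hw hw0 Y hY => ?_⟩
  by_contra hcon
  rw [not_le] at hcon
  obtain ⟨Y', hY', hcard⟩ := exists_subset_card_eq (Nat.succ_le_of_lt hcon)
  have h1 := hX0 X (((le_max_left _ _).trans (le_max_left _ _)).trans hX) T hT1 hT2 Y'
    (pfam_sq ((le_max_right _ _).trans hX)
      (fun ψ hψ => ⟨(hY ψ (hY' hψ)).1, (hY ψ (hY' hψ)).2.1⟩)) (by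
    rw [hcard]
    push_cast
    exact hX1 X (((le_max_right _ _).trans (le_max_left _ _)).trans hX)) w K0 hw hw0
  have h2 : ((M : ℝ) + 1) * κ ^ 2 ≤ ∑ ψ ∈ Y', sNw w X T ψ ^ 2 := by
    calc ((M : ℝ) + 1) * κ ^ 2 = ∑ ψ ∈ Y', κ ^ 2 := by
          rw [sum_const, hcard, nsmul_eq_mul]
          push_cast
          ring
      _ ≤ _ := sum_le_sum fun ψ hψ => pow_le_pow_left₀ hκ.le (hY ψ (hY' hψ)).2.2 2
  rw [div_lt_iff₀ (by positivity)] at hM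
  linarith

/-- the weight of the primes -/
theorem sNw_wP (X : ℕ) (T : ℝ) (ψ : PC) :
    sNw (fun n => ((JX.wP X n : ℝ) : ℂ)) X T ψ = sN X T ψ := rfl

end Pool.MP_dd84fd_nt.BX
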