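import Pool.Agent.Lib.MP_dd84fd_nt.DivBound
import Pool.Agent.Lib.MP_dd84fd_nt.BX.AsDefs
import Pool.Agent.Lib.MP_dd84fd_nt.BX.Gal
import Pool.Agent.Lib.MP_dd84fd_nt.BX.LsC

/-!
# BX-LsH: the number of heavy characters (helper39)

`∑_ψ sN(ψ)² ≤ C` for every family of boundedly many primitive characters of modulus `≤ X^(2/3)`:
Gallagher's lemma (`gal`), the large sieve with the Brun–Hooley majorant (`ls_w`, `SS z`,
`z = X^(1/1000)`) on intervals of length `X/(2T)`.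
-/

set_option autoImplicit false

namespace Pool.MP_dd84fd_nt.BX

open Finset Pool.MP_67663b_nt.Odd Pool.MP_dd84fd_nt.IX
open Pool.MP_dd84fd_nt.JX (wP)

private theorem lh_big (c a : ℝ) (ha : 0 < a) : ∃ X0 : ℕ, ∀ X : ℕ, X0 ≤ X → c ≤ (X : ℝ) ^ a := by
  have h1 := ((tendsto_rpow_atTop ha).comp
    (tendsto_natCast_atTop_atTop (R := ℝ))).eventually_ge_atTop c
  exact Filter.eventually_atTop.1 h1

private theorem lh_log (B : ℕ) (c a : ℝ) (ha : 0 < a) : ∃ X0 : ℕ, ∀ X : ℕ, X0 ≤ X →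
    c * (1 + Real.log X) ^ B ≤ (X : ℝ) ^ a := by
  have h1 : (fun x : ℝ => c * (1 + Real.log x) ^ B) =o[Filter.atTop] fun x => x ^ a := by
    have h2 : (fun x : ℝ => (1 + Real.log x) ^ B) =o[Filter.atTop] fun x => x ^ a := by
      rcases Nat.eq_zero_or_pos B with rfl | hB
      · simp only [pow_zero]
        exact (Asymptotics.isLittleO_const_left.2 (Or.inr
          (tendsto_norm_atTop_atTop.comp (tendsto_rpow_atTop ha))))
      · have hB0 : (0 : ℝ) < B := by exact_mod_cast hB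
        have h3 : (fun x : ℝ => 1 + Real.log x) =o[Filter.atTop] fun x => x ^ (a / B) := by
          refine Asymptotics.IsLittleO.add ?_ (isLittleO_log_rpow_atTop (by positivity))
          exact (Asymptotics.isLittleO_const_left.2 (Or.inr
            (tendsto_norm_atTop_atTop.comp (tendsto_rpow_atTop (by positivity)))))
        have h4 := h3.pow (n := B) hB
        refine h4.congr' (Filter.EventuallyEq.rfl) ?_
        filter_upwards [Filter.eventually_ge_atTop 0] with x hx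
        rw [← Real.rpow_natCast, ← Real.rpow_mul hx]
        congr 1
        field_simp
    exact h2.const_mul_left c
  have h5 := (h1.bound one_pos)
  have h6 := (tendsto_natCast_atTop_atTop (R := ℝ)).eventually h5
  obtain ⟨X1, hX1⟩ := Filter.eventually_atTop.1 h6
  refine ⟨X1, fun X hX => ?_⟩
  have h7 := hX1 X hX
  rw [one_mul, Real.norm_eq_abs, Real.norm_eq_abs,
    abs_of_nonneg (Real.rpow_nonneg (Nat.cast_nonneg X) a)] at h7
  exact (le_abs_self _).trans h7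

/-- the large sieve on one interval -/
private theorem lh_win (X : ℕ) (z P : ℝ) (hz : 2 ≤ z) (hzX : z ≤ (X : ℝ) ^ (1 / 10 : ℝ))
    (hP : 0 ≤ P) (Y : Finset PC) (hY : ChF Y pv P P) (u v : ℕ) (huv : u ≤ v) (K : ℝ)
    (hK : CB * ((v : ℝ) - u) / Real.log z + z ^ (132 : ℕ) + Y.card * z ^ (132 : ℕ) * P ≤ K) :
    ∑ ψ ∈ Y, ‖∑ n ∈ Ioc u v, ((wP X n : ℝ) : ℂ) * pv ψ n‖ ^ 2 ≤ K ^ 2 := by
  have hz1 : 1 ≤ z := by linarith
  have h1 := ls_SS_le hY hP hz u v huv (fun n => ((wP X n : ℝ) : ℂ)) 1 (by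
    intro n _ hn
    have hn' : wP X n ≠ 0 := fun h => hn (by rw [h]; simp)
    unfold JX.wP at hn'
    split_ifs at hn' with h
    · refine SS_prime hz1 h.1 ?_
      have h2 : (X : ℝ) ^ (1 / 10 : ℝ) ≤ (zI X : ℕ) := by unfold zI; exact Nat.le_ceil _
      have h3 : ((zI X : ℕ) : ℝ) ≤ n := by exact_mod_cast h.2
      linarith
    · exact absurd rfl hn') (by
    intro n _
    rw [Complex.norm_real]
    unfold JX.wP
    split_ifs <;> simp) K hK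
  rwa [one_mul] at h1

/-- the sum of the squares of the norms -/
theorem sum_sN (B : ℕ) : ∃ X0 : ℕ, ∀ X : ℕ, X0 ≤ X →
    ∀ T : ℝ, 1 ≤ T → T ≤ (Real.log X) ^ B → ∀ Y : Finset PC,
    (Y.card : ℝ) ≤ (X : ℝ) ^ (1 / 1000 : ℝ) →
    (∀ ψ ∈ Y, IsPC ψ ∧ 2 ≤ ψ.1 ∧ (ψ.1 : ℝ) ≤ (X : ℝ) ^ (2 / 3 : ℝ)) →
    ∑ ψ ∈ Y, sN X T ψ ^ 2 ≤ 5 * (1000 * CB + 1) ^ 2 := by
  obtain ⟨C, hC1, hC⟩ := Pool.Agent.Lib.MP_dd84fd_nt.DivBound.div_bound 100
  obtain ⟨X1, hX1⟩ := lh_big (max (C : ℝ) 2) (1 / 1000) (by norm_num)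
  obtain ⟨X2, hX2⟩ := lh_log 1 2 (1 / 1000) (by norm_num)
  obtain ⟨X3, hX3⟩ := lh_log B 4 (1 / 30) (by norm_num)
  obtain ⟨X4, hX4⟩ := lh_log 1 2 (1 / 30) (by norm_num)
  refine ⟨max (max X1 X2) (max (max X3 X4) 3), fun X hX T hT1 hT2 Y hYM hY => ?_⟩
  simp only [max_le_iff] at hX
  obtain ⟨⟨a1, a2⟩, ⟨a3, a4⟩, a5⟩ := hX
  have hXn : (3 : ℝ) ≤ X := by exact_mod_cast a5
  have hX0 : (0 : ℝ) < X := by linarith
  have hX1r : (1 : ℝ) ≤ X := by linarith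
  have b1 := hX1 X a1
  have b2 := hX2 X a2
  have b3 := hX3 X a3
  have b4 := hX4 X a4
  rw [pow_one] at b2 b4
  obtain ⟨L, hL⟩ : ∃ L : ℝ, L = Real.log X := ⟨_, rfl⟩
  have hL1 : 1 ≤ L := by
    rw [hL, Real.le_log_iff_exp_le hX0]
    exact (Real.exp_one_lt_d9.le.trans (by norm_num)).trans hXn
  rw [← hL] at b2 b3 b4 hT2
  have hrp : ∀ a b : ℝ, (X : ℝ) ^ a * (X : ℝ) ^ b = (X : ℝ) ^ (a + b) := fun a b =>
    (Real.rpow_add hX0 a b).symm
  have hmono : ∀ a b : ℝ, a ≤ b → (X : ℝ) ^ a ≤ (X : ℝ) ^ b := fun a b h =>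
    Real.rpow_le_rpow_of_exponent_le hX1r h
  -- parameters
  obtain ⟨z, hz⟩ : ∃ z : ℝ, z = (X : ℝ) ^ (1 / 1000 : ℝ) := ⟨_, rfl⟩
  have hz2 : 2 ≤ z := by rw [hz]; exact (le_max_right _ _).trans b1
  have hzC : (C : ℝ) ≤ z := by rw [hz]; exact (le_max_left _ _).trans b1
  have hlz : Real.log z = L / 1000 := by
    rw [hz, Real.log_rpow hX0, ← hL]; ring
  have hz4 : z ^ (132 : ℕ) = (X : ℝ) ^ (132 / 1000 : ℝ) := by
    rw [hz, ← Real.rpow_natCast, ← Real.rpow_mul hX0.le]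
    norm_num
  have hzX : z ≤ (X : ℝ) ^ (1 / 10 : ℝ) := by rw [hz]; exact hmono _ _ (by norm_num)
  obtain ⟨N, hN⟩ : ∃ N : ℝ, N = (X : ℝ) ^ (4 / 3 : ℝ) := ⟨_, rfl⟩
  have hN1 : 1 ≤ N := by rw [hN]; exact Real.one_le_rpow hX1r (by norm_num)
  have hsN : Real.sqrt N = (X : ℝ) ^ (2 / 3 : ℝ) := by
    rw [hN, Real.sqrt_eq_rpow, ← Real.rpow_mul hX0.le]
    norm_num
  have hlN : Real.log N ≤ 2 * L := by
    rw [hN, Real.log_rpow hX0, ← hL]
    nlinarith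
  obtain ⟨Dv, hDv⟩ : ∃ Dv : ℝ, Dv = (X : ℝ) ^ (1 / 50 : ℝ) := ⟨_, rfl⟩
  have hDv0 : 0 ≤ Dv := by rw [hDv]; positivity
  have hDvb : ∀ m : ℕ, 1 ≤ m → (m : ℝ) ≤ N → (m.divisors.card : ℝ) ≤ Dv := by
    intro m hm hmN
    have h1 := hC m (by omega)
    have h2 : (m.divisors.card : ℝ) ^ 100 ≤ C * m := by exact_mod_cast h1
    have h3 : (C : ℝ) * m ≤ (X : ℝ) ^ (1 / 1000 : ℝ) * (X : ℝ) ^ (4 / 3 : ℝ) := by
      rw [hN] at hmN
      rw [hz] at hzC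
      exact mul_le_mul hzC hmN (Nat.cast_nonneg _) (by positivity)
    rw [hrp] at h3
    have h4 : Dv ^ 100 = (X : ℝ) ^ (2 : ℝ) := by
      rw [hDv, ← Real.rpow_natCast, ← Real.rpow_mul hX0.le]
      norm_num
    have h5 : (m.divisors.card : ℝ) ^ 100 ≤ Dv ^ 100 := by
      rw [h4]
      exact h2.trans (h3.trans (hmono _ _ (by norm_num)))
    exact le_of_pow_le_pow_left₀ (by norm_num) hDv0 h5
  have hPF : PFam Y N := by
    refine ⟨fun ψ hψ => (hY ψ hψ).1, fun ψ hψ ψ' hψ' => ?_⟩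
    have h1 := (hY ψ hψ).2.2
    have h2 := (hY ψ' hψ').2.2
    have h3 : Nat.lcm ψ.1 ψ'.1 ≤ ψ.1 * ψ'.1 :=
      Nat.le_of_dvd (Nat.mul_pos (hY ψ hψ).1.1 (hY ψ' hψ').1.1) (Nat.lcm_dvd_mul _ _)
    calc (Nat.lcm ψ.1 ψ'.1 : ℝ) ≤ (ψ.1 : ℝ) * ψ'.1 := by exact_mod_cast h3
      _ ≤ (X : ℝ) ^ (2 / 3 : ℝ) * (X : ℝ) ^ (2 / 3 : ℝ) :=
          mul_le_mul h1 h2 (Nat.cast_nonneg _) (by positivity)
      _ = N := by rw [hrp, hN]; norm_num
  -- the length of the intervals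
  have hT0 : 0 < T := by linarith
  obtain ⟨H, hH⟩ : ∃ H : ℕ, H = ⌊(X : ℝ) / (2 * T)⌋₊ := ⟨_, rfl⟩
  have hTX : T ≤ (X : ℝ) ^ (1 / 30 : ℝ) / 4 := by
    have h1 : L ^ B ≤ (1 + L) ^ B := pow_le_pow_left₀ (by linarith) (by linarith) B
    linarith
  have hH1 : (H : ℝ) ≤ X / (2 * T) := by rw [hH]; exact Nat.floor_le (by positivity)
  have hH2 : (X : ℝ) ^ (29 / 30 : ℝ) ≤ H := by
    have h1 : (X : ℝ) / (2 * T) < (H : ℝ) + 1 := by rw [hH]; exact Nat.lt_floor_add_one _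
    have h2 : 2 * (X : ℝ) ^ (29 / 30 : ℝ) ≤ X / (2 * T) := by
      rw [le_div_iff₀ (by positivity)]
      have h3 : (X : ℝ) ^ (29 / 30 : ℝ) * (X : ℝ) ^ (1 / 30 : ℝ) = X := by
        rw [hrp]; norm_num
      have h4 : 0 ≤ (X : ℝ) ^ (29 / 30 : ℝ) := by positivity
      nlinarith
    have h5 : 1 ≤ (X : ℝ) ^ (29 / 30 : ℝ) := Real.one_le_rpow hX1r (by norm_num)
    linarith
  have hHr1 : (1 : ℝ) ≤ H := (Real.one_le_rpow hX1r (by norm_num)).trans hH2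
  have hHn : 1 ≤ H := by exact_mod_cast hHr1
  have hH0 : (0 : ℝ) < H := by linarith
  have hHX : (H : ℝ) ≤ X := by
    refine hH1.trans ?_
    rw [div_le_iff₀ (by positivity)]
    nlinarith
  have hTH : T / X ≤ 1 / (2 * H) := by
    rw [div_le_div_iff₀ hX0 (by positivity)]
    rw [le_div_iff₀ (by positivity)] at hH1
    linarith
  -- the bound for one interval
  obtain ⟨K, hK⟩ : ∃ K : ℝ, K = (1000 * CB + 1) * H / L := ⟨_, rfl⟩
  have hCB := CB_pos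
  obtain ⟨P, hP⟩ : ∃ P : ℝ, P = Dv * Real.sqrt N * (1 + Real.log N) := ⟨_, rfl⟩
  have hlN0 := Real.log_nonneg hN1
  have hP0 : 0 ≤ P := by rw [hP]; positivity
  have hch : ChF Y pv P P := by
    rw [hP]
    exact hPF.chF hN1 hDvb (fun ψ hψ => (hY ψ hψ).2.1)
  have hsmall : z ^ (132 : ℕ) + Y.card * z ^ (132 : ℕ) * P ≤ H / L := by
    have h1 : (Y.card : ℝ) * z ^ (132 : ℕ) * P ≤ (X : ℝ) ^ (9 / 10 : ℝ) := by
      rw [hP, hz4, hDv, hsN]
      have h2 : (Y.card : ℝ) * (1 + Real.log N) ≤ (X : ℝ) ^ (2 / 1000 : ℝ) := by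
        calc (Y.card : ℝ) * (1 + Real.log N) ≤ (X : ℝ) ^ (1 / 1000 : ℝ) * (2 * (1 + L)) :=
              mul_le_mul hYM (by linarith) (by linarith) (by positivity)
          _ ≤ (X : ℝ) ^ (1 / 1000 : ℝ) * (X : ℝ) ^ (1 / 1000 : ℝ) :=
              mul_le_mul_of_nonneg_left b2 (by positivity)
          _ ≤ _ := by rw [hrp]; exact hmono _ _ (by norm_num)
      calc (Y.card : ℝ) * (X : ℝ) ^ (132 / 1000 : ℝ) * ((X : ℝ) ^ (1 / 50 : ℝ) *
            (X : ℝ) ^ (2 / 3 : ℝ) * (1 + Real.log N)) =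
            ((X : ℝ) ^ (132 / 1000 : ℝ) * (X : ℝ) ^ (1 / 50 : ℝ) * (X : ℝ) ^ (2 / 3 : ℝ)) *
              ((Y.card : ℝ) * (1 + Real.log N)) := by ring
        _ ≤ ((X : ℝ) ^ (132 / 1000 : ℝ) * (X : ℝ) ^ (1 / 50 : ℝ) * (X : ℝ) ^ (2 / 3 : ℝ)) *
              (X : ℝ) ^ (2 / 1000 : ℝ) := mul_le_mul_of_nonneg_left h2 (by positivity)
        _ ≤ _ := by
            rw [hrp, hrp, hrp]
            exact hmono _ _ (by norm_num)
    have h3 : z ^ (132 : ℕ) ≤ (X : ℝ) ^ (9 / 10 : ℝ) := by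
      rw [hz4]; exact hmono _ _ (by norm_num)
    have h4 : 2 * (X : ℝ) ^ (9 / 10 : ℝ) ≤ H / L := by
      rw [le_div_iff₀ (by linarith)]
      have h5 : 2 * L ≤ (X : ℝ) ^ (1 / 30 : ℝ) := by linarith
      calc 2 * (X : ℝ) ^ (9 / 10 : ℝ) * L = (X : ℝ) ^ (9 / 10 : ℝ) * (2 * L) := by ring
        _ ≤ (X : ℝ) ^ (9 / 10 : ℝ) * (X : ℝ) ^ (1 / 30 : ℝ) :=
            mul_le_mul_of_nonneg_left h5 (by positivity)
        _ ≤ (X : ℝ) ^ (29 / 30 : ℝ) := by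
            rw [hrp]; exact hmono _ _ (by norm_num)
        _ ≤ H := hH2
    linarith
  have hwin : ∀ u ∈ range (X + H), ∑ ψ ∈ Y,
      ‖∑ n ∈ Ioc (u - H) (min u X), ((wP X n : ℝ) : ℂ) * pv ψ n‖ ^ 2 ≤ K ^ 2 := by
    intro u hu
    rw [mem_range] at hu
    have huv : u - H ≤ min u X := by omega
    refine lh_win X z P hz2 hzX hP0 Y hch (u - H) (min u X) huv K ?_
    have h1 : ((min u X : ℕ) : ℝ) - ((u - H : ℕ) : ℝ) ≤ H := by
      have h2 : min u X ≤ (u - H) + H := by omega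
      have h3 : ((min u X : ℕ) : ℝ) ≤ ((u - H : ℕ) : ℝ) + H := by exact_mod_cast h2
      linarith
    have h4 : CB * (((min u X : ℕ) : ℝ) - ((u - H : ℕ) : ℝ)) / Real.log z ≤
        1000 * CB * H / L := by
      rw [hlz, div_le_div_iff₀ (by linarith) (by linarith)]
      nlinarith [mul_le_mul_of_nonneg_left h1 (mul_nonneg hCB.le (by linarith : (0 : ℝ) ≤ L))]
    rw [hK]
    have h5 : (1000 * CB + 1) * H / L = 1000 * CB * H / L + H / L := by ring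
    rw [h5]
    linarith
  -- Gallagher
  have hgal : ∀ ψ ∈ Y, sN X T ψ ^ 2 ≤ L ^ 2 / X * ((Real.pi ^ 2 / 4) / (H : ℝ) ^ 2 *
      ∑ u ∈ range (X + H), ‖∑ n ∈ Ioc (u - H) (min u X), ((wP X n : ℝ) : ℂ) * pv ψ n‖ ^ 2) := by
    intro ψ _
    have hc : Continuous fun x : ℝ => ‖SX X ψ x‖ ^ 2 := by
      have : Continuous fun x : ℝ => SX X ψ x := by
        unfold SX
        refine continuous_finsetSum _ (fun n _ => ?_)
        refine continuous_const.mul ?_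
        unfold ee
        fun_prop
      exact this.norm.pow 2
    have hTX0 : 0 ≤ T / X := by positivity
    have h1 : ∫ x in (-(T / X))..(T / X), ‖SX X ψ x‖ ^ 2 ≤
        ∫ x in (-(1 / (2 * H) : ℝ))..(1 / (2 * H)), ‖SX X ψ x‖ ^ 2 := by
      apply intervalIntegral.integral_mono_interval (by linarith) (by linarith) hTH
      · filter_upwards with x
        positivity
      · exact hc.intervalIntegrable _ _
    have h2 := gal X H hHn (fun n => ((wP X n : ℝ) : ℂ) * pv ψ n)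
    have h3 : 0 ≤ ∫ x in (-(T / X))..(T / X), ‖SX X ψ x‖ ^ 2 := by
      apply intervalIntegral.integral_nonneg (by linarith)
      intro x _
      positivity
    have h4 : sN X T ψ ^ 2 = L ^ 2 / X * ∫ x in (-(T / X))..(T / X), ‖SX X ψ x‖ ^ 2 := by
      unfold sN
      rw [mul_pow, div_pow, Real.sq_sqrt hX0.le, Real.sq_sqrt h3, ← hL]
    rw [h4]
    apply mul_le_mul_of_nonneg_left _ (by positivity)
    exact h1.trans h2
  calc ∑ ψ ∈ Y, sN X T ψ ^ 2 ≤ ∑ ψ ∈ Y, L ^ 2 / X * ((Real.pi ^ 2 / 4) / (H : ℝ) ^ 2 *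
      ∑ u ∈ range (X + H), ‖∑ n ∈ Ioc (u - H) (min u X), ((wP X n : ℝ) : ℂ) * pv ψ n‖ ^ 2) :=
        sum_le_sum hgal
    _ = L ^ 2 / X * ((Real.pi ^ 2 / 4) / (H : ℝ) ^ 2 * ∑ u ∈ range (X + H), ∑ ψ ∈ Y,
        ‖∑ n ∈ Ioc (u - H) (min u X), ((wP X n : ℝ) : ℂ) * pv ψ n‖ ^ 2) := by
        rw [← mul_sum, ← mul_sum, sum_comm]
    _ ≤ L ^ 2 / X * ((Real.pi ^ 2 / 4) / (H : ℝ) ^ 2 * ∑ u ∈ range (X + H), K ^ 2) := by
        gcongr with u hu
        exact hwin u hu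
    _ = (Real.pi ^ 2 / 4) * (1000 * CB + 1) ^ 2 * ((X + H) / X) := by
        rw [sum_const, card_range, nsmul_eq_mul, hK]
        push_cast
        field_simp
    _ ≤ 5 * (1000 * CB + 1) ^ 2 := by
        have h1 : ((X : ℝ) + H) / X ≤ 2 := by
          rw [div_le_iff₀ hX0]; linarith
        have h2 : Real.pi ^ 2 / 4 ≤ 5 / 2 := by nlinarith [Real.pi_lt_d2, Real.pi_gt_three]
        have h3 : 0 ≤ (1000 * CB + 1) ^ 2 := by positivity
        have h4 : 0 ≤ ((X : ℝ) + H) / X := by positivity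
        calc (Real.pi ^ 2 / 4) * (1000 * CB + 1) ^ 2 * (((X : ℝ) + H) / X) ≤
            (5 / 2) * (1000 * CB + 1) ^ 2 * 2 := by
              apply mul_le_mul _ h1 h4 (by positivity)
              exact mul_le_mul_of_nonneg_right h2 h3
          _ = _ := by ring

/-- the number of heavy characters -/
theorem hvBD : HvBD := by
  intro ε κ hε hκ
  obtain ⟨M, hM⟩ : ∃ M : ℕ, 5 * (1000 * CB + 1) ^ 2 / κ ^ 2 < (M : ℝ) + 1 :=
    ⟨⌈5 * (1000 * CB + 1) ^ 2 / κ ^ 2⌉₊, (Nat.le_ceil _).trans_lt (lt_add_one _)⟩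
  refine ⟨M, fun B => ?_⟩
  obtain ⟨X0, hX0⟩ := sum_sN B
  obtain ⟨X1, hX1⟩ := lh_big ((M : ℝ) + 1) (1 / 1000) (by norm_num)
  refine ⟨max (max X0 X1) 1, fun X hX T hT1 hT2 Y hY => ?_⟩
  by_contra hcon
  rw [not_le] at hcon
  obtain ⟨Y', hY', hcard⟩ := exists_subset_card_eq (Nat.succ_le_of_lt hcon)
  have hXr : (1 : ℝ) ≤ X := by exact_mod_cast (le_max_right (max X0 X1) 1).trans hX
  have h1 := hX0 X (((le_max_left _ _).trans (le_max_left _ _)).trans hX) T hT1 hT2 Y' (by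
    rw [hcard]
    push_cast
    exact hX1 X (((le_max_right _ _).trans (le_max_left _ _)).trans hX)) (by
    intro ψ hψ
    obtain ⟨h2, h4, h3, -⟩ := hY ψ (hY' hψ)
    refine ⟨h2, h4, h3.trans ?_⟩
    exact Real.rpow_le_rpow_of_exponent_le hXr (by linarith))
  have h2 : ((M : ℝ) + 1) * κ ^ 2 ≤ ∑ ψ ∈ Y', sN X T ψ ^ 2 := by
    calc ((M : ℝ) + 1) * κ ^ 2 = ∑ ψ ∈ Y', κ ^ 2 := by
          rw [sum_const, hcard, nsmul_eq_mul]
          push_cast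
          ring
      _ ≤ _ := sum_le_sum fun ψ hψ => pow_le_pow_left₀ hκ.le (hY ψ (hY' hψ)).2.2.2 2
  rw [div_lt_iff₀ (by positivity)] at hM
  linarith

end Pool.MP_dd84fd_nt.BX
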