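import Pool.Agent.Lib.MP_dd84fd_nt.BX.ArDefs
import Pool.Agent.Lib.MP_dd84fd_nt.DX.LtMain
import Pool.Agent.Lib.MP_dd84fd_nt.JX.DcP

/-!
# BX-Lt: the light characters (helper33)

`lightBD : LightBD` from `DX.lt_core` and the decomposition of the primes `JX.decP`.
-/

set_option autoImplicit false

namespace Pool.MP_dd84fd_nt.BX

open Finset Pool.MP_67663b_nt.Odd Pool.MP_dd84fd_nt.En Pool.MP_dd84fd_nt.E2 Pool.MP_dd84fd_nt.LS
open Pool.MP_dd84fd_nt.GX Pool.MP_dd84fd_nt.HX Pool.MP_dd84fd_nt.IX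
open Pool.MP_dd84fd_nt.PL (rr Fam)
open Pool.MP_dd84fd_nt.JX (wP gP Adm)
open Pool.MP_dd84fd_nt.LXP (tq)

/-- the light characters -/
theorem lightBD : LightBD := by
  classical
  intro e th he0 he1 hth1 hth2 B K2
  have hA : Adm th e (1 / 10) := ⟨by linarith, hth2, he0, le_refl _, by linarith⟩
  obtain ⟨C2, hC2⟩ := Pool.MP_dd84fd_nt.JX.decP (B + 8)
  have hd := hC2 th e (1 / 10) hA (by linarith)
  obtain ⟨A', hA'⟩ := DX.lt_core B 1 C2 K2 (1 / 10) (by norm_num)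
  have hw : ∃ X1 : ℕ, ∀ X : ℕ, X1 ≤ X → ∀ n, |wP X n| ≤ ((1 : ℕ) : ℝ) := by
    refine ⟨0, fun X _ n => ?_⟩
    unfold wP
    split_ifs
    · simp
    · simp
  obtain ⟨X0, hX0⟩ := hA' th e hA wP hw hd
  refine ⟨A', max X0 2, fun X hX QQ N hq1 hlcm hcard hN => ?_⟩
  rcases QQ.eq_empty_or_nonempty with rfl | hne
  · rw [sum_empty]
    have := Real.log_natCast_nonneg X
    positivity
  obtain ⟨q0, hq0⟩ := hne
  have hN1 : 1 ≤ N := by
    have h1 := hlcm q0 hq0 q0 hq0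
    rw [Nat.lcm_self] at h1
    have h2 : (1 : ℝ) ≤ q0 := by exact_mod_cast hq1 q0 hq0
    linarith
  -- the light characters
  set Y : (q : ℕ) → Finset (DirichletCharacter ℂ q) := fun q =>
    if h : q = 0 then ∅ else
      haveI : NeZero q := ⟨h⟩
      (univ : Finset (DirichletCharacter ℂ q)).filter
        (fun χ => χ ≠ 1 ∧ sN X (4 * (Real.log X) ^ K2) ⟨q, χ⟩ ≤ 1 / (Real.log X) ^ A') with hY
  have key := hX0 X ((le_max_left _ _).trans hX) QQ N ⟨hq1, hlcm⟩ hN1 hN hcard Y (by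
    intro q hq χ hχ
    have h0 : q ≠ 0 := by have := hq1 q hq; omega
    rw [hY] at hχ
    simp only [dif_neg h0, mem_filter] at hχ
    exact hχ.2)
  refine le_trans (le_of_eq ?_) key
  refine sum_congr rfl fun q hq => ?_
  have h0 : q ≠ 0 := by have := hq1 q hq; omega
  haveI : NeZero q := ⟨h0⟩
  unfold LtQ
  rw [hY]
  simp only [dif_neg h0]
  refine sum_congr rfl fun χ _ => ?_
  rw [← DX.gs_eq q χ⁻¹, DX.gs_inv_lt q χ]
  rfl

end Pool.MP_dd84fd_nt.BX
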