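import Pool.Agent.Lib.MP_dd84fd_nt.JX.JF2
import Pool.Agent.Lib.MP_dd84fd_nt.IY.CMn
import Pool.Agent.Lib.MP_dd84fd_nt.BX.PgDefs
import Mathlib.Data.Nat.Totient

/-!
# BX-PgFin: the asymptotic formula with boundedly many moduli

`C2 n/φ(n) ≤ SS n` for even `n`, `n/(8L²) ≤ JJ n` (`IY.JJ_ge`); one scale `(X/2, X]`.
-/

set_option autoImplicit false

namespace Pool.MP_dd84fd_nt.BX

open Finset Pool.MP_67663b_nt.Odd Pool.MP_dd84fd_nt.En Pool.MP_dd84fd_nt.E2 Pool.MP_dd84fd_nt.LS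
open Pool.MP_dd84fd_nt.L2G (nrm)
open Pool.MP_dd84fd_nt.GX Pool.MP_dd84fd_nt.HX Pool.MP_dd84fd_nt.IX
open Pool.MP_dd84fd_nt.PL (rr)
open Pool.MP_dd84fd_nt.JX (wP gP mainP)

theorem phi_prod (n : ℕ) (h0 : 0 < n) :
    (n : ℝ) / (Nat.totient n : ℝ) = ∏ p ∈ n.primeFactors, (p : ℝ) / ((p : ℝ) - 1) := by
  have h1 : ((Nat.totient n : ℕ) : ℝ) = n * ∏ p ∈ n.primeFactors, (1 - (p : ℝ)⁻¹) := by
    have := Nat.totient_eq_mul_prod_factors n
    have h2 : (((Nat.totient n : ℕ) : ℚ) : ℝ) =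
        ((n * ∏ p ∈ n.primeFactors, (1 - (p : ℚ)⁻¹) : ℚ) : ℝ) := by rw [this]
    push_cast at h2
    exact h2
  have hn : (n : ℝ) ≠ 0 := by exact_mod_cast h0.ne'
  have hp : ∀ p ∈ n.primeFactors, (1 : ℝ) - (p : ℝ)⁻¹ ≠ 0 := by
    intro p hp
    have h2 : 2 ≤ p := (Nat.prime_of_mem_primeFactors hp).two_le
    have h3 : (2 : ℝ) ≤ p := by exact_mod_cast h2
    have h4 : (p : ℝ)⁻¹ ≤ 1 / 2 := by
      rw [inv_eq_one_div]
      exact one_div_le_one_div_of_le (by norm_num) h3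
    linarith
  have hprod : ∏ p ∈ n.primeFactors, ((1 : ℝ) - (p : ℝ)⁻¹) ≠ 0 := Finset.prod_ne_zero_iff.2 hp
  rw [h1, ← mul_inv_cancel_left₀ hn (∏ p ∈ n.primeFactors, (p : ℝ) / ((p : ℝ) - 1))]
  rw [div_eq_iff (mul_ne_zero hn hprod)]
  rw [mul_inv_cancel_left₀ hn]
  have h5 : (∏ p ∈ n.primeFactors, (p : ℝ) / ((p : ℝ) - 1)) *
      (n * ∏ p ∈ n.primeFactors, ((1 : ℝ) - (p : ℝ)⁻¹)) =
      n * ∏ p ∈ n.primeFactors, ((p : ℝ) / ((p : ℝ) - 1) * (1 - (p : ℝ)⁻¹)) := by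
    rw [Finset.prod_mul_distrib]
    ring
  rw [h5, Finset.prod_eq_one, mul_one]
  intro p hp'
  have h2 : 2 ≤ p := (Nat.prime_of_mem_primeFactors hp').two_le
  have h3 : (2 : ℝ) ≤ p := by exact_mod_cast h2
  have h4 : (p : ℝ) - 1 ≠ 0 := by linarith
  have h6 : (p : ℝ) ≠ 0 := by linarith
  field_simp

theorem ss_phi (n : ℕ) (hn : Even n) (h0 : 0 < n) :
    C2 * ((n : ℝ) / (Nat.totient n : ℝ)) ≤ SS n := by
  have hC := C2_pos
  rw [phi_prod n h0]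
  have h2m : 2 ∈ n.primeFactors := by
    rw [Nat.mem_primeFactors]
    exact ⟨Nat.prime_two, hn.two_dvd, h0.ne'⟩
  have h1 : ∏ p ∈ n.primeFactors, (p : ℝ) / ((p : ℝ) - 1) =
      2 * ∏ p ∈ n.primeFactors.filter (fun p => 2 < p), (p : ℝ) / ((p : ℝ) - 1) := by
    rw [← Finset.prod_filter_mul_prod_filter_not n.primeFactors (fun p => 2 < p), mul_comm]
    congr 1
    have h3 : n.primeFactors.filter (fun p => ¬ 2 < p) = {2} := by
      ext p
      rw [mem_filter, mem_singleton]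
      constructor
      · rintro ⟨h4, h5⟩
        have := (Nat.prime_of_mem_primeFactors h4).two_le
        omega
      · rintro rfl
        exact ⟨h2m, by norm_num⟩
    rw [h3, Finset.prod_singleton]
    norm_num
  rw [h1]
  unfold SS
  have h2 : ∏ p ∈ n.primeFactors.filter (fun p => 2 < p), (p : ℝ) / ((p : ℝ) - 1) ≤
      ∏ p ∈ n.primeFactors.filter (fun p => 2 < p), ((p : ℝ) - 1) / ((p : ℝ) - 2) := by
    apply Finset.prod_le_prod
    · intro p hp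
      rw [mem_filter] at hp
      have h3 : (2 : ℝ) < p := by exact_mod_cast hp.2
      exact div_nonneg (by linarith) (by linarith)
    · intro p hp
      rw [mem_filter] at hp
      have h3 : (2 : ℝ) < p := by exact_mod_cast hp.2
      rw [div_le_div_iff₀ (by linarith) (by linarith)]
      nlinarith
  calc C2 * (2 * ∏ p ∈ n.primeFactors.filter (fun p => 2 < p), (p : ℝ) / ((p : ℝ) - 1)) =
      2 * C2 * ∏ p ∈ n.primeFactors.filter (fun p => 2 < p), (p : ℝ) / ((p : ℝ) - 1) := by ring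
    _ ≤ _ := mul_le_mul_of_nonneg_left h2 (by linarith)

/-- one scale -/
theorem scale_bd (H : GenBD) (η e : ℝ) (hη : 0 < η) (he0 : 0 < e) (he1 : 20000 * e ≤ 1) :
    ∃ M : ℕ, ∀ th : ℝ, 1 / 3 + 1000 * e ≤ th → th ≤ 1 / 2 → ∀ K : ℕ,
    ∃ X0 : ℕ, ∀ X : ℕ, X0 ≤ X → ∃ D Ex : Finset ℕ, D.card ≤ M ∧
      (∀ d ∈ D, (Real.log X) ^ K ≤ (d : ℝ) ∧ (d : ℝ) ≤ (X : ℝ) ^ (1 - th + 3 * e) ∧
        Expl M M X d) ∧ (Ex.card : ℝ) ≤ (X : ℝ) ^ (th - e / 4) ∧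
      ∀ n : ℕ, X < 2 * n → n ≤ X → Even n → n ∉ Ex → (∀ d ∈ D, ¬ d ∣ n) →
        |(g n : ℝ) - SS n * JJ n| ≤ η * (SS n * JJ n) := by
  have hC2 := C2_pos
  obtain ⟨η1, hη1⟩ : ∃ η1 : ℝ, η1 = η * C2 / 64 := ⟨_, rfl⟩
  have hη1' : 0 < η1 := by rw [hη1]; positivity
  obtain ⟨M, hM⟩ := H 3 e η1 he0 he1 hη1'
  refine ⟨M, fun th h1 h2 K => ?_⟩
  obtain ⟨D0, hD0⟩ := hM th h1 h2 K
  obtain ⟨X1, hX1⟩ := hD0 (max D0 8) (le_max_left _ _)
  obtain ⟨X2, hX2⟩ := mainP 3 (max D0 8) (le_max_right _ _)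
  obtain ⟨X3, hX3⟩ := Pool.MP_dd84fd_nt.IY.JJ_ge
  obtain ⟨X4, hX4⟩ := MP_log_large (max 1 (48 / (η * C2)))
  refine ⟨max X1 (max X2 (max X3 (max X4 2))), fun X hX => ?_⟩
  simp only [max_le_iff] at hX
  obtain ⟨hXa, hXb, hXc, hXd, hXe⟩ := hX
  obtain ⟨D, Ex, a1, a2, a3, a4⟩ := hX1 X hXa
  refine ⟨D, Ex, a1, a2, a3, fun n n1 n2 n3 n4 n5 => ?_⟩
  have hm := hX2 X hXb n n3 (by omega) n2
  have hg := a4 n n1 n2 n3 n4 n5
  have hJ := hX3 X hXc n n1 n2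
  have hL := hX4 X hXd
  have hL1 : 1 ≤ Real.log X := (le_max_left _ _).trans hL
  have hL2 : 48 / (η * C2) ≤ Real.log X := (le_max_right _ _).trans hL
  obtain ⟨L, hLd⟩ : ∃ L : ℝ, L = Real.log X := ⟨_, rfl⟩
  rw [← hLd] at hg hJ hL1 hL2 hm
  have hL0 : 0 < L := by linarith
  have hX0 : (0 : ℝ) < X := by exact_mod_cast (by omega : 0 < X)
  have hn0 : 0 < n := by omega
  have hnX : (X : ℝ) ≤ 2 * n := by exact_mod_cast n1.le
  have hS1 := ss_phi n n3 hn0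
  have hS2 := SS_ge n
  have hS0 : 0 < SS n := by linarith
  have hJ1 : (X : ℝ) / L ^ 2 ≤ 16 * JJ n := by
    have h3 : (X : ℝ) / L ^ 2 ≤ 16 * ((n : ℝ) / (8 * L ^ 2)) := by
      have h4 : 16 * ((n : ℝ) / (8 * L ^ 2)) = 2 * n / L ^ 2 := by
        field_simp
        ring
      rw [h4]
      exact div_le_div_of_nonneg_right hnX (by positivity)
    linarith
  have hJ0 : 0 < JJ n := by
    have : 0 < (X : ℝ) / L ^ 2 := by positivity
    linarith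
  have hSJ : 0 < SS n * JJ n := mul_pos hS0 hJ0
  have hph : 0 ≤ (n : ℝ) / (Nat.totient n : ℝ) := by positivity
  -- the term with `n/φ(n)`
  have r1 : η1 * ((n : ℝ) / (Nat.totient n : ℝ)) * (X / L ^ 2) ≤ η / 4 * (SS n * JJ n) := by
    have h3 : (n : ℝ) / (Nat.totient n : ℝ) ≤ SS n / C2 := by
      rw [le_div_iff₀ hC2]
      linarith
    calc η1 * ((n : ℝ) / (Nat.totient n : ℝ)) * (X / L ^ 2) ≤
        η1 * (SS n / C2) * (16 * JJ n) := by
          apply mul_le_mul (mul_le_mul_of_nonneg_left h3 hη1'.le) hJ1 (by positivity)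
          positivity
      _ = η / 4 * (SS n * JJ n) := by
          rw [hη1]
          field_simp
          ring
  -- the terms `X/L^3`
  have r2 : (X : ℝ) / L ^ 3 + X / (2 * L ^ 3) ≤ η / 4 * (SS n * JJ n) := by
    have h3 : (X : ℝ) / L ^ 3 + X / (2 * L ^ 3) = 3 / (2 * L) * (X / L ^ 2) := by
      field_simp
      ring
    rw [h3]
    have h4 : 3 / (2 * L) ≤ η * C2 / 32 := by
      rw [div_le_iff₀ (by positivity)] at hL2 ⊢
      nlinarith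
    calc 3 / (2 * L) * (X / L ^ 2) ≤ η * C2 / 32 * (16 * JJ n) :=
          mul_le_mul h4 hJ1 (by positivity) (by positivity)
      _ = η / 4 * ((2 * C2) * JJ n) := by ring
      _ ≤ η / 4 * (SS n * JJ n) := by
          apply mul_le_mul_of_nonneg_left _ (by positivity)
          exact mul_le_mul_of_nonneg_right hS2 hJ0.le
  have r3 : 0 ≤ η / 2 * (SS n * JJ n) := by positivity
  linarith

open Classical in
/-- the theorem from GEN -/
theorem fin_bd (H : GenBD) : FinBD := by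
  intro η ε hη hε
  obtain ⟨ε1, hε1⟩ : ∃ ε1 : ℝ, ε1 = min ε 1 := ⟨_, rfl⟩
  have hε10 : 0 < ε1 := by rw [hε1]; exact lt_min hε one_pos
  have hε11 : ε1 ≤ 1 := by rw [hε1]; exact min_le_right _ _
  have hε12 : ε1 ≤ ε := by rw [hε1]; exact min_le_left _ _
  obtain ⟨e, he⟩ : ∃ e : ℝ, e = ε1 / 20000 := ⟨_, rfl⟩
  have he0 : 0 < e := by rw [he]; positivity
  obtain ⟨M, hM⟩ := scale_bd H η e hη he0 (by rw [he]; linarith)
  refine ⟨M, fun θ h1 h2 K => ?_⟩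
  obtain ⟨t, ht⟩ : ∃ t : ℝ, t = min (θ + ε1 / 2) (1 / 2) := ⟨_, rfl⟩
  have ht1 : t ≤ θ + ε1 / 2 := by rw [ht]; exact min_le_left _ _
  have ht2 : t ≤ 1 / 2 := by rw [ht]; exact min_le_right _ _
  have ht3 : 1 / 3 + 1000 * e ≤ t := by
    rw [ht, he]
    exact le_min (by linarith) (by linarith)
  obtain ⟨X1, hX1⟩ := hM t ht3 ht2 K
  obtain ⟨X2, hX2⟩ := MP_log_pow (M + 1) 0 (ε := ε / 2) (by positivity)
  refine ⟨max X1 (max X2 1), fun X hX => ?_⟩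
  simp only [max_le_iff] at hX
  obtain ⟨hXa, hXb, hXc⟩ := hX
  obtain ⟨D, Ex, g1, g2, g3, g4⟩ := hX1 X hXa
  have hM2 := hX2 X hXb
  rw [pow_zero, mul_one] at hM2
  have hXR : (1 : ℝ) ≤ X := by exact_mod_cast hXc
  have hX0 : (0 : ℝ) < X := by linarith
  obtain ⟨D1, hD1⟩ : ∃ D1 : Finset ℕ, D1 = D.filter
    (fun d : ℕ => (d : ℝ) ≤ (X : ℝ) ^ (1 - θ)) := ⟨_, rfl⟩
  obtain ⟨D2, hD2⟩ : ∃ D2 : Finset ℕ, D2 = D.filter
    (fun d : ℕ => ¬ (d : ℝ) ≤ (X : ℝ) ^ (1 - θ)) := ⟨_, rfl⟩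
  have hc1 : D1.card ≤ D.card := by
    rw [hD1]
    exact card_filter_le _ _
  have hc2 : D2.card ≤ D.card := by
    rw [hD2]
    exact card_filter_le _ _
  refine ⟨D1, hc1.trans g1, fun d hd => ?_, fun P _ hP => ?_⟩
  · rw [hD1, mem_filter] at hd
    exact ⟨(g2 d hd.1).1, hd.2, (g2 d hd.1).2.2⟩
  · have hsub : (Icc 1 X).filter P ⊆ Ex ∪
        D2.biUnion (fun d => (Ioc 0 X).filter (fun n => d ∣ n)) := by
      intro n hn
      rw [mem_filter, mem_Icc] at hn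
      obtain ⟨⟨n1, n2⟩, hPn⟩ := hn
      obtain ⟨n3, n4, n5, n6⟩ := hP n hPn
      rw [mem_union]
      by_cases hdiv : ∀ d ∈ D, ¬ d ∣ n
      · left
        by_contra hEx
        have := g4 n n3 n2 n4 hEx hdiv
        linarith
      · right
        push Not at hdiv
        obtain ⟨d, hd, hdn⟩ := hdiv
        rw [mem_biUnion]
        refine ⟨d, ?_, ?_⟩
        · rw [hD2, mem_filter]
          refine ⟨hd, fun hle => ?_⟩
          exact n5 d (by rw [hD1, mem_filter]; exact ⟨hd, hle⟩) hdn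
        · rw [mem_filter, mem_Ioc]
          exact ⟨⟨by omega, n2⟩, hdn⟩
    have h4 : (((Icc 1 X).filter P).card : ℝ) ≤ Ex.card +
        ∑ d ∈ D2, (((Ioc 0 X).filter (fun n => d ∣ n)).card : ℝ) := by
      have h5 := (card_le_card hsub).trans ((card_union_le _ _).trans
        (Nat.add_le_add_left card_biUnion_le _))
      exact_mod_cast h5
    have h5 : ∀ d ∈ D2, (((Ioc 0 X).filter (fun n => d ∣ n)).card : ℝ) ≤ (X : ℝ) ^ θ := by
      intro d hd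
      rw [hD2, mem_filter, not_le] at hd
      rw [Nat.Ioc_filter_dvd_card_eq_div]
      have h6 : (0 : ℝ) < (X : ℝ) ^ (1 - θ) := by positivity
      have h7 : (0 : ℝ) < d := h6.trans hd.2
      calc ((X / d : ℕ) : ℝ) ≤ (X : ℝ) / d := Nat.cast_div_le
        _ ≤ (X : ℝ) ^ θ := by
            rw [div_le_iff₀ h7]
            have e1 : (X : ℝ) = (X : ℝ) ^ θ * (X : ℝ) ^ (1 - θ) := by
              rw [← Real.rpow_add hX0]
              rw [show θ + (1 - θ) = 1 by ring, Real.rpow_one]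
            have e3 : (0 : ℝ) < (X : ℝ) ^ θ := by positivity
            calc (X : ℝ) = (X : ℝ) ^ θ * (X : ℝ) ^ (1 - θ) := e1
              _ ≤ (X : ℝ) ^ θ * d := mul_le_mul_of_nonneg_left hd.2.le e3.le
    have h6 := sum_le_card_nsmul D2 _ _ h5
    rw [nsmul_eq_mul] at h6
    have h7 : (X : ℝ) ^ (t - e / 4) ≤ (X : ℝ) ^ (θ + ε / 2) :=
      Real.rpow_le_rpow_of_exponent_le hXR (by linarith)
    have h8 : (X : ℝ) ^ θ ≤ (X : ℝ) ^ (θ + ε / 2) :=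
      Real.rpow_le_rpow_of_exponent_le hXR (by linarith)
    have h9 : (0 : ℝ) < (X : ℝ) ^ (θ + ε / 2) := by positivity
    have h10 : (D2.card : ℝ) ≤ M := by exact_mod_cast hc2.trans g1
    have h11 : (D2.card : ℝ) * (X : ℝ) ^ θ ≤ M * (X : ℝ) ^ (θ + ε / 2) :=
      mul_le_mul h10 h8 (by positivity) (Nat.cast_nonneg _)
    have h12 : (X : ℝ) ^ (θ + ε) = (X : ℝ) ^ (ε / 2) * (X : ℝ) ^ (θ + ε / 2) := by
      rw [← Real.rpow_add hX0]
      congr 1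
      ring
    rw [h12]
    have h13 := mul_le_mul_of_nonneg_right hM2 h9.le
    linarith

end Pool.MP_dd84fd_nt.BX
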