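import Pool.Agent.Lib.MP_dd84fd_nt.JX.FaBound
import Pool.Agent.Lib.MP_dd84fd_nt.BX.PgDefs

/-!
# BX-PgBd: the discs, with one disc for the small denominators

As `JX.discs_boundJ`.  For `q ≤ L^K1 (q,n)` the annuli with `b ≤ L^K2` are not cut off: they form one
disc of radius `≤ 4 L^K2 / X` (`GoodB`).
-/

set_option autoImplicit false

namespace Pool.MP_dd84fd_nt.BX

open Finset Pool.MP_67663b_nt.Odd Pool.MP_dd84fd_nt.En Pool.MP_dd84fd_nt.E2 Pool.MP_dd84fd_nt.LS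
  Pool.MP_dd84fd_nt.GX Pool.MP_dd84fd_nt.HX Pool.MP_dd84fd_nt.IX

open Pool.MP_dd84fd_nt.L2G (nrm)

open Pool.MP_dd84fd_nt.PL (rr)
open Pool.MP_dd84fd_nt.JX (Adm DecJ PlJ qq_factsJ)

private theorem pb_logbig (K : ℝ) : ∃ X0 : ℕ, ∀ X : ℕ, X0 ≤ X → K ≤ Real.log (X : ℝ) := by
  have h : Filter.Tendsto (fun n : ℕ => Real.log (n : ℝ)) Filter.atTop Filter.atTop :=
    Real.tendsto_log_atTop.comp tendsto_natCast_atTop_atTop
  exact Filter.eventually_atTop.1 (h.eventually_ge_atTop K)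

private theorem pb_exI (A0 : ℕ) : ∃ X0 : ℕ, ∀ X : ℕ, X0 ≤ X → ∃ I : ℕ,
    2 * (Real.log X) ^ A0 ≤ (2 : ℝ) ^ I ∧ (2 : ℝ) ^ I ≤ (Real.log X) ^ (A0 + 1) ∧
    (I : ℝ) ≤ Real.log X := by
  obtain ⟨X1, hX1⟩ := pb_logbig 6
  have hlit : (fun L : ℝ => ((A0 : ℝ) + 1) * Real.log L) =o[Filter.atTop] (id : ℝ → ℝ) :=
    Asymptotics.IsLittleO.const_mul_left Real.isLittleO_log_id_atTop _
  have hev : ∀ᶠ L : ℝ in Filter.atTop, ‖((A0 : ℝ) + 1) * Real.log L‖ ≤ 1 / 2 * ‖L‖ :=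
    hlit.def (by norm_num)
  have h : Filter.Tendsto (fun n : ℕ => Real.log (n : ℝ)) Filter.atTop Filter.atTop :=
    Real.tendsto_log_atTop.comp tendsto_natCast_atTop_atTop
  obtain ⟨X2, hX2⟩ := Filter.eventually_atTop.1 (h.eventually hev)
  refine ⟨max X1 X2, fun X hX => ?_⟩
  have h1 : 6 ≤ Real.log (X : ℝ) := hX1 X ((le_max_left _ _).trans hX)
  have h2 := hX2 X ((le_max_right _ _).trans hX)
  set L : ℝ := Real.log (X : ℝ) with hL
  have hL0 : 0 < L := by linarith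
  have hp1 : 1 ≤ L ^ A0 := one_le_pow₀ (by linarith)
  set m : ℕ := ⌈2 * L ^ A0⌉₊ with hm
  have hm1 : 2 * L ^ A0 ≤ (m : ℝ) := Nat.le_ceil _
  have hm2 : (m : ℝ) ≤ 2 * L ^ A0 + 1 := (Nat.ceil_lt_add_one (by positivity)).le
  have hm3 : 1 < m := by
    have : (1 : ℝ) < (m : ℝ) := by linarith
    exact_mod_cast this
  have h3 : 2 * L ^ A0 ≤ (2 : ℝ) ^ (Nat.clog 2 m) := by
    have : (m : ℝ) ≤ (2 : ℝ) ^ (Nat.clog 2 m) := by
      exact_mod_cast Nat.le_pow_clog (by norm_num) m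
    linarith
  have h4 : (2 : ℝ) ^ (Nat.clog 2 m) ≤ L ^ (A0 + 1) := by
    have h5 : 2 ^ (Nat.clog 2 m).pred < m := Nat.pow_pred_clog_lt_self (by norm_num) hm3
    have h6 : 0 < Nat.clog 2 m := Nat.clog_pos (by norm_num) hm3
    have h7 : 2 ^ (Nat.clog 2 m) ≤ 2 * m := by
      obtain ⟨k, hk⟩ := Nat.exists_eq_succ_of_ne_zero h6.ne'
      rw [hk] at h5 ⊢
      rw [Nat.pred_succ] at h5
      rw [pow_succ]
      omega
    have h8 : (2 : ℝ) ^ (Nat.clog 2 m) ≤ 2 * m := by exact_mod_cast h7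
    calc (2 : ℝ) ^ (Nat.clog 2 m) ≤ 2 * m := h8
      _ ≤ 2 * (2 * L ^ A0 + 1) := by linarith
      _ ≤ 6 * L ^ A0 := by linarith
      _ ≤ L * L ^ A0 := by gcongr
      _ = L ^ (A0 + 1) := by ring
  refine ⟨Nat.clog 2 m, h3, h4, ?_⟩
  have h9 : ((Nat.clog 2 m : ℕ) : ℝ) * Real.log 2 ≤ ((A0 : ℝ) + 1) * Real.log L := by
    have := Real.log_le_log (by positivity) h4
    rw [Real.log_pow, Real.log_pow] at this
    push_cast at this
    exact this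
  have h10 : ((A0 : ℝ) + 1) * Real.log L ≤ 1 / 2 * L := by
    have h11 := (le_abs_self _).trans (h2 : |((A0 : ℝ) + 1) * Real.log L| ≤ 1 / 2 * |L|)
    rw [Real.norm_eq_abs, abs_of_pos hL0] at h11
    exact h11
  have h12 : (1 : ℝ) / 2 ≤ Real.log 2 := by
    have := Real.log_two_gt_d9
    linarith
  have h13 : ((Nat.clog 2 m : ℕ) : ℝ) * (1 / 2) ≤ ((Nat.clog 2 m : ℕ) : ℝ) * Real.log 2 :=
    mul_le_mul_of_nonneg_left h12 (Nat.cast_nonneg _)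
  linarith

/-- one pair `(c, t)` -/
private theorem pb_one {th e : ℝ} {ww gg : ℕ → ℕ → ℝ} {X w n A K1 K2 I c t : ℕ} {N : ℝ}
    (hL2 : 2 ≤ Real.log (X : ℝ)) (Q : Finset ℕ) (r : ℕ → ℝ)
    (hQ1 : ∀ q ∈ Q, 1 ≤ q ∧ (2 : ℝ) ^ c ≤ r q ∧ r q ≤ 2 ^ (c + 1) ∧
      N * r q ≤ (X : ℝ) ^ (1 - th + 3 / 2 * e))
    (hN0 : 0 ≤ N)
    (hQ2 : ∀ q ∈ Q, ∀ q' ∈ Q, (Nat.lcm q q' : ℝ) ≤ N) (hQ3 : (Q.card : ℝ) ≤ (X : ℝ) ^ (e / 2))
    {A0 : ℕ}
    (hI : (2 : ℝ) ^ I ≤ (Real.log X) ^ (A0 + 1)) (ht : t < c + I)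
    (hpl : ∀ (QQ : Finset ℕ) (N b : ℝ) (bq : ℕ → ℝ), (∀ q ∈ QQ, 1 ≤ q ∧ b ≤ bq q ∧ bq q ≤ 2 * b) →
      (∀ q ∈ QQ, ∀ q' ∈ QQ, (Nat.lcm q q' : ℝ) ≤ N) → (QQ.card : ℝ) ≤ (X : ℝ) ^ (e / 2) →
      1 / (Real.log X) ^ (A0 + 1) ≤ b → N * b ≤ (X : ℝ) ^ (1 - th + 3 / 2 * e) →
      ((Real.log X) ^ K2 < b ∨ ∀ q ∈ QQ, (Real.log X) ^ K1 * (Nat.gcd q n : ℝ) < q) →
      ∑ q ∈ QQ, ‖∑ a ∈ rr q, ((∫ x in (bq q / X)..(2 * bq q / X),
          FFI ww gg w X n ((a : ℝ) / q + x)) +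
        ∫ x in (bq q / X)..(2 * bq q / X), FFI ww gg w X n ((a : ℝ) / q - x))‖ ≤
        X / (Real.log X) ^ (A + 4))
    (hor : (Real.log X) ^ K2 < (2 : ℝ) ^ c / 2 ^ (t + 1) ∨
      ∀ q ∈ Q, (Real.log X) ^ K1 * (Nat.gcd q n : ℝ) < q) :
    ‖∑ q ∈ Q, ann (FFI ww gg w X n) X q (r q / 2 ^ (t + 1)) (2 * (r q / 2 ^ (t + 1)))‖ ≤
      X / (Real.log X) ^ (A + 4) := by
  classical
  set L : ℝ := Real.log (X : ℝ) with hLd
  have hL0 : 0 < L := by linarith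
  have hXr : (0 : ℝ) ≤ X := Nat.cast_nonneg X
  rcases Finset.eq_empty_or_nonempty Q with hQe | ⟨q0, hq0⟩
  · rw [hQe, Finset.sum_empty, norm_zero]
    positivity
  set b : ℝ := 2 ^ c / 2 ^ (t + 1) with hb
  have hb0 : 0 < b := by positivity
  have hbq : ∀ q ∈ Q, 1 ≤ q ∧ b ≤ r q / 2 ^ (t + 1) ∧ r q / 2 ^ (t + 1) ≤ 2 * b := by
    intro q hq
    obtain ⟨h1, h2, h3, _⟩ := hQ1 q hq
    refine ⟨h1, ?_, ?_⟩
    · rw [hb]
      gcongr
    · have : 2 * b = 2 ^ (c + 1) / 2 ^ (t + 1) := by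
        rw [hb, pow_succ (2 : ℝ) c]
        ring
      rw [this]
      gcongr
  have hbI : 1 / L ^ (A0 + 1) ≤ b := by
    have h1 : (1 : ℝ) / L ^ (A0 + 1) ≤ 1 / 2 ^ I := by
      apply one_div_le_one_div_of_le (by positivity) hI
    refine h1.trans ?_
    rw [hb, div_le_div_iff₀ (by positivity) (by positivity), one_mul, ← pow_add]
    exact pow_le_pow_right₀ (by norm_num) (by omega)
  have hNb : N * b ≤ (X : ℝ) ^ (1 - th + 3 / 2 * e) := by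
    obtain ⟨_, h2, _, h4⟩ := hQ1 q0 hq0
    refine le_trans ?_ h4
    apply mul_le_mul_of_nonneg_left _ hN0
    refine le_trans ?_ h2
    rw [hb]
    exact div_le_self (by positivity) (one_le_pow₀ (by norm_num))
  refine (norm_sum_le _ _).trans ?_
  exact hpl Q N b (fun q => r q / 2 ^ (t + 1)) hbq hQ2 hQ3 hbI hNb hor

theorem discs_boundB (hPl : PlJ) (hCe : CentreI) (A : ℕ) : ∃ B : ℕ, ∀ K0 C1 C2 : ℕ,
    ∃ K1 K2 : ℕ, ∀ th e τ : ℝ, Adm th e τ →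
    ∀ ww gg : ℕ → ℕ → ℝ, W1 K0 C1 ww gg → DecJ B C2 th e τ ww → ∀ D' : ℕ, 1 ≤ D' →
    ∃ X0 : ℕ, ∀ X : ℕ, X0 ≤ X → ∀ n : ℕ, X < 2 * n → n ≤ X → ∀ R : ℝ,
    GoodB th e ww gg (wX D' X) X n K1 K2 R → ∀ (Λ : ℕ) (bb : ℝ), 1 ≤ Λ → 1 ≤ bb →
    Λ * bb ≤ 2 * (X : ℝ) ^ (1 - th + e) →
    ‖∑ q ∈ QQi th e X Λ, dsc (FFI ww gg (wX D' X) X n) X q (rdi th e X Λ bb q)‖ ≤
      X / (Real.log X) ^ A + R := by
  classical
  obtain ⟨B, hpl⟩ := hPl (A + 4)
  obtain ⟨A0, hce⟩ := hCe (A + 4)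
  refine ⟨B, fun K0 C1 C2 => ?_⟩
  obtain ⟨K1, K2, hpl⟩ := hpl K0 C1 C2
  refine ⟨K1, K2, fun th e τ hA ww gg hW hDec D' hD => ?_⟩
  obtain ⟨X1, hX1⟩ := hpl th e τ hA ww gg hW hDec D' (A0 + 1) hD
  obtain ⟨X2, hX2⟩ := hce K0 C1 ww gg hW D' hD
  obtain ⟨X3, hX3⟩ := qq_factsJ th e τ hA
  obtain ⟨X4, hX4⟩ := pb_exI A0
  obtain ⟨X5, hX5⟩ := pb_logbig 6
  refine ⟨max (max (max X1 X2) (max X3 X4)) (max X5 1), fun X hX n hn1 hn2 R hgood Λ bb hΛ hbb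
    hΛb => ?_⟩
  have g1 : X1 ≤ X := by omega
  have g2 : X2 ≤ X := by omega
  have g3 : X3 ≤ X := by omega
  have g4 : X4 ≤ X := by omega
  have g5 : X5 ≤ X := by omega
  have g6 : 1 ≤ X := by omega
  have hpl' := hX1 X g1 n hn1 hn2
  have hce' := hX2 X g2
  obtain ⟨hq1, hq2, hq3, hq4⟩ := hX3 X g3 Λ bb hΛ hbb hΛb
  obtain ⟨I, hI1, hI2, hI3⟩ := hX4 X g4
  have hL6 := hX5 X g5
  set L : ℝ := Real.log (X : ℝ) with hLd
  set w := wX D' X with hw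
  set Q := QQi th e X Λ with hQ
  set N : ℝ := (X : ℝ) ^ (e / 5) * Λ with hN
  have hL0 : 0 < L := by linarith
  have hXr : (1 : ℝ) ≤ X := by exact_mod_cast g6
  have hX0 : (0 : ℝ) < X := by linarith
  have hN0 : 0 ≤ N := by positivity
  have hNX : N ≤ X := by
    refine hq4.trans ?_
    calc (X : ℝ) ^ (1 - th + 3 / 2 * e) ≤ (X : ℝ) ^ (1 : ℝ) :=
          Real.rpow_le_rpow_of_exponent_le hXr (by linarith [hA.1, hA.2.1, hA.2.2.1, hA.2.2.2.1, hA.2.2.2.2])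
      _ = X := Real.rpow_one _
  have hrX : ∀ q ∈ Q, rdi th e X Λ bb q ≤ X := by
    intro q hq
    obtain ⟨h1, h2, h3, _⟩ := hq1 q hq
    have h4 : rdi th e X Λ bb q ≤ q * rdi th e X Λ bb q := by
      have : (1 : ℝ) ≤ q := by exact_mod_cast h1
      nlinarith
    refine h4.trans (h3.trans ?_)
    rw [y3_dl]
    calc (X : ℝ) ^ (1 - th + 3 * e) ≤ (X : ℝ) ^ (1 : ℝ) :=
          Real.rpow_le_rpow_of_exponent_le hXr (by linarith [hA.1, hA.2.1, hA.2.2.1, hA.2.2.2.1, hA.2.2.2.2])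
      _ = X := Real.rpow_one _
  -- the index `c`
  set cc : ℕ → ℕ := fun q => Nat.log 2 ⌊rdi th e X Λ bb q⌋₊ with hcc
  have hcc1 : ∀ q ∈ Q, (2 : ℝ) ^ (cc q) ≤ rdi th e X Λ bb q ∧ rdi th e X Λ bb q ≤ 2 ^ (cc q + 1) := by
    intro q hq
    obtain ⟨_, h2, _, _⟩ := hq1 q hq
    have h3 : ⌊rdi th e X Λ bb q⌋₊ ≠ 0 := by
      have : 1 ≤ ⌊rdi th e X Λ bb q⌋₊ := Nat.le_floor (by exact_mod_cast h2)
      omega
    constructor
    · have h4 : 2 ^ (cc q) ≤ ⌊rdi th e X Λ bb q⌋₊ := Nat.pow_log_le_self 2 h3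
      calc (2 : ℝ) ^ (cc q) ≤ (⌊rdi th e X Λ bb q⌋₊ : ℝ) := by exact_mod_cast h4
        _ ≤ _ := Nat.floor_le (by linarith)
    · have h4 : ⌊rdi th e X Λ bb q⌋₊ < 2 ^ (cc q + 1) := Nat.lt_pow_succ_log_self (by norm_num) _
      have h5 : rdi th e X Λ bb q < (⌊rdi th e X Λ bb q⌋₊ : ℝ) + 1 := Nat.lt_floor_add_one _
      have h6 : (⌊rdi th e X Λ bb q⌋₊ : ℝ) + 1 ≤ 2 ^ (cc q + 1) := by exact_mod_cast h4
      linarith
  have hcc2 : ∀ q ∈ Q, cc q < Nat.log 2 X + 1 := by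
    intro q hq
    have h1 : ⌊rdi th e X Λ bb q⌋₊ ≤ X := by
      have := Nat.floor_le_floor (hrX q hq)
      rwa [Nat.floor_natCast] at this
    exact Nat.lt_succ_of_le (Nat.log_mono_right h1)
  -- the continuity
  have hFc : Continuous (FFI ww gg w X n) := by
    have h1 := wi_cont ww gg (-1) w X
    have h2 := wi_cont ww gg 1 w X
    unfold FFI
    refine (h1.mul h2).mul ?_
    unfold ee
    fun_prop
  -- the number of annuli for the small denominators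
  have hK2 : 1 ≤ L ^ K2 := one_le_pow₀ (by linarith)
  have hex : ∀ c : ℕ, ∃ t : ℕ, (2 : ℝ) ^ c / 2 ^ (t + 1) ≤ L ^ K2 := by
    intro c
    refine ⟨c, le_trans ?_ hK2⟩
    rw [div_le_one (by positivity)]
    exact pow_le_pow_right₀ (by norm_num) (by omega)
  set tc : ℕ → ℕ := fun c => Nat.find (hex c) with htc
  have htc1 : ∀ c, (2 : ℝ) ^ c / 2 ^ (tc c + 1) ≤ L ^ K2 := fun c => Nat.find_spec (hex c)
  have htc2 : ∀ c t, t < tc c → L ^ K2 < (2 : ℝ) ^ c / 2 ^ (t + 1) := by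
    intro c t ht
    exact not_le.1 (Nat.find_min (hex c) ht)
  have htc3 : ∀ c, tc c ≤ c := by
    intro c
    refine Nat.find_min' (hex c) (le_trans ?_ hK2)
    rw [div_le_one (by positivity)]
    exact pow_le_pow_right₀ (by norm_num) (by omega)
  -- large and small denominators
  set Ql := Q.filter (fun q : ℕ => L ^ K1 * (Nat.gcd q n : ℝ) < q) with hQl
  set Qs := Q.filter (fun q : ℕ => ¬ (L ^ K1 * (Nat.gcd q n : ℝ) < q)) with hQs
  have hsubl : Ql ⊆ Q := Finset.filter_subset _ _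
  have hsubs : Qs ⊆ Q := Finset.filter_subset _ _
  have hgen : ∀ (Q' : Finset ℕ) (J : ℕ → ℕ), Q' ⊆ Q →
      ∑ q ∈ Q', dsc (FFI ww gg w X n) X q (rdi th e X Λ bb q) =
      ∑ c ∈ range (Nat.log 2 X + 1), ∑ t ∈ range (J c),
        ∑ q ∈ Q'.filter (fun q => cc q = c), ann (FFI ww gg w X n) X q
          (rdi th e X Λ bb q / 2 ^ (t + 1)) (2 * (rdi th e X Λ bb q / 2 ^ (t + 1))) +
      ∑ q ∈ Q', dsc (FFI ww gg w X n) X q (rdi th e X Λ bb q / 2 ^ (J (cc q))) := by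
    intro Q' J hQ'
    have h1 : ∀ q ∈ Q', dsc (FFI ww gg w X n) X q (rdi th e X Λ bb q) =
        ∑ t ∈ range (J (cc q)), ann (FFI ww gg w X n) X q
          (rdi th e X Λ bb q / 2 ^ (t + 1)) (2 * (rdi th e X Λ bb q / 2 ^ (t + 1))) +
        dsc (FFI ww gg w X n) X q (rdi th e X Λ bb q / 2 ^ (J (cc q))) :=
      fun q _ => dsc_split (FFI ww gg w X n) hFc X q _ (J (cc q))
    rw [Finset.sum_congr rfl h1, Finset.sum_add_distrib]
    congr 1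
    have h2 : ∀ c ∈ range (Nat.log 2 X + 1), ∑ t ∈ range (J c),
        ∑ q ∈ Q'.filter (fun q => cc q = c), ann (FFI ww gg w X n) X q
          (rdi th e X Λ bb q / 2 ^ (t + 1)) (2 * (rdi th e X Λ bb q / 2 ^ (t + 1))) =
        ∑ q ∈ Q'.filter (fun q => cc q = c), ∑ t ∈ range (J (cc q)), ann (FFI ww gg w X n) X q
          (rdi th e X Λ bb q / 2 ^ (t + 1)) (2 * (rdi th e X Λ bb q / 2 ^ (t + 1))) := by
      intro c _
      rw [Finset.sum_comm]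
      refine Finset.sum_congr rfl fun q hq => ?_
      rw [(Finset.mem_filter.1 hq).2]
    rw [Finset.sum_congr rfl h2]
    exact (Finset.sum_fiberwise_of_maps_to
      (fun q hq => Finset.mem_range.2 (hcc2 q (hQ' hq))) _).symm
  have hE0 : 0 ≤ (X : ℝ) / L ^ (A + 4) := by positivity
  have hT : ((Nat.log 2 X + 1 : ℕ) : ℝ) ≤ 2 * L := by
    have h1 : 2 ^ (Nat.log 2 X) ≤ X := Nat.pow_log_le_self 2 (by omega)
    have h2 : (2 : ℝ) ^ (Nat.log 2 X) ≤ X := by exact_mod_cast h1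
    have h3 := Real.log_le_log (by positivity) h2
    rw [Real.log_pow] at h3
    have h4 : (2 : ℝ) / 3 ≤ Real.log 2 := by
      have := Real.log_two_gt_d9
      linarith
    have h5 : ((Nat.log 2 X : ℕ) : ℝ) * (2 / 3) ≤ ((Nat.log 2 X : ℕ) : ℝ) * Real.log 2 :=
      mul_le_mul_of_nonneg_left h4 (Nat.cast_nonneg _)
    push_cast
    linarith
  -- annuli
  have hann : ∀ (Q' : Finset ℕ) (J : ℕ → ℕ), Q' ⊆ Q → (∀ c, J c ≤ c + I) →
      (∀ c t, t < J c → (L ^ K2 < (2 : ℝ) ^ c / 2 ^ (t + 1) ∨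
        ∀ q ∈ Q', L ^ K1 * (Nat.gcd q n : ℝ) < q)) →
      ‖∑ c ∈ range (Nat.log 2 X + 1), ∑ t ∈ range (J c),
        ∑ q ∈ Q'.filter (fun q => cc q = c), ann (FFI ww gg w X n) X q
          (rdi th e X Λ bb q / 2 ^ (t + 1)) (2 * (rdi th e X Λ bb q / 2 ^ (t + 1)))‖ ≤
      (2 * L) * ((4 * L) * (X / L ^ (A + 4))) := by
    intro Q' J hQ' hJ hJor
    refine (norm_sum_le _ _).trans ?_
    have h1 : ∀ c ∈ range (Nat.log 2 X + 1), ‖∑ t ∈ range (J c),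
        ∑ q ∈ Q'.filter (fun q => cc q = c), ann (FFI ww gg w X n) X q
          (rdi th e X Λ bb q / 2 ^ (t + 1)) (2 * (rdi th e X Λ bb q / 2 ^ (t + 1)))‖ ≤
        (4 * L) * (X / L ^ (A + 4)) := by
      intro c hc
      refine (norm_sum_le _ _).trans ?_
      have h2 : ∀ t ∈ range (J c), ‖∑ q ∈ Q'.filter (fun q => cc q = c),
          ann (FFI ww gg w X n) X q
          (rdi th e X Λ bb q / 2 ^ (t + 1)) (2 * (rdi th e X Λ bb q / 2 ^ (t + 1)))‖ ≤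
          X / L ^ (A + 4) := by
        intro t ht
        have ht' := Finset.mem_range.1 ht
        have hsub : Q'.filter (fun q => cc q = c) ⊆ Q := (Finset.filter_subset _ _).trans hQ'
        refine pb_one (by linarith) (Q'.filter (fun q => cc q = c))
          (fun q => rdi th e X Λ bb q) ?_ hN0 (fun q hq q' hq' => hq2 q (hsub hq) q' (hsub hq')) ?_
          hI2 (lt_of_lt_of_le ht' (hJ c)) hpl' ?_
        · intro q hq
          obtain ⟨h3, h4⟩ := Finset.mem_filter.1 hq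
          obtain ⟨h5, h6⟩ := hcc1 q (hQ' h3)
          rw [h4] at h5 h6
          exact ⟨(hq1 q (hQ' h3)).1, h5, h6, (hq1 q (hQ' h3)).2.2.2⟩
        · exact le_trans (by exact_mod_cast Finset.card_le_card hsub) hq3
        · rcases hJor c t ht' with h5 | h5
          · exact Or.inl h5
          · exact Or.inr fun q hq => h5 q (Finset.mem_filter.1 hq).1
      refine (Finset.sum_le_sum h2).trans ?_
      rw [Finset.sum_const, Finset.card_range, nsmul_eq_mul]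
      apply mul_le_mul_of_nonneg_right _ (by positivity)
      have hc' : c ≤ Nat.log 2 X := Nat.lt_succ_iff.1 (Finset.mem_range.1 hc)
      have hc'' : (c : ℝ) ≤ ((Nat.log 2 X + 1 : ℕ) : ℝ) := by exact_mod_cast hc'.trans (Nat.le_succ _)
      have hJc : ((J c : ℕ) : ℝ) ≤ c + I := by exact_mod_cast hJ c
      push_cast at hc'' hT ⊢
      linarith
    refine (Finset.sum_le_sum h1).trans ?_
    rw [Finset.sum_const, Finset.card_range, nsmul_eq_mul]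
    exact mul_le_mul_of_nonneg_right hT (by positivity)
  have hl := hgen Ql (fun c => c + I) hsubl
  have hs := hgen Qs tc hsubs
  have hal := hann Ql (fun c => c + I) hsubl (fun _ => le_rfl)
    (fun c t _ => Or.inr fun q hq => (Finset.mem_filter.1 hq).2)
  have has := hann Qs tc hsubs (fun c => (htc3 c).trans (Nat.le_add_right _ _))
    (fun c t ht => Or.inl (htc2 c t ht))
  have hsplit : ∑ q ∈ Q, dsc (FFI ww gg w X n) X q (rdi th e X Λ bb q) =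
      ∑ q ∈ Ql, dsc (FFI ww gg w X n) X q (rdi th e X Λ bb q) +
      ∑ q ∈ Qs, dsc (FFI ww gg w X n) X q (rdi th e X Λ bb q) :=
    (Finset.sum_filter_add_sum_filter_not Q _ _).symm
  -- centre
  have hcentre : ‖∑ q ∈ Ql, dsc (FFI ww gg w X n) X q (rdi th e X Λ bb q / 2 ^ (cc q + I))‖ ≤
      X / L ^ (A + 4) := by
    refine (norm_sum_le _ _).trans ?_
    have h1 := hce' Ql N (fun q hq => (hq1 q (hsubl hq)).1)
      (fun q hq q' hq' => hq2 q (hsubl hq) q' (hsubl hq')) hNX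
    refine le_trans (Finset.sum_le_sum fun q hq => ?_) h1
    obtain ⟨h2, h3⟩ := hcc1 q (hsubl hq)
    have h4 : 0 ≤ rdi th e X Λ bb q / 2 ^ (cc q + I) :=
      div_nonneg (le_trans (by positivity) h2) (by positivity)
    refine dsc_le ww gg X w n q g6 _ (1 / L ^ A0) h4 ?_
    calc rdi th e X Λ bb q / 2 ^ (cc q + I) ≤ 2 ^ (cc q + 1) / 2 ^ (cc q + I) := by gcongr
      _ = 2 / 2 ^ I := by
        rw [pow_add, pow_add]
        field_simp
      _ ≤ 1 / L ^ A0 := by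
        rw [div_le_div_iff₀ (by positivity) (by positivity)]
        linarith
  -- the discs of the small denominators
  have hdisc : ‖∑ q ∈ Qs, dsc (FFI ww gg w X n) X q (rdi th e X Λ bb q / 2 ^ (tc (cc q)))‖ ≤ R := by
    refine hgood Qs N (fun q => rdi th e X Λ bb q / 2 ^ (tc (cc q))) ?_ ?_ ?_ ?_ hq4
    · intro q hq
      exact ⟨(hq1 q (hsubs hq)).1, not_lt.1 (Finset.mem_filter.1 hq).2⟩
    · intro q hq
      obtain ⟨h2, h3⟩ := hcc1 q (hsubs hq)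
      refine ⟨div_nonneg (le_trans (by positivity) h2) (by positivity), ?_⟩
      calc rdi th e X Λ bb q / 2 ^ (tc (cc q)) ≤ 2 ^ (cc q + 1) / 2 ^ (tc (cc q)) := by gcongr
        _ = 4 * (2 ^ (cc q) / 2 ^ (tc (cc q) + 1)) := by
          rw [pow_succ, pow_succ]
          field_simp
          norm_num
        _ ≤ 4 * L ^ K2 := by
          have := htc1 (cc q)
          linarith
    · exact fun q hq q' hq' => hq2 q (hsubs hq) q' (hsubs hq')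
    · exact le_trans (by exact_mod_cast Finset.card_le_card hsubs) hq3
  rw [hsplit, hl, hs]
  refine (norm_add_le _ _).trans ?_
  refine (add_le_add ((norm_add_le _ _).trans (add_le_add hal hcentre))
    ((norm_add_le _ _).trans (add_le_add has hdisc))).trans ?_
  have hfin : (2 * L) * ((4 * L) * (X / L ^ (A + 4))) + X / L ^ (A + 4) +
      ((2 * L) * ((4 * L) * (X / L ^ (A + 4))) + R) =
      (16 * L ^ 2 + 1) * (X / L ^ (A + 4)) + R := by ring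
  rw [hfin]
  have h16 : 16 * L ^ 2 + 1 ≤ L ^ 4 := by
    have h1 : (36 : ℝ) ≤ L ^ 2 := by nlinarith
    nlinarith
  have h17 : (16 * L ^ 2 + 1) * (X / L ^ (A + 4)) ≤ X / L ^ A := by
    calc (16 * L ^ 2 + 1) * (X / L ^ (A + 4)) ≤ L ^ 4 * (X / L ^ (A + 4)) :=
          mul_le_mul_of_nonneg_right h16 hE0
      _ = X / L ^ A := by
          rw [pow_add]
          field_simp
  linarith

end Pool.MP_dd84fd_nt.BX
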