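import Pool.Agent.Lib.MP_dd84fd_nt.JX.FaFin
import Pool.Agent.Lib.MP_dd84fd_nt.JX.JF1
import Pool.Agent.Lib.MP_dd84fd_nt.BX.PgBd

/-!
# BX-PgGen: GEN for the primes with boundedly many moduli

As `JX.gen_j` with `discs_boundB` and `GreedyBD`.
-/

set_option autoImplicit false

namespace Pool.MP_dd84fd_nt.BX

open Finset Pool.MP_67663b_nt.Odd Pool.MP_dd84fd_nt.En Pool.MP_dd84fd_nt.E2 Pool.MP_dd84fd_nt.LS
  Pool.MP_dd84fd_nt.GX Pool.MP_dd84fd_nt.HX Pool.MP_dd84fd_nt.IX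

open Pool.MP_dd84fd_nt.L2G (nrm)

open Pool.MP_dd84fd_nt.PL (rr)
open Pool.MP_dd84fd_nt.JX (Adm DecJ PlJ StrWJ TreeJ DecP PhJ phJ_cauchy phJ_split nm2_upI decJ_mono
  ph_discsJ w1P majP wP gP)

private theorem pg_logbig (K : ℝ) : ∃ X0 : ℕ, ∀ X : ℕ, X0 ≤ X → K ≤ Real.log (X : ℝ) := by
  have h : Filter.Tendsto (fun n : ℕ => Real.log (n : ℝ)) Filter.atTop Filter.atTop :=
    Real.tendsto_log_atTop.comp tendsto_natCast_atTop_atTop
  exact Filter.eventually_atTop.1 (h.eventually_ge_atTop K)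

private theorem pg_logpow (A : ℕ) : ∃ X0 : ℕ, ∀ X : ℕ, X0 ≤ X → (Real.log (X : ℝ)) ^ A ≤ X := by
  have h3 : ∀ᶠ x : ℝ in Filter.atTop, (Real.log x) ^ A ≤ x := by
    have h4 := (Real.isLittleO_pow_log_id_atTop (n := A)).bound one_pos
    filter_upwards [h4, Filter.eventually_ge_atTop 1] with x hx hx1
    rw [one_mul, Real.norm_eq_abs, Real.norm_eq_abs, id, abs_of_pos (by linarith : 0 < x)] at hx
    exact (le_abs_self _).trans hx
  exact Filter.eventually_atTop.1 ((tendsto_natCast_atTop_atTop (R := ℝ)).eventually h3)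

private theorem pg_wSI_le (G : ℕ) (th e : ℝ) (X Λ : ℕ) (bb : ℝ) (j : ZMod G) :
    ‖wSI G th e X Λ bb j‖ ≤ 1 := by
  unfold wSI
  split_ifs <;> simp

/-- `Expl` is monotone -/
theorem Expl.mono {M M' N N' X d : ℕ} (h : Expl M M' X d) (h1 : M ≤ N) (h2 : M' ≤ N')
    (hL : 1 ≤ Real.log X) : Expl N N' X d := by
  obtain ⟨r, k, χ, e1, e2, e3, e4, y, e5, e6⟩ := h
  refine ⟨r, k, χ, e1, e2, e3.trans h1, e4, y, e5, le_trans ?_ e6⟩
  exact div_le_div_of_nonneg_left (Nat.cast_nonneg _) (by positivity) (pow_le_pow_right₀ hL h2)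

theorem gen_bd (hSt : StrWJ) (hT : TreeJ) (hP : PlJ) (hDP : DecP) (hG : GreedyBD) (hC : CentreI) :
    GenBD := by
  classical
  intro A e η he0 he1 hη
  obtain ⟨A1, hA1⟩ : ∃ A1 : ℕ, A1 = A + 2 := ⟨_, rfl⟩
  obtain ⟨Bs, hs⟩ := hSt (2 * A1 + 6)
  obtain ⟨Bd, hd⟩ := discs_boundB hP hC A1
  obtain ⟨C2, hC2⟩ := hDP (max Bs Bd)
  obtain ⟨Cs, hs⟩ := hs 2 1 C2
  obtain ⟨K1, K2, hd⟩ := hd 2 1 C2
  obtain ⟨M, hg⟩ := hG e η he0 he1 hη
  obtain ⟨M', hg⟩ := hg K1 K2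
  refine ⟨max M M', fun th hth1 hth2 K => ?_⟩
  obtain ⟨τ, hτ⟩ : ∃ τ : ℝ, τ = 1 / 10 := ⟨_, rfl⟩
  have hA : Adm th e τ := ⟨by linarith, hth2, he0, hτ.le, by rw [hτ]; linarith⟩
  have hDec : DecJ (max Bs Bd) C2 th e τ wP := hC2 th e τ hA (by linarith)
  have hW : W1 2 1 wP gP := w1P
  have hDs : DecJ Bs C2 th e τ wP := decJ_mono (le_max_left _ _) hDec
  have hDd : DecJ Bd C2 th e τ wP := decJ_mono (le_max_right _ _) hDec
  obtain ⟨D0, hg⟩ := hg th hth1 hth2 K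
  refine ⟨max D0 1, fun D' hD' => ?_⟩
  have hD0 : D0 ≤ D' := (le_max_left _ _).trans hD'
  have hD1 : 1 ≤ D' := (le_max_right _ _).trans hD'
  obtain ⟨Xt, hXt⟩ := hT A1 Cs th e τ hA
  obtain ⟨Xs, hXs⟩ := hs th e τ hA wP gP hW hDs D' hD1
  obtain ⟨Xd, hXd⟩ := hd th e τ hA wP gP hW hDd D' hD1
  obtain ⟨Xg, hXg⟩ := hg D' hD0
  obtain ⟨Xp, hXp⟩ := ph_discsJ 2 1 wP gP hW th e τ hA D'
  obtain ⟨Xv, hXv⟩ := nm2_upI 2 1 wP gP hW D'
  obtain ⟨Xn, hXn⟩ := nm2_uI 2 1 wP gP hW D'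
  obtain ⟨Xl, hXl⟩ := pg_logbig 4
  obtain ⟨Xm, hXm⟩ := pg_logpow A1
  refine ⟨max (max (max Xt Xs) (max Xd Xg)) (max (max Xp Xv) (max (max Xn Xl) (max Xm 2))),
    fun X hX => ?_⟩
  have g1 : Xt ≤ X := by omega
  have g2 : Xs ≤ X := by omega
  have g3 : Xd ≤ X := by omega
  have g4 : Xg ≤ X := by omega
  have g5 : Xp ≤ X := by omega
  have g6 : Xv ≤ X := by omega
  have g7 : Xn ≤ X := by omega
  have g8 : Xl ≤ X := by omega
  have g9 : Xm ≤ X := by omega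
  have g10 : 2 ≤ X := by omega
  have hL := hXl X g8
  have hLm := hXm X g9
  obtain ⟨D, hDcard, hDmem, hDgood⟩ := hXg X g4
  obtain ⟨us, eu, hus, huse, heu⟩ := hXs X g2 (-1) (by norm_num)
  obtain ⟨vs, ev, hvs, hvse, hev⟩ := hXs X g2 1 (by norm_num)
  obtain ⟨w, hw⟩ : ∃ w : ℕ, w = wX D' X := ⟨_, rfl⟩
  rw [← hw] at huse hvse
  set L : ℝ := Real.log (X : ℝ) with hLd
  have hX1 : (1 : ℝ) ≤ X := by exact_mod_cast (by omega : 1 ≤ X)
  have hX0 : (0 : ℝ) < X := by linarith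
  have hL0 : 0 < L := by linarith
  have hXz : X ≠ 0 := by omega
  -- the modulus
  obtain ⟨G, hGe⟩ : ∃ G : ℕ, G = X ^ 10 := ⟨_, rfl⟩
  have hGz : NeZero G := ⟨by rw [hGe]; positivity⟩
  have hG3 : 3 * X ≤ G := by
    rw [hGe]
    have h1 : 2 ^ 9 ≤ X ^ 9 := Nat.pow_le_pow_left g10 9
    calc 3 * X ≤ X ^ 9 * X := Nat.mul_le_mul_right X (by omega)
      _ = X ^ 10 := by ring
  have hG5 : X ^ 5 ≤ G := by
    rw [hGe]
    exact Nat.pow_le_pow_right (by omega) (by norm_num)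
  obtain ⟨Ex, hEx⟩ : ∃ Ex : Finset ℕ, Ex = (Icc 1 X).filter (fun n => ∀ (Λ : ℕ) (bb : ℝ),
      1 ≤ Λ → 1 ≤ bb → (Λ : ℝ) * bb ≤ 2 * (X : ℝ) ^ (1 - th + e) →
      (X : ℝ) / L ^ A1 < ‖PhJ G X us vs (wSI G th e X Λ bb) n‖) := ⟨_, rfl⟩
  refine ⟨D, Ex, hDcard.trans (le_max_left _ _), fun d hd => ?_, ?_, ?_⟩
  · obtain ⟨f1, f2, f3⟩ := hDmem d hd
    exact ⟨f1, f2, f3.mono (le_max_left _ _) (le_max_right _ _) (by linarith)⟩
  · refine hXt X g1 G hG5 us vs hus hvs Ex ?_ ?_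
    · rw [hEx]
      exact Finset.filter_subset _ _
    · intro n hn Λ bb h1 h2 h3
      rw [hEx, Finset.mem_filter] at hn
      exact hn.2 Λ bb h1 h2 h3
  · intro n hn1 hn2 _ hnEx hnD
    have hn0 : 1 ≤ n := by omega
    have hex : ∃ (Λ : ℕ) (bb : ℝ), 1 ≤ Λ ∧ 1 ≤ bb ∧ (Λ : ℝ) * bb ≤ 2 * (X : ℝ) ^ (1 - th + e) ∧
        ‖PhJ G X us vs (wSI G th e X Λ bb) n‖ ≤ (X : ℝ) / L ^ A1 := by
      by_contra hc
      apply hnEx
      rw [hEx, Finset.mem_filter]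
      refine ⟨Finset.mem_Icc.2 ⟨hn0, hn2⟩, fun Λ bb h1 h2 h3 => ?_⟩
      by_contra h4
      exact hc ⟨Λ, bb, h1, h2, h3, not_lt.1 h4⟩
    obtain ⟨Λ, bb, hΛ, hbb, hΛb, hsmall⟩ := hex
    obtain ⟨R, hR⟩ : ∃ R : ℝ, R = η * ((n : ℝ) / (Nat.totient n : ℝ)) * (X / L ^ 2) := ⟨_, rfl⟩
    have hgood := hDgood n hn1 hn2 hnD
    rw [← hR, ← hw] at hgood
    have hR0 : 0 ≤ R := by rw [hR]; positivity
    have hdisc := hXd X g3 n hn1 hn2 R (by rw [← hw]; exact hgood) Λ bb hΛ hbb hΛb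
    rw [← hw] at hdisc
    have hph := hXp X g5 Λ bb hΛ hbb hΛb G (by rw [hGe]) n hn2
    rw [← hw] at hph
    have hrep := repI wP gP X G w hG3 n hn0 hn2
    have hone := ph_one G wP gP th e X w Λ n bb (tr G X (upI wP gP X w))
    have hJ : PhI G wP gP X w (tr G X (upI wP gP X w)) (wSI G th e X Λ bb) n =
        PhJ G X (uI wP gP X w) (upI wP gP X w) (wSI G th e X Λ bb) n := rfl
    have hV := phJ_split G X (uI wP gP X w) (upI wP gP X w) us eu vs ev (wSI G th e X Λ bb) n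
      (fun m hm => by rw [← huse m hm]; unfold uI; ring)
      (fun m hm => by rw [← hvse m hm]; unfold upI; ring)
    -- the error parts
    have hXG : X < G := by omega
    have hwb := fun j => pg_wSI_le G th e X Λ bb j
    have hU := hXn X g7 G hG3
    rw [← hw] at hU
    have hU' := hXv X g6 G hG3
    rw [← hw] at hU'
    have hEu : nm2 G (tr G X eu) ≤ X / L ^ (2 * A1 + 6) := by
      unfold nm2
      rw [parseval G X hXG]
      exact heu
    have hEv : nm2 G (tr G X ev) ≤ X / L ^ (2 * A1 + 6) := by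
      unfold nm2
      rw [parseval G X hXG]
      exact hev
    have hn0' : ∀ f : ℕ → ℝ, 0 ≤ nm2 G (tr G X f) := by
      intro f
      unfold nm2
      positivity
    have hpw : L ^ (2 * A1 + 6) = L ^ 4 * (L ^ (A1 + 1)) ^ 2 := by
      rw [← pow_mul, ← pow_add]
      congr 1
      ring
    have hXL : (X * L ^ 4) * (X / L ^ (2 * A1 + 6)) = (X / L ^ (A1 + 1)) ^ 2 := by
      rw [hpw]
      field_simp
    have hle : X / L ^ (A1 + 1) ≤ X / L ^ A1 :=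
      div_le_div_of_nonneg_left hX0.le (by positivity)
        (pow_le_pow_right₀ (by linarith) (by omega))
    have hsq : ∀ z : ℝ, 0 ≤ z → z ^ 2 ≤ (X / L ^ (A1 + 1)) ^ 2 → z ≤ X / L ^ A1 :=
      fun z hz h => ((sq_le_sq₀ hz (by positivity)).1 h).trans hle
    have hP1 : ‖PhJ G X (uI wP gP X w) ev (wSI G th e X Λ bb) n‖ ≤ X / L ^ A1 := by
      refine hsq _ (norm_nonneg _) ?_
      rw [← hXL]
      exact (phJ_cauchy G X _ ev _ hwb n).trans (mul_le_mul hU hEv (hn0' _) (by positivity))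
    have hP2 : ‖PhJ G X eu (upI wP gP X w) (wSI G th e X Λ bb) n‖ ≤ X / L ^ A1 := by
      refine hsq _ (norm_nonneg _) ?_
      rw [← hXL, mul_comm (X * L ^ 4)]
      exact (phJ_cauchy G X eu _ _ hwb n).trans (mul_le_mul hEu hU' (hn0' _) (by positivity))
    have hP3 : ‖PhJ G X eu ev (wSI G th e X Λ bb) n‖ ≤ X / L ^ A1 := by
      refine hsq _ (norm_nonneg _) ?_
      rw [← hXL]
      refine (phJ_cauchy G X eu ev _ hwb n).trans (mul_le_mul ?_ hEv (hn0' _) (by positivity))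
      refine hEu.trans ((div_le_self hX0.le (one_le_pow₀ (by linarith))).trans ?_)
      exact le_mul_of_one_le_right hX0.le (one_le_pow₀ (by linarith))
    have hE1 : 1 ≤ X / L ^ A1 := by
      rw [le_div_iff₀ (by positivity), one_mul]
      exact hLm
    have htot : ‖PhI G wP gP X w (tr G X (upI wP gP X w)) (fun _ => 1) n‖ ≤
        6 * (X / L ^ A1) + R := by
      rw [hone, hJ, hV]
      have h5 : ‖PhI G wP gP X w (tr G X (upI wP gP X w)) (fun j => 1 - wSI G th e X Λ bb j) n‖ ≤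
          1 + (X / L ^ A1 + R) := by
        have h6 : PhI G wP gP X w (tr G X (upI wP gP X w)) (fun j => 1 - wSI G th e X Λ bb j) n =
            (PhI G wP gP X w (tr G X (upI wP gP X w)) (fun j => 1 - wSI G th e X Λ bb j) n -
              ∑ q ∈ QQi th e X Λ, dsc (FFI wP gP w X n) X q (rdi th e X Λ bb q)) +
            ∑ q ∈ QQi th e X Λ, dsc (FFI wP gP w X n) X q (rdi th e X Λ bb q) := by ring
        rw [h6]
        exact (norm_add_le _ _).trans (add_le_add hph hdisc)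
      refine (norm_add_le _ _).trans ?_
      have h7 : ‖PhJ G X us vs (wSI G th e X Λ bb) n +
          PhJ G X (uI wP gP X w) ev (wSI G th e X Λ bb) n +
          PhJ G X eu (upI wP gP X w) (wSI G th e X Λ bb) n -
          PhJ G X eu ev (wSI G th e X Λ bb) n‖ ≤
          ‖PhJ G X us vs (wSI G th e X Λ bb) n‖ +
          ‖PhJ G X (uI wP gP X w) ev (wSI G th e X Λ bb) n‖ +
          ‖PhJ G X eu (upI wP gP X w) (wSI G th e X Λ bb) n‖ +
          ‖PhJ G X eu ev (wSI G th e X Λ bb) n‖ :=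
        (norm_sub_le _ _).trans (add_le_add norm_add₃_le le_rfl)
      linarith
    rw [hrep, Complex.norm_real, Real.norm_eq_abs] at htot
    rw [← hw, ← hR]
    refine htot.trans (add_le_add ?_ le_rfl)
    have h8 : L ^ A1 = L ^ 2 * L ^ A := by
      rw [hA1]
      ring
    rw [h8, mul_div_assoc', div_le_div_iff₀ (by positivity) (by positivity)]
    have h9 : 6 ≤ L ^ 2 := by nlinarith
    have h10 : 0 ≤ X * L ^ A := by positivity
    calc 6 * (X : ℝ) * L ^ A = 6 * (X * L ^ A) := by ring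
      _ ≤ L ^ 2 * (X * L ^ A) := mul_le_mul_of_nonneg_right h9 h10
      _ = X * (L ^ 2 * L ^ A) := by ring

end Pool.MP_dd84fd_nt.BX
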