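import Pool.Agent.Lib.MP_dd84fd_nt.JX.Main
import Pool.Agent.Lib.MP_dd84fd_nt.BX.PgGen
import Pool.Agent.Lib.MP_dd84fd_nt.BX.PgFin

/-!
# BX-PgMain: `GreedyBD` implies the theorem
-/

set_option autoImplicit false

namespace Pool.MP_dd84fd_nt.BX

open Pool.MP_dd84fd_nt.JX

theorem fin_of_greedy (hG : GreedyBD) : FinBD :=
  fin_bd (gen_bd strWJ tree_all Pool.MP_dd84fd_nt.JXP.pl_j decP hG Pool.MP_dd84fd_nt.IX.centre_i)

end Pool.MP_dd84fd_nt.BX
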