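import Pool.Agent.Lib.MP_dd84fd_nt.BX.As7
import Pool.Agent.Lib.MP_dd84fd_nt.BX.Ar7
import Pool.Agent.Lib.MP_dd84fd_nt.BX.Lt
import Pool.Agent.Lib.MP_dd84fd_nt.BX.Gau
import Pool.Agent.Lib.MP_dd84fd_nt.BX.CSl
import Pool.Agent.Lib.MP_dd84fd_nt.BX.LsH
import Pool.Agent.Lib.MP_dd84fd_nt.BX.Ex
import Pool.Agent.Lib.MP_dd84fd_nt.BX.PgMain

/-!
# BX-Main: boundedly many moduli at the exponent 1/3
-/

set_option autoImplicit false

namespace Pool.MP_dd84fd_nt.BX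

theorem greedy_all : GreedyBD :=
  greedyBD (arcBD_of_light lightBD) gauBD parBD slBD_all hvBD exBD

theorem fin_all : FinBD := fin_of_greedy greedy_all

end Pool.MP_dd84fd_nt.BX
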